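import Pool.Agent.W_f50700_h3.Expo1

/-!
Expo2: counting first passage words and words with bounded `F`.
-/

open Matrix

namespace Pool.Agent.W_f50700_h3

variable {A : ℕ}

/-- the words of length `n` -/
noncomputable def expo2_wl (A n : ℕ) : Finset (List (Lt A)) := by
  classical
  exact Finset.univ.image (fun f : Fin n → Lt A => List.ofFn f)

theorem expo2_mem_wl {n : ℕ} {w : List (Lt A)} : w ∈ expo2_wl A n ↔ w.length = n := by
  classical
  unfold expo2_wl
  constructor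
  · intro h
    obtain ⟨f, -, rfl⟩ := Finset.mem_image.1 h
    exact List.length_ofFn
  · rintro rfl
    obtain ⟨f, hf⟩ := expo1_ofFn w
    exact Finset.mem_image.2 ⟨f, Finset.mem_univ _, hf⟩

theorem expo2_asum_eq (s : ℝ) (n : ℕ) :
    asum A s n = ∑ w ∈ expo2_wl A n, ((F w : ℕ) : ℝ) ^ (-s) := by
  classical
  unfold asum expo2_wl
  rw [Finset.sum_image (List.ofFn_injective.injOn)]

theorem expo2_sum_wl {Z : ℝ} (hZ : 1 < Z) {n : ℕ} (hn : ∀ u ∈ passF A Z, u.length ≤ n)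
    (hn2 : Z ≤ (2 : ℝ) ^ n) (f : List (Lt A) → ℝ) :
    ∑ w ∈ expo2_wl A n, f w =
      ∑ u ∈ passF A Z, ∑ v ∈ expo2_wl A (n - u.length), f (u ++ v) := by
  rw [Finset.sum_sigma']
  symm
  refine Finset.sum_bij (fun p _ => p.1 ++ p.2) ?_ ?_ ?_ ?_
  · rintro ⟨u, v⟩ h
    obtain ⟨h1, h2⟩ := Finset.mem_sigma.1 h
    have h3 := expo2_mem_wl.1 h2
    have h4 := hn u h1
    dsimp only at h3
    refine expo2_mem_wl.2 ?_
    show (u ++ v).length = n
    rw [List.length_append]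
    omega
  · rintro ⟨u, v⟩ h ⟨u', v'⟩ h' he
    obtain ⟨h1, -⟩ := Finset.mem_sigma.1 h
    obtain ⟨h2, -⟩ := Finset.mem_sigma.1 h'
    obtain ⟨h3, h4⟩ := pass_prefix_unique h1 h2 he
    dsimp only at h3 h4
    subst h3
    subst h4
    rfl
  · intro w hw
    have hw' := expo2_mem_wl.1 hw
    have h2 : Z ≤ (F w : ℝ) := by
      refine hn2.trans ?_
      rw [← hw']
      exact_mod_cast two_pow_le_F w
    obtain ⟨u, hu, v, rfl⟩ := exists_pass_prefix hZ h2
    refine ⟨⟨u, v⟩, Finset.mem_sigma.2 ⟨hu, expo2_mem_wl.2 ?_⟩, rfl⟩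
    rw [List.length_append] at hw'
    show v.length = n - u.length
    omega
  · intro _ _
    rfl

/-- (E2): proof: take `n` at least the length of all `w ∈ passF A Z`; every word of length `n` has
exactly one prefix in `passF A Z`; so `asum n` is the double sum over `u ∈ passF A Z` and words `v`
of length `n - |u|` of `F (u v)^(-s)`, compare with `F u^(-s) asum (n-|u|)` by
`F u F v ≤ F (u v) ≤ 2 F u F v` and use `one_le_asum`, `asum_le_two`. -/
theorem sum_pass_bounds (hA : 1 ≤ A) {Z : ℝ} (hZ : 1 < Z) :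
    (2 : ℝ) ^ (-(sexp A)) ≤ ∑ w ∈ passF A Z, ((F w : ℕ) : ℝ) ^ (-(sexp A)) ∧
    ∑ w ∈ passF A Z, ((F w : ℕ) : ℝ) ^ (-(sexp A)) ≤ (4 : ℝ) ^ (sexp A) := by
  set s := sexp A with hs
  have hs0 : 0 ≤ s := sexp_nonneg A
  obtain ⟨m, hm⟩ := pow_unbounded_of_one_lt Z (show (1 : ℝ) < 2 by norm_num)
  set n := max m ((passF A Z).sup List.length) with hn
  have h1 : ∀ u ∈ passF A Z, u.length ≤ n := fun u hu =>
    (Finset.le_sup (f := List.length) hu).trans (le_max_right _ _)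
  have h2 : Z ≤ (2 : ℝ) ^ n :=
    hm.le.trans (pow_le_pow_right₀ (by norm_num) (le_max_left _ _))
  have key := expo2_sum_wl hZ h1 h2 (fun w => ((F w : ℕ) : ℝ) ^ (-s))
  rw [← expo2_asum_eq] at key
  have hinv : (2 : ℝ) ^ (-s) * (2 : ℝ) ^ s = 1 := by
    rw [← Real.rpow_add (by norm_num), neg_add_cancel, Real.rpow_zero]
  have hpos : (0 : ℝ) < (2 : ℝ) ^ (-s) := Real.rpow_pos_of_pos (by norm_num) _
  have hpos2 : (0 : ℝ) < (2 : ℝ) ^ s := Real.rpow_pos_of_pos (by norm_num) _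
  constructor
  · have h3 : asum A s n ≤ ∑ u ∈ passF A Z, ((F u : ℕ) : ℝ) ^ (-s) * (2 : ℝ) ^ s := by
      rw [key]
      refine Finset.sum_le_sum fun u _ => ?_
      calc ∑ v ∈ expo2_wl A (n - u.length), ((F (u ++ v) : ℕ) : ℝ) ^ (-s)
          ≤ ∑ v ∈ expo2_wl A (n - u.length), ((F u : ℕ) : ℝ) ^ (-s) * ((F v : ℕ) : ℝ) ^ (-s) := by
            refine Finset.sum_le_sum fun v _ => ?_
            rw [← Real.mul_rpow (expo1_F_pos _).le (expo1_F_pos _).le]
            refine Real.rpow_le_rpow_of_nonpos (mul_pos (expo1_F_pos _) (expo1_F_pos _)) ?_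
              (neg_nonpos.2 hs0)
            exact_mod_cast F_mul_le u v
        _ = ((F u : ℕ) : ℝ) ^ (-s) * asum A s (n - u.length) := by
            rw [← Finset.mul_sum, ← expo2_asum_eq]
        _ ≤ _ := mul_le_mul_of_nonneg_left (asum_le_two hA _)
            (Real.rpow_pos_of_pos (expo1_F_pos _) _).le
    rw [← Finset.sum_mul] at h3
    have h4 := (one_le_asum hA n).trans h3
    calc (2 : ℝ) ^ (-s) = (2 : ℝ) ^ (-s) * 1 := (mul_one _).symm
      _ ≤ (2 : ℝ) ^ (-s) * ((∑ u ∈ passF A Z, ((F u : ℕ) : ℝ) ^ (-s)) * (2 : ℝ) ^ s) :=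
          mul_le_mul_of_nonneg_left h4 hpos.le
      _ = ((2 : ℝ) ^ (-s) * (2 : ℝ) ^ s) * ∑ u ∈ passF A Z, ((F u : ℕ) : ℝ) ^ (-s) := by ring
      _ = _ := by rw [hinv, one_mul]
  · have h3 : ∑ u ∈ passF A Z, (2 : ℝ) ^ (-s) * ((F u : ℕ) : ℝ) ^ (-s) ≤ asum A s n := by
      rw [key]
      refine Finset.sum_le_sum fun u _ => ?_
      calc (2 : ℝ) ^ (-s) * ((F u : ℕ) : ℝ) ^ (-s)
          = (2 : ℝ) ^ (-s) * ((F u : ℕ) : ℝ) ^ (-s) * 1 := (mul_one _).symm
        _ ≤ (2 : ℝ) ^ (-s) * ((F u : ℕ) : ℝ) ^ (-s) * asum A s (n - u.length) :=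
            mul_le_mul_of_nonneg_left (one_le_asum hA _)
              (mul_pos hpos (Real.rpow_pos_of_pos (expo1_F_pos _) _)).le
        _ = ∑ v ∈ expo2_wl A (n - u.length),
            (2 : ℝ) ^ (-s) * (((F u : ℕ) : ℝ) ^ (-s) * ((F v : ℕ) : ℝ) ^ (-s)) := by
            rw [← Finset.mul_sum, ← Finset.mul_sum, ← expo2_asum_eq]
            ring
        _ ≤ ∑ v ∈ expo2_wl A (n - u.length), ((F (u ++ v) : ℕ) : ℝ) ^ (-s) := by
            refine Finset.sum_le_sum fun v _ => ?_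
            rw [← Real.mul_rpow (expo1_F_pos _).le (expo1_F_pos _).le,
              ← Real.mul_rpow (by norm_num) (mul_pos (expo1_F_pos _) (expo1_F_pos _)).le]
            refine Real.rpow_le_rpow_of_nonpos (expo1_F_pos _) ?_ (neg_nonpos.2 hs0)
            exact_mod_cast F_append_le u v
    rw [← Finset.mul_sum] at h3
    have h4 := h3.trans (asum_le_two hA n)
    have h5 : (4 : ℝ) ^ s = (2 : ℝ) ^ s * (2 : ℝ) ^ s := by
      rw [← Real.mul_rpow (by norm_num) (by norm_num)]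
      norm_num
    rw [h5]
    calc ∑ u ∈ passF A Z, ((F u : ℕ) : ℝ) ^ (-s)
        = (2 : ℝ) ^ s * ((2 : ℝ) ^ (-s) * ∑ u ∈ passF A Z, ((F u : ℕ) : ℝ) ^ (-s)) := by
          rw [← mul_assoc, mul_comm ((2 : ℝ) ^ s), hinv, one_mul]
      _ ≤ _ := mul_le_mul_of_nonneg_left h4 hpos2.le

theorem expo2_card_lower (hA : 1 ≤ A) {Z : ℝ} (hZ : 1 < Z) :
    (2 : ℝ) ^ (-(sexp A)) * Z ^ (sexp A) ≤ ((passF A Z).card : ℝ) := by
  have h1 := (sum_pass_bounds hA hZ).1
  have hs0 : 0 ≤ sexp A := sexp_nonneg A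
  set s := sexp A with hs
  have hZ0 : 0 < Z := by linarith
  have h2 : ∑ w ∈ passF A Z, ((F w : ℕ) : ℝ) ^ (-s) ≤ ((passF A Z).card : ℝ) * Z ^ (-s) := by
    refine (Finset.sum_le_card_nsmul _ _ (Z ^ (-s)) fun w hw => ?_).trans
      (le_of_eq (nsmul_eq_mul _ _))
    exact Real.rpow_le_rpow_of_nonpos hZ0 (passF_bounds hw).1 (neg_nonpos.2 hs0)
  have h3 := h1.trans h2
  have hpos : 0 < Z ^ s := Real.rpow_pos_of_pos hZ0 _
  calc (2 : ℝ) ^ (-s) * Z ^ s ≤ ((passF A Z).card : ℝ) * Z ^ (-s) * Z ^ s :=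
        mul_le_mul_of_nonneg_right h3 hpos.le
    _ = ((passF A Z).card : ℝ) * (Z ^ (-s) * Z ^ s) := by ring
    _ = _ := by rw [← Real.rpow_add hZ0, neg_add_cancel, Real.rpow_zero, mul_one]

theorem expo2_card_upper (hA : 1 ≤ A) {Z : ℝ} (hZ : 1 < Z) :
    ((passF A Z).card : ℝ) ≤ ((4 : ℝ) ^ (sexp A) * (CA A) ^ (sexp A)) * Z ^ (sexp A) := by
  have h1 := (sum_pass_bounds hA hZ).2
  have hs0 : 0 ≤ sexp A := sexp_nonneg A
  set s := sexp A with hs
  have hZ0 : 0 < Z := by linarith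
  have hC : 0 < CA A := by
    have := base3_CA_ge A
    linarith
  have hCZ : 0 < CA A * Z := mul_pos hC hZ0
  have h2 : ((passF A Z).card : ℝ) * (CA A * Z) ^ (-s) ≤
      ∑ w ∈ passF A Z, ((F w : ℕ) : ℝ) ^ (-s) := by
    refine (le_of_eq (nsmul_eq_mul _ _).symm).trans
      (Finset.card_nsmul_le_sum _ _ ((CA A * Z) ^ (-s)) fun w hw => ?_)
    exact Real.rpow_le_rpow_of_nonpos (expo1_F_pos _) (passF_bounds hw).2 (neg_nonpos.2 hs0)
  have h3 := h2.trans h1
  have hpos : 0 < (CA A * Z) ^ s := Real.rpow_pos_of_pos hCZ _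
  calc ((passF A Z).card : ℝ)
      = ((passF A Z).card : ℝ) * ((CA A * Z) ^ (-s) * (CA A * Z) ^ s) := by
        rw [← Real.rpow_add hCZ, neg_add_cancel, Real.rpow_zero, mul_one]
    _ = ((passF A Z).card : ℝ) * (CA A * Z) ^ (-s) * (CA A * Z) ^ s := by ring
    _ ≤ (4 : ℝ) ^ s * (CA A * Z) ^ s := mul_le_mul_of_nonneg_right h3 hpos.le
    _ = _ := by rw [Real.mul_rpow hC.le hZ0.le]; ring

/-- (E3) for first passage sets: `F w` is in `[Z, CA A * Z]` there -/
theorem card_passF_bounds (hA : 1 ≤ A) : ∃ c C : ℝ, 0 < c ∧ 0 < C ∧ ∀ Z : ℝ, 1 < Z →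
    c * Z ^ (sexp A) ≤ ((passF A Z).card : ℝ) ∧ ((passF A Z).card : ℝ) ≤ C * Z ^ (sexp A) := by
  have hC : 0 < CA A := by
    have := base3_CA_ge A
    linarith
  exact ⟨_, _, Real.rpow_pos_of_pos (by norm_num) _,
    mul_pos (Real.rpow_pos_of_pos (by norm_num) _) (Real.rpow_pos_of_pos hC _),
    fun Z hZ => ⟨expo2_card_lower hA hZ, expo2_card_upper hA hZ⟩⟩

theorem sexp_pos (hA : 2 ≤ A) : 0 < sexp A := by
  have hA1 : 1 ≤ A := by omega
  have hc : Continuous (fun s : ℝ => (2 : ℝ) ^ (-s) * asum A s 1) :=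
    ((Real.continuous_const_rpow (by norm_num)).comp continuous_neg).mul (asum_continuous 1)
  have h0 : (1 : ℝ) < (2 : ℝ) ^ (-(0 : ℝ)) * asum A 0 1 := by
    rw [asum_at_zero, neg_zero, Real.rpow_zero, one_mul, pow_one]
    have h1 : (2 : ℝ) ≤ (A : ℝ) := by exact_mod_cast hA
    nlinarith
  have h1 : ∀ᶠ s in nhds (0 : ℝ), 1 < (2 : ℝ) ^ (-s) * asum A s 1 :=
    hc.continuousAt.eventually (lt_mem_nhds h0)
  obtain ⟨ε, hε, hball⟩ := Metric.eventually_nhds_iff.1 h1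
  refine lt_of_lt_of_le (show 0 < ε by exact hε) ?_
  refine le_csInf (expo1_nonempty A) ?_
  rintro s ⟨hs, n, hn⟩
  by_contra hlt
  rw [not_le] at hlt
  have h2 := hball (y := s) (by rw [Real.dist_eq, sub_zero, abs_of_nonneg hs]; exact hlt)
  have h2s : (2 : ℝ) ^ (-s) ≤ 1 := Real.rpow_le_one_of_one_le_of_nonpos (by norm_num) (by linarith)
  have hpos : (0 : ℝ) < (2 : ℝ) ^ (-s) := Real.rpow_pos_of_pos (by norm_num) _
  have h3 : ∀ k : ℕ, 1 ≤ (2 : ℝ) ^ (-s) * asum A s (k + 1) := by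
    intro k
    induction k with
    | zero => exact h2.le
    | succ k ih =>
      have h4 := asum_add_ge (A := A) hs (k + 1) 1
      have h5 : 1 * 1 ≤ ((2 : ℝ) ^ (-s) * asum A s (k + 1)) * ((2 : ℝ) ^ (-s) * asum A s 1) :=
        mul_le_mul ih h2.le (by norm_num) (by linarith)
      calc (1 : ℝ) = 1 * 1 := by norm_num
        _ ≤ ((2 : ℝ) ^ (-s) * asum A s (k + 1)) * ((2 : ℝ) ^ (-s) * asum A s 1) := h5
        _ = (2 : ℝ) ^ (-s) * ((2 : ℝ) ^ (-s) * (asum A s (k + 1) * asum A s 1)) := by ring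
        _ ≤ _ := mul_le_mul_of_nonneg_left h4 hpos.le
  rcases Nat.eq_zero_or_pos n with h4 | h4
  · subst h4
    rw [asum_zero] at hn
    exact lt_irrefl _ hn
  · obtain ⟨k, rfl⟩ : ∃ k, n = k + 1 := ⟨n - 1, by omega⟩
    have h5 := h3 k
    have h6 : (2 : ℝ) ^ (-s) * asum A s (k + 1) ≤ 1 * asum A s (k + 1) :=
      mul_le_mul_of_nonneg_right h2s (expo1_asum_nonneg _ _)
    linarith

theorem expo2_words_subset {X : ℝ} (hX : 1 ≤ X) :
    wordsF A X ⊆ {[]} ∪ (Finset.range (Nat.log 2 ⌊X⌋₊ + 1)).biUnion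
      (fun j => if j = 0 then ∅ else passF A ((2 : ℝ) ^ j)) := by
  intro w hw
  have h1 := mem_wordsF.1 hw
  by_cases hw0 : w = []
  · exact Finset.mem_union_left _ (Finset.mem_singleton.2 hw0)
  · refine Finset.mem_union_right _ (Finset.mem_biUnion.2 ⟨Nat.log 2 (F w), ?_, ?_⟩)
    · refine Finset.mem_range.2 (Nat.lt_succ_of_le (Nat.log_mono_right ?_))
      exact Nat.le_floor h1
    · have h2 : 2 ≤ F w := by
        have h3 := two_pow_le_F w
        have h4 : 2 ^ 1 ≤ 2 ^ w.length :=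
          Nat.pow_le_pow_right (by norm_num) (List.length_pos_iff.2 hw0)
        omega
      have h3 : 0 < Nat.log 2 (F w) := Nat.log_pos (by norm_num) h2
      rw [if_neg h3.ne']
      have h4 : 2 ^ Nat.log 2 (F w) ≤ F w := Nat.pow_log_le_self 2 (F_pos w).ne'
      have h5 : F w < 2 ^ (Nat.log 2 (F w) + 1) := Nat.lt_pow_succ_log_self (by norm_num) _
      refine mem_passF_of_dyadic ?_ (by exact_mod_cast h4) ?_
      · exact one_lt_pow₀ (by norm_num) h3.ne'
      · have h6 : (F w : ℝ) < (2 : ℝ) ^ (Nat.log 2 (F w) + 1) := by exact_mod_cast h5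
        rw [pow_succ] at h6
        linarith

/-- (E3) for balls -/
theorem card_wordsF_bounds (hA : 2 ≤ A) : ∃ c C : ℝ, 0 < c ∧ 0 < C ∧ ∀ X : ℝ, 1 ≤ X →
    c * X ^ (sexp A) ≤ ((wordsF A X).card : ℝ) ∧ ((wordsF A X).card : ℝ) ≤ C * X ^ (sexp A) := by
  have hA1 : 1 ≤ A := by omega
  have hCA := base3_CA_ge A
  have hC : 0 < CA A := by linarith
  have hspos := sexp_pos hA
  set s := sexp A with hs
  obtain ⟨c, C, hc0, hC0, hb⟩ := card_passF_bounds (A := A) hA1
  rw [← hs] at hb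
  set r : ℝ := (2 : ℝ) ^ s with hr
  have hr1 : 1 < r := Real.one_lt_rpow (by norm_num) hspos
  refine ⟨min c 1 * (CA A) ^ (-s), 1 + C * (r / (r - 1)), mul_pos (lt_min hc0 one_pos)
    (Real.rpow_pos_of_pos hC _), by
      have : 0 < C * (r / (r - 1)) := mul_pos hC0 (div_pos (by linarith) (by linarith))
      linarith, fun X hX => ⟨?_, ?_⟩⟩
  · have hX0 : 0 < X := by linarith
    have hXC : 0 < X / CA A := div_pos hX0 hC
    have h0 : (CA A) ^ (-s) * X ^ s = (X / CA A) ^ s := by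
      rw [Real.div_rpow hX0.le hC.le, Real.rpow_neg hC.le]
      ring
    rw [mul_assoc, h0]
    by_cases h1 : 1 < X / CA A
    · have h2 := (hb _ h1).1
      have h3 : (passF A (X / CA A)).card ≤ (wordsF A X).card := by
        refine Finset.card_le_card fun w hw => mem_wordsF.2 ?_
        have h4 := (passF_bounds hw).2
        rwa [mul_div_cancel₀ _ hC.ne'] at h4
      calc min c 1 * (X / CA A) ^ s ≤ c * (X / CA A) ^ s :=
            mul_le_mul_of_nonneg_right (min_le_left _ _) (Real.rpow_pos_of_pos hXC _).le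
        _ ≤ ((passF A (X / CA A)).card : ℝ) := h2
        _ ≤ _ := by exact_mod_cast h3
    · have h2 : (X / CA A) ^ s ≤ 1 := Real.rpow_le_one hXC.le (not_lt.1 h1) hspos.le
      have h3 : 1 ≤ (wordsF A X).card := by
        refine Finset.card_pos.2 ⟨[], mem_wordsF.2 ?_⟩
        rw [F_nil, Nat.cast_one]
        exact hX
      calc min c 1 * (X / CA A) ^ s ≤ 1 * 1 :=
            mul_le_mul (min_le_right _ _) h2 (Real.rpow_pos_of_pos hXC _).le (by norm_num)
        _ = 1 := one_mul _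
        _ ≤ _ := by exact_mod_cast h3
  · have hX0 : 0 < X := by linarith
    have hXs : 1 ≤ X ^ s := Real.one_le_rpow hX hspos.le
    set J := Nat.log 2 ⌊X⌋₊ with hJ
    have hfl : ⌊X⌋₊ ≠ 0 := by
      have := Nat.le_floor (a := X) (n := 1) (by simpa using hX)
      omega
    have hJX : (2 : ℝ) ^ J ≤ X := by
      have h1 : 2 ^ J ≤ ⌊X⌋₊ := Nat.pow_log_le_self 2 hfl
      have h2 : ((2 ^ J : ℕ) : ℝ) ≤ (⌊X⌋₊ : ℝ) := by exact_mod_cast h1
      have h3 := Nat.floor_le hX0.le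
      push_cast at h2
      linarith
    have h1 : ((wordsF A X).card : ℝ) ≤ 1 + ∑ j ∈ Finset.range (J + 1), C * r ^ j := by
      have h2 := Finset.card_le_card (expo2_words_subset (A := A) hX)
      have h3 := h2.trans (Finset.card_union_le _ _)
      have h4 := h3.trans (Nat.add_le_add_left Finset.card_biUnion_le _)
      rw [Finset.card_singleton] at h4
      have h5 : ((wordsF A X).card : ℝ) ≤ 1 + ∑ j ∈ Finset.range (J + 1),
          (((if j = 0 then ∅ else passF A ((2 : ℝ) ^ j) : Finset (List (Lt A))).card : ℕ) : ℝ) := by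
        exact_mod_cast h4
      refine h5.trans (add_le_add le_rfl (Finset.sum_le_sum fun j _ => ?_))
      by_cases hj : j = 0
      · rw [if_pos hj]
        simp only [Finset.card_empty, Nat.cast_zero]
        exact (mul_pos hC0 (pow_pos (by linarith) _)).le
      · rw [if_neg hj]
        have h6 := (hb ((2 : ℝ) ^ j) (one_lt_pow₀ (by norm_num) hj)).2
        have h7 : ((2 : ℝ) ^ j) ^ s = r ^ j := by
          rw [hr, ← Real.rpow_natCast, ← Real.rpow_natCast, ← Real.rpow_mul (by norm_num),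
            ← Real.rpow_mul (by norm_num), mul_comm]
        rwa [h7] at h6
    have h2 : ∑ j ∈ Finset.range (J + 1), C * r ^ j ≤ C * (r / (r - 1)) * X ^ s := by
      rw [← Finset.mul_sum, geom_sum_eq hr1.ne']
      have h3 : r ^ J ≤ X ^ s := by
        have h4 : r ^ J = ((2 : ℝ) ^ J) ^ s := by
          rw [hr, ← Real.rpow_natCast, ← Real.rpow_natCast, ← Real.rpow_mul (by norm_num),
            ← Real.rpow_mul (by norm_num), mul_comm]
        rw [h4]
        exact Real.rpow_le_rpow (by positivity) hJX hspos.le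
      have h4 : (r ^ (J + 1) - 1) / (r - 1) ≤ r / (r - 1) * X ^ s := by
        rw [div_mul_eq_mul_div]
        refine div_le_div_of_nonneg_right ?_ (by linarith)
        have h5 : r * r ^ J ≤ r * X ^ s := mul_le_mul_of_nonneg_left h3 (by linarith)
        rw [pow_succ]
        linarith
      calc C * ((r ^ (J + 1) - 1) / (r - 1)) ≤ C * (r / (r - 1) * X ^ s) :=
            mul_le_mul_of_nonneg_left h4 hC0.le
        _ = _ := by ring
    calc ((wordsF A X).card : ℝ) ≤ 1 + C * (r / (r - 1)) * X ^ s := by linarith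
      _ ≤ X ^ s + C * (r / (r - 1)) * X ^ s := by linarith
      _ = _ := by ring

/-- for `X < 1` there is no word -/
theorem wordsF_empty {X : ℝ} (h : X < 1) : wordsF A X = ∅ := by
  refine Finset.eq_empty_of_forall_notMem fun w hw => ?_
  have h1 := mem_wordsF.1 hw
  have h2 := expo1_one_le_F w
  linarith

/-- `s* ≤ 2`: a first passage word is determined by its first row, entries at most `CA A * Z` -/
theorem sexp_le_two (hA : 1 ≤ A) : sexp A ≤ 2 := by
  by_contra hcon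
  rw [not_le] at hcon
  have hCA := base3_CA_ge A
  have hC : 0 < CA A := by linarith
  have h1 : ∀ Z : ℝ, 1 < Z → ((passF A Z).card : ℝ) ≤ 4 * CA A ^ 2 * Z ^ 2 := by
    intro Z hZ
    have hCZ : 1 ≤ CA A * Z := by
      have : 1 * 1 ≤ CA A * Z := mul_le_mul (by linarith) hZ.le (by norm_num) (by linarith)
      linarith
    have h2 : (passF A Z).card ≤
        (Finset.range (⌊CA A * Z⌋₊ + 1) ×ˢ Finset.range (⌊CA A * Z⌋₊ + 1)).card := by
      refine Finset.card_le_card_of_injOn (fun w => (F w, m12 w)) ?_ ?_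
      · intro w hw
        have h3 := (passF_bounds (Finset.mem_coe.1 hw)).2
        have h4 : F w ≤ ⌊CA A * Z⌋₊ := Nat.le_floor h3
        have h5 := m12_lt w
        refine Finset.mem_coe.2 (Finset.mem_product.2 ⟨Finset.mem_range.2 ?_,
          Finset.mem_range.2 ?_⟩)
        · show F w < _
          omega
        · show m12 w < _
          omega
      · intro u _ w _ he
        exact row_injective (Prod.ext_iff.1 he).1 (Prod.ext_iff.1 he).2
    rw [Finset.card_product, Finset.card_range] at h2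
    have h3 : ((passF A Z).card : ℝ) ≤ ((⌊CA A * Z⌋₊ : ℝ) + 1) * ((⌊CA A * Z⌋₊ : ℝ) + 1) := by
      exact_mod_cast h2
    have h4 : (⌊CA A * Z⌋₊ : ℝ) ≤ CA A * Z := Nat.floor_le (by linarith)
    have h5 : ((⌊CA A * Z⌋₊ : ℝ) + 1) ≤ 2 * (CA A * Z) := by linarith
    have h6 : ((⌊CA A * Z⌋₊ : ℝ) + 1) * ((⌊CA A * Z⌋₊ : ℝ) + 1) ≤
        (2 * (CA A * Z)) * (2 * (CA A * Z)) :=
      mul_le_mul h5 h5 (by positivity) (by linarith)
    calc ((passF A Z).card : ℝ) ≤ (2 * (CA A * Z)) * (2 * (CA A * Z)) := h3.trans h6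
      _ = _ := by ring
  have h2 : Filter.Tendsto (fun Z : ℝ => Z ^ (sexp A - 2)) Filter.atTop Filter.atTop :=
    tendsto_rpow_atTop (by linarith)
  have hK : 0 < (2 : ℝ) ^ (-(sexp A)) := Real.rpow_pos_of_pos (by norm_num) _
  obtain ⟨Z, hZ1, hZ2⟩ := ((h2.eventually_gt_atTop (4 * CA A ^ 2 / (2 : ℝ) ^ (-(sexp A)))).and
    (Filter.eventually_gt_atTop (1 : ℝ))).exists
  have hZ0 : 0 < Z := by linarith
  have h3 := (expo2_card_lower hA hZ2).trans (h1 Z hZ2)
  have h4 : Z ^ (sexp A) = Z ^ (sexp A - 2) * Z ^ 2 := by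
    rw [← Real.rpow_natCast Z 2, ← Real.rpow_add hZ0]
    norm_num
  rw [h4] at h3
  rw [div_lt_iff₀ hK] at hZ1
  have h5 : 4 * CA A ^ 2 * Z ^ 2 < Z ^ (sexp A - 2) * (2 : ℝ) ^ (-(sexp A)) * Z ^ 2 :=
    mul_lt_mul_of_pos_right hZ1 (by positivity)
  have h6 : Z ^ (sexp A - 2) * (2 : ℝ) ^ (-(sexp A)) * Z ^ 2 =
      (2 : ℝ) ^ (-(sexp A)) * (Z ^ (sexp A - 2) * Z ^ 2) := by ring
  linarith

end Pool.Agent.W_f50700_h3
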