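import Pool.Agent.W_f50700_h3.Base2

/-!
Base3: finite sets of words, first passage decomposition.
-/

open Matrix

namespace Pool.Agent.W_f50700_h3

variable {A : ℕ}

theorem base3_finite_length (A N : ℕ) : {w : List (Lt A) | w.length ≤ N}.Finite :=
  List.finite_length_le (Lt A) N

/-- there are finitely many words with bounded `F` (length at most `log_2 X`) -/
theorem finite_words (A : ℕ) (X : ℝ) : {w : List (Lt A) | (F w : ℝ) ≤ X}.Finite := by
  refine (base3_finite_length A ⌊X⌋₊).subset ?_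
  intro w hw
  have h0 : (0 : ℝ) ≤ X := le_trans (Nat.cast_nonneg _) hw
  have h1 : F w ≤ ⌊X⌋₊ := Nat.le_floor hw
  have h2 : w.length < 2 ^ w.length := Nat.lt_two_pow_self
  have h3 := two_pow_le_F w
  show w.length ≤ ⌊X⌋₊
  omega

theorem mem_wordsF {X : ℝ} {w : List (Lt A)} : w ∈ wordsF A X ↔ (F w : ℝ) ≤ X := by
  unfold wordsF
  rw [dif_pos (finite_words A X), Set.Finite.mem_toFinset]
  rfl

theorem base3_F_le (A : ℕ) {w : List (Lt A)} (hw : w ≠ []) :
    (F w : ℝ) ≤ CA A * (F w.dropLast : ℝ) := by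
  have h := F_le_dropLast hw
  have h2 : (F w : ℝ) ≤ ((2 * (A ^ 2 + 1) * F w.dropLast : ℕ) : ℝ) := by exact_mod_cast h
  unfold CA
  push_cast at h2
  exact h2

theorem base3_CA_ge (A : ℕ) : 2 ≤ CA A := by
  unfold CA
  have : (0 : ℝ) ≤ (A : ℝ) ^ 2 := by positivity
  linarith

theorem finite_pass (A : ℕ) (Z : ℝ) :
    {w : List (Lt A) | w ≠ [] ∧ Z ≤ (F w : ℝ) ∧ (F w.dropLast : ℝ) < Z}.Finite := by
  refine (finite_words A (CA A * Z)).subset ?_
  rintro w ⟨h1, h2, h3⟩
  have h4 := base3_F_le A h1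
  have h5 := base3_CA_ge A
  have h6 : CA A * (F w.dropLast : ℝ) ≤ CA A * Z :=
    mul_le_mul_of_nonneg_left h3.le (by linarith)
  exact h4.trans h6

theorem mem_passF {Z : ℝ} {w : List (Lt A)} :
    w ∈ passF A Z ↔ w ≠ [] ∧ Z ≤ (F w : ℝ) ∧ (F w.dropLast : ℝ) < Z := by
  unfold passF
  rw [dif_pos (finite_pass A Z), Set.Finite.mem_toFinset]
  rfl

theorem passF_bounds {Z : ℝ} {w : List (Lt A)} (h : w ∈ passF A Z) :
    Z ≤ (F w : ℝ) ∧ (F w : ℝ) ≤ CA A * Z := by
  obtain ⟨h1, h2, h3⟩ := mem_passF.1 h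
  have h4 := base3_F_le A h1
  have h5 := base3_CA_ge A
  have h6 : CA A * (F w.dropLast : ℝ) ≤ CA A * Z :=
    mul_le_mul_of_nonneg_left h3.le (by linarith)
  exact ⟨h2, h4.trans h6⟩

/-- words with `F` in `[Y, 2Y)` are first passage words at level `Y` -/
theorem mem_passF_of_dyadic {Y : ℝ} (hY : 1 < Y) {w : List (Lt A)} (h1 : Y ≤ (F w : ℝ))
    (h2 : (F w : ℝ) < 2 * Y) : w ∈ passF A Y := by
  have hw : w ≠ [] := by
    rintro rfl
    rw [F_nil, Nat.cast_one] at h1
    linarith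
  refine mem_passF.2 ⟨hw, h1, ?_⟩
  have h3 : (2 : ℝ) * F w.dropLast ≤ F w := by exact_mod_cast two_mul_F_dropLast_le hw
  linarith

/-- existence of the first passage prefix -/
theorem exists_pass_prefix {Z : ℝ} (hZ : 1 < Z) {w : List (Lt A)} (h : Z ≤ (F w : ℝ)) :
    ∃ u ∈ passF A Z, ∃ v, w = u ++ v := by
  induction w using List.reverseRecOn with
  | nil =>
    rw [F_nil, Nat.cast_one] at h
    linarith
  | append_singleton w g ih =>
    by_cases h1 : Z ≤ (F w : ℝ)
    · obtain ⟨u, hu, v, hv⟩ := ih h1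
      exact ⟨u, hu, v ++ [g], by rw [hv, List.append_assoc]⟩
    · refine ⟨w ++ [g], mem_passF.2 ⟨by simp, h, ?_⟩, [], by simp⟩
      rw [List.dropLast_concat]
      exact lt_of_not_ge h1

theorem base3_pass_aux {Z : ℝ} {u a : List (Lt A)} (hu : u ∈ passF A Z)
    (hu' : u ++ a ∈ passF A Z) : a = [] := by
  by_contra ha
  obtain ⟨-, h2, -⟩ := mem_passF.1 hu
  obtain ⟨-, -, h3⟩ := mem_passF.1 hu'
  rw [List.dropLast_append_of_ne_nil ha] at h3
  have h4 : (F u : ℝ) ≤ F (u ++ a.dropLast) := by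
    exact_mod_cast F_le_of_prefix ⟨a.dropLast, rfl⟩
  linarith

/-- uniqueness of the first passage prefix -/
theorem pass_prefix_unique {Z : ℝ} {u u' v v' : List (Lt A)} (hu : u ∈ passF A Z)
    (hu' : u' ∈ passF A Z) (h : u ++ v = u' ++ v') : u = u' ∧ v = v' := by
  rcases List.append_eq_append_iff.1 h with ⟨a, h1, h2⟩ | ⟨a, h1, h2⟩
  · subst h1
    have := base3_pass_aux hu hu'
    subst this
    simpa using h2
  · subst h1
    have := base3_pass_aux hu' hu
    subst this
    simpa [eq_comm] using h2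

/-- summation form: a finite sum over words with `F ≥ Z` as a double sum.
`T` is any finite set of words, `f` arbitrary; the right side runs over `u` in the passage set and
`v` in any finite set `V` containing all remainders. -/
theorem sum_pass {Z : ℝ} (hZ : 1 < Z) {β : Type*} [AddCommMonoid β] (X : ℝ)
    (f : List (Lt A) → β) :
    ∑ w ∈ (wordsF A X).filter (fun w => Z ≤ (F w : ℝ)), f w =
      ∑ u ∈ passF A Z, ∑ v ∈ (wordsF A X).filter (fun v => (F (u ++ v) : ℝ) ≤ X), f (u ++ v) := by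
  rw [Finset.sum_sigma']
  symm
  refine Finset.sum_bij (fun p _ => p.1 ++ p.2) ?_ ?_ ?_ ?_
  · rintro ⟨u, v⟩ h
    obtain ⟨h1, h2⟩ := Finset.mem_sigma.1 h
    obtain ⟨h3, h4⟩ := Finset.mem_filter.1 h2
    refine Finset.mem_filter.2 ⟨mem_wordsF.2 h4, ?_⟩
    have h5 : (F u : ℝ) ≤ F (u ++ v) := by exact_mod_cast F_le_of_prefix ⟨v, rfl⟩
    exact (passF_bounds h1).1.trans h5
  · rintro ⟨u, v⟩ h ⟨u', v'⟩ h' he
    obtain ⟨h1, -⟩ := Finset.mem_sigma.1 h
    obtain ⟨h2, -⟩ := Finset.mem_sigma.1 h'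
    obtain ⟨h3, h4⟩ := pass_prefix_unique h1 h2 he
    dsimp only at h3 h4
    subst h3
    subst h4
    rfl
  · intro w hw
    obtain ⟨h1, h2⟩ := Finset.mem_filter.1 hw
    obtain ⟨u, hu, v, rfl⟩ := exists_pass_prefix hZ h2
    have h3 := mem_wordsF.1 h1
    refine ⟨⟨u, v⟩, Finset.mem_sigma.2 ⟨hu, Finset.mem_filter.2 ⟨mem_wordsF.2 ?_, h3⟩⟩, rfl⟩
    have h4 : (F v : ℝ) ≤ F (u ++ v) := by
      exact_mod_cast (Nat.le_mul_of_pos_left _ (F_pos u)).trans (F_mul_le u v)
    exact h4.trans h3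
  · intro _ _
    rfl

/-- `k`-tuples (as lists) of elements of `P` -/
noncomputable def blockF (P : Finset (List (Lt A))) : ℕ → Finset (List (List (Lt A)))
  | 0 => {[]}
  | k + 1 => by
      classical
      exact (P ×ˢ blockF P k).image (fun p => p.1 :: p.2)

theorem base3_blockF_succ (P : Finset (List (Lt A))) (k : ℕ)
    [DecidableEq (List (List (Lt A)))] :
    blockF P (k + 1) = (P ×ˢ blockF P k).image (fun p => p.1 :: p.2) := by
  rw [blockF]
  congr
  exact Subsingleton.elim _ _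

theorem card_blockF (P : Finset (List (Lt A))) (k : ℕ) : (blockF P k).card = P.card ^ k := by
  classical
  induction k with
  | zero => simp [blockF]
  | succ k ih =>
    rw [base3_blockF_succ, Finset.card_image_of_injective, Finset.card_product, ih, pow_succ,
      mul_comm]
    rintro ⟨a, b⟩ ⟨c, d⟩ h
    simpa using h

theorem mem_blockF (P : Finset (List (Lt A))) (k : ℕ) (l : List (List (Lt A))) :
    l ∈ blockF P k ↔ l.length = k ∧ ∀ u ∈ l, u ∈ P := by
  classical
  induction k generalizing l with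
  | zero =>
    simp only [blockF, Finset.mem_singleton, List.length_eq_zero_iff]
    constructor
    · rintro rfl
      simp
    · exact fun h => h.1
  | succ k ih =>
    rw [base3_blockF_succ, Finset.mem_image]
    constructor
    · rintro ⟨⟨u, l'⟩, h, rfl⟩
      obtain ⟨h1, h2⟩ := Finset.mem_product.1 h
      obtain ⟨h3, h4⟩ := (ih l').1 h2
      refine ⟨by simp [h3], ?_⟩
      intro x hx
      rcases List.mem_cons.1 hx with rfl | hx
      · exact h1
      · exact h4 x hx
    · rintro ⟨h1, h2⟩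
      cases l with
      | nil => simp at h1
      | cons u l' =>
        refine ⟨(u, l'), Finset.mem_product.2 ⟨h2 u (by simp), (ih l').2 ⟨?_, ?_⟩⟩, rfl⟩
        · simpa using h1
        · intro x hx
          exact h2 x (by simp [hx])

/-- sum over `blockF P (k+1)` as iterated sum -/
theorem sum_blockF_succ {β : Type*} [AddCommMonoid β] (P : Finset (List (Lt A))) (k : ℕ)
    (f : List (List (Lt A)) → β) :
    ∑ l ∈ blockF P (k + 1), f l = ∑ u ∈ P, ∑ l ∈ blockF P k, f (u :: l) := by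
  classical
  rw [base3_blockF_succ, Finset.sum_image, Finset.sum_product]
  rintro ⟨a, b⟩ _ ⟨c, d⟩ _ h
  simpa using h

/-- `P` is a section at level `Y`: every word with `F w ≥ Y` has exactly one prefix in `P`
(uniqueness for all words) -/
def IsSection (P : Finset (List (Lt A))) (Y : ℝ) : Prop :=
  (∀ u ∈ P, ∀ u' ∈ P, ∀ v v' : List (Lt A), u ++ v = u' ++ v' → u = u') ∧
  ∀ w : List (Lt A), Y ≤ (F w : ℝ) → ∃ u ∈ P, ∃ v, w = u ++ v

theorem passF_section (A : ℕ) {Z : ℝ} (hZ : 1 < Z) : IsSection (passF A Z) Z :=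
  ⟨fun _ hu _ hu' _ _ h => (pass_prefix_unique hu hu' h).1, fun _ h => exists_pass_prefix hZ h⟩

/-- concatenations `u ++ v` with `u ∈ P`, `v ∈ Q` -/
noncomputable def prodF (P Q : Finset (List (Lt A))) : Finset (List (Lt A)) := by
  classical
  exact (P ×ˢ Q).image (fun p => p.1 ++ p.2)

theorem base3_prodF (P Q : Finset (List (Lt A))) [DecidableEq (List (Lt A))] :
    prodF P Q = (P ×ˢ Q).image (fun p => p.1 ++ p.2) := by
  rw [prodF]
  congr
  exact Subsingleton.elim _ _

theorem base3_mem_prodF {P Q : Finset (List (Lt A))} {w : List (Lt A)} :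
    w ∈ prodF P Q ↔ ∃ a ∈ P, ∃ b ∈ Q, a ++ b = w := by
  classical
  rw [base3_prodF, Finset.mem_image]
  constructor
  · rintro ⟨⟨a, b⟩, h, rfl⟩
    obtain ⟨h1, h2⟩ := Finset.mem_product.1 h
    exact ⟨a, h1, b, h2, rfl⟩
  · rintro ⟨a, ha, b, hb, rfl⟩
    exact ⟨(a, b), Finset.mem_product.2 ⟨ha, hb⟩, rfl⟩

theorem prodF_section (A : ℕ) {Z2 Z1 : ℝ} (h2 : 1 < Z2) (h1 : 1 < Z1) :
    IsSection (prodF (passF A Z2) (passF A Z1)) (2 * CA A * Z2 * Z1) := by
  have hC := base3_CA_ge A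
  constructor
  · intro u hu u' hu' v v' h
    obtain ⟨a, ha, b, hb, rfl⟩ := base3_mem_prodF.1 hu
    obtain ⟨a', ha', b', hb', rfl⟩ := base3_mem_prodF.1 hu'
    rw [List.append_assoc, List.append_assoc] at h
    obtain ⟨h3, h4⟩ := pass_prefix_unique ha ha' h
    obtain ⟨h5, -⟩ := pass_prefix_unique hb hb' h4
    rw [h3, h5]
  · intro w hw
    have hZ2 : Z2 ≤ (F w : ℝ) := by
      refine le_trans ?_ hw
      have h3 : 1 ≤ 2 * CA A * Z1 := by
        have h4 : 1 * 1 ≤ (2 * CA A) * Z1 :=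
          mul_le_mul (by linarith) h1.le (by norm_num) (by linarith)
        linarith
      calc Z2 = Z2 * 1 := (mul_one _).symm
        _ ≤ Z2 * (2 * CA A * Z1) := mul_le_mul_of_nonneg_left h3 (by linarith)
        _ = _ := by ring
    obtain ⟨a, ha, w', rfl⟩ := exists_pass_prefix h2 hZ2
    have hub := (passF_bounds ha).2
    have h3 : (F (a ++ w') : ℝ) ≤ 2 * ((F a : ℝ) * F w') := by exact_mod_cast F_append_le a w'
    have hpos : 0 < 2 * CA A * Z2 := by
      have : 0 < CA A * Z2 := mul_pos (by linarith) (by linarith)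
      linarith
    have hZ1 : Z1 ≤ (F w' : ℝ) := by
      have h4 : (F a : ℝ) * F w' ≤ CA A * Z2 * F w' :=
        mul_le_mul_of_nonneg_right hub (Nat.cast_nonneg _)
      have h5 : (2 * CA A * Z2) * Z1 ≤ (2 * CA A * Z2) * F w' := by
        calc (2 * CA A * Z2) * Z1 ≤ F (a ++ w') := hw
          _ ≤ 2 * ((F a : ℝ) * F w') := h3
          _ ≤ 2 * (CA A * Z2 * F w') := by linarith
          _ = _ := by ring
      exact le_of_mul_le_mul_left h5 hpos
    obtain ⟨b, hb, v, rfl⟩ := exists_pass_prefix h1 hZ1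
    exact ⟨a ++ b, base3_mem_prodF.2 ⟨a, ha, b, hb, rfl⟩, v, by rw [List.append_assoc]⟩

theorem base3_injOn (A : ℕ) (Z2 Z1 : ℝ) :
    Set.InjOn (fun p : List (Lt A) × List (Lt A) => p.1 ++ p.2)
      ((passF A Z2 ×ˢ passF A Z1 : Finset _) : Set (List (Lt A) × List (Lt A))) := by
  rintro ⟨a, b⟩ h ⟨a', b'⟩ h' he
  obtain ⟨h1, -⟩ := Finset.mem_product.1 (Finset.mem_coe.1 h)
  obtain ⟨h2, -⟩ := Finset.mem_product.1 (Finset.mem_coe.1 h')
  obtain ⟨h3, h4⟩ := pass_prefix_unique h1 h2 he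
  exact Prod.ext h3 h4

theorem sum_prodF {β : Type*} [AddCommMonoid β] (A : ℕ) {Z2 Z1 : ℝ}
    (f : List (Lt A) → β) :
    ∑ w ∈ prodF (passF A Z2) (passF A Z1), f w =
      ∑ u ∈ passF A Z2, ∑ v ∈ passF A Z1, f (u ++ v) := by
  classical
  rw [base3_prodF, Finset.sum_image (base3_injOn A Z2 Z1), Finset.sum_product]

theorem card_prodF (A : ℕ) (Z2 Z1 : ℝ) :
    (prodF (passF A Z2) (passF A Z1)).card = (passF A Z2).card * (passF A Z1).card := by
  classical
  rw [base3_prodF, Finset.card_image_of_injOn (base3_injOn A Z2 Z1), Finset.card_product]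

theorem base3_block_unique (P : Finset (List (Lt A))) {Y : ℝ} (hP : IsSection P Y) (k : ℕ)
    (l l' : List (List (Lt A))) (hl : l ∈ blockF P k) (hl' : l' ∈ blockF P k)
    (b b' : List (Lt A)) (h : l.flatten ++ b = l'.flatten ++ b') : l = l' ∧ b = b' := by
  induction k generalizing l l' with
  | zero =>
    have h1 : l = [] := by simpa [blockF] using hl
    have h2 : l' = [] := by simpa [blockF] using hl'
    subst h1
    subst h2
    simpa using h
  | succ k ih =>
    obtain ⟨h1, h2⟩ := (mem_blockF P (k + 1) l).1 hl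
    obtain ⟨h3, h4⟩ := (mem_blockF P (k + 1) l').1 hl'
    cases l with
    | nil => simp at h1
    | cons u l =>
      cases l' with
      | nil => simp at h3
      | cons u' l' =>
        rw [List.flatten_cons, List.flatten_cons, List.append_assoc, List.append_assoc] at h
        have h5 := hP.1 u (h2 u (by simp)) u' (h4 u' (by simp)) _ _ h
        subst h5
        have h6 := List.append_cancel_left h
        obtain ⟨h7, h8⟩ := ih l l'
          ((mem_blockF P k l).2 ⟨by simpa using h1, fun x hx => h2 x (by simp [hx])⟩)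
          ((mem_blockF P k l').2 ⟨by simpa using h3, fun x hx => h4 x (by simp [hx])⟩) h6
        exact ⟨by rw [h7], h8⟩

theorem base3_block_exists (P : Finset (List (Lt A))) {Y : ℝ} (hY : 1 ≤ Y)
    (hP : IsSection P Y) (hub : ∀ u ∈ P, (F u : ℝ) ≤ Y) (k : ℕ) (w : List (Lt A))
    (hw : (2 * Y) ^ k ≤ (F w : ℝ)) : ∃ l ∈ blockF P k, ∃ b, w = l.flatten ++ b := by
  induction k generalizing w with
  | zero => exact ⟨[], by simp [blockF], w, by simp⟩
  | succ k ih =>
    have h1 : (1 : ℝ) ≤ (2 * Y) ^ k := one_le_pow₀ (by linarith)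
    have h2 : Y ≤ (F w : ℝ) := by
      refine le_trans ?_ hw
      rw [pow_succ]
      have h3 : 1 * (2 * Y) ≤ (2 * Y) ^ k * (2 * Y) :=
        mul_le_mul_of_nonneg_right h1 (by linarith)
      linarith
    obtain ⟨u, hu, w', rfl⟩ := hP.2 w h2
    have h3 : (F (u ++ w') : ℝ) ≤ 2 * ((F u : ℝ) * F w') := by exact_mod_cast F_append_le u w'
    have h4 : (F u : ℝ) * F w' ≤ Y * F w' :=
      mul_le_mul_of_nonneg_right (hub u hu) (Nat.cast_nonneg _)
    have h5 : (2 * Y) ^ k ≤ (F w' : ℝ) := by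
      have h6 : (2 * Y) * (2 * Y) ^ k ≤ (2 * Y) * F w' := by
        calc (2 * Y) * (2 * Y) ^ k = (2 * Y) ^ (k + 1) := by ring
          _ ≤ F (u ++ w') := hw
          _ ≤ 2 * ((F u : ℝ) * F w') := h3
          _ ≤ 2 * (Y * F w') := by linarith
          _ = _ := by ring
      exact le_of_mul_le_mul_left h6 (by linarith)
    obtain ⟨l, hl, b, rfl⟩ := ih w' h5
    obtain ⟨h7, h8⟩ := (mem_blockF P k l).1 hl
    refine ⟨u :: l, (mem_blockF P (k + 1) _).2 ⟨by simp [h7], ?_⟩, b, ?_⟩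
    · intro x hx
      rcases List.mem_cons.1 hx with rfl | hx
      · exact hu
      · exact h8 x hx
    · rw [List.flatten_cons, List.append_assoc]

/-- block decomposition of a sum over words.  If `P` is a section at level `Y`, all `F u ≤ Y` on
`P`, and `f` vanishes on words with `F w < (2 Y)^k` and on words with `F w > X`, then the sum of
`f` over all words is the sum over `k` blocks and a remainder `b`. (`X'` bounds the `b` that
matter.) -/
theorem sum_blocks {β : Type*} [AddCommMonoid β] (P : Finset (List (Lt A))) {Y : ℝ} (hY : 1 ≤ Y)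
    (hP : IsSection P Y) (hub : ∀ u ∈ P, (F u : ℝ) ≤ Y) (k : ℕ) (X X' : ℝ)
    (f : List (Lt A) → β) (hf0 : ∀ w, (F w : ℝ) < (2 * Y) ^ k → f w = 0)
    (hfX : ∀ w, X < (F w : ℝ) → f w = 0)
    (hX' : ∀ b : List (Lt A), X' < (F b : ℝ) → ∀ l ∈ blockF P k, f (l.flatten ++ b) = 0) :
    ∑ w ∈ wordsF A X, f w = ∑ b ∈ wordsF A X', ∑ l ∈ blockF P k, f (l.flatten ++ b) := by
  classical
  rw [← Finset.sum_product']
  set S : Finset (List (Lt A) × List (List (Lt A))) := wordsF A X' ×ˢ blockF P k with hS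
  have hinj : Set.InjOn (fun p : List (Lt A) × List (List (Lt A)) => p.2.flatten ++ p.1)
      (S : Set (List (Lt A) × List (List (Lt A)))) := by
    rintro ⟨b, l⟩ h ⟨b', l'⟩ h' he
    obtain ⟨-, h1⟩ := Finset.mem_product.1 (Finset.mem_coe.1 h)
    obtain ⟨-, h2⟩ := Finset.mem_product.1 (Finset.mem_coe.1 h')
    obtain ⟨h3, h4⟩ := base3_block_unique P hP k l l' h1 h2 b b' he
    exact Prod.ext h4 h3
  set T := S.image (fun p : List (Lt A) × List (List (Lt A)) => p.2.flatten ++ p.1) with hT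
  have h1 : ∑ p ∈ S, f (p.2.flatten ++ p.1) = ∑ w ∈ T, f w := by
    rw [hT, Finset.sum_image hinj]
  rw [h1]
  have h2 : ∑ w ∈ wordsF A X, f w = ∑ w ∈ wordsF A X ∪ T, f w := by
    refine Finset.sum_subset Finset.subset_union_left fun w _ hw2 => ?_
    refine hfX w ?_
    by_contra h3
    exact hw2 (mem_wordsF.2 (not_lt.1 h3))
  have h3 : ∑ w ∈ T, f w = ∑ w ∈ wordsF A X ∪ T, f w := by
    refine Finset.sum_subset Finset.subset_union_right fun w _ hw2 => ?_
    by_cases h4 : (F w : ℝ) < (2 * Y) ^ k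
    · exact hf0 w h4
    · obtain ⟨l, hl, b, rfl⟩ := base3_block_exists P hY hP hub k w (not_lt.1 h4)
      by_cases h5 : X' < (F b : ℝ)
      · exact hX' b h5 l hl
      · exfalso
        refine hw2 (Finset.mem_image.2 ⟨(b, l), ?_, rfl⟩)
        exact Finset.mem_product.2 ⟨mem_wordsF.2 (not_lt.1 h5), hl⟩
  rw [h2, h3]

end Pool.Agent.W_f50700_h3
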