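import Pool.Agent.W_f50700_h3.Defs

/-!
Base1: algebra of the matrices of words (natural numbers only).
-/

open Matrix

namespace Pool.Agent.W_f50700_h3

variable {A : ℕ}

theorem base1_one_le (g : Lt A) : 1 ≤ (g.1 : ℕ) + 1 ∧ (g.1 : ℕ) + 1 ≤ A ∧
    1 ≤ (g.2 : ℕ) + 1 ∧ (g.2 : ℕ) + 1 ≤ A := by
  have h1 := g.1.isLt
  have h2 := g.2.isLt
  omega

theorem base1_F_cons (g : Lt A) (w : List (Lt A)) :
    F (g :: w) = (((g.1 : ℕ) + 1) * ((g.2 : ℕ) + 1) + 1) * F w + ((g.1 : ℕ) + 1) * m21 w := by
  simp [F, m21, mat, lmat, Matrix.mul_apply, Fin.sum_univ_two]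

theorem base1_m12_cons (g : Lt A) (w : List (Lt A)) :
    m12 (g :: w) = (((g.1 : ℕ) + 1) * ((g.2 : ℕ) + 1) + 1) * m12 w + ((g.1 : ℕ) + 1) * m22 w := by
  simp [m12, m22, mat, lmat, Matrix.mul_apply, Fin.sum_univ_two]

theorem base1_m21_cons (g : Lt A) (w : List (Lt A)) :
    m21 (g :: w) = ((g.2 : ℕ) + 1) * F w + m21 w := by
  simp [F, m21, mat, lmat, Matrix.mul_apply, Fin.sum_univ_two]

theorem base1_m22_cons (g : Lt A) (w : List (Lt A)) :
    m22 (g :: w) = ((g.2 : ℕ) + 1) * m12 w + m22 w := by
  simp [m12, m22, mat, lmat, Matrix.mul_apply, Fin.sum_univ_two]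

theorem mat_append (u v : List (Lt A)) : mat (u ++ v) = mat u * mat v := by
  induction u with
  | nil => simp [mat]
  | cons g u ih => rw [List.cons_append, mat, mat, ih, Matrix.mul_assoc]

theorem F_append (u v : List (Lt A)) : F (u ++ v) = F u * F v + m12 u * m21 v := by
  unfold F m12 m21
  rw [mat_append, Matrix.mul_apply, Fin.sum_univ_two]

theorem m12_append (u v : List (Lt A)) : m12 (u ++ v) = F u * m12 v + m12 u * m22 v := by
  unfold F m12 m22
  rw [mat_append, Matrix.mul_apply, Fin.sum_univ_two]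

theorem m21_append (u v : List (Lt A)) : m21 (u ++ v) = m21 u * F v + m22 u * m21 v := by
  unfold F m22 m21
  rw [mat_append, Matrix.mul_apply, Fin.sum_univ_two]

theorem m22_append (u v : List (Lt A)) : m22 (u ++ v) = m21 u * m12 v + m22 u * m22 v := by
  unfold m22 m12 m21
  rw [mat_append, Matrix.mul_apply, Fin.sum_univ_two]

@[simp] theorem F_nil : F ([] : List (Lt A)) = 1 := by
  simp [F, mat]

@[simp] theorem m12_nil : m12 ([] : List (Lt A)) = 0 := by
  simp [m12, mat]

@[simp] theorem m21_nil : m21 ([] : List (Lt A)) = 0 := by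
  simp [m21, mat]

@[simp] theorem m22_nil : m22 ([] : List (Lt A)) = 1 := by
  simp [m22, mat]

theorem F_single (g : Lt A) : F [g] = ((g.1 : ℕ) + 1) * ((g.2 : ℕ) + 1) + 1 := by
  rw [base1_F_cons, F_nil, m21_nil]
  ring

theorem m12_single (g : Lt A) : m12 [g] = (g.1 : ℕ) + 1 := by
  rw [base1_m12_cons, m12_nil, m22_nil]
  ring

theorem m21_single (g : Lt A) : m21 [g] = (g.2 : ℕ) + 1 := by
  rw [base1_m21_cons, F_nil, m21_nil]
  ring

theorem m22_single (g : Lt A) : m22 [g] = 1 := by
  rw [base1_m22_cons, m12_nil, m22_nil, mul_zero, zero_add]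

/-- determinant one, written without subtraction -/
theorem det_one (w : List (Lt A)) : F w * m22 w = m12 w * m21 w + 1 := by
  induction w with
  | nil => simp
  | cons g w ih =>
    rw [base1_F_cons, base1_m12_cons, base1_m21_cons, base1_m22_cons]
    have ih' : (F w : ℤ) * m22 w = m12 w * m21 w + 1 := by exact_mod_cast ih
    zify
    linear_combination ih'

theorem F_pos (w : List (Lt A)) : 0 < F w := by
  rcases Nat.eq_zero_or_pos (F w) with h | h
  · have := det_one w
    rw [h, zero_mul] at this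
    omega
  · exact h

theorem m22_pos (w : List (Lt A)) : 0 < m22 w := by
  rcases Nat.eq_zero_or_pos (m22 w) with h | h
  · have := det_one w
    rw [h, mul_zero] at this
    omega
  · exact h

theorem base1_aux (w : List (Lt A)) : m12 w + 1 ≤ F w ∧ m22 w ≤ m21 w + 1 := by
  induction w with
  | nil => simp
  | cons g w ih =>
    obtain ⟨h1, h2⟩ := ih
    rw [base1_F_cons, base1_m12_cons, base1_m21_cons, base1_m22_cons]
    set a := (g.1 : ℕ) + 1 with ha
    set b := (g.2 : ℕ) + 1 with hb
    have ha1 : 1 ≤ a := by omega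
    have hb1 : 1 ≤ b := by omega
    have h3 := Nat.mul_le_mul_left (a * b + 1) h1
    have h4 := Nat.mul_le_mul_left a h2
    have h5 := Nat.mul_le_mul_left b h1
    have h6 : a * 1 ≤ a * b := Nat.mul_le_mul_left a hb1
    constructor
    · have e3 : (a * b + 1) * (m12 w + 1) = (a * b + 1) * m12 w + (a * b + 1) := by ring
      have e4 : a * (m21 w + 1) = a * m21 w + a := by ring
      omega
    · have e5 : b * (m12 w + 1) = b * m12 w + b := by ring
      omega

theorem m12_lt (w : List (Lt A)) : m12 w < F w := (base1_aux w).1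

theorem m21_lt (w : List (Lt A)) : m21 w < F w := by
  cases w with
  | nil => simp
  | cons g w =>
    rw [base1_F_cons, base1_m21_cons]
    set a := (g.1 : ℕ) + 1 with ha
    set b := (g.2 : ℕ) + 1 with hb
    have ha1 : 1 ≤ a := by omega
    have hF := F_pos w
    have h1 : 1 * (b * F w) ≤ a * (b * F w) := Nat.mul_le_mul_right _ ha1
    have h2 : 1 * m21 w ≤ a * m21 w := Nat.mul_le_mul_right _ ha1
    have e : (a * b + 1) * F w = a * (b * F w) + F w := by ring
    omega

theorem m12_pos {w : List (Lt A)} (hw : w ≠ []) : 0 < m12 w := by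
  cases w with
  | nil => exact absurd rfl hw
  | cons g w =>
    rw [base1_m12_cons]
    have := m22_pos w
    have h : 0 < ((g.1 : ℕ) + 1) * m22 w := Nat.mul_pos (by omega) this
    omega

theorem m21_pos {w : List (Lt A)} (hw : w ≠ []) : 0 < m21 w := by
  cases w with
  | nil => exact absurd rfl hw
  | cons g w =>
    rw [base1_m21_cons]
    have := F_pos w
    have h : 0 < ((g.2 : ℕ) + 1) * F w := Nat.mul_pos (by omega) this
    omega

theorem m22_le_m12 {w : List (Lt A)} (hw : w ≠ []) : m22 w ≤ m12 w := by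
  cases w with
  | nil => exact absurd rfl hw
  | cons g w =>
    rw [base1_m12_cons, base1_m22_cons]
    set a := (g.1 : ℕ) + 1 with ha
    set b := (g.2 : ℕ) + 1 with hb
    have ha1 : 1 ≤ a := by omega
    have h1 : 1 * (b * m12 w) ≤ a * (b * m12 w) := Nat.mul_le_mul_right _ ha1
    have h2 : 1 * m22 w ≤ a * m22 w := Nat.mul_le_mul_right _ ha1
    have e : (a * b + 1) * m12 w = a * (b * m12 w) + m12 w := by ring
    omega

theorem m22_le_m21 {w : List (Lt A)} (hw : w ≠ []) : m22 w ≤ m21 w := by
  cases w with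
  | nil => exact absurd rfl hw
  | cons g w =>
    rw [base1_m21_cons, base1_m22_cons]
    obtain ⟨h1, h2⟩ := base1_aux w
    set b := (g.2 : ℕ) + 1 with hb
    have h5 := Nat.mul_le_mul_left b h1
    have e5 : b * (m12 w + 1) = b * m12 w + b := by ring
    omega

theorem m22_le_F (w : List (Lt A)) : m22 w ≤ F w := by
  by_cases hw : w = []
  · subst hw
    simp
  · exact (m22_le_m21 hw).trans (m21_lt w).le

theorem base1_aux2 (w : List (Lt A)) :
    m21 w ≤ (A + 1) * m22 w ∧ (w ≠ [] → F w ≤ (A + 1) * m12 w) := by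
  induction w with
  | nil => simp
  | cons g w ih =>
    obtain ⟨h1, h2⟩ := ih
    obtain ⟨a1, a2, b1, b2⟩ := base1_one_le g
    rw [base1_F_cons, base1_m12_cons, base1_m21_cons, base1_m22_cons]
    set a := (g.1 : ℕ) + 1 with ha
    set b := (g.2 : ℕ) + 1 with hb
    by_cases hw : w = []
    · subst hw
      simp only [F_nil, m21_nil, m12_nil, m22_nil, mul_zero, mul_one, add_zero, zero_add]
      refine ⟨by omega, fun _ => ?_⟩
      have h3 : a * b ≤ a * A := Nat.mul_le_mul_left a b2
      have e : (A + 1) * a = a * A + a := by ring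
      omega
    · have h3 := h2 hw
      have h4 := Nat.mul_le_mul_left b h3
      have h5 := Nat.mul_le_mul_left (a * b + 1) h3
      have h6 := Nat.mul_le_mul_left a h1
      constructor
      · have e : (A + 1) * (b * m12 w + m22 w) = b * ((A + 1) * m12 w) + (A + 1) * m22 w := by ring
        omega
      · intro _
        have e : (A + 1) * ((a * b + 1) * m12 w + a * m22 w) =
            (a * b + 1) * ((A + 1) * m12 w) + a * ((A + 1) * m22 w) := by ring
        omega

theorem F_le_m12 {w : List (Lt A)} (hw : w ≠ []) : F w ≤ (A + 1) * m12 w :=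
  (base1_aux2 w).2 hw

theorem F_le_m21 {w : List (Lt A)} (hw : w ≠ []) : F w ≤ (A + 1) * m21 w := by
  cases w with
  | nil => exact absurd rfl hw
  | cons g w =>
    obtain ⟨a1, a2, b1, b2⟩ := base1_one_le g
    rw [base1_F_cons, base1_m21_cons]
    set a := (g.1 : ℕ) + 1 with ha
    set b := (g.2 : ℕ) + 1 with hb
    have h1 : a * b + 1 ≤ (A + 1) * b := by
      have h3 : a * b ≤ A * b := Nat.mul_le_mul_right b a2
      have e : (A + 1) * b = A * b + b := by ring
      omega
    have h2 := Nat.mul_le_mul_right (F w) h1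
    have h3 : a * m21 w ≤ (A + 1) * m21 w := Nat.mul_le_mul_right _ (by omega)
    have e : (A + 1) * (b * F w + m21 w) = (A + 1) * b * F w + (A + 1) * m21 w := by ring
    omega

/-- `F u * F v ≤ F (u v)` -/
theorem F_mul_le (u v : List (Lt A)) : F u * F v ≤ F (u ++ v) := by
  rw [F_append]
  exact Nat.le_add_right _ _

/-- `F (u v) ≤ 2 F u F v` -/
theorem F_append_le (u v : List (Lt A)) : F (u ++ v) ≤ 2 * (F u * F v) := by
  rw [F_append]
  have := Nat.mul_le_mul (m12_lt u).le (m21_lt v).le
  omega

theorem two_le_F_single (g : Lt A) : 2 ≤ F [g] := by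
  rw [F_single]
  have : 1 * 1 ≤ ((g.1 : ℕ) + 1) * ((g.2 : ℕ) + 1) := Nat.mul_le_mul (by omega) (by omega)
  omega

theorem F_single_le (g : Lt A) : F [g] ≤ A ^ 2 + 1 := by
  rw [F_single]
  obtain ⟨a1, a2, b1, b2⟩ := base1_one_le g
  have := Nat.mul_le_mul a2 b2
  rw [pow_two]
  omega

theorem two_pow_le_F (w : List (Lt A)) : 2 ^ w.length ≤ F w := by
  induction w with
  | nil => simp
  | cons g w ih =>
    rw [List.length_cons, pow_succ]
    have h1 := F_mul_le [g] w
    have h2 := Nat.mul_le_mul (two_le_F_single g) ih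
    rw [List.singleton_append] at h1
    omega

theorem base1_split {w : List (Lt A)} (hw : w ≠ []) : w = w.dropLast ++ [w.getLast hw] :=
  (List.dropLast_append_getLast hw).symm

/-- every proper prefix has at most half of `F` -/
theorem two_mul_F_dropLast_le {w : List (Lt A)} (hw : w ≠ []) : 2 * F w.dropLast ≤ F w := by
  have h1 := F_mul_le w.dropLast [w.getLast hw]
  rw [← base1_split hw] at h1
  have h2 := Nat.mul_le_mul_left (F w.dropLast) (two_le_F_single (w.getLast hw))
  omega

theorem F_le_dropLast {w : List (Lt A)} (hw : w ≠ []) : F w ≤ 2 * (A ^ 2 + 1) * F w.dropLast := by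
  have h1 := F_append_le w.dropLast [w.getLast hw]
  rw [← base1_split hw] at h1
  have h2 := Nat.mul_le_mul_left (F w.dropLast) (F_single_le (w.getLast hw))
  calc F w ≤ 2 * (F w.dropLast * F [w.getLast hw]) := h1
    _ ≤ 2 * (F w.dropLast * (A ^ 2 + 1)) := Nat.mul_le_mul_left 2 h2
    _ = _ := by ring

/-- monotone along prefixes -/
theorem F_le_of_prefix {u w : List (Lt A)} (h : u <+: w) : F u ≤ F w := by
  obtain ⟨v, rfl⟩ := h
  exact (Nat.le_mul_of_pos_right _ (F_pos v)).trans (F_mul_le u v)

theorem base1_mat_eq {u w : List (Lt A)} (h1 : F u = F w) (h2 : m12 u = m12 w)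
    (h3 : m21 u = m21 w) (h4 : m22 u = m22 w) : mat u = mat w := by
  ext i j
  fin_cases i <;> fin_cases j
  · exact h1
  · exact h2
  · exact h3
  · exact h4

/-- the matrix of a nonempty word determines the word: injectivity of `mat`.
Proof: induction; for `w = g :: w'` with `M = mat w`: `g.1 + 1 = m12 / m22`,
`x = m11 - (g.1+1) m21` is `F w'`, `g.2 + 1 = m21 / x`. -/
theorem mat_injective : Function.Injective (mat : List (Lt A) → Matrix (Fin 2) (Fin 2) ℕ) := by
  intro u
  induction u with
  | nil =>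
    intro w h
    cases w with
    | nil => rfl
    | cons g w =>
      exfalso
      have h1 : m12 ([] : List (Lt A)) = m12 (g :: w) := congrFun (congrFun h 0) 1
      have h2 := m12_pos (w := g :: w) (by simp)
      rw [← h1, m12_nil] at h2
      exact lt_irrefl _ h2
  | cons g u ih =>
    intro w h
    cases w with
    | nil =>
      exfalso
      have h1 : m12 (g :: u) = m12 ([] : List (Lt A)) := congrFun (congrFun h 0) 1
      have h2 := m12_pos (w := g :: u) (by simp)
      rw [h1, m12_nil] at h2
      exact lt_irrefl _ h2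
    | cons k w =>
      have e1 : F (g :: u) = F (k :: w) := congrFun (congrFun h 0) 0
      have e2 : m12 (g :: u) = m12 (k :: w) := congrFun (congrFun h 0) 1
      have e3 : m21 (g :: u) = m21 (k :: w) := congrFun (congrFun h 1) 0
      have e4 : m22 (g :: u) = m22 (k :: w) := congrFun (congrFun h 1) 1
      -- division with remainder
      have d1 : ∀ (g : Lt A) (u : List (Lt A)),
          m12 (g :: u) / m22 (g :: u) = (g.1 : ℕ) + 1 ∧ m12 (g :: u) % m22 (g :: u) = m12 u := by
        intro g u
        have hlt : m12 u < m22 (g :: u) := by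
          rw [base1_m22_cons]
          have := m22_pos u
          have h5 : 1 * m12 u ≤ ((g.2 : ℕ) + 1) * m12 u := Nat.mul_le_mul_right _ (by omega)
          omega
        have heq : m12 (g :: u) = m12 u + m22 (g :: u) * ((g.1 : ℕ) + 1) := by
          rw [base1_m12_cons, base1_m22_cons]
          ring
        constructor
        · rw [heq, Nat.add_mul_div_left _ _ (m22_pos _), Nat.div_eq_of_lt hlt, zero_add]
        · rw [heq, Nat.add_mul_mod_self_left, Nat.mod_eq_of_lt hlt]
      have hF : ∀ (g : Lt A) (u : List (Lt A)),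
          F (g :: u) = ((g.1 : ℕ) + 1) * m21 (g :: u) + F u := by
        intro g u
        rw [base1_F_cons, base1_m21_cons]
        ring
      have d2 : ∀ (g : Lt A) (u : List (Lt A)),
          m21 (g :: u) / F u = (g.2 : ℕ) + 1 ∧ m21 (g :: u) % F u = m21 u := by
        intro g u
        have heq : m21 (g :: u) = m21 u + F u * ((g.2 : ℕ) + 1) := by
          rw [base1_m21_cons]
          ring
        constructor
        · rw [heq, Nat.add_mul_div_left _ _ (F_pos _), Nat.div_eq_of_lt (m21_lt u), zero_add]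
        · rw [heq, Nat.add_mul_mod_self_left, Nat.mod_eq_of_lt (m21_lt u)]
      have a1 : (g.1 : ℕ) + 1 = (k.1 : ℕ) + 1 := by
        rw [← (d1 g u).1, ← (d1 k w).1, e2, e4]
      have a2 : m12 u = m12 w := by
        rw [← (d1 g u).2, ← (d1 k w).2, e2, e4]
      have a3 : F u = F w := by
        have h5 := hF g u
        have h6 := hF k w
        rw [e1, e3, a1] at h5
        omega
      have a4 : (g.2 : ℕ) + 1 = (k.2 : ℕ) + 1 := by
        rw [← (d2 g u).1, ← (d2 k w).1, e3, a3]
      have a5 : m21 u = m21 w := by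
        rw [← (d2 g u).2, ← (d2 k w).2, e3, a3]
      have a6 : m22 u = m22 w := by
        have h5 := base1_m22_cons g u
        have h6 := base1_m22_cons k w
        rw [e4, a4, a2] at h5
        omega
      have hg : g = k := Prod.ext (Fin.ext (by omega)) (Fin.ext (by omega))
      rw [hg, ih (base1_mat_eq a3 a2 a5 a6)]

theorem coprime_row (w : List (Lt A)) : Nat.Coprime (F w) (m12 w) := by
  rw [← Nat.isCoprime_iff_coprime]
  refine ⟨(m22 w : ℤ), -(m21 w : ℤ), ?_⟩
  have h : (F w : ℤ) * m22 w = m12 w * m21 w + 1 := by exact_mod_cast det_one w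
  linear_combination h

theorem coprime_col (w : List (Lt A)) : Nat.Coprime (F w) (m21 w) := by
  rw [← Nat.isCoprime_iff_coprime]
  refine ⟨(m22 w : ℤ), -(m12 w : ℤ), ?_⟩
  have h : (F w : ℤ) * m22 w = m12 w * m21 w + 1 := by exact_mod_cast det_one w
  linear_combination h

/-- a word is determined by its first row.
Proof: `m21` is the solution of `m12 * m21 + 1 = 0 mod m11` in `[0, m11)` (`m11`, `m12` coprime). -/
theorem row_injective {u w : List (Lt A)} (h1 : F u = F w) (h2 : m12 u = m12 w) : u = w := by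
  have hu := det_one u
  have hw := det_one w
  rw [h1, h2] at hu
  have h3 : m12 w * m21 u + 1 ≡ m12 w * m21 w + 1 [MOD F w] := by
    rw [← hu, ← hw]
    exact ((Nat.modEq_zero_iff_dvd.2 (Dvd.intro _ rfl)).trans
      (Nat.modEq_zero_iff_dvd.2 (Dvd.intro _ rfl)).symm)
  have h4 := Nat.ModEq.cancel_left_of_coprime (coprime_row w) (h3.add_right_cancel' 1)
  have h5 : m21 u = m21 w := h4.eq_of_lt_of_lt (by rw [← h1]; exact m21_lt u) (m21_lt w)
  have h6 : m22 u = m22 w := by
    rw [h5, ← hw] at hu
    exact Nat.eq_of_mul_eq_mul_left (F_pos w) hu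
  exact mat_injective (base1_mat_eq h1 h2 h5 h6)

/-- a word is determined by its first column. -/
theorem col_injective {u w : List (Lt A)} (h1 : F u = F w) (h2 : m21 u = m21 w) : u = w := by
  have hu := det_one u
  have hw := det_one w
  rw [h1, h2] at hu
  have h3 : m21 w * m12 u + 1 ≡ m21 w * m12 w + 1 [MOD F w] := by
    rw [mul_comm (m21 w) (m12 u), mul_comm (m21 w) (m12 w), ← hu, ← hw]
    exact ((Nat.modEq_zero_iff_dvd.2 (Dvd.intro _ rfl)).trans
      (Nat.modEq_zero_iff_dvd.2 (Dvd.intro _ rfl)).symm)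
  have h4 := Nat.ModEq.cancel_left_of_coprime (coprime_col w) (h3.add_right_cancel' 1)
  have h5 : m12 u = m12 w := h4.eq_of_lt_of_lt (by rw [← h1]; exact m12_lt u) (m12_lt w)
  have h6 : m22 u = m22 w := by
    rw [h5, ← hw] at hu
    exact Nat.eq_of_mul_eq_mul_left (F_pos w) hu
  exact mat_injective (base1_mat_eq h1 h5 h2 h6)

end Pool.Agent.W_f50700_h3
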