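import Pool.Agent.W_f50700_h3.Base1

/-!
Base2: real actions and cocycles, separation.
-/

open Matrix

namespace Pool.Agent.W_f50700_h3

variable {A : ℕ}

theorem Base2_det (w : List (Lt A)) :
    (F w : ℝ) * (m22 w : ℝ) = (m12 w : ℝ) * (m21 w : ℝ) + 1 := by
  exact_mod_cast det_one w

theorem Base2_F_pos (w : List (Lt A)) : (0 : ℝ) < (F w : ℝ) := by
  exact_mod_cast F_pos w

theorem Base2_m12_le (w : List (Lt A)) : (m12 w : ℝ) ≤ (F w : ℝ) := by
  exact_mod_cast (m12_lt w).le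

theorem Base2_m21_le (w : List (Lt A)) : (m21 w : ℝ) ≤ (F w : ℝ) := by
  exact_mod_cast (m21_lt w).le

theorem rphi_pos (w : List (Lt A)) {x : ℝ} (hx : 0 ≤ x) : 0 < rphi w x := by
  have h1 := Base2_F_pos w
  have h2 : (0 : ℝ) ≤ (m21 w : ℝ) * x := mul_nonneg (Nat.cast_nonneg _) hx
  unfold rphi
  linarith

theorem F_le_rphi (w : List (Lt A)) {x : ℝ} (hx : 0 ≤ x) : (F w : ℝ) ≤ rphi w x := by
  have h2 : (0 : ℝ) ≤ (m21 w : ℝ) * x := mul_nonneg (Nat.cast_nonneg _) hx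
  unfold rphi
  linarith

theorem rphi_le (w : List (Lt A)) {x : ℝ} (hx : x ∈ Set.Icc (0 : ℝ) 1) : rphi w x ≤ 2 * F w := by
  have h1 := Base2_m21_le w
  have h2 : (m21 w : ℝ) * x ≤ (m21 w : ℝ) * 1 :=
    mul_le_mul_of_nonneg_left hx.2 (Nat.cast_nonneg _)
  unfold rphi
  linarith

theorem rphi_append (u v : List (Lt A)) {x : ℝ} (hx : 0 ≤ x) :
    rphi (u ++ v) x = rphi u x * rphi v (ract u x) := by
  have h1 : (F u : ℝ) + (m21 u : ℝ) * x ≠ 0 := (rphi_pos u hx).ne'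
  unfold rphi ract
  rw [F_append, m21_append]
  push_cast
  field_simp
  ring

theorem Base2_ract_nonneg (w : List (Lt A)) {x : ℝ} (hx : 0 ≤ x) : 0 ≤ ract w x := by
  unfold ract
  exact div_nonneg (add_nonneg (Nat.cast_nonneg _) (mul_nonneg (Nat.cast_nonneg _) hx))
    (rphi_pos w hx).le

theorem ract_append (u v : List (Lt A)) {x : ℝ} (hx : 0 ≤ x) :
    ract (u ++ v) x = ract v (ract u x) := by
  have h1 : rphi u x ≠ 0 := (rphi_pos u hx).ne'
  have h2 : rphi v (ract u x) ≠ 0 := (rphi_pos v (Base2_ract_nonneg u hx)).ne'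
  have h3 : rphi (u ++ v) x = rphi u x * rphi v (ract u x) := rphi_append u v hx
  have e1 : ract (u ++ v) x = ((m12 (u ++ v) : ℝ) + (m22 (u ++ v) : ℝ) * x) / rphi (u ++ v) x := rfl
  have e2 : ract v (ract u x) =
      ((m12 v : ℝ) + (m22 v : ℝ) * ract u x) / rphi v (ract u x) := rfl
  have e3 : ract u x * rphi u x = (m12 u : ℝ) + (m22 u : ℝ) * x := by
    have : ract u x = ((m12 u : ℝ) + (m22 u : ℝ) * x) / rphi u x := rfl
    rw [this, div_mul_cancel₀ _ h1]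
  rw [e1, e2, h3, m12_append, m22_append]
  push_cast
  rw [div_eq_div_iff (mul_ne_zero h1 h2) h2]
  have e4 : rphi u x = (F u : ℝ) + (m21 u : ℝ) * x := rfl
  linear_combination (-(m22 v : ℝ) * rphi v (ract u x)) * e3 - ((m12 v : ℝ) * rphi v (ract u x)) * e4

theorem Base2_ract_aux (w : List (Lt A)) {x : ℝ} (hx : x ∈ Set.Icc (0 : ℝ) 1) :
    (m12 w : ℝ) + (m22 w : ℝ) * x ≤ (F w : ℝ) + (m21 w : ℝ) * x := by
  by_cases hw : w = []
  · subst hw
    simp only [m12_nil, m22_nil, F_nil, m21_nil]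
    push_cast
    linarith [hx.2]
  · have h1 : (m12 w : ℝ) ≤ (F w : ℝ) := Base2_m12_le w
    have h2 : (m22 w : ℝ) ≤ (m21 w : ℝ) := by exact_mod_cast m22_le_m21 hw
    have h3 := mul_le_mul_of_nonneg_right h2 hx.1
    linarith

theorem ract_mem (w : List (Lt A)) {x : ℝ} (hx : x ∈ Set.Icc (0 : ℝ) 1) :
    ract w x ∈ Set.Icc (0 : ℝ) 1 := by
  refine ⟨Base2_ract_nonneg w hx.1, ?_⟩
  have h1 : (0 : ℝ) < (F w : ℝ) + (m21 w : ℝ) * x := rphi_pos w hx.1
  unfold ract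
  rw [div_le_one h1]
  exact Base2_ract_aux w hx

theorem ract_zero (w : List (Lt A)) : ract w 0 = zeta w := by
  simp [ract, zeta]

theorem rphi_zero (w : List (Lt A)) : rphi w 0 = F w := by
  simp [rphi]

@[simp] theorem rphi_nil (x : ℝ) : rphi ([] : List (Lt A)) x = 1 := by
  simp [rphi]

@[simp] theorem ract_nil (x : ℝ) : ract ([] : List (Lt A)) x = x := by
  simp [ract]

/-- the row action is `F^(-2)`-Lipschitz -/
theorem ract_lip (w : List (Lt A)) {x y : ℝ} (hx : x ∈ Set.Icc (0 : ℝ) 1)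
    (hy : y ∈ Set.Icc (0 : ℝ) 1) : |ract w x - ract w y| ≤ |x - y| / (F w : ℝ) ^ 2 := by
  have h1 := rphi_pos w hx.1
  have h2 := rphi_pos w hy.1
  have h3 := F_le_rphi w hx.1
  have h4 := F_le_rphi w hy.1
  have h5 := Base2_F_pos w
  have hd := Base2_det w
  have e : ract w x - ract w y = (x - y) / (rphi w x * rphi w y) := by
    have e1 : ract w x = ((m12 w : ℝ) + (m22 w : ℝ) * x) / rphi w x := rfl
    have e2 : ract w y = ((m12 w : ℝ) + (m22 w : ℝ) * y) / rphi w y := rfl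
    rw [e1, e2, div_sub_div _ _ h1.ne' h2.ne']
    congr 1
    unfold rphi
    linear_combination (x - y) * hd
  rw [e, abs_div, abs_of_pos (mul_pos h1 h2)]
  refine div_le_div_of_nonneg_left (abs_nonneg _) (by positivity) ?_
  rw [pow_two]
  exact mul_le_mul h3 h4 h5.le h1.le

theorem ract_sub_zeta (w : List (Lt A)) {x : ℝ} (hx : x ∈ Set.Icc (0 : ℝ) 1) :
    |ract w x - zeta w| ≤ 1 / (F w : ℝ) ^ 2 := by
  have h := ract_lip w hx (y := 0) ⟨le_refl _, zero_le_one⟩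
  rw [ract_zero] at h
  refine h.trans (div_le_div_of_nonneg_right ?_ (by positivity))
  rw [sub_zero, abs_of_nonneg hx.1]
  exact hx.2

/-- regularity of the row cocycle -/
theorem rphi_ratio (w : List (Lt A)) {x y : ℝ} (hx : x ∈ Set.Icc (0 : ℝ) 1)
    (hy : y ∈ Set.Icc (0 : ℝ) 1) : rphi w x ≤ (1 + |x - y|) * rphi w y := by
  have h1 := F_le_rphi w hy.1
  have h2 := Base2_m21_le w
  have h3 : (m21 w : ℝ) * (x - y) ≤ (m21 w : ℝ) * |x - y| :=
    mul_le_mul_of_nonneg_left (le_abs_self _) (Nat.cast_nonneg _)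
  have h4 : (m21 w : ℝ) * |x - y| ≤ rphi w y * |x - y| :=
    mul_le_mul_of_nonneg_right (h2.trans h1) (abs_nonneg _)
  have h5 : rphi w x = rphi w y + (m21 w : ℝ) * (x - y) := by
    unfold rphi
    ring
  rw [h5]
  linarith

theorem cpsi_pos (w : List (Lt A)) {y : ℝ} (hy : 0 ≤ y) : 0 < cpsi w y := by
  have h1 := Base2_F_pos w
  have h2 : (0 : ℝ) ≤ (m12 w : ℝ) * y := mul_nonneg (Nat.cast_nonneg _) hy
  unfold cpsi
  linarith

theorem F_le_cpsi (w : List (Lt A)) {y : ℝ} (hy : 0 ≤ y) : (F w : ℝ) ≤ cpsi w y := by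
  have h2 : (0 : ℝ) ≤ (m12 w : ℝ) * y := mul_nonneg (Nat.cast_nonneg _) hy
  unfold cpsi
  linarith

theorem cpsi_le (w : List (Lt A)) {y : ℝ} (hy : y ∈ Set.Icc (0 : ℝ) 1) : cpsi w y ≤ 2 * F w := by
  have h1 := Base2_m12_le w
  have h2 : (m12 w : ℝ) * y ≤ (m12 w : ℝ) * 1 :=
    mul_le_mul_of_nonneg_left hy.2 (Nat.cast_nonneg _)
  unfold cpsi
  linarith

theorem cpsi_append (u v : List (Lt A)) {y : ℝ} (hy : 0 ≤ y) :
    cpsi (u ++ v) y = cpsi u (cact v y) * cpsi v y := by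
  have h1 : (F v : ℝ) + (m12 v : ℝ) * y ≠ 0 := (cpsi_pos v hy).ne'
  unfold cpsi cact
  rw [F_append, m12_append]
  push_cast
  field_simp
  ring

theorem Base2_cact_nonneg (w : List (Lt A)) {x : ℝ} (hx : 0 ≤ x) : 0 ≤ cact w x := by
  unfold cact
  exact div_nonneg (add_nonneg (Nat.cast_nonneg _) (mul_nonneg (Nat.cast_nonneg _) hx))
    (cpsi_pos w hx).le

theorem cact_append (u v : List (Lt A)) {y : ℝ} (hy : 0 ≤ y) :
    cact (u ++ v) y = cact u (cact v y) := by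
  have h1 : cpsi v y ≠ 0 := (cpsi_pos v hy).ne'
  have h2 : cpsi u (cact v y) ≠ 0 := (cpsi_pos u (Base2_cact_nonneg v hy)).ne'
  have h3 : cpsi (u ++ v) y = cpsi u (cact v y) * cpsi v y := cpsi_append u v hy
  have e1 : cact (u ++ v) y = ((m21 (u ++ v) : ℝ) + (m22 (u ++ v) : ℝ) * y) / cpsi (u ++ v) y := rfl
  have e2 : cact u (cact v y) =
      ((m21 u : ℝ) + (m22 u : ℝ) * cact v y) / cpsi u (cact v y) := rfl
  have e3 : cact v y * cpsi v y = (m21 v : ℝ) + (m22 v : ℝ) * y := by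
    have : cact v y = ((m21 v : ℝ) + (m22 v : ℝ) * y) / cpsi v y := rfl
    rw [this, div_mul_cancel₀ _ h1]
  rw [e1, e2, h3, m21_append, m22_append]
  push_cast
  rw [div_eq_div_iff (mul_ne_zero h2 h1) h2]
  have e4 : cpsi v y = (F v : ℝ) + (m12 v : ℝ) * y := rfl
  linear_combination (-(m22 u : ℝ) * cpsi u (cact v y)) * e3 - ((m21 u : ℝ) * cpsi u (cact v y)) * e4

theorem Base2_cact_aux (w : List (Lt A)) {x : ℝ} (hx : x ∈ Set.Icc (0 : ℝ) 1) :
    (m21 w : ℝ) + (m22 w : ℝ) * x ≤ (F w : ℝ) + (m12 w : ℝ) * x := by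
  by_cases hw : w = []
  · subst hw
    simp only [m12_nil, m22_nil, F_nil, m21_nil]
    push_cast
    linarith [hx.2]
  · have h1 : (m21 w : ℝ) ≤ (F w : ℝ) := Base2_m21_le w
    have h2 : (m22 w : ℝ) ≤ (m12 w : ℝ) := by exact_mod_cast m22_le_m12 hw
    have h3 := mul_le_mul_of_nonneg_right h2 hx.1
    linarith

theorem cact_mem (w : List (Lt A)) {y : ℝ} (hy : y ∈ Set.Icc (0 : ℝ) 1) :
    cact w y ∈ Set.Icc (0 : ℝ) 1 := by
  refine ⟨Base2_cact_nonneg w hy.1, ?_⟩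
  have h1 : (0 : ℝ) < (F w : ℝ) + (m12 w : ℝ) * y := cpsi_pos w hy.1
  unfold cact
  rw [div_le_one h1]
  exact Base2_cact_aux w hy

theorem cact_zero (w : List (Lt A)) : cact w 0 = eta w := by
  simp [cact, eta]

theorem cpsi_zero (w : List (Lt A)) : cpsi w 0 = F w := by
  simp [cpsi]

/-- `F (u v) = cpsi u (eta v) * F v` -/
theorem F_append_cpsi (u v : List (Lt A)) : (F (u ++ v) : ℝ) = cpsi u (eta v) * F v := by
  have h := cpsi_append u v (y := 0) (le_refl _)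
  rwa [cpsi_zero, cpsi_zero, cact_zero] at h

/-- `eta (u v) = cact u (eta v)` -/
theorem eta_append (u v : List (Lt A)) : eta (u ++ v) = cact u (eta v) := by
  have h := cact_append u v (y := 0) (le_refl _)
  rwa [cact_zero, cact_zero] at h

theorem cact_lip (w : List (Lt A)) {x y : ℝ} (hx : x ∈ Set.Icc (0 : ℝ) 1)
    (hy : y ∈ Set.Icc (0 : ℝ) 1) : |cact w x - cact w y| ≤ |x - y| / (F w : ℝ) ^ 2 := by
  have h1 := cpsi_pos w hx.1
  have h2 := cpsi_pos w hy.1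
  have h3 := F_le_cpsi w hx.1
  have h4 := F_le_cpsi w hy.1
  have h5 := Base2_F_pos w
  have hd := Base2_det w
  have e : cact w x - cact w y = (x - y) / (cpsi w x * cpsi w y) := by
    have e1 : cact w x = ((m21 w : ℝ) + (m22 w : ℝ) * x) / cpsi w x := rfl
    have e2 : cact w y = ((m21 w : ℝ) + (m22 w : ℝ) * y) / cpsi w y := rfl
    rw [e1, e2, div_sub_div _ _ h1.ne' h2.ne']
    congr 1
    unfold cpsi
    linear_combination (x - y) * hd
  rw [e, abs_div, abs_of_pos (mul_pos h1 h2)]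
  refine div_le_div_of_nonneg_left (abs_nonneg _) (by positivity) ?_
  rw [pow_two]
  exact mul_le_mul h3 h4 h5.le h1.le

theorem cact_sub_eta (w : List (Lt A)) {x : ℝ} (hx : x ∈ Set.Icc (0 : ℝ) 1) :
    |cact w x - eta w| ≤ 1 / (F w : ℝ) ^ 2 := by
  have h := cact_lip w hx (y := 0) ⟨le_refl _, zero_le_one⟩
  rw [cact_zero] at h
  refine h.trans (div_le_div_of_nonneg_right ?_ (by positivity))
  rw [sub_zero, abs_of_nonneg hx.1]
  exact hx.2

theorem Base2_cpsi_ratio (w : List (Lt A)) {x y : ℝ} (hy : y ∈ Set.Icc (0 : ℝ) 1) :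
    cpsi w x ≤ (1 + |x - y|) * cpsi w y := by
  have h1 := F_le_cpsi w hy.1
  have h2 := Base2_m12_le w
  have h3 : (m12 w : ℝ) * (x - y) ≤ (m12 w : ℝ) * |x - y| :=
    mul_le_mul_of_nonneg_left (le_abs_self _) (Nat.cast_nonneg _)
  have h4 : (m12 w : ℝ) * |x - y| ≤ cpsi w y * |x - y| :=
    mul_le_mul_of_nonneg_right (h2.trans h1) (abs_nonneg _)
  have h5 : cpsi w x = cpsi w y + (m12 w : ℝ) * (x - y) := by
    unfold cpsi
    ring
  rw [h5]
  linarith

theorem Base2_log_aux {a b t : ℝ} (ha : 0 < a) (hb : 0 < b) (ht : 0 ≤ t)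
    (h : a ≤ (1 + t) * b) : Real.log a - Real.log b ≤ t := by
  have h1 : Real.log a ≤ Real.log ((1 + t) * b) := Real.log_le_log ha h
  rw [Real.log_mul (by positivity) hb.ne'] at h1
  have h2 : Real.log (1 + t) ≤ (1 + t) - 1 := Real.log_le_sub_one_of_pos (by positivity)
  linarith

/-- `log cpsi` is 1-Lipschitz -/
theorem log_cpsi_lip (w : List (Lt A)) {x y : ℝ} (hx : x ∈ Set.Icc (0 : ℝ) 1)
    (hy : y ∈ Set.Icc (0 : ℝ) 1) : |Real.log (cpsi w x) - Real.log (cpsi w y)| ≤ |x - y| := by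
  have h1 := Base2_log_aux (cpsi_pos w hx.1) (cpsi_pos w hy.1) (abs_nonneg (x - y))
    (Base2_cpsi_ratio w (x := x) hy)
  have h2 := Base2_log_aux (cpsi_pos w hy.1) (cpsi_pos w hx.1) (abs_nonneg (y - x))
    (Base2_cpsi_ratio w (x := y) hx)
  rw [abs_sub_comm y x] at h2
  rw [abs_le]
  constructor <;> linarith

theorem log_rphi_lip (w : List (Lt A)) {x y : ℝ} (hx : x ∈ Set.Icc (0 : ℝ) 1)
    (hy : y ∈ Set.Icc (0 : ℝ) 1) : |Real.log (rphi w x) - Real.log (rphi w y)| ≤ |x - y| := by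
  have h1 := Base2_log_aux (rphi_pos w hx.1) (rphi_pos w hy.1) (abs_nonneg (x - y))
    (rphi_ratio w hx hy)
  have h2 := Base2_log_aux (rphi_pos w hy.1) (rphi_pos w hx.1) (abs_nonneg (y - x))
    (rphi_ratio w hy hx)
  rw [abs_sub_comm y x] at h2
  rw [abs_le]
  constructor <;> linarith

theorem zeta_mem (w : List (Lt A)) : zeta w ∈ Set.Icc (0 : ℝ) 1 := by
  rw [← ract_zero]
  exact ract_mem w ⟨le_refl _, zero_le_one⟩

theorem eta_mem (w : List (Lt A)) : eta w ∈ Set.Icc (0 : ℝ) 1 := by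
  rw [← cact_zero]
  exact cact_mem w ⟨le_refl _, zero_le_one⟩

theorem inv_le_zeta {w : List (Lt A)} (hw : w ≠ []) : 1 / ((A : ℝ) + 1) ≤ zeta w := by
  have h1 : (F w : ℝ) ≤ ((A : ℝ) + 1) * (m12 w : ℝ) := by exact_mod_cast F_le_m12 hw
  unfold zeta
  rw [div_le_div_iff₀ (by positivity) (Base2_F_pos w)]
  linarith

theorem inv_le_eta {w : List (Lt A)} (hw : w ≠ []) : 1 / ((A : ℝ) + 1) ≤ eta w := by
  have h1 : (F w : ℝ) ≤ ((A : ℝ) + 1) * (m21 w : ℝ) := by exact_mod_cast F_le_m21 hw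
  unfold eta
  rw [div_le_div_iff₀ (by positivity) (Base2_F_pos w)]
  linarith

theorem Base2_sep_aux {a b a' b' : ℕ} (ha : 0 < a) (ha' : 0 < a')
    (h : b * a' ≠ b' * a) : 1 / ((a : ℝ) * a') ≤ |(b : ℝ) / a - (b' : ℝ) / a'| := by
  have h1 : (0 : ℝ) < a := by exact_mod_cast ha
  have h2 : (0 : ℝ) < a' := by exact_mod_cast ha'
  rw [div_sub_div _ _ h1.ne' h2.ne', abs_div, abs_of_pos (mul_pos h1 h2)]
  refine div_le_div_of_nonneg_right ?_ (mul_pos h1 h2).le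
  have h3 : ((b : ℤ) * a' - a * b') ≠ 0 := by
    intro h4
    apply h
    have h5 : (b : ℤ) * a' = a * b' := by linarith
    have h6 : b * a' = a * b' := by exact_mod_cast h5
    rw [h6, mul_comm]
  have h4 : (1 : ℤ) ≤ |(b : ℤ) * a' - a * b'| := Int.one_le_abs h3
  exact_mod_cast h4

theorem Base2_coprime_aux {a b a' b' : ℕ} (ha : 0 < a)
    (hc : Nat.Coprime a b) (hc' : Nat.Coprime a' b') (h : b * a' = b' * a) : a = a' ∧ b = b' := by
  have h1 : a ∣ a' := hc.dvd_of_dvd_mul_left (by rw [h]; exact Dvd.intro_left _ rfl)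
  have h2 : a' ∣ a := hc'.dvd_of_dvd_mul_left (by rw [← h]; exact Dvd.intro_left _ rfl)
  have h3 : a = a' := Nat.dvd_antisymm h1 h2
  subst h3
  exact ⟨rfl, Nat.eq_of_mul_eq_mul_right ha h⟩

/-- separation of the points `zeta w` -/
theorem zeta_sep {u w : List (Lt A)} (h : u ≠ w) :
    1 / ((F u : ℝ) * F w) ≤ |zeta u - zeta w| := by
  refine Base2_sep_aux (F_pos u) (F_pos w) (fun h1 => h ?_)
  obtain ⟨h2, h3⟩ := Base2_coprime_aux (F_pos u) (coprime_row u) (coprime_row w) h1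
  exact row_injective h2 h3

/-- separation of the points `eta w` -/
theorem eta_sep {u w : List (Lt A)} (h : u ≠ w) :
    1 / ((F u : ℝ) * F w) ≤ |eta u - eta w| := by
  refine Base2_sep_aux (F_pos u) (F_pos w) (fun h1 => h ?_)
  obtain ⟨h2, h3⟩ := Base2_coprime_aux (F_pos u) (coprime_col u) (coprime_col w) h1
  exact col_injective h2 h3

/-- vectors: action of a word on `(1, 0)` is the first column -/
theorem vact_e1 (q : ℕ) (w : List (Lt A)) :
    vact q (mat w) (1, 0) = ((F w : ZMod q), (m21 w : ZMod q)) := by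
  simp [vact, F, m21]

theorem vact_append (q : ℕ) (u v : List (Lt A)) (x : ZMod q × ZMod q) :
    vact q (mat (u ++ v)) x = vact q (mat u) (vact q (mat v) x) := by
  rw [mat_append]
  simp only [vact, Matrix.mul_apply, Fin.sum_univ_two]
  push_cast
  refine Prod.ext ?_ ?_
  · simp only
    ring
  · simp only
    ring

theorem vact_coprime (q : ℕ) (w : List (Lt A)) (x : ZMod q × ZMod q) :
    IsCoprime (vact q (mat w) x).1 (vact q (mat w) x).2 ↔ IsCoprime x.1 x.2 := by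
  have hd : (mat w 0 0 : ZMod q) * (mat w 1 1 : ZMod q) =
      (mat w 0 1 : ZMod q) * (mat w 1 0 : ZMod q) + 1 := by
    have h := det_one w
    unfold F m22 m12 m21 at h
    exact_mod_cast congrArg (Nat.cast : ℕ → ZMod q) h
  simp only [vact]
  constructor
  · rintro ⟨a, b, hab⟩
    refine ⟨a * (mat w 0 0 : ZMod q) + b * (mat w 1 0 : ZMod q),
      a * (mat w 0 1 : ZMod q) + b * (mat w 1 1 : ZMod q), ?_⟩
    rw [← hab]
    ring
  · rintro ⟨a, b, hab⟩
    refine ⟨a * (mat w 1 1 : ZMod q) - b * (mat w 1 0 : ZMod q),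
      b * (mat w 0 0 : ZMod q) - a * (mat w 0 1 : ZMod q), ?_⟩
    linear_combination hab + (a * x.1 + b * x.2) * hd

end Pool.Agent.W_f50700_h3
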