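import Pool.Agent.W_f50700_h3.Dim1
import Pool.Agent.W_f50700_h3.Expo2

/-!
Dim3: lower bound for the dimension.
-/

open Matrix Filter Topology

namespace Pool.Agent.W_f50700_h3

open Public

/-- concatenation of the first `n` blocks -/
def dim3W {A : ℕ} (w : ℕ → List (Lt A)) : ℕ → List (Lt A)
  | 0 => []
  | n + 1 => dim3W w n ++ w n

theorem dim3W_len {A : ℕ} (w : ℕ → List (Lt A)) (hw : ∀ i, w i ≠ []) (n : ℕ) :
    n ≤ (dim3W w n).length := by
  induction n with
  | zero => simp
  | succ n ih =>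
    rw [dim3W, List.length_append]
    have := List.length_pos_of_ne_nil (hw n)
    omega

theorem dim3W_prefix {A : ℕ} (w : ℕ → List (Lt A)) {n m : ℕ} (h : n ≤ m) :
    dim3W w n <+: dim3W w m := by
  induction m, h using Nat.le_induction with
  | base => exact List.prefix_rfl
  | succ m _ ih => exact ih.trans (List.prefix_append _ _)

/-- the infinite letter sequence -/
def dim3L {A : ℕ} (w : ℕ → List (Lt A)) (hw : ∀ i, w i ≠ []) (i : ℕ) : Lt A :=
  (dim3W w (i + 1))[i]'(dim3W_len w hw (i + 1))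

theorem dim3L_eq {A : ℕ} (w : ℕ → List (Lt A)) (hw : ∀ i, w i ≠ []) (n i : ℕ)
    (h : i < (dim3W w n).length) : dim3L w hw i = (dim3W w n)[i] := by
  unfold dim3L
  rcases le_total (i + 1) n with h1 | h1
  · exact (dim3W_prefix w h1).getElem _
  · exact ((dim3W_prefix w h1).getElem h).symm

theorem dim3L_take {A : ℕ} (w : ℕ → List (Lt A)) (hw : ∀ i, w i ≠ []) (N n : ℕ)
    (h : n ≤ (dim3W w N).length) :
    List.ofFn (fun i : Fin n => dim3L w hw i) = (dim3W w N).take n := by
  apply List.ext_getElem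
  · rw [List.length_ofFn, List.length_take]
    omega
  · intro i h1 h2
    rw [List.length_ofFn] at h1
    rw [List.getElem_ofFn, List.getElem_take]
    exact dim3L_eq w hw N i (by omega)

theorem dim3W_congr {A : ℕ} (w w' : ℕ → List (Lt A)) (n : ℕ) (h : ∀ i < n, w i = w' i) :
    dim3W w n = dim3W w' n := by
  induction n with
  | zero => rfl
  | succ n ih =>
    rw [dim3W, dim3W, ih fun i hi => h i (by omega), h n (by omega)]

theorem dim3W_F {A : ℕ} {Z : ℝ} (hZ : 1 < Z) (w : ℕ → List (Lt A))
    (hw : ∀ i, w i ∈ passF A Z) (n : ℕ) :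
    ((F (dim3W w n) : ℕ) : ℝ) ≤ (2 * (CA A * Z)) ^ n := by
  induction n with
  | zero => simp [dim3W]
  | succ n ih =>
    rw [dim3W]
    have h1 : ((F (dim3W w n ++ w n) : ℕ) : ℝ) ≤ 2 * (((F (dim3W w n) : ℕ) : ℝ) *
        ((F (w n) : ℕ) : ℝ)) := by exact_mod_cast F_append_le (dim3W w n) (w n)
    have h2 := (passF_bounds (hw n)).2
    have h3 := base3_CA_ge A
    calc ((F (dim3W w n ++ w n) : ℕ) : ℝ) ≤ 2 * (((F (dim3W w n) : ℕ) : ℝ) *
        ((F (w n) : ℕ) : ℝ)) := h1
      _ ≤ 2 * ((2 * (CA A * Z)) ^ n * (CA A * Z)) := by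
          apply mul_le_mul_of_nonneg_left _ (by norm_num)
          apply mul_le_mul ih h2 (Nat.cast_nonneg _)
          have : 0 ≤ CA A * Z := by nlinarith
          positivity
      _ = (2 * (CA A * Z)) ^ (n + 1) := by ring

/-- the digit sequence of a letter sequence -/
def dim3dig {A : ℕ} (L : ℕ → Lt A) (i : ℕ) : ℕ :=
  if i % 2 = 0 then ((L (i / 2)).1 : ℕ) + 1 else ((L (i / 2)).2 : ℕ) + 1

theorem dim3dig_even {A : ℕ} (L : ℕ → Lt A) (i : ℕ) :
    dim3dig L (2 * i) = ((L i).1 : ℕ) + 1 := by
  unfold dim3dig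
  rw [if_pos (by omega)]
  congr 4
  omega

theorem dim3dig_odd {A : ℕ} (L : ℕ → Lt A) (i : ℕ) :
    dim3dig L (2 * i + 1) = ((L i).2 : ℕ) + 1 := by
  unfold dim3dig
  rw [if_neg (by omega)]
  congr 4
  omega

theorem dim3dig_bd {A : ℕ} (L : ℕ → Lt A) (i : ℕ) : 1 ≤ dim3dig L i ∧ dim3dig L i ≤ A := by
  unfold dim3dig
  have h1 := (L (i / 2)).1.2
  have h2 := (L (i / 2)).2.2
  split_ifs <;> omega

theorem dim3_letters {A : ℕ} (L : ℕ → Lt A) (n : ℕ) :
    lettersOf (dim3dig L) n (dim3dig_bd L) = List.ofFn (fun i : Fin n => L i) := by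
  unfold lettersOf
  congr 1
  funext i
  apply Prod.ext
  · apply Fin.ext
    simp only [dim3dig_even, Nat.add_sub_cancel]
  · apply Fin.ext
    simp only [dim3dig_odd, Nat.add_sub_cancel]

/-- two different sequences of blocks: the letter sequences differ inside the first different
block -/
theorem dim3_diff {A : ℕ} {Z : ℝ} (w w' : ℕ → List (Lt A)) (hw : ∀ i, w i ∈ passF A Z)
    (hw' : ∀ i, w' i ∈ passF A Z) (h0 : ∀ i, w i ≠ []) (h0' : ∀ i, w' i ≠ []) (n : ℕ)
    (h : ∀ i < n, w i = w' i) (hn : w n ≠ w' n) :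
    ∃ m, m < (dim3W w (n + 1)).length ∧ dim3L w h0 m ≠ dim3L w' h0' m := by
  by_contra hcon
  push Not at hcon
  have hu := dim3W_congr w w' n h
  rcases le_total (dim3W w (n + 1)).length (dim3W w' (n + 1)).length with hl | hl
  · have hp : dim3W w (n + 1) <+: dim3W w' (n + 1) := by
      have e : dim3W w (n + 1) = (dim3W w' (n + 1)).take (dim3W w (n + 1)).length := by
        apply List.ext_getElem
        · rw [List.length_take]; omega
        · intro i h1 h2
          rw [List.getElem_take, ← dim3L_eq w h0 (n + 1) i h1,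
            ← dim3L_eq w' h0' (n + 1) i (by omega)]
          exact hcon i h1
      rw [e]
      exact List.take_prefix _ _
    obtain ⟨v, hv⟩ := hp
    rw [dim3W, dim3W, hu, List.append_assoc] at hv
    have hv' := List.append_cancel_left hv
    have := (pass_prefix_unique (v := v) (v' := []) (hw n) (hw' n) (by
      rw [hv', List.append_nil])).1
    exact hn this
  · have hp : dim3W w' (n + 1) <+: dim3W w (n + 1) := by
      have e : dim3W w' (n + 1) = (dim3W w (n + 1)).take (dim3W w' (n + 1)).length := by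
        apply List.ext_getElem
        · rw [List.length_take]; omega
        · intro i h1 h2
          rw [List.getElem_take, ← dim3L_eq w' h0' (n + 1) i h1,
            ← dim3L_eq w h0 (n + 1) i (by omega)]
          exact (hcon i (by omega)).symm
      rw [e]
      exact List.take_prefix _ _
    obtain ⟨v, hv⟩ := hp
    rw [dim3W, dim3W, hu, List.append_assoc] at hv
    have hv' := List.append_cancel_left hv
    have := (pass_prefix_unique (v := v) (v' := []) (hw' n) (hw n) (by
      rw [hv', List.append_nil])).1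
    exact hn this.symm

/-- lower bound at a fixed level -/
theorem dim3_level {A : ℕ} (hA : 1 ≤ A) {Z : ℝ} (hZ : 1 < Z) (hb : 2 ≤ (passF A Z).card) :
    ENNReal.ofReal (Real.log (passF A Z).card / (2 * Real.log (2 * (CA A * Z)))) ≤
      dimH (Cset A) := by
  classical
  set b := (passF A Z).card with hbdef
  set K := 2 * (CA A * Z) with hK
  have hCA := base3_CA_ge A
  have hK1 : 1 < K := by rw [hK]; nlinarith
  have hbR : (2 : ℝ) ≤ b := by exact_mod_cast hb
  obtain ⟨c, hc, hdist⟩ := cf_dist hA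
  let e : Fin b ≃ (passF A Z) := (passF A Z).equivFin.symm
  let wd : (ℕ → Fin b) → ℕ → List (Lt A) := fun s i => (e (s i)).1
  have hwd : ∀ s i, wd s i ∈ passF A Z := fun s i => (e (s i)).2
  have hne : ∀ s i, wd s i ≠ [] := fun s i => (mem_passF.1 (hwd s i)).1
  let L : (ℕ → Fin b) → ℕ → Lt A := fun s => dim3L (wd s) (hne s)
  have hlim : ∀ s, ∃ x : ℝ, Tendsto (fun n => cf n (dim3dig (L s))) atTop (𝓝 x) := fun s => by
    obtain ⟨x, hx, -⟩ := cf_tendsto (dim3dig_bd (L s))
    exact ⟨x, hx⟩
  choose X hX using hlim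
  have hXC : ∀ s, X s ∈ Cset A := fun s => ⟨dim3dig (L s), dim3dig_bd (L s), hX s⟩
  -- separation
  have hsep : ∀ s t : ℕ → Fin b, ∀ n : ℕ, (∀ i < n, s i = t i) → s n ≠ t n →
      c / K ^ (2 * (n + 1)) ≤ |X s - X t| := by
    intro s t n h1 h2
    obtain ⟨m, hm1, hm2⟩ := dim3_diff (wd s) (wd t) (hwd s) (hwd t) (hne s) (hne t) n
      (fun i hi => by simp only [wd]; rw [h1 i hi])
      (fun h => h2 (e.injective (Subtype.ext h)))
    have hex : ∃ m, L s m ≠ L t m := ⟨m, hm2⟩
    set m₀ := Nat.find hex with hm₀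
    have hm₀1 : L s m₀ ≠ L t m₀ := Nat.find_spec hex
    have hm₀2 : m₀ ≤ m := Nat.find_min' hex hm2
    have hm₀3 : ∀ i < m₀, L s i = L t i := fun i hi => by
      by_contra hh
      exact Nat.find_min hex hi hh
    have h3 := hdist (dim3dig (L s)) (dim3dig (L t)) (dim3dig_bd _) (dim3dig_bd _) (X s) (X t)
      (hX s) (hX t) m₀ (by
        intro i hi
        unfold dim3dig
        rw [hm₀3 (i / 2) (by omega)]) (by
        by_contra hh
        push Not at hh
        rw [dim3dig_even, dim3dig_even, dim3dig_odd, dim3dig_odd] at hh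
        apply hm₀1
        apply Prod.ext
        · apply Fin.ext; omega
        · apply Fin.ext; omega)
    refine le_trans ?_ h3
    have h4 : ((F (lettersOf (dim3dig (L s)) m₀ (dim3dig_bd (L s))) : ℕ) : ℝ) ≤ K ^ (n + 1) := by
      rw [dim3_letters, dim3L_take (wd s) (hne s) (n + 1) m₀ (by omega)]
      refine le_trans ?_ (dim3W_F hZ (wd s) (hwd s) (n + 1))
      exact_mod_cast F_le_of_prefix (List.take_prefix _ _)
    have h5 : (0 : ℝ) < ((F (lettersOf (dim3dig (L s)) m₀ (dim3dig_bd (L s))) : ℕ) : ℝ) :=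
      Base2_F_pos _
    apply div_le_div_of_nonneg_left hc.le (by positivity)
    rw [mul_comm 2 (n + 1), pow_mul]
    exact pow_le_pow_left₀ h5.le h4 2
  -- the exponent
  set r := Real.log b / (2 * Real.log K) with hr
  have hlogK : 0 < Real.log K := Real.log_pos hK1
  have hlogb : 0 < Real.log b := Real.log_pos (by linarith)
  have hr0 : 0 < r := div_pos hlogb (by positivity)
  have hKr : K ^ (2 * r) = b := by
    rw [Real.rpow_def_of_pos (by linarith)]
    have : Real.log K * (2 * r) = Real.log b := by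
      rw [hr]; field_simp
    rw [this, Real.exp_log (by linarith)]
  have hKn : ∀ n : ℕ, (K ^ (2 * (n + 1)) : ℝ) ^ r = (b : ℝ) ^ (n + 1) := by
    intro n
    rw [← hKr, ← Real.rpow_natCast, ← Real.rpow_natCast, ← Real.rpow_mul (by linarith),
      ← Real.rpow_mul (by linarith)]
    congr 1
    push_cast
    ring
  set C : ℝ := b / c ^ r with hC
  have hC0 : 0 < C := by positivity
  have hHol : ∀ s t : ℕ → Fin b, |Real.ofDigits s - Real.ofDigits t| ≤ C * |X s - X t| ^ r := by
    intro s t
    by_cases hst : s = t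
    · subst hst
      simp only [sub_self, abs_zero]
      positivity
    · have hex : ∃ n, s n ≠ t n := Function.ne_iff.1 hst
      set n := Nat.find hex with hn
      have h1 : s n ≠ t n := Nat.find_spec hex
      have h2 : ∀ i < n, s i = t i := fun i hi => by
        by_contra hh
        exact Nat.find_min hex hi hh
      have h3 := Real.abs_ofDigits_sub_ofDigits_le h2
      have h4 := hsep s t n h2 h1
      have h5 : (c / K ^ (2 * (n + 1))) ^ r ≤ |X s - X t| ^ r :=
        Real.rpow_le_rpow (by positivity) h4 hr0.le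
      rw [Real.div_rpow hc.le (by positivity), hKn] at h5
      refine h3.trans ?_
      calc ((b : ℝ) ^ n)⁻¹ = C * (c ^ r / (b : ℝ) ^ (n + 1)) := by
            have hb0 : (b : ℝ) ≠ 0 := by positivity
            have hc0 : c ^ r ≠ 0 := by positivity
            rw [hC, pow_succ]
            field_simp
        _ ≤ _ := mul_le_mul_of_nonneg_left h5 hC0.le
  -- the inverse function
  let φ : ℝ → ℝ := fun x => if h : ∃ s, X s = x then Real.ofDigits (Classical.choose h) else 0
  have hφ : ∀ s, φ (X s) = Real.ofDigits s := by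
    intro s
    have hex : ∃ t, X t = X s := ⟨s, rfl⟩
    have h1 : φ (X s) = Real.ofDigits (Classical.choose hex) := dif_pos hex
    have h2 := Classical.choose_spec hex
    have h3 := hHol (Classical.choose hex) s
    rw [h2, sub_self, abs_zero, Real.zero_rpow hr0.ne', mul_zero] at h3
    rw [h1]
    exact sub_eq_zero.1 (abs_nonpos_iff.1 h3)
  have hHO : HolderOnWith (Real.toNNReal C) (Real.toNNReal r) φ (Set.range X) := by
    rintro _ ⟨s, rfl⟩ _ ⟨t, rfl⟩
    rw [hφ, hφ, edist_dist, edist_dist, Real.dist_eq, Real.dist_eq,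
      Real.coe_toNNReal r hr0.le, ENNReal.ofReal_rpow_of_nonneg (abs_nonneg _) hr0.le]
    have : ((Real.toNNReal C : NNReal) : ENNReal) = ENNReal.ofReal C := rfl
    rw [this, ← ENNReal.ofReal_mul hC0.le]
    exact ENNReal.ofReal_le_ofReal (hHol s t)
  have hr0' : 0 < Real.toNNReal r := Real.toNNReal_pos.2 hr0
  have h1 := hHO.dimH_image_le hr0'
  have h2 : Set.Icc (0 : ℝ) 1 ⊆ φ '' (Set.range X) := by
    intro y hy
    obtain ⟨s, -, hs⟩ := Real.ofDigits_SurjOn (b := b) (by omega) hy
    exact ⟨X s, ⟨s, rfl⟩, by rw [hφ, hs]⟩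
  have h3 : dimH (Set.Icc (0 : ℝ) 1) = 1 := by
    have : (interior (Set.Icc (0 : ℝ) 1)).Nonempty := by
      rw [interior_Icc]
      exact ⟨1 / 2, by norm_num, by norm_num⟩
    rw [Real.dimH_of_nonempty_interior this]
    simp
  have h4 : (1 : ENNReal) ≤ dimH (Set.range X) / (Real.toNNReal r : NNReal) := by
    rw [← h3]
    exact (dimH_mono h2).trans h1
  have h5 : ((Real.toNNReal r : NNReal) : ENNReal) ≤ dimH (Set.range X) := by
    rw [ENNReal.le_div_iff_mul_le (Or.inl (by exact_mod_cast hr0'.ne'))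
      (Or.inl ENNReal.coe_ne_top), one_mul] at h4
    exact h4
  refine le_trans h5 (dimH_mono ?_)
  rintro _ ⟨s, rfl⟩
  exact hXC s

/-- (E5), lower bound.  Proof: fix `Z` large, `P = passF A Z`, `b = card P`.  Let `C'` be the set of
limits of digit sequences which are infinite concatenations of blocks of `P`.  The map
`x ↦ ∑ (index of the i-th block) b^(-i)` from `C'` onto `[0,1]` is Hoelder with exponent
`r = log b / (2 log (2 CA Z)) - small` by `cf_dist` (two points which first differ in block `i`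
have distance at least `c / (2 CA Z)^(2 i)` and images at distance at most `b^(-(i-1))`), so
`1 = dimH [0,1] ≤ dimH C' / r` (`HolderOnWith.dimH_image_le`), i.e. `r ≤ dimH (Cset A)`.
`b ≥ c Z^(sexp A)`, so `r → sexp A / 2` as `Z → ∞`. -/
theorem le_dimH_Cset {A : ℕ} (hA : 2 ≤ A) : ENNReal.ofReal (sexp A / 2) ≤ dimH (Cset A) := by
  obtain ⟨c, C, hc, hC, hcard⟩ := card_passF_bounds (A := A) (by omega : 1 ≤ A)
  set s := sexp A with hs
  have hs0 : 0 < s := sexp_pos hA
  have hCA := base3_CA_ge A
  set a := Real.log c with ha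
  set d := Real.log (2 * CA A) with hd
  have hlim : Tendsto (fun Z : ℝ => (a + s * Real.log Z) / (2 * (d + Real.log Z))) atTop
      (𝓝 (s / 2)) := by
    have h1 : Tendsto (fun Z : ℝ => 2 * (d + Real.log Z)) atTop atTop :=
      (tendsto_atTop_add_const_left _ d Real.tendsto_log_atTop).const_mul_atTop (by norm_num)
    have h2 : Tendsto (fun Z : ℝ => s / 2 + (a - s * d) / (2 * (d + Real.log Z))) atTop
        (𝓝 (s / 2 + 0)) := tendsto_const_nhds.add (h1.const_div_atTop _)
    rw [add_zero] at h2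
    refine h2.congr' ?_
    filter_upwards [h1.eventually_gt_atTop 0] with Z hZ
    have hne : d + Real.log Z ≠ 0 := by
      intro h
      rw [h, mul_zero] at hZ
      exact lt_irrefl _ hZ
    field_simp
    ring
  refine le_of_tendsto (ENNReal.tendsto_ofReal hlim) ?_
  have hbig : ∀ᶠ Z : ℝ in atTop, 2 ≤ c * Z ^ s :=
    ((tendsto_rpow_atTop hs0).const_mul_atTop hc).eventually_ge_atTop 2
  filter_upwards [hbig, eventually_gt_atTop (1 : ℝ)] with Z hZ2 hZ1
  have h1 := (hcard Z hZ1).1
  have h2 : 2 ≤ (passF A Z).card := by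
    have : (2 : ℝ) ≤ ((passF A Z).card : ℝ) := hZ2.trans h1
    exact_mod_cast this
  refine le_trans (ENNReal.ofReal_le_ofReal ?_) (dim3_level (by omega) hZ1 h2)
  have hZ0 : 0 < Z := by linarith
  have e1 : Real.log (2 * (CA A * Z)) = d + Real.log Z := by
    rw [hd, ← mul_assoc, Real.log_mul (by positivity) (by positivity)]
  rw [e1]
  have h3 : 0 < Real.log Z := Real.log_pos hZ1
  have h4 : 0 < d := Real.log_pos (by linarith)
  apply div_le_div_of_nonneg_right _ (by positivity)
  have h5 : a + s * Real.log Z = Real.log (c * Z ^ s) := by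
    rw [Real.log_mul (by positivity) (by positivity), Real.log_rpow hZ0]
  rw [h5]
  exact Real.log_le_log (by positivity) h1

end Pool.Agent.W_f50700_h3
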