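import Pool.Agent.W_f50700_h3.Dim2
import Pool.Agent.W_f50700_h3.Dim3

/-!
Dim: the Hausdorff dimension of the set of bounded continued fractions is half the exponent.
-/

namespace Pool.Agent.W_f50700_h3

open Public

/-- (E5) -/
theorem delta_eq {A : ℕ} (hA : 2 ≤ A) : delta A = sexp A / 2 := by
  rw [delta, le_antisymm (dimH_Cset_le hA) (le_dimH_Cset hA)]
  exact ENNReal.toReal_ofReal (by have := sexp_nonneg A; linarith)

end Pool.Agent.W_f50700_h3
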