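import Pool.Agent.W_f50700_h3.CirDefs
import Pool.Agent.W_f50700_h3.Dim

/-!
Bridge: the public definitions in terms of words.
-/

open Matrix Filter Topology

namespace Pool.Agent.W_f50700_h3

open Public

/-- cast of the matrix of a word to the integers -/
noncomputable def Bridge_z {A : ℕ} (w : List (Lt A)) : Matrix (Fin 2) (Fin 2) ℤ :=
  (mat w).map (fun n : ℕ => (n : ℤ))

theorem Bridge_lmat {A : ℕ} (g : Lt A) : (lmat g).map (fun n : ℕ => (n : ℤ)) =
    Public.J ((g.1 : ℕ) + 1) * Public.J ((g.2 : ℕ) + 1) := by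
  ext i j
  fin_cases i <;> fin_cases j <;> simp [Public.J, lmat, Matrix.mul_apply, Fin.sum_univ_two]

theorem Bridge_z_cons {A : ℕ} (g : Lt A) (w : List (Lt A)) :
    Bridge_z (g :: w) = Public.J ((g.1 : ℕ) + 1) * (Public.J ((g.2 : ℕ) + 1) * Bridge_z w) := by
  unfold Bridge_z
  rw [mat, ← Matrix.mul_assoc, ← Bridge_lmat]
  ext i j
  simp [Matrix.mul_apply, Fin.sum_univ_two]

theorem Bridge_z_nil (A : ℕ) : Bridge_z ([] : List (Lt A)) = 1 := by
  unfold Bridge_z
  rw [mat]
  ext i j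
  fin_cases i <;> fin_cases j <;> simp

/-- the list of partial quotients of a word -/
def Bridge_l {A : ℕ} : List (Lt A) → List ℕ
  | [] => []
  | g :: w => ((g.1 : ℕ) + 1) :: ((g.2 : ℕ) + 1) :: Bridge_l w

theorem Bridge_l_spec {A : ℕ} (w : List (Lt A)) :
    ((Bridge_l w).map Public.J).prod = Bridge_z w ∧ Even (Bridge_l w).length ∧
      (∀ a ∈ Bridge_l w, 1 ≤ a ∧ a ≤ A) ∧ (w ≠ [] → Bridge_l w ≠ []) := by
  induction w with
  | nil => exact ⟨by simp [Bridge_l, Bridge_z_nil], by simp [Bridge_l], by simp [Bridge_l],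
      fun h => absurd rfl h⟩
  | cons g w ih =>
    obtain ⟨h1, h2, h3, h4⟩ := ih
    refine ⟨?_, ?_, ?_, fun _ => by simp [Bridge_l]⟩
    · rw [Bridge_z_cons, ← h1]
      simp [Bridge_l]
    · have h5 : (Bridge_l (g :: w)).length = (Bridge_l w).length + 2 := by simp [Bridge_l]
      rw [h5]
      exact h2.add even_two
    · intro a ha
      simp only [Bridge_l, List.mem_cons] at ha
      have hg1 := g.1.isLt
      have hg2 := g.2.isLt
      rcases ha with rfl | rfl | ha
      · omega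
      · omega
      · exact h3 a ha

theorem Bridge_exists {A : ℕ} (k : ℕ) : ∀ l : List ℕ, l.length = 2 * k →
    (∀ a ∈ l, 1 ≤ a ∧ a ≤ A) →
    ∃ w : List (Lt A), w.length = k ∧ Bridge_z w = (l.map Public.J).prod := by
  induction k with
  | zero =>
    intro l hl _
    have h1 : l = [] := List.length_eq_zero_iff.1 (by omega)
    subst h1
    exact ⟨[], rfl, by simp [Bridge_z_nil]⟩
  | succ k ih =>
    intro l hl hla
    match l, hl, hla with
    | a :: b :: l', hl, hla =>
      have ha := hla a (by simp)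
      have hb := hla b (by simp)
      obtain ⟨w, hw, hz⟩ := ih l' (by simp only [List.length_cons] at hl; omega)
        (fun c hc => hla c (by simp [hc]))
      refine ⟨((⟨a - 1, by omega⟩ : Fin A), (⟨b - 1, by omega⟩ : Fin A)) :: w, by simp [hw], ?_⟩
      rw [Bridge_z_cons, hz]
      have e1 : a - 1 + 1 = a := by omega
      have e2 : b - 1 + 1 = b := by omega
      simp [e1, e2]
    | [_], hl, _ => simp only [List.length_cons, List.length_nil] at hl; omega
    | [], hl, _ => simp only [List.length_nil] at hl; omega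

/-- `Γ_A` is the set of the matrices of nonempty words -/
theorem Gam_eq (A : ℕ) : Gam A =
    Set.range (fun w : {w : List (Lt A) // w ≠ []} => (mat w.1).map (fun n : ℕ => (n : ℤ))) := by
  ext M
  constructor
  · rintro ⟨l, hl0, ⟨k, hk⟩, hla, rfl⟩
    obtain ⟨w, hw, hz⟩ := Bridge_exists (A := A) k l (by omega) hla
    refine ⟨⟨w, ?_⟩, hz⟩
    rintro rfl
    have h1 : k = 0 := by simpa using hw.symm
    exact hl0 (List.length_eq_zero_iff.1 (by omega))
  · rintro ⟨⟨w, hw⟩, rfl⟩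
    obtain ⟨h1, h2, h3, h4⟩ := Bridge_l_spec w
    exact ⟨Bridge_l w, h4 hw, h2, h3, h1.symm⟩

theorem Bridge_z_injective {A : ℕ} : Function.Injective (Bridge_z : List (Lt A) → _) := by
  intro u w h
  apply mat_injective
  ext i j
  have h1 := congrFun (congrFun h i) j
  unfold Bridge_z at h1
  simp only [Matrix.map_apply, Nat.cast_inj] at h1
  exact h1

theorem mult_eq (A : ℕ) {n : ℕ} (hn : 2 ≤ n) : (mult A n : ℝ) = mlt A n := by
  unfold mult mlt
  have h1 : {M ∈ Gam A | M 0 0 = (n : ℤ)} =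
      Bridge_z '' (((wordsF A (n : ℝ)).filter (fun w => F w = n) : Finset (List (Lt A))) :
        Set (List (Lt A))) := by
    ext M
    rw [Set.mem_ofPred_eq, Gam_eq, Set.mem_image]
    constructor
    · rintro ⟨⟨⟨w, hw⟩, rfl⟩, h⟩
      refine ⟨w, ?_, rfl⟩
      have h2' : ((F w : ℕ) : ℤ) = (n : ℤ) := h
      have h2 : F w = n := by exact_mod_cast h2'
      rw [Finset.mem_coe, Finset.mem_filter, mem_wordsF]
      exact ⟨by rw [h2], h2⟩
    · rintro ⟨w, hw, rfl⟩
      rw [Finset.mem_coe, Finset.mem_filter] at hw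
      have hw0 : w ≠ [] := by
        rintro rfl
        rw [F_nil] at hw
        omega
      refine ⟨⟨⟨w, hw0⟩, rfl⟩, ?_⟩
      show ((F w : ℕ) : ℤ) = n
      rw [hw.2]
  rw [h1, Set.ncard_image_of_injective _ Bridge_z_injective, Set.ncard_coe_finset]

/-- all words with `F w ≤ n` except the empty one -/
theorem NA_eq (A : ℕ) {n : ℕ} (hn : 1 ≤ n) : (NA A n : ℝ) = ((wordsF A (n : ℝ)).card : ℝ) - 1 := by
  unfold NA
  classical
  have h1 : {M ∈ Gam A | ∀ i j, |M i j| ≤ (n : ℤ)} =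
      Bridge_z '' (((wordsF A (n : ℝ)).erase [] : Finset (List (Lt A))) :
        Set (List (Lt A))) := by
    ext M
    rw [Set.mem_ofPred_eq, Gam_eq, Set.mem_image]
    constructor
    · rintro ⟨⟨⟨w, hw⟩, rfl⟩, h⟩
      refine ⟨w, ?_, rfl⟩
      have h2 := h 0 0
      rw [Finset.mem_coe, Finset.mem_erase, mem_wordsF]
      refine ⟨hw, ?_⟩
      have h3 : |((F w : ℕ) : ℤ)| ≤ (n : ℤ) := h2
      rw [Nat.abs_cast] at h3
      exact_mod_cast h3
    · rintro ⟨w, hw, rfl⟩
      rw [Finset.mem_coe, Finset.mem_erase, mem_wordsF] at hw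
      refine ⟨⟨⟨w, hw.1⟩, rfl⟩, ?_⟩
      have hF : F w ≤ n := by exact_mod_cast hw.2
      have e12 := m12_lt w
      have e21 := m21_lt w
      have e22 := m22_le_F w
      intro i j
      show |((mat w i j : ℕ) : ℤ)| ≤ (n : ℤ)
      rw [Nat.abs_cast]
      have h4 : mat w i j ≤ n := by
        fin_cases i <;> fin_cases j
        · exact hF
        · exact (show m12 w ≤ n by omega)
        · exact (show m21 w ≤ n by omega)
        · exact (show m22 w ≤ n by omega)
      exact_mod_cast h4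
  rw [h1, Set.ncard_image_of_injective _ Bridge_z_injective, Set.ncard_coe_finset,
    Finset.card_erase_of_mem, Nat.cast_sub, Nat.cast_one]
  · rw [Nat.one_le_iff_ne_zero, Finset.card_ne_zero]
    exact ⟨[], by rw [mem_wordsF, F_nil]; exact_mod_cast hn⟩
  · rw [mem_wordsF, F_nil]; exact_mod_cast hn

/-- `R A n / n^(s-1) → s c0 singFull n` uniformly: relative form -/
theorem R_asymp {A : ℕ} (hA : 2 ≤ A) : ∀ ε > 0, ∃ n0 : ℕ, ∀ n ≥ n0,
    |R A n - sexp A * c0 A * (n : ℝ) ^ (sexp A - 1) * singFull n| ≤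
      ε * ((n : ℝ) ^ (sexp A - 1) * singFull n) := by
  intro ε hε
  have hs : 0 < sexp A := sexp_pos hA
  have h1 : Tendsto (fun n : ℕ => (((wordsF A (n : ℝ)).card : ℝ) / (n : ℝ) ^ (sexp A))) atTop
      (𝓝 (c0 A)) := (card_wordsF_tendsto hA).comp tendsto_natCast_atTop_atTop
  have h2 : Tendsto (fun n : ℕ => (1 : ℝ) / (n : ℝ) ^ (sexp A)) atTop (𝓝 0) := by
    have h3 := (tendsto_rpow_neg_atTop hs).comp tendsto_natCast_atTop_atTop
    refine h3.congr fun n => ?_
    rw [Function.comp_apply, Real.rpow_neg (Nat.cast_nonneg n), one_div]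
  have h3 : Tendsto (fun n : ℕ => sexp A * (((((wordsF A (n : ℝ)).card : ℝ) - 1) /
      (n : ℝ) ^ (sexp A)) - c0 A)) atTop (𝓝 0) := by
    have h4 := ((h1.sub h2).sub_const (c0 A)).const_mul (sexp A)
    simp only [sub_zero, sub_self, mul_zero] at h4
    refine h4.congr fun n => ?_
    rw [sub_div]
  have h5 := (Metric.tendsto_atTop.1 h3) ε hε
  obtain ⟨n0, hn0⟩ := h5
  refine ⟨max n0 1, fun n hn => ?_⟩
  have hn1 : 1 ≤ n := (le_max_right _ _).trans hn
  have hn2 : n0 ≤ n := (le_max_left _ _).trans hn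
  have hnr : (0 : ℝ) < n := by exact_mod_cast hn1
  have h6 := (hn0 n hn2).le
  rw [Real.dist_eq, sub_zero] at h6
  have hsing := singFull_pos hn1
  have hR : R A n = sexp A * ((((wordsF A (n : ℝ)).card : ℝ) - 1) / (n : ℝ) ^ (sexp A)) *
      ((n : ℝ) ^ (sexp A - 1) * singFull n) := by
    unfold R
    rw [delta_eq hA, NA_eq A hn1, Real.rpow_sub_one hnr.ne']
    unfold singFull
    have : (n : ℝ) ^ (sexp A) ≠ 0 := (Real.rpow_pos_of_pos hnr _).ne'
    field_simp
  have h7 : R A n - sexp A * c0 A * (n : ℝ) ^ (sexp A - 1) * singFull n =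
      (sexp A * (((((wordsF A (n : ℝ)).card : ℝ) - 1) / (n : ℝ) ^ (sexp A)) - c0 A)) *
        ((n : ℝ) ^ (sexp A - 1) * singFull n) := by
    rw [hR]; ring
  have h8 : 0 ≤ (n : ℝ) ^ (sexp A - 1) * singFull n := by positivity
  rw [h7, abs_mul, abs_of_nonneg h8]
  exact mul_le_mul_of_nonneg_right h6 h8

end Pool.Agent.W_f50700_h3
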