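import Pool.Agent.W_f50700_h3.Defs

/-!
CirA: general Fourier lemmas for the circle method (row 440).
-/

open MeasureTheory

namespace Pool.Agent.W_f50700_h3

/-- `e` is periodic and multiplicative -/
theorem e_add (x y : ℝ) : e (x + y) = e x * e y := by
  unfold e
  rw [← Complex.exp_add]
  congr 1
  push_cast
  ring

theorem e_int (k : ℤ) : e (k : ℝ) = 1 := by
  unfold e
  rw [← Complex.exp_int_mul_two_pi_mul_I k]
  congr 1
  push_cast
  ring

theorem norm_e (x : ℝ) : ‖e x‖ = 1 := by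
  unfold e
  have h : (2 * (Real.pi : ℂ) * Complex.I * (x : ℂ)) = ((2 * Real.pi * x : ℝ) : ℂ) * Complex.I := by
    push_cast
    ring
  rw [h, Complex.norm_exp_ofReal_mul_I]

theorem cirA_e_zero : e 0 = 1 := by
  have := e_int 0
  simpa using this

theorem cirA_conj (x : ℝ) : (starRingEnd ℂ) (e x) = e (-x) := by
  unfold e
  rw [← Complex.exp_conj]
  congr 1
  rw [map_mul, map_mul, map_mul, Complex.conj_I, Complex.conj_ofReal, Complex.conj_ofReal,
    map_ofNat]
  push_cast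
  ring

theorem cirA_e_ne (x : ℝ) : e x ≠ 0 := Complex.exp_ne_zero _

theorem cirA_pow (x : ℝ) (n : ℕ) : e ((n : ℝ) * x) = e x ^ n := by
  induction n with
  | zero => simp [cirA_e_zero]
  | succ n ih =>
    have h : ((n + 1 : ℕ) : ℝ) * x = (n : ℝ) * x + x := by push_cast; ring
    rw [h, e_add, ih, pow_succ]

theorem cirA_int_e (k : ℤ) : ∫ θ in (0 : ℝ)..1, e ((k : ℝ) * θ) = if k = 0 then 1 else 0 := by
  split_ifs with h
  · subst h
    have h2 : (fun θ : ℝ => e (((0 : ℤ) : ℝ) * θ)) = fun _ => (1 : ℂ) := by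
      funext θ
      rw [Int.cast_zero, zero_mul, cirA_e_zero]
    rw [h2, intervalIntegral.integral_const]
    simp
  · have hc : (2 * (Real.pi : ℂ) * Complex.I * (k : ℂ)) ≠ 0 := by
      refine mul_ne_zero (mul_ne_zero (mul_ne_zero two_ne_zero ?_) Complex.I_ne_zero) ?_
      · exact_mod_cast Real.pi_ne_zero
      · exact_mod_cast h
    have h2 : (fun θ : ℝ => e ((k : ℝ) * θ)) = fun θ : ℝ =>
        Complex.exp ((2 * (Real.pi : ℂ) * Complex.I * (k : ℂ)) * θ) := by
      funext θ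
      unfold e
      congr 1
      push_cast
      ring
    rw [h2, integral_exp_mul_complex hc]
    have h3 : Complex.exp (2 * (Real.pi : ℂ) * Complex.I * (k : ℂ) * ((1 : ℝ) : ℂ)) = 1 := by
      rw [← Complex.exp_int_mul_two_pi_mul_I k]
      congr 1
      push_cast
      ring
    rw [h3]
    simp

theorem cirA_continuous (c : ℝ) : Continuous fun θ : ℝ => e (c * θ) := by
  unfold e
  fun_prop

/-- Parseval for finite sums -/
theorem parseval (N : ℕ) (a : ℕ → ℂ) :
    ∫ θ in (0 : ℝ)..1, ‖∑ n ∈ Finset.range N, a n * e ((n : ℝ) * θ)‖ ^ 2 =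
      ∑ n ∈ Finset.range N, ‖a n‖ ^ 2 := by
  have key : ∀ θ : ℝ, ((‖∑ n ∈ Finset.range N, a n * e ((n : ℝ) * θ)‖ ^ 2 : ℝ) : ℂ) =
      ∑ n ∈ Finset.range N, ∑ m ∈ Finset.range N,
        (a n * (starRingEnd ℂ) (a m)) * e ((((n : ℤ) - (m : ℤ) : ℤ) : ℝ) * θ) := by
    intro θ
    rw [← Complex.normSq_eq_norm_sq, Complex.normSq_eq_conj_mul_self, map_sum, Finset.sum_mul_sum,
      Finset.sum_comm]
    refine Finset.sum_congr rfl fun n _ => Finset.sum_congr rfl fun m _ => ?_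
    rw [map_mul, cirA_conj]
    have h : (((n : ℤ) - (m : ℤ) : ℤ) : ℝ) * θ = (n : ℝ) * θ + -((m : ℝ) * θ) := by
      push_cast
      ring
    rw [h, e_add]
    ring
  have h1 : (((∫ θ in (0 : ℝ)..1, ‖∑ n ∈ Finset.range N, a n * e ((n : ℝ) * θ)‖ ^ 2) : ℝ) : ℂ) =
      ((∑ n ∈ Finset.range N, ‖a n‖ ^ 2 : ℝ) : ℂ) := by
    rw [← intervalIntegral.integral_ofReal]
    simp only [key]
    have hc : ∀ n m : ℕ, Continuous fun θ : ℝ =>
        (a n * (starRingEnd ℂ) (a m)) * e ((((n : ℤ) - (m : ℤ) : ℤ) : ℝ) * θ) := fun n m =>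
      continuous_const.mul (cirA_continuous _)
    have hc2 : ∀ n : ℕ, Continuous fun θ : ℝ => ∑ m ∈ Finset.range N,
        (a n * (starRingEnd ℂ) (a m)) * e ((((n : ℤ) - (m : ℤ) : ℤ) : ℝ) * θ) := fun n =>
      continuous_finsetSum _ fun m _ => hc n m
    rw [intervalIntegral.integral_finsetSum fun n _ => (hc2 n).intervalIntegrable _ _]
    push_cast
    refine Finset.sum_congr rfl fun n hn => ?_
    have hc3 : ∀ m : ℕ, Continuous fun θ : ℝ =>
        (a n * (starRingEnd ℂ) (a m)) * e (((n : ℝ) - (m : ℝ)) * θ) := fun m =>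
      continuous_const.mul (cirA_continuous _)
    rw [intervalIntegral.integral_finsetSum fun m _ => (hc3 m).intervalIntegrable _ _]
    have hc4 : ∀ m : ℕ, ∫ θ in (0 : ℝ)..1, (a n * (starRingEnd ℂ) (a m)) *
        e (((n : ℝ) - (m : ℝ)) * θ) = (a n * (starRingEnd ℂ) (a m)) *
          (if (n : ℤ) - (m : ℤ) = 0 then 1 else 0) := by
      intro m
      rw [intervalIntegral.integral_const_mul, ← cirA_int_e]
      push_cast
      rfl
    simp only [hc4]
    rw [Finset.sum_eq_single n]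
    · rw [if_pos (sub_self _), mul_one, Complex.mul_conj, Complex.normSq_eq_norm_sq]
      push_cast
      rfl
    · intro m _ hm
      rw [if_neg, mul_zero]
      intro h
      apply hm
      omega
    · intro h
      exact absurd hn h
  exact_mod_cast h1

/-- `|e(x) - 1| ≥ 4 dist1 x` -/
theorem cirA_sub_one (x : ℝ) : 4 * dist1 x ≤ ‖e x - 1‖ := by
  set r : ℝ := x - round x with hr
  have h1 : e x = e r := by
    have : x = r + ((round x : ℤ) : ℝ) := by rw [hr]; ring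
    rw [this, e_add, e_int, mul_one]
  have h2 : ‖e r - 1‖ = 2 * |Real.sin (Real.pi * r)| := by
    have h : e r = Complex.exp (Complex.I * ((2 * Real.pi * r : ℝ) : ℂ)) := by
      unfold e
      congr 1
      push_cast
      ring
    rw [h, Complex.norm_exp_I_mul_ofReal_sub_one, Real.norm_eq_abs, abs_mul, abs_two]
    congr 3
    ring
  rw [h1, h2]
  have h3 : dist1 x = |r| := rfl
  rw [h3]
  have h4 : |r| ≤ 1 / 2 := abs_sub_round x
  have h5 : |Real.sin (Real.pi * r)| = Real.sin (Real.pi * |r|) := by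
    rcases abs_cases r with ⟨h, h'⟩ | ⟨h, h'⟩
    · rw [h, abs_of_nonneg]
      refine Real.sin_nonneg_of_nonneg_of_le_pi (mul_nonneg Real.pi_pos.le h') ?_
      rw [h] at h4
      nlinarith [Real.pi_pos]
    · rw [h]
      rw [mul_neg, Real.sin_neg, abs_of_nonpos]
      rw [h] at h4
      have : 0 ≤ Real.sin (Real.pi * (-r)) := by
        refine Real.sin_nonneg_of_nonneg_of_le_pi (mul_nonneg Real.pi_pos.le (by linarith)) ?_
        nlinarith [Real.pi_pos]
      rw [mul_neg, Real.sin_neg] at this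
      linarith
  rw [h5]
  have h6 := Real.mul_le_sin (x := Real.pi * |r|) (mul_nonneg Real.pi_pos.le (abs_nonneg _))
    (by nlinarith [Real.pi_pos])
  have h7 : 2 / Real.pi * (Real.pi * |r|) = 2 * |r| := by
    field_simp
  rw [h7] at h6
  linarith

/-- geometric sums -/
theorem cirA_geom (N : ℕ) {β : ℝ} (hβ : 0 < dist1 β) :
    ‖∑ n ∈ Finset.range N, e β ^ n‖ ≤ 1 / (2 * dist1 β) := by
  have h1 := cirA_sub_one β
  have h2 : 0 < ‖e β - 1‖ := by linarith
  have h3 : e β ≠ 1 := by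
    intro h
    rw [h, sub_self, norm_zero] at h2
    exact lt_irrefl _ h2
  rw [geom_sum_eq h3, norm_div]
  have h4 : ‖e β ^ N - 1‖ ≤ 2 := by
    refine (norm_sub_le _ _).trans ?_
    rw [norm_pow, norm_e, one_pow, norm_one]
    norm_num
  rw [div_le_div_iff₀ h2 (by linarith)]
  nlinarith [norm_nonneg (e β ^ N - 1)]

/-- Abel summation -/
theorem cirA_abel (N : ℕ) (a : ℕ → ℝ) (z : ℂ) :
    ∑ n ∈ Finset.range N, (a n : ℂ) * z ^ n =
      (a N : ℂ) * (∑ k ∈ Finset.range N, z ^ k) -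
        ∑ n ∈ Finset.range N, ((a (n + 1) : ℂ) - a n) * ∑ k ∈ Finset.range (n + 1), z ^ k := by
  induction N with
  | zero => simp
  | succ N ih =>
    rw [Finset.sum_range_succ, ih, Finset.sum_range_succ (fun n => ((a (n + 1) : ℂ) - a n) *
      ∑ k ∈ Finset.range (n + 1), z ^ k), Finset.sum_range_succ (fun k => z ^ k)]
    ring

/-- partial summation: bounded variation -/
theorem bv_bound (N : ℕ) (a : ℕ → ℝ) {β : ℝ} (hβ : 0 < dist1 β) :
    ‖∑ n ∈ Finset.range N, (a n : ℂ) * e ((n : ℝ) * β)‖ ≤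
      (|a 0| + ∑ n ∈ Finset.range N, |a (n + 1) - a n| + |a N|) / dist1 β := by
  simp only [cirA_pow]
  rw [cirA_abel]
  have h1 : ‖(a N : ℂ) * (∑ k ∈ Finset.range N, e β ^ k)‖ ≤ |a N| * (1 / (2 * dist1 β)) := by
    rw [norm_mul, Complex.norm_real, Real.norm_eq_abs]
    exact mul_le_mul_of_nonneg_left (cirA_geom N hβ) (abs_nonneg _)
  have h2 : ‖∑ n ∈ Finset.range N, ((a (n + 1) : ℂ) - a n) *
      ∑ k ∈ Finset.range (n + 1), e β ^ k‖ ≤
      (∑ n ∈ Finset.range N, |a (n + 1) - a n|) * (1 / (2 * dist1 β)) := by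
    refine (norm_sum_le _ _).trans ?_
    rw [Finset.sum_mul]
    refine Finset.sum_le_sum fun n _ => ?_
    rw [norm_mul, ← Complex.ofReal_sub, Complex.norm_real, Real.norm_eq_abs]
    exact mul_le_mul_of_nonneg_left (cirA_geom (n + 1) hβ) (abs_nonneg _)
  refine (norm_sub_le _ _).trans ((add_le_add h1 h2).trans ?_)
  rw [← add_mul, mul_one_div, div_le_div_iff₀ (by linarith) hβ]
  have h3 : 0 ≤ ∑ n ∈ Finset.range N, |a (n + 1) - a n| :=
    Finset.sum_nonneg fun _ _ => abs_nonneg _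
  have h4 := abs_nonneg (a 0)
  have h5 := abs_nonneg (a N)
  nlinarith

theorem cirA_tri_coef (L : ℕ) (u : ℤ) :
    max 0 (((L + 1 : ℕ) : ℤ) - |u|) = max 0 ((L : ℤ) - |u|) + (if |u| ≤ (L : ℤ) then 1 else 0) := by
  have h0 := abs_nonneg u
  split_ifs with h
  · rw [max_eq_right (by push_cast; omega), max_eq_right (by omega)]
    push_cast
    ring
  · rw [max_eq_left (by push_cast; omega), max_eq_left (by omega)]
    ring

theorem cirA_mid (z : ℂ) (m N L : ℕ) (hm : L + 1 ≤ m) (hN : m + (L + 1) ≤ N) :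
    ∑ n ∈ Finset.range N, ((if |(n : ℤ) - m| ≤ (L : ℤ) then 1 else 0 : ℤ) : ℂ) * z ^ n =
      z ^ (m - L) * ∑ k ∈ Finset.range (2 * L + 1), z ^ k := by
  rw [Finset.range_eq_Ico, ← Finset.sum_Ico_consecutive _ (Nat.zero_le (m - L))
    (by omega : m - L ≤ N), ← Finset.sum_Ico_consecutive _ (by omega : m - L ≤ m + L + 1)
    (by omega : m + L + 1 ≤ N)]
  have h1 : ∑ n ∈ Finset.Ico 0 (m - L),
      ((if |(n : ℤ) - m| ≤ (L : ℤ) then 1 else 0 : ℤ) : ℂ) * z ^ n = 0 := by
    refine Finset.sum_eq_zero fun n hn => ?_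
    rw [Finset.mem_Ico] at hn
    rw [if_neg, Int.cast_zero, zero_mul]
    rw [abs_le]
    omega
  have h3 : ∑ n ∈ Finset.Ico (m + L + 1) N,
      ((if |(n : ℤ) - m| ≤ (L : ℤ) then 1 else 0 : ℤ) : ℂ) * z ^ n = 0 := by
    refine Finset.sum_eq_zero fun n hn => ?_
    rw [Finset.mem_Ico] at hn
    rw [if_neg, Int.cast_zero, zero_mul]
    rw [abs_le]
    omega
  rw [h1, h3, zero_add, add_zero, Finset.sum_Ico_eq_sum_range, Finset.mul_sum]
  have h4 : m + L + 1 - (m - L) = 2 * L + 1 := by omega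
  rw [h4]
  refine Finset.sum_congr rfl fun k hk => ?_
  rw [Finset.mem_range] at hk
  rw [if_pos, Int.cast_one, one_mul, pow_add]
  rw [abs_le]
  omega

/-- the triangle as a square of a geometric sum -/
theorem cirA_tri (z : ℂ) (m N : ℕ) (L : ℕ) (hm : L ≤ m) (hN : m + L ≤ N) :
    ∑ n ∈ Finset.range N, ((max 0 ((L : ℤ) - |(n : ℤ) - m|) : ℤ) : ℂ) * z ^ n =
      z ^ (m - L + 1) * (∑ k ∈ Finset.range L, z ^ k) ^ 2 := by
  induction L with
  | zero =>
    rw [Finset.range_zero, Finset.sum_empty]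
    rw [zero_pow two_ne_zero, mul_zero]
    refine Finset.sum_eq_zero fun n _ => ?_
    rw [max_eq_left, Int.cast_zero, zero_mul]
    have := abs_nonneg ((n : ℤ) - m)
    push_cast
    omega
  | succ L ih =>
    have ih' := ih (by omega) (by omega)
    have h1 : ∀ n : ℕ, ((max 0 (((L + 1 : ℕ) : ℤ) - |(n : ℤ) - m|) : ℤ) : ℂ) * z ^ n =
        ((max 0 ((L : ℤ) - |(n : ℤ) - m|) : ℤ) : ℂ) * z ^ n +
          ((if |(n : ℤ) - m| ≤ (L : ℤ) then 1 else 0 : ℤ) : ℂ) * z ^ n := by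
      intro n
      rw [cirA_tri_coef, Int.cast_add, add_mul]
    rw [Finset.sum_congr rfl fun n _ => h1 n, Finset.sum_add_distrib, ih', cirA_mid z m N L hm hN]
    have h2 : m - (L + 1) + 1 = m - L := by omega
    rw [h2]
    have g1 : ∑ k ∈ Finset.range (L + 1), z ^ k = z * (∑ k ∈ Finset.range L, z ^ k) + 1 :=
      geom_sum_succ
    have g2 : ∑ k ∈ Finset.range (L + 1), z ^ k = (∑ k ∈ Finset.range L, z ^ k) + z ^ L :=
      Finset.sum_range_succ _ _
    have g3 : ∑ k ∈ Finset.range (2 * L + 1), z ^ k =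
        (∑ k ∈ Finset.range (L + 1), z ^ k) + z ^ (L + 1) * ∑ k ∈ Finset.range L, z ^ k := by
      have : 2 * L + 1 = (L + 1) + L := by ring
      rw [this, Finset.sum_range_add, Finset.mul_sum]
      congr 1
      refine Finset.sum_congr rfl fun k _ => ?_
      rw [pow_add]
    rw [g3]
    set G := ∑ k ∈ Finset.range L, z ^ k with hG
    rw [g2] at g1 ⊢
    have g4 : z ^ (L + 1) = z * z ^ L := by ring
    have g5 : z ^ (m - L + 1) = z ^ (m - L) * z := by rw [pow_succ]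
    rw [g4, g5]
    linear_combination (-(z ^ (m - L) * (G + z ^ L))) * g1

theorem cirA_win (m : ℝ) (L : ℕ) (hL : 1 ≤ L) (k n : ℤ) (hk : (k : ℝ) = m) :
    win m L (n : ℝ) = ((max 0 ((L : ℤ) - |n - k|) : ℤ) : ℝ) / L := by
  have hL' : (0 : ℝ) < L := by exact_mod_cast hL
  unfold win
  rw [← hk]
  push_cast
  rw [eq_div_iff hL'.ne', max_mul_of_nonneg _ _ hL'.le, zero_mul]
  congr 1
  field_simp

/-- the window sum as a Fejer kernel: for `x` not an integer
`|∑_n win m L n e(n x)| ≤ 1 / (4 L dist1(x)^2)` (`m ≥ L ≥ 1` integers); trivial bound `L`. -/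
theorem fejer_window {m L : ℕ} (hL : 1 ≤ L) (hm : L ≤ m) (N : ℕ) (hN : m + L ≤ N) {x : ℝ}
    (hx : 0 < dist1 x) :
    ‖∑ n ∈ Finset.range N, (win m L n : ℂ) * e ((n : ℝ) * x)‖ ≤ 1 / (4 * L * dist1 x ^ 2) := by
  have hL' : (0 : ℝ) < L := by exact_mod_cast hL
  have h1 : ∑ n ∈ Finset.range N, (win m L n : ℂ) * e ((n : ℝ) * x) =
      (1 / (L : ℂ)) * (e x ^ (m - L + 1) * (∑ k ∈ Finset.range L, e x ^ k) ^ 2) := by
    rw [← cirA_tri (e x) m N L hm hN, Finset.mul_sum]
    refine Finset.sum_congr rfl fun n _ => ?_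
    have := cirA_win (m : ℝ) L hL (m : ℤ) (n : ℤ) (by push_cast; rfl)
    rw [Int.cast_natCast] at this
    rw [this, cirA_pow, Complex.ofReal_div, Complex.ofReal_intCast, Complex.ofReal_natCast]
    ring
  rw [h1, norm_mul, norm_mul, norm_pow, norm_e, one_pow, one_mul, norm_pow, norm_div, norm_one,
    Complex.norm_natCast]
  have h2 := cirA_geom L hx
  have h3 : ‖∑ k ∈ Finset.range L, e x ^ k‖ ^ 2 ≤ (1 / (2 * dist1 x)) ^ 2 :=
    pow_le_pow_left₀ (norm_nonneg _) h2 2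
  calc 1 / (L : ℝ) * ‖∑ k ∈ Finset.range L, e x ^ k‖ ^ 2
      ≤ 1 / (L : ℝ) * (1 / (2 * dist1 x)) ^ 2 := mul_le_mul_of_nonneg_left h3 (by positivity)
    _ = _ := by
      field_simp
      ring

theorem window_sum {m L : ℕ} (hL : 1 ≤ L) (hm : L ≤ m) (N : ℕ) (hN : m + L ≤ N) :
    ∑ n ∈ Finset.range N, win m L n = (L : ℝ) := by
  have hL' : (0 : ℝ) < L := by exact_mod_cast hL
  have h1 := cirA_tri 1 m N L hm hN
  simp only [one_pow, mul_one, one_mul, Finset.sum_const, Finset.card_range, nsmul_eq_mul] at h1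
  have h2 : ((∑ n ∈ Finset.range N, ((max 0 ((L : ℤ) - |(n : ℤ) - m|) : ℤ) : ℝ) : ℝ) : ℂ) =
      (((L : ℝ) ^ 2 : ℝ) : ℂ) := by
    rw [Complex.ofReal_sum, Complex.ofReal_pow, Complex.ofReal_natCast, ← h1]
    exact Finset.sum_congr rfl fun n _ => Complex.ofReal_intCast _
  have h3 : ∑ n ∈ Finset.range N, ((max 0 ((L : ℤ) - |(n : ℤ) - m|) : ℤ) : ℝ) = (L : ℝ) ^ 2 := by
    exact_mod_cast h2
  have h4 : ∀ n ∈ Finset.range N, win m L (n : ℝ) =
      ((max 0 ((L : ℤ) - |(n : ℤ) - m|) : ℤ) : ℝ) / L := by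
    intro n _
    have := cirA_win (m : ℝ) L hL (m : ℤ) (n : ℤ) (by push_cast; rfl)
    rw [Int.cast_natCast] at this
    exact this
  rw [Finset.sum_congr rfl h4, ← Finset.sum_div, h3]
  field_simp

/-- lower bound of the geometric sum near zero -/
theorem cirA_lower {L : ℕ} (hL : 1 ≤ L) {β : ℝ} (hβ : |β| ≤ 1 / (2 * L)) :
    2 * L / Real.pi ≤ ‖∑ k ∈ Finset.range L, e β ^ k‖ := by
  have hL' : (1 : ℝ) ≤ L := by exact_mod_cast hL
  have hpi := Real.pi_pos
  have hsin : ∀ x : ℝ, ‖e x - 1‖ = 2 * |Real.sin (Real.pi * x)| := by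
    intro x
    have h : e x = Complex.exp (Complex.I * ((2 * Real.pi * x : ℝ) : ℂ)) := by
      unfold e
      congr 1
      push_cast
      ring
    rw [h, Complex.norm_exp_I_mul_ofReal_sub_one, Real.norm_eq_abs, abs_mul, abs_two]
    congr 3
    ring
  rcases eq_or_ne β 0 with h0 | h0
  · subst h0
    rw [cirA_e_zero]
    simp only [one_pow, Finset.sum_const, Finset.card_range, nsmul_eq_mul, mul_one,
      Complex.norm_natCast]
    rw [div_le_iff₀ hpi]
    nlinarith [Real.pi_gt_three]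
  · have hb : 0 < |β| := abs_pos.2 h0
    have hbL : (L : ℝ) * |β| ≤ 1 / 2 := by
      have := mul_le_mul_of_nonneg_left hβ (by linarith : (0 : ℝ) ≤ L)
      have h2 : (L : ℝ) * (1 / (2 * L)) = 1 / 2 := by field_simp
      linarith
    have h1 : (∑ k ∈ Finset.range L, e β ^ k) * (e β - 1) = e β ^ L - 1 := geom_sum_mul _ _
    have h2 : ‖∑ k ∈ Finset.range L, e β ^ k‖ * ‖e β - 1‖ = ‖e ((L : ℝ) * β) - 1‖ := by
      rw [← norm_mul, h1, cirA_pow]
    rw [hsin, hsin] at h2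
    have h3 : |Real.sin (Real.pi * β)| ≤ Real.pi * |β| := by
      have := Real.abs_sin_le_abs (x := Real.pi * β)
      rwa [abs_mul, abs_of_pos hpi] at this
    have h4 : 2 * ((L : ℝ) * |β|) ≤ |Real.sin (Real.pi * ((L : ℝ) * β))| := by
      have h5 := Real.mul_abs_le_abs_sin (x := Real.pi * ((L : ℝ) * β)) (by
        rw [abs_mul, abs_mul, abs_of_pos hpi, abs_of_pos (by linarith : (0 : ℝ) < L)]
        nlinarith)
      rw [abs_mul Real.pi, abs_mul (L : ℝ), abs_of_pos hpi,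
        abs_of_pos (by linarith : (0 : ℝ) < L)] at h5
      have h6 : 2 / Real.pi * (Real.pi * ((L : ℝ) * |β|)) = 2 * ((L : ℝ) * |β|) := by
        field_simp
      rw [h6] at h5
      exact h5
    rw [div_le_iff₀ hpi]
    set G := ‖∑ k ∈ Finset.range L, e β ^ k‖ with hG
    have hG0 : 0 ≤ G := norm_nonneg _
    have h7 : 2 * (2 * ((L : ℝ) * |β|)) ≤ G * (2 * (Real.pi * |β|)) := by
      have := mul_le_mul_of_nonneg_left h3 hG0
      nlinarith
    have h8 : (2 * (L : ℝ)) * (2 * |β|) ≤ (G * Real.pi) * (2 * |β|) := by nlinarith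
    exact le_of_mul_le_mul_right h8 (by linarith)

/-- Gallagher's lemma with Fejer windows -/
theorem gallagher {L : ℕ} (hL : 1 ≤ L) (N : ℕ) (a : ℕ → ℂ) :
    ∫ β in (-(1 / (2 * L)) : ℝ)..(1 / (2 * L)),
      ‖∑ n ∈ Finset.range N, a n * e ((n : ℝ) * β)‖ ^ 2 ≤
      (Real.pi ^ 2 / 4) ^ 2 / (L : ℝ) ^ 2 *
        ∑ m ∈ Finset.Icc (-(L : ℤ)) (N + L),
          ‖∑ n ∈ Finset.range N, (win m L n : ℂ) * a n‖ ^ 2 := by
  have hL' : (1 : ℝ) ≤ L := by exact_mod_cast hL
  have hpi := Real.pi_pos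
  set c : ℕ → ℂ := fun k => ∑ n ∈ Finset.range N, (win ((k : ℝ) - L) L n : ℂ) * a n with hc
  -- the product identity
  have hprod : ∀ β : ℝ, e β * (∑ n ∈ Finset.range N, a n * e ((n : ℝ) * β)) *
      (∑ k ∈ Finset.range L, e β ^ k) ^ 2 =
      (L : ℂ) * ∑ k ∈ Finset.range (N + 2 * L), c k * e ((k : ℝ) * β) := by
    intro β
    have h1 : ∀ n ∈ Finset.range N, e β * (a n * e ((n : ℝ) * β)) *
        (∑ k ∈ Finset.range L, e β ^ k) ^ 2 =
        ∑ k ∈ Finset.range (N + 2 * L), (L : ℂ) * ((win ((k : ℝ) - L) L n : ℂ) * a n) *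
          e ((k : ℝ) * β) := by
      intro n hn
      rw [Finset.mem_range] at hn
      have h2 := cirA_tri (e β) (n + L) (N + 2 * L) L (by omega) (by omega)
      have h3 : n + L - L + 1 = n + 1 := by omega
      rw [h3] at h2
      have h4 : e β * (a n * e ((n : ℝ) * β)) * (∑ k ∈ Finset.range L, e β ^ k) ^ 2 =
          a n * (e β ^ (n + 1) * (∑ k ∈ Finset.range L, e β ^ k) ^ 2) := by
        rw [cirA_pow]
        ring
      rw [h4, ← h2, Finset.mul_sum]
      refine Finset.sum_congr rfl fun k _ => ?_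
      have h5 := cirA_win ((k : ℝ) - L) L hL ((k : ℤ) - L) (n : ℤ) (by push_cast; rfl)
      rw [Int.cast_natCast] at h5
      rw [h5, cirA_pow]
      have h6 : |(n : ℤ) - ((k : ℤ) - L)| = |(k : ℤ) - ((n + L : ℕ) : ℤ)| := by
        rw [← abs_neg]
        congr 1
        push_cast
        ring
      rw [h6]
      have h7 : (L : ℂ) ≠ 0 := by
        have : (L : ℝ) ≠ 0 := by linarith
        exact_mod_cast this
      rw [Complex.ofReal_div, Complex.ofReal_intCast, Complex.ofReal_natCast]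
      field_simp
    rw [Finset.mul_sum, Finset.sum_mul, Finset.sum_congr rfl h1, Finset.sum_comm, Finset.mul_sum]
    refine Finset.sum_congr rfl fun k _ => ?_
    rw [hc]
    simp only
    rw [Finset.sum_mul, Finset.mul_sum]
    refine Finset.sum_congr rfl fun n _ => ?_
    ring
  set S : ℝ → ℝ := fun β => ‖∑ n ∈ Finset.range N, a n * e ((n : ℝ) * β)‖ ^ 2 with hS
  set P : ℝ → ℝ := fun β => ‖∑ k ∈ Finset.range (N + 2 * L), c k * e ((k : ℝ) * β)‖ ^ 2 with hP
  have hcont : ∀ (M : ℕ) (b : ℕ → ℂ), Continuous fun β : ℝ =>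
      ‖∑ n ∈ Finset.range M, b n * e ((n : ℝ) * β)‖ ^ 2 := fun M b =>
    (continuous_norm.comp (continuous_finsetSum _ fun n _ =>
      continuous_const.mul (cirA_continuous _))).pow 2
  have hScont : Continuous S := hcont N a
  have hPcont : Continuous P := hcont _ c
  have hpt : ∀ β ∈ Set.Icc (-(1 / (2 * (L : ℝ)))) (1 / (2 * L)),
      S β ≤ (Real.pi ^ 2 / 4) ^ 2 / (L : ℝ) ^ 2 * P β := by
    intro β hβ
    have h1 := cirA_lower hL (abs_le.2 ⟨hβ.1, hβ.2⟩)
    have h2 : ‖∑ n ∈ Finset.range N, a n * e ((n : ℝ) * β)‖ *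
        ‖∑ k ∈ Finset.range L, e β ^ k‖ ^ 2 =
        L * ‖∑ k ∈ Finset.range (N + 2 * L), c k * e ((k : ℝ) * β)‖ := by
      have := congrArg norm (hprod β)
      rwa [norm_mul, norm_mul, norm_e, one_mul, norm_pow, norm_mul, Complex.norm_natCast] at this
    set s := ‖∑ n ∈ Finset.range N, a n * e ((n : ℝ) * β)‖ with hs
    set g := ‖∑ k ∈ Finset.range L, e β ^ k‖ with hg
    set q := ‖∑ k ∈ Finset.range (N + 2 * L), c k * e ((k : ℝ) * β)‖ with hq
    have hs0 : 0 ≤ s := norm_nonneg _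
    have hq0 : 0 ≤ q := norm_nonneg _
    have h3 : (2 * L / Real.pi) ^ 2 ≤ g ^ 2 := pow_le_pow_left₀ (by positivity) h1 2
    have h4 : s * (2 * L / Real.pi) ^ 2 ≤ L * q := by
      rw [← h2]
      exact mul_le_mul_of_nonneg_left h3 hs0
    have h5 : s ≤ (Real.pi ^ 2 / 4) / L * q := by
      have h6 : s * (2 * L / Real.pi) ^ 2 = s * (4 * L ^ 2 / Real.pi ^ 2) := by
        field_simp
        ring
      rw [h6] at h4
      have h7 : s * (4 * L ^ 2 / Real.pi ^ 2) * (Real.pi ^ 2 / (4 * L ^ 2)) = s := by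
        field_simp
      have h8 := mul_le_mul_of_nonneg_right h4
        (by positivity : (0 : ℝ) ≤ Real.pi ^ 2 / (4 * L ^ 2))
      rw [h7] at h8
      refine h8.trans (le_of_eq ?_)
      field_simp
    show s ^ 2 ≤ (Real.pi ^ 2 / 4) ^ 2 / (L : ℝ) ^ 2 * q ^ 2
    calc s ^ 2 ≤ ((Real.pi ^ 2 / 4) / L * q) ^ 2 := pow_le_pow_left₀ hs0 h5 2
      _ = _ := by
        field_simp
  have hδ : (1 / (2 * (L : ℝ))) ≤ 1 / 2 := by
    rw [div_le_div_iff₀ (by linarith) (by norm_num)]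
    linarith
  have hδ0 : 0 ≤ (1 / (2 * (L : ℝ))) := by positivity
  have h1 : ∫ β in (-(1 / (2 * L)) : ℝ)..(1 / (2 * L)), S β ≤
      ∫ β in (-(1 / (2 * L)) : ℝ)..(1 / (2 * L)),
        (Real.pi ^ 2 / 4) ^ 2 / (L : ℝ) ^ 2 * P β := by
    refine intervalIntegral.integral_mono_on (by linarith) (hScont.intervalIntegrable _ _)
      ((continuous_const.mul hPcont).intervalIntegrable _ _) hpt
  have h2 : ∫ β in (-(1 / (2 * L)) : ℝ)..(1 / (2 * L)), P β ≤ ∫ β in (-(1 / 2) : ℝ)..(1 / 2), P β := by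
    refine intervalIntegral.integral_mono_interval (by linarith) (by linarith) hδ
      (Filter.Eventually.of_forall fun β => by simp only [hP]; positivity)
      (hPcont.intervalIntegrable _ _)
  have hper : Function.Periodic P 1 := by
    intro β
    simp only [hP]
    congr 2
    refine Finset.sum_congr rfl fun k _ => ?_
    have : (k : ℝ) * (β + 1) = (k : ℝ) * β + ((k : ℤ) : ℝ) := by push_cast; ring
    rw [this, e_add, e_int, mul_one]
  have h3 : ∫ β in (-(1 / 2) : ℝ)..(1 / 2), P β = ∫ β in (0 : ℝ)..1, P β := by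
    have := hper.intervalIntegral_add_eq (-(1 / 2)) 0
    rw [zero_add] at this
    rw [← this]
    norm_num
  have h4 : ∫ β in (0 : ℝ)..1, P β = ∑ k ∈ Finset.range (N + 2 * L), ‖c k‖ ^ 2 := parseval _ _
  have h5 : ∑ k ∈ Finset.range (N + 2 * L), ‖c k‖ ^ 2 ≤
      ∑ m ∈ Finset.Icc (-(L : ℤ)) (N + L),
          ‖∑ n ∈ Finset.range N, (win m L n : ℂ) * a n‖ ^ 2 := by
    have h6 : ∑ k ∈ Finset.range (N + 2 * L), ‖c k‖ ^ 2 =
        ∑ m ∈ (Finset.range (N + 2 * L)).image (fun k : ℕ => (k : ℤ) - L),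
          ‖∑ n ∈ Finset.range N, (win m L n : ℂ) * a n‖ ^ 2 := by
      rw [Finset.sum_image]
      · refine Finset.sum_congr rfl fun k _ => ?_
        simp only [hc]
        push_cast
        rfl
      · intro x _ y _ h
        simp only at h
        omega
    rw [h6]
    refine Finset.sum_le_sum_of_subset_of_nonneg ?_ (fun _ _ _ => by positivity)
    intro m hm
    obtain ⟨k, hk, rfl⟩ := Finset.mem_image.1 hm
    rw [Finset.mem_range] at hk
    rw [Finset.mem_Icc]
    constructor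
    · omega
    · push_cast
      omega
  refine h1.trans ?_
  rw [intervalIntegral.integral_const_mul]
  exact mul_le_mul_of_nonneg_left (h2.trans (h3.trans_le (h4.trans_le h5))) (by positivity)

end Pool.Agent.W_f50700_h3
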