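import Pool.Agent.W_f50700_h3.CirDefs
import Pool.Agent.W_f50700_h13.Mb0

/-!
CirB: the model outside the major arcs (row 440, C1).
-/

open MeasureTheory

namespace Pool.Agent.W_f50700_h3

/-- Abstract weights: `ω` on `[0, N]` with `|ω| ≤ 1`, vanishing from `N` on, `B/N`-Lipschitz.
(`ω j = wt 2 n j`, `N = 2 n`, satisfies this.) -/
structure WtData where
  N : ℕ
  B : ℝ
  ω : ℕ → ℝ
  hN : 1 ≤ N
  hB : 0 < B
  bound : ∀ j, |ω j| ≤ 1
  zero : ∀ j, N ≤ j → ω j = 0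
  lip : ∀ j k : ℕ, |ω j - ω k| ≤ B * |(j : ℝ) - k| / N

/-- total variation: `V(β) = ∑_{1 ≤ j < N} ω(j) j^(s-1) e(j β)` is at most `C N^(s-1) / dist1 β` -/
theorem V_bound {s : ℝ} (hs1 : 1 ≤ s) (hs2 : s ≤ 2) (B : ℝ) (hB : 0 < B) : ∃ C : ℝ, 0 < C ∧
    ∀ (D : WtData), D.B = B → ∀ β : ℝ, 0 < dist1 β →
    ‖∑ j ∈ Finset.range D.N, ((D.ω j * (j : ℝ) ^ (s - 1) : ℝ) : ℂ) * e ((j : ℝ) * β)‖ ≤
      C * (D.N : ℝ) ^ (s - 1) / dist1 β := by
  refine ⟨B + 2, by linarith, fun D hD β hβ => ?_⟩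
  have hs : 0 ≤ s - 1 := by linarith
  have hN1 : (1 : ℝ) ≤ (D.N : ℝ) := by exact_mod_cast D.hN
  have hN0 : (0 : ℝ) < (D.N : ℝ) := by linarith
  refine (bv_bound D.N (fun j => D.ω j * (j : ℝ) ^ (s - 1)) hβ).trans ?_
  refine div_le_div_of_nonneg_right ?_ hβ.le
  have hP1 : (1 : ℝ) ≤ (D.N : ℝ) ^ (s - 1) := Real.one_le_rpow hN1 hs
  -- the first term
  have h0 : |D.ω 0 * ((0 : ℕ) : ℝ) ^ (s - 1)| ≤ 1 := by
    rw [abs_mul]
    have h1 : |((0 : ℕ) : ℝ) ^ (s - 1)| ≤ 1 := by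
      rw [abs_of_nonneg (by positivity)]
      rcases eq_or_lt_of_le hs with h | h
      · rw [← h]; simp
      · rw [Nat.cast_zero, Real.zero_rpow h.ne']; exact zero_le_one
    calc |D.ω 0| * |((0 : ℕ) : ℝ) ^ (s - 1)| ≤ 1 * 1 :=
          mul_le_mul (D.bound 0) h1 (abs_nonneg _) zero_le_one
      _ = 1 := one_mul 1
  -- the last term
  have hlast : |D.ω D.N * (D.N : ℝ) ^ (s - 1)| = 0 := by
    rw [D.zero D.N le_rfl, zero_mul, abs_zero]
  -- the differences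
  have hdiff : ∀ n ∈ Finset.range D.N,
      |D.ω (n + 1) * ((n + 1 : ℕ) : ℝ) ^ (s - 1) - D.ω n * (n : ℝ) ^ (s - 1)| ≤
      B / D.N * (D.N : ℝ) ^ (s - 1) + (((n + 1 : ℕ) : ℝ) ^ (s - 1) - (n : ℝ) ^ (s - 1)) := by
    intro n hn
    have hnN : n + 1 ≤ D.N := Finset.mem_range.mp hn
    have hmono : (n : ℝ) ^ (s - 1) ≤ ((n + 1 : ℕ) : ℝ) ^ (s - 1) :=
      Real.rpow_le_rpow (by positivity) (by push_cast; linarith) hs
    have hle : ((n + 1 : ℕ) : ℝ) ^ (s - 1) ≤ (D.N : ℝ) ^ (s - 1) :=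
      Real.rpow_le_rpow (by positivity) (by exact_mod_cast hnN) hs
    have hl := D.lip (n + 1) n
    have e1 : |(((n + 1 : ℕ) : ℝ)) - (n : ℝ)| = 1 := by
      push_cast
      rw [add_sub_cancel_left, abs_one]
    rw [e1, mul_one, hD] at hl
    have hsplit : D.ω (n + 1) * ((n + 1 : ℕ) : ℝ) ^ (s - 1) - D.ω n * (n : ℝ) ^ (s - 1) =
        (D.ω (n + 1) - D.ω n) * ((n + 1 : ℕ) : ℝ) ^ (s - 1) +
        D.ω n * (((n + 1 : ℕ) : ℝ) ^ (s - 1) - (n : ℝ) ^ (s - 1)) := by ring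
    rw [hsplit]
    refine (abs_add_le _ _).trans (add_le_add ?_ ?_)
    · rw [abs_mul, abs_of_nonneg (by positivity : (0 : ℝ) ≤ ((n + 1 : ℕ) : ℝ) ^ (s - 1))]
      exact mul_le_mul hl hle (by positivity) (by positivity)
    · rw [abs_mul, abs_of_nonneg (sub_nonneg.mpr hmono)]
      calc |D.ω n| * (((n + 1 : ℕ) : ℝ) ^ (s - 1) - (n : ℝ) ^ (s - 1))
          ≤ 1 * (((n + 1 : ℕ) : ℝ) ^ (s - 1) - (n : ℝ) ^ (s - 1)) :=
            mul_le_mul_of_nonneg_right (D.bound n) (sub_nonneg.mpr hmono)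
        _ = _ := one_mul _
  have hsum := Finset.sum_le_sum hdiff
  rw [Finset.sum_add_distrib, Finset.sum_const, Finset.card_range,
    Finset.sum_range_sub (fun n : ℕ => (n : ℝ) ^ (s - 1))] at hsum
  have hc : D.N • (B / D.N * (D.N : ℝ) ^ (s - 1)) = B * (D.N : ℝ) ^ (s - 1) := by
    rw [nsmul_eq_mul]
    field_simp
  have hz : (0 : ℝ) ≤ ((0 : ℕ) : ℝ) ^ (s - 1) := by positivity
  rw [hc] at hsum
  rw [hlast]
  linarith

/-- the transform of the weighted model -/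
noncomputable def Mhat (A Q0 : ℕ) (D : WtData) (θ : ℝ) : ℂ :=
  ∑ j ∈ Finset.range D.N, ((D.ω j * gmod A Q0 j : ℝ) : ℂ) * e ((j : ℝ) * θ)

theorem CirB_psi2 (q : ℕ) : 1 ≤ psi2 q := by
  unfold psi2
  refine Finset.prod_induction _ (fun x : ℝ => 1 ≤ x)
    (fun a b ha hb => one_le_mul_of_one_le_of_one_le ha hb)
    le_rfl fun p hp => ?_
  have h2 : (2 : ℝ) ≤ (p : ℝ) := by exact_mod_cast (Nat.prime_of_mem_primeFactors hp).two_le
  nlinarith

theorem CirB_coef (q : ℕ) : |((ArithmeticFunction.moebius q : ℤ) : ℝ) / psi2 q| ≤ 1 := by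
  have h1 := CirB_psi2 q
  rw [abs_div, abs_of_pos (by linarith : (0 : ℝ) < psi2 q), div_le_one (by linarith)]
  have h2 : |((ArithmeticFunction.moebius q : ℤ) : ℝ)| ≤ 1 := by
    exact_mod_cast ArithmeticFunction.abs_moebius_le_one
  linarith

/-- the index set of the fractions -/
def CirB_P (Q0 : ℕ) : Finset (Σ _ : ℕ, ℕ) :=
  (Finset.Icc 1 Q0).sigma fun q => (Finset.range q).filter fun a => Nat.Coprime a q

/-- the model as a combination of the sums `V` -/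
theorem CirB_Mhat_eq (A Q0 : ℕ) (D : WtData) (θ : ℝ) :
    Mhat A Q0 D θ = ∑ p ∈ CirB_P Q0,
      ((sexp A * c0 A * (((ArithmeticFunction.moebius p.1 : ℤ) : ℝ) / psi2 p.1) : ℝ) : ℂ) *
      ∑ j ∈ Finset.range D.N, ((D.ω j * (j : ℝ) ^ (sexp A - 1) : ℝ) : ℂ) *
        e ((j : ℝ) * (θ - (p.2 : ℝ) / p.1)) := by
  have hj : ∀ j ∈ Finset.range D.N, ((D.ω j * gmod A Q0 j : ℝ) : ℂ) * e ((j : ℝ) * θ) =
      ∑ p ∈ CirB_P Q0,
      ((sexp A * c0 A * (((ArithmeticFunction.moebius p.1 : ℤ) : ℝ) / psi2 p.1) : ℝ) : ℂ) *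
      (((D.ω j * (j : ℝ) ^ (sexp A - 1) : ℝ) : ℂ) * e ((j : ℝ) * (θ - (p.2 : ℝ) / p.1))) := by
    intro j _
    rw [CirB_P, Finset.sum_sigma]
    unfold gmod sing
    rw [Finset.mul_sum, Finset.mul_sum]
    push_cast
    rw [Finset.sum_mul]
    refine Finset.sum_congr rfl fun q hq => ?_
    have hq1 : 1 ≤ q := (Finset.mem_Icc.mp hq).1
    rw [← ram_eq_neg q j hq1]
    rw [Finset.mul_sum, Finset.mul_sum, Finset.mul_sum, Finset.sum_mul]
    refine Finset.sum_congr rfl fun a _ => ?_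
    have he : e ((j : ℝ) * (θ - (a : ℝ) / q)) = e (-((a : ℝ) * j / q)) * e ((j : ℝ) * θ) := by
      rw [← e_add]
      congr 1
      ring
    rw [he]
    ring
  rw [Mhat, Finset.sum_congr rfl hj, Finset.sum_comm]
  refine Finset.sum_congr rfl fun p _ => ?_
  rw [Finset.mul_sum]

/-- the majorant -/
noncomputable def CirB_g (η t : ℝ) : ℝ := 2 / η ^ 2 * (1 + (t / η) ^ 2)⁻¹

theorem CirB_g_nonneg (η t : ℝ) : 0 ≤ CirB_g η t := by
  unfold CirB_g
  positivity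

theorem CirB_g_integrable {η : ℝ} (hη : 0 < η) : Integrable (CirB_g η) := by
  unfold CirB_g
  exact (integrable_inv_one_add_sq.comp_div hη.ne').const_mul _

theorem CirB_g_integral {η : ℝ} (hη : 0 < η) : ∫ t, CirB_g η t = 2 * Real.pi / η := by
  unfold CirB_g
  rw [integral_const_mul, Measure.integral_comp_div (fun t : ℝ => (1 + t ^ 2)⁻¹) η,
    integral_univ_inv_one_add_sq, abs_of_pos hη, smul_eq_mul]
  field_simp

theorem CirB_g_bound {η t : ℝ} (hη : 0 < η) (ht : η ≤ |t|) : 1 / |t| ^ 2 ≤ CirB_g η t := by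
  have h1 : 0 < |t| := hη.trans_le ht
  have h2 : η ^ 2 ≤ |t| ^ 2 := pow_le_pow_left₀ hη.le ht 2
  have h3 : CirB_g η t = 2 / (η ^ 2 + |t| ^ 2) := by
    unfold CirB_g
    rw [sq_abs]
    field_simp
  rw [h3, div_le_div_iff₀ (by positivity) (by positivity)]
  linarith

/-- C1 for the model: mean square outside `η`-neighbourhoods of the fractions with denominator at
most `Q0`.  Proof: `sing` as combination of `e(-a j/q)` (`ram_eq_neg`), `V_bound`,
`∫ dist1^(-2)` over `dist1 ≥ η` is at most `2/η`. -/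
theorem model_outside {A : ℕ} (hA : 2 ≤ A) (h1 : 1 ≤ sexp A) (Q0 : ℕ) (B : ℝ) (hB : 0 < B) :
    ∃ C : ℝ, 0 < C ∧ ∀ (D : WtData), D.B = B → ∀ η : ℝ, 0 < η → η ≤ 1 / 2 →
    ∀ S : Set ℝ, MeasurableSet S → S ⊆ Set.Icc (0 : ℝ) 1 →
    (∀ θ ∈ S, ∀ q : ℕ, 1 ≤ q → q ≤ Q0 → ∀ a : ℤ, η ≤ |θ - a / q|) →
    ∫ θ in S, ‖Mhat A Q0 D θ‖ ^ 2 ≤ C * (D.N : ℝ) ^ (2 * sexp A - 2) / η := by
  classical
  obtain ⟨CV, hCV, hV⟩ := V_bound h1 (sexp_le_two (by omega)) B hB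
  set K : ℝ := sexp A * c0 A with hK
  have hK0 : 0 ≤ K := mul_nonneg (by linarith) (c0_pos A).le
  set P := CirB_P Q0 with hP
  refine ⟨(P.card : ℝ) ^ 2 * (K * CV) ^ 2 * (6 * Real.pi) + 1, by positivity, ?_⟩
  intro D hD η hη _ S hS hS01 hSη
  have hN1 : (1 : ℝ) ≤ (D.N : ℝ) := by exact_mod_cast D.hN
  have hN0 : (0 : ℝ) < (D.N : ℝ) := by linarith
  set X : ℝ := (D.N : ℝ) ^ (2 * sexp A - 2) with hX
  have hX0 : 0 < X := Real.rpow_pos_of_pos hN0 _
  have hXsq : ((D.N : ℝ) ^ (sexp A - 1)) ^ 2 = X := by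
    rw [hX, ← Real.rpow_natCast, ← Real.rpow_mul hN0.le]
    congr 1
    push_cast
    ring
  -- the majorant
  set G : ℝ → ℝ := fun θ => (P.card : ℝ) * ((K * CV) ^ 2 * X) *
    ∑ p ∈ P, ∑ k ∈ Finset.Icc (-1 : ℤ) 1, CirB_g η (θ - ((p.2 : ℝ) / p.1 + k)) with hG
  have hGi : Integrable G := by
    refine Integrable.const_mul ?_ _
    refine integrable_finsetSum _ fun p _ => integrable_finsetSum _ fun k _ => ?_
    exact (CirB_g_integrable hη).comp_sub_right _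
  have hG0 : ∀ θ, 0 ≤ G θ := by
    intro θ
    refine mul_nonneg (by positivity) ?_
    exact Finset.sum_nonneg fun p _ => Finset.sum_nonneg fun k _ => CirB_g_nonneg _ _
  have hGint : ∫ θ, G θ = (P.card : ℝ) * ((K * CV) ^ 2 * X) *
      ((P.card : ℝ) * (3 * (2 * Real.pi / η))) := by
    rw [hG, integral_const_mul]
    congr 1
    rw [integral_finsetSum _ fun p _ => integrable_finsetSum _ fun k _ =>
      (CirB_g_integrable hη).comp_sub_right _]
    have : ∀ p ∈ P, ∫ θ, ∑ k ∈ Finset.Icc (-1 : ℤ) 1,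
        CirB_g η (θ - ((p.2 : ℝ) / p.1 + k)) = 3 * (2 * Real.pi / η) := by
      intro p _
      rw [integral_finsetSum _ fun k _ => (CirB_g_integrable hη).comp_sub_right _]
      have h2 : ∀ k ∈ Finset.Icc (-1 : ℤ) 1, ∫ θ, CirB_g η (θ - ((p.2 : ℝ) / p.1 + k)) =
          2 * Real.pi / η := by
        intro k _
        rw [integral_sub_right_eq_self (CirB_g η), CirB_g_integral hη]
      have h3 : (Finset.Icc (-1 : ℤ) 1).card = 3 := by decide
      rw [Finset.sum_congr rfl h2, Finset.sum_const, nsmul_eq_mul, h3]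
      norm_num
    rw [Finset.sum_congr rfl this, Finset.sum_const, nsmul_eq_mul]
  -- the pointwise bound
  have hpt : ∀ θ ∈ S, ‖Mhat A Q0 D θ‖ ^ 2 ≤ G θ := by
    intro θ hθ
    have hθ01 := hS01 hθ
    -- distances
    have hdist : ∀ p ∈ P, 0 < dist1 (θ - (p.2 : ℝ) / p.1) ∧
        1 / dist1 (θ - (p.2 : ℝ) / p.1) ^ 2 ≤
          ∑ k ∈ Finset.Icc (-1 : ℤ) 1, CirB_g η (θ - ((p.2 : ℝ) / p.1 + k)) := by
      rintro ⟨q, a⟩ hp
      rw [hP, CirB_P, Finset.mem_sigma, Finset.mem_Icc, Finset.mem_filter, Finset.mem_range] at hp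
      obtain ⟨⟨hq1, hq2⟩, ha, -⟩ := hp
      simp only at hq1 hq2 ha ⊢
      have hq0 : (0 : ℝ) < (q : ℝ) := by exact_mod_cast hq1
      set x : ℝ := θ - (a : ℝ) / q with hx
      have haq : (a : ℝ) / q < 1 := by
        rw [div_lt_one hq0]
        exact_mod_cast ha
      have haq0 : (0 : ℝ) ≤ (a : ℝ) / q := by positivity
      obtain ⟨k, hk⟩ := Pool.Agent.W_f50700_h13.exists_int_dist1 x
      have hkη : η ≤ |x - k| := by
        have h2 := hSη θ hθ q hq1 hq2 ((a : ℤ) + k * q)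
        have h3 : θ - (((a : ℤ) + k * q : ℤ) : ℝ) / q = x - k := by
          rw [hx]
          push_cast
          field_simp
          ring
        rwa [h3] at h2
      have hkm : k ∈ Finset.Icc (-1 : ℤ) 1 := by
        have h2 := Pool.Agent.W_f50700_h13.dist1_le_half x
        rw [← hk, abs_le] at h2
        rw [Finset.mem_Icc]
        have h3 : -1 ≤ x := by rw [hx]; linarith [hθ01.1]
        have h4 : x ≤ 1 := by rw [hx]; linarith [hθ01.2]
        constructor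
        · by_contra hcon
          push Not at hcon
          have h5 : (k : ℝ) ≤ -2 := by exact_mod_cast (by omega : k ≤ -2)
          linarith [h2.2]
        · by_contra hcon
          push Not at hcon
          have h5 : (2 : ℝ) ≤ (k : ℝ) := by exact_mod_cast (by omega : 2 ≤ k)
          linarith [h2.1]
      refine ⟨by rw [← hk]; linarith, ?_⟩
      rw [← hk]
      refine (CirB_g_bound hη hkη).trans ?_
      have h6 : x - k = θ - ((a : ℝ) / q + k) := by rw [hx]; ring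
      rw [h6]
      exact Finset.single_le_sum (f := fun k : ℤ => CirB_g η (θ - ((a : ℝ) / q + k)))
        (fun _ _ => CirB_g_nonneg _ _) hkm
    have hnorm : ‖Mhat A Q0 D θ‖ ≤ ∑ p ∈ P, K * CV * (D.N : ℝ) ^ (sexp A - 1) *
        (1 / dist1 (θ - (p.2 : ℝ) / p.1)) := by
      rw [CirB_Mhat_eq]
      refine (norm_sum_le _ _).trans (Finset.sum_le_sum fun p hp => ?_)
      rw [norm_mul, Complex.norm_real, Real.norm_eq_abs, ← hK, abs_mul, abs_of_nonneg hK0]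
      have h2 := hV D hD (θ - (p.2 : ℝ) / p.1) (hdist p hp).1
      calc K * |((ArithmeticFunction.moebius p.1 : ℤ) : ℝ) / psi2 p.1| * _
          ≤ K * 1 * (CV * (D.N : ℝ) ^ (sexp A - 1) / dist1 (θ - (p.2 : ℝ) / p.1)) := by
            refine mul_le_mul (mul_le_mul_of_nonneg_left (CirB_coef _) hK0) h2 (norm_nonneg _)
              (by linarith)
        _ = _ := by ring
    have hsq : ‖Mhat A Q0 D θ‖ ^ 2 ≤ (∑ p ∈ P, K * CV * (D.N : ℝ) ^ (sexp A - 1) *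
        (1 / dist1 (θ - (p.2 : ℝ) / p.1))) ^ 2 := pow_le_pow_left₀ (norm_nonneg _) hnorm 2
    refine hsq.trans ?_
    rw [← Finset.mul_sum, mul_pow, mul_pow, hXsq]
    have hcs := sq_sum_le_card_mul_sum_sq (s := P)
      (f := fun p : (Σ _ : ℕ, ℕ) => 1 / dist1 (θ - (p.2 : ℝ) / p.1))
    have hcs2 : ∑ p ∈ P, (1 / dist1 (θ - (p.2 : ℝ) / p.1)) ^ 2 ≤
        ∑ p ∈ P, ∑ k ∈ Finset.Icc (-1 : ℤ) 1, CirB_g η (θ - ((p.2 : ℝ) / p.1 + k)) := by
      refine Finset.sum_le_sum fun p hp => ?_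
      rw [div_pow, one_pow]
      exact (hdist p hp).2
    have hcard : (0 : ℝ) ≤ (P.card : ℝ) := Nat.cast_nonneg _
    calc (K * CV) ^ 2 * X * (∑ p ∈ P, 1 / dist1 (θ - (p.2 : ℝ) / p.1)) ^ 2
        ≤ (K * CV) ^ 2 * X * ((P.card : ℝ) *
          ∑ p ∈ P, (1 / dist1 (θ - (p.2 : ℝ) / p.1)) ^ 2) :=
          mul_le_mul_of_nonneg_left hcs (by positivity)
      _ ≤ (K * CV) ^ 2 * X * ((P.card : ℝ) *
          ∑ p ∈ P, ∑ k ∈ Finset.Icc (-1 : ℤ) 1, CirB_g η (θ - ((p.2 : ℝ) / p.1 + k))) :=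
          mul_le_mul_of_nonneg_left (mul_le_mul_of_nonneg_left hcs2 hcard) (by positivity)
      _ = G θ := by rw [hG]; ring
  calc ∫ θ in S, ‖Mhat A Q0 D θ‖ ^ 2 ≤ ∫ θ in S, G θ := by
        refine integral_mono_of_nonneg (Filter.Eventually.of_forall fun θ => by positivity)
          hGi.integrableOn ?_
        exact (ae_restrict_iff' hS).mpr (Filter.Eventually.of_forall hpt)
    _ ≤ ∫ θ, G θ := setIntegral_le_integral hGi (Filter.Eventually.of_forall hG0)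
    _ = ((P.card : ℝ) ^ 2 * (K * CV) ^ 2 * (6 * Real.pi)) * X / η := by
        rw [hGint]
        ring
    _ ≤ _ := by
        refine div_le_div_of_nonneg_right ?_ hη.le
        exact mul_le_mul_of_nonneg_right (by linarith) hX0.le

end Pool.Agent.W_f50700_h3
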