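import Pool.Agent.W_f50700_h3.Coll

/-!
Coll1: counting in the congruence subgroup.
-/

namespace Pool.Agent.W_f50700_h3

theorem Coll1_v (ε : ℝ) (hε : 0 < ε) (v : ℕ) :
    ((v : ℝ) + 1) ≤ (1 + 1 / (ε * Real.log 2)) * ((2 : ℝ) ^ ε) ^ v := by
  have hl : 0 < Real.log 2 := Real.log_pos (by norm_num)
  have h1 : ((2 : ℝ) ^ ε) ^ v = Real.exp (v * (ε * Real.log 2)) := by
    rw [← Real.rpow_natCast, ← Real.rpow_mul (by norm_num), Real.rpow_def_of_pos (by norm_num)]
    congr 1; ring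
  have h2 : 1 + v * (ε * Real.log 2) ≤ Real.exp (v * (ε * Real.log 2)) := by
    have := Real.add_one_le_exp (v * (ε * Real.log 2)); linarith
  rw [h1]
  have hpos : 0 < ε * Real.log 2 := mul_pos hε hl
  calc ((v : ℝ) + 1) ≤ (1 + 1 / (ε * Real.log 2)) * (1 + v * (ε * Real.log 2)) := by
        have : 1 / (ε * Real.log 2) * (v * (ε * Real.log 2)) = v := by field_simp
        have h3 : 0 ≤ 1 / (ε * Real.log 2) := by positivity
        have h4 : 0 ≤ (v : ℝ) * (ε * Real.log 2) := by positivity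
        nlinarith
    _ ≤ _ := by
        apply mul_le_mul_of_nonneg_left h2; positivity

/-- divisor bound -/
theorem divisor_bound (ε : ℝ) (hε : 0 < ε) : ∃ C : ℝ, 0 < C ∧ ∀ n : ℕ, 1 ≤ n →
    ((Nat.divisors n).card : ℝ) ≤ C * (n : ℝ) ^ ε := by
  have hl : 0 < Real.log 2 := Real.log_pos (by norm_num)
  set c : ℝ := 1 + 1 / (ε * Real.log 2) with hc
  have hc1 : 1 ≤ c := by rw [hc]; have : 0 ≤ 1 / (ε * Real.log 2) := by positivity
                         linarith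
  set P : ℕ := ⌈(2 : ℝ) ^ (1 / ε)⌉₊ with hP
  refine ⟨c ^ P, by positivity, fun n hn => ?_⟩
  have hn0 : n ≠ 0 := by omega
  rw [Nat.card_divisors hn0]
  push_cast
  have hfac : (n : ℝ) ^ ε = ∏ p ∈ n.primeFactors, (((p : ℝ) ^ ε) ^ (n.factorization p)) := by
    conv_lhs => rw [← Nat.prod_factorization_pow_eq_self hn0]
    rw [Finsupp.prod, Nat.support_factorization]
    push_cast
    rw [← Real.finsetProd_rpow _ _ (fun p _ => by positivity)]
    refine Finset.prod_congr rfl fun p _ => ?_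
    rw [← Real.rpow_natCast, ← Real.rpow_natCast, ← Real.rpow_mul (by positivity),
      ← Real.rpow_mul (by positivity)]
    congr 1; ring
  have hterm : ∀ p ∈ n.primeFactors, ((n.factorization p : ℝ) + 1) ≤
      (if p < P then c else 1) * (((p : ℝ) ^ ε) ^ (n.factorization p)) := by
    intro p hp
    have hp2 : 2 ≤ p := (Nat.prime_of_mem_primeFactors hp).two_le
    have hp2' : (2 : ℝ) ≤ p := by exact_mod_cast hp2
    split_ifs with h
    · refine (Coll1_v ε hε _).trans ?_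
      apply mul_le_mul_of_nonneg_left _ (by positivity)
      apply pow_le_pow_left₀ (by positivity)
      exact Real.rpow_le_rpow (by norm_num) hp2' hε.le
    · rw [one_mul]
      have h5 : (2 : ℝ) ^ (1 / ε) ≤ p := by
        have : (P : ℝ) ≤ p := by exact_mod_cast not_lt.1 h
        exact (Nat.le_ceil _).trans this
      have h6 : (2 : ℝ) ≤ (p : ℝ) ^ ε := by
        calc (2 : ℝ) = ((2 : ℝ) ^ (1 / ε)) ^ ε := by
              rw [← Real.rpow_mul (by norm_num), one_div, inv_mul_cancel₀ hε.ne', Real.rpow_one]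
          _ ≤ _ := Real.rpow_le_rpow (by positivity) h5 hε.le
      calc ((n.factorization p : ℝ) + 1) ≤ (2 : ℝ) ^ (n.factorization p) := by
            have := Nat.lt_two_pow_self (n := n.factorization p)
            exact_mod_cast this
        _ ≤ _ := pow_le_pow_left₀ (by norm_num) h6 _
  calc (∏ x ∈ n.primeFactors, ((n.factorization x : ℝ) + 1))
      ≤ ∏ p ∈ n.primeFactors, ((if p < P then c else 1) * (((p : ℝ) ^ ε) ^ (n.factorization p))) :=
        Finset.prod_le_prod (fun p _ => by positivity) hterm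
    _ = (∏ p ∈ n.primeFactors, (if p < P then c else 1)) * (n : ℝ) ^ ε := by
        rw [Finset.prod_mul_distrib, hfac]
    _ ≤ c ^ P * (n : ℝ) ^ ε := by
        apply mul_le_mul_of_nonneg_right _ (by positivity)
        rw [Finset.prod_ite, Finset.prod_const_one, mul_one, Finset.prod_const]
        apply pow_le_pow_right₀ hc1
        calc (n.primeFactors.filter (· < P)).card ≤ (Finset.range P).card :=
              Finset.card_le_card (fun p hp => Finset.mem_range.2 (Finset.mem_filter.1 hp).2)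
          _ = P := Finset.card_range P

/-- residue classes in an interval -/
theorem Coll1_cnt (r : ℤ) (hr : 0 < r) (R : ℕ) (v : ℤ) :
    (((Finset.Icc (-(R : ℤ)) R).filter (fun x => x ≡ v [ZMOD r])).card : ℝ) ≤
      (2 * (R : ℝ) + 1) / r + 1 := by
  have h0 : Finset.Icc (-(R : ℤ)) R = Finset.Ico (-(R : ℤ)) (R + 1) := by
    ext x; simp only [Finset.mem_Icc, Finset.mem_Ico]; omega
  rw [h0]
  have h1 := Int.Ico_filter_modEq_card (-(R : ℤ)) (R + 1) hr v
  have hr' : (0 : ℝ) < r := by exact_mod_cast hr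
  have h2 : ((((Finset.Ico (-(R : ℤ)) (R + 1)).filter (fun x => x ≡ v [ZMOD r])).card : ℤ) : ℝ) ≤
      (2 * (R : ℝ) + 1) / r + 1 := by
    rw [h1]
    push_cast
    apply max_le
    · have h3 := Int.ceil_lt_add_one ((((R : ℤ) + 1 : ℤ) - (v : ℚ)) / (r : ℚ) : ℚ)
      have h4 := Int.le_ceil (((-(R : ℤ) : ℤ) - (v : ℚ)) / (r : ℚ) : ℚ)
      have h3' : ((⌈(((R : ℤ) + 1 : ℤ) - (v : ℚ)) / (r : ℚ)⌉ : ℤ) : ℝ) <
          ((R : ℝ) + 1 - v) / r + 1 := by exact_mod_cast h3
      have h4' : ((-(R : ℝ)) - v) / r ≤ ((⌈((-(R : ℤ) : ℤ) - (v : ℚ)) / (r : ℚ)⌉ : ℤ) : ℝ) := by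
        exact_mod_cast h4
      have h5 : ((R : ℝ) + 1 - v) / r - ((-(R : ℝ)) - v) / r = (2 * (R : ℝ) + 1) / r := by
        field_simp; ring
      push_cast at h3' h4' ⊢
      linarith
    · positivity
  exact_mod_cast h2

/-- divisors in `Z` -/
theorem Coll1_div (m : ℤ) (hm : m ≠ 0) (s : Finset ℤ) (hs : ∀ b ∈ s, b ∣ m) :
    s.card ≤ 2 * (Nat.divisors m.natAbs).card := by
  classical
  have h : s ⊆ (Nat.divisors m.natAbs).image (fun n : ℕ => (n : ℤ)) ∪
      (Nat.divisors m.natAbs).image (fun n : ℕ => -(n : ℤ)) := by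
    intro b hb
    have h1 : b.natAbs ∈ Nat.divisors m.natAbs :=
      Nat.mem_divisors.2 ⟨Int.natAbs_dvd_natAbs.2 (hs b hb), Int.natAbs_ne_zero.2 hm⟩
    rcases Int.natAbs_eq b with h2 | h2
    · exact Finset.mem_union_left _ (Finset.mem_image.2 ⟨_, h1, h2.symm⟩)
    · exact Finset.mem_union_right _ (Finset.mem_image.2 ⟨_, h1, h2.symm⟩)
  calc s.card ≤ _ := Finset.card_le_card h
    _ ≤ _ := Finset.card_union_le _ _
    _ ≤ (Nat.divisors m.natAbs).card + (Nat.divisors m.natAbs).card :=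
        add_le_add Finset.card_image_le Finset.card_image_le
    _ = _ := by ring

theorem Coll1_mem {d R : ℕ} {g : ℤ × ℤ × ℤ × ℤ} (hg : g ∈ gamF d R) :
    (-(R : ℤ) ≤ g.1 ∧ g.1 ≤ R) ∧ (-(R : ℤ) ≤ g.2.1 ∧ g.2.1 ≤ R) ∧
    (-(R : ℤ) ≤ g.2.2.1 ∧ g.2.2.1 ≤ R) ∧ (-(R : ℤ) ≤ g.2.2.2 ∧ g.2.2.2 ≤ R) ∧
    g.1 * g.2.2.2 - g.2.1 * g.2.2.1 = 1 ∧ (d : ℤ) ∣ g.1 - 1 ∧ (d : ℤ) ∣ g.2.1 ∧
      (d : ℤ) ∣ g.2.2.1 ∧ (d : ℤ) ∣ g.2.2.2 - 1 := by
  unfold gamF at hg
  simp only [Finset.mem_filter, Finset.mem_product, Finset.mem_Icc] at hg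
  obtain ⟨⟨h1, h2, h3, h4⟩, h5, h6, h7, h8, h9⟩ := hg
  exact ⟨h1, h2, h3, h4, h5, h6, h7, h8, h9⟩

/-- the fibre over the diagonal `(a, e)` -/
theorem Coll1_fib (d R : ℕ) (hd : 1 ≤ d) (T : ℝ) (hT0 : 0 ≤ T)
    (hT : ∀ n : ℕ, 1 ≤ n → n ≤ R ^ 2 + 1 → ((Nat.divisors n).card : ℝ) ≤ T) (a e : ℤ) :
    (((gamF d R).filter (fun g => g.1 = a ∧ g.2.2.2 = e)).card : ℝ) ≤
      2 * T + (if a * e = 1 then 2 * ((2 * (R : ℝ) + 1) / d + 1) else 0) := by
  classical
  set s := (gamF d R).filter (fun g => g.1 = a ∧ g.2.2.2 = e) with hs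
  have hd0 : (0 : ℤ) < d := by exact_mod_cast hd
  by_cases hae : a * e = 1
  · rw [if_pos hae]
    set Z := (Finset.Icc (-(R : ℤ)) R).filter (fun x => x ≡ 0 [ZMOD (d : ℤ)]) with hZ
    have hsub : s ⊆ Z.image (fun b => (a, b, 0, e)) ∪ Z.image (fun c => (a, 0, c, e)) := by
      intro g hg
      rw [hs, Finset.mem_filter] at hg
      obtain ⟨hg, h1, h2⟩ := hg
      obtain ⟨-, hb, hc, -, hdet, -, hdb, hdc, -⟩ := Coll1_mem hg
      rw [h1, h2, hae] at hdet
      have h0 : g.2.1 * g.2.2.1 = 0 := by linarith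
      rcases mul_eq_zero.1 h0 with h | h
      · refine Finset.mem_union_right _ (Finset.mem_image.2 ⟨g.2.2.1, ?_, ?_⟩)
        · rw [hZ, Finset.mem_filter, Finset.mem_Icc]
          exact ⟨hc, (Int.modEq_zero_iff_dvd).2 hdc⟩
        · rw [← h1, ← h2, ← h]
      · refine Finset.mem_union_left _ (Finset.mem_image.2 ⟨g.2.1, ?_, ?_⟩)
        · rw [hZ, Finset.mem_filter, Finset.mem_Icc]
          exact ⟨hb, (Int.modEq_zero_iff_dvd).2 hdb⟩
        · rw [← h1, ← h2, ← h]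
    have h1 : s.card ≤ 2 * Z.card := by
      calc s.card ≤ _ := Finset.card_le_card hsub
        _ ≤ _ := Finset.card_union_le _ _
        _ ≤ Z.card + Z.card := add_le_add Finset.card_image_le Finset.card_image_le
        _ = _ := by ring
    have h2 := Coll1_cnt (d : ℤ) hd0 R 0
    rw [← hZ] at h2
    have h3 : (s.card : ℝ) ≤ 2 * (Z.card : ℝ) := by exact_mod_cast h1
    push_cast at h2
    linarith
  · rw [if_neg hae, add_zero]
    rcases s.eq_empty_or_nonempty with he | ⟨g0, hg0⟩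
    · rw [he]; simp [hT0]
    set m : ℤ := a * e - 1 with hm
    have hm0 : m ≠ 0 := by intro h; exact hae (by linarith)
    have hinj : Set.InjOn (fun g : ℤ × ℤ × ℤ × ℤ => g.2.1) (s : Set (ℤ × ℤ × ℤ × ℤ)) := by
      intro g hg g' hg' hb
      rw [Finset.mem_coe, hs, Finset.mem_filter] at hg hg'
      obtain ⟨hg, h1, h2⟩ := hg
      obtain ⟨hg', h1', h2'⟩ := hg'
      obtain ⟨-, -, -, -, hdet, -⟩ := Coll1_mem hg
      obtain ⟨-, -, -, -, hdet', -⟩ := Coll1_mem hg'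
      simp only at hb
      rw [h1, h2] at hdet
      rw [h1', h2', ← hb] at hdet'
      have h3 : g.2.1 * g.2.2.1 = m := by linarith
      have h4 : g.2.1 * g'.2.2.1 = m := by linarith
      have h5 : g.2.1 ≠ 0 := by intro h; rw [h, zero_mul] at h3; exact hm0 h3.symm
      have h6 : g.2.2.1 = g'.2.2.1 := mul_left_cancel₀ h5 (h3.trans h4.symm)
      ext
      · rw [h1, h1']
      · exact hb
      · exact h6
      · rw [h2, h2']
    have h1 : s.card = (s.image (fun g : ℤ × ℤ × ℤ × ℤ => g.2.1)).card :=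
      (Finset.card_image_of_injOn hinj).symm
    have h2 : (s.image (fun g : ℤ × ℤ × ℤ × ℤ => g.2.1)).card ≤
        2 * (Nat.divisors m.natAbs).card := by
      apply Coll1_div m hm0
      intro b hb
      obtain ⟨g, hg, rfl⟩ := Finset.mem_image.1 hb
      rw [hs, Finset.mem_filter] at hg
      obtain ⟨hg, h1, h2⟩ := hg
      obtain ⟨-, -, -, -, hdet, -⟩ := Coll1_mem hg
      rw [h1, h2] at hdet
      exact ⟨g.2.2.1, by linarith⟩
    have h3 : ((Nat.divisors m.natAbs).card : ℝ) ≤ T := by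
      apply hT
      · exact Int.natAbs_pos.2 hm0
      · rw [hs, Finset.mem_filter] at hg0
        obtain ⟨hg, h1, h2⟩ := hg0
        obtain ⟨ha, -, -, he, -⟩ := Coll1_mem hg
        rw [h1] at ha
        rw [h2] at he
        have h5 : |a| ≤ R := abs_le.2 ha
        have h6 : |e| ≤ R := abs_le.2 he
        have h7 : |a * e| ≤ (R : ℤ) ^ 2 := by
          rw [abs_mul, pow_two]
          exact mul_le_mul h5 h6 (abs_nonneg _) (by positivity)
        have h8 : |m| ≤ (R : ℤ) ^ 2 + 1 := by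
          rw [hm]
          calc |a * e - 1| ≤ |a * e| + |1| := abs_sub _ _
            _ ≤ _ := by simpa using h7
        have h9 : ((m.natAbs : ℕ) : ℤ) ≤ ((R ^ 2 + 1 : ℕ) : ℤ) := by
          rw [Int.natCast_natAbs]; push_cast; exact h8
        exact_mod_cast h9
    have h4 : (s.card : ℝ) ≤ 2 * ((Nat.divisors m.natAbs).card : ℝ) := by
      rw [h1]; exact_mod_cast h2
    linarith

/-- L4 (i).  Proof: write `g = 1 + d (α β; γ η)`; determinant: `α + η = -d k`, `β γ = α η - k`.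
`α`: at most `2(R+1)/d + 1` values; `η ≡ -α mod d`: at most `2(R+1)/d^2 + 1` values; then `k` and
`m = α η - k` are determined; for `m ≠ 0` at most `2 τ(|m|)` pairs `(β, γ)`; `m = 0` means
`(1 + d α)(1 + d η) = 1`: at most two `(α, η)`, and then `β = 0` or `γ = 0`. -/
theorem card_gamF (ε : ℝ) (hε : 0 < ε) : ∃ C : ℝ, 0 < C ∧ ∀ d R : ℕ, 1 ≤ d → 1 ≤ R →
    ((gamF d R).card : ℝ) ≤ C * (R : ℝ) ^ ε * ((R : ℝ) ^ 2 / (d : ℝ) ^ 3 + R / d + 1) := by
  classical
  obtain ⟨C1, hC1, hdiv⟩ := divisor_bound (ε / 2) (by linarith)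
  set C2 : ℝ := C1 * 2 ^ (ε / 2) with hC2
  have hC2p : 0 < C2 := by positivity
  refine ⟨18 * C2 + 12, by positivity, fun d R hd hR => ?_⟩
  have hd0 : (0 : ℤ) < d := by exact_mod_cast hd
  have hdr : (1 : ℝ) ≤ d := by exact_mod_cast hd
  have hRr : (1 : ℝ) ≤ R := by exact_mod_cast hR
  set T : ℝ := C2 * (R : ℝ) ^ ε with hTdef
  have hT0 : 0 ≤ T := by positivity
  have hT : ∀ n : ℕ, 1 ≤ n → n ≤ R ^ 2 + 1 → ((Nat.divisors n).card : ℝ) ≤ T := by
    intro n hn1 hn2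
    refine (hdiv n hn1).trans ?_
    have h1 : (n : ℝ) ≤ 2 * (R : ℝ) ^ 2 := by
      have : (n : ℝ) ≤ (R : ℝ) ^ 2 + 1 := by exact_mod_cast hn2
      nlinarith
    have h2 : (n : ℝ) ^ (ε / 2) ≤ (2 * (R : ℝ) ^ 2) ^ (ε / 2) :=
      Real.rpow_le_rpow (by positivity) h1 (by positivity)
    have h3 : (2 * (R : ℝ) ^ 2) ^ (ε / 2) = 2 ^ (ε / 2) * (R : ℝ) ^ ε := by
      rw [Real.mul_rpow (by norm_num) (by positivity)]
      congr 1
      rw [← Real.rpow_natCast (R : ℝ) 2, ← Real.rpow_mul (by positivity)]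
      congr 1; push_cast; ring
    rw [hTdef, hC2]
    calc C1 * (n : ℝ) ^ (ε / 2) ≤ C1 * (2 ^ (ε / 2) * (R : ℝ) ^ ε) := by
          rw [← h3]; exact mul_le_mul_of_nonneg_left h2 hC1.le
      _ = _ := by ring
  -- the diagonals
  set A := (Finset.Icc (-(R : ℤ)) R).filter (fun x => x ≡ 1 [ZMOD (d : ℤ)]) with hA
  set E : ℤ → Finset ℤ := fun a =>
    (Finset.Icc (-(R : ℤ)) R).filter (fun x => x ≡ 2 - a [ZMOD ((d : ℤ) ^ 2)]) with hE
  set S : Finset (Σ _ : ℤ, ℤ) := A.sigma E with hS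
  have hmaps : ∀ g ∈ gamF d R, (⟨g.1, g.2.2.2⟩ : Σ _ : ℤ, ℤ) ∈ S := by
    intro g hg
    obtain ⟨ha, hb, hc, he, hdet, hda, hdb, hdc, hde⟩ := Coll1_mem hg
    rw [hS, Finset.mem_sigma]
    constructor
    · rw [hA, Finset.mem_filter, Finset.mem_Icc]
      exact ⟨ha, (Int.modEq_iff_dvd.2 (by simpa using (dvd_neg.2 hda)))⟩
    · rw [hE]
      simp only
      rw [Finset.mem_filter, Finset.mem_Icc]
      refine ⟨he, Int.modEq_iff_dvd.2 ?_⟩
      have h1 : (d : ℤ) ^ 2 ∣ (g.1 - 1) * (g.2.2.2 - 1) := by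
        rw [pow_two]; exact mul_dvd_mul hda hde
      have h2 : (d : ℤ) ^ 2 ∣ g.2.1 * g.2.2.1 := by
        rw [pow_two]; exact mul_dvd_mul hdb hdc
      have h3 : 2 - g.1 - g.2.2.2 = (g.1 - 1) * (g.2.2.2 - 1) - g.2.1 * g.2.2.1 := by
        linear_combination -hdet
      rw [h3]
      exact dvd_sub h1 h2
  have hcard := Finset.card_eq_sum_card_fiberwise (f := fun g : ℤ × ℤ × ℤ × ℤ =>
    (⟨g.1, g.2.2.2⟩ : Σ _ : ℤ, ℤ)) (s := gamF d R) (t := S) hmaps
  set B : ℝ := 2 * ((2 * (R : ℝ) + 1) / d + 1) with hB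
  have hB0 : 0 ≤ B := by positivity
  have hcardA : (A.card : ℝ) ≤ (2 * (R : ℝ) + 1) / d + 1 := by
    have := Coll1_cnt (d : ℤ) hd0 R 1
    rw [← hA] at this
    push_cast at this
    exact this
  have hcardE : ∀ a ∈ A, ((E a).card : ℝ) ≤ (2 * (R : ℝ) + 1) / (d : ℝ) ^ 2 + 1 := by
    intro a _
    have := Coll1_cnt ((d : ℤ) ^ 2) (by positivity) R (2 - a)
    push_cast at this
    exact this
  have hcardS : (S.card : ℝ) ≤
      ((2 * (R : ℝ) + 1) / d + 1) * ((2 * (R : ℝ) + 1) / (d : ℝ) ^ 2 + 1) := by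
    rw [hS, Finset.card_sigma]
    push_cast
    calc (∑ a ∈ A, ((E a).card : ℝ)) ≤ ∑ a ∈ A, ((2 * (R : ℝ) + 1) / (d : ℝ) ^ 2 + 1) :=
          Finset.sum_le_sum hcardE
      _ = A.card * ((2 * (R : ℝ) + 1) / (d : ℝ) ^ 2 + 1) := by
          rw [Finset.sum_const, nsmul_eq_mul]
      _ ≤ _ := mul_le_mul_of_nonneg_right hcardA (by positivity)
  have hone : ((S.filter (fun p => p.1 * p.2 = 1)).card : ℝ) ≤ 2 := by
    have h1 : S.filter (fun p => p.1 * p.2 = 1) ⊆
        ({⟨1, 1⟩, ⟨-1, -1⟩} : Finset (Σ _ : ℤ, ℤ)) := by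
      rintro ⟨a, e⟩ hp
      rw [Finset.mem_filter] at hp
      have h2 := hp.2
      simp only at h2
      rcases Int.isUnit_iff.1 (IsUnit.of_mul_eq_one e h2) with h3 | h3
      · subst h3
        have : e = 1 := by linarith
        subst this; simp
      · subst h3
        have : e = -1 := by linarith
        subst this; simp
    have h2 := (Finset.card_le_card h1).trans Finset.card_le_two
    exact_mod_cast h2
  have hsum : ((gamF d R).card : ℝ) ≤ S.card * (2 * T) + B * 2 := by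
    rw [hcard]
    push_cast
    calc (∑ p ∈ S, (((gamF d R).filter (fun g => (⟨g.1, g.2.2.2⟩ : Σ _ : ℤ, ℤ) = p)).card : ℝ))
        ≤ ∑ p ∈ S, (2 * T + (if p.1 * p.2 = 1 then B else 0)) := by
          refine Finset.sum_le_sum fun p _ => ?_
          have h1 := Coll1_fib d R hd T hT0 hT p.1 p.2
          refine le_trans (le_of_eq ?_) h1
          congr 2
          ext g
          simp only [Finset.mem_filter]
          constructor
          · rintro ⟨h, h2⟩
            subst h2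
            exact ⟨h, rfl, rfl⟩
          · rintro ⟨h, h2, h3⟩
            refine ⟨h, ?_⟩
            obtain ⟨a, e⟩ := p
            simp only at h2 h3
            rw [h2, h3]
      _ = S.card * (2 * T) + (S.filter (fun p => p.1 * p.2 = 1)).card * B := by
          rw [Finset.sum_add_distrib, Finset.sum_const, nsmul_eq_mul, ← Finset.sum_filter,
            Finset.sum_const, nsmul_eq_mul]
      _ ≤ S.card * (2 * T) + B * 2 := by
          have := mul_le_mul_of_nonneg_right hone hB0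
          linarith
  refine hsum.trans ?_
  set u : ℝ := (R : ℝ) / d with hu
  have hu0 : 0 ≤ u := by positivity
  have e1 : (2 * (R : ℝ) + 1) / d ≤ 3 * u := by
    rw [hu, ← mul_div_assoc]
    exact div_le_div_of_nonneg_right (by linarith) (by positivity)
  have e2 : (2 * (R : ℝ) + 1) / (d : ℝ) ^ 2 ≤ 3 * (u / d) := by
    rw [hu, div_div, ← pow_two, ← mul_div_assoc]
    exact div_le_div_of_nonneg_right (by linarith) (by positivity)
  have e3 : u / d ≤ u := div_le_self hu0 hdr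
  have e4 : u * (u / d) = (R : ℝ) ^ 2 / (d : ℝ) ^ 3 := by
    rw [hu]; field_simp
  have hRe : 1 ≤ (R : ℝ) ^ ε := Real.one_le_rpow hRr hε.le
  set W : ℝ := (R : ℝ) ^ 2 / (d : ℝ) ^ 3 + u + 1 with hW
  have hW1 : 1 ≤ W := by
    rw [hW]; have : 0 ≤ (R : ℝ) ^ 2 / (d : ℝ) ^ 3 := by positivity
    linarith
  have hud : 0 ≤ u / d := by positivity
  have e5 : (S.card : ℝ) ≤ 9 * W := by
    refine hcardS.trans ?_
    calc ((2 * (R : ℝ) + 1) / d + 1) * ((2 * (R : ℝ) + 1) / (d : ℝ) ^ 2 + 1)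
        ≤ (3 * u + 1) * (3 * (u / d) + 1) := by
          apply mul_le_mul (by linarith) (by linarith) (by positivity) (by positivity)
      _ = 9 * (u * (u / d)) + 3 * u + 3 * (u / d) + 1 := by ring
      _ ≤ 9 * W := by rw [e4, hW]; linarith
  have e6 : B ≤ 6 * W := by
    rw [hB, hW]
    have : 0 ≤ (R : ℝ) ^ 2 / (d : ℝ) ^ 3 := by positivity
    linarith
  calc (S.card : ℝ) * (2 * T) + B * 2 ≤ 9 * W * (2 * T) + 6 * W * 2 := by
        have := mul_le_mul_of_nonneg_right e5 (by positivity : 0 ≤ 2 * T)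
        linarith
    _ = 18 * C2 * (R : ℝ) ^ ε * W + 12 * W := by rw [hTdef]; ring
    _ ≤ 18 * C2 * (R : ℝ) ^ ε * W + 12 * (R : ℝ) ^ ε * W := by
        have : 12 * W ≤ 12 * (R : ℝ) ^ ε * W := by nlinarith
        linarith
    _ = (18 * C2 + 12) * (R : ℝ) ^ ε * W := by ring

end Pool.Agent.W_f50700_h3
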