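import Pool.Agent.W_f50700_h3.Nrm

/-!
NewDec: decomposition of the additive character `e(a x_1 / q)` into new functions (row 438).
-/

open Matrix

namespace Pool.Agent.W_f50700_h3

/-- simple divisors: squarefree `m ∣ q` coprime to `q / m` -/
def simpleDiv (q : ℕ) : Finset ℕ :=
  (Nat.divisors q).filter (fun m => Squarefree m ∧ Nat.Coprime m (q / m))

/-! ### psi2 -/

theorem NewDec_factor_pos {p : ℕ} (hp : 2 ≤ p) : 0 < (p : ℝ) ^ 2 - 1 := by
  have : (2 : ℝ) ≤ p := by exact_mod_cast hp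
  nlinarith

theorem psi2_pos (m : ℕ) : 0 < psi2 m := by
  unfold psi2
  apply Finset.prod_pos
  intro p hp
  exact NewDec_factor_pos (Nat.prime_of_mem_primeFactors hp).two_le

theorem NewDec_prod_range (n : ℕ) :
    ∏ k ∈ Finset.range n, (1 + 1 / (((k + 2 : ℕ) : ℝ) ^ 2 - 1)) =
      2 * ((n : ℝ) + 1) / ((n : ℝ) + 2) := by
  induction n with
  | zero => simp
  | succ n ih =>
    rw [Finset.prod_range_succ, ih]
    have h1 : (0 : ℝ) < ((n + 2 : ℕ) : ℝ) ^ 2 - 1 := NewDec_factor_pos (by omega)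
    have h5 : ((n + 2 : ℕ) : ℝ) ^ 2 - 1 = ((n : ℝ) + 1) * ((n : ℝ) + 3) := by push_cast; ring
    rw [h5]
    push_cast
    have h2 : (0 : ℝ) < (n : ℝ) + 2 := by positivity
    have h3 : (0 : ℝ) < (n : ℝ) + 3 := by positivity
    have h4 : (0 : ℝ) < (n : ℝ) + 1 := by positivity
    have h6 : (n : ℝ) + 1 + 2 = (n : ℝ) + 3 := by ring
    rw [h6]
    field_simp
    ring

theorem NewDec_prod_le (S : Finset ℕ) (hS : ∀ p ∈ S, 2 ≤ p) :
    ∏ p ∈ S, (1 + 1 / ((p : ℝ) ^ 2 - 1)) ≤ 2 := by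
  classical
  obtain ⟨n, hn⟩ : ∃ n, ∀ p ∈ S, p < n + 2 := ⟨S.sup id, fun p hp => by
    have := Finset.le_sup (f := id) hp
    simp only [id_eq] at this
    omega⟩
  set T : Finset ℕ := (Finset.range n).image (fun k => k + 2) with hT
  have hsub : S ⊆ T := fun p hp => Finset.mem_image.2
    ⟨p - 2, Finset.mem_range.2 (by have := hn p hp; have := hS p hp; omega), by
      have := hS p hp; omega⟩
  have hTprod : ∏ p ∈ T, (1 + 1 / ((p : ℝ) ^ 2 - 1)) = 2 * ((n : ℝ) + 1) / ((n : ℝ) + 2) := by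
    rw [hT, Finset.prod_image (fun a _ b _ h => by simpa using h)]
    exact NewDec_prod_range n
  have hfac : ∀ p ∈ T, (1 : ℝ) ≤ 1 + 1 / ((p : ℝ) ^ 2 - 1) := by
    intro p hp
    obtain ⟨k, _, rfl⟩ := Finset.mem_image.1 hp
    have h1 := NewDec_factor_pos (p := k + 2) (by omega)
    have : 0 < 1 / (((k + 2 : ℕ) : ℝ) ^ 2 - 1) := by positivity
    linarith
  have h1 : (1 : ℝ) ≤ ∏ p ∈ T \ S, (1 + 1 / ((p : ℝ) ^ 2 - 1)) := by
    calc (1 : ℝ) = ∏ p ∈ T \ S, (1 : ℝ) := by simp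
      _ ≤ _ := Finset.prod_le_prod (fun _ _ => zero_le_one)
          (fun p hp => hfac p (Finset.mem_sdiff.1 hp).1)
  have h0 : (0 : ℝ) ≤ ∏ p ∈ S, (1 + 1 / ((p : ℝ) ^ 2 - 1)) :=
    Finset.prod_nonneg (fun p hp => by have := hfac p (hsub hp); linarith)
  have h2 : ∏ p ∈ S, (1 + 1 / ((p : ℝ) ^ 2 - 1)) ≤ ∏ p ∈ T, (1 + 1 / ((p : ℝ) ^ 2 - 1)) := by
    rw [← Finset.prod_sdiff hsub]
    nlinarith
  refine h2.trans ?_
  rw [hTprod, div_le_iff₀ (by positivity)]
  linarith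

/-- `psi2 m ≥ m^2/2` for squarefree `m` -/
theorem psi2_lower {m : ℕ} (hm : Squarefree m) : (m : ℝ) ^ 2 / 2 ≤ psi2 m := by
  have h1 := NewDec_prod_le m.primeFactors (fun p hp => (Nat.prime_of_mem_primeFactors hp).two_le)
  have h2 : (m : ℝ) ^ 2 = psi2 m * ∏ p ∈ m.primeFactors, (1 + 1 / ((p : ℝ) ^ 2 - 1)) := by
    unfold psi2
    rw [← Finset.prod_mul_distrib]
    have h3 : ∀ p ∈ m.primeFactors, ((p : ℝ) ^ 2 - 1) * (1 + 1 / ((p : ℝ) ^ 2 - 1)) =
        (p : ℝ) ^ 2 := by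
      intro p hp
      have := NewDec_factor_pos (Nat.prime_of_mem_primeFactors hp).two_le
      field_simp
      ring
    rw [Finset.prod_congr rfl h3, Finset.prod_pow]
    congr 1
    have h4 := Nat.prod_primeFactors_of_squarefree hm
    calc (m : ℝ) = ((∏ p ∈ m.primeFactors, p : ℕ) : ℝ) := by rw [h4]
      _ = ∏ p ∈ m.primeFactors, (p : ℝ) := by push_cast; rfl
  have h5 := psi2_pos m
  rw [h2]
  nlinarith

theorem NewDec_psi2_mul {m n : ℕ} (h : Nat.Coprime m n) : psi2 (m * n) = psi2 m * psi2 n := by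
  unfold psi2
  rw [Nat.Coprime.primeFactors_mul h, Finset.prod_union h.disjoint_primeFactors]

theorem NewDec_psi2_prime {p : ℕ} (hp : p.Prime) : psi2 p = (p : ℝ) ^ 2 - 1 := by
  unfold psi2
  rw [Nat.Prime.primeFactors hp, Finset.prod_singleton]

theorem NewDec_psi2_one : psi2 1 = 1 := by
  unfold psi2; simp

theorem NewDec_mem {q k : ℕ} : k ∈ simpleDiv q ↔ k ∣ q ∧ q ≠ 0 ∧ Squarefree k ∧
    Nat.Coprime k (q / k) := by
  unfold simpleDiv
  rw [Finset.mem_filter, Nat.mem_divisors]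
  tauto

/-- the sum of `1 / psi2` over the simple divisors -/
theorem NewDec_sum_le (d : ℕ) : ∑ k ∈ simpleDiv d, 1 / psi2 k ≤ 2 := by
  classical
  have h1 : ∑ k ∈ simpleDiv d, 1 / psi2 k =
      ∑ S ∈ (simpleDiv d).image Nat.primeFactors, ∏ p ∈ S, (1 / ((p : ℝ) ^ 2 - 1)) := by
    rw [Finset.sum_image]
    · apply Finset.sum_congr rfl
      intro k _
      unfold psi2
      rw [Finset.prod_div_distrib]
      simp
    · intro a ha b hb hab
      have ha' := (NewDec_mem.1 (Finset.mem_coe.1 ha)).2.2.1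
      have hb' := (NewDec_mem.1 (Finset.mem_coe.1 hb)).2.2.1
      rw [← Nat.prod_primeFactors_of_squarefree ha', ← Nat.prod_primeFactors_of_squarefree hb']
      have hab' : a.primeFactors = b.primeFactors := hab
      rw [hab']
  rw [h1]
  have h2 : (simpleDiv d).image Nat.primeFactors ⊆ d.primeFactors.powerset := by
    intro S hS
    obtain ⟨k, hk, rfl⟩ := Finset.mem_image.1 hS
    have hk' := NewDec_mem.1 hk
    exact Finset.mem_powerset.2 (Nat.primeFactors_mono hk'.1 hk'.2.1)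
  have h3 : ∑ S ∈ (simpleDiv d).image Nat.primeFactors, ∏ p ∈ S, (1 / ((p : ℝ) ^ 2 - 1)) ≤
      ∑ S ∈ d.primeFactors.powerset, ∏ p ∈ S, (1 / ((p : ℝ) ^ 2 - 1)) := by
    apply Finset.sum_le_sum_of_subset_of_nonneg h2
    intro S hS _
    apply Finset.prod_nonneg
    intro p hp
    have := NewDec_factor_pos (Nat.prime_of_mem_primeFactors (Finset.mem_powerset.1 hS hp)).two_le
    positivity
  refine h3.trans ?_
  rw [← Finset.prod_one_add]
  exact NewDec_prod_le _ (fun p hp => (Nat.prime_of_mem_primeFactors hp).two_le)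

/-! ### the character -/

/-- the additive character mod `d` on integers -/
noncomputable def NewDec_ch (d : ℕ) (z : ℤ) : ℂ := e ((z : ℝ) / d)

theorem NewDec_e_add (x y : ℝ) : e (x + y) = e x * e y := by
  unfold e
  rw [← Complex.exp_add]
  congr 1
  push_cast
  ring

theorem NewDec_e_int (n : ℤ) : e (n : ℝ) = 1 := by
  unfold e
  rw [Complex.exp_eq_one_iff]
  exact ⟨n, by push_cast; ring⟩

theorem NewDec_e_norm (x : ℝ) : ‖e x‖ = 1 := by
  unfold e
  rw [show 2 * (Real.pi : ℂ) * Complex.I * (x : ℂ) = ((2 * Real.pi * x : ℝ) : ℂ) * Complex.I by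
    push_cast; ring, Complex.norm_exp_ofReal_mul_I]

theorem NewDec_ch_add (d : ℕ) (z w : ℤ) : NewDec_ch d (z + w) = NewDec_ch d z * NewDec_ch d w := by
  unfold NewDec_ch
  rw [← NewDec_e_add]
  congr 1
  push_cast
  ring

theorem NewDec_ch_norm (d : ℕ) (z : ℤ) : ‖NewDec_ch d z‖ = 1 := NewDec_e_norm _

theorem NewDec_ch_dvd {d : ℕ} (hd : d ≠ 0) {z : ℤ} (h : (d : ℤ) ∣ z) : NewDec_ch d z = 1 := by
  obtain ⟨c, rfl⟩ := h
  unfold NewDec_ch
  have hd' : (d : ℝ) ≠ 0 := by exact_mod_cast hd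
  have : (((d : ℤ) * c : ℤ) : ℝ) / d = (c : ℝ) := by
    push_cast
    field_simp
  rw [this, NewDec_e_int]

theorem NewDec_ch_congr {d : ℕ} (hd : d ≠ 0) {z w : ℤ} (h : (d : ℤ) ∣ z - w) :
    NewDec_ch d z = NewDec_ch d w := by
  have : z = (z - w) + w := by ring
  rw [this, NewDec_ch_add, NewDec_ch_dvd hd h, one_mul]

theorem NewDec_ch_scale {d k : ℕ} (hd : d ≠ 0) (hk : k ∣ d) (z : ℤ) :
    NewDec_ch d ((k : ℤ) * z) = NewDec_ch (d / k) z := by
  obtain ⟨c, rfl⟩ := hk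
  have hk0 : k ≠ 0 := left_ne_zero_of_mul hd
  have hc0 : c ≠ 0 := right_ne_zero_of_mul hd
  rw [Nat.mul_div_cancel_left _ (Nat.pos_of_ne_zero hk0)]
  unfold NewDec_ch
  congr 1
  have hk' : (k : ℝ) ≠ 0 := by exact_mod_cast hk0
  have hc' : (c : ℝ) ≠ 0 := by exact_mod_cast hc0
  push_cast
  field_simp

theorem NewDec_ch_pow (p : ℕ) (c : ℤ) (i : ℕ) : NewDec_ch p (c * i) = NewDec_ch p c ^ i := by
  induction i with
  | zero => simp [NewDec_ch, e]
  | succ i ih =>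
    rw [pow_succ, ← ih, ← NewDec_ch_add]
    congr 1
    push_cast
    ring

theorem NewDec_ch_geom {p : ℕ} (hp : 2 ≤ p) {c : ℤ} (hc : ¬ (p : ℤ) ∣ c) :
    ∑ i ∈ Finset.range p, NewDec_ch p (c * i) = 0 := by
  have hp0 : p ≠ 0 := by omega
  rw [Finset.sum_congr rfl (fun i _ => NewDec_ch_pow p c i)]
  set r := NewDec_ch p c with hr
  have hr1 : r ≠ 1 := by
    intro h
    apply hc
    rw [hr] at h
    unfold NewDec_ch e at h
    rw [Complex.exp_eq_one_iff] at h
    obtain ⟨n, hn⟩ := h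
    have hI : 2 * (Real.pi : ℂ) * Complex.I ≠ 0 := Complex.two_pi_I_ne_zero
    have h2 : (((c : ℝ) / (p : ℝ) : ℝ) : ℂ) = ((n : ℝ) : ℂ) := by
      have : 2 * (Real.pi : ℂ) * Complex.I * (((c : ℝ) / (p : ℝ) : ℝ) : ℂ) =
          2 * (Real.pi : ℂ) * Complex.I * ((n : ℝ) : ℂ) := by
        rw [hn]; push_cast; ring
      exact mul_left_cancel₀ hI this
    have h3 : (c : ℝ) / (p : ℝ) = (n : ℝ) := Complex.ofReal_injective h2
    have hp' : (p : ℝ) ≠ 0 := by exact_mod_cast hp0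
    rw [div_eq_iff hp'] at h3
    exact ⟨n, by rw [mul_comm]; exact_mod_cast h3⟩
  have hrp : r ^ p = 1 := by
    rw [hr, ← NewDec_ch_pow]
    exact NewDec_ch_dvd hp0 ⟨c, by ring⟩
  have h5 := geom_sum_mul r p
  rw [hrp, sub_self] at h5
  rcases mul_eq_zero.1 h5 with h6 | h6
  · exact h6
  · exact absurd (sub_eq_zero.1 h6) hr1

/-! ### idempotents -/

/-- `idm d k ≡ 0 mod k`, `≡ 1 mod d / k` -/
def NewDec_idm (d k : ℕ) : ℕ := k * ((k : ZMod (d / k))⁻¹).val

theorem NewDec_idm_zero (d k : ℕ) : (k : ℤ) ∣ (NewDec_idm d k : ℤ) := by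
  unfold NewDec_idm
  push_cast
  exact Dvd.intro _ rfl

theorem NewDec_idm_one {d k : ℕ} (hk : k ∈ simpleDiv d) :
    ((d / k : ℕ) : ℤ) ∣ (NewDec_idm d k : ℤ) - 1 := by
  obtain ⟨h1, h2, h3, h4⟩ := NewDec_mem.1 hk
  have hk0 : k ≠ 0 := fun h => h2 (by rw [h] at h1; exact Nat.eq_zero_of_zero_dvd h1)
  have hdk : d / k ≠ 0 := by
    intro h
    have := Nat.div_mul_cancel h1
    rw [h, zero_mul] at this
    exact h2 this.symm
  have : NeZero (d / k) := ⟨hdk⟩
  rw [← ZMod.intCast_zmod_eq_zero_iff_dvd]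
  unfold NewDec_idm
  push_cast
  rw [ZMod.natCast_zmod_val, ZMod.coe_mul_inv_eq_one k h4, sub_self]

/-- `d ∣ z` from divisibility by `k` and `d / k` -/
theorem NewDec_dvd_of {d k : ℕ} (hk : k ∈ simpleDiv d) {z : ℤ} (h1 : (k : ℤ) ∣ z)
    (h2 : ((d / k : ℕ) : ℤ) ∣ z) : (d : ℤ) ∣ z := by
  obtain ⟨g1, g2, g3, g4⟩ := NewDec_mem.1 hk
  have h3 : IsCoprime (k : ℤ) ((d / k : ℕ) : ℤ) := Nat.isCoprime_iff_coprime.2 g4
  have h4 := h3.mul_dvd h1 h2
  have h5 : (k : ℤ) * ((d / k : ℕ) : ℤ) = (d : ℤ) := by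
    exact_mod_cast Nat.mul_div_cancel' g1
  rwa [h5] at h4

/-- uniqueness -/
theorem NewDec_idm_unique {d k : ℕ} (hk : k ∈ simpleDiv d) {y z : ℤ} (h0 : (k : ℤ) ∣ y)
    (h1 : ((d / k : ℕ) : ℤ) ∣ y - z) : (d : ℤ) ∣ y - NewDec_idm d k * z := by
  apply NewDec_dvd_of hk
  · exact dvd_sub h0 (Dvd.dvd.mul_right (NewDec_idm_zero d k) z)
  · have h2 := NewDec_idm_one hk
    have : y - NewDec_idm d k * z = (y - z) - (NewDec_idm d k - 1) * z := by ring
    rw [this]
    exact dvd_sub h1 (Dvd.dvd.mul_right h2 z)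

/-- idempotents multiply -/
theorem NewDec_idm_mul {q m k : ℕ} (hm : m ∈ simpleDiv q) (hk : k ∈ simpleDiv (q / m))
    (hmk : m * k ∈ simpleDiv q) :
    (q : ℤ) ∣ (NewDec_idm q m : ℤ) * NewDec_idm (q / m) k - NewDec_idm q (m * k) := by
  have h := NewDec_idm_unique hmk (y := (NewDec_idm q m : ℤ) * NewDec_idm (q / m) k) (z := 1) ?_ ?_
  · simpa using h
  · push_cast
    exact mul_dvd_mul (NewDec_idm_zero q m) (NewDec_idm_zero (q / m) k)
  · have h1 := NewDec_idm_one hm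
    have h2 := NewDec_idm_one hk
    rw [Nat.div_div_eq_div_mul] at h2
    have h3 : ((q / (m * k) : ℕ) : ℤ) ∣ ((q / m : ℕ) : ℤ) := by
      apply Int.natCast_dvd_natCast.2
      rw [← Nat.div_div_eq_div_mul]
      exact Nat.div_dvd_of_dvd (NewDec_mem.1 hk).1
    have h4 := h3.trans h1
    have : (NewDec_idm q m : ℤ) * NewDec_idm (q / m) k - 1 =
        (NewDec_idm q m - 1) * NewDec_idm (q / m) k + (NewDec_idm (q / m) k - 1) := by ring
    rw [this]
    exact dvd_add (Dvd.dvd.mul_right h4 _) h2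

/-! ### primitive pairs -/

theorem NewDec_prim_iff (d : ℕ) (u v : ℤ) :
    IsCoprime (u : ZMod d) (v : ZMod d) ↔
      ∀ p : ℕ, p.Prime → p ∣ d → ¬ ((p : ℤ) ∣ u ∧ (p : ℤ) ∣ v) := by
  constructor
  · rintro ⟨a, b, hab⟩ p hp hpd ⟨h1, h2⟩
    have h3 := congrArg (ZMod.castHom hpd (ZMod p)) hab
    rw [map_add, map_mul, map_mul, map_one, map_intCast, map_intCast,
      (ZMod.intCast_zmod_eq_zero_iff_dvd u p).2 h1, (ZMod.intCast_zmod_eq_zero_iff_dvd v p).2 h2,
      mul_zero, mul_zero, add_zero] at h3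
    have := Fact.mk hp
    exact zero_ne_one h3
  · intro h
    have hg : Int.gcd (Int.gcd u v) d = 1 := by
      by_contra hne
      obtain ⟨p, hp, hpg⟩ := Nat.exists_prime_and_dvd hne
      have h1 : (p : ℤ) ∣ (Int.gcd u v : ℤ) := (Int.natCast_dvd_natCast.2 hpg).trans
        (Int.gcd_dvd_left _ _)
      have h2 : (p : ℤ) ∣ (d : ℤ) := (Int.natCast_dvd_natCast.2 hpg).trans
        (Int.gcd_dvd_right _ _)
      exact h p hp (Int.natCast_dvd_natCast.1 h2)
        ⟨h1.trans (Int.gcd_dvd_left _ _), h1.trans (Int.gcd_dvd_right _ _)⟩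
    have h2 : IsCoprime (Int.gcd u v : ℤ) (d : ℤ) := Int.isCoprime_iff_gcd_eq_one.2 hg
    obtain ⟨a, b, hab⟩ := h2
    have h3 : (Int.gcd u v : ℤ) = u * Int.gcdA u v + v * Int.gcdB u v := Int.gcd_eq_gcd_ab u v
    rw [h3] at hab
    have h4 := congrArg (fun z : ℤ => (z : ZMod d)) hab
    push_cast at h4
    rw [ZMod.natCast_self, mul_zero, add_zero] at h4
    exact ⟨a * Int.gcdA u v, a * Int.gcdB u v, by rw [← h4]; ring⟩

/-! ### the new functions -/

/-- the new functions of level `d` -/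
noncomputable def NewDec_g (d : ℕ) (b : ℤ) (x : ZMod d × ZMod d) : ℂ := by
  classical
  exact if IsCoprime x.1 x.2 then
    ∑ k ∈ simpleDiv d, (1 / (psi2 k : ℂ)) * NewDec_ch d (b * NewDec_idm d k * (x.1.val : ℤ)) else 0

/-- the value on a pair of integers -/
noncomputable def NewDec_G (d : ℕ) (b u : ℤ) : ℂ :=
  ∑ k ∈ simpleDiv d, (1 / (psi2 k : ℂ)) * NewDec_ch d (b * NewDec_idm d k * u)

theorem NewDec_g_int {d : ℕ} [NeZero d] (b u v : ℤ) [Decidable (IsCoprime (u : ZMod d) (v : ZMod d))] :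
    NewDec_g d b ((u : ZMod d), (v : ZMod d)) =
      if IsCoprime (u : ZMod d) (v : ZMod d) then NewDec_G d b u else 0 := by
  unfold NewDec_g
  by_cases h : IsCoprime (u : ZMod d) (v : ZMod d)
  · rw [if_pos h, if_pos h]
    unfold NewDec_G
    apply Finset.sum_congr rfl
    intro k _
    congr 1
    apply NewDec_ch_congr (NeZero.ne d)
    rw [← ZMod.intCast_zmod_eq_zero_iff_dvd]
    push_cast
    rw [ZMod.natCast_zmod_val]
    ring
  · rw [if_neg h, if_neg h]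

theorem NewDec_g_norm {d : ℕ} (b : ℤ) (x : ZMod d × ZMod d) : ‖NewDec_g d b x‖ ≤ 2 := by
  unfold NewDec_g
  split_ifs
  · refine (norm_sum_le _ _).trans ?_
    refine le_trans (le_of_eq ?_) (NewDec_sum_le d)
    apply Finset.sum_congr rfl
    intro k _
    rw [norm_mul, NewDec_ch_norm, mul_one, norm_div, norm_one, Complex.norm_real,
      Real.norm_of_nonneg (psi2_pos k).le]
  · simp

/-- a simple divisor is prime to `p` if `p^2 ∣ d` -/
theorem NewDec_not_dvd {d k p : ℕ} (hk : k ∈ simpleDiv d) (hp : p.Prime) (h2 : p ∣ d / p)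
    (hpd : p ∣ d) : ¬ p ∣ k := by
  intro h
  obtain ⟨g1, g2, g3, g4⟩ := NewDec_mem.1 hk
  have h5 : ¬ p ∣ d / k := fun h6 => hp.one_lt.ne' (Nat.eq_one_of_dvd_one (g4 ▸ Nat.dvd_gcd h h6))
  obtain ⟨c, hc⟩ := h2
  have h6 : d = p * (p * c) := by rw [← hc, Nat.mul_div_cancel' hpd]
  have h7 : d = k * (d / k) := (Nat.mul_div_cancel' g1).symm
  have h8 : p * p ∣ k * (d / k) := by rw [← h7, h6]; exact ⟨c, by ring⟩
  have h9 : Nat.Coprime (p * p) (d / k) := by
    have := (Nat.Prime.coprime_iff_not_dvd hp).2 h5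
    exact Nat.Coprime.mul_left this this
  have h10 : p * p ∣ k := h9.dvd_of_dvd_mul_right h8
  have h11 := g3 p h10
  exact hp.one_lt.ne' (Nat.isUnit_iff.1 h11)

/-- the idempotent is `1` mod `p` if `p ∤ k` -/
theorem NewDec_idm_mod {d k p : ℕ} (hk : k ∈ simpleDiv d) (hp : p.Prime) (hpd : p ∣ d)
    (hpk : ¬ p ∣ k) : (p : ℤ) ∣ (NewDec_idm d k : ℤ) - 1 := by
  obtain ⟨g1, g2, g3, g4⟩ := NewDec_mem.1 hk
  have h1 : p ∣ d / k := by
    have h7 : d = k * (d / k) := (Nat.mul_div_cancel' g1).symm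
    rw [h7] at hpd
    exact (hp.dvd_mul.1 hpd).resolve_left hpk
  exact (Int.natCast_dvd_natCast.2 h1).trans (NewDec_idm_one hk)

/-- sum over one fibre coordinate, `p ∤ k` -/
theorem NewDec_fibre {d k p : ℕ} (hk : k ∈ simpleDiv d) (hp : p.Prime) (hpd : p ∣ d)
    (hpk : ¬ p ∣ k) {b : ℤ} (hb : IsCoprime b (d : ℤ)) (u : ℤ) :
    ∑ i ∈ Finset.range p, NewDec_ch d (b * NewDec_idm d k * (u + ((d / p : ℕ) : ℤ) * i)) = 0 := by
  have hd : d ≠ 0 := (NewDec_mem.1 hk).2.1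
  have h1 : ∀ i ∈ Finset.range p, NewDec_ch d (b * NewDec_idm d k * (u + ((d / p : ℕ) : ℤ) * i)) =
      NewDec_ch d (b * NewDec_idm d k * u) * NewDec_ch p ((b * NewDec_idm d k) * i) := by
    intro i _
    have h2 : b * NewDec_idm d k * (u + ((d / p : ℕ) : ℤ) * i) =
        b * NewDec_idm d k * u + ((d / p : ℕ) : ℤ) * ((b * NewDec_idm d k) * i) := by ring
    rw [h2, NewDec_ch_add, NewDec_ch_scale hd (Nat.div_dvd_of_dvd hpd), Nat.div_div_self hpd hd]
  rw [Finset.sum_congr rfl h1, ← Finset.mul_sum, NewDec_ch_geom hp.two_le, mul_zero]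
  intro h3
  have hpZ : Prime (p : ℤ) := Nat.prime_iff_prime_int.1 hp
  rcases hpZ.dvd_or_dvd h3 with h4 | h4
  · obtain ⟨r, s, hrs⟩ := hb
    have h5 : (p : ℤ) ∣ 1 := by
      rw [← hrs]
      exact dvd_add (Dvd.dvd.mul_left h4 r) (Dvd.dvd.mul_left (Int.natCast_dvd_natCast.2 hpd) s)
    exact hpZ.not_isUnit (isUnit_of_dvd_one h5)
  · have h5 := NewDec_idm_mod hk hp hpd hpk
    have h6 : (p : ℤ) ∣ 1 := by
      have := dvd_sub h4 h5
      simpa using this
    exact hpZ.not_isUnit (isUnit_of_dvd_one h6)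

/-- multiplication by `p` maps simple divisors prime to `p` to simple divisors, `p ∥ d` -/
theorem NewDec_mul_mem {d k p : ℕ} (hk : k ∈ simpleDiv d) (hp : p.Prime) (hpd : p ∣ d)
    (h2 : ¬ p ∣ d / p) (hpk : ¬ p ∣ k) : k * p ∈ simpleDiv d := by
  obtain ⟨g1, g2, g3, g4⟩ := NewDec_mem.1 hk
  have hcop : Nat.Coprime k p := ((Nat.Prime.coprime_iff_not_dvd hp).2 hpk).symm
  have h3 : k * p ∣ d := hcop.mul_dvd_of_dvd_of_dvd g1 hpd
  refine NewDec_mem.2 ⟨h3, g2, ?_, ?_⟩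
  · exact (Nat.squarefree_mul hcop).2 ⟨g3, hp.squarefree⟩
  · have h4 : d / (k * p) ∣ d / k := by
      rw [← Nat.div_div_eq_div_mul]
      apply Nat.div_dvd_of_dvd
      have h7 : d = k * (d / k) := (Nat.mul_div_cancel' g1).symm
      rw [h7] at hpd
      exact (hp.dvd_mul.1 hpd).resolve_left hpk
    have h5 : d / (k * p) ∣ d / p := by
      rw [mul_comm, ← Nat.div_div_eq_div_mul]
      apply Nat.div_dvd_of_dvd
      have h7 : d = p * (d / p) := (Nat.mul_div_cancel' hpd).symm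
      rw [h7] at g1
      exact hcop.dvd_of_dvd_mul_left g1
    apply Nat.Coprime.mul_left
    · exact Nat.Coprime.coprime_dvd_right h4 g4
    · rw [Nat.Prime.coprime_iff_not_dvd hp]
      exact fun h6 => h2 (h6.trans h5)

theorem NewDec_div_mem {d k p : ℕ} (hk : k * p ∈ simpleDiv d) (hp : p.Prime) :
    k ∈ simpleDiv d ∧ ¬ p ∣ k := by
  obtain ⟨g1, g2, g3, g4⟩ := NewDec_mem.1 hk
  have hpk : ¬ p ∣ k := by
    intro h
    have := g3 p (mul_dvd_mul h (dvd_refl p))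
    exact hp.one_lt.ne' (Nat.isUnit_iff.1 this)
  have hcop : Nat.Coprime k p := ((Nat.Prime.coprime_iff_not_dvd hp).2 hpk).symm
  refine ⟨NewDec_mem.2 ⟨(Dvd.intro _ rfl).trans g1, g2,
    (Nat.squarefree_mul hcop).1 g3 |>.1, ?_⟩, hpk⟩
  have hk0 : 0 < k := Nat.pos_of_ne_zero (fun h => by subst h; simp at hpk)
  have h1 : d / k = p * (d / (k * p)) := by
    apply Nat.div_eq_of_eq_mul_right hk0
    rw [← mul_assoc, Nat.mul_div_cancel' g1]
  rw [h1]
  exact Nat.Coprime.mul_right hcop (Nat.Coprime.coprime_mul_right g4)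

theorem NewDec_sum_split {d p : ℕ} (hp : p.Prime) (hpd : p ∣ d) (h2 : ¬ p ∣ d / p) (f : ℕ → ℂ) :
    ∑ k ∈ simpleDiv d, f k = ∑ k ∈ (simpleDiv d).filter (fun k => ¬ p ∣ k), (f k + f (k * p)) := by
  rw [Finset.sum_add_distrib, ← Finset.sum_filter_add_sum_filter_not (simpleDiv d)
    (fun k => ¬ p ∣ k)]
  congr 1
  symm
  apply Finset.sum_bij (fun k _ => k * p)
  · intro k hk
    obtain ⟨h1, h3⟩ := Finset.mem_filter.1 hk
    refine Finset.mem_filter.2 ⟨NewDec_mul_mem h1 hp hpd h2 h3, ?_⟩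
    rw [not_not]
    exact Dvd.intro_left _ rfl
  · intro a _ b _ h
    exact Nat.eq_of_mul_eq_mul_right hp.pos h
  · intro k hk
    obtain ⟨h1, h3⟩ := Finset.mem_filter.1 hk
    rw [not_not] at h3
    obtain ⟨c, rfl⟩ := h3
    rw [mul_comm] at h1 ⊢
    obtain ⟨h4, h5⟩ := NewDec_div_mem h1 hp
    exact ⟨c, Finset.mem_filter.2 ⟨h4, h5⟩, rfl⟩
  · intro k _
    rfl

/-- the fibre sum in the case `p ∥ d` -/
theorem NewDec_fibre_B {d p : ℕ} (hd : d ≠ 0) (hp : p.Prime) (hpd : p ∣ d) (h2 : ¬ p ∣ d / p)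
    {b : ℤ} (hb : IsCoprime b (d : ℤ)) (u : ℤ) {i0 : ℕ}
    (hi0 : (p : ℤ) ∣ u + ((d / p : ℕ) : ℤ) * i0) :
    (p : ℂ) * ∑ i ∈ Finset.range p, NewDec_G d b (u + ((d / p : ℕ) : ℤ) * i) =
      NewDec_G d b (u + ((d / p : ℕ) : ℤ) * i0) := by
  set S0 := (simpleDiv d).filter (fun k => ¬ p ∣ k) with hS0
  set y : ℤ := u + ((d / p : ℕ) : ℤ) * i0 with hy
  -- the terms with `p ∣ k`
  have hA : ∀ k ∈ S0, ∀ i : ℕ,
      NewDec_ch d (b * NewDec_idm d (k * p) * (u + ((d / p : ℕ) : ℤ) * i)) =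
        NewDec_ch d (b * NewDec_idm d k * y) := by
    intro k hk i
    obtain ⟨h1, h3⟩ := Finset.mem_filter.1 hk
    have hkp := NewDec_mul_mem h1 hp hpd h2 h3
    apply NewDec_ch_congr hd
    -- `d ∣ idm (kp) (u_i - y)`
    have e1 : (d : ℤ) ∣ NewDec_idm d (k * p) * ((u + ((d / p : ℕ) : ℤ) * i) - y) := by
      have h4 : (u + ((d / p : ℕ) : ℤ) * i) - y = ((d / p : ℕ) : ℤ) * ((i : ℤ) - i0) := by
        rw [hy]; ring
      rw [h4, ← mul_assoc]
      apply Dvd.dvd.mul_right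
      have h5 : (p : ℤ) ∣ (NewDec_idm d (k * p) : ℤ) := by
        refine dvd_trans ?_ (NewDec_idm_zero d (k * p))
        push_cast
        exact Dvd.intro_left _ rfl
      have h6 : (d : ℤ) = (p : ℤ) * ((d / p : ℕ) : ℤ) := by
        exact_mod_cast (Nat.mul_div_cancel' hpd).symm
      calc (d : ℤ) = (p : ℤ) * ((d / p : ℕ) : ℤ) := h6
        _ ∣ _ := mul_dvd_mul h5 (dvd_refl _)
    have e2 : (d : ℤ) ∣ NewDec_idm d k * y - NewDec_idm d (k * p) * y := by
      apply NewDec_idm_unique hkp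
      · push_cast
        exact mul_dvd_mul (NewDec_idm_zero d k) hi0
      · have h7 := NewDec_idm_one h1
        have h8 : ((d / (k * p) : ℕ) : ℤ) ∣ ((d / k : ℕ) : ℤ) := by
          apply Int.natCast_dvd_natCast.2
          rw [← Nat.div_div_eq_div_mul]
          apply Nat.div_dvd_of_dvd
          have h7 : d = k * (d / k) := (Nat.mul_div_cancel' (NewDec_mem.1 h1).1).symm
          rw [h7] at hpd
          exact (hp.dvd_mul.1 hpd).resolve_left h3
        have h9 : (NewDec_idm d k : ℤ) * y - y = (NewDec_idm d k - 1) * y := by ring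
        rw [h9]
        exact Dvd.dvd.mul_right (h8.trans h7) y
    have e3 : b * NewDec_idm d (k * p) * (u + ((d / p : ℕ) : ℤ) * i) - b * NewDec_idm d k * y =
        b * (NewDec_idm d (k * p) * ((u + ((d / p : ℕ) : ℤ) * i) - y)) -
        b * (NewDec_idm d k * y - NewDec_idm d (k * p) * y) := by ring
    rw [e3]
    exact dvd_sub (Dvd.dvd.mul_left e1 b) (Dvd.dvd.mul_left e2 b)
  have hps : ∀ k ∈ S0, (psi2 (k * p) : ℂ) = (psi2 k : ℂ) * ((p : ℂ) ^ 2 - 1) := by
    intro k hk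
    obtain ⟨h1, h3⟩ := Finset.mem_filter.1 hk
    have hcop : Nat.Coprime k p := ((Nat.Prime.coprime_iff_not_dvd hp).2 h3).symm
    rw [NewDec_psi2_mul hcop, NewDec_psi2_prime hp]
    push_cast
    ring
  have hp2 : (p : ℂ) ^ 2 - 1 ≠ 0 := by
    have := NewDec_factor_pos hp.two_le
    have h4 : (((p : ℝ) ^ 2 - 1 : ℝ) : ℂ) ≠ 0 := by exact_mod_cast this.ne'
    push_cast at h4
    exact h4
  have hG : ∀ i : ℕ, NewDec_G d b (u + ((d / p : ℕ) : ℤ) * i) =
      ∑ k ∈ S0, ((1 / (psi2 k : ℂ)) * NewDec_ch d (b * NewDec_idm d k *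
        (u + ((d / p : ℕ) : ℤ) * i)) + (1 / ((psi2 k : ℂ) * ((p : ℂ) ^ 2 - 1))) *
        NewDec_ch d (b * NewDec_idm d k * y)) := by
    intro i
    unfold NewDec_G
    rw [NewDec_sum_split hp hpd h2]
    apply Finset.sum_congr rfl
    intro k hk
    rw [hA k hk i, hps k hk]
  have hy' : NewDec_G d b y = ∑ k ∈ S0, ((1 / (psi2 k : ℂ)) * NewDec_ch d (b * NewDec_idm d k *
        y) + (1 / ((psi2 k : ℂ) * ((p : ℂ) ^ 2 - 1))) *
        NewDec_ch d (b * NewDec_idm d k * y)) := hG i0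
  rw [hy', Finset.sum_congr rfl (fun i _ => hG i), Finset.sum_comm, Finset.mul_sum]
  apply Finset.sum_congr rfl
  intro k hk
  obtain ⟨h1, h3⟩ := Finset.mem_filter.1 hk
  rw [Finset.sum_add_distrib, ← Finset.mul_sum, NewDec_fibre h1 hp hpd h3 hb u, mul_zero, zero_add,
    Finset.sum_const, Finset.card_range, nsmul_eq_mul]
  have hk0 : (psi2 k : ℂ) ≠ 0 := by exact_mod_cast (psi2_pos k).ne'
  field_simp
  ring

theorem NewDec_exists_i {d p : ℕ} (hp : p.Prime) (h2 : ¬ p ∣ d / p) (u : ℤ) :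
    ∃ i0 < p, ∀ i < p, ((p : ℤ) ∣ u + ((d / p : ℕ) : ℤ) * i ↔ i = i0) := by
  have hf := Fact.mk hp
  have hc : ((d / p : ℕ) : ZMod p) ≠ 0 := by
    rw [Ne, ZMod.natCast_eq_zero_iff]
    exact h2
  refine ⟨(-(u : ZMod p) * ((d / p : ℕ) : ZMod p)⁻¹).val, ZMod.val_lt _, ?_⟩
  intro i hi
  rw [← ZMod.intCast_zmod_eq_zero_iff_dvd, Int.cast_add, Int.cast_mul, Int.cast_natCast,
    Int.cast_natCast]
  constructor
  · intro h
    have h3 : (i : ZMod p) = -(u : ZMod p) * ((d / p : ℕ) : ZMod p)⁻¹ := by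
      field_simp
      linear_combination h
    rw [← h3, ZMod.val_natCast, Nat.mod_eq_of_lt hi]
  · intro h
    have h3 : (i : ZMod p) = -(u : ZMod p) * ((d / p : ℕ) : ZMod p)⁻¹ := by
      rw [h, ZMod.natCast_zmod_val]
    rw [h3]
    field_simp
    ring

theorem NewDec_g_new {d : ℕ} [NeZero d] {b : ℤ} (hb : IsCoprime b (d : ℤ)) :
    IsNew d (NewDec_g d b) := by
  classical
  have hd := NeZero.ne d
  constructor
  · intro x hx
    unfold NewDec_g
    rw [if_neg hx]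
  · intro p hp hpd x
    obtain ⟨u, hu⟩ : ∃ u : ℤ, x.1 = (u : ZMod d) := ⟨x.1.val, by
      push_cast; rw [ZMod.natCast_zmod_val]⟩
    obtain ⟨v, hv⟩ : ∃ v : ℤ, x.2 = (v : ZMod d) := ⟨x.2.val, by
      push_cast; rw [ZMod.natCast_zmod_val]⟩
    have hterm : ∀ i j : ℕ, NewDec_g d b (x.1 + ((d / p : ℕ) : ZMod d) * (i : ZMod d),
        x.2 + ((d / p : ℕ) : ZMod d) * (j : ZMod d)) =
        if (∀ r : ℕ, r.Prime → r ∣ d → ¬ ((r : ℤ) ∣ u + ((d / p : ℕ) : ℤ) * i ∧
          (r : ℤ) ∣ v + ((d / p : ℕ) : ℤ) * j)) then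
          NewDec_G d b (u + ((d / p : ℕ) : ℤ) * i) else 0 := by
      intro i j
      have h1 : (x.1 + ((d / p : ℕ) : ZMod d) * (i : ZMod d),
          x.2 + ((d / p : ℕ) : ZMod d) * (j : ZMod d)) =
          (((u + ((d / p : ℕ) : ℤ) * i : ℤ) : ZMod d),
            ((v + ((d / p : ℕ) : ℤ) * j : ℤ) : ZMod d)) := by
        rw [hu, hv, Int.cast_add, Int.cast_mul, Int.cast_natCast, Int.cast_natCast,
          Int.cast_add, Int.cast_mul, Int.cast_natCast, Int.cast_natCast]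
      rw [h1, NewDec_g_int]
      simp only [NewDec_prim_iff]
    simp only [hterm]
    have hdiv : ∀ r : ℕ, r.Prime → r ∣ d → (r ≠ p ∨ p ∣ d / p) → ∀ (w : ℤ) (i : ℕ),
        ((r : ℤ) ∣ w + ((d / p : ℕ) : ℤ) * i ↔ (r : ℤ) ∣ w) := by
      intro r hr hrd hrp w i
      have h3 : (r : ℤ) ∣ ((d / p : ℕ) : ℤ) := by
        apply Int.natCast_dvd_natCast.2
        by_cases hrp' : r = p
        · subst hrp'
          rcases hrp with h | h
          · exact absurd rfl h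
          · exact h
        · have h7 : d = p * (d / p) := (Nat.mul_div_cancel' hpd).symm
          rw [h7] at hrd
          rcases hr.dvd_mul.1 hrd with h | h
          · exact absurd ((Nat.prime_dvd_prime_iff_eq hr hp).1 h) hrp'
          · exact h
      exact dvd_add_left (Dvd.dvd.mul_right h3 _)
    by_cases h2 : p ∣ d / p
    · -- case A
      have hcond : ∀ i j : ℕ, (∀ r : ℕ, r.Prime → r ∣ d → ¬ ((r : ℤ) ∣ u + ((d / p : ℕ) : ℤ) * i ∧
          (r : ℤ) ∣ v + ((d / p : ℕ) : ℤ) * j)) ↔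
          (∀ r : ℕ, r.Prime → r ∣ d → ¬ ((r : ℤ) ∣ u ∧ (r : ℤ) ∣ v)) := by
        intro i j
        refine forall_congr' (fun r => forall_congr' (fun hr => forall_congr' (fun hrd => ?_)))
        rw [hdiv r hr hrd (Or.inr h2), hdiv r hr hrd (Or.inr h2)]
      simp only [hcond]
      by_cases hC : (∀ r : ℕ, r.Prime → r ∣ d → ¬ ((r : ℤ) ∣ u ∧ (r : ℤ) ∣ v))
      · simp only [if_pos hC, Finset.sum_const, Finset.card_range, nsmul_eq_mul]
        rw [← Finset.mul_sum]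
        have h3 : ∑ i ∈ Finset.range p, NewDec_G d b (u + ((d / p : ℕ) : ℤ) * i) = 0 := by
          unfold NewDec_G
          rw [Finset.sum_comm]
          apply Finset.sum_eq_zero
          intro k hk
          rw [← Finset.mul_sum, NewDec_fibre hk hp hpd (NewDec_not_dvd hk hp h2 hpd) hb u, mul_zero]
        rw [h3, mul_zero]
      · simp only [if_neg hC, Finset.sum_const_zero]
    · -- case B
      obtain ⟨i0, hi0, hi0'⟩ := NewDec_exists_i (d := d) hp h2 u
      obtain ⟨j0, hj0, hj0'⟩ := NewDec_exists_i (d := d) hp h2 v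
      have hcond : ∀ i ∈ Finset.range p, ∀ j ∈ Finset.range p,
          ((∀ r : ℕ, r.Prime → r ∣ d → ¬ ((r : ℤ) ∣ u + ((d / p : ℕ) : ℤ) * i ∧
          (r : ℤ) ∣ v + ((d / p : ℕ) : ℤ) * j)) ↔
          ((∀ r : ℕ, r.Prime → r ∣ d → r ≠ p → ¬ ((r : ℤ) ∣ u ∧ (r : ℤ) ∣ v)) ∧
            ¬ (i = i0 ∧ j = j0))) := by
        intro i hi j hj
        have hi' := hi0' i (Finset.mem_range.1 hi)
        have hj' := hj0' j (Finset.mem_range.1 hj)
        constructor
        · intro h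
          refine ⟨fun r hr hrd hrp => ?_, ?_⟩
          · have := h r hr hrd
            rwa [hdiv r hr hrd (Or.inl hrp), hdiv r hr hrd (Or.inl hrp)] at this
          · have := h p hp hpd
            rwa [hi', hj'] at this
        · rintro ⟨h, h'⟩ r hr hrd
          by_cases hrp : r = p
          · subst hrp
            rwa [hi', hj']
          · rw [hdiv r hr hrd (Or.inl hrp), hdiv r hr hrd (Or.inl hrp)]
            exact h r hr hrd hrp
      rw [Finset.sum_congr rfl (fun i hi => Finset.sum_congr rfl (fun j hj => by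
        rw [if_congr (hcond i hi j hj) rfl rfl]))]
      by_cases hC : (∀ r : ℕ, r.Prime → r ∣ d → r ≠ p → ¬ ((r : ℤ) ∣ u ∧ (r : ℤ) ∣ v))
      · have h3 : ∀ i ∈ Finset.range p, ∀ j ∈ Finset.range p,
            (if (∀ r : ℕ, r.Prime → r ∣ d → r ≠ p → ¬ ((r : ℤ) ∣ u ∧ (r : ℤ) ∣ v)) ∧
              ¬ (i = i0 ∧ j = j0) then NewDec_G d b (u + ((d / p : ℕ) : ℤ) * i) else 0) =
            NewDec_G d b (u + ((d / p : ℕ) : ℤ) * i) -
              (if i = i0 then (if j = j0 then NewDec_G d b (u + ((d / p : ℕ) : ℤ) * i0) else 0)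
                else 0) := by
          intro i _ j _
          by_cases h4 : i = i0
          · by_cases h5 : j = j0
            · rw [if_neg (by tauto), if_pos h4, if_pos h5, h4, sub_self]
            · rw [if_pos ⟨hC, by tauto⟩, if_pos h4, if_neg h5, sub_zero]
          · rw [if_pos ⟨hC, by tauto⟩, if_neg h4, sub_zero]
        rw [Finset.sum_congr rfl (fun i hi => Finset.sum_congr rfl (fun j hj => h3 i hi j hj))]
        simp only [Finset.sum_sub_distrib, Finset.sum_const, Finset.card_range, nsmul_eq_mul]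
        rw [← Finset.mul_sum, NewDec_fibre_B hd hp hpd h2 hb u ((hi0' i0 hi0).2 rfl)]
        have h6 : ∑ i ∈ Finset.range p, ∑ j ∈ Finset.range p,
            (if i = i0 then (if j = j0 then NewDec_G d b (u + ((d / p : ℕ) : ℤ) * i0) else 0)
                else 0) = NewDec_G d b (u + ((d / p : ℕ) : ℤ) * i0) := by
          rw [Finset.sum_eq_single i0]
          · simp only [if_true]
            rw [Finset.sum_eq_single j0]
            · simp
            · intro j _ hj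
              rw [if_neg hj]
            · intro h
              exact absurd (Finset.mem_range.2 hj0) h
          · intro i _ hi
            simp [if_neg hi]
          · intro h
            exact absurd (Finset.mem_range.2 hi0) h
        rw [h6, sub_self]
      · have h3 : ∀ i ∈ Finset.range p, ∀ j ∈ Finset.range p,
            (if (∀ r : ℕ, r.Prime → r ∣ d → r ≠ p → ¬ ((r : ℤ) ∣ u ∧ (r : ℤ) ∣ v)) ∧
              ¬ (i = i0 ∧ j = j0) then NewDec_G d b (u + ((d / p : ℕ) : ℤ) * i) else 0) = 0 := by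
          intro i _ j _
          rw [if_neg (by tauto)]
        rw [Finset.sum_congr rfl (fun i hi => Finset.sum_congr rfl (fun j hj => h3 i hi j hj))]
        simp

/-! ### the decomposition -/

theorem NewDec_pair_mem {q m k : ℕ} (hm : m ∈ simpleDiv q) (hk : k ∈ simpleDiv (q / m)) :
    m * k ∈ simpleDiv q ∧ Nat.Coprime m k := by
  obtain ⟨g1, g2, g3, g4⟩ := NewDec_mem.1 hm
  obtain ⟨k1, k2, k3, k4⟩ := NewDec_mem.1 hk
  have hcop : Nat.Coprime m k := Nat.Coprime.coprime_dvd_right k1 g4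
  refine ⟨NewDec_mem.2 ⟨?_, g2, (Nat.squarefree_mul hcop).2 ⟨g3, k3⟩, ?_⟩, hcop⟩
  · have h7 : q = m * (q / m) := (Nat.mul_div_cancel' g1).symm
    rw [h7]
    exact mul_dvd_mul (dvd_refl m) k1
  · rw [← Nat.div_div_eq_div_mul]
    exact Nat.Coprime.mul_left (Nat.Coprime.coprime_dvd_right (Nat.div_dvd_of_dvd k1) g4) k4

theorem NewDec_of_dvd {q l m : ℕ} (hl : l ∈ simpleDiv q) (hm : m ∣ l) :
    m ∈ simpleDiv q ∧ l / m ∈ simpleDiv (q / m) := by
  obtain ⟨g1, g2, g3, g4⟩ := NewDec_mem.1 hl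
  obtain ⟨k, rfl⟩ := hm
  have hm0 : 0 < m := Nat.pos_of_ne_zero (fun h => by
    subst h; rw [zero_mul] at g1; exact g2 (Nat.eq_zero_of_zero_dvd g1))
  rw [Nat.mul_div_cancel_left _ hm0]
  have hcop : Nat.Coprime m k := Nat.coprime_of_squarefree_mul g3
  obtain ⟨s1, s2⟩ := (Nat.squarefree_mul hcop).1 g3
  have hmq : m ∣ q := (Dvd.intro _ rfl).trans g1
  obtain ⟨c, hc⟩ := g1
  have h1 : q / m = k * c := Nat.div_eq_of_eq_mul_right hm0 (by rw [hc]; ring)
  have hk0 : 0 < k := Nat.pos_of_ne_zero (fun h => by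
    subst h; rw [mul_zero, zero_mul] at hc; exact g2 hc)
  have h2 : q / (m * k) = c := Nat.div_eq_of_eq_mul_right (Nat.mul_pos hm0 hk0) hc
  rw [h2] at g4
  have c1 : Nat.Coprime m c := Nat.Coprime.coprime_mul_right g4
  have c2 : Nat.Coprime k c := Nat.Coprime.coprime_mul_left g4
  have hc0 : c ≠ 0 := fun h => by subst h; rw [mul_zero] at hc; exact g2 hc
  refine ⟨NewDec_mem.2 ⟨hmq, g2, s1, ?_⟩, NewDec_mem.2 ⟨?_, ?_, s2, ?_⟩⟩
  · rw [h1]; exact Nat.Coprime.mul_right hcop c1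
  · rw [h1]; exact Dvd.intro _ rfl
  · rw [h1]; exact mul_ne_zero hk0.ne' hc0
  · rw [h1, Nat.mul_div_cancel_left _ hk0]; exact c2

theorem NewDec_reindex (q : ℕ) (f : ℕ → ℕ → ℂ) :
    ∑ m ∈ simpleDiv q, ∑ k ∈ simpleDiv (q / m), f m (m * k) =
      ∑ l ∈ simpleDiv q, ∑ m ∈ Nat.divisors l, f m l := by
  rw [Finset.sum_sigma', Finset.sum_sigma']
  apply Finset.sum_bij' (fun x _ => (⟨x.1 * x.2, x.1⟩ : Σ _ : ℕ, ℕ))
    (fun y _ => (⟨y.2, y.1 / y.2⟩ : Σ _ : ℕ, ℕ))
  · rintro ⟨m, k⟩ h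
    obtain ⟨h1, h2⟩ := Finset.mem_sigma.1 h
    have h3 := (NewDec_pair_mem h1 h2).1
    refine Finset.mem_sigma.2 ⟨h3, ?_⟩
    rw [Nat.mem_divisors]
    refine ⟨Dvd.intro _ rfl, ?_⟩
    intro h0
    have h4 := NewDec_mem.1 h3
    simp only at h0
    rw [h0] at h4
    exact h4.2.1 (Nat.eq_zero_of_zero_dvd h4.1)
  · rintro ⟨l, m⟩ h
    obtain ⟨h1, h2⟩ := Finset.mem_sigma.1 h
    exact Finset.mem_sigma.2 (NewDec_of_dvd h1 (Nat.dvd_of_mem_divisors h2))
  · rintro ⟨m, k⟩ h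
    obtain ⟨h1, h2⟩ := Finset.mem_sigma.1 h
    simp only at h1 h2 ⊢
    have hm0 : 0 < m := by
      have h4 := NewDec_mem.1 h1
      exact Nat.pos_of_dvd_of_pos h4.1 (Nat.pos_of_ne_zero h4.2.1)
    rw [Nat.mul_div_cancel_left _ hm0]
  · rintro ⟨l, m⟩ h
    obtain ⟨h1, h2⟩ := Finset.mem_sigma.1 h
    simp only at h1 h2 ⊢
    rw [Nat.mul_div_cancel' (Nat.dvd_of_mem_divisors h2)]
  · rintro ⟨m, k⟩ h
    rfl

theorem NewDec_moebius (l : ℕ) (hl : l ≠ 0) :
    ∑ m ∈ Nat.divisors l, ((ArithmeticFunction.moebius m : ℤ) : ℂ) = if l = 1 then 1 else 0 := by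
  have h1 : (ArithmeticFunction.moebius * (ArithmeticFunction.zeta : ArithmeticFunction ℤ)) l =
      (1 : ArithmeticFunction ℤ) l := by
    rw [ArithmeticFunction.moebius_mul_coe_zeta]
  rw [ArithmeticFunction.coe_mul_zeta_apply, ArithmeticFunction.one_apply] at h1
  have h2 := congrArg (fun z : ℤ => (z : ℂ)) h1
  simp only [Int.cast_sum] at h2
  rw [h2]
  split_ifs <;> simp

/-- new decomposition.  `u`, `v` are the coordinates of a primitive vector.
Proof: for a level `d` and `b` prime to `d` put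
`g_{d,b}(x) = [x primitive] ∑_{k ∈ simpleDiv d} (1 / psi2 k) e(b k^(-1) x_1 / (d/k))`
(`k^(-1)` inverse mod `d/k`); it is new (for `p ∣ d`, `p^2 ∣ d` every term has fibre sum zero,
for `p ∥ d` the terms `k` and `k p` cancel), `|g| ≤ ∏ p^2/(p^2-1) ≤ 2`; and
`e(a x_1/q) = ∑_{m ∈ simpleDiv q} (μ(m) / psi2 m) g_{q/m, a m^(-1)}(x)` because
`∑_{m k = l} μ(m)/(psi2 m psi2 k) = [l = 1]` for simple divisors `l`. -/
theorem new_decomposition (q : ℕ) [NeZero q] (a : ℕ) (ha : Nat.Coprime a q) :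
    ∃ H : (m : ℕ) → (ZMod (q / m) × ZMod (q / m) → ℂ),
      (∀ m ∈ simpleDiv q, IsNew (q / m) (H m) ∧ ∀ x, ‖H m x‖ ≤ 2) ∧
      (q ∈ simpleDiv q → ∀ x, H q x = 1) ∧
      ∀ u v : ℕ, Nat.Coprime u v →
        e ((a : ℝ) * u / q) = ∑ m ∈ simpleDiv q,
          ((ArithmeticFunction.moebius m : ℤ) : ℂ) / (psi2 m : ℂ) *
            H m ((u : ZMod (q / m)), (v : ZMod (q / m))) := by
  classical
  have hq := NeZero.ne q
  refine ⟨fun m => NewDec_g (q / m) ((a : ℤ) * (((m : ZMod (q / m))⁻¹).val : ℤ)), ?_, ?_, ?_⟩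
  · intro m hm
    obtain ⟨g1, g2, g3, g4⟩ := NewDec_mem.1 hm
    have hqm : q / m ≠ 0 := by
      intro h
      have := Nat.div_mul_cancel g1
      rw [h, zero_mul] at this
      exact g2 this.symm
    have : NeZero (q / m) := ⟨hqm⟩
    refine ⟨NewDec_g_new ?_, fun x => NewDec_g_norm _ x⟩
    apply IsCoprime.mul_left
    · exact Nat.isCoprime_iff_coprime.2 (Nat.Coprime.coprime_dvd_right (Nat.div_dvd_of_dvd g1) ha)
    · obtain ⟨c, hc⟩ := NewDec_idm_one hm
      refine ⟨m, -c, ?_⟩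
      have h1 : (NewDec_idm q m : ℤ) = m * (((m : ZMod (q / m))⁻¹).val : ℤ) := by
        unfold NewDec_idm; push_cast; rfl
      rw [h1] at hc
      linear_combination hc
  · intro hmem x
    have h1 : q / q = 1 := Nat.div_self (Nat.pos_of_ne_zero hq)
    revert x
    simp only
    generalize ((a : ℤ) * (((q : ZMod (q / q))⁻¹).val : ℤ)) = b
    generalize q / q = d at h1 ⊢
    subst h1
    intro x
    unfold NewDec_g
    rw [if_pos ⟨0, 0, Subsingleton.elim _ _⟩]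
    have h2 : simpleDiv 1 = {1} := by
      ext k
      rw [NewDec_mem, Finset.mem_singleton]
      constructor
      · rintro ⟨h, _⟩
        exact Nat.dvd_one.1 h
      · rintro rfl
        exact ⟨dvd_refl _, one_ne_zero, squarefree_one, by simp⟩
    rw [h2, Finset.sum_singleton, NewDec_psi2_one, NewDec_ch_dvd one_ne_zero (by simp)]
    simp
  · intro u v huv
    have hH : ∀ m ∈ simpleDiv q, NewDec_g (q / m) ((a : ℤ) * (((m : ZMod (q / m))⁻¹).val : ℤ))
        ((u : ZMod (q / m)), (v : ZMod (q / m))) =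
        ∑ k ∈ simpleDiv (q / m), (1 / (psi2 k : ℂ)) *
          NewDec_ch q ((a : ℤ) * NewDec_idm q (m * k) * u) := by
      intro m hm
      obtain ⟨g1, g2, g3, g4⟩ := NewDec_mem.1 hm
      have hqm : q / m ≠ 0 := by
        intro h
        have := Nat.div_mul_cancel g1
        rw [h, zero_mul] at this
        exact g2 this.symm
      have : NeZero (q / m) := ⟨hqm⟩
      have h1 := NewDec_g_int (d := q / m) ((a : ℤ) * (((m : ZMod (q / m))⁻¹).val : ℤ)) u v
      rw [Int.cast_natCast, Int.cast_natCast] at h1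
      rw [h1, if_pos]
      · unfold NewDec_G
        apply Finset.sum_congr rfl
        intro k hk
        congr 1
        rw [← NewDec_ch_scale hq g1]
        apply NewDec_ch_congr hq
        have h2 := NewDec_idm_mul hm hk (NewDec_pair_mem hm hk).1
        have h3 : (NewDec_idm q m : ℤ) = m * (((m : ZMod (q / m))⁻¹).val : ℤ) := by
          unfold NewDec_idm; push_cast; rfl
        rw [h3] at h2
        have h4 : (m : ℤ) * ((a : ℤ) * (((m : ZMod (q / m))⁻¹).val : ℤ) *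
            NewDec_idm (q / m) k * u) - (a : ℤ) * NewDec_idm q (m * k) * u =
            (a : ℤ) * u * (m * (((m : ZMod (q / m))⁻¹).val : ℤ) * NewDec_idm (q / m) k -
              NewDec_idm q (m * k)) := by ring
        rw [h4]
        exact Dvd.dvd.mul_left h2 _
      · have h2 := (NewDec_prim_iff (q / m) (u : ℤ) (v : ℤ)).2 (fun p hp _ h => by
          have h3 := Nat.dvd_gcd (Int.natCast_dvd_natCast.1 h.1) (Int.natCast_dvd_natCast.1 h.2)
          rw [huv] at h3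
          exact hp.one_lt.ne' (Nat.eq_one_of_dvd_one h3))
        rwa [Int.cast_natCast, Int.cast_natCast] at h2
    have hR : ∑ m ∈ simpleDiv q, ((ArithmeticFunction.moebius m : ℤ) : ℂ) / (psi2 m : ℂ) *
        NewDec_g (q / m) ((a : ℤ) * (((m : ZMod (q / m))⁻¹).val : ℤ))
        ((u : ZMod (q / m)), (v : ZMod (q / m))) =
        ∑ m ∈ simpleDiv q, ∑ k ∈ simpleDiv (q / m),
          (fun (m l : ℕ) => ((ArithmeticFunction.moebius m : ℤ) : ℂ) * ((1 / (psi2 l : ℂ)) *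
            NewDec_ch q ((a : ℤ) * NewDec_idm q l * u))) m (m * k) := by
      apply Finset.sum_congr rfl
      intro m hm
      rw [hH m hm, Finset.mul_sum]
      apply Finset.sum_congr rfl
      intro k hk
      simp only
      rw [NewDec_psi2_mul (NewDec_pair_mem hm hk).2]
      have hm0 : (psi2 m : ℂ) ≠ 0 := by exact_mod_cast (psi2_pos m).ne'
      have hk0 : (psi2 k : ℂ) ≠ 0 := by exact_mod_cast (psi2_pos k).ne'
      push_cast
      field_simp
    have hR2 := NewDec_reindex q (fun (m l : ℕ) => ((ArithmeticFunction.moebius m : ℤ) : ℂ) *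
      ((1 / (psi2 l : ℂ)) * NewDec_ch q ((a : ℤ) * NewDec_idm q l * u)))
    refine Eq.trans ?_ ((hR.trans hR2).symm)
    have hS : ∀ l ∈ simpleDiv q, ∑ m ∈ Nat.divisors l,
        ((ArithmeticFunction.moebius m : ℤ) : ℂ) * ((1 / (psi2 l : ℂ)) *
            NewDec_ch q ((a : ℤ) * NewDec_idm q l * u)) =
        if l = 1 then (1 / (psi2 l : ℂ)) * NewDec_ch q ((a : ℤ) * NewDec_idm q l * u) else 0 := by
      intro l hl
      have hl' := NewDec_mem.1 hl
      have hl0 : l ≠ 0 := fun h => hl'.2.1 (by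
        have := hl'.1
        rw [h] at this
        exact Nat.eq_zero_of_zero_dvd this)
      rw [← Finset.sum_mul, NewDec_moebius l hl0]
      split_ifs <;> simp
    rw [Finset.sum_congr rfl hS]
    have h1mem : 1 ∈ simpleDiv q :=
      NewDec_mem.2 ⟨one_dvd q, hq, squarefree_one, Nat.coprime_one_left _⟩
    rw [Finset.sum_ite_eq' (simpleDiv q) 1, if_pos h1mem, NewDec_psi2_one]
    have h5 := NewDec_idm_one h1mem
    rw [Nat.div_one] at h5
    have h6 : NewDec_ch q ((a : ℤ) * NewDec_idm q 1 * u) = NewDec_ch q ((a : ℤ) * u) := by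
      apply NewDec_ch_congr hq
      have : (a : ℤ) * NewDec_idm q 1 * u - (a : ℤ) * u = (a : ℤ) * u * (NewDec_idm q 1 - 1) := by
        ring
      rw [this]
      exact Dvd.dvd.mul_left h5 _
    rw [h6]
    unfold NewDec_ch
    push_cast
    simp

end Pool.Agent.W_f50700_h3
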