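import Pool.Agent.W_f50700_h3.ShortS
import Pool.Agent.W_f50700_h3.NewDec
import Pool.Agent.W_f50700_h3.Coll1

/-!
CorS: exponential sums over words in short windows (row 438, Corollary S).
-/

open Matrix Filter Topology

namespace Pool.Agent.W_f50700_h3

variable {A : ℕ}

/-- Corollary S -/
theorem short_exp (hA : 2 ≤ A) (hs : 2 - sexp A ≤ 1 / 50) : ∃ C : ℝ, 0 < C ∧
    ∀ (Q0 : ℕ) (ρ : ℝ), 0 < ρ → ∃ m0 R0 : ℝ, 4 ≤ R0 ∧ ∀ m ≥ m0, ∀ L : ℝ, 0 < L → R0 ≤ m / L →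
    ∀ q : ℕ, 1 ≤ q → (max (q : ℝ) (m / L)) ^ 1500 ≤ m → ∀ a : ℕ, Nat.Coprime a q →
    ‖(∑ w ∈ wordsF A (2 * m), (win m L (F w) : ℂ) * e ((a : ℝ) * (F w : ℝ) / q)) -
      (if q ≤ Q0 then (((ArithmeticFunction.moebius q : ℤ) : ℝ) / psi2 q *
        (sexp A * c0 A * m ^ (sexp A - 1) * L) : ℝ) else (0 : ℝ) : ℝ)‖ ≤
      (if q ≤ Q0 then ρ else C * (q : ℝ) ^ (-(7 / 4 : ℝ))) * (m ^ (sexp A - 1) * L) := by
  sorry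

end Pool.Agent.W_f50700_h3
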