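import Pool.Agent.W_f50700_h3.CirB
import Pool.Agent.W_f50700_h3.CorS

/-!
CirC: the near-major arcs (row 440, C2).
-/

open MeasureTheory Filter Topology

namespace Pool.Agent.W_f50700_h3

variable {A : ℕ}

/-! ### windows -/

theorem CirC_win_nonneg (m L n : ℝ) : 0 ≤ win m L n := le_max_left _ _

theorem CirC_win_le_one {L : ℝ} (hL : 0 ≤ L) (m n : ℝ) : win m L n ≤ 1 := by
  unfold win
  have : 0 ≤ |n - m| / L := by positivity
  exact max_le zero_le_one (by linarith)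

theorem CirC_win_zero {m L n : ℝ} (hL : 0 < L) (h : L ≤ |n - m|) : win m L n = 0 := by
  unfold win
  apply max_eq_left
  have : 1 ≤ |n - m| / L := by rw [le_div_iff₀ hL]; linarith
  linarith

theorem CirC_win_zero_nat {m L j : ℕ} (hL : 1 ≤ L) (h : m + L ≤ j) :
    win (m : ℝ) (L : ℝ) (j : ℝ) = 0 := by
  have hL0 : (0 : ℝ) < L := by exact_mod_cast hL
  apply CirC_win_zero hL0
  have h1 : (m : ℝ) + L ≤ j := by exact_mod_cast h
  rw [abs_of_nonneg (by linarith)]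
  linarith

theorem CirC_win_abs {m L n : ℝ} (hL : 0 < L) (h : win m L n ≠ 0) : |n - m| ≤ L := by
  by_contra h1
  exact h (CirC_win_zero hL (not_le.1 h1).le)

theorem CirC_range_eq {M N : ℕ} (h : M ≤ N) (g : ℕ → ℂ) (hg : ∀ j, M ≤ j → g j = 0) :
    ∑ j ∈ Finset.range N, g j = ∑ j ∈ Finset.range M, g j := by
  symm
  apply Finset.sum_subset (Finset.range_mono h)
  intro j _ hj
  exact hg j (by rw [Finset.mem_range, not_lt] at hj; exact hj)

/-- sums over words as sums over values -/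
theorem CirC_words {m L N : ℕ} (hL : 1 ≤ L) (hm : L ≤ m) (hN : m + L ≤ N) (g : ℕ → ℂ) :
    ∑ j ∈ Finset.range N, ((win m L j * mlt A j : ℝ) : ℂ) * g j =
      ∑ w ∈ wordsF A (2 * (m : ℝ)), (win m L (F w) : ℂ) * g (F w) := by
  have h1 := sum_words_eq (A := A) (m + L) (fun j => (win m L j : ℂ) * g j)
    (fun j hj => by
      show (win (m : ℝ) (L : ℝ) (j : ℝ) : ℂ) * g j = 0
      rw [CirC_win_zero_nat hL hj.le]
      simp) (2 * (m : ℝ)) (by
      have : (L : ℝ) ≤ m := by exact_mod_cast hm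
      push_cast
      linarith)
  rw [h1]
  have hz : ∀ j, m + L ≤ j → ((win m L j * mlt A j : ℝ) : ℂ) * g j = 0 := by
    intro j hj
    rw [CirC_win_zero_nat hL hj]
    simp
  rw [CirC_range_eq hN _ hz, ← CirC_range_eq (Nat.le_succ (m + L)) _ hz]
  apply Finset.sum_congr rfl
  intro j _
  push_cast
  ring

theorem CirC_new_one : IsNew 1 (fun _ : ZMod 1 × ZMod 1 => (1 : ℂ)) := by
  constructor
  · intro x hx
    exact absurd ⟨0, 0, Subsingleton.elim _ _⟩ hx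
  · intro p hp hpd
    exact absurd (Nat.dvd_one.1 hpd) hp.one_lt.ne'

theorem CirC_s_bounds (hA : 2 ≤ A) (hs : 2 - sexp A ≤ 1 / 50) :
    49 / 50 ≤ sexp A - 1 ∧ sexp A - 1 ≤ 1 := by
  have h1 := sexp_le_two (A := A) (by omega)
  constructor <;> linarith

/-- comparison of powers -/
theorem CirC_rpow_sub {θ x m : ℝ} (h0 : 0 ≤ θ) (h1 : θ ≤ 1) (hx : 0 ≤ x) (hm : 0 < m) :
    |x ^ θ - m ^ θ| ≤ m ^ θ * (|x - m| / m) := by
  have h2 : x ^ θ - m ^ θ = m ^ θ * ((x / m) ^ θ - 1) := by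
    rw [Real.div_rpow hx hm.le]
    have : 0 < m ^ θ := Real.rpow_pos_of_pos hm θ
    field_simp
  have h3 : |(x / m) ^ θ - 1| ≤ |x / m - 1| := by
    have hy : 0 ≤ x / m := by positivity
    rcases le_total 1 (x / m) with h | h
    · have h4 : 1 ≤ (x / m) ^ θ := Real.one_le_rpow h h0
      have h5 : (x / m) ^ θ ≤ x / m := by
        calc (x / m) ^ θ ≤ (x / m) ^ (1 : ℝ) := Real.rpow_le_rpow_of_exponent_le h h1
          _ = x / m := Real.rpow_one _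
      rw [abs_of_nonneg (by linarith), abs_of_nonneg (by linarith)]
      linarith
    · rcases hy.eq_or_lt with h6 | h6
      · rw [← h6]
        rcases h0.eq_or_lt with h7 | h7
        · rw [← h7]; simp
        · rw [Real.zero_rpow h7.ne']
      · have h4 : (x / m) ^ θ ≤ 1 := Real.rpow_le_one hy h h0
        have h5 : x / m ≤ (x / m) ^ θ := by
          calc x / m = (x / m) ^ (1 : ℝ) := (Real.rpow_one _).symm
            _ ≤ (x / m) ^ θ := Real.rpow_le_rpow_of_exponent_ge h6 h h1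
        rw [abs_of_nonpos (by linarith), abs_of_nonpos (by linarith)]
        linarith
  rw [h2, abs_mul, abs_of_pos (Real.rpow_pos_of_pos hm θ)]
  apply mul_le_mul_of_nonneg_left _ (Real.rpow_pos_of_pos hm θ).le
  have h8 : x / m - 1 = (x - m) / m := by field_simp
  rw [h8, abs_div, abs_of_pos hm] at h3
  exact h3

theorem CirC_gmod_le (A Q0 : ℕ) : ∃ C : ℝ, 0 < C ∧
    ∀ j : ℕ, |gmod A Q0 j| ≤ C * (j : ℝ) ^ (sexp A - 1) := by
  obtain ⟨C, hC, h⟩ := abs_sing_le Q0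
  refine ⟨(|sexp A * c0 A| + 1) * C, by positivity, fun j => ?_⟩
  unfold gmod
  have hj : (0 : ℝ) ≤ (j : ℝ) ^ (sexp A - 1) := by positivity
  rw [abs_mul, abs_mul, abs_of_nonneg hj]
  calc |sexp A * c0 A| * (j : ℝ) ^ (sexp A - 1) * |sing Q0 j|
      ≤ |sexp A * c0 A| * (j : ℝ) ^ (sexp A - 1) * C :=
        mul_le_mul_of_nonneg_left (h j) (by positivity)
    _ ≤ (|sexp A * c0 A| + 1) * (j : ℝ) ^ (sexp A - 1) * C := by
        apply mul_le_mul_of_nonneg_right _ hC.le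
        apply mul_le_mul_of_nonneg_right _ hj
        linarith
    _ = (|sexp A * c0 A| + 1) * C * (j : ℝ) ^ (sexp A - 1) := by ring

/-- short window upper bound for `mlt + |gmod|`: from `short_new_bound` with `q = 1`, `h = 1`. -/
theorem window_upper (hA : 2 ≤ A) (hs : 2 - sexp A ≤ 1 / 50) (Q0 : ℕ) : ∃ C : ℝ, 0 < C ∧
    ∀ m L : ℕ, 1 ≤ L → (4 : ℝ) ≤ (m : ℝ) / L → ((m : ℝ) / L) ^ 1500 ≤ m → ∀ N : ℕ, m + L ≤ N →
    ∑ j ∈ Finset.range N, win m L j * (mlt A j + |gmod A Q0 j|) ≤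
      C * (m : ℝ) ^ (sexp A - 1) * L := by
  obtain ⟨C1, hC1, h1⟩ := short_new_bound (A := A) (by omega) hs
  obtain ⟨C2, hC2, h2⟩ := CirC_gmod_le A Q0
  obtain ⟨hθ0, hθ1⟩ := CirC_s_bounds hA hs
  refine ⟨C1 + 2 * C2, by positivity, ?_⟩
  intro m L hL h4 h1500 N hN
  have hL0 : (0 : ℝ) < L := by exact_mod_cast hL
  have hmL : 4 * (L : ℝ) ≤ m := by rwa [le_div_iff₀ hL0] at h4
  have hmL' : L ≤ m := by
    have : (L : ℝ) ≤ m := by linarith
    exact_mod_cast this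
  have hm0 : (0 : ℝ) < m := by linarith
  simp only [mul_add]
  rw [Finset.sum_add_distrib]
  have e1 : ∑ j ∈ Finset.range N, win m L j * mlt A j ≤ C1 * (m : ℝ) ^ (sexp A - 1) * L := by
    have h3 := h1 1 (m : ℝ) (L : ℝ) hL0 h4 (by
      rw [Nat.cast_one, max_eq_right (by linarith)]
      exact h1500) (fun _ => 1) CirC_new_one (by simp)
    have h5 := CirC_words (A := A) hL hmL' hN (fun _ => 1)
    simp only [mul_one] at h5 h3
    rw [← h5] at h3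
    have h6 : ∑ j ∈ Finset.range N, ((win m L j * mlt A j : ℝ) : ℂ) =
        ((∑ j ∈ Finset.range N, win m L j * mlt A j : ℝ) : ℂ) := by push_cast; rfl
    rw [h6, Complex.norm_real] at h3
    have h7 := (le_abs_self _).trans h3
    simpa using h7
  have e2 : ∑ j ∈ Finset.range N, win m L j * |gmod A Q0 j| ≤
      2 * C2 * (m : ℝ) ^ (sexp A - 1) * L := by
    have h3 : ∀ j ∈ Finset.range N, win m L j * |gmod A Q0 j| ≤
        win m L j * (2 * C2 * (m : ℝ) ^ (sexp A - 1)) := by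
      intro j _
      by_cases h0 : win (m : ℝ) L j = 0
      · rw [h0]; simp
      · apply mul_le_mul_of_nonneg_left _ (CirC_win_nonneg _ _ _)
        have h5 := CirC_win_abs hL0 h0
        have h6 : (j : ℝ) ≤ 2 * m := by
          have := (le_abs_self _).trans h5
          linarith
        calc |gmod A Q0 j| ≤ C2 * (j : ℝ) ^ (sexp A - 1) := h2 j
          _ ≤ C2 * (2 * (m : ℝ)) ^ (sexp A - 1) := by
              apply mul_le_mul_of_nonneg_left _ hC2.le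
              exact Real.rpow_le_rpow (Nat.cast_nonneg j) h6 (by linarith)
          _ = C2 * ((2 : ℝ) ^ (sexp A - 1) * (m : ℝ) ^ (sexp A - 1)) := by
              rw [Real.mul_rpow (by norm_num) hm0.le]
          _ ≤ C2 * (2 * (m : ℝ) ^ (sexp A - 1)) := by
              apply mul_le_mul_of_nonneg_left _ hC2.le
              apply mul_le_mul_of_nonneg_right _ (by positivity)
              calc (2 : ℝ) ^ (sexp A - 1) ≤ (2 : ℝ) ^ (1 : ℝ) :=
                    Real.rpow_le_rpow_of_exponent_le (by norm_num) hθ1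
                _ = 2 := Real.rpow_one _
          _ = 2 * C2 * (m : ℝ) ^ (sexp A - 1) := by ring
    refine (Finset.sum_le_sum h3).trans (le_of_eq ?_)
    rw [← Finset.sum_mul, window_sum hL hmL' N hN]
    ring
  calc _ ≤ C1 * (m : ℝ) ^ (sexp A - 1) * L + 2 * C2 * (m : ℝ) ^ (sexp A - 1) * L :=
        add_le_add e1 e2
    _ = (C1 + 2 * C2) * (m : ℝ) ^ (sexp A - 1) * L := by ring

/-! ### the model in windows -/

theorem CirC_frac {q q' a a' : ℕ} (hq : 1 ≤ q) (hq' : 1 ≤ q') (ha : Nat.Coprime a q)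
    (ha' : Nat.Coprime a' q') (hlt : a' < q') :
    (q' = q ∧ a' = a % q) ∨ 1 / ((q : ℝ) * q') ≤ dist1 ((a : ℝ) / q - a' / q') := by
  have hq0 : (0 : ℝ) < q := by exact_mod_cast hq
  have hq0' : (0 : ℝ) < q' := by exact_mod_cast hq'
  set x : ℝ := (a : ℝ) / q - a' / q' with hx
  set k : ℤ := round x with hk
  set z : ℤ := (a : ℤ) * q' - a' * q - k * (q * q') with hz
  have hxz : x - k = (z : ℝ) / ((q : ℝ) * q') := by
    rw [hx, hz]
    push_cast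
    field_simp
  by_cases h0 : z = 0
  · left
    have h1 : (a : ℤ) * q' = (a' + k * q') * q := by
      rw [hz] at h0
      linear_combination h0
    have h2 : (q : ℤ) ∣ q' := by
      have h3 : (q : ℤ) ∣ (a : ℤ) * q' := by rw [h1]; exact Dvd.intro_left _ rfl
      exact (Nat.isCoprime_iff_coprime.2 ha.symm).dvd_of_dvd_mul_left h3
    have h3 : (q' : ℤ) ∣ q := by
      have h4 : (q' : ℤ) ∣ (a' + k * q') * q := by rw [← h1]; exact Dvd.intro_left _ rfl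
      have h5 : IsCoprime (q' : ℤ) ((a' : ℤ) + k * q') := by
        have := (Nat.isCoprime_iff_coprime.2 ha'.symm : IsCoprime (q' : ℤ) (a' : ℤ))
        exact this.add_mul_right_right k
      exact h5.dvd_of_dvd_mul_left h4
    have h4 : q' = q := Nat.dvd_antisymm (Int.natCast_dvd_natCast.1 h3)
      (Int.natCast_dvd_natCast.1 h2)
    refine ⟨h4, ?_⟩
    subst h4
    have hqz : (q' : ℤ) ≠ 0 := by exact_mod_cast (by omega : q' ≠ 0)
    have h5 : (a : ℤ) = a' + k * q' := mul_right_cancel₀ hqz h1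
    have h6 : ((a % q' : ℕ) : ℤ) = a' := by
      rw [Int.natCast_mod, h5, Int.add_mul_emod_self_right]
      exact_mod_cast Nat.mod_eq_of_lt hlt
    exact_mod_cast h6.symm
  · right
    unfold dist1
    rw [← hk, hxz, abs_div, abs_of_pos (by positivity : 0 < (q : ℝ) * q')]
    apply div_le_div_of_nonneg_right _ (by positivity)
    have : 1 ≤ |z| := Int.one_le_abs h0
    exact_mod_cast this

/-- window sum at an integer frequency -/
theorem CirC_W_int {m L N : ℕ} (hL : 1 ≤ L) (hm : L ≤ m) (hN : m + L ≤ N) (k : ℕ) :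
    ∑ j ∈ Finset.range N, (win m L j : ℂ) * e ((j : ℝ) * (k : ℝ)) = (L : ℂ) := by
  have h1 : ∀ j ∈ Finset.range N, (win m L j : ℂ) * e ((j : ℝ) * (k : ℝ)) = (win m L j : ℂ) := by
    intro j _
    have h2 : (j : ℝ) * (k : ℝ) = (((j * k : ℕ) : ℤ) : ℝ) := by push_cast; ring
    rw [h2, e_int, mul_one]
  rw [Finset.sum_congr rfl h1]
  have h3 := window_sum hL hm N hN
  have h4 : ((∑ j ∈ Finset.range N, win m L j : ℝ) : ℂ) = ((L : ℝ) : ℂ) := by rw [h3]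
  push_cast at h4
  exact h4

theorem CirC_coef_le (q : ℕ) (hq : 1 ≤ q) :
    |((ArithmeticFunction.moebius q : ℤ) : ℝ) / psi2 q| ≤ 2 := by
  have hpos := psi2_pos q
  rw [abs_div, abs_of_pos hpos, div_le_iff₀ hpos]
  by_cases h : Squarefree q
  · have h1 := psi2_lower h
    have h2 : (1 : ℝ) ≤ q := by exact_mod_cast hq
    have h3 : |((ArithmeticFunction.moebius q : ℤ) : ℝ)| ≤ 1 := by
      have := ArithmeticFunction.abs_moebius_le_one (n := q)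
      exact_mod_cast this
    nlinarith
  · rw [ArithmeticFunction.moebius_eq_zero_of_not_squarefree h]
    simp
    exact hpos.le

/-- the model in short windows twisted by `e(a j / q)`: main term for `q ≤ Q0`, error
`C m^(s-1) (L * (L/m) + Ξ^4 / L)` where `q ≤ Ξ` (`Ξ ≥ Q0`). -/
theorem window_model (hA : 2 ≤ A) (hs : 2 - sexp A ≤ 1 / 50) (Q0 : ℕ) : ∃ C : ℝ, 0 < C ∧
    ∀ m L : ℕ, 1 ≤ L → (4 : ℝ) ≤ (m : ℝ) / L → ∀ N : ℕ, m + L ≤ N →
    ∀ Ξ : ℝ, (Q0 : ℝ) ≤ Ξ → ∀ q : ℕ, 1 ≤ q → (q : ℝ) ≤ Ξ → ∀ a : ℕ, Nat.Coprime a q →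
    ‖(∑ j ∈ Finset.range N, ((win m L j * gmod A Q0 j : ℝ) : ℂ) * e ((a : ℝ) * j / q)) -
      (if q ≤ Q0 then (((ArithmeticFunction.moebius q : ℤ) : ℝ) / psi2 q *
        (sexp A * c0 A * (m : ℝ) ^ (sexp A - 1) * L) : ℝ) else (0 : ℝ) : ℝ)‖ ≤
      C * ((m : ℝ) ^ (sexp A - 1) * (L * (L / m) + Ξ ^ 4 / L)) := by
  classical
  obtain ⟨Cs, hCs, hsing⟩ := abs_sing_le Q0
  obtain ⟨hθ0, hθ1⟩ := CirC_s_bounds hA hs
  set K : ℝ := sexp A * c0 A with hK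
  set θ : ℝ := sexp A - 1 with hθ
  refine ⟨(|K| + 1) * (Cs + (Q0 : ℝ) ^ 2), by positivity, ?_⟩
  intro m L hL h4 N hN Ξ hΞ q hq hqΞ a ha
  have hL0 : (0 : ℝ) < L := by exact_mod_cast hL
  have hmL : 4 * (L : ℝ) ≤ m := by rwa [le_div_iff₀ hL0] at h4
  have hmL' : L ≤ m := by
    have : (L : ℝ) ≤ m := by linarith
    exact_mod_cast this
  have hm0 : (0 : ℝ) < m := by linarith
  have hmθ : 0 < (m : ℝ) ^ θ := Real.rpow_pos_of_pos hm0 θ
  have hΞ0 : 0 ≤ Ξ := (Nat.cast_nonneg q).trans hqΞ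
  set S1 : ℂ := ∑ j ∈ Finset.range N,
    ((win m L j * (K * (m : ℝ) ^ θ * sing Q0 j) : ℝ) : ℂ) * e ((a : ℝ) * j / q) with hS1
  -- first step
  have e1 : ‖(∑ j ∈ Finset.range N, ((win m L j * gmod A Q0 j : ℝ) : ℂ) *
      e ((a : ℝ) * j / q)) - S1‖ ≤ |K| * Cs * ((m : ℝ) ^ θ * (L * (L / m))) := by
    rw [hS1, ← Finset.sum_sub_distrib]
    refine (norm_sum_le _ _).trans ?_
    have h5 : ∀ j ∈ Finset.range N, ‖((win m L j * gmod A Q0 j : ℝ) : ℂ) * e ((a : ℝ) * j / q) -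
        ((win m L j * (K * (m : ℝ) ^ θ * sing Q0 j) : ℝ) : ℂ) * e ((a : ℝ) * j / q)‖ ≤
        win m L j * (|K| * Cs * ((m : ℝ) ^ θ * (L / m))) := by
      intro j _
      rw [← sub_mul, norm_mul, norm_e, mul_one, ← Complex.ofReal_sub, Complex.norm_real,
        Real.norm_eq_abs]
      have h6 : win m L j * gmod A Q0 j - win m L j * (K * (m : ℝ) ^ θ * sing Q0 j) =
          win m L j * (K * ((j : ℝ) ^ θ - (m : ℝ) ^ θ) * sing Q0 j) := by
        unfold gmod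
        rw [← hK, ← hθ]
        ring
      rw [h6, abs_mul, abs_of_nonneg (CirC_win_nonneg _ _ _)]
      by_cases h0 : win (m : ℝ) L j = 0
      · rw [h0]; simp
      · apply mul_le_mul_of_nonneg_left _ (CirC_win_nonneg _ _ _)
        have h7 := CirC_win_abs hL0 h0
        have h8 := CirC_rpow_sub (θ := θ) (x := (j : ℝ)) (m := (m : ℝ)) (by linarith) hθ1
          (Nat.cast_nonneg j) hm0
        have h9 : |(j : ℝ) ^ θ - (m : ℝ) ^ θ| ≤ (m : ℝ) ^ θ * (L / m) := by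
          refine h8.trans ?_
          apply mul_le_mul_of_nonneg_left _ hmθ.le
          exact div_le_div_of_nonneg_right h7 hm0.le
        rw [abs_mul, abs_mul]
        calc |K| * |(j : ℝ) ^ θ - (m : ℝ) ^ θ| * |sing Q0 j| ≤
              |K| * ((m : ℝ) ^ θ * (L / m)) * Cs := by
              apply mul_le_mul _ (hsing j) (abs_nonneg _) (by positivity)
              exact mul_le_mul_of_nonneg_left h9 (abs_nonneg _)
          _ = |K| * Cs * ((m : ℝ) ^ θ * (L / m)) := by ring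
    refine (Finset.sum_le_sum h5).trans (le_of_eq ?_)
    rw [← Finset.sum_mul, window_sum hL hmL' N hN]
    ring
  -- second step
  set W : ℝ → ℂ := fun x => ∑ j ∈ Finset.range N, (win m L j : ℂ) * e ((j : ℝ) * x) with hW
  have e2 : S1 = ((K * (m : ℝ) ^ θ : ℝ) : ℂ) * ∑ r ∈ Finset.Icc 1 Q0,
      ∑ b ∈ (Finset.range r).filter (fun b => Nat.Coprime b r),
        ((((ArithmeticFunction.moebius r : ℤ) : ℝ) / psi2 r : ℝ) : ℂ) *
          W ((a : ℝ) / q - b / r) := by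
    have h5 : ∀ j ∈ Finset.range N,
        ((win m L j * (K * (m : ℝ) ^ θ * sing Q0 j) : ℝ) : ℂ) * e ((a : ℝ) * j / q) =
        ((K * (m : ℝ) ^ θ : ℝ) : ℂ) * ∑ r ∈ Finset.Icc 1 Q0,
          ∑ b ∈ (Finset.range r).filter (fun b => Nat.Coprime b r),
          ((((ArithmeticFunction.moebius r : ℤ) : ℝ) / psi2 r : ℝ) : ℂ) *
            ((win m L j : ℂ) * e ((j : ℝ) * ((a : ℝ) / q - b / r))) := by
      intro j _
      have h6 : (sing Q0 j : ℂ) = ∑ r ∈ Finset.Icc 1 Q0,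
          ∑ b ∈ (Finset.range r).filter (fun b => Nat.Coprime b r),
          ((((ArithmeticFunction.moebius r : ℤ) : ℝ) / psi2 r : ℝ) : ℂ) *
            e (-((b : ℝ) * j / r)) := by
        unfold sing
        push_cast
        apply Finset.sum_congr rfl
        intro r hr
        rw [← Finset.mul_sum, ram_eq_neg r j (Finset.mem_Icc.1 hr).1]
      have h7 : ((win m L j * (K * (m : ℝ) ^ θ * sing Q0 j) : ℝ) : ℂ) * e ((a : ℝ) * j / q) =
          ((K * (m : ℝ) ^ θ : ℝ) : ℂ) * ((win m L j : ℂ) * e ((a : ℝ) * j / q) *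
            (sing Q0 j : ℂ)) := by push_cast; ring
      rw [h7, h6, Finset.mul_sum]
      congr 1
      apply Finset.sum_congr rfl
      intro r _
      rw [Finset.mul_sum]
      apply Finset.sum_congr rfl
      intro b _
      have h8 : e ((j : ℝ) * ((a : ℝ) / q - b / r)) =
          e ((a : ℝ) * j / q) * e (-((b : ℝ) * j / r)) := by
        rw [← e_add]
        congr 1
        ring
      rw [h8]
      ring
    rw [hS1, Finset.sum_congr rfl h5, ← Finset.mul_sum, Finset.sum_comm]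
    congr 1
    apply Finset.sum_congr rfl
    intro r _
    rw [Finset.sum_comm]
    apply Finset.sum_congr rfl
    intro b _
    rw [← Finset.mul_sum]
  -- the values of `W`
  have hWb : ∀ r ∈ Finset.Icc 1 Q0, ∀ b ∈ (Finset.range r).filter (fun b => Nat.Coprime b r),
      ‖W ((a : ℝ) / q - b / r) - (if r = q ∧ b = a % q then (L : ℂ) else 0)‖ ≤
        Ξ ^ 4 / (4 * L) := by
    intro r hr b hb
    obtain ⟨hr1, hrQ⟩ := Finset.mem_Icc.1 hr
    obtain ⟨hb1, hb2⟩ := Finset.mem_filter.1 hb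
    have hbr := Finset.mem_range.1 hb1
    have hq0 : (0 : ℝ) < q := by exact_mod_cast hq
    have hr0 : (0 : ℝ) < r := by exact_mod_cast hr1
    by_cases hc : r = q ∧ b = a % q
    · rw [if_pos hc]
      obtain ⟨rfl, hb'⟩ := hc
      have h5 : (a : ℝ) / r - b / r = ((a / r : ℕ) : ℝ) := by
        rw [hb']
        have h6 : (a : ℝ) = (r : ℝ) * ((a / r : ℕ) : ℝ) + ((a % r : ℕ) : ℝ) := by
          exact_mod_cast (Nat.div_add_mod a r).symm
        field_simp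
        linarith
      rw [h5]
      have h7 := CirC_W_int hL hmL' hN (a / r)
      simp only [hW]
      rw [h7, sub_self, norm_zero]
      positivity
    · rw [if_neg hc, sub_zero]
      rcases CirC_frac hq hr1 ha hb2 hbr with h5 | h5
      · exact absurd h5 hc
      · have h6 : 0 < dist1 ((a : ℝ) / q - b / r) := lt_of_lt_of_le (by positivity) h5
        have h7 := fejer_window hL hmL' N hN h6
        refine h7.trans ?_
        have h8 : 1 / (Ξ * Ξ) ≤ dist1 ((a : ℝ) / q - b / r) := by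
          refine le_trans ?_ h5
          apply one_div_le_one_div_of_le (by positivity)
          apply mul_le_mul hqΞ _ hr0.le hΞ0
          exact le_trans (by exact_mod_cast hrQ) hΞ
        have hΞp : 0 < Ξ := lt_of_lt_of_le hq0 hqΞ
        have h9 : 1 ≤ Ξ ^ 4 * dist1 ((a : ℝ) / q - b / r) ^ 2 := by
          have h10 : 1 ≤ Ξ * Ξ * dist1 ((a : ℝ) / q - b / r) := by
            rw [div_le_iff₀ (by positivity)] at h8
            linarith
          calc (1 : ℝ) ≤ (Ξ * Ξ * dist1 ((a : ℝ) / q - b / r)) ^ 2 := one_le_pow₀ h10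
            _ = Ξ ^ 4 * dist1 ((a : ℝ) / q - b / r) ^ 2 := by ring
        rw [div_le_div_iff₀ (by positivity) (by positivity)]
        nlinarith
  -- the main term
  have hmain : (∑ r ∈ Finset.Icc 1 Q0, ∑ b ∈ (Finset.range r).filter (fun b => Nat.Coprime b r),
      ((((ArithmeticFunction.moebius r : ℤ) : ℝ) / psi2 r : ℝ) : ℂ) *
        (if r = q ∧ b = a % q then (L : ℂ) else 0)) =
      if q ≤ Q0 then ((((ArithmeticFunction.moebius q : ℤ) : ℝ) / psi2 q : ℝ) : ℂ) * (L : ℂ)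
        else 0 := by
    by_cases hqQ : q ≤ Q0
    · rw [if_pos hqQ, Finset.sum_eq_single q]
      · rw [Finset.sum_eq_single (a % q)]
        · simp
        · intro b _ hb
          rw [if_neg (fun h => hb h.2), mul_zero]
        · intro h
          exfalso
          apply h
          refine Finset.mem_filter.2 ⟨Finset.mem_range.2 (Nat.mod_lt _ (by omega)), ?_⟩
          rw [Nat.Coprime, ← Nat.gcd_rec, Nat.gcd_comm]
          exact ha
      · intro r _ hr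
        apply Finset.sum_eq_zero
        intro b _
        rw [if_neg (fun h => hr h.1), mul_zero]
      · intro h
        exact absurd (Finset.mem_Icc.2 ⟨hq, hqQ⟩) h
    · rw [if_neg hqQ]
      apply Finset.sum_eq_zero
      intro r hr
      apply Finset.sum_eq_zero
      intro b _
      rw [if_neg (fun h : r = q ∧ b = a % q => hqQ (h.1 ▸ (Finset.mem_Icc.1 hr).2)), mul_zero]
  have e3 : ‖S1 - (if q ≤ Q0 then (((ArithmeticFunction.moebius q : ℤ) : ℝ) / psi2 q *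
        (K * (m : ℝ) ^ θ * L) : ℝ) else (0 : ℝ) : ℝ)‖ ≤
      |K| * (m : ℝ) ^ θ * ((Q0 : ℝ) ^ 2 * (Ξ ^ 4 / L)) := by
    have h5 : (((if q ≤ Q0 then (((ArithmeticFunction.moebius q : ℤ) : ℝ) / psi2 q *
        (K * (m : ℝ) ^ θ * L) : ℝ) else (0 : ℝ) : ℝ)) : ℂ) = ((K * (m : ℝ) ^ θ : ℝ) : ℂ) *
        (∑ r ∈ Finset.Icc 1 Q0, ∑ b ∈ (Finset.range r).filter (fun b => Nat.Coprime b r),
        ((((ArithmeticFunction.moebius r : ℤ) : ℝ) / psi2 r : ℝ) : ℂ) *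
          (if r = q ∧ b = a % q then (L : ℂ) else 0)) := by
      rw [hmain]
      split_ifs
      · push_cast
        ring
      · simp
    rw [h5, e2, ← mul_sub, norm_mul, Complex.norm_real, Real.norm_eq_abs, abs_mul,
      abs_of_pos hmθ]
    apply mul_le_mul_of_nonneg_left _ (by positivity)
    rw [← Finset.sum_sub_distrib]
    have h6 : ∀ r ∈ Finset.Icc 1 Q0,
        ‖∑ b ∈ (Finset.range r).filter (fun b => Nat.Coprime b r),
          ((((ArithmeticFunction.moebius r : ℤ) : ℝ) / psi2 r : ℝ) : ℂ) *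
            W ((a : ℝ) / q - b / r) -
        ∑ b ∈ (Finset.range r).filter (fun b => Nat.Coprime b r),
          ((((ArithmeticFunction.moebius r : ℤ) : ℝ) / psi2 r : ℝ) : ℂ) *
          (if r = q ∧ b = a % q then (L : ℂ) else 0)‖ ≤ Q0 * (Ξ ^ 4 / L) := by
      intro r hr
      obtain ⟨hr1, hrQ⟩ := Finset.mem_Icc.1 hr
      rw [← Finset.sum_sub_distrib]
      refine (norm_sum_le _ _).trans ?_
      have h7 : ∀ b ∈ (Finset.range r).filter (fun b => Nat.Coprime b r),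
          ‖((((ArithmeticFunction.moebius r : ℤ) : ℝ) / psi2 r : ℝ) : ℂ) *
            W ((a : ℝ) / q - b / r) -
          ((((ArithmeticFunction.moebius r : ℤ) : ℝ) / psi2 r : ℝ) : ℂ) *
          (if r = q ∧ b = a % q then (L : ℂ) else 0)‖ ≤ Ξ ^ 4 / L := by
        intro b hb
        rw [← mul_sub, norm_mul, Complex.norm_real, Real.norm_eq_abs]
        have h8 := hWb r hr b hb
        have h9 := CirC_coef_le r hr1
        calc |((ArithmeticFunction.moebius r : ℤ) : ℝ) / psi2 r| *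
            ‖W ((a : ℝ) / q - b / r) - (if r = q ∧ b = a % q then (L : ℂ) else 0)‖ ≤
            2 * (Ξ ^ 4 / (4 * L)) := mul_le_mul h9 h8 (norm_nonneg _) (by norm_num)
          _ = Ξ ^ 4 / L / 2 := by ring
          _ ≤ Ξ ^ 4 / L := by
              have : 0 ≤ Ξ ^ 4 / L := by positivity
              linarith
      refine (Finset.sum_le_card_nsmul _ _ _ h7).trans ?_
      rw [nsmul_eq_mul]
      apply mul_le_mul_of_nonneg_right _ (by positivity)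
      have h10 : ((Finset.range r).filter (fun b => Nat.Coprime b r)).card ≤ Q0 :=
        (Finset.card_filter_le _ _).trans (by rw [Finset.card_range]; exact hrQ)
      exact_mod_cast h10
    refine (norm_sum_le _ _).trans ((Finset.sum_le_card_nsmul _ _ _ h6).trans (le_of_eq ?_))
    rw [nsmul_eq_mul, Nat.card_Icc]
    simp only [Nat.add_sub_cancel]
    ring
  have hA1 : 0 ≤ (m : ℝ) ^ θ * (L * (L / m)) := by positivity
  have hA2 : 0 ≤ (m : ℝ) ^ θ * (Ξ ^ 4 / L) := by positivity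
  have habs := abs_nonneg K
  calc _ ≤ ‖(∑ j ∈ Finset.range N, ((win m L j * gmod A Q0 j : ℝ) : ℂ) *
      e ((a : ℝ) * j / q)) - S1‖ + ‖S1 - (if q ≤ Q0 then
        (((ArithmeticFunction.moebius q : ℤ) : ℝ) / psi2 q *
        (K * (m : ℝ) ^ θ * L) : ℝ) else (0 : ℝ) : ℝ)‖ := norm_sub_le_norm_sub_add_norm_sub _ _ _
    _ ≤ |K| * Cs * ((m : ℝ) ^ θ * (L * (L / m))) +
        |K| * (m : ℝ) ^ θ * ((Q0 : ℝ) ^ 2 * (Ξ ^ 4 / L)) := add_le_add e1 e3
    _ = |K| * Cs * ((m : ℝ) ^ θ * (L * (L / m))) +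
        |K| * (Q0 : ℝ) ^ 2 * ((m : ℝ) ^ θ * (Ξ ^ 4 / L)) := by ring
    _ ≤ (|K| + 1) * (Cs + (Q0 : ℝ) ^ 2) * ((m : ℝ) ^ θ * (L * (L / m))) +
        (|K| + 1) * (Cs + (Q0 : ℝ) ^ 2) * ((m : ℝ) ^ θ * (Ξ ^ 4 / L)) := by
        have hQ2 : 0 ≤ (Q0 : ℝ) ^ 2 := by positivity
        apply add_le_add
        · apply mul_le_mul_of_nonneg_right _ hA1
          nlinarith
        · apply mul_le_mul_of_nonneg_right _ hA2
          nlinarith
    _ = _ := by ring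

/-- the multiplicity in short windows twisted by `e(a j / q)` (reformulation of `short_exp`) -/
theorem window_mult (hA : 2 ≤ A) (hs : 2 - sexp A ≤ 1 / 50) : ∃ C : ℝ, 0 < C ∧
    ∀ (Q0 : ℕ) (ρ : ℝ), 0 < ρ → ∃ m0 R0 : ℝ, 4 ≤ R0 ∧ ∀ m L : ℕ, 1 ≤ L → m0 ≤ (m : ℝ) →
    R0 ≤ (m : ℝ) / L → ∀ N : ℕ, m + L ≤ N → ∀ q : ℕ, 1 ≤ q →
    (max (q : ℝ) ((m : ℝ) / L)) ^ 1500 ≤ m → ∀ a : ℕ, Nat.Coprime a q →
    ‖(∑ j ∈ Finset.range N, ((win m L j * mlt A j : ℝ) : ℂ) * e ((a : ℝ) * j / q)) -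
      (if q ≤ Q0 then (((ArithmeticFunction.moebius q : ℤ) : ℝ) / psi2 q *
        (sexp A * c0 A * (m : ℝ) ^ (sexp A - 1) * L) : ℝ) else (0 : ℝ) : ℝ)‖ ≤
      (if q ≤ Q0 then ρ else C * (q : ℝ) ^ (-(7 / 4 : ℝ))) * ((m : ℝ) ^ (sexp A - 1) * L) := by
  obtain ⟨C, hC, h⟩ := short_exp hA hs
  refine ⟨C, hC, ?_⟩
  intro Q0 ρ hρ
  obtain ⟨m0, R0, hR0, h'⟩ := h Q0 ρ hρ
  refine ⟨m0, R0, hR0, ?_⟩
  intro m L hL hm hR N hN q hq h1500 a ha
  have hL0 : (0 : ℝ) < L := by exact_mod_cast hL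
  have hmL : 4 * (L : ℝ) ≤ m := by
    have : (4 : ℝ) ≤ (m : ℝ) / L := hR0.trans hR
    rwa [le_div_iff₀ hL0] at this
  have hmL' : L ≤ m := by
    have : (L : ℝ) ≤ m := by linarith
    exact_mod_cast this
  have h5 := CirC_words (A := A) hL hmL' hN (fun j => e ((a : ℝ) * j / q))
  rw [h5]
  exact h' (m : ℝ) hm (L : ℝ) hL0 hR q hq h1500 a ha

/-- the transform of the weighted error -/
noncomputable def Dhat (A Q0 : ℕ) (D : WtData) (θ : ℝ) : ℂ :=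
  ∑ j ∈ (Finset.range D.N).filter (fun j => 1 ≤ j),
    ((D.ω j * (mlt A j - gmod A Q0 j) : ℝ) : ℂ) * e ((j : ℝ) * θ)

/-- coefficients around a fraction -/
noncomputable def CirC_b (A Q0 : ℕ) (D : WtData) (x : ℝ) (j : ℕ) : ℂ :=
  if 1 ≤ j then ((D.ω j * (mlt A j - gmod A Q0 j) : ℝ) : ℂ) * e ((j : ℝ) * x) else 0

theorem CirC_Dhat (A Q0 : ℕ) (D : WtData) (x β : ℝ) :
    Dhat A Q0 D (x + β) = ∑ n ∈ Finset.range D.N, CirC_b A Q0 D x n * e ((n : ℝ) * β) := by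
  unfold Dhat
  rw [Finset.sum_filter]
  apply Finset.sum_congr rfl
  intro n _
  unfold CirC_b
  split_ifs with h
  · rw [mul_assoc, ← e_add]
    congr 2
    ring
  · simp

theorem CirC_b_norm (A Q0 : ℕ) (D : WtData) (x : ℝ) (j : ℕ) :
    ‖CirC_b A Q0 D x j‖ ≤ if 1 ≤ j then mlt A j + |gmod A Q0 j| else 0 := by
  unfold CirC_b
  split_ifs with h
  · rw [norm_mul, norm_e, mul_one, Complex.norm_real, Real.norm_eq_abs, abs_mul]
    have h1 := D.bound j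
    have h2 : |mlt A j - gmod A Q0 j| ≤ mlt A j + |gmod A Q0 j| := by
      refine (abs_sub _ _).trans ?_
      rw [abs_of_nonneg (mlt_nonneg A j)]
    calc |D.ω j| * |mlt A j - gmod A Q0 j| ≤ 1 * (mlt A j + |gmod A Q0 j|) :=
          mul_le_mul h1 h2 (abs_nonneg _) zero_le_one
      _ = _ := one_mul _
  · simp

theorem CirC_small (hA : 2 ≤ A) (h1 : 1 < sexp A) (Q0 : ℕ) : ∃ C : ℝ, 0 < C ∧
    ∀ (D : WtData) (x : ℝ) (L : ℕ), 1 ≤ L → ∀ (m : ℤ) (X : ℕ), 1 ≤ X → m + L ≤ X →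
      ‖∑ n ∈ Finset.range D.N, (win m L n : ℂ) * CirC_b A Q0 D x n‖ ≤ C * (X : ℝ) ^ (sexp A) := by
  classical
  obtain ⟨C, hC, h⟩ := sum_mlt_gmod_le hA h1 Q0
  refine ⟨C, hC, ?_⟩
  intro D x L hL m X hX hmX
  have hL0 : (0 : ℝ) < L := by exact_mod_cast hL
  refine le_trans ?_ (h X hX)
  refine (norm_sum_le _ _).trans ?_
  have h2 : ∀ n ∈ Finset.range D.N, ‖(win m L n : ℂ) * CirC_b A Q0 D x n‖ ≤
      if n ∈ Finset.Icc 1 X then mlt A n + |gmod A Q0 n| else 0 := by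
    intro n _
    have h3 := CirC_b_norm A Q0 D x n
    rw [norm_mul, Complex.norm_real, Real.norm_of_nonneg (CirC_win_nonneg _ _ _)]
    by_cases h4 : n ∈ Finset.Icc 1 X
    · rw [if_pos h4]
      rw [if_pos (Finset.mem_Icc.1 h4).1] at h3
      calc win m L n * ‖CirC_b A Q0 D x n‖ ≤ 1 * (mlt A n + |gmod A Q0 n|) :=
            mul_le_mul (CirC_win_le_one hL0.le _ _) h3 (norm_nonneg _) zero_le_one
        _ = _ := one_mul _
    · rw [if_neg h4]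
      by_cases h5 : 1 ≤ n
      · have h6 : X < n := by
          by_contra h6
          exact h4 (Finset.mem_Icc.2 ⟨h5, not_lt.1 h6⟩)
        have h7 : win (m : ℝ) L n = 0 := by
          apply CirC_win_zero hL0
          have h8 : (m : ℝ) + L ≤ X := by exact_mod_cast hmX
          have h9 : (X : ℝ) < n := by exact_mod_cast h6
          rw [abs_of_nonneg (by linarith)]
          linarith
        rw [h7, zero_mul]
      · rw [if_neg h5] at h3
        have : ‖CirC_b A Q0 D x n‖ = 0 := le_antisymm h3 (norm_nonneg _)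
        rw [this, mul_zero]
  refine (Finset.sum_le_sum h2).trans ?_
  rw [← Finset.sum_filter]
  apply Finset.sum_le_sum_of_subset_of_nonneg
  · intro n hn
    exact (Finset.mem_filter.1 hn).2
  · intro n _ _
    exact add_nonneg (mlt_nonneg A n) (abs_nonneg _)

theorem CirC_large {Q0 q a m L : ℕ} {C1 C2 E Ξ θ M : ℝ} (D : WtData) (hL : 1 ≤ L)
    (hm : L ≤ m)
    (h1 : ∀ N : ℕ, m + L ≤ N → ∑ j ∈ Finset.range N, win m L j * (mlt A j + |gmod A Q0 j|) ≤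
      C1 * (m : ℝ) ^ θ * L)
    (h2 : ∀ N : ℕ, m + L ≤ N → ‖(∑ j ∈ Finset.range N, ((win m L j * gmod A Q0 j : ℝ) : ℂ) *
      e ((a : ℝ) * j / q)) - (M : ℝ)‖ ≤ C2 * ((m : ℝ) ^ θ * (L * (L / m) + Ξ ^ 4 / L)))
    (h3 : ∀ N : ℕ, m + L ≤ N → ‖(∑ j ∈ Finset.range N, ((win m L j * mlt A j : ℝ) : ℂ) *
      e ((a : ℝ) * j / q)) - (M : ℝ)‖ ≤ E * ((m : ℝ) ^ θ * L)) :
    ‖∑ n ∈ Finset.range D.N, (win ((m : ℤ) : ℝ) L n : ℂ) * CirC_b A Q0 D ((a : ℝ) / q) n‖ ≤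
      E * ((m : ℝ) ^ θ * L) + D.B * C1 * ((m : ℝ) ^ θ * (L * (L / D.N))) +
        C2 * ((m : ℝ) ^ θ * (L * (L / m) + Ξ ^ 4 / L)) := by
  have hL0 : (0 : ℝ) < L := by exact_mod_cast hL
  have hmL : (L : ℝ) ≤ m := by exact_mod_cast hm
  have hN0 : (0 : ℝ) < D.N := by exact_mod_cast D.hN
  set N' : ℕ := D.N + (m + L) with hN'
  have hN'1 : m + L ≤ N' := by omega
  have hN'2 : D.N ≤ N' := by omega
  set f : ℕ → ℂ := fun n => e ((a : ℝ) * n / q) with hf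
  have hext : ∑ n ∈ Finset.range D.N, (win ((m : ℤ) : ℝ) L n : ℂ) *
      CirC_b A Q0 D ((a : ℝ) / q) n = ∑ n ∈ Finset.range N',
      (((win m L n * (mlt A n - gmod A Q0 n)) * D.ω n : ℝ) : ℂ) * f n := by
    have hz : ∀ j, D.N ≤ j → (((win m L j * (mlt A j - gmod A Q0 j)) * D.ω j : ℝ) : ℂ) * f j
        = 0 := by
      intro j hj
      rw [D.zero j hj]
      simp
    rw [CirC_range_eq hN'2 _ hz]
    apply Finset.sum_congr rfl
    intro n _
    unfold CirC_b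
    rw [Int.cast_natCast]
    by_cases hn : 1 ≤ n
    · rw [if_pos hn]
      simp only [hf]
      have h5 : (n : ℝ) * ((a : ℝ) / q) = (a : ℝ) * n / q := by ring
      rw [h5]
      push_cast
      ring
    · have hn0 : n = 0 := by omega
      subst hn0
      have h5 : win (m : ℝ) (L : ℝ) ((0 : ℕ) : ℝ) = 0 := by
        apply CirC_win_zero hL0
        rw [Nat.cast_zero, zero_sub, abs_neg, abs_of_nonneg (by linarith)]
        exact hmL
      rw [h5]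
      simp
  rw [hext]
  set S1 : ℂ := ∑ j ∈ Finset.range N', ((win m L j * mlt A j : ℝ) : ℂ) * f j with hS1
  set S2 : ℂ := ∑ j ∈ Finset.range N', ((win m L j * gmod A Q0 j : ℝ) : ℂ) * f j with hS2
  have hsplit : ∑ n ∈ Finset.range N',
      (((win m L n * (mlt A n - gmod A Q0 n)) * D.ω n : ℝ) : ℂ) * f n =
      (D.ω m : ℂ) * ((S1 - (M : ℝ)) - (S2 - (M : ℝ))) + ∑ n ∈ Finset.range N',
        (((win m L n * (mlt A n - gmod A Q0 n)) * (D.ω n - D.ω m) : ℝ) : ℂ) * f n := by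
    have h5 : (D.ω m : ℂ) * ((S1 - (M : ℝ)) - (S2 - (M : ℝ))) = ∑ n ∈ Finset.range N',
        (((win m L n * (mlt A n - gmod A Q0 n)) * D.ω m : ℝ) : ℂ) * f n := by
      have : (D.ω m : ℂ) * ((S1 - (M : ℝ)) - (S2 - (M : ℝ))) = (D.ω m : ℂ) * (S1 - S2) := by ring
      rw [this, hS1, hS2, ← Finset.sum_sub_distrib, Finset.mul_sum]
      apply Finset.sum_congr rfl
      intro n _
      push_cast
      ring
    rw [h5, ← Finset.sum_add_distrib]
    apply Finset.sum_congr rfl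
    intro n _
    push_cast
    ring
  rw [hsplit]
  have k1 : ‖(D.ω m : ℂ) * ((S1 - (M : ℝ)) - (S2 - (M : ℝ)))‖ ≤ E * ((m : ℝ) ^ θ * L) +
      C2 * ((m : ℝ) ^ θ * (L * (L / m) + Ξ ^ 4 / L)) := by
    rw [norm_mul, Complex.norm_real, Real.norm_eq_abs]
    have h5 := norm_sub_le (S1 - (M : ℝ)) (S2 - (M : ℝ))
    have h6 := h3 N' hN'1
    have h7 := h2 N' hN'1
    calc |D.ω m| * ‖(S1 - (M : ℝ)) - (S2 - (M : ℝ))‖ ≤
        1 * (‖S1 - (M : ℝ)‖ + ‖S2 - (M : ℝ)‖) :=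
          mul_le_mul (D.bound m) h5 (norm_nonneg _) zero_le_one
      _ = ‖S1 - (M : ℝ)‖ + ‖S2 - (M : ℝ)‖ := one_mul _
      _ ≤ _ := add_le_add h6 h7
  have k2 : ‖∑ n ∈ Finset.range N',
        (((win m L n * (mlt A n - gmod A Q0 n)) * (D.ω n - D.ω m) : ℝ) : ℂ) * f n‖ ≤
      D.B * C1 * ((m : ℝ) ^ θ * (L * (L / D.N))) := by
    refine (norm_sum_le _ _).trans ?_
    have h5 : ∀ n ∈ Finset.range N',
        ‖(((win m L n * (mlt A n - gmod A Q0 n)) * (D.ω n - D.ω m) : ℝ) : ℂ) * f n‖ ≤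
        (D.B * L / D.N) * (win m L n * (mlt A n + |gmod A Q0 n|)) := by
      intro n _
      simp only [hf]
      rw [norm_mul, norm_e, mul_one, Complex.norm_real, Real.norm_eq_abs, abs_mul, abs_mul,
        abs_of_nonneg (CirC_win_nonneg _ _ _)]
      by_cases h0 : win (m : ℝ) L n = 0
      · rw [h0]; simp
      · have h6 := CirC_win_abs hL0 h0
        have h7 : |D.ω n - D.ω m| ≤ D.B * L / D.N := by
          refine (D.lip n m).trans ?_
          apply div_le_div_of_nonneg_right _ hN0.le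
          exact mul_le_mul_of_nonneg_left h6 D.hB.le
        have h8 : |mlt A n - gmod A Q0 n| ≤ mlt A n + |gmod A Q0 n| := by
          refine (abs_sub _ _).trans ?_
          rw [abs_of_nonneg (mlt_nonneg A n)]
        have h9 : 0 ≤ mlt A n + |gmod A Q0 n| := add_nonneg (mlt_nonneg A n) (abs_nonneg _)
        have h10 := CirC_win_nonneg (m : ℝ) L n
        calc win m L n * |mlt A n - gmod A Q0 n| * |D.ω n - D.ω m| ≤
            win m L n * (mlt A n + |gmod A Q0 n|) * (D.B * L / D.N) := by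
              apply mul_le_mul _ h7 (abs_nonneg _) (mul_nonneg h10 h9)
              exact mul_le_mul_of_nonneg_left h8 h10
          _ = _ := by ring
    refine (Finset.sum_le_sum h5).trans ?_
    rw [← Finset.mul_sum]
    have hB := D.hB
    calc (D.B * L / D.N) * ∑ n ∈ Finset.range N', (win m L n * (mlt A n + |gmod A Q0 n|)) ≤
        (D.B * L / D.N) * (C1 * (m : ℝ) ^ θ * L) :=
          mul_le_mul_of_nonneg_left (h1 N' hN'1) (by positivity)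
      _ = _ := by ring
  calc _ ≤ _ := norm_add_le _ _
    _ ≤ _ := add_le_add k1 k2
    _ = _ := by ring

theorem CirC_arc {s X Ξ E C3 C4 : ℝ} {L N : ℕ} (hs1 : 99 / 50 ≤ s) (hs2 : s ≤ 2)
    (hX : X = N) (hXΞ : Ξ ^ 30000 = X) (hΞ : 4 ≤ Ξ) (hL0 : 1 ≤ L)
    (hL1 : X / Ξ ^ 8 / 2 ≤ L) (hL2 : (L : ℝ) ≤ X / Ξ ^ 8)
    (_hE : 0 ≤ E) (_hC3 : 0 ≤ C3) (_hC4 : 0 ≤ C4) (b : ℕ → ℂ)
    (hsmall : ∀ m : ℤ, (m : ℝ) ≤ X / Ξ ^ 7 →
      ‖∑ n ∈ Finset.range N, (win m L n : ℂ) * b n‖ ≤ C3 * (2 * (X / Ξ ^ 7)) ^ s)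
    (hlarge : ∀ m : ℤ, X / Ξ ^ 7 < (m : ℝ) → m ≤ N + L →
      ‖∑ n ∈ Finset.range N, (win m L n : ℂ) * b n‖ ≤
        2 * X ^ (s - 1) * L * E + C4 * (X ^ (s - 1) * L / Ξ ^ 7)) :
    ∫ β in (-(1 / (2 * L)) : ℝ)..(1 / (2 * L)),
      ‖∑ n ∈ Finset.range N, b n * e ((n : ℝ) * β)‖ ^ 2 ≤
      (Real.pi ^ 2 / 4) ^ 2 * X ^ (2 * s - 1) *
        (16 * E ^ 2 + (4 * C4 ^ 2 + 192 * C3 ^ 2) / Ξ ^ 14) := by
  classical
  have hΞ0 : 0 < Ξ := by linarith
  have hΞ1 : 1 ≤ Ξ := by linarith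
  have hX0 : 0 < X := by rw [← hXΞ]; positivity
  have hLr : (1 : ℝ) ≤ L := by exact_mod_cast hL0
  have hLr0 : (0 : ℝ) < L := by linarith
  set M0 : ℝ := X / Ξ ^ 7 with hM0
  have hM00 : 0 < M0 := by positivity
  have hLM : (L : ℝ) ≤ M0 := by
    refine hL2.trans ?_
    rw [hM0]
    exact div_le_div_of_nonneg_left hX0.le (by positivity) (pow_le_pow_right₀ hΞ1 (by norm_num))
  refine (gallagher hL0 N b).trans ?_
  set P : ℝ := (Real.pi ^ 2 / 4) ^ 2 with hP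
  have hP0 : 0 ≤ P := by positivity
  set T : ℤ → ℂ := fun m => ∑ n ∈ Finset.range N, (win m L n : ℂ) * b n with hT
  have hsplit := Finset.sum_filter_add_sum_filter_not (Finset.Icc (-(L : ℤ)) (N + L))
    (fun m : ℤ => (m : ℝ) ≤ M0) (fun m => ‖T m‖ ^ 2)
  -- small part
  have hS1 : ∑ m ∈ (Finset.Icc (-(L : ℤ)) (N + L)).filter (fun m : ℤ => (m : ℝ) ≤ M0),
      ‖T m‖ ^ 2 ≤ 3 * M0 * (C3 * (2 * M0) ^ s) ^ 2 := by
    have h1 : ∀ m ∈ (Finset.Icc (-(L : ℤ)) (N + L)).filter (fun m : ℤ => (m : ℝ) ≤ M0),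
        ‖T m‖ ^ 2 ≤ (C3 * (2 * M0) ^ s) ^ 2 := by
      intro m hm
      exact pow_le_pow_left₀ (norm_nonneg _) (hsmall m (Finset.mem_filter.1 hm).2) 2
    refine (Finset.sum_le_card_nsmul _ _ _ h1).trans ?_
    rw [nsmul_eq_mul]
    apply mul_le_mul_of_nonneg_right _ (by positivity)
    have h2 : (Finset.Icc (-(L : ℤ)) (N + L)).filter (fun m : ℤ => (m : ℝ) ≤ M0) ⊆
        Finset.Icc (-(L : ℤ)) ⌊M0⌋ := by
      intro m hm
      obtain ⟨h3, h4⟩ := Finset.mem_filter.1 hm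
      exact Finset.mem_Icc.2 ⟨(Finset.mem_Icc.1 h3).1, Int.le_floor.2 h4⟩
    have h3 := Finset.card_le_card h2
    rw [Int.card_Icc] at h3
    have h4 : (((⌊M0⌋ + 1 - -(L : ℤ)).toNat : ℕ) : ℝ) ≤ M0 + 1 + L := by
      have h5 : 0 ≤ ⌊M0⌋ := Int.floor_nonneg.2 hM00.le
      have h6 : (((⌊M0⌋ + 1 - -(L : ℤ)).toNat : ℕ) : ℤ) = ⌊M0⌋ + 1 + L := by
        rw [Int.toNat_of_nonneg (by omega)]
        ring
      have h7 : (((⌊M0⌋ + 1 - -(L : ℤ)).toNat : ℕ) : ℝ) = (⌊M0⌋ : ℝ) + 1 + L := by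
        exact_mod_cast h6
      rw [h7]
      have := Int.floor_le M0
      linarith
    have h5 : (((Finset.Icc (-(L : ℤ)) (N + L)).filter (fun m : ℤ => (m : ℝ) ≤ M0)).card : ℝ) ≤
        (((⌊M0⌋ + 1 - -(L : ℤ)).toNat : ℕ) : ℝ) := by exact_mod_cast h3
    linarith
  -- large part
  have hS2 : ∑ m ∈ (Finset.Icc (-(L : ℤ)) (N + L)).filter (fun m : ℤ => ¬ (m : ℝ) ≤ M0),
      ‖T m‖ ^ 2 ≤ 2 * X * (2 * X ^ (s - 1) * L * E + C4 * (X ^ (s - 1) * L / Ξ ^ 7)) ^ 2 := by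
    have h1 : ∀ m ∈ (Finset.Icc (-(L : ℤ)) (N + L)).filter (fun m : ℤ => ¬ (m : ℝ) ≤ M0),
        ‖T m‖ ^ 2 ≤ (2 * X ^ (s - 1) * L * E + C4 * (X ^ (s - 1) * L / Ξ ^ 7)) ^ 2 := by
      intro m hm
      obtain ⟨h3, h4⟩ := Finset.mem_filter.1 hm
      exact pow_le_pow_left₀ (norm_nonneg _)
        (hlarge m (not_le.1 h4) (Finset.mem_Icc.1 h3).2) 2
    refine (Finset.sum_le_card_nsmul _ _ _ h1).trans ?_
    rw [nsmul_eq_mul]
    apply mul_le_mul_of_nonneg_right _ (by positivity)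
    have h2 : (Finset.Icc (-(L : ℤ)) (N + L)).filter (fun m : ℤ => ¬ (m : ℝ) ≤ M0) ⊆
        Finset.Icc 1 ((N : ℤ) + L) := by
      intro m hm
      obtain ⟨h3, h4⟩ := Finset.mem_filter.1 hm
      refine Finset.mem_Icc.2 ⟨?_, (Finset.mem_Icc.1 h3).2⟩
      have h5 : (0 : ℝ) < m := lt_trans hM00 (not_le.1 h4)
      have h6 : 0 < m := by exact_mod_cast h5
      omega
    have h3 := Finset.card_le_card h2
    rw [Int.card_Icc] at h3
    have h4 : ((N : ℤ) + L + 1 - 1).toNat = N + L := by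
      have : (N : ℤ) + L + 1 - 1 = ((N + L : ℕ) : ℤ) := by push_cast; ring
      rw [this, Int.toNat_natCast]
    rw [h4] at h3
    have h5 : (((Finset.Icc (-(L : ℤ)) (N + L)).filter (fun m : ℤ => ¬ (m : ℝ) ≤ M0)).card : ℝ) ≤
        ((N + L : ℕ) : ℝ) := by exact_mod_cast h3
    have h6 : (L : ℝ) ≤ X := hLM.trans (by
      rw [hM0]
      exact div_le_self hX0.le (one_le_pow₀ hΞ1))
    refine h5.trans ?_
    push_cast
    rw [← hX]
    linarith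
  have hL2' : 1 / (L : ℝ) ^ 2 ≤ 4 * Ξ ^ 16 / X ^ 2 := by
    have h1 : X / (2 * Ξ ^ 8) ≤ L := by
      have : X / Ξ ^ 8 / 2 = X / (2 * Ξ ^ 8) := by field_simp
      rw [← this]; exact hL1
    have h2 : (X / (2 * Ξ ^ 8)) ^ 2 ≤ (L : ℝ) ^ 2 := pow_le_pow_left₀ (by positivity) h1 2
    calc 1 / (L : ℝ) ^ 2 ≤ 1 / (X / (2 * Ξ ^ 8)) ^ 2 :=
          one_div_le_one_div_of_le (by positivity) h2
      _ = 4 * Ξ ^ 16 / X ^ 2 := by field_simp; ring
  have hpow1 : X ^ (2 * s - 1) = X * (X ^ (s - 1)) ^ 2 := by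
    rw [← Real.rpow_natCast (X ^ (s - 1)) 2, ← Real.rpow_mul hX0.le]
    nth_rewrite 2 [← Real.rpow_one X]
    rw [← Real.rpow_add hX0]
    congr 1
    push_cast
    ring
  -- small part, final
  have hF1 : P / (L : ℝ) ^ 2 * (3 * M0 * (C3 * (2 * M0) ^ s) ^ 2) ≤
      P * X ^ (2 * s - 1) * (192 * C3 ^ 2 / Ξ ^ 14) := by
    have h1 : ((2 * M0) ^ s) ^ 2 ≤ 16 * (M0 ^ s) ^ 2 := by
      have h2 : (2 * M0) ^ s = 2 ^ s * M0 ^ s := Real.mul_rpow (by norm_num) hM00.le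
      have h3 : (2 : ℝ) ^ s ≤ 4 := by
        calc (2 : ℝ) ^ s ≤ (2 : ℝ) ^ (2 : ℝ) :=
              Real.rpow_le_rpow_of_exponent_le (by norm_num) hs2
          _ = 4 := by norm_num
      rw [h2, mul_pow]
      apply mul_le_mul_of_nonneg_right _ (by positivity)
      calc ((2 : ℝ) ^ s) ^ 2 ≤ 4 ^ 2 := pow_le_pow_left₀ (by positivity) h3 2
        _ = 16 := by norm_num
    have h2 : M0 * (M0 ^ s) ^ 2 ≤ X ^ (1 + 2 * s) / Ξ ^ 34 := by
      have h3 : M0 * (M0 ^ s) ^ 2 = M0 ^ (1 + 2 * s) := by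
        rw [← Real.rpow_natCast (M0 ^ s) 2, ← Real.rpow_mul hM00.le]
        nth_rewrite 1 [← Real.rpow_one M0]
        rw [← Real.rpow_add hM00]
        congr 1
        push_cast
        ring
      rw [h3, hM0, Real.div_rpow hX0.le (by positivity)]
      apply div_le_div_of_nonneg_left (by positivity) (by positivity)
      rw [← Real.rpow_natCast Ξ 7, ← Real.rpow_mul hΞ0.le, ← Real.rpow_natCast Ξ 34]
      apply Real.rpow_le_rpow_of_exponent_le hΞ1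
      push_cast
      linarith
    have h3 : X ^ (1 + 2 * s) = X ^ (2 * s - 1) * X ^ 2 := by
      rw [← Real.rpow_natCast X 2, ← Real.rpow_add hX0]
      congr 1
      push_cast
      ring
    calc P / (L : ℝ) ^ 2 * (3 * M0 * (C3 * (2 * M0) ^ s) ^ 2)
        = P * (1 / (L : ℝ) ^ 2) * (3 * C3 ^ 2) * (M0 * ((2 * M0) ^ s) ^ 2) := by ring
      _ ≤ P * (4 * Ξ ^ 16 / X ^ 2) * (3 * C3 ^ 2) * (M0 * (16 * (M0 ^ s) ^ 2)) := by
          gcongr
      _ = P * (4 * Ξ ^ 16 / X ^ 2) * (3 * C3 ^ 2) * (16 * (M0 * (M0 ^ s) ^ 2)) := by ring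
      _ ≤ P * (4 * Ξ ^ 16 / X ^ 2) * (3 * C3 ^ 2) * (16 * (X ^ (1 + 2 * s) / Ξ ^ 34)) := by
          gcongr
      _ = P * X ^ (2 * s - 1) * (192 * C3 ^ 2 / Ξ ^ 18) := by
          rw [h3]
          field_simp
          ring
      _ ≤ P * X ^ (2 * s - 1) * (192 * C3 ^ 2 / Ξ ^ 14) := by
          gcongr
          norm_num
  have hF2 : P / (L : ℝ) ^ 2 *
      (2 * X * (2 * X ^ (s - 1) * L * E + C4 * (X ^ (s - 1) * L / Ξ ^ 7)) ^ 2) ≤
      P * X ^ (2 * s - 1) * (16 * E ^ 2 + 4 * C4 ^ 2 / Ξ ^ 14) := by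
    have h1 : (2 * X ^ (s - 1) * L * E + C4 * (X ^ (s - 1) * L / Ξ ^ 7)) ^ 2 ≤
        (X ^ (s - 1)) ^ 2 * (L : ℝ) ^ 2 * (8 * E ^ 2 + 2 * C4 ^ 2 / Ξ ^ 14) := by
      have h2 : (2 * X ^ (s - 1) * L * E + C4 * (X ^ (s - 1) * L / Ξ ^ 7)) =
          X ^ (s - 1) * L * (2 * E + C4 / Ξ ^ 7) := by ring
      rw [h2, mul_pow, mul_pow]
      apply mul_le_mul_of_nonneg_left _ (by positivity)
      have h3 : (C4 / Ξ ^ 7) ^ 2 = C4 ^ 2 / Ξ ^ 14 := by
        rw [div_pow]; ring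
      have h4 : 2 * C4 ^ 2 / Ξ ^ 14 = 2 * (C4 / Ξ ^ 7) ^ 2 := by rw [h3]; ring
      rw [h4]
      nlinarith [sq_nonneg (2 * E - C4 / Ξ ^ 7)]
    calc P / (L : ℝ) ^ 2 *
      (2 * X * (2 * X ^ (s - 1) * L * E + C4 * (X ^ (s - 1) * L / Ξ ^ 7)) ^ 2) ≤
        P / (L : ℝ) ^ 2 * (2 * X * ((X ^ (s - 1)) ^ 2 * (L : ℝ) ^ 2 *
          (8 * E ^ 2 + 2 * C4 ^ 2 / Ξ ^ 14))) := by
          gcongr
      _ = P * (X * (X ^ (s - 1)) ^ 2) * (16 * E ^ 2 + 4 * C4 ^ 2 / Ξ ^ 14) := by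
          field_simp
          ring
      _ = _ := by rw [hpow1]
  calc P / (L : ℝ) ^ 2 * ∑ m ∈ Finset.Icc (-(L : ℤ)) (N + L), ‖T m‖ ^ 2
      ≤ P / (L : ℝ) ^ 2 * (3 * M0 * (C3 * (2 * M0) ^ s) ^ 2 +
        2 * X * (2 * X ^ (s - 1) * L * E + C4 * (X ^ (s - 1) * L / Ξ ^ 7)) ^ 2) := by
        apply mul_le_mul_of_nonneg_left _ (by positivity)
        rw [← hsplit]
        exact add_le_add hS1 hS2
    _ = P / (L : ℝ) ^ 2 * (3 * M0 * (C3 * (2 * M0) ^ s) ^ 2) + P / (L : ℝ) ^ 2 *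
        (2 * X * (2 * X ^ (s - 1) * L * E + C4 * (X ^ (s - 1) * L / Ξ ^ 7)) ^ 2) := by ring
    _ ≤ P * X ^ (2 * s - 1) * (192 * C3 ^ 2 / Ξ ^ 14) +
        P * X ^ (2 * s - 1) * (16 * E ^ 2 + 4 * C4 ^ 2 / Ξ ^ 14) := add_le_add hF1 hF2
    _ = _ := by ring

/-- the sum over the denominators -/
theorem CirC_q_sum {C ρ' : ℝ} {Q0 : ℕ} (hQ0 : 1 ≤ Q0) (K : ℕ) :
    ∑ q ∈ Finset.Icc 1 K, (q : ℝ) *
      (if q ≤ Q0 then ρ' else C * (q : ℝ) ^ (-(7 / 4 : ℝ))) ^ 2 ≤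
      (Q0 : ℝ) ^ 2 * ρ' ^ 2 + 2 * C ^ 2 * (Q0 : ℝ) ^ (-(1 / 2) : ℝ) := by
  classical
  have hQr : (0 : ℝ) < Q0 := by exact_mod_cast hQ0
  have h1 : ∀ q ∈ Finset.Icc 1 K, (q : ℝ) *
      (if q ≤ Q0 then ρ' else C * (q : ℝ) ^ (-(7 / 4 : ℝ))) ^ 2 ≤
      (if q ∈ Finset.Icc 1 Q0 then (Q0 : ℝ) * ρ' ^ 2 else 0) +
        C ^ 2 * (Q0 : ℝ) ^ (-(1 / 2) : ℝ) * ((q : ℝ) ^ 2)⁻¹ := by
    intro q hq
    obtain ⟨hq1, _⟩ := Finset.mem_Icc.1 hq
    have hq0 : (0 : ℝ) < q := by exact_mod_cast hq1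
    by_cases h : q ≤ Q0
    · rw [if_pos h, if_pos (Finset.mem_Icc.2 ⟨hq1, h⟩)]
      have h2 : (q : ℝ) ≤ Q0 := by exact_mod_cast h
      have h3 : (q : ℝ) * ρ' ^ 2 ≤ Q0 * ρ' ^ 2 := mul_le_mul_of_nonneg_right h2 (sq_nonneg _)
      have h4 : 0 ≤ C ^ 2 * (Q0 : ℝ) ^ (-(1 / 2) : ℝ) * ((q : ℝ) ^ 2)⁻¹ := by positivity
      linarith
    · rw [if_neg h, if_neg (fun h' => h (Finset.mem_Icc.1 h').2), zero_add]
      have h2 : (q : ℝ) * (C * (q : ℝ) ^ (-(7 / 4 : ℝ))) ^ 2 =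
          C ^ 2 * ((q : ℝ) ^ (-(1 / 2) : ℝ) * ((q : ℝ) ^ 2)⁻¹) := by
        have h3 : ((q : ℝ) ^ (-(7 / 4 : ℝ))) ^ 2 = (q : ℝ) ^ (-(7 / 2) : ℝ) := by
          rw [← Real.rpow_natCast, ← Real.rpow_mul hq0.le]
          norm_num
        have h4 : ((q : ℝ) ^ 2)⁻¹ = (q : ℝ) ^ (-(2 : ℝ)) := by
          rw [Real.rpow_neg hq0.le]
          congr 1
          exact_mod_cast (Real.rpow_natCast (q : ℝ) 2).symm
        have h5 : (q : ℝ) * (q : ℝ) ^ (-(7 / 2) : ℝ) = (q : ℝ) ^ (-(5 / 2) : ℝ) := by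
          nth_rewrite 1 [← Real.rpow_one (q : ℝ)]
          rw [← Real.rpow_add hq0]
          norm_num
        rw [mul_pow, h3, h4, ← Real.rpow_add hq0]
        calc (q : ℝ) * (C ^ 2 * (q : ℝ) ^ (-(7 / 2) : ℝ)) =
            C ^ 2 * ((q : ℝ) * (q : ℝ) ^ (-(7 / 2) : ℝ)) := by ring
          _ = _ := by rw [h5]; norm_num
      rw [h2, mul_assoc]
      apply mul_le_mul_of_nonneg_left _ (sq_nonneg _)
      apply mul_le_mul_of_nonneg_right _ (by positivity)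
      apply Real.rpow_le_rpow_of_nonpos hQr
      · exact_mod_cast (not_le.1 h).le
      · norm_num
  refine (Finset.sum_le_sum h1).trans ?_
  rw [Finset.sum_add_distrib]
  apply add_le_add
  · rw [← Finset.sum_filter]
    refine (Finset.sum_le_sum_of_subset_of_nonneg (t := Finset.Icc 1 Q0) (fun q hq =>
      (Finset.mem_filter.1 hq).2) (fun _ _ _ => by positivity)).trans (le_of_eq ?_)
    rw [Finset.sum_const, Nat.card_Icc, nsmul_eq_mul]
    simp only [Nat.add_sub_cancel]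
    ring
  · rw [← Finset.mul_sum]
    have h2 : ∑ q ∈ Finset.Icc 1 K, ((q : ℝ) ^ 2)⁻¹ ≤ 2 := by
      have h3 := sum_Ioo_inv_sq_le (α := ℝ) 0 (K + 1)
      have h4 : Finset.Ioo 0 (K + 1) = Finset.Icc 1 K := by
        ext x
        simp only [Finset.mem_Ioo, Finset.mem_Icc]
        omega
      rw [h4] at h3
      norm_num at h3
      exact h3
    calc C ^ 2 * (Q0 : ℝ) ^ (-(1 / 2) : ℝ) * ∑ q ∈ Finset.Icc 1 K, ((q : ℝ) ^ 2)⁻¹ ≤
        C ^ 2 * (Q0 : ℝ) ^ (-(1 / 2) : ℝ) * 2 := mul_le_mul_of_nonneg_left h2 (by positivity)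
      _ = _ := by ring

/-- C2.  `κ = 1/30000`, `Ξ = N^κ`, `L = ⌊N / Ξ^8⌋`.  The total mean square of the weighted error
over the arcs `|β| ≤ 1/(2L)` around all `a/q`, `q ≤ Ξ`, is at most `ρ N^(2s-1)` for `Q0 ≥ Q1(ρ)`
and `N ≥ N0(ρ, Q0)`. -/
theorem near_major (hA : 2 ≤ A) (hs : 2 - sexp A ≤ 1 / 50) (B : ℝ) (hB : 0 < B) (ρ : ℝ)
    (hρ : 0 < ρ) : ∃ Q1 : ℕ, ∀ Q0 ≥ Q1, ∃ N0 : ℕ, ∀ (D : WtData), D.B = B → N0 ≤ D.N →
    ∑ q ∈ Finset.Icc 1 ⌊(D.N : ℝ) ^ (1 / 30000 : ℝ)⌋₊,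
      ∑ a ∈ (Finset.range q).filter (fun a => Nat.Coprime a q),
      ∫ β in (-(1 / (2 * (⌊(D.N : ℝ) ^ (1 - 8 / 30000 : ℝ)⌋₊ : ℝ))) : ℝ)..(1 / (2 *
        (⌊(D.N : ℝ) ^ (1 - 8 / 30000 : ℝ)⌋₊ : ℝ))),
        ‖Dhat A Q0 D ((a : ℝ) / q + β)‖ ^ 2 ≤ ρ * (D.N : ℝ) ^ (2 * sexp A - 1) := by
  classical
  obtain ⟨hθ0, hθ1⟩ := CirC_s_bounds hA hs
  have hs1 : 99 / 50 ≤ sexp A := by linarith
  have hs2 : sexp A ≤ 2 := by linarith
  set P : ℝ := (Real.pi ^ 2 / 4) ^ 2 with hP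
  have hP0 : 0 < P := by positivity
  obtain ⟨C, hC, hmult⟩ := window_mult hA hs
  -- choice of `Q1`
  obtain ⟨Q1, hQ1⟩ : ∃ Q1 : ℕ, 1 ≤ Q1 ∧ ∀ Q0 ≥ Q1,
      P * (16 * (2 * C ^ 2 * (Q0 : ℝ) ^ (-(1 / 2) : ℝ))) ≤ ρ / 3 := by
    set c : ℝ := 96 * P * C ^ 2 / ρ with hc
    have hc0 : 0 < c := by positivity
    obtain ⟨n, hn⟩ := exists_nat_ge (c ^ 2)
    refine ⟨n + 1, by omega, ?_⟩
    intro Q0 hQ0
    have h1 : c ^ 2 ≤ (Q0 : ℝ) := by
      have : ((n + 1 : ℕ) : ℝ) ≤ Q0 := by exact_mod_cast hQ0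
      push_cast at this
      linarith
    have h2 : c ≤ Real.sqrt Q0 := Real.le_sqrt_of_sq_le h1
    have h3 : (Q0 : ℝ) ^ (-(1 / 2) : ℝ) ≤ 1 / c := by
      rw [Real.rpow_neg (Nat.cast_nonneg _), ← Real.sqrt_eq_rpow, ← one_div]
      exact one_div_le_one_div_of_le hc0 h2
    calc P * (16 * (2 * C ^ 2 * (Q0 : ℝ) ^ (-(1 / 2) : ℝ))) ≤
        P * (16 * (2 * C ^ 2 * (1 / c))) := by gcongr
      _ = ρ / 3 := by
          rw [hc]
          field_simp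
          norm_num
  refine ⟨Q1, ?_⟩
  intro Q0 hQ0
  have hQ01 : 1 ≤ Q0 := hQ1.1.trans hQ0
  have hQr : (0 : ℝ) < Q0 := by exact_mod_cast hQ01
  -- choice of `ρ'`
  set ρ' : ℝ := Real.sqrt (ρ / (48 * P)) / Q0 with hρ'
  have hρ'0 : 0 < ρ' := by positivity
  have hρ'1 : P * (16 * ((Q0 : ℝ) ^ 2 * ρ' ^ 2)) ≤ ρ / 3 := by
    apply le_of_eq
    rw [hρ', div_pow, Real.sq_sqrt (by positivity)]
    field_simp
    norm_num
  obtain ⟨m0, R0, hR0, hmult'⟩ := hmult Q0 ρ' hρ'0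
  obtain ⟨C1, hC1, hupper⟩ := window_upper hA hs Q0
  obtain ⟨C2, hC2, hmodel⟩ := window_model hA hs Q0
  obtain ⟨C3, hC3, hsmall⟩ := CirC_small hA (by linarith : 1 < sexp A) Q0
  set C4 : ℝ := 2 * B * C1 + 3 * C2 with hC4
  have hC40 : 0 < C4 := by positivity
  -- choice of the size
  set Ξ0 : ℝ := 4 + Q0 + |m0| + R0 + 3 * P * (4 * C4 ^ 2 + 192 * C3 ^ 2) / ρ with hΞ0def
  obtain ⟨N0, hN0⟩ : ∃ N0 : ℕ, ∀ N : ℕ, N0 ≤ N → Ξ0 ≤ (N : ℝ) ^ (1 / 30000 : ℝ) := by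
    have h1 : Tendsto (fun x : ℝ => x ^ (1 / 30000 : ℝ)) atTop atTop :=
      tendsto_rpow_atTop (by norm_num)
    have h2 := (h1.comp tendsto_natCast_atTop_atTop).eventually_ge_atTop Ξ0
    obtain ⟨N0, h3⟩ := eventually_atTop.1 h2
    exact ⟨N0, fun N hN => h3 N hN⟩
  refine ⟨N0, ?_⟩
  intro D hDB hDN
  set X : ℝ := (D.N : ℝ) with hX
  set Ξ : ℝ := X ^ (1 / 30000 : ℝ) with hΞ
  have hΞ0 : Ξ0 ≤ Ξ := hN0 D.N hDN
  have hterm0 : 0 ≤ 3 * P * (4 * C4 ^ 2 + 192 * C3 ^ 2) / ρ := by positivity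
  have habs := abs_nonneg m0
  have hQn : (0 : ℝ) ≤ Q0 := hQr.le
  have hΞ4 : 4 ≤ Ξ := by linarith
  have hΞQ : (Q0 : ℝ) ≤ Ξ := by linarith
  have hΞm : m0 ≤ Ξ := by
    have := le_abs_self m0
    linarith
  have hΞR : R0 ≤ Ξ := by linarith
  have hΞρ : 3 * P * (4 * C4 ^ 2 + 192 * C3 ^ 2) / ρ ≤ Ξ := by linarith
  have hΞpos : 0 < Ξ := by linarith
  have hΞ1 : 1 ≤ Ξ := by linarith
  have hX1 : 1 ≤ X := by
    rw [hX]
    exact_mod_cast D.hN
  have hX0 : 0 < X := by linarith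
  have hXΞ : Ξ ^ 30000 = X := by
    rw [hΞ, ← Real.rpow_natCast, ← Real.rpow_mul hX0.le]
    norm_num
  set L : ℕ := ⌊X ^ (1 - 8 / 30000 : ℝ)⌋₊ with hL
  have hXL : X ^ (1 - 8 / 30000 : ℝ) = X / Ξ ^ 8 := by
    rw [Real.rpow_sub hX0, Real.rpow_one]
    congr 1
    rw [hΞ, ← Real.rpow_natCast, ← Real.rpow_mul hX0.le]
    norm_num
  have hpow : ∀ a b : ℕ, a + b = 30000 → X / Ξ ^ a = Ξ ^ b := by
    intro a b hab
    rw [div_eq_iff (by positivity), ← pow_add, add_comm b a, hab, hXΞ]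
  have hX8 : X / Ξ ^ 8 = Ξ ^ 29992 := hpow 8 29992 (by norm_num)
  have hX7 : X / Ξ ^ 7 = Ξ ^ 29993 := hpow 7 29993 (by norm_num)
  have hbig : ∀ k : ℕ, k ≠ 0 → Ξ ≤ Ξ ^ k := fun k hk => le_self_pow₀ hΞ1 hk
  have hX8' : 4 ≤ X / Ξ ^ 8 := by rw [hX8]; exact hΞ4.trans (hbig _ (by norm_num))
  have hL2 : (L : ℝ) ≤ X / Ξ ^ 8 := by
    rw [← hXL, hL]
    exact Nat.floor_le (by positivity)
  have hL1 : X / Ξ ^ 8 / 2 ≤ L := by
    have h1 : X ^ (1 - 8 / 30000 : ℝ) < L + 1 := Nat.lt_floor_add_one _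
    rw [hXL] at h1
    linarith
  have hL1' : (1 : ℝ) ≤ L := by linarith
  have hLn : 1 ≤ L := by exact_mod_cast hL1'
  have hL0 : (0 : ℝ) < L := by linarith
  set M0 : ℝ := X / Ξ ^ 7 with hM0
  have hM00 : 0 < M0 := by positivity
  have hM08 : M0 = Ξ * (X / Ξ ^ 8) := by
    rw [hM0]
    field_simp
  have hLM : Ξ * L ≤ M0 := by
    rw [hM08]
    exact mul_le_mul_of_nonneg_left hL2 hΞpos.le
  have hLM' : (L : ℝ) ≤ M0 := by nlinarith
  have hM1 : 1 ≤ M0 := by linarith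
  have hMX : M0 ≤ X := by
    rw [hM0]
    exact div_le_self hX0.le (one_le_pow₀ hΞ1)
  -- the arcs
  have harc : ∀ q ∈ Finset.Icc 1 ⌊Ξ⌋₊, ∀ a ∈ (Finset.range q).filter (fun a => Nat.Coprime a q),
      ∫ β in (-(1 / (2 * (L : ℝ))) : ℝ)..(1 / (2 * (L : ℝ))),
        ‖Dhat A Q0 D ((a : ℝ) / q + β)‖ ^ 2 ≤
      P * X ^ (2 * sexp A - 1) *
        (16 * (if q ≤ Q0 then ρ' else C * (q : ℝ) ^ (-(7 / 4 : ℝ))) ^ 2 +
          (4 * C4 ^ 2 + 192 * C3 ^ 2) / Ξ ^ 14) := by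
    intro q hq a ha
    obtain ⟨hq1, hq2⟩ := Finset.mem_Icc.1 hq
    have hqΞ : (q : ℝ) ≤ Ξ := (Nat.le_floor_iff hΞpos.le).1 hq2
    have haq : Nat.Coprime a q := (Finset.mem_filter.1 ha).2
    have hq0 : (0 : ℝ) < q := by exact_mod_cast hq1
    set E : ℝ := (if q ≤ Q0 then ρ' else C * (q : ℝ) ^ (-(7 / 4 : ℝ))) with hE
    have hE0 : 0 ≤ E := by
      rw [hE]
      split_ifs <;> positivity
    have hint : ∀ β : ℝ, Dhat A Q0 D ((a : ℝ) / q + β) =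
        ∑ n ∈ Finset.range D.N, CirC_b A Q0 D ((a : ℝ) / q) n * e ((n : ℝ) * β) :=
      fun β => CirC_Dhat A Q0 D _ β
    simp only [hint]
    apply CirC_arc hs1 hs2 hX hXΞ hΞ4 hLn hL1 hL2 hE0 hC3.le hC40.le
    · intro m hm
      -- small `m`
      have h1 : 1 ≤ ⌊2 * M0⌋₊ := by
        rw [Nat.one_le_floor_iff]
        linarith
      have h2a : m + (L : ℤ) ≤ ⌊2 * M0⌋ := by
        apply Int.le_floor.2
        rw [Int.cast_add, Int.cast_natCast]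
        linarith
      have h2b : ((⌊2 * M0⌋₊ : ℕ) : ℤ) = ⌊2 * M0⌋ :=
        Int.natCast_floor_eq_floor (by positivity)
      have h2 : m + (L : ℤ) ≤ ((⌊2 * M0⌋₊ : ℕ) : ℤ) := by
        rw [h2b]
        exact h2a
      have h3 := hsmall D ((a : ℝ) / q) L hLn m ⌊2 * M0⌋₊ h1 h2
      refine h3.trans ?_
      apply mul_le_mul_of_nonneg_left _ hC3.le
      apply Real.rpow_le_rpow (Nat.cast_nonneg _) (Nat.floor_le (by positivity)) (by linarith)
    · intro m hm hmN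
      -- large `m`
      have hm0 : (0 : ℝ) < m := lt_trans hM00 hm
      have hm0' : 0 < m := by exact_mod_cast hm0
      obtain ⟨k, rfl⟩ := Int.eq_ofNat_of_zero_le hm0'.le
      have hkr : M0 < (k : ℝ) := by exact_mod_cast hm
      have hk0 : (0 : ℝ) < k := by linarith
      have hkN : (k : ℝ) ≤ 2 * X := by
        have h1 : (k : ℝ) ≤ D.N + L := by exact_mod_cast hmN
        linarith
      have hkL : Ξ ≤ (k : ℝ) / L := by
        rw [le_div_iff₀ hL0]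
        linarith
      have hkL4 : (4 : ℝ) ≤ (k : ℝ) / L := hΞ4.trans hkL
      have hkL2 : (k : ℝ) / L ≤ Ξ ^ 9 := by
        have h1 : (k : ℝ) / L ≤ (2 * X) / (X / Ξ ^ 8 / 2) :=
          div_le_div₀ (by positivity) hkN (by positivity) hL1
        have h2 : (2 * X) / (X / Ξ ^ 8 / 2) = 4 * Ξ ^ 8 := by
          field_simp
          norm_num
        rw [h2] at h1
        calc (k : ℝ) / L ≤ 4 * Ξ ^ 8 := h1
          _ ≤ Ξ * Ξ ^ 8 := mul_le_mul_of_nonneg_right hΞ4 (by positivity)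
          _ = Ξ ^ 9 := by ring
      have hpow1500 : (Ξ ^ 9) ^ 1500 ≤ (k : ℝ) := by
        rw [← pow_mul]
        refine le_trans ?_ hkr.le
        rw [hX7]
        exact pow_le_pow_right₀ hΞ1 (by norm_num)
      have h1500 : ((k : ℝ) / L) ^ 1500 ≤ k :=
        (pow_le_pow_left₀ (by positivity) hkL2 1500).trans hpow1500
      have hmax : (max (q : ℝ) ((k : ℝ) / L)) ^ 1500 ≤ k := by
        rw [max_eq_right (hqΞ.trans hkL)]
        exact h1500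
      have hLk : L ≤ k := by
        have : (L : ℝ) ≤ k := by linarith
        exact_mod_cast this
      have hlarge := CirC_large (A := A) (Q0 := Q0) (q := q) (a := a) (m := k) (L := L)
        (C1 := C1) (C2 := C2) (E := E) (Ξ := Ξ) (θ := sexp A - 1)
        (M := (if q ≤ Q0 then (((ArithmeticFunction.moebius q : ℤ) : ℝ) / psi2 q *
          (sexp A * c0 A * (k : ℝ) ^ (sexp A - 1) * L) : ℝ) else (0 : ℝ) : ℝ)) D hLn hLk
        (fun N hN => hupper k L hLn hkL4 h1500 N hN)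
        (fun N hN => hmodel k L hLn hkL4 N hN Ξ hΞQ q hq1 hqΞ a haq)
        (fun N hN => hmult' k L hLn (by
          refine hΞm.trans (hkL.trans ?_)
          exact div_le_self hk0.le hL1') (hΞR.trans hkL) N hN q hq1 hmax a haq)
      refine hlarge.trans ?_
      have hkθ : (k : ℝ) ^ (sexp A - 1) ≤ 2 * X ^ (sexp A - 1) := by
        calc (k : ℝ) ^ (sexp A - 1) ≤ (2 * X) ^ (sexp A - 1) :=
              Real.rpow_le_rpow hk0.le hkN (by linarith)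
          _ = 2 ^ (sexp A - 1) * X ^ (sexp A - 1) := Real.mul_rpow (by norm_num) hX0.le
          _ ≤ 2 * X ^ (sexp A - 1) := by
              apply mul_le_mul_of_nonneg_right _ (by positivity)
              calc (2 : ℝ) ^ (sexp A - 1) ≤ (2 : ℝ) ^ (1 : ℝ) :=
                    Real.rpow_le_rpow_of_exponent_le (by norm_num) hθ1
                _ = 2 := Real.rpow_one _
      have hXθ : 0 < X ^ (sexp A - 1) := Real.rpow_pos_of_pos hX0 _
      have hkθ0 : 0 < (k : ℝ) ^ (sexp A - 1) := Real.rpow_pos_of_pos hk0 _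
      -- the four error terms
      have t1 : E * ((k : ℝ) ^ (sexp A - 1) * L) ≤ 2 * X ^ (sexp A - 1) * L * E := by
        calc E * ((k : ℝ) ^ (sexp A - 1) * L) ≤ E * (2 * X ^ (sexp A - 1) * L) := by gcongr
          _ = _ := by ring
      have hLN : (L : ℝ) / X ≤ 1 / Ξ ^ 7 := by
        rw [div_le_div_iff₀ hX0 (by positivity)]
        have h1 : (L : ℝ) * Ξ ^ 8 ≤ X := by
          rwa [le_div_iff₀ (by positivity)] at hL2
        have h2 : (L : ℝ) * Ξ ^ 7 ≤ L * Ξ ^ 8 :=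
          mul_le_mul_of_nonneg_left (pow_le_pow_right₀ hΞ1 (by norm_num)) hL0.le
        linarith
      have t2 : D.B * C1 * ((k : ℝ) ^ (sexp A - 1) * (L * (L / D.N))) ≤
          2 * B * C1 * (X ^ (sexp A - 1) * L / Ξ ^ 7) := by
        rw [hDB, ← hX]
        calc B * C1 * ((k : ℝ) ^ (sexp A - 1) * (L * (L / X))) ≤
            B * C1 * (2 * X ^ (sexp A - 1) * (L * (1 / Ξ ^ 7))) := by gcongr
          _ = _ := by ring
      have t3 : (k : ℝ) ^ (sexp A - 1) * (L * (L / k)) ≤ X ^ (sexp A - 1) * L / Ξ ^ 7 := by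
        have h1 : (k : ℝ) ^ (sexp A - 1) * (L * (L / k)) =
            L * L * (k : ℝ) ^ (sexp A - 1 - 1) := by
          rw [Real.rpow_sub hk0 (sexp A - 1) 1, Real.rpow_one]
          ring
        have h2 : (k : ℝ) ^ (sexp A - 1 - 1) ≤ M0 ^ (sexp A - 1 - 1) :=
          Real.rpow_le_rpow_of_nonpos hM00 hkr.le (by linarith)
        have h3 : M0 ^ (sexp A - 1 - 1) ≤ X ^ (sexp A - 1 - 1) * Ξ := by
          rw [hM0, Real.div_rpow hX0.le (by positivity), div_eq_mul_inv,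
            ← Real.rpow_neg (by positivity)]
          apply mul_le_mul_of_nonneg_left _ (by positivity)
          rw [← Real.rpow_natCast Ξ 7, ← Real.rpow_mul hΞpos.le]
          calc Ξ ^ (((7 : ℕ) : ℝ) * -(sexp A - 1 - 1)) ≤ Ξ ^ (1 : ℝ) := by
                apply Real.rpow_le_rpow_of_exponent_le hΞ1
                push_cast
                linarith
            _ = Ξ := Real.rpow_one _
        have h4 : X ^ (sexp A - 1 - 1) = X ^ (sexp A - 1) / X := by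
          rw [Real.rpow_sub hX0 (sexp A - 1) 1, Real.rpow_one]
        have h5 : (L : ℝ) / X * Ξ ≤ 1 / Ξ ^ 7 := by
          rw [div_mul_eq_mul_div, div_le_div_iff₀ hX0 (by positivity)]
          have h6 : (L : ℝ) * Ξ ^ 8 ≤ X := by
            rwa [le_div_iff₀ (by positivity)] at hL2
          calc (L : ℝ) * Ξ * Ξ ^ 7 = L * Ξ ^ 8 := by ring
            _ ≤ 1 * X := by linarith
        rw [h1]
        calc (L : ℝ) * L * (k : ℝ) ^ (sexp A - 1 - 1) ≤ L * L * (X ^ (sexp A - 1 - 1) * Ξ) :=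
              mul_le_mul_of_nonneg_left (h2.trans h3) (by positivity)
          _ = X ^ (sexp A - 1) * L * ((L : ℝ) / X * Ξ) := by rw [h4]; ring
          _ ≤ X ^ (sexp A - 1) * L * (1 / Ξ ^ 7) := mul_le_mul_of_nonneg_left h5 (by positivity)
          _ = _ := by ring
      have t4 : (k : ℝ) ^ (sexp A - 1) * (Ξ ^ 4 / L) ≤ 2 * (X ^ (sexp A - 1) * L / Ξ ^ 7) := by
        have h1 : Ξ ^ 6 ≤ L := by
          refine le_trans ?_ hL1
          rw [hX8, le_div_iff₀ (by norm_num)]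
          calc Ξ ^ 6 * 2 ≤ Ξ ^ 6 * Ξ := by
                apply mul_le_mul_of_nonneg_left _ (by positivity)
                linarith
            _ = Ξ ^ 7 := by ring
            _ ≤ Ξ ^ 29992 := pow_le_pow_right₀ hΞ1 (by norm_num)
        have h2 : Ξ ^ 4 / L ≤ L / Ξ ^ 7 := by
          rw [div_le_div_iff₀ hL0 (by positivity)]
          calc Ξ ^ 4 * Ξ ^ 7 = Ξ ^ 11 := by ring
            _ ≤ Ξ ^ 12 := pow_le_pow_right₀ hΞ1 (by norm_num)
            _ = Ξ ^ 6 * Ξ ^ 6 := by ring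
            _ ≤ L * L := mul_le_mul h1 h1 (by positivity) hL0.le
        calc (k : ℝ) ^ (sexp A - 1) * (Ξ ^ 4 / L) ≤ 2 * X ^ (sexp A - 1) * (L / Ξ ^ 7) := by gcongr
          _ = _ := by ring
      have t5 : C2 * ((k : ℝ) ^ (sexp A - 1) * (L * (L / k) + Ξ ^ 4 / L)) ≤
          3 * C2 * (X ^ (sexp A - 1) * L / Ξ ^ 7) := by
        have h1 : (k : ℝ) ^ (sexp A - 1) * (L * (L / k) + Ξ ^ 4 / L) ≤
            3 * (X ^ (sexp A - 1) * L / Ξ ^ 7) := by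
          rw [mul_add]
          linarith
        calc C2 * ((k : ℝ) ^ (sexp A - 1) * (L * (L / k) + Ξ ^ 4 / L)) ≤
            C2 * (3 * (X ^ (sexp A - 1) * L / Ξ ^ 7)) := mul_le_mul_of_nonneg_left h1 hC2.le
          _ = _ := by ring
      calc _ ≤ 2 * X ^ (sexp A - 1) * L * E + 2 * B * C1 * (X ^ (sexp A - 1) * L / Ξ ^ 7) +
          3 * C2 * (X ^ (sexp A - 1) * L / Ξ ^ 7) := add_le_add (add_le_add t1 t2) t5
        _ = 2 * X ^ (sexp A - 1) * L * E + C4 * (X ^ (sexp A - 1) * L / Ξ ^ 7) := by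
            rw [hC4]; ring
  -- summation
  set Y : ℝ := X ^ (2 * sexp A - 1) with hY
  have hY0 : 0 < Y := Real.rpow_pos_of_pos hX0 _
  set G : ℝ := (4 * C4 ^ 2 + 192 * C3 ^ 2) / Ξ ^ 14 with hG
  have hG0 : 0 ≤ G := by positivity
  set Eq : ℕ → ℝ := fun q => (if q ≤ Q0 then ρ' else C * (q : ℝ) ^ (-(7 / 4 : ℝ))) with hEq
  have hsum1 : ∀ q ∈ Finset.Icc 1 ⌊Ξ⌋₊,
      ∑ a ∈ (Finset.range q).filter (fun a => Nat.Coprime a q),
      ∫ β in (-(1 / (2 * (L : ℝ))) : ℝ)..(1 / (2 * (L : ℝ))),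
        ‖Dhat A Q0 D ((a : ℝ) / q + β)‖ ^ 2 ≤
      P * Y * (16 * ((q : ℝ) * Eq q ^ 2) + (q : ℝ) * G) := by
    intro q hq
    refine (Finset.sum_le_card_nsmul _ _ _ (harc q hq)).trans ?_
    rw [nsmul_eq_mul]
    have h1 : (((Finset.range q).filter (fun a => Nat.Coprime a q)).card : ℝ) ≤ q := by
      have := Finset.card_filter_le (Finset.range q) (fun a => Nat.Coprime a q)
      rw [Finset.card_range] at this
      exact_mod_cast this
    have h2 : 0 ≤ P * Y * (16 * Eq q ^ 2 + G) := by positivity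
    calc _ ≤ (q : ℝ) * (P * Y * (16 * Eq q ^ 2 + G)) := mul_le_mul_of_nonneg_right h1 h2
      _ = _ := by ring
  refine (Finset.sum_le_sum hsum1).trans ?_
  rw [← Finset.mul_sum, Finset.sum_add_distrib, ← Finset.mul_sum, ← Finset.sum_mul]
  have hq1 := CirC_q_sum (C := C) (ρ' := ρ') hQ01 ⌊Ξ⌋₊
  have hq2 : ∑ q ∈ Finset.Icc 1 ⌊Ξ⌋₊, (q : ℝ) ≤ Ξ ^ 2 := by
    have h1 : ∀ q ∈ Finset.Icc 1 ⌊Ξ⌋₊, (q : ℝ) ≤ Ξ := fun q hq =>
      (Nat.le_floor_iff hΞpos.le).1 (Finset.mem_Icc.1 hq).2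
    refine (Finset.sum_le_card_nsmul _ _ _ h1).trans ?_
    rw [nsmul_eq_mul, Nat.card_Icc]
    simp only [Nat.add_sub_cancel]
    calc (⌊Ξ⌋₊ : ℝ) * Ξ ≤ Ξ * Ξ := mul_le_mul_of_nonneg_right (Nat.floor_le hΞpos.le) hΞpos.le
      _ = Ξ ^ 2 := by ring
  have hG2 : P * (Ξ ^ 2 * G) ≤ ρ / 3 := by
    have h1 : Ξ ^ 2 * G = (4 * C4 ^ 2 + 192 * C3 ^ 2) / Ξ ^ 12 := by
      rw [hG]
      field_simp
    rw [h1]
    have h2 : (4 * C4 ^ 2 + 192 * C3 ^ 2) / Ξ ^ 12 ≤ (4 * C4 ^ 2 + 192 * C3 ^ 2) / Ξ :=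
      div_le_div_of_nonneg_left (by positivity) hΞpos (hbig 12 (by norm_num))
    have h3 : P * ((4 * C4 ^ 2 + 192 * C3 ^ 2) / Ξ) ≤ ρ / 3 := by
      rw [div_le_iff₀ hρ] at hΞρ
      rw [← mul_div_assoc, div_le_div_iff₀ hΞpos (by norm_num)]
      linarith
    exact (mul_le_mul_of_nonneg_left h2 hP0.le).trans h3
  have hfin : P * (16 * ∑ q ∈ Finset.Icc 1 ⌊Ξ⌋₊, (q : ℝ) * Eq q ^ 2 +
      (∑ q ∈ Finset.Icc 1 ⌊Ξ⌋₊, (q : ℝ)) * G) ≤ ρ := by
    have h1 : P * (16 * ∑ q ∈ Finset.Icc 1 ⌊Ξ⌋₊, (q : ℝ) * Eq q ^ 2) ≤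
        P * (16 * ((Q0 : ℝ) ^ 2 * ρ' ^ 2 + 2 * C ^ 2 * (Q0 : ℝ) ^ (-(1 / 2) : ℝ))) := by
      gcongr
    have h2 : P * ((∑ q ∈ Finset.Icc 1 ⌊Ξ⌋₊, (q : ℝ)) * G) ≤ P * (Ξ ^ 2 * G) := by gcongr
    have h3 := hQ1.2 Q0 hQ0
    rw [mul_add] at h1 ⊢
    rw [mul_add P] at h1
    linarith
  calc P * Y * (16 * ∑ q ∈ Finset.Icc 1 ⌊Ξ⌋₊, (q : ℝ) * Eq q ^ 2 +
      (∑ q ∈ Finset.Icc 1 ⌊Ξ⌋₊, (q : ℝ)) * G) =
      P * (16 * ∑ q ∈ Finset.Icc 1 ⌊Ξ⌋₊, (q : ℝ) * Eq q ^ 2 +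
      (∑ q ∈ Finset.Icc 1 ⌊Ξ⌋₊, (q : ℝ)) * G) * Y := by ring
    _ ≤ ρ * Y := mul_le_mul_of_nonneg_right hfin hY0.le

end Pool.Agent.W_f50700_h3
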