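import Pool.Agent.W_f50700_h3.CirC
import Pool.Agent.W_f50700_h3.Bridge

/-!
CirD: the mean square theorem (row 440, C3) and the final deduction (C5, C6).
The minor arc estimate and the facts about the weights `wt 2 n` are hypotheses here
(supplied by helper13's section 4).
-/

open MeasureTheory Filter Topology

namespace Pool.Agent.W_f50700_h3

variable {A : ℕ}

/-- the facts about the weights `wt 2 n` -/
structure WtFacts (B : ℝ) : Prop where
  pos : 0 < B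
  bound : ∀ (n : ℕ) (j : ℤ), 1 ≤ n → |wt 2 n j| ≤ 1
  zero : ∀ (n : ℕ) (j : ℤ), 1 ≤ n → (2 * n : ℤ) ≤ j → wt 2 n j = 0
  lip : ∀ (n : ℕ) (j k : ℤ), 1 ≤ n → |wt 2 n j - wt 2 n k| ≤ B * |(j : ℝ) - k| / (2 * n)
  zero_ge : ∀ n : ℕ, 1 ≤ n → 1 / 2 ≤ wt 2 n 0

/-- the minor arc statement for the alphabet `A` -/
def MinorArcs (A : ℕ) (κ : ℝ) : Prop := ∃ C c : ℝ, 0 < C ∧ 0 < c ∧ ∀ n : ℕ, 1 ≤ n →
  ∫ θ in {θ : ℝ | θ ∈ Set.Icc (0 : ℝ) 1 ∧ ∀ q : ℕ, 1 ≤ q → (q : ℝ) ≤ (2 * n : ℝ) ^ κ →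
      ∀ a : ℤ, (2 * n : ℝ) ^ (κ - 1) ≤ |θ - a / q|}, ‖Ssum A 2 n θ‖ ^ 2 ≤
    C * (2 * n : ℝ) ^ (2 * sexp A - 1 - c)

/-- Abel summation -/
theorem cirD_abel (a w : ℕ → ℝ) (N : ℕ) :
    ∑ j ∈ Finset.Icc 1 N, a j * w j = (∑ j ∈ Finset.Icc 1 N, a j) * w N +
      ∑ j ∈ Finset.range N, (∑ i ∈ Finset.Icc 1 j, a i) * (w j - w (j + 1)) := by
  induction N with
  | zero => simp
  | succ N ih =>
    rw [Finset.sum_Icc_succ_top (by omega), ih, Finset.sum_Icc_succ_top (by omega),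
      Finset.sum_range_succ]
    ring

theorem cirD_weight {p : ℝ} (hp : 1 ≤ p) {j : ℕ} (hj : 1 ≤ j) :
    (j : ℝ) ^ (p + 1) * ((j : ℝ) ^ (-p) - ((j + 1 : ℕ) : ℝ) ^ (-p)) ≤ p := by
  have hj0 : (0 : ℝ) < j := by exact_mod_cast hj
  have hj1 : (0 : ℝ) < ((j + 1 : ℕ) : ℝ) := by positivity
  have h1 : (j : ℝ) ^ (p + 1) * (j : ℝ) ^ (-p) = j := by
    rw [← Real.rpow_add hj0, show p + 1 + -p = 1 by ring, Real.rpow_one]
  have h2 : (j : ℝ) ^ (p + 1) * ((j + 1 : ℕ) : ℝ) ^ (-p) = j * ((j : ℝ) / ((j + 1 : ℕ) : ℝ)) ^ p := by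
    rw [Real.rpow_add_one hj0.ne', Real.div_rpow hj0.le hj1.le, Real.rpow_neg hj1.le]
    field_simp
  have h3 : 1 + p * (-1 / ((j + 1 : ℕ) : ℝ)) ≤ ((j : ℝ) / ((j + 1 : ℕ) : ℝ)) ^ p := by
    have h4 := one_add_mul_self_le_rpow_one_add (s := -1 / ((j + 1 : ℕ) : ℝ)) (by
      rw [neg_div, neg_le_neg_iff, div_le_one hj1]
      push_cast
      linarith) hp
    have h5 : 1 + -1 / ((j + 1 : ℕ) : ℝ) = (j : ℝ) / ((j + 1 : ℕ) : ℝ) := by
      push_cast
      field_simp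
      ring
    rwa [h5] at h4
  rw [mul_sub, h1, h2]
  have h6 : (j : ℝ) * (1 + p * (-1 / ((j + 1 : ℕ) : ℝ))) ≤
      j * ((j : ℝ) / ((j + 1 : ℕ) : ℝ)) ^ p := mul_le_mul_of_nonneg_left h3 hj0.le
  have h7 : (j : ℝ) * (p / ((j + 1 : ℕ) : ℝ)) ≤ p := by
    rw [← mul_div_assoc, div_le_iff₀ hj1]
    push_cast
    nlinarith
  have h8 : (j : ℝ) * (1 + p * (-1 / ((j + 1 : ℕ) : ℝ))) = j - j * (p / ((j + 1 : ℕ) : ℝ)) := by
    ring
  linarith

/-- partial summation -/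
theorem cirD_partial {p ρ : ℝ} (hp : 1 ≤ p) (hρ : 0 ≤ ρ) (a : ℕ → ℝ) (ha : ∀ j, 0 ≤ a j)
    (N0 : ℕ) (h : ∀ N ≥ N0, ∑ j ∈ Finset.Icc 1 N, a j ≤ ρ * (N : ℝ) ^ (p + 1)) :
    ∃ K : ℝ, 0 ≤ K ∧ ∀ N : ℕ, 1 ≤ N →
      ∑ j ∈ Finset.Icc 1 N, a j * (j : ℝ) ^ (-p) ≤ (p + 1) * ρ * N + K := by
  set K0 : ℝ := ∑ j ∈ Finset.Icc 1 N0, a j with hK0
  have hK0' : 0 ≤ K0 := Finset.sum_nonneg fun j _ => ha j
  have hE : ∀ N : ℕ, ∑ j ∈ Finset.Icc 1 N, a j ≤ ρ * (N : ℝ) ^ (p + 1) + K0 := by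
    intro N
    rcases le_total N0 N with h1 | h1
    · linarith [h N h1]
    · have h2 : ∑ j ∈ Finset.Icc 1 N, a j ≤ K0 :=
        Finset.sum_le_sum_of_subset_of_nonneg (Finset.Icc_subset_Icc_right h1)
          fun j _ _ => ha j
      have h3 : 0 ≤ ρ * (N : ℝ) ^ (p + 1) := by positivity
      linarith
  refine ⟨2 * K0, by positivity, ?_⟩
  intro N hN
  set v : ℕ → ℝ := fun j => if j = 0 then 1 else (j : ℝ) ^ (-p) with hv
  have hv1 : ∀ j, 1 ≤ j → v j = (j : ℝ) ^ (-p) := by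
    intro j hj
    simp only [hv]
    rw [if_neg (by omega)]
  have hvanti : ∀ j, v (j + 1) ≤ v j := by
    intro j
    rw [hv1 (j + 1) (by omega)]
    rcases Nat.eq_zero_or_pos j with rfl | hj
    · simp [hv]
    · rw [hv1 j hj]
      apply Real.rpow_le_rpow_of_nonpos (by exact_mod_cast hj) (by push_cast; linarith)
        (by linarith)
  have hvle : ∀ j, 0 ≤ v j ∧ v j ≤ 1 := by
    intro j
    constructor
    · rcases Nat.eq_zero_or_pos j with rfl | hj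
      · simp [hv]
      · rw [hv1 j hj]
        positivity
    · rcases Nat.eq_zero_or_pos j with rfl | hj
      · simp [hv]
      · rw [hv1 j hj]
        exact Real.rpow_le_one_of_one_le_of_nonpos (by exact_mod_cast hj) (by linarith)
  have h1 : ∑ j ∈ Finset.Icc 1 N, a j * (j : ℝ) ^ (-p) = ∑ j ∈ Finset.Icc 1 N, a j * v j := by
    refine Finset.sum_congr rfl fun j hj => ?_
    rw [hv1 j (Finset.mem_Icc.1 hj).1]
  rw [h1, cirD_abel]
  have h2 : ∀ j ∈ Finset.range N, (∑ i ∈ Finset.Icc 1 j, a i) * (v j - v (j + 1)) ≤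
      ρ * p + K0 * (v j - v (j + 1)) := by
    intro j _
    have h3 : 0 ≤ v j - v (j + 1) := by linarith [hvanti j]
    rcases Nat.eq_zero_or_pos j with rfl | hj
    · have h4 : (∑ i ∈ Finset.Icc 1 0, a i) * (v 0 - v (0 + 1)) = 0 := by simp
      rw [h4]
      positivity
    · calc (∑ i ∈ Finset.Icc 1 j, a i) * (v j - v (j + 1))
          ≤ (ρ * (j : ℝ) ^ (p + 1) + K0) * (v j - v (j + 1)) :=
            mul_le_mul_of_nonneg_right (hE j) h3
        _ = ρ * ((j : ℝ) ^ (p + 1) * ((j : ℝ) ^ (-p) - ((j + 1 : ℕ) : ℝ) ^ (-p))) +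
            K0 * (v j - v (j + 1)) := by
            rw [hv1 j hj, hv1 (j + 1) (by omega)]
            ring
        _ ≤ ρ * p + K0 * (v j - v (j + 1)) := by
            have := mul_le_mul_of_nonneg_left (cirD_weight hp hj) hρ
            linarith
  have h3 : ∑ j ∈ Finset.range N, (∑ i ∈ Finset.Icc 1 j, a i) * (v j - v (j + 1)) ≤
      N * (ρ * p) + K0 * (v 0 - v N) := by
    refine (Finset.sum_le_sum h2).trans ?_
    rw [Finset.sum_add_distrib, Finset.sum_const, Finset.card_range, nsmul_eq_mul,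
      ← Finset.mul_sum, Finset.sum_range_sub']
  have h4 : (∑ j ∈ Finset.Icc 1 N, a j) * v N ≤ ρ * N + K0 * v N := by
    have hN0 : (0 : ℝ) < N := by exact_mod_cast hN
    calc (∑ j ∈ Finset.Icc 1 N, a j) * v N ≤ (ρ * (N : ℝ) ^ (p + 1) + K0) * v N :=
          mul_le_mul_of_nonneg_right (hE N) (hvle N).1
      _ = ρ * ((N : ℝ) ^ (p + 1) * (N : ℝ) ^ (-p)) + K0 * v N := by
          rw [hv1 N hN]
          ring
      _ = ρ * N + K0 * v N := by
          rw [← Real.rpow_add hN0, show p + 1 + -p = 1 by ring, Real.rpow_one]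
  have h5 : v 0 = 1 := by simp [hv]
  rw [h5] at h3
  nlinarith [(hvle N).1, (hvle N).2]

theorem cirD_closed (X η : ℝ) :
    IsClosed {θ : ℝ | ∀ q : ℕ, 1 ≤ q → (q : ℝ) ≤ X → ∀ a : ℤ, η ≤ |θ - a / q|} := by
  simp only [Set.ofPred_forall]
  refine isClosed_iInter fun q => isClosed_iInter fun _ => isClosed_iInter fun _ =>
    isClosed_iInter fun a => ?_
  exact isClosed_le continuous_const (by fun_prop)

/-- a point near some fraction is near a reduced fraction -/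
theorem cirD_reduce {X η θ : ℝ} (h : ¬ ∀ q : ℕ, 1 ≤ q → (q : ℝ) ≤ X → ∀ a : ℤ, η ≤ |θ - a / q|)
    (hη : η ≤ 1 / 2) (hθ : θ ∈ Set.Icc (0 : ℝ) 1) :
    ∃ q ∈ Finset.Icc 1 ⌊X⌋₊, ∃ a ∈ (Finset.range q).filter (fun a => Nat.Coprime a q),
      ∃ k ∈ ({-1, 0, 1} : Finset ℤ), |θ - ((k : ℝ) + (a : ℝ) / q)| < η := by
  push Not at h
  obtain ⟨q0, hq0, hq0X, a0, ha0⟩ := h
  set r : ℚ := (a0 : ℚ) / (q0 : ℚ) with hr
  have hq0' : (q0 : ℚ) ≠ 0 := by
    have : q0 ≠ 0 := by omega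
    exact_mod_cast this
  have hden : r.den ≤ q0 := by
    have h1 : (r.den : ℤ) ∣ (q0 : ℤ) := by
      have := Rat.den_dvd a0 (q0 : ℤ)
      simpa [hr, Rat.divInt_eq_div] using this
    exact Nat.le_of_dvd (by omega) (by exact_mod_cast h1)
  set q : ℕ := r.den with hq
  have hqpos : 0 < q := r.pos
  have hqR : (0 : ℝ) < q := by exact_mod_cast hqpos
  have hrr : (r.num : ℝ) / q = (a0 : ℝ) / q0 := by
    have h1 : ((r : ℚ) : ℝ) = (r.num : ℝ) / (r.den : ℝ) := Rat.cast_def r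
    have h2 : ((r : ℚ) : ℝ) = (a0 : ℝ) / q0 := by
      rw [hr]
      push_cast
      rfl
    rw [← h2, h1]
  set k : ℤ := r.num / q with hk
  set a : ℕ := (r.num % q).toNat with ha
  have hmod0 : 0 ≤ r.num % (q : ℤ) := Int.emod_nonneg _ (by omega)
  have hmodlt : r.num % (q : ℤ) < q := Int.emod_lt_of_pos _ (by omega)
  have hacast : ((a : ℕ) : ℤ) = r.num % (q : ℤ) := Int.toNat_of_nonneg hmod0
  have hdiv : (r.num : ℤ) = k * q + a := by
    rw [hacast, hk, mul_comm]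
    exact (Int.mul_ediv_add_emod _ _).symm
  have hcop : Nat.Coprime a q := by
    have h1 : IsCoprime (r.num : ℤ) (q : ℤ) := by
      rw [Int.isCoprime_iff_nat_coprime]
      have := r.reduced
      simpa using this
    have h2 : IsCoprime ((a : ℕ) : ℤ) (q : ℤ) := by
      have h3 : ((a : ℕ) : ℤ) = r.num + (q : ℤ) * (-k) := by rw [hdiv]; ring
      rw [h3]
      exact h1.add_mul_left_left _
    exact Nat.isCoprime_iff_coprime.1 h2
  have hval : (k : ℝ) + (a : ℝ) / q = (a0 : ℝ) / q0 := by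
    rw [← hrr]
    have h1 : (r.num : ℝ) = k * q + a := by exact_mod_cast hdiv
    rw [h1]
    field_simp
  have haq : (a : ℝ) / q < 1 := by
    rw [div_lt_one hqR]
    have : (a : ℤ) < q := by rw [hacast]; exact hmodlt
    exact_mod_cast this
  have haq0 : 0 ≤ (a : ℝ) / q := by positivity
  rw [← hval] at ha0
  have h3 := abs_lt.1 ha0
  refine ⟨q, ?_, a, ?_, k, ?_, ha0⟩
  · rw [Finset.mem_Icc]
    refine ⟨hqpos, Nat.le_floor ?_⟩
    have : (q : ℝ) ≤ q0 := by exact_mod_cast hden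
    linarith
  · rw [Finset.mem_filter, Finset.mem_range]
    refine ⟨?_, hcop⟩
    have : (a : ℤ) < q := by rw [hacast]; exact hmodlt
    exact_mod_cast this
  · have h4 : -2 < k := by
      have : (-2 : ℝ) < k := by linarith [hθ.1]
      exact_mod_cast this
    have h5 : k < 2 := by
      have : (k : ℝ) < 2 := by linarith [hθ.2]
      exact_mod_cast this
    have h6 : k = -1 ∨ k = 0 ∨ k = 1 := by omega
    simpa using h6

theorem cirD_cover (f : ℝ → ℝ) (hf : Continuous f) (hf0 : ∀ x, 0 ≤ f x)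
    (hper : ∀ x, f (x + 1) = f x) (X : ℝ) {η h : ℝ} (hη : η ≤ 1 / 2) (hηh : η ≤ h)
    (hh : 0 ≤ h) :
    ∫ θ in Set.Icc (0 : ℝ) 1 \ {θ : ℝ | θ ∈ Set.Icc (0 : ℝ) 1 ∧
      ∀ q : ℕ, 1 ≤ q → (q : ℝ) ≤ X → ∀ a : ℤ, η ≤ |θ - a / q|}, f θ ≤
    3 * ∑ q ∈ Finset.Icc 1 ⌊X⌋₊, ∑ a ∈ (Finset.range q).filter (fun a => Nat.Coprime a q),
      ∫ β in (-h)..h, f ((a : ℝ) / q + β) := by
  set S : Set ℝ := Set.Icc (0 : ℝ) 1 \ {θ : ℝ | θ ∈ Set.Icc (0 : ℝ) 1 ∧
      ∀ q : ℕ, 1 ≤ q → (q : ℝ) ≤ X → ∀ a : ℤ, η ≤ |θ - a / q|} with hS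
  have hSm : MeasurableSet S :=
    measurableSet_Icc.diff (isClosed_Icc.inter (cirD_closed X η)).measurableSet
  set J : ℕ → ℕ → ℤ → Set ℝ := fun q a k =>
    Set.Icc ((k : ℝ) + (a : ℝ) / q - h) ((k : ℝ) + (a : ℝ) / q + h) with hJ
  have hJint : ∀ q a k, Integrable ((J q a k).indicator f) := by
    intro q a k
    rw [integrable_indicator_iff measurableSet_Icc]
    exact hf.continuousOn.integrableOn_Icc
  rw [← integral_indicator hSm]
  have hle : ∀ θ, S.indicator f θ ≤ ∑ q ∈ Finset.Icc 1 ⌊X⌋₊,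
      ∑ a ∈ (Finset.range q).filter (fun a => Nat.Coprime a q),
      ∑ k ∈ ({-1, 0, 1} : Finset ℤ), (J q a k).indicator f θ := by
    intro θ
    have hnn : ∀ q a k, 0 ≤ (J q a k).indicator f θ := fun q a k =>
      Set.indicator_nonneg (fun x _ => hf0 x) θ
    by_cases hθ : θ ∈ S
    · rw [Set.indicator_of_mem hθ]
      have hθ1 : θ ∈ Set.Icc (0 : ℝ) 1 := hθ.1
      have hθ2 : ¬ ∀ q : ℕ, 1 ≤ q → (q : ℝ) ≤ X → ∀ a : ℤ, η ≤ |θ - a / q| :=
        fun h' => hθ.2 ⟨hθ1, h'⟩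
      obtain ⟨q, hq, a, ha, k, hk, hlt⟩ := cirD_reduce hθ2 hη hθ1
      have h1 : (J q a k).indicator f θ = f θ := by
        apply Set.indicator_of_mem
        have := abs_lt.1 hlt
        constructor <;> linarith [this.1, this.2]
      calc f θ = (J q a k).indicator f θ := h1.symm
        _ ≤ ∑ k ∈ ({-1, 0, 1} : Finset ℤ), (J q a k).indicator f θ :=
            Finset.single_le_sum (f := fun k => (J q a k).indicator f θ)
              (fun k _ => hnn q a k) hk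
        _ ≤ ∑ a ∈ (Finset.range q).filter (fun a => Nat.Coprime a q),
              ∑ k ∈ ({-1, 0, 1} : Finset ℤ), (J q a k).indicator f θ :=
            Finset.single_le_sum (f := fun a => ∑ k ∈ ({-1, 0, 1} : Finset ℤ),
              (J q a k).indicator f θ) (fun a _ => Finset.sum_nonneg fun k _ => hnn q a k) ha
        _ ≤ _ := Finset.single_le_sum (f := fun q =>
              ∑ a ∈ (Finset.range q).filter (fun a => Nat.Coprime a q),
              ∑ k ∈ ({-1, 0, 1} : Finset ℤ), (J q a k).indicator f θ)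
              (fun q _ => Finset.sum_nonneg fun a _ => Finset.sum_nonneg fun k _ => hnn q a k) hq
    · rw [Set.indicator_of_notMem hθ]
      exact Finset.sum_nonneg fun q _ => Finset.sum_nonneg fun a _ =>
        Finset.sum_nonneg fun k _ => hnn q a k
  have hint : ∫ θ, S.indicator f θ ≤ ∫ θ, ∑ q ∈ Finset.Icc 1 ⌊X⌋₊,
      ∑ a ∈ (Finset.range q).filter (fun a => Nat.Coprime a q),
      ∑ k ∈ ({-1, 0, 1} : Finset ℤ), (J q a k).indicator f θ := by
    refine integral_mono_of_nonneg (Filter.Eventually.of_forall fun θ =>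
      Set.indicator_nonneg (fun x _ => hf0 x) θ) ?_ (Filter.Eventually.of_forall hle)
    exact integrable_finsetSum _ fun q _ => integrable_finsetSum _ fun a _ =>
      integrable_finsetSum _ fun k _ => hJint q a k
  refine hint.trans (le_of_eq ?_)
  rw [integral_finsetSum _ fun q _ => integrable_finsetSum _ fun a _ =>
      integrable_finsetSum _ fun k _ => hJint q a k, Finset.mul_sum]
  refine Finset.sum_congr rfl fun q _ => ?_
  rw [integral_finsetSum _ fun a _ => integrable_finsetSum _ fun k _ => hJint q a k,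
    Finset.mul_sum]
  refine Finset.sum_congr rfl fun a _ => ?_
  rw [integral_finsetSum _ fun k _ => hJint q a k]
  have hk : ∀ k ∈ ({-1, 0, 1} : Finset ℤ), ∫ θ, (J q a k).indicator f θ =
      ∫ β in (-h)..h, f ((a : ℝ) / q + β) := by
    intro k hk
    rw [integral_indicator measurableSet_Icc, integral_Icc_eq_integral_Ioc,
      ← intervalIntegral.integral_of_le (by linarith)]
    have h1 := intervalIntegral.integral_comp_add_left (a := -h) (b := h) f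
      ((k : ℝ) + (a : ℝ) / q)
    rw [sub_eq_add_neg, ← h1]
    refine intervalIntegral.integral_congr fun β _ => ?_
    rw [Finset.mem_insert, Finset.mem_insert, Finset.mem_singleton] at hk
    rcases hk with rfl | rfl | rfl
    · rw [← hper]
      congr 1
      push_cast
      ring
    · congr 1
      push_cast
      ring
    · rw [← hper ((a : ℝ) / q + β)]
      congr 1
      push_cast
      ring
  rw [Finset.sum_congr rfl hk, Finset.sum_const]
  have hcard : ({-1, 0, 1} : Finset ℤ).card = 3 := by decide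
  rw [hcard, nsmul_eq_mul]
  norm_num

theorem cirD_cont_e : Continuous e := by
  unfold e
  fun_prop

theorem cirD_e_add_int (x : ℝ) (k : ℤ) : e (x + k) = e x := by
  rw [e_add, e_int, mul_one]

/-- data of the weights at `n` -/
noncomputable def cirD_data {B : ℝ} (hW : WtFacts B) (n : ℕ) (hn : 1 ≤ n) : WtData where
  N := 2 * n
  B := B
  ω := fun j => wt 2 n (j : ℤ)
  hN := by omega
  hB := hW.pos
  bound := fun j => hW.bound n j hn
  zero := fun j hj => hW.zero n j hn (by exact_mod_cast hj)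
  lip := fun j k => by
    have := hW.lip n j k hn
    push_cast at this ⊢
    exact this

theorem cirD_mlt_zero (A : ℕ) : mlt A 0 = 0 := by
  unfold mlt
  rw [Finset.card_eq_zero.2, Nat.cast_zero]
  rw [Finset.filter_eq_empty_iff]
  intro w _ h
  have := F_pos w
  omega

theorem cirD_gmod_zero (h1 : 1 < sexp A) (Q0 : ℕ) : gmod A Q0 0 = 0 := by
  unfold gmod
  rw [Nat.cast_zero, Real.zero_rpow (by linarith)]
  ring

theorem cirD_Ssum {B : ℝ} (hW : WtFacts B) (n : ℕ) (hn : 1 ≤ n) (θ : ℝ) :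
    Ssum A 2 n θ = ∑ j ∈ Finset.range (2 * n),
      ((wt 2 n (j : ℤ) * mlt A j : ℝ) : ℂ) * e ((j : ℝ) * θ) := by
  unfold Ssum
  have h1 := sum_words_eq (A := A) (2 * n)
    (fun j => (wt 2 n (j : ℤ) : ℂ) * e (θ * (j : ℝ))) (by
      intro j hj
      have : wt 2 n (j : ℤ) = 0 := hW.zero n j hn (by exact_mod_cast hj.le)
      simp only [this]
      simp) ((2 * n : ℕ) : ℝ) le_rfl
  rw [h1, Finset.sum_range_succ]
  have h2 : wt 2 n ((2 * n : ℕ) : ℤ) = 0 := hW.zero n _ hn (by push_cast; rfl)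
  rw [h2]
  simp only [Complex.ofReal_zero, zero_mul, mul_zero, add_zero]
  refine Finset.sum_congr rfl fun j _ => ?_
  rw [mul_comm θ]
  push_cast
  ring

theorem cirD_Dhat_range {Q0 : ℕ} (h1 : 1 < sexp A) (D : WtData) (θ : ℝ) :
    Dhat A Q0 D θ = ∑ j ∈ Finset.range D.N,
      ((D.ω j * (mlt A j - gmod A Q0 j) : ℝ) : ℂ) * e ((j : ℝ) * θ) := by
  unfold Dhat
  refine Finset.sum_filter_of_ne fun j _ hj => ?_
  by_contra h0
  have h2 : j = 0 := by omega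
  apply hj
  rw [h2, cirD_mlt_zero, cirD_gmod_zero h1]
  simp

theorem cirD_Dhat_eq {B : ℝ} (hW : WtFacts B) (n : ℕ) (hn : 1 ≤ n) (h1 : 1 < sexp A) (Q0 : ℕ)
    (θ : ℝ) : Dhat A Q0 (cirD_data hW n hn) θ =
      Ssum A 2 n θ - Mhat A Q0 (cirD_data hW n hn) θ := by
  rw [cirD_Dhat_range h1, cirD_Ssum hW n hn, Mhat]
  change ∑ j ∈ Finset.range (2 * n), ((wt 2 n (j : ℤ) * (mlt A j - gmod A Q0 j) : ℝ) : ℂ) *
      e ((j : ℝ) * θ) = ∑ j ∈ Finset.range (2 * n),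
      ((wt 2 n (j : ℤ) * mlt A j : ℝ) : ℂ) * e ((j : ℝ) * θ) - ∑ j ∈ Finset.range (2 * n),
      ((wt 2 n (j : ℤ) * gmod A Q0 j : ℝ) : ℂ) * e ((j : ℝ) * θ)
  rw [← Finset.sum_sub_distrib]
  refine Finset.sum_congr rfl fun j _ => ?_
  push_cast
  ring

theorem cirD_Dhat_cont (Q0 : ℕ) (D : WtData) : Continuous (Dhat A Q0 D) := by
  unfold Dhat
  refine continuous_finsetSum _ fun j _ => continuous_const.mul ?_
  exact cirD_cont_e.comp (by fun_prop)

theorem cirD_Mhat_cont (Q0 : ℕ) (D : WtData) : Continuous (Mhat A Q0 D) := by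
  unfold Mhat
  refine continuous_finsetSum _ fun j _ => continuous_const.mul ?_
  exact cirD_cont_e.comp (by fun_prop)

theorem cirD_Ssum_cont (k n : ℕ) : Continuous (Ssum A k n) := by
  unfold Ssum
  refine continuous_finsetSum _ fun j _ => continuous_const.mul ?_
  exact cirD_cont_e.comp (by fun_prop)

theorem cirD_Dhat_per (Q0 : ℕ) (D : WtData) (θ : ℝ) : Dhat A Q0 D (θ + 1) = Dhat A Q0 D θ := by
  unfold Dhat
  refine Finset.sum_congr rfl fun j _ => ?_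
  congr 1
  have h1 : (j : ℝ) * (θ + 1) = (j : ℝ) * θ + ((j : ℤ) : ℝ) := by
    push_cast
    ring
  rw [h1, cirD_e_add_int]

/-- Parseval for the weighted error -/
theorem cirD_parseval {B : ℝ} (hW : WtFacts B) (n : ℕ) (hn : 1 ≤ n) (h1 : 1 < sexp A) (Q0 : ℕ) :
    ∑ j ∈ Finset.Icc 1 (2 * n), (wt 2 n j) ^ 2 * (mlt A j - gmod A Q0 j) ^ 2 =
      ∫ θ in Set.Icc (0 : ℝ) 1, ‖Dhat A Q0 (cirD_data hW n hn) θ‖ ^ 2 := by
  have h2 : ∫ θ in Set.Icc (0 : ℝ) 1, ‖Dhat A Q0 (cirD_data hW n hn) θ‖ ^ 2 =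
      ∫ θ in (0 : ℝ)..1, ‖∑ j ∈ Finset.range (2 * n),
        ((wt 2 n (j : ℤ) * (mlt A j - gmod A Q0 j) : ℝ) : ℂ) * e ((j : ℝ) * θ)‖ ^ 2 := by
    rw [integral_Icc_eq_integral_Ioc, ← intervalIntegral.integral_of_le zero_le_one]
    refine intervalIntegral.integral_congr fun θ _ => ?_
    rw [cirD_Dhat_range h1]
    rfl
  rw [h2, parseval]
  have h3 : ∀ j : ℕ, ‖((wt 2 n (j : ℤ) * (mlt A j - gmod A Q0 j) : ℝ) : ℂ)‖ ^ 2 =
      (wt 2 n j) ^ 2 * (mlt A j - gmod A Q0 j) ^ 2 := by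
    intro j
    rw [Complex.norm_real, Real.norm_eq_abs, sq_abs, mul_pow]
  rw [Finset.sum_congr rfl fun j _ => h3 j]
  have h4 : Finset.Icc 1 (2 * n) = (Finset.range (2 * n + 1)).erase 0 := by
    ext j
    simp only [Finset.mem_Icc, Finset.mem_erase, Finset.mem_range]
    omega
  have h5 : ∑ j ∈ Finset.range (2 * n + 1), (wt 2 n j) ^ 2 * (mlt A j - gmod A Q0 j) ^ 2 =
      ∑ j ∈ Finset.range (2 * n), (wt 2 n j) ^ 2 * (mlt A j - gmod A Q0 j) ^ 2 := by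
    rw [Finset.sum_range_succ]
    have h6 : wt 2 n ((2 * n : ℕ) : ℤ) = 0 := hW.zero n _ hn (by push_cast; rfl)
    rw [h6]
    ring
  rw [← h5, h4]
  rw [Finset.sum_erase]
  rw [cirD_mlt_zero, cirD_gmod_zero h1]
  ring

/-- the eventual inequalities -/
theorem cirD_event {c C1 C2 ρ s : ℝ} (hc : 0 < c) (hρ : 0 < ρ) (Q0 N0 : ℕ) :
    ∃ n0 : ℕ, 1 ≤ n0 ∧ ∀ n ≥ n0, N0 ≤ 2 * n ∧
      (Q0 : ℝ) ≤ (2 * n : ℝ) ^ (1 / 30000 : ℝ) ∧
      (2 * n : ℝ) ^ ((1 / 30000 : ℝ) - 1) ≤ 1 / 2 ∧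
      (2 * n : ℝ) ^ ((1 / 30000 : ℝ) - 1) ≤
        1 / (2 * (⌊(2 * n : ℝ) ^ (1 - 8 / 30000 : ℝ)⌋₊ : ℝ)) ∧
      2 * (C1 * (2 * n : ℝ) ^ (2 * s - 1 - c)) +
        2 * (C2 * (2 * n : ℝ) ^ (2 * s - 2) / (2 * n : ℝ) ^ ((1 / 30000 : ℝ) - 1)) ≤
        ρ / 2 * (2 * n : ℝ) ^ (2 * s - 1) := by
  have hcast : Tendsto (fun n : ℕ => (2 * n : ℝ)) atTop atTop :=
    Tendsto.const_mul_atTop (by norm_num) tendsto_natCast_atTop_atTop
  have e1 : ∀ᶠ n : ℕ in atTop, (Q0 : ℝ) ≤ (2 * n : ℝ) ^ (1 / 30000 : ℝ) :=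
    ((tendsto_rpow_atTop (by norm_num)).comp hcast).eventually_ge_atTop _
  have t2 : Tendsto (fun n : ℕ => (2 * n : ℝ) ^ (-(1 - 1 / 30000) : ℝ)) atTop (𝓝 0) :=
    (tendsto_rpow_neg_atTop (by norm_num)).comp hcast
  have e2 : ∀ᶠ n : ℕ in atTop, (2 * n : ℝ) ^ (-(1 - 1 / 30000) : ℝ) ≤ 1 / 2 :=
    t2.eventually_le_const (by norm_num)
  have t3 : Tendsto (fun n : ℕ => (2 * n : ℝ) ^ (-(7 / 30000) : ℝ)) atTop (𝓝 0) :=
    (tendsto_rpow_neg_atTop (by norm_num)).comp hcast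
  have e3 : ∀ᶠ n : ℕ in atTop, (2 * n : ℝ) ^ (-(7 / 30000) : ℝ) ≤ 1 / 2 :=
    t3.eventually_le_const (by norm_num)
  have t4 : Tendsto (fun n : ℕ => 2 * C1 * (2 * n : ℝ) ^ (-c) +
      2 * C2 * (2 * n : ℝ) ^ (-(1 / 30000) : ℝ)) atTop (𝓝 (2 * C1 * 0 + 2 * C2 * 0)) :=
    (((tendsto_rpow_neg_atTop hc).comp hcast).const_mul _).add
      (((tendsto_rpow_neg_atTop (by norm_num)).comp hcast).const_mul _)
  have e4 : ∀ᶠ n : ℕ in atTop, 2 * C1 * (2 * n : ℝ) ^ (-c) +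
      2 * C2 * (2 * n : ℝ) ^ (-(1 / 30000) : ℝ) ≤ ρ / 2 :=
    t4.eventually_le_const (by simp; exact hρ)
  have e5 : ∀ᶠ n : ℕ in atTop, max N0 1 ≤ n := eventually_ge_atTop _
  obtain ⟨n0, hn0⟩ := (e1.and (e2.and (e3.and (e4.and e5)))).exists_forall_of_atTop
  refine ⟨max n0 1, le_max_right _ _, fun n hn => ?_⟩
  obtain ⟨h1, h2, h3, h4, h5⟩ := hn0 n ((le_max_left _ _).trans hn)
  have hn1 : 1 ≤ n := (le_max_right _ _).trans hn
  have hN : (1 : ℝ) ≤ 2 * n := by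
    have : (1 : ℝ) ≤ n := by exact_mod_cast hn1
    linarith
  have hN0 : (0 : ℝ) < 2 * n := by linarith
  refine ⟨by have := le_max_left N0 1; omega, h1, ?_, ?_, ?_⟩
  · rw [show ((1 / 30000 : ℝ) - 1) = (-(1 - 1 / 30000) : ℝ) by ring]
    exact h2
  · have hfl : 0 < ⌊(2 * n : ℝ) ^ (1 - 8 / 30000 : ℝ)⌋₊ := by
      apply Nat.floor_pos.2
      exact Real.one_le_rpow hN (by norm_num)
    have hflr : (0 : ℝ) < (⌊(2 * n : ℝ) ^ (1 - 8 / 30000 : ℝ)⌋₊ : ℝ) := by exact_mod_cast hfl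
    rw [le_div_iff₀ (by positivity)]
    have h6 : (⌊(2 * n : ℝ) ^ (1 - 8 / 30000 : ℝ)⌋₊ : ℝ) ≤ (2 * n : ℝ) ^ (1 - 8 / 30000 : ℝ) :=
      Nat.floor_le (by positivity)
    calc (2 * n : ℝ) ^ ((1 / 30000 : ℝ) - 1) * (2 * (⌊(2 * n : ℝ) ^ (1 - 8 / 30000 : ℝ)⌋₊ : ℝ))
        ≤ (2 * n : ℝ) ^ ((1 / 30000 : ℝ) - 1) * (2 * (2 * n : ℝ) ^ (1 - 8 / 30000 : ℝ)) := by
          gcongr
      _ = 2 * (2 * n : ℝ) ^ (-(7 / 30000) : ℝ) := by
          rw [mul_left_comm, ← Real.rpow_add hN0]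
          norm_num
      _ ≤ 1 := by linarith
  · have h7 : C1 * (2 * n : ℝ) ^ (2 * s - 1 - c) =
        C1 * (2 * n : ℝ) ^ (-c) * (2 * n : ℝ) ^ (2 * s - 1) := by
      rw [mul_assoc, ← Real.rpow_add hN0]
      congr 2
      ring
    have h8 : C2 * (2 * n : ℝ) ^ (2 * s - 2) / (2 * n : ℝ) ^ ((1 / 30000 : ℝ) - 1) =
        C2 * (2 * n : ℝ) ^ (-(1 / 30000) : ℝ) * (2 * n : ℝ) ^ (2 * s - 1) := by
      rw [mul_div_assoc, ← Real.rpow_sub hN0, mul_assoc, ← Real.rpow_add hN0]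
      congr 2
      ring
    rw [h7, h8]
    have h9 := mul_le_mul_of_nonneg_right h4
      (Real.rpow_nonneg hN0.le (2 * s - 1))
    linarith

/-- C3 on the grid `N = 2 n`.  Proof: Parseval for the weighted error; the arcs
`|θ - a/q| ≤ 1/(2L)`, `q ≤ Ξ`, by `near_major`; outside: `MinorArcs` for `Ssum` and
`model_outside` for the model (`Ssum - Mhat` is the transform, up to the empty word). -/
theorem mean_square_grid (hA : 2 ≤ A) (hs : 2 - sexp A ≤ 1 / 50) {B : ℝ} (hW : WtFacts B)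
    (hM : MinorArcs A (1 / 30000)) (ρ : ℝ) (hρ : 0 < ρ) : ∃ Q1 : ℕ, ∀ Q0 ≥ Q1, ∃ n0 : ℕ,
    ∀ n ≥ n0, ∑ j ∈ Finset.Icc 1 (2 * n), (wt 2 n j) ^ 2 * (mlt A j - gmod A Q0 j) ^ 2 ≤
      ρ * (2 * n : ℝ) ^ (2 * sexp A - 1) := by
  obtain ⟨C1, c, hC1, hc, hmin⟩ := hM
  obtain ⟨Q1, hQ1⟩ := near_major hA hs B hW.pos (ρ / 6) (by positivity)
  refine ⟨Q1, fun Q0 hQ0 => ?_⟩
  obtain ⟨N0, hN0⟩ := hQ1 Q0 hQ0
  have hs1 : 1 < sexp A := by linarith
  obtain ⟨C2, hC2, hmod⟩ := model_outside hA hs1.le Q0 B hW.pos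
  obtain ⟨n0, hn01, hn0⟩ := cirD_event (C1 := C1) (C2 := C2) (s := sexp A) hc hρ Q0 N0
  refine ⟨n0, fun n hn => ?_⟩
  obtain ⟨h1, h2, h3, h4, h5⟩ := hn0 n hn
  have hn1 : 1 ≤ n := hn01.trans hn
  have hNpos : (0 : ℝ) < 2 * n := by
    have : (1 : ℝ) ≤ n := by exact_mod_cast hn1
    linarith
  set D := cirD_data hW n hn1 with hD
  have hDN : (D.N : ℝ) = 2 * n := by
    rw [hD]
    change (((2 * n : ℕ)) : ℝ) = 2 * n
    push_cast
    ring
  rw [cirD_parseval hW n hn1 hs1 Q0]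
  set f : ℝ → ℝ := fun θ => ‖Dhat A Q0 D θ‖ ^ 2 with hf
  have hfc : Continuous f := ((cirD_Dhat_cont Q0 D).norm).pow 2
  set η : ℝ := (2 * n : ℝ) ^ ((1 / 30000 : ℝ) - 1) with hη
  have hη0 : 0 < η := by positivity
  set X : ℝ := (2 * n : ℝ) ^ (1 / 30000 : ℝ) with hX
  set T : Set ℝ := {θ : ℝ | θ ∈ Set.Icc (0 : ℝ) 1 ∧
      ∀ q : ℕ, 1 ≤ q → (q : ℝ) ≤ X → ∀ a : ℤ, η ≤ |θ - a / q|} with hT
  have hTm : MeasurableSet T := (isClosed_Icc.inter (cirD_closed X η)).measurableSet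
  have hTs : T ⊆ Set.Icc (0 : ℝ) 1 := fun θ hθ => hθ.1
  have hTf : volume T ≠ ⊤ :=
    ((measure_mono hTs).trans_lt (by simp)).ne
  have hIcc : IntegrableOn f (Set.Icc (0 : ℝ) 1) := hfc.continuousOn.integrableOn_Icc
  have hsplit : ∫ θ in Set.Icc (0 : ℝ) 1, f θ = (∫ θ in T, f θ) +
      ∫ θ in Set.Icc (0 : ℝ) 1 \ T, f θ := by
    rw [setIntegral_sdiff hTm hIcc hTs]
    ring
  rw [hsplit]
  -- outside
  have hout : ∫ θ in T, f θ ≤ 2 * (C1 * (2 * n : ℝ) ^ (2 * sexp A - 1 - c)) +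
      2 * (C2 * (2 * n : ℝ) ^ (2 * sexp A - 2) / η) := by
    have hSi : IntegrableOn (fun θ => ‖Ssum A 2 n θ‖ ^ 2) T :=
      ((((cirD_Ssum_cont 2 n).norm).pow 2).continuousOn.integrableOn_Icc).mono_set hTs
    have hMi : IntegrableOn (fun θ => ‖Mhat A Q0 D θ‖ ^ 2) T :=
      ((((cirD_Mhat_cont Q0 D).norm).pow 2).continuousOn.integrableOn_Icc).mono_set hTs
    have h6 : ∫ θ in T, f θ ≤ ∫ θ in T, (2 * ‖Ssum A 2 n θ‖ ^ 2 + 2 * ‖Mhat A Q0 D θ‖ ^ 2) := by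
      refine setIntegral_mono (hIcc.mono_set hTs) ((hSi.const_mul 2).add (hMi.const_mul 2)) ?_
      intro θ
      simp only [hf]
      rw [hD, cirD_Dhat_eq hW n hn1 hs1 Q0 θ]
      have h7 := norm_sub_le (Ssum A 2 n θ) (Mhat A Q0 (cirD_data hW n hn1) θ)
      have h8 : ‖Ssum A 2 n θ - Mhat A Q0 (cirD_data hW n hn1) θ‖ ^ 2 ≤
          (‖Ssum A 2 n θ‖ + ‖Mhat A Q0 (cirD_data hW n hn1) θ‖) ^ 2 :=
        pow_le_pow_left₀ (norm_nonneg _) h7 2
      nlinarith [sq_nonneg (‖Ssum A 2 n θ‖ - ‖Mhat A Q0 (cirD_data hW n hn1) θ‖)]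
    rw [integral_add (hSi.const_mul 2) (hMi.const_mul 2), integral_const_mul,
      integral_const_mul] at h6
    have h9 : ∫ θ in T, ‖Ssum A 2 n θ‖ ^ 2 ≤ C1 * (2 * n : ℝ) ^ (2 * sexp A - 1 - c) :=
      hmin n hn1
    have h10 := hmod D rfl η hη0 h3 T hTm hTs (by
      intro θ hθ q hq hqQ a
      refine hθ.2 q hq ?_ a
      have : (q : ℝ) ≤ Q0 := by exact_mod_cast hqQ
      linarith)
    rw [hDN] at h10
    linarith
  -- inside
  have hin : ∫ θ in Set.Icc (0 : ℝ) 1 \ T, f θ ≤ 3 * (ρ / 6 * (2 * n : ℝ) ^ (2 * sexp A - 1)) := by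
    have hh : (0 : ℝ) ≤ 1 / (2 * (⌊(2 * n : ℝ) ^ (1 - 8 / 30000 : ℝ)⌋₊ : ℝ)) := by positivity
    have h6 := cirD_cover f hfc (fun x => by positivity)
      (fun x => by simp only [hf]; rw [cirD_Dhat_per]) X h3 h4 hh
    refine h6.trans ?_
    have h7 := hN0 D rfl (by
      rw [hD]
      exact h1)
    rw [hDN] at h7
    exact mul_le_mul_of_nonneg_left h7 (by norm_num)
  linarith

/-- C3: for all `N` -/
theorem mean_square (hA : 2 ≤ A) (hs : 2 - sexp A ≤ 1 / 50) {B : ℝ} (hW : WtFacts B)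
    (hM : MinorArcs A (1 / 30000)) (ρ : ℝ) (hρ : 0 < ρ) : ∃ Q1 : ℕ, ∀ Q0 ≥ Q1, ∃ N0 : ℕ,
    ∀ N ≥ N0, ∑ j ∈ Finset.Icc 1 N, (mlt A j - gmod A Q0 j) ^ 2 ≤
      ρ * (N : ℝ) ^ (2 * sexp A - 1) := by
  have hB0 := hW.pos
  set K : ℝ := (2 * (2 * B + 2)) ^ (2 * sexp A - 1) with hK
  have hK0 : 0 < K := by positivity
  obtain ⟨Q1, hQ1⟩ := mean_square_grid hA hs hW hM (ρ / (16 * K)) (by positivity)
  refine ⟨Q1, fun Q0 hQ0 => ?_⟩
  obtain ⟨n0, hn0⟩ := hQ1 Q0 hQ0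
  refine ⟨max n0 1, fun N hN => ?_⟩
  have hN1 : 1 ≤ N := (le_max_right _ _).trans hN
  have hNr : (1 : ℝ) ≤ N := by exact_mod_cast hN1
  set n : ℕ := ⌈(2 * B + 1) * N⌉₊ with hn
  have hnle : (2 * B + 1) * N ≤ (n : ℝ) := Nat.le_ceil _
  have hnge : (n : ℝ) ≤ (2 * B + 2) * N := by
    have h1 : (n : ℝ) < (2 * B + 1) * N + 1 := Nat.ceil_lt_add_one (by positivity)
    nlinarith
  have hNn : N ≤ n := by
    have : (N : ℝ) ≤ n := by nlinarith
    exact_mod_cast this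
  have hn1 : 1 ≤ n := hN1.trans hNn
  have hnr : (0 : ℝ) < n := by exact_mod_cast hn1
  have h1 := hn0 n (((le_max_left _ _).trans hN).trans hNn)
  have h2 : ∀ j ∈ Finset.Icc 1 N, (mlt A j - gmod A Q0 j) ^ 2 ≤
      16 * ((wt 2 n j) ^ 2 * (mlt A j - gmod A Q0 j) ^ 2) := by
    intro j hj
    have hjN : (j : ℝ) ≤ N := by exact_mod_cast (Finset.mem_Icc.1 hj).2
    have h3 := hW.lip n (j : ℤ) 0 hn1
    have h4 := hW.zero_ge n hn1
    have h5 : B * |((j : ℤ) : ℝ) - ((0 : ℤ) : ℝ)| / (2 * n) ≤ 1 / 4 := by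
      have hj0 : (0 : ℝ) ≤ j := by positivity
      rw [Int.cast_natCast, Int.cast_zero, sub_zero, abs_of_nonneg hj0,
        div_le_iff₀ (by positivity)]
      nlinarith
    have h6 : 1 / 4 ≤ wt 2 n j := by
      have := (abs_le.1 (h3.trans h5)).1
      linarith
    have h7 : 1 / 16 ≤ (wt 2 n j) ^ 2 := by nlinarith
    nlinarith [mul_le_mul_of_nonneg_right h7 (sq_nonneg (mlt A j - gmod A Q0 j))]
  calc ∑ j ∈ Finset.Icc 1 N, (mlt A j - gmod A Q0 j) ^ 2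
      ≤ ∑ j ∈ Finset.Icc 1 N, 16 * ((wt 2 n j) ^ 2 * (mlt A j - gmod A Q0 j) ^ 2) :=
        Finset.sum_le_sum h2
    _ ≤ ∑ j ∈ Finset.Icc 1 (2 * n), 16 * ((wt 2 n j) ^ 2 * (mlt A j - gmod A Q0 j) ^ 2) :=
        Finset.sum_le_sum_of_subset_of_nonneg (Finset.Icc_subset_Icc_right (by omega))
          fun j _ _ => by positivity
    _ = 16 * ∑ j ∈ Finset.Icc 1 (2 * n), (wt 2 n j) ^ 2 * (mlt A j - gmod A Q0 j) ^ 2 := by
        rw [Finset.mul_sum]
    _ ≤ 16 * (ρ / (16 * K) * (2 * n : ℝ) ^ (2 * sexp A - 1)) :=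
        mul_le_mul_of_nonneg_left h1 (by norm_num)
    _ ≤ 16 * (ρ / (16 * K) * ((2 * (2 * B + 2)) ^ (2 * sexp A - 1) * (N : ℝ) ^ (2 * sexp A - 1))) := by
        refine mul_le_mul_of_nonneg_left (mul_le_mul_of_nonneg_left ?_ (by positivity))
          (by norm_num)
        rw [← Real.mul_rpow (by positivity) (by positivity)]
        refine Real.rpow_le_rpow (by positivity) ?_ (by linarith)
        nlinarith
    _ = ρ * (N : ℝ) ^ (2 * sexp A - 1) := by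
        rw [← hK]
        field_simp

/-- with the full singular series and normalized:
`(1/N) ∑_{j ≤ N} ((mlt j - s c0 j^(s-1) singFull j) / j^(s-1))^2 → 0` -/
theorem mean_square_full (hA : 2 ≤ A) (hs : 2 - sexp A ≤ 1 / 50) {B : ℝ} (hW : WtFacts B)
    (hM : MinorArcs A (1 / 30000)) :
    Tendsto (fun N : ℕ => (∑ j ∈ Finset.Icc 1 N,
      (mlt A j / (j : ℝ) ^ (sexp A - 1) - sexp A * c0 A * singFull j) ^ 2) / N) atTop (𝓝 0) := by
  set s := sexp A with hsdef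
  set b := s * c0 A with hb
  obtain ⟨C, hC, hCt⟩ := sing_tail_mean
  rw [Metric.tendsto_atTop]
  intro ε hε
  set p : ℝ := 2 * s - 2 with hp
  have hp1 : 1 ≤ p := by rw [hp]; linarith
  set ρ : ℝ := ε / (8 * (p + 1)) with hρ
  have hρ0 : 0 < ρ := by positivity
  obtain ⟨Q1, hQ1⟩ := mean_square hA hs hW hM ρ hρ0
  obtain ⟨Q2, hQ2⟩ := exists_nat_gt (16 * b ^ 2 * C / ε)
  set Q0 : ℕ := max Q1 (max Q2 1) with hQ0
  have hQ01 : 1 ≤ Q0 := (le_max_right _ _).trans (le_max_right _ _)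
  obtain ⟨N0, hN0⟩ := hQ1 Q0 (le_max_left _ _)
  have hQ0r : (0 : ℝ) < Q0 := by exact_mod_cast hQ01
  have hQb : 16 * b ^ 2 * C / ε ≤ Q0 := by
    have h1 : (Q2 : ℝ) ≤ Q0 := by
      exact_mod_cast (le_max_left Q2 1).trans (le_max_right Q1 (max Q2 1))
    linarith
  obtain ⟨K, hK0, hK⟩ := cirD_partial (p := p) hp1 hρ0.le
    (fun j => (mlt A j - gmod A Q0 j) ^ 2) (fun j => sq_nonneg _) N0 (by
      intro N hN
      have h1 := hN0 N hN
      rwa [show p + 1 = 2 * s - 1 by rw [hp]; ring])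
  obtain ⟨N1, hN1⟩ := exists_nat_gt (8 * K / ε)
  refine ⟨max N1 1, fun N hN => ?_⟩
  have hN1' : 1 ≤ N := (le_max_right _ _).trans hN
  have hNr : (0 : ℝ) < N := by exact_mod_cast hN1'
  have hNK : 8 * K / ε < N := by
    have : (N1 : ℝ) ≤ N := by exact_mod_cast (le_max_left _ _).trans hN
    linarith
  have hterm : ∀ j ∈ Finset.Icc 1 N,
      (mlt A j / (j : ℝ) ^ (s - 1) - b * singFull j) ^ 2 ≤
        2 * ((mlt A j - gmod A Q0 j) ^ 2 * (j : ℝ) ^ (-p)) +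
        2 * b ^ 2 * (sing Q0 j - singFull j) ^ 2 := by
    intro j hj
    have hj1 := (Finset.mem_Icc.1 hj).1
    have hj0 : (0 : ℝ) < j := by exact_mod_cast hj1
    have hjp : 0 < (j : ℝ) ^ (s - 1) := Real.rpow_pos_of_pos hj0 _
    have h1 : (j : ℝ) ^ (-p) = (((j : ℝ) ^ (s - 1)) ^ 2)⁻¹ := by
      rw [← Real.rpow_natCast, ← Real.rpow_mul hj0.le, ← Real.rpow_neg hj0.le]
      congr 1
      rw [hp]
      push_cast
      ring
    have h2 : mlt A j / (j : ℝ) ^ (s - 1) - b * singFull j =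
        (mlt A j - gmod A Q0 j) / (j : ℝ) ^ (s - 1) + b * (sing Q0 j - singFull j) := by
      have h3 : gmod A Q0 j = b * (j : ℝ) ^ (s - 1) * sing Q0 j := rfl
      rw [h3]
      field_simp
      ring
    have h4 : (mlt A j - gmod A Q0 j) ^ 2 * (j : ℝ) ^ (-p) =
        ((mlt A j - gmod A Q0 j) / (j : ℝ) ^ (s - 1)) ^ 2 := by
      rw [h1, div_pow]
      rfl
    rw [h2, h4]
    nlinarith [sq_nonneg ((mlt A j - gmod A Q0 j) / (j : ℝ) ^ (s - 1) -
      b * (sing Q0 j - singFull j))]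
  have hsum : ∑ j ∈ Finset.Icc 1 N, (mlt A j / (j : ℝ) ^ (s - 1) - b * singFull j) ^ 2 ≤
      2 * ((p + 1) * ρ * N + K) + 2 * b ^ 2 * (C * N / Q0) := by
    refine (Finset.sum_le_sum hterm).trans ?_
    rw [Finset.sum_add_distrib, ← Finset.mul_sum, ← Finset.mul_sum]
    have h1 := hK N hN1'
    have h2 := hCt Q0 N hQ01 hN1'
    have h3 : 2 * b ^ 2 * ∑ j ∈ Finset.Icc 1 N, (sing Q0 j - singFull j) ^ 2 ≤
        2 * b ^ 2 * (C * N / Q0) := mul_le_mul_of_nonneg_left h2 (by positivity)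
    linarith
  have hnn : 0 ≤ (∑ j ∈ Finset.Icc 1 N,
      (mlt A j / (j : ℝ) ^ (s - 1) - b * singFull j) ^ 2) / N :=
    div_nonneg (Finset.sum_nonneg fun j _ => sq_nonneg _) hNr.le
  rw [Real.dist_eq, sub_zero, abs_of_nonneg hnn, div_lt_iff₀ hNr]
  refine lt_of_le_of_lt hsum ?_
  have h1 : 2 * ((p + 1) * ρ * N) = ε / 4 * N := by
    rw [hρ]
    have : p + 1 ≠ 0 := by linarith
    field_simp
    ring
  have h2 : 2 * K < ε / 4 * N := by
    rw [div_lt_iff₀ hε] at hNK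
    linarith
  have h3 : 2 * b ^ 2 * (C * N / Q0) ≤ ε / 8 * N := by
    rw [div_le_iff₀ hε] at hQb
    have h4 : 2 * b ^ 2 * (C * N / Q0) = (2 * b ^ 2 * C / Q0) * N := by ring
    rw [h4]
    refine mul_le_mul_of_nonneg_right ?_ hNr.le
    rw [div_le_iff₀ hQ0r]
    linarith
  have h5 : 0 < ε * N := by positivity
  linarith

/-- C6: the final statement for one alphabet -/
theorem goal_of (hA : 2 ≤ A) (hs : 2 - sexp A ≤ 1 / 50) {B : ℝ} (hW : WtFacts B)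
    (hM : MinorArcs A (1 / 30000)) :
    Tendsto (fun N : ℕ => (∑ n ∈ Finset.Icc 1 N, |(Public.mult A n : ℝ) / Public.R A n - 1|) / N)
      atTop (𝓝 0) := by
  have hfull := mean_square_full hA hs hW hM
  set s := sexp A with hsdef
  have hs0 : 0 < s := by linarith
  set b := s * c0 A with hb
  have hb0 : 0 < b := mul_pos hs0 (c0_pos A)
  obtain ⟨C, hC, hCt⟩ := singFull_inv_mean
  rw [Metric.tendsto_atTop] at hfull ⊢
  intro ε hε
  set δ : ℝ := min (1 / 2) (ε / 8) with hδ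
  have hδ0 : 0 < δ := by positivity
  have hδ1 : δ ≤ 1 / 2 := min_le_left _ _
  have hδ2 : δ ≤ ε / 8 := min_le_right _ _
  obtain ⟨n0, hn0⟩ := R_asymp hA (b * δ) (by positivity)
  set n1 : ℕ := max n0 2 with hn1
  set f : ℕ → ℝ := fun n => |(Public.mult A n : ℝ) / Public.R A n - 1| with hf
  set x : ℕ → ℝ := fun n => |mlt A n / (n : ℝ) ^ (s - 1) - b * singFull n| with hx
  set K : ℝ := ∑ n ∈ Finset.Icc 1 n1, f n with hK
  have hK0 : 0 ≤ K := Finset.sum_nonneg fun n _ => abs_nonneg _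
  obtain ⟨N2, hN2⟩ := hfull (ε ^ 2 * b ^ 2 / (64 * C)) (by positivity)
  obtain ⟨N3, hN3⟩ := exists_nat_gt (4 * K / ε)
  refine ⟨max N2 (max N3 1), fun N hN => ?_⟩
  have hN1' : 1 ≤ N := ((le_max_right _ _).trans (le_max_right _ _)).trans hN
  have hNr : (0 : ℝ) < N := by exact_mod_cast hN1'
  have hNK : 4 * K / ε < N := by
    have : (N3 : ℝ) ≤ N := by
      exact_mod_cast ((le_max_left N3 1).trans (le_max_right N2 (max N3 1))).trans hN
    linarith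
  -- pointwise
  have hpt : ∀ n ∈ Finset.Icc 1 N, f n ≤ (if n ≤ n1 then f n else 0) +
      (2 * (x n * (1 / (b * singFull n))) + 2 * δ) := by
    intro n hn
    have hn1' := (Finset.mem_Icc.1 hn).1
    have hsf : 0 < singFull n := singFull_pos hn1'
    by_cases h1 : n ≤ n1
    · rw [if_pos h1]
      have : 0 ≤ 2 * (x n * (1 / (b * singFull n))) + 2 * δ := by
        have : 0 ≤ x n := abs_nonneg _
        positivity
      linarith
    · rw [if_neg h1, zero_add]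
      have h2 : n0 ≤ n := by
        have := le_max_left n0 2
        omega
      have h3 : 2 ≤ n := by
        have := le_max_right n0 2
        omega
      have hn0' : (0 : ℝ) < n := by exact_mod_cast hn1'
      have hnp : 0 < (n : ℝ) ^ (s - 1) := Real.rpow_pos_of_pos hn0' _
      set T : ℝ := b * (n : ℝ) ^ (s - 1) * singFull n with hT
      have hT0 : 0 < T := by positivity
      have h4 : |Public.R A n - T| ≤ δ * T := by
        have := hn0 n h2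
        calc |Public.R A n - T| ≤ b * δ * ((n : ℝ) ^ (s - 1) * singFull n) := this
          _ = δ * T := by rw [hT]; ring
      have h5 := abs_le.1 h4
      have hR : T / 2 ≤ Public.R A n := by nlinarith [h5.1]
      have hR0 : 0 < Public.R A n := by linarith
      have h6 : f n = |mlt A n - Public.R A n| / Public.R A n := by
        simp only [hf]
        rw [mult_eq A h3, div_sub_one hR0.ne', abs_div, abs_of_pos hR0]
      have h7 : |mlt A n - Public.R A n| ≤ |mlt A n - T| + δ * T := by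
        calc |mlt A n - Public.R A n| = |(mlt A n - T) - (Public.R A n - T)| := by
              congr 1; ring
          _ ≤ |mlt A n - T| + |Public.R A n - T| := abs_sub _ _
          _ ≤ _ := by linarith
      have h8 : |mlt A n - T| = x n * (n : ℝ) ^ (s - 1) := by
        simp only [hx]
        rw [← abs_of_pos hnp, ← abs_mul, abs_of_pos hnp]
        congr 1
        rw [hT]
        field_simp
      rw [h6]
      calc |mlt A n - Public.R A n| / Public.R A n ≤ (|mlt A n - T| + δ * T) / (T / 2) := by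
            apply div_le_div₀ (by positivity) h7 (by positivity) hR
        _ = 2 * (x n * (1 / (b * singFull n))) + 2 * δ := by
            rw [h8, hT]
            field_simp
  have hCS : ∑ n ∈ Finset.Icc 1 N, x n * (1 / (b * singFull n)) ≤ ε / 8 * N := by
    have h1 := Finset.sum_mul_sq_le_sq_mul_sq (Finset.Icc 1 N) x
      (fun n => 1 / (b * singFull n))
    have h2 : ∑ n ∈ Finset.Icc 1 N, x n ^ 2 ≤ ε ^ 2 * b ^ 2 / (64 * C) * N := by
      have h3 := hN2 N ((le_max_left _ _).trans hN)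
      have hnn : 0 ≤ (∑ j ∈ Finset.Icc 1 N,
          (mlt A j / (j : ℝ) ^ (s - 1) - b * singFull j) ^ 2) / N :=
        div_nonneg (Finset.sum_nonneg fun j _ => sq_nonneg _) hNr.le
      rw [Real.dist_eq, sub_zero, abs_of_nonneg hnn, div_lt_iff₀ hNr] at h3
      refine le_of_eq_of_le ?_ h3.le
      refine Finset.sum_congr rfl fun n _ => ?_
      simp only [hx]
      rw [sq_abs]
    have h4 : ∑ n ∈ Finset.Icc 1 N, (1 / (b * singFull n)) ^ 2 ≤ C * N / b ^ 2 := by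
      have h5 := hCt N hN1'
      have h6 : ∑ n ∈ Finset.Icc 1 N, (1 / (b * singFull n)) ^ 2 =
          (∑ n ∈ Finset.Icc 1 N, 1 / (singFull n) ^ 2) / b ^ 2 := by
        rw [Finset.sum_div]
        refine Finset.sum_congr rfl fun n _ => ?_
        rw [div_pow, mul_pow, one_pow, div_div, mul_comm]
      rw [h6]
      exact div_le_div_of_nonneg_right h5 (by positivity)
    have h7 : (∑ n ∈ Finset.Icc 1 N, x n * (1 / (b * singFull n))) ^ 2 ≤ (ε / 8 * N) ^ 2 := by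
      refine h1.trans ?_
      calc (∑ n ∈ Finset.Icc 1 N, x n ^ 2) * (∑ n ∈ Finset.Icc 1 N, (1 / (b * singFull n)) ^ 2)
          ≤ (ε ^ 2 * b ^ 2 / (64 * C) * N) * (C * N / b ^ 2) :=
            mul_le_mul h2 h4 (Finset.sum_nonneg fun n _ => sq_nonneg _) (by positivity)
        _ = (ε / 8 * N) ^ 2 := by
            field_simp
            ring
    exact abs_le_of_sq_le_sq' h7 (by positivity) |>.2
  have hsum : ∑ n ∈ Finset.Icc 1 N, f n ≤ K + (2 * (ε / 8 * N) + 2 * δ * N) := by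
    refine (Finset.sum_le_sum hpt).trans ?_
    rw [Finset.sum_add_distrib]
    refine add_le_add ?_ ?_
    · rw [← Finset.sum_filter]
      refine Finset.sum_le_sum_of_subset_of_nonneg ?_ fun n _ _ => abs_nonneg _
      intro n hn
      rw [Finset.mem_filter, Finset.mem_Icc] at hn
      exact Finset.mem_Icc.2 ⟨hn.1.1, hn.2⟩
    · rw [Finset.sum_add_distrib, ← Finset.mul_sum, Finset.sum_const, Nat.card_Icc,
        nsmul_eq_mul, Nat.add_sub_cancel]
      nlinarith [hCS]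
  have hnn : 0 ≤ (∑ n ∈ Finset.Icc 1 N, f n) / N :=
    div_nonneg (Finset.sum_nonneg fun n _ => abs_nonneg _) hNr.le
  rw [Real.dist_eq, sub_zero, abs_of_nonneg hnn, div_lt_iff₀ hNr]
  refine lt_of_le_of_lt hsum ?_
  have h2 : K < ε / 4 * N := by
    rw [div_lt_iff₀ hε] at hNK
    linarith
  have h3 : 2 * δ * N ≤ ε / 4 * N := by
    refine mul_le_mul_of_nonneg_right ?_ hNr.le
    linarith
  have h5 : 0 < ε * N := by positivity
  linarith

end Pool.Agent.W_f50700_h3
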