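import Pool.Agent.W_f50700_h3.Ren5

/-!
Ren6: Theorem R and its corollary for windows (row 437).
-/

open Matrix Filter Topology

namespace Pool.Agent.W_f50700_h3

variable {A : ℕ}

theorem ren6_count_eq (q : ℕ) (t : ℝ) (y : ZMod q × ZMod q) :
    cntR A q t 0 y =
      (((wordsF A (Real.exp t)).filter (fun w => vact q (mat w) (1, 0) = y)).card : ℝ) := by
  classical
  rw [ren1_cntR, Nat.cast_inj]
  congr 1
  ext w
  rw [ren1_mem (le_refl 0), rphi_zero, Finset.mem_filter, mem_wordsF]

theorem ren6_limit (hA : 2 ≤ A) (q : ℕ) [NeZero q] : ∃ L : ℝ, ∀ y : ZMod q × ZMod q,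
    IsCoprime y.1 y.2 →
    Tendsto (fun X : ℝ => (((wordsF A X).filter (fun w => vact q (mat w) (1, 0) = y)).card : ℝ) /
      X ^ (sexp A)) atTop (𝓝 L) := by
  obtain ⟨E⟩ := exists_eig (A := A) (by omega)
  obtain ⟨M, hM0, hM⟩ := fR_tendsto hA E q
  have h00 : (0 : ℝ) ∈ Set.Icc (0 : ℝ) 1 := ⟨le_refl _, zero_le_one⟩
  have hh : 0 < E.h 0 := ren1_h_pos E h00
  refine ⟨M * E.h 0, ?_⟩
  intro y hy
  have h1 : Tendsto (fun t : ℝ => fR E q t 0 y) atTop (𝓝 M) := by
    rw [Metric.tendsto_atTop]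
    intro ε hε
    obtain ⟨t2, h2⟩ := hM (ε / 2) (by linarith)
    refine ⟨t2, fun t ht => ?_⟩
    rw [Real.dist_eq]
    exact lt_of_le_of_lt (h2 t ht 0 h00 y hy) (by linarith)
  have h2 : Tendsto (fun X : ℝ => fR E q (Real.log X) 0 y * E.h 0) atTop (𝓝 (M * E.h 0)) :=
    (h1.comp Real.tendsto_log_atTop).mul_const _
  refine h2.congr' ?_
  filter_upwards [eventually_gt_atTop (0 : ℝ)] with X hX
  unfold fR
  rw [ren6_count_eq, Real.exp_log hX, div_mul_cancel₀ _ hh.ne']
  have e1 : Real.exp (-(sexp A) * Real.log X) = (X ^ (sexp A))⁻¹ := by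
    rw [← Real.rpow_neg hX.le, Real.rpow_def_of_pos hX]
    congr 1
    ring
  rw [e1]
  field_simp

theorem ren6_card_fiber (q : ℕ) [NeZero q] (X : ℝ) [DecidablePred fun y : ZMod q × ZMod q => IsCoprime y.1 y.2] :
    ((wordsF A X).card : ℝ) = ∑ y ∈ (Finset.univ : Finset (ZMod q × ZMod q)).filter
      (fun y => IsCoprime y.1 y.2),
      (((wordsF A X).filter (fun w => vact q (mat w) (1, 0) = y)).card : ℝ) := by
  have h := Finset.card_eq_sum_card_fiberwise (s := wordsF A X)
    (f := fun w => vact q (mat w) (1, 0))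
    (t := (Finset.univ : Finset (ZMod q × ZMod q)).filter (fun y => IsCoprime y.1 y.2)) ?_
  · rw [h]
    push_cast
    rfl
  · intro w _
    rw [Finset.coe_filter]
    refine ⟨Finset.mem_univ _, ?_⟩
    rw [vact_coprime]
    exact isCoprime_one_left

theorem ren6_nprim (q : ℕ) [NeZero q] [DecidablePred fun y : ZMod q × ZMod q => IsCoprime y.1 y.2] :
    nprim q = ((Finset.univ : Finset (ZMod q × ZMod q)).filter
      (fun y => IsCoprime y.1 y.2)).card := by
  unfold nprim
  rw [Nat.card_eq_fintype_card, Fintype.card_subtype]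

theorem ren6_nprim_pos (q : ℕ) [NeZero q] : 0 < nprim q := by
  classical
  rw [ren6_nprim, Finset.card_pos]
  exact ⟨(1, 0), Finset.mem_filter.2 ⟨Finset.mem_univ _, isCoprime_one_left⟩⟩

theorem ren6_total (q : ℕ) [NeZero q] {L : ℝ} (h : ∀ y : ZMod q × ZMod q,
    IsCoprime y.1 y.2 →
    Tendsto (fun X : ℝ => (((wordsF A X).filter (fun w => vact q (mat w) (1, 0) = y)).card : ℝ) /
      X ^ (sexp A)) atTop (𝓝 L)) :
    Tendsto (fun X : ℝ => ((wordsF A X).card : ℝ) / X ^ (sexp A)) atTop (𝓝 (nprim q * L)) := by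
  classical
  have h1 : Tendsto (fun X : ℝ => ∑ y ∈ (Finset.univ : Finset (ZMod q × ZMod q)).filter
      (fun y => IsCoprime y.1 y.2),
      (((wordsF A X).filter (fun w => vact q (mat w) (1, 0) = y)).card : ℝ) / X ^ (sexp A)) atTop
      (𝓝 (∑ y ∈ (Finset.univ : Finset (ZMod q × ZMod q)).filter
      (fun y => IsCoprime y.1 y.2), L)) := by
    refine tendsto_finsetSum _ fun y hy => ?_
    exact h y (Finset.mem_filter.1 hy).2
  rw [Finset.sum_const, ← ren6_nprim, nsmul_eq_mul] at h1
  refine h1.congr fun X => ?_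
  rw [ren6_card_fiber q X, Finset.sum_div]

/-- Theorem R -/
theorem renewal (hA : 2 ≤ A) : ∃ c0 : ℝ, 0 < c0 ∧ ∀ (q : ℕ) [NeZero q] (y : ZMod q × ZMod q),
    IsCoprime y.1 y.2 →
    Tendsto (fun X : ℝ => (((wordsF A X).filter (fun w => vact q (mat w) (1, 0) = y)).card : ℝ) /
      X ^ (sexp A)) atTop (𝓝 (c0 / nprim q)) := by
  obtain ⟨L1, hL1⟩ := ren6_limit hA 1
  have h1 := ren6_total 1 hL1
  refine ⟨nprim 1 * L1, ?_, ?_⟩
  · obtain ⟨c, C, hc, hC, hb⟩ := card_wordsF_bounds (A := A) (by omega)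
    refine lt_of_lt_of_le hc (ge_of_tendsto h1 ?_)
    filter_upwards [eventually_ge_atTop (1 : ℝ)] with X hX
    have h2 := (hb X hX).1
    have h3 : 0 < X ^ (sexp A) := Real.rpow_pos_of_pos (by linarith) _
    rwa [le_div_iff₀ h3]
  · intro q _ y hy
    obtain ⟨L, hL⟩ := ren6_limit hA q
    have h2 := ren6_total q hL
    have h3 := tendsto_nhds_unique h2 h1
    rw [← h3]
    have h4 : (0 : ℝ) < nprim q := by exact_mod_cast ren6_nprim_pos q
    rw [mul_div_cancel_left₀ _ h4.ne']
    exact hL y hy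

/-- the constant of Theorem R -/
noncomputable def c0 (A : ℕ) : ℝ := by
  classical
  exact if h : 2 ≤ A then (renewal h).choose else 1

theorem c0_pos (A : ℕ) : 0 < c0 A := by
  unfold c0
  split_ifs with h
  · exact (renewal h).choose_spec.1
  · exact one_pos

theorem c0_spec (hA : 2 ≤ A) (q : ℕ) [NeZero q] (y : ZMod q × ZMod q) (hy : IsCoprime y.1 y.2) :
    Tendsto (fun X : ℝ => (((wordsF A X).filter (fun w => vact q (mat w) (1, 0) = y)).card : ℝ) /
      X ^ (sexp A)) atTop (𝓝 (c0 A / nprim q)) := by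
  unfold c0
  rw [dif_pos hA]
  exact (renewal hA).choose_spec.2 q y hy

/-- `q = 1`: number of all words -/
theorem card_wordsF_tendsto (hA : 2 ≤ A) :
    Tendsto (fun X : ℝ => ((wordsF A X).card : ℝ) / X ^ (sexp A)) atTop (𝓝 (c0 A)) := by
  have h := ren6_total 1 (L := c0 A / nprim 1) (fun y hy => c0_spec hA 1 y hy)
  have h4 : (0 : ℝ) < nprim 1 := by exact_mod_cast ren6_nprim_pos 1
  rwa [mul_div_cancel₀ _ h4.ne'] at h

/-! ### windows -/

/-- partition points -/
noncomputable def ren6_u (K k : ℕ) : ℝ := -2 + 4 * (k : ℝ) / K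

theorem ren6_u_zero (K : ℕ) : ren6_u K 0 = -2 := by simp [ren6_u]

theorem ren6_u_last {K : ℕ} (hK : 0 < K) : ren6_u K K = 2 := by
  unfold ren6_u
  have : (K : ℝ) ≠ 0 := by exact_mod_cast hK.ne'
  field_simp
  norm_num

theorem ren6_u_succ (K k : ℕ) : ren6_u K (k + 1) = ren6_u K k + 4 / K := by
  unfold ren6_u
  push_cast
  ring

theorem ren6_u_le (K k : ℕ) : ren6_u K k ≤ ren6_u K (k + 1) := by
  rw [ren6_u_succ]
  have : (0 : ℝ) ≤ 4 / K := by positivity
  linarith

theorem ren6_u_mono (K : ℕ) : Monotone (ren6_u K) :=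
  monotone_nat_of_le_succ (ren6_u_le K)

/-- the discrete side of the Riemann-Stieltjes comparison -/
theorem ren6_disc (P : List (Lt A) → Prop) [DecidablePred P] (B : ℝ → ℝ) (hB2 : ∀ u ≤ -2, B u = 0)
    {ε δ : ℝ} (hε : 0 ≤ ε) (hδ : ∀ u v : ℝ, |u - v| ≤ δ → |B u - B v| ≤ ε) {K : ℕ}
    (hKδ : 4 / (K : ℝ) ≤ δ) {X : ℝ} (hX : 0 < X) (k : ℕ) :
    |(∑ w ∈ (wordsF A (X * Real.exp (ren6_u K k))).filter P, B (Real.log (F w / X))) -
      ∑ j ∈ Finset.range k, B (ren6_u K j) *
        ((((wordsF A (X * Real.exp (ren6_u K (j + 1)))).filter P).card : ℝ) -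
          (((wordsF A (X * Real.exp (ren6_u K j))).filter P).card : ℝ))| ≤
    ε * (((wordsF A (X * Real.exp (ren6_u K k))).filter P).card : ℝ) := by
  classical
  have hlog : ∀ (w : List (Lt A)) (u : ℝ), (F w : ℝ) ≤ X * Real.exp u ↔
      Real.log (F w / X) ≤ u := by
    intro w u
    rw [Real.log_le_iff_le_exp (div_pos (Base2_F_pos w) hX), div_le_iff₀ hX, mul_comm]
  induction k with
  | zero =>
    rw [Finset.range_zero, Finset.sum_empty, sub_zero, Finset.sum_eq_zero, abs_zero]
    · positivity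
    · intro w hw
      rw [Finset.mem_filter, mem_wordsF, hlog, ren6_u_zero] at hw
      exact hB2 _ hw.1
  | succ k ih =>
    set S0 := (wordsF A (X * Real.exp (ren6_u K k))).filter P with hS0
    set S1 := (wordsF A (X * Real.exp (ren6_u K (k + 1)))).filter P with hS1
    have hsub : S0 ⊆ S1 := by
      intro w hw
      rw [hS0, Finset.mem_filter, mem_wordsF, hlog] at hw
      rw [hS1, Finset.mem_filter, mem_wordsF, hlog]
      exact ⟨hw.1.trans (ren6_u_le K k), hw.2⟩
    have hcard : ((S1 \ S0).card : ℝ) = (S1.card : ℝ) - S0.card := by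
      rw [Finset.cast_card_sdiff hsub]
    rw [Finset.sum_range_succ, ← Finset.sum_sdiff hsub]
    have h1 : |(∑ w ∈ S1 \ S0, B (Real.log (F w / X))) -
        B (ren6_u K k) * ((S1.card : ℝ) - S0.card)| ≤ ε * ((S1.card : ℝ) - S0.card) := by
      rw [← hcard]
      have e1 : B (ren6_u K k) * ((S1 \ S0).card : ℝ) = ∑ w ∈ S1 \ S0, B (ren6_u K k) := by
        rw [Finset.sum_const, nsmul_eq_mul, mul_comm]
      have e2 : ε * ((S1 \ S0).card : ℝ) = ∑ w ∈ S1 \ S0, ε := by
        rw [Finset.sum_const, nsmul_eq_mul, mul_comm]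
      rw [e1, e2, ← Finset.sum_sub_distrib]
      refine (Finset.abs_sum_le_sum_abs _ _).trans (Finset.sum_le_sum fun w hw => ?_)
      rw [Finset.mem_sdiff, hS1, hS0, Finset.mem_filter, mem_wordsF, hlog, Finset.mem_filter,
        mem_wordsF, hlog] at hw
      obtain ⟨⟨h2, h3⟩, h4⟩ := hw
      have h5 : ren6_u K k < Real.log (F w / X) := by
        by_contra h6
        exact h4 ⟨not_lt.1 h6, h3⟩
      refine hδ _ _ ?_
      rw [abs_of_pos (by linarith)]
      rw [ren6_u_succ] at h2
      linarith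
    calc _ = |((∑ w ∈ S1 \ S0, B (Real.log (F w / X))) -
        B (ren6_u K k) * ((S1.card : ℝ) - S0.card)) + ((∑ w ∈ S0, B (Real.log (F w / X))) -
      ∑ j ∈ Finset.range k, B (ren6_u K j) *
        ((((wordsF A (X * Real.exp (ren6_u K (j + 1)))).filter P).card : ℝ) -
          (((wordsF A (X * Real.exp (ren6_u K j))).filter P).card : ℝ)))| := by
          congr 1
          ring
      _ ≤ ε * ((S1.card : ℝ) - S0.card) + ε * S0.card := (abs_add_le _ _).trans (add_le_add h1 ih)
      _ = ε * S1.card := by ring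

/-- the continuous side -/
theorem ren6_cont {s : ℝ} (hs : 0 ≤ s) (B : ℝ → ℝ) (hB : Continuous B)
    {ε δ : ℝ} (hδ : ∀ u v : ℝ, |u - v| ≤ δ → |B u - B v| ≤ ε) {K : ℕ}
    (hKδ : 4 / (K : ℝ) ≤ δ) (k : ℕ) :
    |(∫ u in (-2 : ℝ)..(ren6_u K k), B u * (s * Real.exp (s * u))) -
      ∑ j ∈ Finset.range k, B (ren6_u K j) *
        (Real.exp (s * ren6_u K (j + 1)) - Real.exp (s * ren6_u K j))| ≤
    ε * (Real.exp (s * ren6_u K k) - Real.exp (s * (-2))) := by
  have hcont : Continuous fun u => B u * (s * Real.exp (s * u)) := by fun_prop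
  induction k with
  | zero =>
    rw [ren6_u_zero, intervalIntegral.integral_same, Finset.range_zero, Finset.sum_empty, sub_zero,
      abs_zero, sub_self, mul_zero]
  | succ k ih =>
    have hder : ∀ u : ℝ, HasDerivAt (fun u => Real.exp (s * u)) (s * Real.exp (s * u)) u := by
      intro u
      have h0 : HasDerivAt (fun u : ℝ => s * u) s u := by
        simpa using (hasDerivAt_id u).const_mul s
      have := h0.exp
      rwa [mul_comm] at this
    have hint : ∫ u in (ren6_u K k)..(ren6_u K (k + 1)), (s * Real.exp (s * u)) =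
        Real.exp (s * ren6_u K (k + 1)) - Real.exp (s * ren6_u K k) :=
      intervalIntegral.integral_eq_sub_of_hasDerivAt (fun u _ => hder u)
        ((by fun_prop : Continuous fun u => s * Real.exp (s * u)).intervalIntegrable _ _)
    have hsplit : (∫ u in (-2 : ℝ)..(ren6_u K (k + 1)), B u * (s * Real.exp (s * u))) =
        (∫ u in (-2 : ℝ)..(ren6_u K k), B u * (s * Real.exp (s * u))) +
        ∫ u in (ren6_u K k)..(ren6_u K (k + 1)), B u * (s * Real.exp (s * u)) :=
      (intervalIntegral.integral_add_adjacent_intervals (hcont.intervalIntegrable _ _)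
        (hcont.intervalIntegrable _ _)).symm
    have h1 : |(∫ u in (ren6_u K k)..(ren6_u K (k + 1)), B u * (s * Real.exp (s * u))) -
        B (ren6_u K k) * (Real.exp (s * ren6_u K (k + 1)) - Real.exp (s * ren6_u K k))| ≤
        ε * (Real.exp (s * ren6_u K (k + 1)) - Real.exp (s * ren6_u K k)) := by
      rw [← hint, ← intervalIntegral.integral_const_mul, ← intervalIntegral.integral_const_mul,
        ← intervalIntegral.integral_sub (hcont.intervalIntegrable _ _)
        ((by fun_prop : Continuous fun u => B (ren6_u K k) *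
          (s * Real.exp (s * u))).intervalIntegrable _ _)]
      rw [← Real.norm_eq_abs]
      refine intervalIntegral.norm_integral_le_of_norm_le (ren6_u_le K k) ?_
        ((by fun_prop : Continuous fun u => ε *
          (s * Real.exp (s * u))).intervalIntegrable _ _)
      refine MeasureTheory.ae_of_all _ fun u hu => ?_
      rw [← sub_mul, norm_mul, Real.norm_eq_abs, Real.norm_eq_abs,
        abs_of_nonneg (mul_nonneg hs (Real.exp_pos _).le)]
      refine mul_le_mul_of_nonneg_right ?_ (mul_nonneg hs (Real.exp_pos _).le)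
      refine hδ _ _ ?_
      rw [abs_of_nonneg (by linarith [hu.1])]
      have := hu.2
      rw [ren6_u_succ] at this
      linarith
    rw [hsplit, Finset.sum_range_succ]
    calc _ = |((∫ u in (ren6_u K k)..(ren6_u K (k + 1)), B u * (s * Real.exp (s * u))) -
        B (ren6_u K k) * (Real.exp (s * ren6_u K (k + 1)) - Real.exp (s * ren6_u K k))) +
        ((∫ u in (-2 : ℝ)..(ren6_u K k), B u * (s * Real.exp (s * u))) -
      ∑ j ∈ Finset.range k, B (ren6_u K j) *
        (Real.exp (s * ren6_u K (j + 1)) - Real.exp (s * ren6_u K j)))| := by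
          congr 1
          ring
      _ ≤ _ := (abs_add_le _ _).trans (add_le_add h1 ih)
      _ = _ := by ring

theorem ren6_unif (B : ℝ → ℝ) (hB : Continuous B) (hBs : ∀ u, 2 < |u| → B u = 0) {ε : ℝ}
    (hε : 0 < ε) : ∃ δ > 0, ∀ u v : ℝ, |u - v| ≤ δ → |B u - B v| ≤ ε := by
  have hcs : HasCompactSupport B := by
    refine HasCompactSupport.intro (isCompact_Icc (a := (-2 : ℝ)) (b := 2)) ?_
    intro u hu
    refine hBs u ?_
    by_contra h
    rw [not_lt, abs_le] at h
    exact hu h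
  have hu : UniformContinuous B := hcs.uniformContinuous_of_continuous hB
  rw [Metric.uniformContinuous_iff] at hu
  obtain ⟨δ, hδ, h⟩ := hu ε hε
  refine ⟨δ / 2, by linarith, ?_⟩
  intro u v huv
  have := @h u v (by rw [Real.dist_eq]; linarith)
  rw [Real.dist_eq] at this
  exact this.le

theorem ren6_B_two (B : ℝ → ℝ) (hB : Continuous B) (hBs : ∀ u, 2 < |u| → B u = 0) :
    ∀ u ≤ -2, B u = 0 := by
  intro u hu
  have h1 : Tendsto (fun n : ℕ => B (u - 1 / ((n : ℝ) + 1))) atTop (𝓝 (B (u - 0))) := by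
    refine (hB.tendsto _).comp ?_
    exact tendsto_const_nhds.sub tendsto_one_div_add_atTop_nhds_zero_nat
  rw [sub_zero] at h1
  have h2 : (fun n : ℕ => B (u - 1 / ((n : ℝ) + 1))) = fun _ => 0 := by
    funext n
    refine hBs _ ?_
    have : (0 : ℝ) < 1 / ((n : ℝ) + 1) := by positivity
    rw [abs_of_neg (by linarith)]
    linarith
  rw [h2] at h1
  exact tendsto_nhds_unique h1 tendsto_const_nhds

theorem ren6_window (P : List (Lt A) → Prop) [DecidablePred P] {L : ℝ}
    (h : Tendsto (fun X : ℝ => (((wordsF A X).filter P).card : ℝ) / X ^ (sexp A)) atTop (𝓝 L))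
    (B : ℝ → ℝ) (hB : Continuous B) (hBs : ∀ u, 2 < |u| → B u = 0) :
    Tendsto (fun X : ℝ => (∑ w ∈ (wordsF A (X * Real.exp 2)).filter P, B (Real.log (F w / X))) /
      X ^ (sexp A)) atTop (𝓝 (L * ∫ u in (-2 : ℝ)..2, B u * (sexp A * Real.exp (sexp A * u)))) := by
  set s := sexp A with hs
  have hs0 : 0 ≤ s := sexp_nonneg A
  have hG : ∀ u : ℝ, Tendsto (fun X : ℝ =>
      (((wordsF A (X * Real.exp u)).filter P).card : ℝ) / X ^ s) atTop
      (𝓝 (L * Real.exp (s * u))) := by
    intro u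
    have h1 : Tendsto (fun X : ℝ => X * Real.exp u) atTop atTop :=
      tendsto_id.atTop_mul_const (Real.exp_pos u)
    refine ((h.comp h1).mul_const (Real.exp (s * u))).congr' ?_
    filter_upwards [eventually_gt_atTop (0 : ℝ)] with X hX
    simp only [Function.comp]
    rw [Real.mul_rpow hX.le (Real.exp_pos _).le, ← Real.exp_mul, mul_comm u s]
    have h2 : 0 < X ^ s := Real.rpow_pos_of_pos hX _
    have h3 := Real.exp_pos (s * u)
    field_simp
  set I := ∫ u in (-2 : ℝ)..2, B u * (s * Real.exp (s * u)) with hI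
  have hB2 := ren6_B_two B hB hBs
  rw [Metric.tendsto_atTop]
  intro η hη
  set D := |L| * Real.exp (s * 2) with hD
  have hD0 : 0 ≤ D := mul_nonneg (abs_nonneg _) (Real.exp_pos _).le
  set ε := η / (4 * (D + 1)) with hε
  have hε0 : 0 < ε := by positivity
  obtain ⟨δ, hδ0, hδ⟩ := ren6_unif B hB hBs hε0
  obtain ⟨K, hK⟩ := exists_nat_gt (4 / δ)
  have hK0 : (0 : ℝ) < K := lt_trans (by positivity) hK
  have hK0' : 0 < K := by exact_mod_cast hK0
  have hKδ : 4 / (K : ℝ) ≤ δ := by
    rw [div_le_iff₀ hK0]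
    rw [div_lt_iff₀ hδ0] at hK
    linarith
  set g : ℝ → ℝ := fun X => ∑ j ∈ Finset.range K, B (ren6_u K j) *
        ((((wordsF A (X * Real.exp (ren6_u K (j + 1)))).filter P).card : ℝ) / X ^ s -
          (((wordsF A (X * Real.exp (ren6_u K j))).filter P).card : ℝ) / X ^ s) with hg
  have hglim : Tendsto g atTop (𝓝 (∑ j ∈ Finset.range K, B (ren6_u K j) *
        (L * Real.exp (s * ren6_u K (j + 1)) - L * Real.exp (s * ren6_u K j)))) := by
    refine tendsto_finsetSum _ fun j _ => ?_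
    exact ((hG _).sub (hG _)).const_mul _
  have hlimeq : (∑ j ∈ Finset.range K, B (ren6_u K j) *
        (L * Real.exp (s * ren6_u K (j + 1)) - L * Real.exp (s * ren6_u K j))) =
      L * ∑ j ∈ Finset.range K, B (ren6_u K j) *
        (Real.exp (s * ren6_u K (j + 1)) - Real.exp (s * ren6_u K j)) := by
    rw [Finset.mul_sum]
    refine Finset.sum_congr rfl fun j _ => ?_
    ring
  rw [hlimeq] at hglim
  set J := ∑ j ∈ Finset.range K, B (ren6_u K j) *
        (Real.exp (s * ren6_u K (j + 1)) - Real.exp (s * ren6_u K j)) with hJ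
  have hIJ : |I - J| ≤ ε * Real.exp (s * 2) := by
    have h1 := ren6_cont hs0 B hB hδ hKδ K
    rw [ren6_u_last hK0'] at h1
    refine h1.trans ?_
    have h2 := Real.exp_pos (s * (-2))
    exact mul_le_mul_of_nonneg_left (by linarith) hε0.le
  have hN : Tendsto (fun X : ℝ =>
      (((wordsF A (X * Real.exp 2)).filter P).card : ℝ) / X ^ s) atTop
      (𝓝 (L * Real.exp (s * 2))) := hG 2
  have hNev : ∀ᶠ X in atTop, (((wordsF A (X * Real.exp 2)).filter P).card : ℝ) / X ^ s ≤
      D + 1 := by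
    have h3 : L * Real.exp (s * 2) < D + 1 := by
      have : L * Real.exp (s * 2) ≤ |L| * Real.exp (s * 2) :=
        mul_le_mul_of_nonneg_right (le_abs_self L) (Real.exp_pos _).le
      linarith
    exact (hN.eventually (gt_mem_nhds h3)).mono fun X hX => hX.le
  have hgev : ∀ᶠ X in atTop, |g X - L * J| < η / 4 := by
    have := Metric.tendsto_nhds.1 hglim (η / 4) (by linarith)
    exact this.mono fun X hX => by rwa [Real.dist_eq] at hX
  obtain ⟨X0, hX0⟩ := (((hNev.and hgev).and (eventually_gt_atTop (0 : ℝ)))).exists_forall_of_atTop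
  refine ⟨X0, fun X hX => ?_⟩
  obtain ⟨⟨h1, h2⟩, h3⟩ := hX0 X hX
  rw [Real.dist_eq]
  have hXs : 0 < X ^ s := Real.rpow_pos_of_pos h3 _
  have h4 := ren6_disc P B hB2 hε0.le hδ hKδ h3 K
  rw [ren6_u_last hK0'] at h4
  have h5 : |(∑ w ∈ (wordsF A (X * Real.exp 2)).filter P, B (Real.log (F w / X))) / X ^ s - g X| ≤
      ε * (D + 1) := by
    have e1 : g X = (∑ j ∈ Finset.range K, B (ren6_u K j) *
        ((((wordsF A (X * Real.exp (ren6_u K (j + 1)))).filter P).card : ℝ) -
          (((wordsF A (X * Real.exp (ren6_u K j))).filter P).card : ℝ))) / X ^ s := by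
      rw [hg, Finset.sum_div]
      refine Finset.sum_congr rfl fun j _ => ?_
      ring
    rw [e1, ← sub_div, abs_div, abs_of_pos hXs]
    calc _ ≤ (ε * (((wordsF A (X * Real.exp 2)).filter P).card : ℝ)) / X ^ s :=
          div_le_div_of_nonneg_right h4 hXs.le
      _ = ε * ((((wordsF A (X * Real.exp 2)).filter P).card : ℝ) / X ^ s) := by ring
      _ ≤ _ := mul_le_mul_of_nonneg_left h1 hε0.le
  have h6 : |L * J - L * I| ≤ ε * D := by
    rw [← mul_sub, abs_mul, abs_sub_comm]
    calc |L| * |I - J| ≤ |L| * (ε * Real.exp (s * 2)) :=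
          mul_le_mul_of_nonneg_left hIJ (abs_nonneg _)
      _ = ε * D := by rw [hD]; ring
  have h7 : ε * (D + 1) = η / 4 := by
    rw [hε]
    field_simp
  have h8 : ε * D ≤ ε * (D + 1) := mul_le_mul_of_nonneg_left (by linarith) hε0.le
  calc |(∑ w ∈ (wordsF A (X * Real.exp 2)).filter P, B (Real.log (F w / X))) / X ^ s - L * I|
      = |((∑ w ∈ (wordsF A (X * Real.exp 2)).filter P, B (Real.log (F w / X))) / X ^ s - g X) +
        (g X - L * J) + (L * J - L * I)| := by
        congr 1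
        ring
    _ ≤ |(∑ w ∈ (wordsF A (X * Real.exp 2)).filter P, B (Real.log (F w / X))) / X ^ s - g X| +
        |g X - L * J| + |L * J - L * I| := abs_add_three _ _ _
    _ < η := by linarith

/-- Corollary R' for all words: `B` continuous, supported in `[-2,2]`.  Proof: uniform continuity,
partition of `[-2,2]` into short intervals, Theorem R for the counts. -/
theorem window_all (hA : 2 ≤ A) (B : ℝ → ℝ) (hB : Continuous B) (hBs : ∀ u, 2 < |u| → B u = 0) :
    Tendsto (fun X : ℝ => (∑ w ∈ wordsF A (X * Real.exp 2), B (Real.log (F w / X))) /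
      X ^ (sexp A)) atTop (𝓝 (c0 A * ∫ u in (-2 : ℝ)..2, B u * (sexp A * Real.exp (sexp A * u)))) := by
  have h := ren6_window (A := A) (fun _ => True) (L := c0 A)
    (by simpa using card_wordsF_tendsto hA) B hB hBs
  simpa using h

/-- Corollary R' for new functions of level at least 2 -/
theorem window_new (hA : 2 ≤ A) (B : ℝ → ℝ) (hB : Continuous B) (hBs : ∀ u, 2 < |u| → B u = 0)
    (q : ℕ) [NeZero q] (hq : 2 ≤ q) (h : ZMod q × ZMod q → ℂ) (hh : IsNew q h) :
    Tendsto (fun X : ℝ => (∑ w ∈ wordsF A (X * Real.exp 2), (B (Real.log (F w / X)) : ℂ) *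
      h (vact q (mat w) (1, 0))) / ((X ^ (sexp A) : ℝ) : ℂ)) atTop (𝓝 0) := by
  classical
  set I := ∫ u in (-2 : ℝ)..2, B u * (sexp A * Real.exp (sexp A * u)) with hI
  have h1 : Tendsto (fun X : ℝ => ∑ y : ZMod q × ZMod q, h y *
      (((∑ w ∈ (wordsF A (X * Real.exp 2)).filter (fun w => vact q (mat w) (1, 0) = y),
        B (Real.log (F w / X))) / X ^ (sexp A) : ℝ) : ℂ)) atTop
      (𝓝 (∑ y : ZMod q × ZMod q, h y * ((c0 A / nprim q * I : ℝ) : ℂ))) := by
    refine tendsto_finsetSum _ fun y _ => ?_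
    by_cases hy : IsCoprime y.1 y.2
    · have h2 := ren6_window (A := A) (fun w => vact q (mat w) (1, 0) = y) (c0_spec hA q y hy) B
        hB hBs
      have h3 := ((Complex.continuous_ofReal.tendsto _).comp h2).const_mul (h y)
      exact h3
    · rw [hh.1 y hy]
      simp only [zero_mul]
      exact tendsto_const_nhds
  rw [← Finset.sum_mul, hh.sum_zero hq, zero_mul] at h1
  refine h1.congr fun X => ?_
  rw [← Finset.sum_fiberwise (wordsF A (X * Real.exp 2)) (fun w => vact q (mat w) (1, 0)),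
    Finset.sum_div]
  refine Finset.sum_congr rfl fun y _ => ?_
  push_cast
  rw [mul_div_assoc', Finset.mul_sum]
  congr 1
  refine Finset.sum_congr rfl fun w hw => ?_
  rw [(Finset.mem_filter.1 hw).2, mul_comm]

end Pool.Agent.W_f50700_h3
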