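import Pool.Agent.W_f50700_h3.Sing
import Pool.Agent.W_f50700_h3.Ren6

/-!
CirDefs: the multiplicity in terms of words, the model, the error.
-/

namespace Pool.Agent.W_f50700_h3

/-- number of words with `F w = j` -/
noncomputable def mlt (A j : ℕ) : ℝ :=
  (((wordsF A (j : ℝ)).filter (fun w => F w = j)).card : ℝ)

/-- the model `s c0 j^(s-1) sing Q0 j` -/
noncomputable def gmod (A Q0 j : ℕ) : ℝ :=
  sexp A * c0 A * (j : ℝ) ^ (sexp A - 1) * sing Q0 j

theorem CirDefs_fiber {A N j : ℕ} {X : ℝ} (hj : j ≤ N) (hX : (N : ℝ) ≤ X) [DecidableEq ℕ] :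
    ((wordsF A X).filter (fun w => F w ≤ N)).filter (fun w => F w = j) =
      (wordsF A (j : ℝ)).filter (fun w => F w = j) := by
  ext w
  rw [Finset.mem_filter, Finset.mem_filter, Finset.mem_filter, mem_wordsF, mem_wordsF]
  constructor
  · rintro ⟨_, h⟩
    exact ⟨by rw [h], h⟩
  · rintro ⟨_, h⟩
    refine ⟨⟨?_, by omega⟩, h⟩
    have h1 : (F w : ℝ) ≤ N := by rw [h]; exact_mod_cast hj
    linarith

/-- sum over words as sum over values -/
theorem sum_words_eq {A : ℕ} (N : ℕ) (f : ℕ → ℂ) (hf : ∀ j, N < j → f j = 0) (X : ℝ)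
    (hX : (N : ℝ) ≤ X) :
    ∑ w ∈ wordsF A X, f (F w) = ∑ j ∈ Finset.range (N + 1), (mlt A j : ℂ) * f j := by
  classical
  have h1 : ∑ w ∈ wordsF A X, f (F w) =
      ∑ w ∈ (wordsF A X).filter (fun w => F w ≤ N), f (F w) := by
    rw [Finset.sum_filter]
    refine Finset.sum_congr rfl fun w _ => ?_
    split_ifs with h
    · rfl
    · exact hf _ (by omega)
  rw [h1, ← Finset.sum_fiberwise_of_maps_to (t := Finset.range (N + 1)) (g := fun w => F w)
    (fun w hw => by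
      rw [Finset.mem_filter] at hw
      exact Finset.mem_range.2 (by omega))]
  refine Finset.sum_congr rfl fun j hj => ?_
  rw [Finset.mem_range] at hj
  rw [CirDefs_fiber (by omega) hX]
  rw [Finset.sum_congr rfl (g := fun _ => f j) (fun w hw => by
    rw [(Finset.mem_filter.1 hw).2]), Finset.sum_const, nsmul_eq_mul]
  unfold mlt
  push_cast
  rfl

/-- partial sums of `mlt` are the number of words -/
theorem sum_mlt {A : ℕ} (N : ℕ) : ∑ j ∈ Finset.range (N + 1), mlt A j = ((wordsF A N).card : ℝ) := by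
  have h1 := sum_words_eq (A := A) N (fun j => if j ≤ N then 1 else 0)
    (fun j hj => if_neg (by omega)) (N : ℝ) le_rfl
  have h2 : ∑ w ∈ wordsF A (N : ℝ), (if F w ≤ N then (1 : ℂ) else 0) =
      ((wordsF A (N : ℝ)).card : ℂ) := by
    rw [Finset.sum_congr rfl (g := fun _ => (1 : ℂ)) (fun w hw => by
      rw [mem_wordsF] at hw
      rw [if_pos (by exact_mod_cast hw)]), Finset.sum_const, nsmul_eq_mul, mul_one]
  have h3 : ∑ j ∈ Finset.range (N + 1), (mlt A j : ℂ) * (if j ≤ N then (1 : ℂ) else 0) =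
      ∑ j ∈ Finset.range (N + 1), (mlt A j : ℂ) := by
    refine Finset.sum_congr rfl fun j hj => ?_
    rw [Finset.mem_range] at hj
    rw [if_pos (by omega), mul_one]
  rw [h3, h2] at h1
  exact_mod_cast h1.symm

theorem mlt_nonneg (A j : ℕ) : 0 ≤ mlt A j := Nat.cast_nonneg _

/-- `mlt j ≤ j` for `j ≥ 1` (first row determines the word, second entry below `j`) -/
theorem mlt_le (A : ℕ) {j : ℕ} (hj : 1 ≤ j) : mlt A j ≤ j := by
  unfold mlt
  have h1 : ((wordsF A (j : ℝ)).filter (fun w => F w = j)).card ≤ (Finset.range j).card := by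
    refine Finset.card_le_card_of_injOn (fun w => m12 w) ?_ ?_
    · intro w hw
      have hw' := (Finset.mem_filter.1 hw).2
      have h2 : m12 w < j := by have := m12_lt w; omega
      exact Finset.mem_coe.2 (Finset.mem_range.2 h2)
    · intro u hu w hw huw
      exact row_injective ((Finset.mem_filter.1 hu).2.trans (Finset.mem_filter.1 hw).2.symm) huw
  rw [Finset.card_range] at h1
  exact_mod_cast h1

/-- `∑_{j ≤ X} (mlt + |gmod|) ≤ C X^s` -/
theorem sum_mlt_gmod_le {A : ℕ} (hA : 2 ≤ A) (h1 : 1 < sexp A) (Q0 : ℕ) : ∃ C : ℝ, 0 < C ∧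
    ∀ X : ℕ, 1 ≤ X →
    ∑ j ∈ Finset.Icc 1 X, (mlt A j + |gmod A Q0 j|) ≤ C * (X : ℝ) ^ (sexp A) := by
  obtain ⟨c, C, hc, hC, hw⟩ := card_wordsF_bounds hA
  obtain ⟨D, hD, hs⟩ := abs_sing_le Q0
  have hc0 := c0_pos A
  have hse : 0 < sexp A := by linarith
  refine ⟨C + sexp A * c0 A * D, by positivity, fun X hX => ?_⟩
  have hX0 : (0 : ℝ) < X := by exact_mod_cast hX
  have hX1 : (1 : ℝ) ≤ X := by exact_mod_cast hX
  rw [Finset.sum_add_distrib]
  have h1 : ∑ j ∈ Finset.Icc 1 X, mlt A j ≤ C * (X : ℝ) ^ (sexp A) := by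
    refine le_trans ?_ (hw X hX1).2
    rw [← sum_mlt]
    refine Finset.sum_le_sum_of_subset_of_nonneg ?_ fun j _ _ => mlt_nonneg A j
    intro j hj
    rw [Finset.mem_Icc] at hj
    exact Finset.mem_range.2 (by omega)
  have h2 : ∀ j ∈ Finset.Icc 1 X, |gmod A Q0 j| ≤ sexp A * c0 A * D * (X : ℝ) ^ (sexp A - 1) := by
    intro j hj
    rw [Finset.mem_Icc] at hj
    have hj0 : (0 : ℝ) ≤ j := Nat.cast_nonneg j
    have hjX : (j : ℝ) ≤ X := by exact_mod_cast hj.2
    have h3 : (j : ℝ) ^ (sexp A - 1) ≤ (X : ℝ) ^ (sexp A - 1) :=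
      Real.rpow_le_rpow hj0 hjX (by linarith)
    unfold gmod
    rw [abs_mul, abs_of_nonneg (by positivity : 0 ≤ sexp A * c0 A * (j : ℝ) ^ (sexp A - 1))]
    calc sexp A * c0 A * (j : ℝ) ^ (sexp A - 1) * |sing Q0 j| ≤
          sexp A * c0 A * (X : ℝ) ^ (sexp A - 1) * D := by
          refine mul_le_mul ?_ (hs j) (abs_nonneg _) (by positivity)
          exact mul_le_mul_of_nonneg_left h3 (by positivity)
      _ = sexp A * c0 A * D * (X : ℝ) ^ (sexp A - 1) := by ring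
  have h3 := Finset.sum_le_sum h2
  rw [Finset.sum_const, Nat.card_Icc, nsmul_eq_mul] at h3
  have h4 : ((X + 1 - 1 : ℕ) : ℝ) * (sexp A * c0 A * D * (X : ℝ) ^ (sexp A - 1)) =
      sexp A * c0 A * D * (X : ℝ) ^ (sexp A) := by
    rw [Nat.add_sub_cancel, Real.rpow_sub_one hX0.ne']
    field_simp
  rw [h4] at h3
  calc _ ≤ C * (X : ℝ) ^ (sexp A) + sexp A * c0 A * D * (X : ℝ) ^ (sexp A) := add_le_add h1 h3
    _ = (C + sexp A * c0 A * D) * (X : ℝ) ^ (sexp A) := by ring

end Pool.Agent.W_f50700_h3
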