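import Pool.Agent.W_f50700_h3.Expo2

/-!
Coll: collisions mod `d` of first passage words (row 436, L4), definitions and assembly.
-/

open Matrix

namespace Pool.Agent.W_f50700_h3

/-- integer matrices `(a b; c e)` of determinant one, congruent to `1` mod `d`, entries at most `R`
in absolute value -/
noncomputable def gamF (d R : ℕ) : Finset (ℤ × ℤ × ℤ × ℤ) :=
  ((Finset.Icc (-(R : ℤ)) R) ×ˢ (Finset.Icc (-(R : ℤ)) R) ×ˢ (Finset.Icc (-(R : ℤ)) R) ×ˢ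
    (Finset.Icc (-(R : ℤ)) R)).filter
    (fun g => g.1 * g.2.2.2 - g.2.1 * g.2.2.1 = 1 ∧ (d : ℤ) ∣ g.1 - 1 ∧ (d : ℤ) ∣ g.2.1 ∧
      (d : ℤ) ∣ g.2.2.1 ∧ (d : ℤ) ∣ g.2.2.2 - 1)

/-- the lattice points `r = (x, y)` with `|r| ≤ X` and `|r g| ≤ X` (row vector times matrix) -/
noncomputable def omF (g : ℤ × ℤ × ℤ × ℤ) (X : ℕ) : Finset (ℤ × ℤ) :=
  ((Finset.Icc (-(X : ℤ)) X) ×ˢ (Finset.Icc (-(X : ℤ)) X)).filter
    (fun r => |r.1 * g.1 + r.2 * g.2.2.1| ≤ (X : ℤ) ∧ |r.1 * g.2.1 + r.2 * g.2.2.2| ≤ (X : ℤ))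

/-- maximum norm -/
def gmax (g : ℤ × ℤ × ℤ × ℤ) : ℤ := max (max |g.1| |g.2.1|) (max |g.2.2.1| |g.2.2.2|)

end Pool.Agent.W_f50700_h3
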