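import Pool.Agent.W_f50700_h3.Coll

/-!
Coll2: lattice points with a basis in a symmetric convex set.
-/

namespace Pool.Agent.W_f50700_h3

/-- a finite set of integers on which `x u + v` is bounded by `Y` -/
theorem Coll2_line (u v Y : ℤ) (hY : 0 ≤ Y) (s : Finset ℤ) (hs : ∀ x ∈ s, |x * u + v| ≤ Y) :
    (s.card : ℤ) * |u| ≤ 2 * Y + |u| := by
  rcases s.eq_empty_or_nonempty with h | h
  · subst h
    simp only [Finset.card_empty, Nat.cast_zero, zero_mul]
    positivity
  · set M := s.max' h with hM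
    set N := s.min' h with hN
    have h1 : s ⊆ Finset.Icc N M := fun x hx =>
      Finset.mem_Icc.2 ⟨s.min'_le x hx, s.le_max' x hx⟩
    have h2 : s.card ≤ (M + 1 - N).toNat := by
      have := Finset.card_le_card h1
      rwa [Int.card_Icc] at this
    have hNM : N ≤ M := s.min'_le M (s.max'_mem h)
    have h3 : (s.card : ℤ) ≤ M + 1 - N := by
      have : ((M + 1 - N).toNat : ℤ) = M + 1 - N := Int.toNat_of_nonneg (by omega)
      rw [← this]
      exact_mod_cast h2
    have h4 : (M - N) * |u| ≤ 2 * Y := by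
      have e1 := hs M (s.max'_mem h)
      have e2 := hs N (s.min'_mem h)
      have e3 : (M - N) * |u| = |(M * u + v) - (N * u + v)| := by
        rw [show (M * u + v) - (N * u + v) = (M - N) * u by ring, abs_mul,
          abs_of_nonneg (by omega : (0 : ℤ) ≤ M - N)]
      rw [e3]
      have := abs_sub (M * u + v) (N * u + v)
      linarith
    have h5 : 0 ≤ |u| := abs_nonneg u
    nlinarith [mul_le_mul_of_nonneg_right h3 h5]

/-- points of a box in a strip `|x u + y v| ≤ Y` -/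
theorem Coll2_strip (u v Y : ℤ) (hY : 0 ≤ Y) :
    (((((Finset.Icc (-Y) Y) ×ˢ (Finset.Icc (-Y) Y)).filter
      (fun p : ℤ × ℤ => |p.1 * u + p.2 * v| ≤ Y)).card : ℕ) : ℤ) * |u| ≤
      (2 * Y + 1) * (2 * Y + |u|) := by
  classical
  set B := ((Finset.Icc (-Y) Y) ×ˢ (Finset.Icc (-Y) Y)).filter
      (fun p : ℤ × ℤ => |p.1 * u + p.2 * v| ≤ Y) with hB
  have h1 := Finset.card_eq_sum_card_fiberwise (f := fun p : ℤ × ℤ => p.2) (s := B)
    (t := Finset.Icc (-Y) Y) (by
      intro p hp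
      have hp' : p ∈ B := hp
      rw [hB, Finset.mem_filter, Finset.mem_product] at hp'
      exact hp'.1.2)
  have h2 : ∀ y ∈ Finset.Icc (-Y) Y, (((B.filter (fun p => p.2 = y)).card : ℕ) : ℤ) * |u| ≤
      2 * Y + |u| := by
    intro y _
    have h3 : (B.filter (fun p => p.2 = y)).card =
        ((B.filter (fun p => p.2 = y)).image Prod.fst).card := by
      refine (Finset.card_image_of_injOn ?_).symm
      intro p hp q hq hpq
      rw [Finset.mem_coe, Finset.mem_filter] at hp hq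
      exact Prod.ext hpq (hp.2.trans hq.2.symm)
    rw [h3]
    refine Coll2_line u (y * v) Y hY _ ?_
    intro x hx
    obtain ⟨p, hp, rfl⟩ := Finset.mem_image.1 hx
    rw [Finset.mem_filter, hB, Finset.mem_filter] at hp
    rw [← hp.2]
    exact hp.1.2
  have h4 : ((B.card : ℕ) : ℤ) * |u| =
      ∑ y ∈ Finset.Icc (-Y) Y, (((B.filter (fun p => p.2 = y)).card : ℕ) : ℤ) * |u| := by
    rw [h1]
    push_cast
    rw [Finset.sum_mul]
  rw [h4]
  refine (Finset.sum_le_sum h2).trans ?_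
  rw [Finset.sum_const, Int.card_Icc, nsmul_eq_mul]
  have : (((Y + 1 - -Y).toNat : ℕ) : ℤ) = 2 * Y + 1 := by
    rw [Int.toNat_of_nonneg (by omega)]; ring
  rw [this]

/-- the same with the roles of the coordinates exchanged -/
theorem Coll2_strip' (u v Y : ℤ) (hY : 0 ≤ Y) :
    (((((Finset.Icc (-Y) Y) ×ˢ (Finset.Icc (-Y) Y)).filter
      (fun p : ℤ × ℤ => |p.1 * u + p.2 * v| ≤ Y)).card : ℕ) : ℤ) * |v| ≤
      (2 * Y + 1) * (2 * Y + |v|) := by
  classical
  have h := Coll2_strip v u Y hY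
  refine le_trans (le_of_eq ?_) h
  congr 2
  refine Finset.card_bij (fun p _ => (p.2, p.1)) ?_ ?_ ?_
  · intro p hp
    rw [Finset.mem_filter, Finset.mem_product] at hp ⊢
    refine ⟨⟨hp.1.2, hp.1.1⟩, ?_⟩
    have := hp.2
    simp only
    rwa [add_comm]
  · intro p _ q _ hpq
    simp only [Prod.mk.injEq] at hpq
    exact Prod.ext hpq.2 hpq.1
  · intro q hq
    rw [Finset.mem_filter, Finset.mem_product] at hq
    refine ⟨(q.2, q.1), ?_, rfl⟩
    rw [Finset.mem_filter, Finset.mem_product]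
    refine ⟨⟨hq.1.2, hq.1.1⟩, ?_⟩
    have := hq.2
    simp only
    rwa [add_comm]

theorem gmax_pos (g : ℤ × ℤ × ℤ × ℤ) (hg : g.1 * g.2.2.2 - g.2.1 * g.2.2.1 = 1) :
    1 ≤ gmax g := by
  by_contra h
  have h1 : gmax g ≤ 0 := by omega
  unfold gmax at h1
  rw [max_le_iff, max_le_iff, max_le_iff] at h1
  obtain ⟨⟨h2, h3⟩, _⟩ := h1
  have h4 : g.1 = 0 := abs_nonpos_iff.1 h2
  have h5 : g.2.1 = 0 := abs_nonpos_iff.1 h3
  rw [h4, h5] at hg
  simp at hg

/-- L4 (ii).  If `omF g X` contains a basis of `Z^2` then it has at most `64 X^2 / gmax g` points.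
Proof: `K = 4 m`, `m` large; the points `K P + a r1 + b r2` with `P ∈ omF g X`, `|a|, |b| ≤ m` are
pairwise different (coordinates with respect to the basis `r1, r2` differ) and lie in
`{r : |r| ≤ 3 K X / 2, |r g| ≤ 3 K X / 2}`, which has at most `(3 K X + 1)(3 K X / gmax g + 1)`
points (for an entry of maximal absolute value: one coordinate free, the other one in an interval).
Let `m → ∞`. -/
theorem card_omF (g : ℤ × ℤ × ℤ × ℤ) (X : ℕ) (hg : g.1 * g.2.2.2 - g.2.1 * g.2.2.1 = 1)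
    (r1 r2 : ℤ × ℤ) (h1 : r1 ∈ omF g X) (h2 : r2 ∈ omF g X)
    (hdet : r1.1 * r2.2 - r1.2 * r2.1 = 1) :
    ((omF g X).card : ℝ) * gmax g ≤ 64 * (X : ℝ) ^ 2 := by
  classical
  set G := gmax g with hG
  have hG1 : 1 ≤ G := gmax_pos g hg
  have mem : ∀ r ∈ omF g X, |r.1| ≤ (X : ℤ) ∧ |r.2| ≤ (X : ℤ) ∧
      |r.1 * g.1 + r.2 * g.2.2.1| ≤ (X : ℤ) ∧ |r.1 * g.2.1 + r.2 * g.2.2.2| ≤ (X : ℤ) := by
    intro r hr
    unfold omF at hr
    rw [Finset.mem_filter, Finset.mem_product, Finset.mem_Icc, Finset.mem_Icc] at hr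
    exact ⟨abs_le.2 hr.1.1, abs_le.2 hr.1.2, hr.2.1, hr.2.2⟩
  have hX : (1 : ℤ) ≤ X := by
    by_contra hX
    have hX0 : (X : ℤ) ≤ 0 := by omega
    have e1 := (mem r1 h1).1
    have e2 := (mem r1 h1).2.1
    have e3 : r1.1 = 0 := abs_nonpos_iff.1 (e1.trans hX0)
    have e4 : r1.2 = 0 := abs_nonpos_iff.1 (e2.trans hX0)
    rw [e3, e4] at hdet
    simp at hdet
  -- parameters
  set m : ℤ := G with hm
  set Y : ℤ := 6 * m * X with hY
  have hY0 : 0 ≤ Y := by positivity
  set B1 := ((Finset.Icc (-Y) Y) ×ˢ (Finset.Icc (-Y) Y)).filter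
      (fun p : ℤ × ℤ => |p.1 * g.1 + p.2 * g.2.2.1| ≤ Y) with hB1
  set B2 := ((Finset.Icc (-Y) Y) ×ˢ (Finset.Icc (-Y) Y)).filter
      (fun p : ℤ × ℤ => |p.1 * g.2.1 + p.2 * g.2.2.2| ≤ Y) with hB2
  set T := (omF g X) ×ˢ (Finset.Icc (-m) m) ×ˢ (Finset.Icc (-m) m) with hT
  let φ : (ℤ × ℤ) × ℤ × ℤ → ℤ × ℤ := fun q =>
    (4 * m * q.1.1 + q.2.1 * r1.1 + q.2.2 * r2.1, 4 * m * q.1.2 + q.2.1 * r1.2 + q.2.2 * r2.2)
  have hinj : Set.InjOn φ (T : Set ((ℤ × ℤ) × ℤ × ℤ)) := by
    rintro ⟨⟨x, y⟩, a, b⟩ hq ⟨⟨x', y'⟩, a', b'⟩ hq' heq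
    rw [Finset.mem_coe, hT, Finset.mem_product, Finset.mem_product, Finset.mem_Icc,
      Finset.mem_Icc] at hq hq'
    simp only [φ, Prod.mk.injEq] at heq
    simp only at hq hq'
    obtain ⟨e1, e2⟩ := heq
    obtain ⟨_, ⟨ha1, ha2⟩, hb1, hb2⟩ := hq
    obtain ⟨_, ⟨ha1', ha2'⟩, hb1', hb2'⟩ := hq'
    have ea : a - a' = 4 * m * ((x' - x) * r2.2 - (y' - y) * r2.1) := by
      linear_combination (-(a - a')) * hdet + r2.2 * e1 - r2.1 * e2
    have eb : b - b' = 4 * m * ((y' - y) * r1.1 - (x' - x) * r1.2) := by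
      linear_combination (-(b - b')) * hdet + r1.1 * e2 - r1.2 * e1
    have ha : a - a' = 0 := by
      refine Int.eq_zero_of_abs_lt_dvd (m := 4 * m) ⟨_, ea⟩ ?_
      rw [abs_lt]; constructor <;> omega
    have hb : b - b' = 0 := by
      refine Int.eq_zero_of_abs_lt_dvd (m := 4 * m) ⟨_, eb⟩ ?_
      rw [abs_lt]; constructor <;> omega
    have ha' : a = a' := by omega
    have hb' : b = b' := by omega
    subst ha' hb'
    have hx : 4 * m * x = 4 * m * x' := by linarith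
    have hy : 4 * m * y = 4 * m * y' := by linarith
    have h4m : (4 * m) ≠ 0 := by omega
    have hx' := mul_left_cancel₀ h4m hx
    have hy' := mul_left_cancel₀ h4m hy
    rw [hx', hy']
  have hbound : ∀ (P a b p q : ℤ), |P| ≤ (X : ℤ) → |p| ≤ (X : ℤ) → |q| ≤ (X : ℤ) → |a| ≤ m →
      |b| ≤ m → |4 * m * P + a * p + b * q| ≤ Y := by
    intro P a b p q hP hp hq ha hb
    have hm0 : 0 ≤ m := by omega
    have e1 : |4 * m * P| ≤ 4 * m * X := by
      rw [abs_mul, abs_of_nonneg (by omega : (0 : ℤ) ≤ 4 * m)]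
      exact mul_le_mul_of_nonneg_left hP (by omega)
    have e2 : |a * p| ≤ m * X := by
      rw [abs_mul]; exact mul_le_mul ha hp (abs_nonneg _) hm0
    have e3 : |b * q| ≤ m * X := by
      rw [abs_mul]; exact mul_le_mul hb hq (abs_nonneg _) hm0
    have e4 := abs_add_le (4 * m * P + a * p) (b * q)
    have e5 := abs_add_le (4 * m * P) (a * p)
    have e6 : Y = 4 * m * X + m * X + m * X := by rw [hY]; ring
    linarith
  have himg : T.image φ ⊆ B1 ∩ B2 := by
    intro w hw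
    obtain ⟨⟨⟨x, y⟩, a, b⟩, hq, rfl⟩ := Finset.mem_image.1 hw
    rw [hT, Finset.mem_product, Finset.mem_product, Finset.mem_Icc, Finset.mem_Icc] at hq
    simp only at hq
    obtain ⟨hP, ha, hb⟩ := hq
    obtain ⟨p1, p2, p3, p4⟩ := mem _ hP
    obtain ⟨s1, s2, s3, s4⟩ := mem _ h1
    obtain ⟨t1, t2, t3, t4⟩ := mem _ h2
    have ha' := abs_le.2 ha
    have hb' := abs_le.2 hb
    have b1 := hbound x a b r1.1 r2.1 p1 s1 t1 ha' hb'
    have b2 := hbound y a b r1.2 r2.2 p2 s2 t2 ha' hb'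
    have b3 := hbound _ a b _ _ p3 s3 t3 ha' hb'
    have b4 := hbound _ a b _ _ p4 s4 t4 ha' hb'
    rw [Finset.mem_inter, hB1, hB2, Finset.mem_filter, Finset.mem_filter, Finset.mem_product,
      Finset.mem_Icc, Finset.mem_Icc]
    simp only [φ]
    refine ⟨⟨⟨abs_le.1 b1, abs_le.1 b2⟩, ?_⟩, ⟨abs_le.1 b1, abs_le.1 b2⟩, ?_⟩
    · refine le_trans (le_of_eq ?_) b3
      congr 1; simp only; ring
    · refine le_trans (le_of_eq ?_) b4
      congr 1; simp only; ring
  have hTc : (T.card : ℤ) = ((omF g X).card : ℤ) * ((2 * m + 1) * (2 * m + 1)) := by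
    rw [hT, Finset.card_product, Finset.card_product, Int.card_Icc]
    push_cast
    have : (((m + 1 - -m).toNat : ℕ) : ℤ) = 2 * m + 1 := by
      rw [Int.toNat_of_nonneg (by omega)]; ring
    rw [this]
  have hTle : (T.card : ℤ) ≤ ((B1 ∩ B2).card : ℤ) := by
    rw [← Finset.card_image_of_injOn hinj]
    exact_mod_cast Finset.card_le_card himg
  have hc1 : ((B1 ∩ B2).card : ℤ) ≤ (B1.card : ℤ) := by
    exact_mod_cast Finset.card_le_card Finset.inter_subset_left
  have hc2 : ((B1 ∩ B2).card : ℤ) ≤ (B2.card : ℤ) := by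
    exact_mod_cast Finset.card_le_card Finset.inter_subset_right
  have hGcase : ((B1 ∩ B2).card : ℤ) * G ≤ (2 * Y + 1) * (2 * Y + G) := by
    have hG' : G = max (max |g.1| |g.2.1|) (max |g.2.2.1| |g.2.2.2|) := rfl
    have cases4 : G = |g.1| ∨ G = |g.2.1| ∨ G = |g.2.2.1| ∨ G = |g.2.2.2| := by
      rw [hG']
      rcases max_choice (max |g.1| |g.2.1|) (max |g.2.2.1| |g.2.2.2|) with h | h
      · rw [h]
        rcases max_choice |g.1| |g.2.1| with h' | h'
        · left; exact h'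
        · right; left; exact h'
      · rw [h]
        rcases max_choice |g.2.2.1| |g.2.2.2| with h' | h'
        · right; right; left; exact h'
        · right; right; right; exact h'
    have hG0 : 0 ≤ G := by omega
    rcases cases4 with h | h | h | h
    · have := Coll2_strip g.1 g.2.2.1 Y hY0
      rw [← h] at this
      exact (mul_le_mul_of_nonneg_right hc1 hG0).trans this
    · have := Coll2_strip g.2.1 g.2.2.2 Y hY0
      rw [← h] at this
      exact (mul_le_mul_of_nonneg_right hc2 hG0).trans this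
    · have := Coll2_strip' g.1 g.2.2.1 Y hY0
      rw [← h] at this
      exact (mul_le_mul_of_nonneg_right hc1 hG0).trans this
    · have := Coll2_strip' g.2.1 g.2.2.2 Y hY0
      rw [← h] at this
      exact (mul_le_mul_of_nonneg_right hc2 hG0).trans this
  set c : ℤ := ((omF g X).card : ℤ) with hc
  have hc0 : 0 ≤ c := by positivity
  have hfin : c * ((2 * m + 1) * (2 * m + 1)) * G ≤ (2 * Y + 1) * (2 * Y + G) := by
    have hG0 : 0 ≤ G := by omega
    rw [← hTc]
    exact (mul_le_mul_of_nonneg_right hTle hG0).trans hGcase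
  have hfinal : c * G ≤ 64 * (X : ℤ) ^ 2 := by
    have hm1 : 1 ≤ m := hG1
    set x : ℤ := (X : ℤ) with hx
    have e1 : (2 * Y + 1) * (2 * Y + G) ≤ (13 * m * x) * (13 * m * x) := by
      have f1 : 2 * Y + 1 ≤ 13 * m * x := by
        rw [hY]
        nlinarith
      have f2 : 2 * Y + G ≤ 13 * m * x := by
        rw [hY]
        nlinarith
      exact mul_le_mul f1 f2 (by positivity) (by positivity)
    have e2 : c * G * (4 * (m * m)) ≤ c * ((2 * m + 1) * (2 * m + 1)) * G := by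
      have hG0 : 0 ≤ G := by omega
      have : c * ((2 * m + 1) * (2 * m + 1)) * G - c * G * (4 * (m * m)) =
          (c * G) * (4 * m + 1) := by ring
      have h5 : 0 ≤ (c * G) * (4 * m + 1) := by positivity
      linarith
    have e3 : (c * G * 4) * (m * m) ≤ (169 * x ^ 2) * (m * m) := by nlinarith
    have e4 : c * G * 4 ≤ 169 * x ^ 2 := le_of_mul_le_mul_right e3 (by positivity)
    nlinarith [sq_nonneg x]
  have : ((c * G : ℤ) : ℝ) ≤ ((64 * (X : ℤ) ^ 2 : ℤ) : ℝ) := by exact_mod_cast hfinal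
  push_cast at this
  exact this

end Pool.Agent.W_f50700_h3
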