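import Pool.Agent.W_f50700_h3.Base2

/-!
Nrm: the `l^2` norm of functions mod `q`, invariance, new functions.
-/

open Matrix

namespace Pool.Agent.W_f50700_h3

variable {A : ℕ}

/-- `l^2` norm -/
noncomputable def nrm (q : ℕ) [NeZero q] (h : ZMod q × ZMod q → ℂ) : ℝ := Real.sqrt (nsq q h)

private theorem Nrm_mul (q : ℕ) (g g' : SpecialLinearGroup (Fin 2) (ZMod q))
    (x : ZMod q × ZMod q) : gact q (g * g') x = gact q g (gact q g' x) := by
  have h00 : (g * g').1 0 0 = g.1 0 0 * g'.1 0 0 + g.1 0 1 * g'.1 1 0 := by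
    show (g.1 * g'.1) 0 0 = _
    rw [Matrix.mul_apply, Fin.sum_univ_two]
  have h01 : (g * g').1 0 1 = g.1 0 0 * g'.1 0 1 + g.1 0 1 * g'.1 1 1 := by
    show (g.1 * g'.1) 0 1 = _
    rw [Matrix.mul_apply, Fin.sum_univ_two]
  have h10 : (g * g').1 1 0 = g.1 1 0 * g'.1 0 0 + g.1 1 1 * g'.1 1 0 := by
    show (g.1 * g'.1) 1 0 = _
    rw [Matrix.mul_apply, Fin.sum_univ_two]
  have h11 : (g * g').1 1 1 = g.1 1 0 * g'.1 0 1 + g.1 1 1 * g'.1 1 1 := by
    show (g.1 * g'.1) 1 1 = _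
    rw [Matrix.mul_apply, Fin.sum_univ_two]
  simp only [gact]
  rw [h00, h01, h10, h11]
  refine Prod.ext ?_ ?_
  · simp only
    ring
  · simp only
    ring

private theorem Nrm_one (q : ℕ) (x : ZMod q × ZMod q) : gact q 1 x = x := by
  simp [gact]

/-- The permutation given by `g`. -/
private def Nrm_equiv (q : ℕ) (g : SpecialLinearGroup (Fin 2) (ZMod q)) :
    ZMod q × ZMod q ≃ ZMod q × ZMod q where
  toFun := gact q g
  invFun := gact q g⁻¹
  left_inv x := by rw [← Nrm_mul, inv_mul_cancel, Nrm_one]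
  right_inv x := by rw [← Nrm_mul, mul_inv_cancel, Nrm_one]

private theorem Nrm_det (q : ℕ) (g : SpecialLinearGroup (Fin 2) (ZMod q)) :
    g.1 0 0 * g.1 1 1 = g.1 0 1 * g.1 1 0 + 1 := by
  have h := g.2
  rw [Matrix.det_fin_two] at h
  linear_combination h

private theorem Nrm_coprime (q : ℕ) (g : SpecialLinearGroup (Fin 2) (ZMod q))
    (x : ZMod q × ZMod q) (h : IsCoprime x.1 x.2) :
    IsCoprime (gact q g x).1 (gact q g x).2 := by
  obtain ⟨a, b, hab⟩ := h
  have hd := Nrm_det q g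
  refine ⟨a * g.1 1 1 - b * g.1 1 0, b * g.1 0 0 - a * g.1 0 1, ?_⟩
  simp only [gact]
  linear_combination hab + (a * x.1 + b * x.2) * hd

/-- The elements of order dividing `p`. -/
private def Nrm_K (q : ℕ) [NeZero q] (p : ℕ) : Finset (ZMod q) :=
  Finset.univ.filter fun v => (p : ZMod q) * v = 0

private theorem Nrm_mem_K {q : ℕ} [NeZero q] {p : ℕ} {v : ZMod q} :
    v ∈ Nrm_K q p ↔ (p : ZMod q) * v = 0 := by
  unfold Nrm_K
  simp

private theorem Nrm_range {q : ℕ} [NeZero q] {p : ℕ} (hp : p.Prime) (hpq : p ∣ q)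
    (f : ZMod q → ℂ) :
    ∑ i ∈ Finset.range p, f (((q / p : ℕ) : ZMod q) * (i : ZMod q)) = ∑ v ∈ Nrm_K q p, f v := by
  obtain ⟨r, hr⟩ := hpq
  have hq : 0 < q := Nat.pos_of_ne_zero (NeZero.ne q)
  have hr0 : 0 < r := by
    apply Nat.pos_of_ne_zero
    rintro rfl
    rw [mul_zero] at hr
    omega
  have hdiv : q / p = r := by
    rw [hr]
    exact Nat.mul_div_cancel_left r hp.pos
  rw [hdiv]
  refine Finset.sum_nbij (fun i : ℕ => (r : ZMod q) * (i : ZMod q)) ?_ ?_ ?_ ?_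
  · intro i _
    rw [Nrm_mem_K]
    have h1 : ((p * r : ℕ) : ZMod q) = 0 := by
      rw [← hr]
      exact ZMod.natCast_self q
    push_cast at h1
    rw [← mul_assoc, h1, zero_mul]
  · intro i hi j hj hij
    have hi' : i < p := Finset.mem_range.1 (Finset.mem_coe.1 hi)
    have hj' : j < p := Finset.mem_range.1 (Finset.mem_coe.1 hj)
    have h1 : ((r * i : ℕ) : ZMod q) = ((r * j : ℕ) : ZMod q) := by
      push_cast
      exact hij
    rw [ZMod.natCast_eq_natCast_iff] at h1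
    have hlt : ∀ k < p, r * k < q := by
      intro k hk
      rw [hr, mul_comm p r]
      exact Nat.mul_lt_mul_of_pos_left hk hr0
    have h2 : r * i = r * j := Nat.ModEq.eq_of_lt_of_lt h1 (hlt i hi') (hlt j hj')
    exact Nat.eq_of_mul_eq_mul_left hr0 h2
  · intro v hv
    have hv' := Nrm_mem_K.1 (Finset.mem_coe.1 hv)
    have h1 : ((p * v.val : ℕ) : ZMod q) = 0 := by
      push_cast
      rw [ZMod.natCast_zmod_val]
      exact hv'
    rw [ZMod.natCast_eq_zero_iff] at h1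
    have h2 : r ∣ v.val := by
      obtain ⟨k, hk⟩ := h1
      refine ⟨k, Nat.eq_of_mul_eq_mul_left hp.pos ?_⟩
      rw [hk, ← mul_assoc, ← hr]
    obtain ⟨i, hi⟩ := h2
    refine ⟨i, ?_, ?_⟩
    · have h3 := ZMod.val_lt v
      rw [Finset.coe_range, Set.mem_Iio]
      by_contra hcon
      push Not at hcon
      have h4 : r * p ≤ r * i := Nat.mul_le_mul_left r hcon
      have h5 : q = r * p := by rw [hr, mul_comm]
      rw [hi] at h3
      omega
    · have h3 : ((v.val : ℕ) : ZMod q) = v := ZMod.natCast_zmod_val v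
      rw [hi] at h3
      push_cast at h3
      exact h3
  · intro i _
    rfl

private theorem Nrm_fibre {q : ℕ} [NeZero q] {p : ℕ} (hp : p.Prime) (hpq : p ∣ q)
    (h : ZMod q × ZMod q → ℂ) (x : ZMod q × ZMod q) :
    ∑ i ∈ Finset.range p, ∑ j ∈ Finset.range p,
      h (x.1 + ((q / p : ℕ) : ZMod q) * (i : ZMod q),
        x.2 + ((q / p : ℕ) : ZMod q) * (j : ZMod q)) =
      ∑ v ∈ Nrm_K q p ×ˢ Nrm_K q p, h (x.1 + v.1, x.2 + v.2) := by
  rw [Finset.sum_product]
  rw [← Nrm_range hp hpq fun a => ∑ b ∈ Nrm_K q p, h (x.1 + a, x.2 + b)]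
  apply Finset.sum_congr rfl
  intro i _
  rw [← Nrm_range hp hpq fun b => h (x.1 + ((q / p : ℕ) : ZMod q) * (i : ZMod q), x.2 + b)]

private theorem Nrm_ker {q : ℕ} [NeZero q] {p : ℕ} (g : SpecialLinearGroup (Fin 2) (ZMod q))
    {v : ZMod q × ZMod q} (hv : v ∈ Nrm_K q p ×ˢ Nrm_K q p) :
    gact q g v ∈ Nrm_K q p ×ˢ Nrm_K q p := by
  rw [Finset.mem_product, Nrm_mem_K, Nrm_mem_K] at hv ⊢
  obtain ⟨h1, h2⟩ := hv
  simp only [gact]
  constructor
  · linear_combination g.1 0 0 * h1 + g.1 0 1 * h2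
  · linear_combination g.1 1 0 * h1 + g.1 1 1 * h2

theorem nrm_sq (q : ℕ) [NeZero q] (h : ZMod q × ZMod q → ℂ) : nrm q h ^ 2 = nsq q h := by
  unfold nrm
  exact Real.sq_sqrt (Finset.sum_nonneg fun x _ => by positivity)

theorem nrm_nonneg (q : ℕ) [NeZero q] (h : ZMod q × ZMod q → ℂ) : 0 ≤ nrm q h := by
  unfold nrm
  exact Real.sqrt_nonneg _

/-- identification with the Euclidean norm -/
theorem nrm_eq_norm (q : ℕ) [NeZero q] (h : ZMod q × ZMod q → ℂ) :
    nrm q h = ‖(WithLp.toLp 2 h : EuclideanSpace ℂ (ZMod q × ZMod q))‖ := by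
  unfold nrm nsq
  rw [EuclideanSpace.norm_eq]

theorem nrm_add_le (q : ℕ) [NeZero q] (f h : ZMod q × ZMod q → ℂ) :
    nrm q (fun x => f x + h x) ≤ nrm q f + nrm q h := by
  rw [nrm_eq_norm, nrm_eq_norm, nrm_eq_norm]
  exact norm_add_le (WithLp.toLp 2 f : EuclideanSpace ℂ (ZMod q × ZMod q)) (WithLp.toLp 2 h)

theorem nrm_smul (q : ℕ) [NeZero q] (c : ℂ) (h : ZMod q × ZMod q → ℂ) :
    nrm q (fun x => c * h x) = ‖c‖ * nrm q h := by
  rw [nrm_eq_norm, nrm_eq_norm]
  exact norm_smul c (WithLp.toLp 2 h : EuclideanSpace ℂ (ZMod q × ZMod q))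

theorem nrm_sum_le (q : ℕ) [NeZero q] {ι : Type*} (s : Finset ι)
    (f : ι → ZMod q × ZMod q → ℂ) :
    nrm q (fun x => ∑ i ∈ s, f i x) ≤ ∑ i ∈ s, nrm q (f i) := by
  classical
  induction s using Finset.induction_on with
  | empty => simp [nrm, nsq]
  | insert a s ha ih =>
    rw [Finset.sum_insert ha]
    have h1 : (fun x => ∑ i ∈ insert a s, f i x) = fun x => f a x + ∑ i ∈ s, f i x := by
      funext x
      rw [Finset.sum_insert ha]
    rw [h1]
    exact (nrm_add_le q (f a) (fun x => ∑ i ∈ s, f i x)).trans (by linarith)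

/-- Jensen / Cauchy-Schwarz for averages -/
theorem nsq_avg_le (q : ℕ) [NeZero q] {ι : Type*} (s : Finset ι) (hs : s.Nonempty)
    (f : ι → ZMod q × ZMod q → ℂ) :
    nsq q (fun x => (1 / (s.card : ℂ)) * ∑ i ∈ s, f i x) ≤
      (1 / (s.card : ℝ)) * ∑ i ∈ s, nsq q (f i) := by
  have hn : (0 : ℝ) < s.card := by exact_mod_cast hs.card_pos
  unfold nsq
  rw [Finset.sum_comm, Finset.mul_sum]
  apply Finset.sum_le_sum
  intro x _
  rw [norm_mul, mul_pow]
  have h1 : ‖∑ i ∈ s, f i x‖ ^ 2 ≤ s.card * ∑ i ∈ s, ‖f i x‖ ^ 2 :=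
    (pow_le_pow_left₀ (norm_nonneg _) (norm_sum_le _ _) 2).trans
      (sq_sum_le_card_mul_sum_sq)
  have h2 : ‖(1 / (s.card : ℂ))‖ = 1 / (s.card : ℝ) := by
    rw [norm_div, norm_one, Complex.norm_natCast]
  rw [h2]
  calc (1 / (s.card : ℝ)) ^ 2 * ‖∑ i ∈ s, f i x‖ ^ 2
      ≤ (1 / (s.card : ℝ)) ^ 2 * (s.card * ∑ i ∈ s, ‖f i x‖ ^ 2) :=
        mul_le_mul_of_nonneg_left h1 (by positivity)
    _ = 1 / (s.card : ℝ) * ∑ i ∈ s, ‖f i x‖ ^ 2 := by
        field_simp

theorem norm_le_nrm (q : ℕ) [NeZero q] (h : ZMod q × ZMod q → ℂ) (x : ZMod q × ZMod q) :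
    ‖h x‖ ≤ nrm q h := by
  unfold nrm nsq
  apply Real.le_sqrt_of_sq_le
  exact Finset.single_le_sum (f := fun x => ‖h x‖ ^ 2) (fun i _ => by positivity)
    (Finset.mem_univ x)

theorem nrm_le_of_bound (q : ℕ) [NeZero q] (h : ZMod q × ZMod q → ℂ) {B : ℝ} (hB : 0 ≤ B)
    (hh : ∀ x, ‖h x‖ ≤ B) : nrm q h ≤ q * B := by
  unfold nrm nsq
  rw [Real.sqrt_le_left (by positivity)]
  have h1 : ∑ x, ‖h x‖ ^ 2 ≤ ∑ _x : ZMod q × ZMod q, B ^ 2 :=
    Finset.sum_le_sum fun x _ => pow_le_pow_left₀ (norm_nonneg _) (hh x) 2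
  refine h1.trans (le_of_eq ?_)
  rw [Finset.sum_const, Finset.card_univ, Fintype.card_prod, ZMod.card, nsmul_eq_mul]
  push_cast
  ring

/-- the element of `SL2(Z/q)` given by a word -/
def slOf (q : ℕ) (w : List (Lt A)) : SpecialLinearGroup (Fin 2) (ZMod q) :=
  ⟨(mat w).map (fun n : ℕ => (n : ZMod q)), by
    have h := congrArg (fun n : ℕ => (n : ZMod q)) (det_one w)
    simp only [F, m12, m21, m22] at h
    rw [Matrix.det_fin_two]
    simp only [Matrix.map_apply]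
    push_cast at h
    rw [h]; ring⟩

theorem nsq_gact (q : ℕ) [NeZero q] (g : SpecialLinearGroup (Fin 2) (ZMod q))
    (h : ZMod q × ZMod q → ℂ) : nsq q (fun x => h (gact q g x)) = nsq q h := by
  unfold nsq
  exact Fintype.sum_equiv (Nrm_equiv q g) _ _ fun x => rfl

/-- words act by permutations -/
theorem nsq_vact (q : ℕ) [NeZero q] (w : List (Lt A)) (h : ZMod q × ZMod q → ℂ) :
    nsq q (fun x => h (vact q (mat w) x)) = nsq q h := by
  have h1 : (fun x => h (vact q (mat w) x)) = fun x => h (gact q (slOf q w) x) := rfl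
  rw [h1]
  exact nsq_gact q (slOf q w) h

theorem gact_slOf (q : ℕ) (w : List (Lt A)) (x : ZMod q × ZMod q) :
    gact q (slOf q w) x = vact q (mat w) x := by
  rfl

theorem gact_mul (q : ℕ) (g g' : SpecialLinearGroup (Fin 2) (ZMod q)) (x : ZMod q × ZMod q) :
    gact q (g * g') x = gact q g (gact q g' x) := by
  exact Nrm_mul q g g' x

theorem gact_one (q : ℕ) (x : ZMod q × ZMod q) : gact q 1 x = x := by
  exact Nrm_one q x

theorem gact_coprime (q : ℕ) (g : SpecialLinearGroup (Fin 2) (ZMod q)) (x : ZMod q × ZMod q) :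
    IsCoprime (gact q g x).1 (gact q g x).2 ↔ IsCoprime x.1 x.2 := by
  constructor
  · intro h
    have h1 := Nrm_coprime q g⁻¹ _ h
    rwa [← gact_mul, inv_mul_cancel, gact_one] at h1
  · exact Nrm_coprime q g x

/-- new functions are stable under the group: for a prime `p ∣ q` the map
`(i, j) ↦ (q/p) g (i, j)` permutes the classes `(q/p) (Z/p)^2`. -/
theorem IsNew.gact {q : ℕ} [NeZero q] {h : ZMod q × ZMod q → ℂ} (hh : IsNew q h)
    (g : SpecialLinearGroup (Fin 2) (ZMod q)) :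
    IsNew q (fun x => h (Pool.Agent.W_f50700_h3.gact q g x)) := by
  refine ⟨fun x hx => hh.1 _ (fun h1 => hx ((gact_coprime q g x).1 h1)), ?_⟩
  intro p hp hpq x
  rw [Nrm_fibre hp hpq (fun y => h (Pool.Agent.W_f50700_h3.gact q g y)) x]
  have h2 := hh.2 p hp hpq (Pool.Agent.W_f50700_h3.gact q g x)
  rw [Nrm_fibre hp hpq h] at h2
  rw [← h2]
  refine Finset.sum_nbij' (fun v => Pool.Agent.W_f50700_h3.gact q g v)
    (fun v => Pool.Agent.W_f50700_h3.gact q g⁻¹ v) ?_ ?_ ?_ ?_ ?_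
  · intro v hv
    exact Nrm_ker g hv
  · intro v hv
    exact Nrm_ker g⁻¹ hv
  · intro v _
    show Pool.Agent.W_f50700_h3.gact q g⁻¹ (Pool.Agent.W_f50700_h3.gact q g v) = v
    rw [← gact_mul, inv_mul_cancel, gact_one]
  · intro v _
    show Pool.Agent.W_f50700_h3.gact q g (Pool.Agent.W_f50700_h3.gact q g⁻¹ v) = v
    rw [← gact_mul, mul_inv_cancel, gact_one]
  · intro v _
    congr 1
    refine Prod.ext ?_ ?_
    · simp only [Pool.Agent.W_f50700_h3.gact]
      ring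
    · simp only [Pool.Agent.W_f50700_h3.gact]
      ring

theorem IsNew.vact {q : ℕ} [NeZero q] {h : ZMod q × ZMod q → ℂ} (hh : IsNew q h)
    (w : List (Lt A)) : IsNew q (fun x => h (Pool.Agent.W_f50700_h3.vact q (mat w) x)) := by
  exact hh.gact (slOf q w)

theorem IsNew.smul {q : ℕ} {h : ZMod q × ZMod q → ℂ} (hh : IsNew q h) (c : ℂ) :
    IsNew q (fun x => c * h x) := by
  refine ⟨fun x hx => by
    show c * h x = 0
    rw [hh.1 x hx, mul_zero], fun p hp hpq x => ?_⟩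
  have h1 := hh.2 p hp hpq x
  simp only [← Finset.mul_sum]
  rw [h1, mul_zero]

theorem IsNew.add {q : ℕ} {h h' : ZMod q × ZMod q → ℂ} (hh : IsNew q h) (hh' : IsNew q h') :
    IsNew q (fun x => h x + h' x) := by
  refine ⟨fun x hx => by
    show h x + h' x = 0
    rw [hh.1 x hx, hh'.1 x hx, add_zero], fun p hp hpq x => ?_⟩
  have h1 := hh.2 p hp hpq x
  have h2 := hh'.2 p hp hpq x
  simp only [Finset.sum_add_distrib]
  rw [h1, h2, add_zero]

theorem IsNew.sum {q : ℕ} {ι : Type*} (s : Finset ι) {h : ι → ZMod q × ZMod q → ℂ}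
    (hh : ∀ i ∈ s, IsNew q (h i)) : IsNew q (fun x => ∑ i ∈ s, h i x) := by
  classical
  induction s using Finset.induction_on with
  | empty =>
    refine ⟨fun x _ => by simp, fun p _ _ x => by simp⟩
  | insert a s ha ih =>
    have h1 : (fun x => ∑ i ∈ insert a s, h i x) = fun x => h a x + ∑ i ∈ s, h i x := by
      funext x
      rw [Finset.sum_insert ha]
    rw [h1]
    exact (hh a (Finset.mem_insert_self a s)).add
      (ih fun i hi => hh i (Finset.mem_insert_of_mem hi))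

/-- for `q ≥ 2` a new function has sum zero -/
theorem IsNew.sum_zero {q : ℕ} [NeZero q] (hq : 2 ≤ q) {h : ZMod q × ZMod q → ℂ}
    (hh : IsNew q h) : ∑ x, h x = 0 := by
  obtain ⟨p, hp, hpq⟩ := Nat.exists_prime_and_dvd (show q ≠ 1 by omega)
  have h1 : ∑ x : ZMod q × ZMod q, ∑ i ∈ Finset.range p, ∑ j ∈ Finset.range p,
      h (x.1 + ((q / p : ℕ) : ZMod q) * (i : ZMod q),
        x.2 + ((q / p : ℕ) : ZMod q) * (j : ZMod q)) = 0 :=
    Finset.sum_eq_zero fun x _ => hh.2 p hp hpq x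
  rw [Finset.sum_comm] at h1
  have h2 : ∀ i ∈ Finset.range p, ∑ x : ZMod q × ZMod q, ∑ j ∈ Finset.range p,
      h (x.1 + ((q / p : ℕ) : ZMod q) * (i : ZMod q),
        x.2 + ((q / p : ℕ) : ZMod q) * (j : ZMod q)) = (p : ℂ) * ∑ x, h x := by
    intro i _
    rw [Finset.sum_comm]
    have h3 : ∀ j ∈ Finset.range p, ∑ x : ZMod q × ZMod q,
        h (x.1 + ((q / p : ℕ) : ZMod q) * (i : ZMod q),
          x.2 + ((q / p : ℕ) : ZMod q) * (j : ZMod q)) = ∑ x, h x := by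
      intro j _
      exact Fintype.sum_equiv (Equiv.addRight ((((q / p : ℕ) : ZMod q) * (i : ZMod q)),
        (((q / p : ℕ) : ZMod q) * (j : ZMod q)))) _ _ fun x => rfl
    rw [Finset.sum_congr rfl h3, Finset.sum_const, Finset.card_range, nsmul_eq_mul]
  rw [Finset.sum_congr rfl h2, Finset.sum_const, Finset.card_range, nsmul_eq_mul] at h1
  have hp0 : (p : ℂ) ≠ 0 := by exact_mod_cast hp.pos.ne'
  rcases mul_eq_zero.1 h1 with h4 | h4
  · exact absurd h4 hp0
  · rcases mul_eq_zero.1 h4 with h5 | h5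
    · exact absurd h5 hp0
    · exact h5

end Pool.Agent.W_f50700_h3
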