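import Pool.Agent.W_f50700_h3.Coll1
import Pool.Agent.W_f50700_h3.Coll2
import Pool.Agent.W_f50700_h3.Nrm

/-!
Coll3: collisions (L4).
-/

open Matrix

namespace Pool.Agent.W_f50700_h3

variable {A : ℕ}

/-- the quotient `M⁻¹ M'` -/
def Coll3_q (p : List (Lt A) × List (Lt A)) : ℤ × ℤ × ℤ × ℤ :=
  ((m22 p.1 : ℤ) * F p.2 - m12 p.1 * m21 p.2, (m22 p.1 : ℤ) * m12 p.2 - m12 p.1 * m22 p.2,
   (F p.1 : ℤ) * m21 p.2 - m21 p.1 * F p.2, (F p.1 : ℤ) * m22 p.2 - m21 p.1 * m12 p.2)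

theorem Coll3_det (w : List (Lt A)) : (F w : ℤ) * m22 w = m12 w * m21 w + 1 := by
  exact_mod_cast det_one w

theorem Coll3_qdet (p : List (Lt A) × List (Lt A)) :
    (Coll3_q p).1 * (Coll3_q p).2.2.2 - (Coll3_q p).2.1 * (Coll3_q p).2.2.1 = 1 := by
  have h1 := Coll3_det p.1
  have h2 := Coll3_det p.2
  simp only [Coll3_q]
  linear_combination ((F p.2 : ℤ) * m22 p.2 - m12 p.2 * m21 p.2) * h1 + h2

/-- `r1 M` -/
theorem Coll3_r1 (p : List (Lt A) × List (Lt A)) :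
    (F p.1 : ℤ) * (Coll3_q p).1 + m12 p.1 * (Coll3_q p).2.2.1 = F p.2 := by
  have h1 := Coll3_det p.1
  simp only [Coll3_q]
  linear_combination (F p.2 : ℤ) * h1

theorem Coll3_r2 (p : List (Lt A) × List (Lt A)) :
    (F p.1 : ℤ) * (Coll3_q p).2.1 + m12 p.1 * (Coll3_q p).2.2.2 = m12 p.2 := by
  have h1 := Coll3_det p.1
  simp only [Coll3_q]
  linear_combination (m12 p.2 : ℤ) * h1

theorem Coll3_r3 (p : List (Lt A) × List (Lt A)) :
    (m21 p.1 : ℤ) * (Coll3_q p).1 + m22 p.1 * (Coll3_q p).2.2.1 = m21 p.2 := by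
  have h1 := Coll3_det p.1
  simp only [Coll3_q]
  linear_combination (m21 p.2 : ℤ) * h1

theorem Coll3_r4 (p : List (Lt A) × List (Lt A)) :
    (m21 p.1 : ℤ) * (Coll3_q p).2.1 + m22 p.1 * (Coll3_q p).2.2.2 = m22 p.2 := by
  have h1 := Coll3_det p.1
  simp only [Coll3_q]
  linear_combination (m22 p.2 : ℤ) * h1

/-- all entries are at most `X` -/
theorem Coll3_entries (w : List (Lt A)) (X : ℕ) (h : F w ≤ X) :
    ((F w : ℤ) ≤ X ∧ (m12 w : ℤ) ≤ X ∧ (m21 w : ℤ) ≤ X ∧ (m22 w : ℤ) ≤ X) := by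
  have h1 := m12_lt w
  have h2 := m21_lt w
  have h3 := m22_le_F w
  refine ⟨?_, ?_, ?_, ?_⟩ <;> exact_mod_cast (by omega)

theorem Coll3_om1 (p : List (Lt A) × List (Lt A)) (X : ℕ) (h1 : F p.1 ≤ X) (h2 : F p.2 ≤ X) :
    (((F p.1 : ℤ), (m12 p.1 : ℤ)) : ℤ × ℤ) ∈ omF (Coll3_q p) X := by
  obtain ⟨a1, a2, a3, a4⟩ := Coll3_entries p.1 X h1
  obtain ⟨b1, b2, b3, b4⟩ := Coll3_entries p.2 X h2
  unfold omF
  rw [Finset.mem_filter, Finset.mem_product, Finset.mem_Icc, Finset.mem_Icc]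
  simp only
  rw [Coll3_r1, Coll3_r2, abs_of_nonneg (by positivity), abs_of_nonneg (by positivity)]
  exact ⟨⟨⟨by omega, a1⟩, ⟨by omega, a2⟩⟩, b1, b2⟩

theorem Coll3_om2 (p : List (Lt A) × List (Lt A)) (X : ℕ) (h1 : F p.1 ≤ X) (h2 : F p.2 ≤ X) :
    (((m21 p.1 : ℤ), (m22 p.1 : ℤ)) : ℤ × ℤ) ∈ omF (Coll3_q p) X := by
  obtain ⟨a1, a2, a3, a4⟩ := Coll3_entries p.1 X h1
  obtain ⟨b1, b2, b3, b4⟩ := Coll3_entries p.2 X h2
  unfold omF
  rw [Finset.mem_filter, Finset.mem_product, Finset.mem_Icc, Finset.mem_Icc]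
  simp only
  rw [Coll3_r3, Coll3_r4, abs_of_nonneg (by positivity), abs_of_nonneg (by positivity)]
  exact ⟨⟨⟨by omega, a3⟩, ⟨by omega, a4⟩⟩, b3, b4⟩

theorem Coll3_abs (a b c e : ℤ) (X : ℕ) (a0 : 0 ≤ a) (b0 : 0 ≤ b) (c0 : 0 ≤ c) (e0 : 0 ≤ e)
    (ha : a ≤ X) (hb : b ≤ X) (hc : c ≤ X) (he : e ≤ X) :
    -((2 * X ^ 2 : ℕ) : ℤ) ≤ a * b - c * e ∧ a * b - c * e ≤ ((2 * X ^ 2 : ℕ) : ℤ) := by
  have h1 : a * b ≤ X * X := mul_le_mul ha hb b0 (by positivity)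
  have h2 : c * e ≤ X * X := mul_le_mul hc he e0 (by positivity)
  have h3 : 0 ≤ a * b := mul_nonneg a0 b0
  have h4 : 0 ≤ c * e := mul_nonneg c0 e0
  have h5 : (0 : ℤ) ≤ (X : ℤ) * X := by positivity
  push_cast
  rw [pow_two]
  constructor <;> linarith

theorem Coll3_gam (p : List (Lt A) × List (Lt A)) (d X : ℕ) (h1 : F p.1 ≤ X) (h2 : F p.2 ≤ X)
    (h : slOf d p.1 = slOf d p.2) : Coll3_q p ∈ gamF d (2 * X ^ 2) := by
  obtain ⟨a1, a2, a3, a4⟩ := Coll3_entries p.1 X h1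
  obtain ⟨b1, b2, b3, b4⟩ := Coll3_entries p.2 X h2
  have e (i j : Fin 2) : ((mat p.1 i j : ℕ) : ZMod d) = ((mat p.2 i j : ℕ) : ZMod d) := by
    have := congrArg (fun g : SpecialLinearGroup (Fin 2) (ZMod d) => g.1 i j) h
    simpa [slOf] using this
  have e1 : ((F p.1 : ℕ) : ZMod d) = ((F p.2 : ℕ) : ZMod d) := e 0 0
  have e2 : ((m12 p.1 : ℕ) : ZMod d) = ((m12 p.2 : ℕ) : ZMod d) := e 0 1
  have e3 : ((m21 p.1 : ℕ) : ZMod d) = ((m21 p.2 : ℕ) : ZMod d) := e 1 0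
  have e4 : ((m22 p.1 : ℕ) : ZMod d) = ((m22 p.2 : ℕ) : ZMod d) := e 1 1
  have hd : ((F p.2 : ℕ) : ZMod d) * ((m22 p.2 : ℕ) : ZMod d) =
      ((m12 p.2 : ℕ) : ZMod d) * ((m21 p.2 : ℕ) : ZMod d) + 1 := by
    have := congrArg (fun n : ℕ => (n : ZMod d)) (det_one p.2)
    push_cast at this
    exact this
  unfold gamF
  simp only [Finset.mem_filter, Finset.mem_product, Finset.mem_Icc]
  refine ⟨⟨?_, ?_, ?_, ?_⟩, Coll3_qdet p, ?_, ?_, ?_, ?_⟩
  · exact Coll3_abs _ _ _ _ X (by positivity) (by positivity) (by positivity) (by positivity)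
      a4 b1 a2 b3
  · exact Coll3_abs _ _ _ _ X (by positivity) (by positivity) (by positivity) (by positivity)
      a4 b2 a2 b4
  · exact Coll3_abs _ _ _ _ X (by positivity) (by positivity) (by positivity) (by positivity)
      a1 b3 a3 b1
  · exact Coll3_abs _ _ _ _ X (by positivity) (by positivity) (by positivity) (by positivity)
      a1 b4 a3 b2
  · rw [← ZMod.intCast_zmod_eq_zero_iff_dvd]
    simp only [Coll3_q]
    push_cast
    rw [e4, e2]
    linear_combination hd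
  · rw [← ZMod.intCast_zmod_eq_zero_iff_dvd]
    simp only [Coll3_q]
    push_cast
    rw [e4, e2]
    ring
  · rw [← ZMod.intCast_zmod_eq_zero_iff_dvd]
    simp only [Coll3_q]
    push_cast
    rw [e1, e3]
    ring
  · rw [← ZMod.intCast_zmod_eq_zero_iff_dvd]
    simp only [Coll3_q]
    push_cast
    rw [e1, e3]
    linear_combination hd

/-- the dyadic sum -/
theorem Coll3_dyadic (ε C : ℝ) (hε : 0 < ε) (hC : 0 < C) (d R : ℕ) (hd : 1 ≤ d) (hR : 1 ≤ R)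
    (h : ∀ R : ℕ, 1 ≤ R → ((gamF d R).card : ℝ) ≤
      C * (R : ℝ) ^ ε * ((R : ℝ) ^ 2 / (d : ℝ) ^ 3 + R / d + 1)) :
    ∑ g ∈ gamF d R, 1 / (gmax g : ℝ) ≤
      ((Nat.log 2 R : ℝ) + 1) * (C * (2 * (R : ℝ)) ^ ε * (4 * R / (d : ℝ) ^ 3 + 3)) := by
  classical
  have hd0 : (1 : ℝ) ≤ d := by exact_mod_cast hd
  have hg1 : ∀ g ∈ gamF d R, 1 ≤ gmax g ∧ gmax g ≤ R := by
    intro g hg
    obtain ⟨m1, m2, m3, m4, m5, _⟩ := Coll1_mem hg
    refine ⟨gmax_pos g m5, ?_⟩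
    unfold gmax
    exact max_le (max_le (abs_le.2 m1) (abs_le.2 m2)) (max_le (abs_le.2 m3) (abs_le.2 m4))
  have hmaps : ∀ g ∈ gamF d R, Nat.log 2 (gmax g).toNat ∈ Finset.range (Nat.log 2 R + 1) := by
    intro g hg
    rw [Finset.mem_range]
    have h1 := (hg1 g hg).2
    have : (gmax g).toNat ≤ R := by omega
    exact Nat.lt_succ_of_le (Nat.log_mono_right this)
  rw [← Finset.sum_fiberwise_of_maps_to hmaps]
  have hj : ∀ j ∈ Finset.range (Nat.log 2 R + 1),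
      ∑ g ∈ (gamF d R).filter (fun g => Nat.log 2 (gmax g).toNat = j), 1 / (gmax g : ℝ) ≤
      C * (2 * (R : ℝ)) ^ ε * (4 * R / (d : ℝ) ^ 3 + 3) := by
    intro j hjr
    rw [Finset.mem_range] at hjr
    have hpR : 2 ^ j ≤ R := (Nat.pow_le_pow_right (by norm_num) (by omega)).trans
      (Nat.pow_log_le_self 2 (by omega))
    have hpR' : (2 : ℝ) ^ j ≤ R := by exact_mod_cast hpR
    have hp0 : (0 : ℝ) < 2 ^ j := by positivity
    have hp1 : (1 : ℝ) ≤ 2 ^ j := one_le_pow₀ (by norm_num)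
    have hR1 : (1 : ℝ) ≤ R := by exact_mod_cast hR
    have s1 : ∀ g ∈ (gamF d R).filter (fun g => Nat.log 2 (gmax g).toNat = j),
        1 / (gmax g : ℝ) ≤ 1 / 2 ^ j := by
      intro g hg
      rw [Finset.mem_filter] at hg
      have h1 := (hg1 g hg.1).1
      refine one_div_le_one_div_of_le hp0 ?_
      have h2 : 2 ^ j ≤ (gmax g).toNat := by
        rw [← hg.2]
        exact Nat.pow_log_le_self 2 (by omega)
      have h3 : (2 : ℤ) ^ j ≤ gmax g := by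
        have : ((2 ^ j : ℕ) : ℤ) ≤ (((gmax g).toNat : ℕ) : ℤ) := by exact_mod_cast h2
        rw [Int.toNat_of_nonneg (by omega)] at this
        push_cast at this
        exact this
      exact_mod_cast h3
    have s2 : (gamF d R).filter (fun g => Nat.log 2 (gmax g).toNat = j) ⊆
        gamF d (2 ^ (j + 1)) := by
      intro g hg
      rw [Finset.mem_filter] at hg
      have h1 := (hg1 g hg.1).1
      have h2 : (gmax g).toNat < 2 ^ (j + 1) := by
        rw [← hg.2]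
        exact Nat.lt_pow_succ_log_self (by norm_num) _
      have h3 : gmax g ≤ ((2 ^ (j + 1) : ℕ) : ℤ) := by
        have : (((gmax g).toNat : ℕ) : ℤ) < ((2 ^ (j + 1) : ℕ) : ℤ) := by exact_mod_cast h2
        rw [Int.toNat_of_nonneg (by omega)] at this
        omega
      obtain ⟨_, _, _, _, m5, m6, m7, m8, m9⟩ := Coll1_mem hg.1
      unfold gmax at h3
      rw [max_le_iff, max_le_iff, max_le_iff] at h3
      obtain ⟨⟨a1, a2⟩, a3, a4⟩ := h3
      unfold gamF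
      simp only [Finset.mem_filter, Finset.mem_product, Finset.mem_Icc]
      exact ⟨⟨abs_le.1 a1, abs_le.1 a2, abs_le.1 a3, abs_le.1 a4⟩, m5, m6, m7, m8, m9⟩
    have s3 := h (2 ^ (j + 1)) Nat.one_le_two_pow
    have s4 : ∑ g ∈ (gamF d R).filter (fun g => Nat.log 2 (gmax g).toNat = j),
        1 / (gmax g : ℝ) ≤ ((gamF d (2 ^ (j + 1))).card : ℝ) * (1 / 2 ^ j) := by
      refine (Finset.sum_le_card_nsmul _ _ _ s1).trans ?_
      rw [nsmul_eq_mul]
      refine mul_le_mul_of_nonneg_right ?_ (by positivity)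
      exact_mod_cast Finset.card_le_card s2
    refine s4.trans ?_
    refine (mul_le_mul_of_nonneg_right s3 (by positivity)).trans ?_
    have s5 : (((2 ^ (j + 1) : ℕ) : ℝ)) = 2 * 2 ^ j := by push_cast; ring
    rw [s5]
    have s6 : (2 * (2 : ℝ) ^ j) ^ ε ≤ (2 * (R : ℝ)) ^ ε :=
      Real.rpow_le_rpow (by positivity) (by linarith) hε.le
    have s7 : ((2 * (2 : ℝ) ^ j) ^ 2 / (d : ℝ) ^ 3 + 2 * 2 ^ j / d + 1) * (1 / 2 ^ j) ≤
        4 * R / (d : ℝ) ^ 3 + 3 := by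
      have t1 : ((2 * (2 : ℝ) ^ j) ^ 2 / (d : ℝ) ^ 3 + 2 * 2 ^ j / d + 1) * (1 / 2 ^ j) =
          4 * 2 ^ j / (d : ℝ) ^ 3 + 2 / d + 1 / 2 ^ j := by
        field_simp
        ring
      rw [t1]
      have t2 : 4 * 2 ^ j / (d : ℝ) ^ 3 ≤ 4 * R / (d : ℝ) ^ 3 :=
        div_le_div_of_nonneg_right (by linarith) (by positivity)
      have t3 : 2 / (d : ℝ) ≤ 2 := by
        rw [div_le_iff₀ (by linarith)]; linarith
      have t4 : 1 / (2 : ℝ) ^ j ≤ 1 := by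
        rw [div_le_iff₀ hp0]; linarith
      linarith
    calc C * (2 * (2 : ℝ) ^ j) ^ ε * ((2 * (2 : ℝ) ^ j) ^ 2 / (d : ℝ) ^ 3 + 2 * 2 ^ j / d + 1) *
          (1 / 2 ^ j)
        = C * (2 * (2 : ℝ) ^ j) ^ ε * (((2 * (2 : ℝ) ^ j) ^ 2 / (d : ℝ) ^ 3 + 2 * 2 ^ j / d + 1) *
          (1 / 2 ^ j)) := by ring
      _ ≤ C * (2 * (R : ℝ)) ^ ε * (4 * R / (d : ℝ) ^ 3 + 3) := by
          refine mul_le_mul (mul_le_mul_of_nonneg_left s6 hC.le) s7 (by positivity) (by positivity)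
  refine (Finset.sum_le_sum hj).trans ?_
  rw [Finset.sum_const, Finset.card_range, nsmul_eq_mul]
  push_cast
  exact le_refl _

/-- L4.  Proof: `X = ⌊CA A * Z⌋` bounds all entries of words in `passF A Z`.  For a colliding pair
`(M, M')` put `g = M^{-1} M'`, `g ∈ gamF d (2 X^2)`.  For given `g`, `M` is determined by its first
row, which lies in `omF g X`, as does the second row; so `card_omF` gives at most `64 X^2 / gmax g`
pairs for each `g` (`gmax g ≥ 1`).  Sum over dyadic shells of `gmax g` with `card_gamF`. -/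
theorem collisions {A : ℕ} (hA : 1 ≤ A) (ε : ℝ) (hε : 0 < ε) : ∃ C : ℝ, 0 < C ∧
    ∀ d : ℕ, 1 ≤ d → ∀ Z : ℝ, 2 ≤ Z →
    (((passF A Z) ×ˢ (passF A Z)).filter (fun p => slOf d p.1 = slOf d p.2)).card ≤
      C * Z ^ (2 + ε) * (1 + Z ^ 2 / (d : ℝ) ^ 3) := by
  classical
  obtain ⟨C, hC, hgam⟩ := card_gamF (ε / 4) (by linarith)
  set δ : ℝ := ε / 4 with hδ
  have hδ0 : 0 < δ := by linarith
  set L : ℝ := CA A with hL
  have hL2 : 2 ≤ L := base3_CA_ge A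
  have hlog2 : 0 < Real.log 2 := Real.log_pos (by norm_num)
  set K : ℝ := (4 * L ^ 2) ^ δ with hK
  have hK0 : 0 < K := by positivity
  set D : ℝ := 1 / (δ * Real.log 2) + 1 with hD
  have hD0 : 0 < D := by positivity
  refine ⟨64 * L ^ 2 * D * C * K ^ 2 * (8 * L ^ 2 + 3), by positivity, ?_⟩
  intro d hd Z hZ
  set X : ℕ := ⌊L * Z⌋₊ with hX
  have hLZ : 1 ≤ L * Z := by nlinarith
  have hXle : (X : ℝ) ≤ L * Z := Nat.floor_le (by linarith)
  have hX1 : 1 ≤ X := Nat.le_floor (by exact_mod_cast hLZ)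
  have hX1' : (1 : ℝ) ≤ X := by exact_mod_cast hX1
  set R : ℕ := 2 * X ^ 2 with hR
  have hR1 : 1 ≤ R := by
    have : 1 ≤ X ^ 2 := Nat.one_le_pow _ _ hX1
    omega
  set S := ((passF A Z) ×ˢ (passF A Z)).filter (fun p => slOf d p.1 = slOf d p.2) with hS
  have hF : ∀ w ∈ passF A Z, F w ≤ X := fun w hw => Nat.le_floor (passF_bounds hw).2
  have hSmem : ∀ p ∈ S, F p.1 ≤ X ∧ F p.2 ≤ X ∧ slOf d p.1 = slOf d p.2 := by
    intro p hp
    rw [hS, Finset.mem_filter, Finset.mem_product] at hp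
    exact ⟨hF _ hp.1.1, hF _ hp.1.2, hp.2⟩
  have hmaps : ∀ p ∈ S, Coll3_q p ∈ gamF d R := by
    intro p hp
    obtain ⟨h1, h2, h3⟩ := hSmem p hp
    exact Coll3_gam p d X h1 h2 h3
  have hfib : ∀ g ∈ gamF d R, (((S.filter (fun p => Coll3_q p = g)).card : ℕ) : ℝ) ≤
      64 * (X : ℝ) ^ 2 * (1 / (gmax g : ℝ)) := by
    intro g hg
    have hdet := (Coll1_mem hg).2.2.2.2.1
    have hgp : 1 ≤ gmax g := gmax_pos g hdet
    have hgp' : (1 : ℝ) ≤ (gmax g : ℝ) := by exact_mod_cast hgp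
    rcases (S.filter (fun p => Coll3_q p = g)).eq_empty_or_nonempty with h0 | ⟨p0, hp0⟩
    · rw [h0, Finset.card_empty, Nat.cast_zero]
      positivity
    · rw [Finset.mem_filter] at hp0
      obtain ⟨h1, h2, h3⟩ := hSmem p0 hp0.1
      have o1 := Coll3_om1 p0 X h1 h2
      have o2 := Coll3_om2 p0 X h1 h2
      rw [hp0.2] at o1 o2
      have hc := card_omF g X hdet _ _ o1 o2 (by
        simp only
        linear_combination Coll3_det p0.1)
      have hle : (S.filter (fun p => Coll3_q p = g)).card ≤ (omF g X).card := by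
        refine Finset.card_le_card_of_injOn
          (fun p => (((F p.1 : ℤ), (m12 p.1 : ℤ)) : ℤ × ℤ)) ?_ ?_
        · intro p hp
          rw [Finset.mem_coe, Finset.mem_filter] at hp
          obtain ⟨h1, h2, h3⟩ := hSmem p hp.1
          have := Coll3_om1 p X h1 h2
          rw [hp.2] at this
          exact Finset.mem_coe.2 this
        · intro p hp p' hp' he
          rw [Finset.mem_coe, Finset.mem_filter] at hp hp'
          have e1 : (F p.1 : ℤ) = F p'.1 := congrArg Prod.fst he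
          have e2 : (m12 p.1 : ℤ) = m12 p'.1 := congrArg Prod.snd he
          have hu : p.1 = p'.1 := row_injective (by exact_mod_cast e1) (by exact_mod_cast e2)
          have f1 := Coll3_r1 p
          have f1' := Coll3_r1 p'
          have f2 := Coll3_r2 p
          have f2' := Coll3_r2 p'
          rw [hp.2] at f1 f2
          rw [hp'.2] at f1' f2'
          rw [← e1, ← e2] at f1' f2'
          have g1 : (F p.2 : ℤ) = F p'.2 := by rw [← f1, ← f1']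
          have g2 : (m12 p.2 : ℤ) = m12 p'.2 := by rw [← f2, ← f2']
          have hw : p.2 = p'.2 := row_injective (by exact_mod_cast g1) (by exact_mod_cast g2)
          exact Prod.ext hu hw
      have hle' : (((S.filter (fun p => Coll3_q p = g)).card : ℕ) : ℝ) ≤
          ((omF g X).card : ℝ) := by exact_mod_cast hle
      refine hle'.trans ?_
      rw [mul_one_div, le_div_iff₀ (by linarith)]
      exact hc
  have hcard : ((S.card : ℕ) : ℝ) =
      ∑ g ∈ gamF d R, (((S.filter (fun p => Coll3_q p = g)).card : ℕ) : ℝ) := by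
    rw [Finset.card_eq_sum_card_fiberwise (f := Coll3_q) (t := gamF d R) hmaps]
    push_cast
    rfl
  have hmain : ((S.card : ℕ) : ℝ) ≤ 64 * (X : ℝ) ^ 2 *
      (((Nat.log 2 R : ℝ) + 1) * (C * (2 * (R : ℝ)) ^ δ * (4 * R / (d : ℝ) ^ 3 + 3))) := by
    rw [hcard]
    refine (Finset.sum_le_sum hfib).trans ?_
    rw [← Finset.mul_sum]
    exact mul_le_mul_of_nonneg_left (Coll3_dyadic δ C hδ0 hC d R hd hR1
      (fun R hR => hgam d R hd hR)) (by positivity)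
  refine hmain.trans ?_
  -- the final estimate
  have hd0 : (1 : ℝ) ≤ d := by exact_mod_cast hd
  have hZ0 : 0 < Z := by linarith
  have hRr : (R : ℝ) = 2 * (X : ℝ) ^ 2 := by rw [hR]; push_cast; ring
  have hR1' : (1 : ℝ) ≤ R := by exact_mod_cast hR1
  have hX2 : (X : ℝ) ^ 2 ≤ L ^ 2 * Z ^ 2 := by
    rw [← mul_pow]
    exact pow_le_pow_left₀ (by positivity) hXle 2
  have hRle : 2 * (R : ℝ) ≤ (4 * L ^ 2) * Z ^ 2 := by rw [hRr]; nlinarith
  have hP : (2 * (R : ℝ)) ^ δ ≤ K * (Z ^ 2) ^ δ := by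
    rw [hK, ← Real.mul_rpow (by positivity) (by positivity)]
    exact Real.rpow_le_rpow (by positivity) hRle hδ0.le
  have hlog : (Nat.log 2 R : ℝ) + 1 ≤ D * (K * (Z ^ 2) ^ δ) := by
    have l1 : (Nat.log 2 R : ℝ) * Real.log 2 ≤ Real.log R := by
      have : (2 : ℝ) ^ (Nat.log 2 R) ≤ R := by exact_mod_cast Nat.pow_log_le_self 2 (by omega)
      have := Real.log_le_log (by positivity) this
      rwa [Real.log_pow] at this
    have l2 : Real.log R ≤ (R : ℝ) ^ δ / δ := Real.log_le_rpow_div (by positivity) hδ0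
    have l3 : (R : ℝ) ^ δ ≤ K * (Z ^ 2) ^ δ :=
      (Real.rpow_le_rpow (by positivity) (by linarith) hδ0.le).trans hP
    have l4 : 1 ≤ (R : ℝ) ^ δ := Real.one_le_rpow hR1' hδ0.le
    have l5 : (Nat.log 2 R : ℝ) ≤ 1 / (δ * Real.log 2) * (R : ℝ) ^ δ := by
      rw [div_mul_eq_mul_div, one_mul, le_div_iff₀ (by positivity)]
      have : (Nat.log 2 R : ℝ) * Real.log 2 ≤ (R : ℝ) ^ δ / δ := l1.trans l2
      rw [le_div_iff₀ hδ0] at this
      linarith
    have l6 : (Nat.log 2 R : ℝ) + 1 ≤ D * (R : ℝ) ^ δ := by rw [hD]; linarith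
    exact l6.trans (mul_le_mul_of_nonneg_left l3 hD0.le)
  have hlast : 4 * (R : ℝ) / (d : ℝ) ^ 3 + 3 ≤ (8 * L ^ 2 + 3) * (1 + Z ^ 2 / (d : ℝ) ^ 3) := by
    have t1 : 4 * (R : ℝ) / (d : ℝ) ^ 3 ≤ 8 * L ^ 2 * (Z ^ 2 / (d : ℝ) ^ 3) := by
      rw [← mul_div_assoc]
      refine div_le_div_of_nonneg_right ?_ (by positivity)
      rw [hRr]; nlinarith
    have t2 : 0 ≤ Z ^ 2 / (d : ℝ) ^ 3 := by positivity
    nlinarith [sq_nonneg L]
  have hZpow : Z ^ (2 + ε) = Z ^ 2 * ((Z ^ 2) ^ δ * (Z ^ 2) ^ δ) := by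
    have e1 : (Z ^ 2) ^ δ = Z ^ (2 * δ) := by
      rw [← Real.rpow_natCast Z 2, ← Real.rpow_mul hZ0.le]
      norm_num
    rw [e1, ← Real.rpow_add hZ0, ← Real.rpow_natCast Z 2, ← Real.rpow_add hZ0]
    congr 1
    rw [hδ]
    push_cast
    ring
  rw [hZpow]
  have hq0 : 0 < (Z ^ 2) ^ δ := by positivity
  calc 64 * (X : ℝ) ^ 2 *
      (((Nat.log 2 R : ℝ) + 1) * (C * (2 * (R : ℝ)) ^ δ * (4 * R / (d : ℝ) ^ 3 + 3)))
      ≤ 64 * (L ^ 2 * Z ^ 2) * ((D * (K * (Z ^ 2) ^ δ)) * (C * (K * (Z ^ 2) ^ δ) *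
        ((8 * L ^ 2 + 3) * (1 + Z ^ 2 / (d : ℝ) ^ 3)))) := by
        refine mul_le_mul (mul_le_mul_of_nonneg_left hX2 (by norm_num)) ?_ (by positivity)
          (by positivity)
        refine mul_le_mul hlog ?_ (by positivity) (by positivity)
        refine mul_le_mul (mul_le_mul_of_nonneg_left hP hC.le) hlast (by positivity)
          (by positivity)
    _ = _ := by ring

end Pool.Agent.W_f50700_h3
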