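import Pool.Agent.W_f50700_h3.CirDefs
import Pool.Agent.W_f50700_h3.Bridge

/-!
Concl: from the mean square statement to the final statement (row 440, C4-C6).  Independent of the
way in which the mean square statement is proved.
-/

open Filter Topology

namespace Pool.Agent.W_f50700_h3

/-- the mean square statement -/
def MS (A : ℕ) : Prop := ∀ ρ : ℝ, 0 < ρ → ∃ Q1 : ℕ, ∀ Q0 ≥ Q1, ∃ N0 : ℕ,
    ∀ N ≥ N0, ∑ j ∈ Finset.Icc 1 N, (mlt A j - gmod A Q0 j) ^ 2 ≤
      ρ * (N : ℝ) ^ (2 * sexp A - 1)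

/-- Abel summation -/
theorem concl_abel (a w : ℕ → ℝ) (N : ℕ) :
    ∑ j ∈ Finset.Icc 1 N, a j * w j = (∑ j ∈ Finset.Icc 1 N, a j) * w N +
      ∑ j ∈ Finset.range N, (∑ i ∈ Finset.Icc 1 j, a i) * (w j - w (j + 1)) := by
  induction N with
  | zero => simp
  | succ N ih =>
    rw [Finset.sum_Icc_succ_top (by omega), ih, Finset.sum_Icc_succ_top (by omega),
      Finset.sum_range_succ]
    ring

theorem concl_weight {p : ℝ} (hp : 1 ≤ p) {j : ℕ} (hj : 1 ≤ j) :
    (j : ℝ) ^ (p + 1) * ((j : ℝ) ^ (-p) - ((j + 1 : ℕ) : ℝ) ^ (-p)) ≤ p := by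
  have hj0 : (0 : ℝ) < j := by exact_mod_cast hj
  have hj1 : (0 : ℝ) < ((j + 1 : ℕ) : ℝ) := by positivity
  have h1 : (j : ℝ) ^ (p + 1) * (j : ℝ) ^ (-p) = j := by
    rw [← Real.rpow_add hj0, show p + 1 + -p = 1 by ring, Real.rpow_one]
  have h2 : (j : ℝ) ^ (p + 1) * ((j + 1 : ℕ) : ℝ) ^ (-p) = j * ((j : ℝ) / ((j + 1 : ℕ) : ℝ)) ^ p := by
    rw [Real.rpow_add_one hj0.ne', Real.div_rpow hj0.le hj1.le, Real.rpow_neg hj1.le]
    field_simp
  have h3 : 1 + p * (-1 / ((j + 1 : ℕ) : ℝ)) ≤ ((j : ℝ) / ((j + 1 : ℕ) : ℝ)) ^ p := by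
    have h4 := one_add_mul_self_le_rpow_one_add (s := -1 / ((j + 1 : ℕ) : ℝ)) (by
      rw [neg_div, neg_le_neg_iff, div_le_one hj1]
      push_cast
      linarith) hp
    have h5 : 1 + -1 / ((j + 1 : ℕ) : ℝ) = (j : ℝ) / ((j + 1 : ℕ) : ℝ) := by
      push_cast
      field_simp
      ring
    rwa [h5] at h4
  rw [mul_sub, h1, h2]
  have h6 : (j : ℝ) * (1 + p * (-1 / ((j + 1 : ℕ) : ℝ))) ≤
      j * ((j : ℝ) / ((j + 1 : ℕ) : ℝ)) ^ p := mul_le_mul_of_nonneg_left h3 hj0.le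
  have h7 : (j : ℝ) * (p / ((j + 1 : ℕ) : ℝ)) ≤ p := by
    rw [← mul_div_assoc, div_le_iff₀ hj1]
    push_cast
    nlinarith
  have h8 : (j : ℝ) * (1 + p * (-1 / ((j + 1 : ℕ) : ℝ))) = j - j * (p / ((j + 1 : ℕ) : ℝ)) := by
    ring
  linarith

theorem concl_weight' {p : ℝ} (hp : 0 < p) {j : ℕ} (hj : 1 ≤ j) :
    (j : ℝ) ^ (p + 1) * ((j : ℝ) ^ (-p) - ((j + 1 : ℕ) : ℝ) ^ (-p)) ≤ p + 1 := by
  rcases le_total 1 p with h1 | h1
  · have := concl_weight h1 hj
    linarith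
  · have hj0 : (0 : ℝ) < j := by exact_mod_cast hj
    have hj1 : (0 : ℝ) < ((j + 1 : ℕ) : ℝ) := by positivity
    have h1' : (j : ℝ) ^ (p + 1) * (j : ℝ) ^ (-p) = j := by
      rw [← Real.rpow_add hj0, show p + 1 + -p = 1 by ring, Real.rpow_one]
    have h2 : (j : ℝ) ^ (p + 1) * ((j + 1 : ℕ) : ℝ) ^ (-p) =
        j * ((j : ℝ) / ((j + 1 : ℕ) : ℝ)) ^ p := by
      rw [Real.rpow_add_one hj0.ne', Real.div_rpow hj0.le hj1.le, Real.rpow_neg hj1.le]
      field_simp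
    have hx0 : 0 < (j : ℝ) / ((j + 1 : ℕ) : ℝ) := by positivity
    have hx1 : (j : ℝ) / ((j + 1 : ℕ) : ℝ) ≤ 1 := by
      rw [div_le_one hj1]
      push_cast
      linarith
    have h3 : (j : ℝ) / ((j + 1 : ℕ) : ℝ) ≤ ((j : ℝ) / ((j + 1 : ℕ) : ℝ)) ^ p := by
      calc (j : ℝ) / ((j + 1 : ℕ) : ℝ) = ((j : ℝ) / ((j + 1 : ℕ) : ℝ)) ^ (1 : ℝ) :=
            (Real.rpow_one _).symm
        _ ≤ ((j : ℝ) / ((j + 1 : ℕ) : ℝ)) ^ p := Real.rpow_le_rpow_of_exponent_ge hx0 hx1 h1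
    rw [mul_sub, h1', h2]
    have h6 : (j : ℝ) * ((j : ℝ) / ((j + 1 : ℕ) : ℝ)) ≤
        j * ((j : ℝ) / ((j + 1 : ℕ) : ℝ)) ^ p := mul_le_mul_of_nonneg_left h3 hj0.le
    have h7 : (j : ℝ) - j * ((j : ℝ) / ((j + 1 : ℕ) : ℝ)) ≤ 1 := by
      have h8 : (j : ℝ) - j * ((j : ℝ) / ((j + 1 : ℕ) : ℝ)) = j / ((j + 1 : ℕ) : ℝ) := by
        push_cast
        field_simp
        ring
      rw [h8]
      exact hx1
    linarith

/-- partial summation -/
theorem concl_partial {p ρ : ℝ} (hp : 0 < p) (hρ : 0 ≤ ρ) (a : ℕ → ℝ) (ha : ∀ j, 0 ≤ a j)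
    (N0 : ℕ) (h : ∀ N ≥ N0, ∑ j ∈ Finset.Icc 1 N, a j ≤ ρ * (N : ℝ) ^ (p + 1)) :
    ∃ K : ℝ, 0 ≤ K ∧ ∀ N : ℕ, 1 ≤ N →
      ∑ j ∈ Finset.Icc 1 N, a j * (j : ℝ) ^ (-p) ≤ (p + 2) * ρ * N + K := by
  set K0 : ℝ := ∑ j ∈ Finset.Icc 1 N0, a j with hK0
  have hK0' : 0 ≤ K0 := Finset.sum_nonneg fun j _ => ha j
  have hE : ∀ N : ℕ, ∑ j ∈ Finset.Icc 1 N, a j ≤ ρ * (N : ℝ) ^ (p + 1) + K0 := by
    intro N
    rcases le_total N0 N with h1 | h1
    · linarith [h N h1]
    · have h2 : ∑ j ∈ Finset.Icc 1 N, a j ≤ K0 :=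
        Finset.sum_le_sum_of_subset_of_nonneg (Finset.Icc_subset_Icc_right h1)
          fun j _ _ => ha j
      have h3 : 0 ≤ ρ * (N : ℝ) ^ (p + 1) := by positivity
      linarith
  refine ⟨2 * K0, by positivity, ?_⟩
  intro N hN
  set v : ℕ → ℝ := fun j => if j = 0 then 1 else (j : ℝ) ^ (-p) with hv
  have hv1 : ∀ j, 1 ≤ j → v j = (j : ℝ) ^ (-p) := by
    intro j hj
    simp only [hv]
    rw [if_neg (by omega)]
  have hvanti : ∀ j, v (j + 1) ≤ v j := by
    intro j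
    rw [hv1 (j + 1) (by omega)]
    rcases Nat.eq_zero_or_pos j with rfl | hj
    · simp [hv]
    · rw [hv1 j hj]
      apply Real.rpow_le_rpow_of_nonpos (by exact_mod_cast hj) (by push_cast; linarith)
        (by linarith)
  have hvle : ∀ j, 0 ≤ v j ∧ v j ≤ 1 := by
    intro j
    constructor
    · rcases Nat.eq_zero_or_pos j with rfl | hj
      · simp [hv]
      · rw [hv1 j hj]
        positivity
    · rcases Nat.eq_zero_or_pos j with rfl | hj
      · simp [hv]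
      · rw [hv1 j hj]
        exact Real.rpow_le_one_of_one_le_of_nonpos (by exact_mod_cast hj) (by linarith)
  have h1 : ∑ j ∈ Finset.Icc 1 N, a j * (j : ℝ) ^ (-p) = ∑ j ∈ Finset.Icc 1 N, a j * v j := by
    refine Finset.sum_congr rfl fun j hj => ?_
    rw [hv1 j (Finset.mem_Icc.1 hj).1]
  rw [h1, concl_abel]
  have h2 : ∀ j ∈ Finset.range N, (∑ i ∈ Finset.Icc 1 j, a i) * (v j - v (j + 1)) ≤
      ρ * (p + 1) + K0 * (v j - v (j + 1)) := by
    intro j _
    have h3 : 0 ≤ v j - v (j + 1) := by linarith [hvanti j]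
    rcases Nat.eq_zero_or_pos j with rfl | hj
    · have h4 : (∑ i ∈ Finset.Icc 1 0, a i) * (v 0 - v (0 + 1)) = 0 := by simp
      rw [h4]
      positivity
    · calc (∑ i ∈ Finset.Icc 1 j, a i) * (v j - v (j + 1))
          ≤ (ρ * (j : ℝ) ^ (p + 1) + K0) * (v j - v (j + 1)) :=
            mul_le_mul_of_nonneg_right (hE j) h3
        _ = ρ * ((j : ℝ) ^ (p + 1) * ((j : ℝ) ^ (-p) - ((j + 1 : ℕ) : ℝ) ^ (-p))) +
            K0 * (v j - v (j + 1)) := by
            rw [hv1 j hj, hv1 (j + 1) (by omega)]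
            ring
        _ ≤ ρ * (p + 1) + K0 * (v j - v (j + 1)) := by
            have := mul_le_mul_of_nonneg_left (concl_weight' hp hj) hρ
            linarith
  have h3 : ∑ j ∈ Finset.range N, (∑ i ∈ Finset.Icc 1 j, a i) * (v j - v (j + 1)) ≤
      N * (ρ * (p + 1)) + K0 * (v 0 - v N) := by
    refine (Finset.sum_le_sum h2).trans ?_
    rw [Finset.sum_add_distrib, Finset.sum_const, Finset.card_range, nsmul_eq_mul,
      ← Finset.mul_sum, Finset.sum_range_sub']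
  have h4 : (∑ j ∈ Finset.Icc 1 N, a j) * v N ≤ ρ * N + K0 * v N := by
    have hN0 : (0 : ℝ) < N := by exact_mod_cast hN
    calc (∑ j ∈ Finset.Icc 1 N, a j) * v N ≤ (ρ * (N : ℝ) ^ (p + 1) + K0) * v N :=
          mul_le_mul_of_nonneg_right (hE N) (hvle N).1
      _ = ρ * ((N : ℝ) ^ (p + 1) * (N : ℝ) ^ (-p)) + K0 * v N := by
          rw [hv1 N hN]
          ring
      _ = ρ * N + K0 * v N := by
          rw [← Real.rpow_add hN0, show p + 1 + -p = 1 by ring, Real.rpow_one]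
  have h5 : v 0 = 1 := by simp [hv]
  rw [h5] at h3
  nlinarith [(hvle N).1, (hvle N).2]

/-- same statement and proof as `mean_square_full` of CirD, from `MS A` -/
theorem full_of_MS {A : ℕ} (hA : 2 ≤ A) (h1 : 1 < sexp A) (hM : MS A) :
    Tendsto (fun N : ℕ => (∑ j ∈ Finset.Icc 1 N,
      (mlt A j / (j : ℝ) ^ (sexp A - 1) - sexp A * c0 A * singFull j) ^ 2) / N) atTop (𝓝 0) := by
  set s := sexp A with hsdef
  set b := s * c0 A with hb
  obtain ⟨C, hC, hCt⟩ := sing_tail_mean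
  rw [Metric.tendsto_atTop]
  intro ε hε
  set p : ℝ := 2 * s - 2 with hp
  have hp1 : 0 < p := by rw [hp]; linarith
  set ρ : ℝ := ε / (8 * (p + 2)) with hρ
  have hρ0 : 0 < ρ := by positivity
  obtain ⟨Q1, hQ1⟩ := hM ρ hρ0
  obtain ⟨Q2, hQ2⟩ := exists_nat_gt (16 * b ^ 2 * C / ε)
  set Q0 : ℕ := max Q1 (max Q2 1) with hQ0
  have hQ01 : 1 ≤ Q0 := (le_max_right _ _).trans (le_max_right _ _)
  obtain ⟨N0, hN0⟩ := hQ1 Q0 (le_max_left _ _)
  have hQ0r : (0 : ℝ) < Q0 := by exact_mod_cast hQ01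
  have hQb : 16 * b ^ 2 * C / ε ≤ Q0 := by
    have h1 : (Q2 : ℝ) ≤ Q0 := by
      exact_mod_cast (le_max_left Q2 1).trans (le_max_right Q1 (max Q2 1))
    linarith
  obtain ⟨K, hK0, hK⟩ := concl_partial (p := p) hp1 hρ0.le
    (fun j => (mlt A j - gmod A Q0 j) ^ 2) (fun j => sq_nonneg _) N0 (by
      intro N hN
      have h1 := hN0 N hN
      rwa [show p + 1 = 2 * s - 1 by rw [hp]; ring])
  obtain ⟨N1, hN1⟩ := exists_nat_gt (8 * K / ε)
  refine ⟨max N1 1, fun N hN => ?_⟩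
  have hN1' : 1 ≤ N := (le_max_right _ _).trans hN
  have hNr : (0 : ℝ) < N := by exact_mod_cast hN1'
  have hNK : 8 * K / ε < N := by
    have : (N1 : ℝ) ≤ N := by exact_mod_cast (le_max_left _ _).trans hN
    linarith
  have hterm : ∀ j ∈ Finset.Icc 1 N,
      (mlt A j / (j : ℝ) ^ (s - 1) - b * singFull j) ^ 2 ≤
        2 * ((mlt A j - gmod A Q0 j) ^ 2 * (j : ℝ) ^ (-p)) +
        2 * b ^ 2 * (sing Q0 j - singFull j) ^ 2 := by
    intro j hj
    have hj1 := (Finset.mem_Icc.1 hj).1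
    have hj0 : (0 : ℝ) < j := by exact_mod_cast hj1
    have hjp : 0 < (j : ℝ) ^ (s - 1) := Real.rpow_pos_of_pos hj0 _
    have h1 : (j : ℝ) ^ (-p) = (((j : ℝ) ^ (s - 1)) ^ 2)⁻¹ := by
      rw [← Real.rpow_natCast, ← Real.rpow_mul hj0.le, ← Real.rpow_neg hj0.le]
      congr 1
      rw [hp]
      push_cast
      ring
    have h2 : mlt A j / (j : ℝ) ^ (s - 1) - b * singFull j =
        (mlt A j - gmod A Q0 j) / (j : ℝ) ^ (s - 1) + b * (sing Q0 j - singFull j) := by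
      have h3 : gmod A Q0 j = b * (j : ℝ) ^ (s - 1) * sing Q0 j := rfl
      rw [h3]
      field_simp
      ring
    have h4 : (mlt A j - gmod A Q0 j) ^ 2 * (j : ℝ) ^ (-p) =
        ((mlt A j - gmod A Q0 j) / (j : ℝ) ^ (s - 1)) ^ 2 := by
      rw [h1, div_pow]
      rfl
    rw [h2, h4]
    nlinarith [sq_nonneg ((mlt A j - gmod A Q0 j) / (j : ℝ) ^ (s - 1) -
      b * (sing Q0 j - singFull j))]
  have hsum : ∑ j ∈ Finset.Icc 1 N, (mlt A j / (j : ℝ) ^ (s - 1) - b * singFull j) ^ 2 ≤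
      2 * ((p + 2) * ρ * N + K) + 2 * b ^ 2 * (C * N / Q0) := by
    refine (Finset.sum_le_sum hterm).trans ?_
    rw [Finset.sum_add_distrib, ← Finset.mul_sum, ← Finset.mul_sum]
    have h1 := hK N hN1'
    have h2 := hCt Q0 N hQ01 hN1'
    have h3 : 2 * b ^ 2 * ∑ j ∈ Finset.Icc 1 N, (sing Q0 j - singFull j) ^ 2 ≤
        2 * b ^ 2 * (C * N / Q0) := mul_le_mul_of_nonneg_left h2 (by positivity)
    linarith
  have hnn : 0 ≤ (∑ j ∈ Finset.Icc 1 N,
      (mlt A j / (j : ℝ) ^ (s - 1) - b * singFull j) ^ 2) / N :=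
    div_nonneg (Finset.sum_nonneg fun j _ => sq_nonneg _) hNr.le
  rw [Real.dist_eq, sub_zero, abs_of_nonneg hnn, div_lt_iff₀ hNr]
  refine lt_of_le_of_lt hsum ?_
  have h1 : 2 * ((p + 2) * ρ * N) = ε / 4 * N := by
    rw [hρ]
    have : p + 2 ≠ 0 := by linarith
    field_simp
    ring
  have h2 : 2 * K < ε / 4 * N := by
    rw [div_lt_iff₀ hε] at hNK
    linarith
  have h3 : 2 * b ^ 2 * (C * N / Q0) ≤ ε / 8 * N := by
    rw [div_le_iff₀ hε] at hQb
    have h4 : 2 * b ^ 2 * (C * N / Q0) = (2 * b ^ 2 * C / Q0) * N := by ring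
    rw [h4]
    refine mul_le_mul_of_nonneg_right ?_ hNr.le
    rw [div_le_iff₀ hQ0r]
    linarith
  have h5 : 0 < ε * N := by positivity
  linarith

/-- same statement and proof as `goal_of` of CirD, from `MS A` -/
theorem goal_of_MS {A : ℕ} (hA : 2 ≤ A) (h1 : 1 < sexp A) (hM : MS A) :
    Tendsto (fun N : ℕ => (∑ n ∈ Finset.Icc 1 N, |(Public.mult A n : ℝ) / Public.R A n - 1|) / N)
      atTop (𝓝 0) := by
  have hfull := full_of_MS hA h1 hM
  set s := sexp A with hsdef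
  have hs0 : 0 < s := by linarith
  set b := s * c0 A with hb
  have hb0 : 0 < b := mul_pos hs0 (c0_pos A)
  obtain ⟨C, hC, hCt⟩ := singFull_inv_mean
  rw [Metric.tendsto_atTop] at hfull ⊢
  intro ε hε
  set δ : ℝ := min (1 / 2) (ε / 8) with hδ
  have hδ0 : 0 < δ := by positivity
  have hδ1 : δ ≤ 1 / 2 := min_le_left _ _
  have hδ2 : δ ≤ ε / 8 := min_le_right _ _
  obtain ⟨n0, hn0⟩ := R_asymp hA (b * δ) (by positivity)
  set n1 : ℕ := max n0 2 with hn1
  set f : ℕ → ℝ := fun n => |(Public.mult A n : ℝ) / Public.R A n - 1| with hf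
  set x : ℕ → ℝ := fun n => |mlt A n / (n : ℝ) ^ (s - 1) - b * singFull n| with hx
  set K : ℝ := ∑ n ∈ Finset.Icc 1 n1, f n with hK
  have hK0 : 0 ≤ K := Finset.sum_nonneg fun n _ => abs_nonneg _
  obtain ⟨N2, hN2⟩ := hfull (ε ^ 2 * b ^ 2 / (64 * C)) (by positivity)
  obtain ⟨N3, hN3⟩ := exists_nat_gt (4 * K / ε)
  refine ⟨max N2 (max N3 1), fun N hN => ?_⟩
  have hN1' : 1 ≤ N := ((le_max_right _ _).trans (le_max_right _ _)).trans hN
  have hNr : (0 : ℝ) < N := by exact_mod_cast hN1'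
  have hNK : 4 * K / ε < N := by
    have : (N3 : ℝ) ≤ N := by
      exact_mod_cast ((le_max_left N3 1).trans (le_max_right N2 (max N3 1))).trans hN
    linarith
  -- pointwise
  have hpt : ∀ n ∈ Finset.Icc 1 N, f n ≤ (if n ≤ n1 then f n else 0) +
      (2 * (x n * (1 / (b * singFull n))) + 2 * δ) := by
    intro n hn
    have hn1' := (Finset.mem_Icc.1 hn).1
    have hsf : 0 < singFull n := singFull_pos hn1'
    by_cases h1 : n ≤ n1
    · rw [if_pos h1]
      have : 0 ≤ 2 * (x n * (1 / (b * singFull n))) + 2 * δ := by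
        have : 0 ≤ x n := abs_nonneg _
        positivity
      linarith
    · rw [if_neg h1, zero_add]
      have h2 : n0 ≤ n := by
        have := le_max_left n0 2
        omega
      have h3 : 2 ≤ n := by
        have := le_max_right n0 2
        omega
      have hn0' : (0 : ℝ) < n := by exact_mod_cast hn1'
      have hnp : 0 < (n : ℝ) ^ (s - 1) := Real.rpow_pos_of_pos hn0' _
      set T : ℝ := b * (n : ℝ) ^ (s - 1) * singFull n with hT
      have hT0 : 0 < T := by positivity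
      have h4 : |Public.R A n - T| ≤ δ * T := by
        have := hn0 n h2
        calc |Public.R A n - T| ≤ b * δ * ((n : ℝ) ^ (s - 1) * singFull n) := this
          _ = δ * T := by rw [hT]; ring
      have h5 := abs_le.1 h4
      have hR : T / 2 ≤ Public.R A n := by nlinarith [h5.1]
      have hR0 : 0 < Public.R A n := by linarith
      have h6 : f n = |mlt A n - Public.R A n| / Public.R A n := by
        simp only [hf]
        rw [mult_eq A h3, div_sub_one hR0.ne', abs_div, abs_of_pos hR0]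
      have h7 : |mlt A n - Public.R A n| ≤ |mlt A n - T| + δ * T := by
        calc |mlt A n - Public.R A n| = |(mlt A n - T) - (Public.R A n - T)| := by
              congr 1; ring
          _ ≤ |mlt A n - T| + |Public.R A n - T| := abs_sub _ _
          _ ≤ _ := by linarith
      have h8 : |mlt A n - T| = x n * (n : ℝ) ^ (s - 1) := by
        simp only [hx]
        rw [← abs_of_pos hnp, ← abs_mul, abs_of_pos hnp]
        congr 1
        rw [hT]
        field_simp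
      rw [h6]
      calc |mlt A n - Public.R A n| / Public.R A n ≤ (|mlt A n - T| + δ * T) / (T / 2) := by
            apply div_le_div₀ (by positivity) h7 (by positivity) hR
        _ = 2 * (x n * (1 / (b * singFull n))) + 2 * δ := by
            rw [h8, hT]
            field_simp
  have hCS : ∑ n ∈ Finset.Icc 1 N, x n * (1 / (b * singFull n)) ≤ ε / 8 * N := by
    have h1 := Finset.sum_mul_sq_le_sq_mul_sq (Finset.Icc 1 N) x
      (fun n => 1 / (b * singFull n))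
    have h2 : ∑ n ∈ Finset.Icc 1 N, x n ^ 2 ≤ ε ^ 2 * b ^ 2 / (64 * C) * N := by
      have h3 := hN2 N ((le_max_left _ _).trans hN)
      have hnn : 0 ≤ (∑ j ∈ Finset.Icc 1 N,
          (mlt A j / (j : ℝ) ^ (s - 1) - b * singFull j) ^ 2) / N :=
        div_nonneg (Finset.sum_nonneg fun j _ => sq_nonneg _) hNr.le
      rw [Real.dist_eq, sub_zero, abs_of_nonneg hnn, div_lt_iff₀ hNr] at h3
      refine le_of_eq_of_le ?_ h3.le
      refine Finset.sum_congr rfl fun n _ => ?_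
      simp only [hx]
      rw [sq_abs]
    have h4 : ∑ n ∈ Finset.Icc 1 N, (1 / (b * singFull n)) ^ 2 ≤ C * N / b ^ 2 := by
      have h5 := hCt N hN1'
      have h6 : ∑ n ∈ Finset.Icc 1 N, (1 / (b * singFull n)) ^ 2 =
          (∑ n ∈ Finset.Icc 1 N, 1 / (singFull n) ^ 2) / b ^ 2 := by
        rw [Finset.sum_div]
        refine Finset.sum_congr rfl fun n _ => ?_
        rw [div_pow, mul_pow, one_pow, div_div, mul_comm]
      rw [h6]
      exact div_le_div_of_nonneg_right h5 (by positivity)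
    have h7 : (∑ n ∈ Finset.Icc 1 N, x n * (1 / (b * singFull n))) ^ 2 ≤ (ε / 8 * N) ^ 2 := by
      refine h1.trans ?_
      calc (∑ n ∈ Finset.Icc 1 N, x n ^ 2) * (∑ n ∈ Finset.Icc 1 N, (1 / (b * singFull n)) ^ 2)
          ≤ (ε ^ 2 * b ^ 2 / (64 * C) * N) * (C * N / b ^ 2) :=
            mul_le_mul h2 h4 (Finset.sum_nonneg fun n _ => sq_nonneg _) (by positivity)
        _ = (ε / 8 * N) ^ 2 := by
            field_simp
            ring
    exact abs_le_of_sq_le_sq' h7 (by positivity) |>.2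
  have hsum : ∑ n ∈ Finset.Icc 1 N, f n ≤ K + (2 * (ε / 8 * N) + 2 * δ * N) := by
    refine (Finset.sum_le_sum hpt).trans ?_
    rw [Finset.sum_add_distrib]
    refine add_le_add ?_ ?_
    · rw [← Finset.sum_filter]
      refine Finset.sum_le_sum_of_subset_of_nonneg ?_ fun n _ _ => abs_nonneg _
      intro n hn
      rw [Finset.mem_filter, Finset.mem_Icc] at hn
      exact Finset.mem_Icc.2 ⟨hn.1.1, hn.2⟩
    · rw [Finset.sum_add_distrib, ← Finset.mul_sum, Finset.sum_const, Nat.card_Icc,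
        nsmul_eq_mul, Nat.add_sub_cancel]
      nlinarith [hCS]
  have hnn : 0 ≤ (∑ n ∈ Finset.Icc 1 N, f n) / N :=
    div_nonneg (Finset.sum_nonneg fun n _ => abs_nonneg _) hNr.le
  rw [Real.dist_eq, sub_zero, abs_of_nonneg hnn, div_lt_iff₀ hNr]
  refine lt_of_le_of_lt hsum ?_
  have h2 : K < ε / 4 * N := by
    rw [div_lt_iff₀ hε] at hNK
    linarith
  have h3 : 2 * δ * N ≤ ε / 4 * N := by
    refine mul_le_mul_of_nonneg_right ?_ hNr.le
    linarith
  have h5 : 0 < ε * N := by positivity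
  linarith

end Pool.Agent.W_f50700_h3
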