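import Mathlib

/-!
Definitions for the project on bounded continued fraction matrices (helper3).
Letters are pairs of partial quotients, words are lists of letters.
-/

open Matrix

namespace Pool.Agent.W_f50700_h3

/-- letters: `(a, b)` stands for the pair of partial quotients `(a+1, b+1)` -/
abbrev Lt (A : ℕ) := Fin A × Fin A

/-- the matrix `J_a J_b` of a letter, `J_a = (a 1; 1 0)` -/
def lmat {A : ℕ} (g : Lt A) : Matrix (Fin 2) (Fin 2) ℕ :=
  !![((g.1 : ℕ) + 1) * ((g.2 : ℕ) + 1) + 1, (g.1 : ℕ) + 1; (g.2 : ℕ) + 1, 1]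

/-- the matrix of a word -/
def mat {A : ℕ} : List (Lt A) → Matrix (Fin 2) (Fin 2) ℕ
  | [] => 1
  | g :: w => lmat g * mat w

/-- top left entry -/
def F {A : ℕ} (w : List (Lt A)) : ℕ := mat w 0 0

/-- top right entry -/
def m12 {A : ℕ} (w : List (Lt A)) : ℕ := mat w 0 1

/-- bottom left entry -/
def m21 {A : ℕ} (w : List (Lt A)) : ℕ := mat w 1 0

/-- bottom right entry -/
def m22 {A : ℕ} (w : List (Lt A)) : ℕ := mat w 1 1

/-- `zeta w = m12 / m11` -/
noncomputable def zeta {A : ℕ} (w : List (Lt A)) : ℝ := (m12 w : ℝ) / F w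

/-- `eta w = m21 / m11` -/
noncomputable def eta {A : ℕ} (w : List (Lt A)) : ℝ := (m21 w : ℝ) / F w

/-- row cocycle `m11 + m21 x` -/
noncomputable def rphi {A : ℕ} (w : List (Lt A)) (x : ℝ) : ℝ := (F w : ℝ) + (m21 w : ℝ) * x

/-- row action `(m12 + m22 x) / (m11 + m21 x)` -/
noncomputable def ract {A : ℕ} (w : List (Lt A)) (x : ℝ) : ℝ :=
  ((m12 w : ℝ) + (m22 w : ℝ) * x) / ((F w : ℝ) + (m21 w : ℝ) * x)

/-- column cocycle `m11 + m12 y` -/
noncomputable def cpsi {A : ℕ} (w : List (Lt A)) (y : ℝ) : ℝ := (F w : ℝ) + (m12 w : ℝ) * y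

/-- column action `(m21 + m22 y) / (m11 + m12 y)` -/
noncomputable def cact {A : ℕ} (w : List (Lt A)) (y : ℝ) : ℝ :=
  ((m21 w : ℝ) + (m22 w : ℝ) * y) / ((F w : ℝ) + (m12 w : ℝ) * y)

/-- the constant `C_A = 2 (A^2+1)` of the first passage sets -/
def CA (A : ℕ) : ℝ := 2 * ((A : ℝ) ^ 2 + 1)

/-- the finite set of words with top left entry at most `X` -/
noncomputable def wordsF (A : ℕ) (X : ℝ) : Finset (List (Lt A)) := by
  classical
  exact if h : {w : List (Lt A) | (F w : ℝ) ≤ X}.Finite then h.toFinset else ∅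

/-- first passage words at level `Z`: nonempty, `F w ≥ Z`, `F (w without last letter) < Z` -/
noncomputable def passF (A : ℕ) (Z : ℝ) : Finset (List (Lt A)) := by
  classical
  exact if h : {w : List (Lt A) | w ≠ [] ∧ Z ≤ (F w : ℝ) ∧ (F w.dropLast : ℝ) < Z}.Finite
    then h.toFinset else ∅

/-- sums of `F^(-s)` over the words of length `n` -/
noncomputable def asum (A : ℕ) (s : ℝ) (n : ℕ) : ℝ :=
  ∑ w : Fin n → Lt A, ((F (List.ofFn w) : ℕ) : ℝ) ^ (-s)

/-- the critical exponent (twice the dimension) -/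
noncomputable def sexp (A : ℕ) : ℝ := sInf {s : ℝ | 0 ≤ s ∧ ∃ n : ℕ, asum A s n < 1}

/-- action of a natural matrix on vectors mod `q` -/
def vact (q : ℕ) (M : Matrix (Fin 2) (Fin 2) ℕ) (x : ZMod q × ZMod q) : ZMod q × ZMod q :=
  ((M 0 0 : ZMod q) * x.1 + (M 0 1 : ZMod q) * x.2, (M 1 0 : ZMod q) * x.1 + (M 1 1 : ZMod q) * x.2)

/-- action of `SL2(Z/q)` on vectors mod `q` -/
def gact (q : ℕ) (g : SpecialLinearGroup (Fin 2) (ZMod q)) (x : ZMod q × ZMod q) :
    ZMod q × ZMod q :=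
  (g.1 0 0 * x.1 + g.1 0 1 * x.2, g.1 1 0 * x.1 + g.1 1 1 * x.2)

/-- new functions of level `q`: supported on primitive vectors, and all fibre sums over the
levels `q / p` vanish -/
def IsNew (q : ℕ) (h : ZMod q × ZMod q → ℂ) : Prop :=
  (∀ x : ZMod q × ZMod q, ¬ IsCoprime x.1 x.2 → h x = 0) ∧
  ∀ p : ℕ, p.Prime → p ∣ q → ∀ x : ZMod q × ZMod q,
    ∑ i ∈ Finset.range p, ∑ j ∈ Finset.range p,
      h (x.1 + ((q / p : ℕ) : ZMod q) * (i : ZMod q), x.2 + ((q / p : ℕ) : ZMod q) * (j : ZMod q)) = 0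

/-- squared `l^2` norm of functions mod `q` -/
noncomputable def nsq (q : ℕ) [NeZero q] (h : ZMod q × ZMod q → ℂ) : ℝ := ∑ x, ‖h x‖ ^ 2

/-- the number of primitive vectors mod `q` -/
noncomputable def nprim (q : ℕ) : ℕ := Nat.card {x : ZMod q × ZMod q // IsCoprime x.1 x.2}

/-- `e(x) = exp(2 pi i x)` -/
noncomputable def e (x : ℝ) : ℂ := Complex.exp (2 * Real.pi * Complex.I * x)

/-- distance to the nearest integer -/
noncomputable def dist1 (x : ℝ) : ℝ := |x - round x|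

/-- `psi2(m) = prod_{p | m} (p^2 - 1)` -/
noncomputable def psi2 (m : ℕ) : ℝ := ∏ p ∈ m.primeFactors, ((p : ℝ) ^ 2 - 1)

/-- window function of centre `m` and half length `L` -/
noncomputable def win (m L : ℝ) (n : ℝ) : ℝ := max 0 (1 - |n - m| / L)

/-- Fejer kernel -/
noncomputable def fej (n : ℕ) (t : ℝ) : ℝ := ‖∑ j ∈ Finset.range n, e ((j : ℝ) * t)‖ ^ 2 / n

/-- the smoothing kernel `fej^k / n^(k-1)` -/
noncomputable def kern (k n : ℕ) (t : ℝ) : ℝ := fej n t ^ k / (n : ℝ) ^ (k - 1)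

/-- the weight: Fourier coefficients of the kernel -/
noncomputable def wt (k n : ℕ) (j : ℤ) : ℝ :=
  (∫ t in (0 : ℝ)..1, (kern k n t : ℂ) * e (-((j : ℝ) * t))).re

/-- the weighted exponential sum over all words -/
noncomputable def Ssum (A k n : ℕ) (θ : ℝ) : ℂ :=
  ∑ w ∈ wordsF A ((k * n : ℕ) : ℝ), (wt k n (F w : ℤ) : ℂ) * e (θ * (F w : ℝ))

end Pool.Agent.W_f50700_h3
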