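import Mathlib

/-!
Kvn: a nonnegative sequence with mean tending to zero tends to zero along a set of density one.
-/

open Filter Topology

namespace Pool.Agent.W_f50700_h3

/-- Koopman-von Neumann lemma -/
theorem kvn (x : ℕ → ℝ) (hx : ∀ n, 0 ≤ x n)
    (h : Tendsto (fun N : ℕ => (∑ n ∈ Finset.Icc 1 N, x n) / N) atTop (𝓝 0)) :
    ∃ S : Set ℕ,
      Tendsto (fun N : ℕ => (({n ∈ S | 1 ≤ n ∧ n ≤ N}.ncard : ℝ)) / N) atTop (𝓝 1) ∧
      Tendsto x (atTop ⊓ 𝓟 S) (𝓝 0) := by
  classical
  set m : ℕ → ℝ := fun N => (∑ n ∈ Finset.Icc 1 N, x n) / N with hm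
  have hm0 : ∀ N, 0 ≤ m N := fun N =>
    div_nonneg (Finset.sum_nonneg fun n _ => hx n) (Nat.cast_nonneg N)
  have hbdd : BddAbove (Set.range m) := h.bddAbove_range
  -- tail supremum
  set M : ℕ → ℝ := fun N => sSup (m '' Set.Ici N) with hM
  have hbddN : ∀ N, BddAbove (m '' Set.Ici N) := fun N =>
    hbdd.mono (Set.image_subset_range _ _)
  have hmM : ∀ N, m N ≤ M N := fun N => le_csSup (hbddN N) ⟨N, Set.mem_Ici.2 le_rfl, rfl⟩
  have hM0 : ∀ N, 0 ≤ M N := fun N => (hm0 N).trans (hmM N)
  have hMa : ∀ N N', N ≤ N' → M N' ≤ M N := by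
    intro N N' hNN
    refine csSup_le_csSup (hbddN N) ⟨m N', N', Set.mem_Ici.2 le_rfl, rfl⟩ ?_
    exact Set.image_mono (Set.Ici_subset_Ici.2 hNN)
  have hMt : Tendsto M atTop (𝓝 0) := by
    rw [Metric.tendsto_atTop] at h ⊢
    intro ε hε
    obtain ⟨N0, hN0⟩ := h (ε / 2) (by linarith)
    refine ⟨N0, fun N hN => ?_⟩
    rw [Real.dist_eq, sub_zero, abs_of_nonneg (hM0 N)]
    have : M N ≤ ε / 2 := by
      refine csSup_le ⟨m N, N, Set.mem_Ici.2 le_rfl, rfl⟩ ?_
      rintro _ ⟨k, hk, rfl⟩
      have h2 := hN0 k (le_trans hN hk)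
      rw [Real.dist_eq, sub_zero, abs_of_nonneg (hm0 k)] at h2
      exact h2.le
    linarith
  -- threshold
  set b : ℕ → ℝ := fun N => √(M N) + 1 / ((N : ℝ) + 1) with hb
  have hb0 : ∀ N, 0 < b N := by
    intro N
    have : (0 : ℝ) < 1 / ((N : ℝ) + 1) := by positivity
    have := Real.sqrt_nonneg (M N)
    simp only [hb]
    linarith
  have hba : ∀ N N', N ≤ N' → b N' ≤ b N := by
    intro N N' hNN
    have h1 := Real.sqrt_le_sqrt (hMa N N' hNN)
    have h2 : (1 : ℝ) / ((N' : ℝ) + 1) ≤ 1 / ((N : ℝ) + 1) := by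
      apply one_div_le_one_div_of_le (by positivity)
      have : (N : ℝ) ≤ N' := by exact_mod_cast hNN
      linarith
    simp only [hb]
    linarith
  have hbt : Tendsto b atTop (𝓝 0) := by
    have h1 : Tendsto (fun N => √(M N)) atTop (𝓝 0) := by
      have := (Real.continuous_sqrt.tendsto 0).comp hMt
      rwa [Real.sqrt_zero] at this
    have h2 := h1.add tendsto_one_div_add_atTop_nhds_zero_nat
    rwa [add_zero] at h2
  refine ⟨{n | x n ≤ b n}, ?_, ?_⟩
  · -- density of the complement
    have hcard : ∀ N : ℕ, 1 ≤ N → 1 - √(M N) ≤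
        (({n ∈ {n | x n ≤ b n} | 1 ≤ n ∧ n ≤ N}.ncard : ℝ)) / N ∧
        (({n ∈ {n | x n ≤ b n} | 1 ≤ n ∧ n ≤ N}.ncard : ℝ)) / N ≤ 1 := by
      intro N hN
      have hN0 : (0 : ℝ) < N := by exact_mod_cast hN
      have hset : {n ∈ {n | x n ≤ b n} | 1 ≤ n ∧ n ≤ N} =
          (((Finset.Icc 1 N).filter (fun n => x n ≤ b n) : Finset ℕ) : Set ℕ) := by
        ext n
        simp only [Set.mem_ofPred_eq, Finset.coe_filter, Finset.mem_Icc]
        exact and_comm
      rw [hset, Set.ncard_coe_finset]
      have hsplit := Finset.card_filter_add_card_filter_not (s := Finset.Icc 1 N)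
        (p := fun n => x n ≤ b n)
      rw [Nat.card_Icc, Nat.add_sub_cancel] at hsplit
      have hsplit' : (((Finset.Icc 1 N).filter (fun n => x n ≤ b n)).card : ℝ) +
          (((Finset.Icc 1 N).filter (fun n => ¬ x n ≤ b n)).card : ℝ) = N := by
        exact_mod_cast hsplit
      have hbad : (((Finset.Icc 1 N).filter (fun n => ¬ x n ≤ b n)).card : ℝ) ≤ √(M N) * N := by
        rcases eq_or_lt_of_le (Real.sqrt_nonneg (M N)) with h0 | h0
        · -- then all `x n` vanish
          have hM00 : M N = 0 := by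
            have := Real.sqrt_eq_zero'.1 h0.symm
            exact le_antisymm this (hM0 N)
          have hsum : ∑ n ∈ Finset.Icc 1 N, x n ≤ 0 := by
            have h1 := hmM N
            rw [hM00] at h1
            simp only [hm] at h1
            rw [div_le_iff₀ hN0] at h1
            linarith
          have hz : ∀ n ∈ Finset.Icc 1 N, x n = 0 := by
            have h1 := Finset.sum_nonneg (s := Finset.Icc 1 N) fun n _ => hx n
            exact (Finset.sum_eq_zero_iff_of_nonneg fun n _ => hx n).1 (le_antisymm hsum h1)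
          have hem : (Finset.Icc 1 N).filter (fun n => ¬ x n ≤ b n) = ∅ := by
            rw [Finset.filter_eq_empty_iff]
            intro n hn
            rw [not_not, hz n hn]
            exact (hb0 n).le
          rw [hem, Finset.card_empty, ← h0]
          simp
        · have h1 : √(M N) * (((Finset.Icc 1 N).filter (fun n => ¬ x n ≤ b n)).card : ℝ) ≤
              M N * N := by
            have h2 : ∑ n ∈ (Finset.Icc 1 N).filter (fun n => ¬ x n ≤ b n), √(M N) ≤
                ∑ n ∈ (Finset.Icc 1 N).filter (fun n => ¬ x n ≤ b n), x n := by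
              refine Finset.sum_le_sum fun n hn => ?_
              rw [Finset.mem_filter, Finset.mem_Icc, not_le] at hn
              have h3 := hba n N hn.1.2
              have h4 : √(M N) ≤ b N := by
                simp only [hb]
                have : (0 : ℝ) ≤ 1 / ((N : ℝ) + 1) := by positivity
                linarith
              linarith [hn.2]
            have h5 : ∑ n ∈ (Finset.Icc 1 N).filter (fun n => ¬ x n ≤ b n), x n ≤
                ∑ n ∈ Finset.Icc 1 N, x n :=
              Finset.sum_le_sum_of_subset_of_nonneg (Finset.filter_subset _ _)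
                fun n _ _ => hx n
            have h6 : ∑ n ∈ Finset.Icc 1 N, x n ≤ M N * N := by
              have h7 := hmM N
              simp only [hm] at h7
              rwa [div_le_iff₀ hN0] at h7
            rw [Finset.sum_const, nsmul_eq_mul] at h2
            linarith
          have h8 : M N = √(M N) * √(M N) := (Real.mul_self_sqrt (hM0 N)).symm
          have h9 : √(M N) * (((Finset.Icc 1 N).filter (fun n => ¬ x n ≤ b n)).card : ℝ) ≤
              √(M N) * (√(M N) * N) := by
            calc _ ≤ M N * N := h1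
              _ = √(M N) * (√(M N) * N) := by
                  rw [← mul_assoc, ← h8]
          exact le_of_mul_le_mul_left h9 h0
      constructor
      · rw [le_div_iff₀ hN0]
        linarith
      · rw [div_le_one hN0]
        have : (0 : ℝ) ≤ (((Finset.Icc 1 N).filter (fun n => ¬ x n ≤ b n)).card : ℝ) :=
          Nat.cast_nonneg _
        linarith
    have hsq : Tendsto (fun N => 1 - √(M N)) atTop (𝓝 1) := by
      have := (Real.continuous_sqrt.tendsto 0).comp hMt
      rw [Real.sqrt_zero] at this
      have h2 := (tendsto_const_nhds (x := (1 : ℝ))).sub this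
      rwa [sub_zero] at h2
    refine tendsto_of_tendsto_of_tendsto_of_le_of_le' hsq tendsto_const_nhds ?_ ?_
    · filter_upwards [eventually_ge_atTop 1] with N hN using (hcard N hN).1
    · filter_upwards [eventually_ge_atTop 1] with N hN using (hcard N hN).2
  · have h1 : Tendsto b (atTop ⊓ 𝓟 {n | x n ≤ b n}) (𝓝 0) := hbt.mono_left inf_le_left
    refine tendsto_of_tendsto_of_tendsto_of_le_of_le' tendsto_const_nhds h1 ?_ ?_
    · exact Eventually.of_forall hx
    · exact mem_inf_of_right (mem_principal_self _)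

end Pool.Agent.W_f50700_h3
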