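import Pool.Agent.W_f50700_h3.Concl
import Pool.Agent.W_f50700_h3.Kvn

/-!
Derive: the final statements (set of density one, mean, mean square) from `MS A`.
-/

open Filter Topology

namespace Pool.Agent.W_f50700_h3

variable {A : ℕ}

/-- lower bound for `∑ R^2` -/
theorem sum_R_sq_ge (hA : 2 ≤ A) : ∃ c : ℝ, 0 < c ∧ ∃ N1 : ℕ, ∀ N ≥ N1,
    c * ((N : ℝ) ^ (2 * sexp A - 2) * N) ≤ ∑ n ∈ Finset.Icc 1 N, (Public.R A n) ^ 2 := by
  set s := sexp A with hsdef
  have hs0 : 0 < s := sexp_pos hA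
  set b := s * c0 A with hb
  have hb0 : 0 < b := mul_pos hs0 (c0_pos A)
  obtain ⟨C, hC, hCt⟩ := singFull_inv_mean
  obtain ⟨n0, hn0⟩ := R_asymp hA (b / 2) (by positivity)
  -- constant: minimum of `(1/2)^(2s-2)` and `1`
  set κ : ℝ := min ((1 / 2 : ℝ) ^ (2 * s - 2)) 1 with hκ
  have hκ0 : 0 < κ := lt_min (Real.rpow_pos_of_pos (by norm_num) _) one_pos
  refine ⟨(b / 2) ^ 2 * κ / (4 * C), by positivity, 2 * n0 + 2, fun N hN => ?_⟩
  have hN1 : 1 ≤ N := by omega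
  have hNr : (0 : ℝ) < N := by exact_mod_cast hN1
  set I := Finset.Icc (N / 2 + 1) N with hI
  have hsub : I ⊆ Finset.Icc 1 N := by
    intro n hn
    rw [hI, Finset.mem_Icc] at hn
    rw [Finset.mem_Icc]
    omega
  have hsf : ∀ n ∈ I, 0 < singFull n := by
    intro n hn
    exact singFull_pos (Finset.mem_Icc.1 (hsub hn)).1
  have hpt : ∀ n ∈ I, (b / 2) ^ 2 * κ * (N : ℝ) ^ (2 * s - 2) * (singFull n) ^ 2 ≤
      (Public.R A n) ^ 2 := by
    intro n hn
    have h1 := Finset.mem_Icc.1 hn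
    have h2 : n0 ≤ n := by omega
    have h3 := hn0 n h2
    have hn1 : 1 ≤ n := by omega
    have hn0' : (0 : ℝ) < n := by exact_mod_cast hn1
    have hnp : 0 < (n : ℝ) ^ (s - 1) := Real.rpow_pos_of_pos hn0' _
    have hs := hsf n hn
    have hR : b / 2 * ((n : ℝ) ^ (s - 1) * singFull n) ≤ Public.R A n := by
      have h4 := (abs_le.1 h3).1
      nlinarith
    have hR2 : (b / 2 * ((n : ℝ) ^ (s - 1) * singFull n)) ^ 2 ≤ (Public.R A n) ^ 2 :=
      pow_le_pow_left₀ (by positivity) hR 2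
    refine le_trans ?_ hR2
    have e1 : (b / 2 * ((n : ℝ) ^ (s - 1) * singFull n)) ^ 2 =
        (b / 2) ^ 2 * (n : ℝ) ^ (2 * s - 2) * (singFull n) ^ 2 := by
      rw [mul_pow, mul_pow, ← Real.rpow_natCast ((n : ℝ) ^ (s - 1)) 2, ← Real.rpow_mul hn0'.le]
      have : (s - 1) * ((2 : ℕ) : ℝ) = 2 * s - 2 := by push_cast; ring
      rw [this]
      ring
    rw [e1]
    have h5 : κ * (N : ℝ) ^ (2 * s - 2) ≤ (n : ℝ) ^ (2 * s - 2) := by
      rcases le_total 0 (2 * s - 2) with hp | hp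
      · have h6 : (1 / 2 : ℝ) * N ≤ n := by
          have h7 : N < 2 * (N / 2 + 1) := by omega
          have h8 : (N : ℝ) < 2 * n := by
            have : N < 2 * n := by omega
            exact_mod_cast this
          linarith
        calc κ * (N : ℝ) ^ (2 * s - 2) ≤ (1 / 2 : ℝ) ^ (2 * s - 2) * (N : ℝ) ^ (2 * s - 2) :=
              mul_le_mul_of_nonneg_right (min_le_left _ _) (by positivity)
          _ = ((1 / 2 : ℝ) * N) ^ (2 * s - 2) := (Real.mul_rpow (by norm_num) hNr.le).symm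
          _ ≤ (n : ℝ) ^ (2 * s - 2) := Real.rpow_le_rpow (by positivity) h6 hp
      · have h6 : (n : ℝ) ≤ N := by exact_mod_cast h1.2
        calc κ * (N : ℝ) ^ (2 * s - 2) ≤ 1 * (N : ℝ) ^ (2 * s - 2) :=
              mul_le_mul_of_nonneg_right (min_le_right _ _) (by positivity)
          _ = (N : ℝ) ^ (2 * s - 2) := one_mul _
          _ ≤ (n : ℝ) ^ (2 * s - 2) := Real.rpow_le_rpow_of_nonpos hn0' h6 hp
    calc (b / 2) ^ 2 * κ * (N : ℝ) ^ (2 * s - 2) * (singFull n) ^ 2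
        = (b / 2) ^ 2 * (κ * (N : ℝ) ^ (2 * s - 2)) * (singFull n) ^ 2 := by ring
      _ ≤ (b / 2) ^ 2 * (n : ℝ) ^ (2 * s - 2) * (singFull n) ^ 2 := by
          refine mul_le_mul_of_nonneg_right ?_ (sq_nonneg _)
          exact mul_le_mul_of_nonneg_left h5 (by positivity)
  -- Cauchy-Schwarz
  have hcard : (N : ℝ) / 2 ≤ (I.card : ℝ) := by
    rw [hI, Nat.card_Icc]
    have h1 : N ≤ 2 * (N + 1 - (N / 2 + 1)) := by omega
    have h2 : (N : ℝ) ≤ 2 * ((N + 1 - (N / 2 + 1) : ℕ) : ℝ) := by exact_mod_cast h1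
    linarith
  have hinv : ∑ n ∈ I, 1 / (singFull n) ^ 2 ≤ C * N := by
    refine le_trans ?_ (hCt N hN1)
    refine Finset.sum_le_sum_of_subset_of_nonneg hsub fun n _ _ => by positivity
  have hCS : (I.card : ℝ) ^ 2 ≤ (∑ n ∈ I, (singFull n) ^ 2) * (∑ n ∈ I, 1 / (singFull n) ^ 2) := by
    have h1 := Finset.sum_mul_sq_le_sq_mul_sq I (fun n => singFull n) (fun n => 1 / singFull n)
    have h2 : ∑ n ∈ I, singFull n * (1 / singFull n) = (I.card : ℝ) := by
      rw [Finset.sum_congr rfl (g := fun _ => (1 : ℝ))]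
      · simp
      · intro n hn
        exact mul_one_div_cancel (hsf n hn).ne'
    rw [h2] at h1
    simpa [div_pow] using h1
  have hsum0 : 0 ≤ ∑ n ∈ I, (singFull n) ^ 2 := Finset.sum_nonneg fun n _ => sq_nonneg _
  have hlow : (N : ℝ) / (4 * C) ≤ ∑ n ∈ I, (singFull n) ^ 2 := by
    rw [div_le_iff₀ (by positivity)]
    have h1 : ((N : ℝ) / 2) ^ 2 ≤ (∑ n ∈ I, (singFull n) ^ 2) * (C * N) := by
      calc ((N : ℝ) / 2) ^ 2 ≤ (I.card : ℝ) ^ 2 := pow_le_pow_left₀ (by positivity) hcard 2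
        _ ≤ _ := hCS
        _ ≤ _ := mul_le_mul_of_nonneg_left hinv hsum0
    have h2 : (N : ℝ) * N ≤ N * ((∑ n ∈ I, (singFull n) ^ 2) * (4 * C)) := by nlinarith
    exact le_of_mul_le_mul_left h2 hNr
  calc (b / 2) ^ 2 * κ / (4 * C) * ((N : ℝ) ^ (2 * s - 2) * N)
      = (b / 2) ^ 2 * κ * (N : ℝ) ^ (2 * s - 2) * ((N : ℝ) / (4 * C)) := by ring
    _ ≤ (b / 2) ^ 2 * κ * (N : ℝ) ^ (2 * s - 2) * ∑ n ∈ I, (singFull n) ^ 2 :=
        mul_le_mul_of_nonneg_left hlow (by positivity)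
    _ = ∑ n ∈ I, (b / 2) ^ 2 * κ * (N : ℝ) ^ (2 * s - 2) * (singFull n) ^ 2 := by
        rw [Finset.mul_sum]
    _ ≤ ∑ n ∈ I, (Public.R A n) ^ 2 := Finset.sum_le_sum hpt
    _ ≤ ∑ n ∈ Finset.Icc 1 N, (Public.R A n) ^ 2 :=
        Finset.sum_le_sum_of_subset_of_nonneg hsub fun n _ _ => sq_nonneg _

/-- the relative mean square -/
theorem msq_ratio (hA : 2 ≤ A) (h1 : 1 < sexp A)
    (hfull : Tendsto (fun N : ℕ => (∑ j ∈ Finset.Icc 1 N,
      (mlt A j / (j : ℝ) ^ (sexp A - 1) - sexp A * c0 A * singFull j) ^ 2) / N) atTop (𝓝 0)) :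
    Tendsto (fun N : ℕ => (∑ n ∈ Finset.Icc 1 N, ((Public.mult A n : ℝ) - Public.R A n) ^ 2) /
      (∑ n ∈ Finset.Icc 1 N, (Public.R A n) ^ 2)) atTop (𝓝 0) := by
  obtain ⟨c, hc, N1, hN1⟩ := sum_R_sq_ge hA
  set s := sexp A with hsdef
  have hs0 : 0 < s := by linarith
  set b := s * c0 A with hb
  have hb0 : 0 < b := mul_pos hs0 (c0_pos A)
  rw [Metric.tendsto_atTop] at hfull ⊢
  intro ε hε
  -- `δ` with `8 b^2 δ^2 ≤ c ε / 4`
  obtain ⟨δ, hδ0, hδ⟩ : ∃ δ : ℝ, 0 < δ ∧ 8 * b ^ 2 * δ ^ 2 ≤ c * ε / 4 := by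
    refine ⟨√(c * ε / (32 * b ^ 2)), Real.sqrt_pos.2 (by positivity), ?_⟩
    rw [Real.sq_sqrt (by positivity)]
    have : 8 * b ^ 2 * (c * ε / (32 * b ^ 2)) = c * ε / 4 := by
      field_simp
      norm_num
    exact this.le
  obtain ⟨n0, hn0⟩ := R_asymp hA (b * δ) (by positivity)
  set n1 : ℕ := max n0 2 with hn1
  set f : ℕ → ℝ := fun n => ((Public.mult A n : ℝ) - Public.R A n) ^ 2 with hf
  set x : ℕ → ℝ := fun n => mlt A n / (n : ℝ) ^ (s - 1) - b * singFull n with hx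
  set K : ℝ := ∑ n ∈ Finset.Icc 1 n1, f n with hK
  have hK0 : 0 ≤ K := Finset.sum_nonneg fun n _ => sq_nonneg _
  obtain ⟨N2, hN2⟩ := hfull (c * ε / 16) (by positivity)
  obtain ⟨N3, hN3⟩ := exists_nat_gt (4 * K / (c * ε))
  refine ⟨max N2 (max N3 (max N1 1)), fun N hN => ?_⟩
  have hNN1 : N1 ≤ N := by
    have := le_max_left N1 1
    have := le_max_right N3 (max N1 1)
    have := le_max_right N2 (max N3 (max N1 1))
    omega
  have hN1' : 1 ≤ N := by
    have := le_max_right N1 1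
    have := le_max_right N3 (max N1 1)
    have := le_max_right N2 (max N3 (max N1 1))
    omega
  have hNr : (1 : ℝ) ≤ N := by exact_mod_cast hN1'
  have hNr0 : (0 : ℝ) < N := by linarith
  have hNK : 4 * K / (c * ε) < N := by
    have : (N3 : ℝ) ≤ N := by
      exact_mod_cast (show N3 ≤ N by
        have := le_max_left N3 (max N1 1)
        have := le_max_right N2 (max N3 (max N1 1))
        omega)
    linarith
  set P : ℝ := (N : ℝ) ^ (2 * s - 2) with hP
  have hP1 : 1 ≤ P := Real.one_le_rpow hNr (by linarith)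
  have hden := hN1 N hNN1
  have hden0 : 0 < ∑ n ∈ Finset.Icc 1 N, (Public.R A n) ^ 2 :=
    lt_of_lt_of_le (by positivity) hden
  have hpt : ∀ n ∈ Finset.Icc 1 N, f n ≤ (if n ≤ n1 then f n else 0) +
      (2 * P * x n ^ 2 + 8 * b ^ 2 * δ ^ 2 * P) := by
    intro n hn
    have hn1' := (Finset.mem_Icc.1 hn).1
    have hnN := (Finset.mem_Icc.1 hn).2
    have hsf : 0 < singFull n := singFull_pos hn1'
    by_cases h1 : n ≤ n1
    · rw [if_pos h1]
      have : 0 ≤ 2 * P * x n ^ 2 + 8 * b ^ 2 * δ ^ 2 * P := by positivity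
      linarith
    · rw [if_neg h1, zero_add]
      have h2 : n0 ≤ n := by
        have := le_max_left n0 2
        omega
      have h3 : 2 ≤ n := by
        have := le_max_right n0 2
        omega
      have hn0' : (0 : ℝ) < n := by exact_mod_cast hn1'
      have hnp : 0 < (n : ℝ) ^ (s - 1) := Real.rpow_pos_of_pos hn0' _
      set T : ℝ := b * (n : ℝ) ^ (s - 1) * singFull n with hT
      have hT0 : 0 < T := by positivity
      have h4 : |Public.R A n - T| ≤ δ * T := by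
        have := hn0 n h2
        calc |Public.R A n - T| ≤ b * δ * ((n : ℝ) ^ (s - 1) * singFull n) := this
          _ = δ * T := by rw [hT]; ring
      have hnp2 : ((n : ℝ) ^ (s - 1)) ^ 2 ≤ P := by
        rw [← Real.rpow_natCast ((n : ℝ) ^ (s - 1)) 2, ← Real.rpow_mul hn0'.le]
        have : (s - 1) * ((2 : ℕ) : ℝ) = 2 * s - 2 := by push_cast; ring
        rw [this]
        exact Real.rpow_le_rpow hn0'.le (by exact_mod_cast hnN) (by linarith)
      have h5 : (Public.R A n - T) ^ 2 ≤ δ ^ 2 * (4 * b ^ 2 * P) := by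
        have h6 : (Public.R A n - T) ^ 2 ≤ (δ * T) ^ 2 := by
          rw [← sq_abs]
          exact pow_le_pow_left₀ (abs_nonneg _) h4 2
        refine h6.trans ?_
        rw [mul_pow]
        refine mul_le_mul_of_nonneg_left ?_ (sq_nonneg _)
        have h7 : T ^ 2 = b ^ 2 * ((n : ℝ) ^ (s - 1)) ^ 2 * (singFull n) ^ 2 := by
          rw [hT]; ring
        rw [h7]
        have h8 : (singFull n) ^ 2 ≤ 4 := by
          have := singFull_le n
          nlinarith
        calc b ^ 2 * ((n : ℝ) ^ (s - 1)) ^ 2 * (singFull n) ^ 2 ≤ b ^ 2 * P * 4 := by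
              refine mul_le_mul (mul_le_mul_of_nonneg_left hnp2 (sq_nonneg _)) h8 (sq_nonneg _)
                (by positivity)
          _ = 4 * b ^ 2 * P := by ring
      have h6 : (mlt A n - T) ^ 2 ≤ P * x n ^ 2 := by
        have h7 : mlt A n - T = x n * (n : ℝ) ^ (s - 1) := by
          simp only [hx]
          rw [hT]
          field_simp
        rw [h7, mul_pow, mul_comm]
        exact mul_le_mul_of_nonneg_right hnp2 (sq_nonneg _)
      have h9 : f n ≤ 2 * (mlt A n - T) ^ 2 + 2 * (Public.R A n - T) ^ 2 := by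
        simp only [hf]
        rw [mult_eq A h3]
        nlinarith [sq_nonneg ((mlt A n - T) + (Public.R A n - T))]
      nlinarith
  have hsumx : ∑ n ∈ Finset.Icc 1 N, x n ^ 2 ≤ c * ε / 16 * N := by
    have h3 := hN2 N ((le_max_left _ _).trans hN)
    have hnn : 0 ≤ (∑ j ∈ Finset.Icc 1 N,
        (mlt A j / (j : ℝ) ^ (s - 1) - b * singFull j) ^ 2) / N :=
      div_nonneg (Finset.sum_nonneg fun j _ => sq_nonneg _) hNr0.le
    rw [Real.dist_eq, sub_zero, abs_of_nonneg hnn, div_lt_iff₀ hNr0] at h3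
    exact h3.le
  have hsum : ∑ n ∈ Finset.Icc 1 N, f n ≤
      K + (2 * P * (c * ε / 16 * N) + 8 * b ^ 2 * δ ^ 2 * P * N) := by
    refine (Finset.sum_le_sum hpt).trans ?_
    rw [Finset.sum_add_distrib]
    refine add_le_add ?_ ?_
    · rw [← Finset.sum_filter]
      refine Finset.sum_le_sum_of_subset_of_nonneg ?_ fun n _ _ => sq_nonneg _
      intro n hn
      rw [Finset.mem_filter, Finset.mem_Icc] at hn
      exact Finset.mem_Icc.2 ⟨hn.1.1, hn.2⟩
    · rw [Finset.sum_add_distrib, ← Finset.mul_sum, Finset.sum_const, Nat.card_Icc,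
        nsmul_eq_mul, Nat.add_sub_cancel]
      have : 2 * P * ∑ n ∈ Finset.Icc 1 N, x n ^ 2 ≤ 2 * P * (c * ε / 16 * N) :=
        mul_le_mul_of_nonneg_left hsumx (by positivity)
      linarith
  have hnn : 0 ≤ (∑ n ∈ Finset.Icc 1 N, f n) / (∑ n ∈ Finset.Icc 1 N, (Public.R A n) ^ 2) :=
    div_nonneg (Finset.sum_nonneg fun n _ => sq_nonneg _) hden0.le
  rw [Real.dist_eq, sub_zero, abs_of_nonneg hnn, div_lt_iff₀ hden0]
  refine lt_of_le_of_lt hsum ?_
  have hKN : K < c * ε / 4 * N := by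
    rw [div_lt_iff₀ (by positivity)] at hNK
    linarith
  have hPN : (N : ℝ) ≤ P * N := by
    have := mul_le_mul_of_nonneg_right hP1 hNr0.le
    linarith
  have h10 : 8 * b ^ 2 * δ ^ 2 * P * N ≤ c * ε / 4 * (P * N) := by
    have : 0 ≤ P * N := by positivity
    calc 8 * b ^ 2 * δ ^ 2 * P * N = 8 * b ^ 2 * δ ^ 2 * (P * N) := by ring
      _ ≤ _ := mul_le_mul_of_nonneg_right hδ this
  have h11 : ε * (c * (P * N)) ≤ ε * ∑ n ∈ Finset.Icc 1 N, (Public.R A n) ^ 2 :=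
    mul_le_mul_of_nonneg_left hden hε.le
  have h12 : K < c * ε / 4 * (P * N) := by
    refine lt_of_lt_of_le hKN ?_
    exact mul_le_mul_of_nonneg_left hPN (by positivity)
  have h13 : 0 < c * ε * (P * N) := by positivity
  nlinarith

/-- all final statements from `MS A` -/
theorem final_of_MS (hA : 2 ≤ A) (h1 : 1 < sexp A) (hM : MS A) :
    (∃ S : Set ℕ,
      Tendsto (fun N : ℕ => (({n ∈ S | 1 ≤ n ∧ n ≤ N}.ncard : ℝ)) / N) atTop (𝓝 1) ∧
      Tendsto (fun n : ℕ => (Public.mult A n : ℝ) / Public.R A n) (atTop ⊓ 𝓟 S) (𝓝 1)) ∧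
    Tendsto (fun N : ℕ => (∑ n ∈ Finset.Icc 1 N, |(Public.mult A n : ℝ) / Public.R A n - 1|) / N)
      atTop (𝓝 0) ∧
    Tendsto (fun N : ℕ => (∑ n ∈ Finset.Icc 1 N, ((Public.mult A n : ℝ) - Public.R A n) ^ 2) /
      (∑ n ∈ Finset.Icc 1 N, (Public.R A n) ^ 2)) atTop (𝓝 0) := by
  have hg := goal_of_MS hA h1 hM
  refine ⟨?_, hg, msq_ratio hA h1 (full_of_MS hA h1 hM)⟩
  obtain ⟨S, hS1, hS2⟩ := kvn _ (fun n => abs_nonneg _) hg
  refine ⟨S, hS1, ?_⟩
  have h2 := (tendsto_zero_iff_abs_tendsto_zero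
    (f := fun n : ℕ => (Public.mult A n : ℝ) / Public.R A n - 1)).2 hS2
  have h3 := h2.add_const 1
  simpa using h3

end Pool.Agent.W_f50700_h3
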