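import Mathlib

/-!
Public definitions of the problem (multiplicity asymptotic for bounded continued fraction matrices).
-/

open Matrix Filter Topology

namespace Pool.Agent.W_f50700_h3.Public

/-- the matrix `(a 1; 1 0)` -/
def J (a : ℕ) : Matrix (Fin 2) (Fin 2) ℤ := !![(a : ℤ), 1; 1, 0]

/-- `Γ_A`: products of an even positive number of matrices `J a`, `1 ≤ a ≤ A` -/
def Gam (A : ℕ) : Set (Matrix (Fin 2) (Fin 2) ℤ) :=
  {M | ∃ l : List ℕ, l ≠ [] ∧ Even l.length ∧ (∀ a ∈ l, 1 ≤ a ∧ a ≤ A) ∧ M = (l.map J).prod}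

/-- `mult(n)`: the number of `γ ∈ Γ_A` with top left entry `n` -/
noncomputable def mult (A n : ℕ) : ℕ := {M ∈ Gam A | M 0 0 = (n : ℤ)}.ncard

/-- `N_A(n)`: the number of `γ ∈ Γ_A` all of whose entries have absolute value at most `n` -/
noncomputable def NA (A n : ℕ) : ℕ := {M ∈ Gam A | ∀ i j, |M i j| ≤ (n : ℤ)}.ncard

/-- the finite continued fraction `[0; a 0, ..., a (n-1)]` -/
noncomputable def cf : ℕ → (ℕ → ℕ) → ℝ
  | 0, _ => 0
  | n + 1, a => 1 / ((a 0 : ℝ) + cf n (fun i => a (i + 1)))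

/-- the set `𝔠_A` of the numbers `[0; a 0, a 1, ...]` with all `1 ≤ a i ≤ A` -/
def Cset (A : ℕ) : Set ℝ :=
  {x | ∃ a : ℕ → ℕ, (∀ i, 1 ≤ a i ∧ a i ≤ A) ∧ Tendsto (fun n => cf n a) atTop (𝓝 x)}

/-- the Hausdorff dimension `δ_A` -/
noncomputable def delta (A : ℕ) : ℝ := (dimH (Cset A)).toReal

/-- the conjectured main term -/
noncomputable def R (A n : ℕ) : ℝ :=
  2 * delta A * (Real.pi ^ 2 / 6) * ((NA A n : ℝ) / n) * ∏ p ∈ n.primeFactors, (1 - 1 / (p : ℝ))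

/-- the final statement -/
def Goal : Prop :=
  ∃ A₀ : ℕ, ∀ A ≥ A₀,
    Tendsto (fun N : ℕ => (∑ n ∈ Finset.Icc 1 N, |(mult A n : ℝ) / R A n - 1|) / N) atTop (𝓝 0)

end Pool.Agent.W_f50700_h3.Public
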