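import Pool.Agent.W_f50700_h3.Base2
import Pool.Agent.W_f50700_h3.Public

/-!
Dim1: infinite continued fractions and words.
-/

open Matrix Filter Topology

namespace Pool.Agent.W_f50700_h3

open Public

/-- letters of a digit sequence -/
noncomputable def lettersOf {A : ℕ} (a : ℕ → ℕ) (n : ℕ) (ha : ∀ i, 1 ≤ a i ∧ a i ≤ A) :
    List (Lt A) :=
  List.ofFn (fun i : Fin n => ((⟨a (2 * i) - 1, by have := ha (2 * i); omega⟩ : Fin A),
    (⟨a (2 * i + 1) - 1, by have := ha (2 * i + 1); omega⟩ : Fin A)))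

theorem dim1_length {A : ℕ} (a : ℕ → ℕ) (n : ℕ) (ha : ∀ i, 1 ≤ a i ∧ a i ≤ A) :
    (lettersOf a n ha).length = n := by
  unfold lettersOf
  exact List.length_ofFn

theorem dim1_shift {A : ℕ} {a : ℕ → ℕ} (ha : ∀ i, 1 ≤ a i ∧ a i ≤ A) (k : ℕ) :
    ∀ i, 1 ≤ a (i + k) ∧ a (i + k) ≤ A := fun i => ha (i + k)

theorem dim1_letters_succ {A : ℕ} (a : ℕ → ℕ) (n : ℕ) (ha : ∀ i, 1 ≤ a i ∧ a i ≤ A) :
    lettersOf a (n + 1) ha = [((⟨a 0 - 1, by have := ha 0; omega⟩ : Fin A),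
      (⟨a 1 - 1, by have := ha 1; omega⟩ : Fin A))] ++
      lettersOf (fun i => a (i + 2)) n (dim1_shift ha 2) := by
  unfold lettersOf
  rw [List.ofFn_succ]
  rfl

theorem dim1_cf_mem {A : ℕ} (n : ℕ) : ∀ {a : ℕ → ℕ}, (∀ i, 1 ≤ a i ∧ a i ≤ A) →
    cf n a ∈ Set.Icc (0 : ℝ) 1 := by
  induction n with
  | zero =>
    intro a _
    simp [cf]
  | succ n ih =>
    intro a ha
    have h1 := ih (a := fun i => a (i + 1)) (dim1_shift ha 1)
    have h2 : (1 : ℝ) ≤ a 0 := by exact_mod_cast (ha 0).1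
    have h3 : (1 : ℝ) ≤ (a 0 : ℝ) + cf n (fun i => a (i + 1)) := by linarith [h1.1]
    show 1 / ((a 0 : ℝ) + cf n (fun i => a (i + 1))) ∈ _
    exact ⟨by positivity, by rw [div_le_one (by linarith)]; exact h3⟩

theorem dim1_cact_single {A : ℕ} (a b : ℕ) (ha : 1 ≤ a ∧ a ≤ A) (hb : 1 ≤ b ∧ b ≤ A) {y : ℝ}
    (hy : 0 ≤ y) (h1 : a - 1 < A) (h2 : b - 1 < A) :
    cact [((⟨a - 1, h1⟩ : Fin A), (⟨b - 1, h2⟩ : Fin A))] y =
      1 / ((a : ℝ) + 1 / ((b : ℝ) + y)) := by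
  unfold cact
  rw [F_single, m12_single, m21_single, m22_single]
  simp only
  rw [Nat.sub_add_cancel ha.1, Nat.sub_add_cancel hb.1]
  have ha' : (1 : ℝ) ≤ a := by exact_mod_cast ha.1
  have hb' : (1 : ℝ) ≤ b := by exact_mod_cast hb.1
  have h3 : (0 : ℝ) < (b : ℝ) + y := by linarith
  have h4 : (0 : ℝ) < (a : ℝ) * b + 1 + a * y := by positivity
  push_cast
  rw [one_mul]
  have h5 : (a : ℝ) + 1 / ((b : ℝ) + y) = ((a : ℝ) * b + 1 + a * y) / ((b : ℝ) + y) := by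
    field_simp
    ring
  rw [h5, one_div_div]

/-- removing `2 n` digits of a finite continued fraction -/
theorem dim1_cf_add {A : ℕ} (n : ℕ) : ∀ {a : ℕ → ℕ} (ha : ∀ i, 1 ≤ a i ∧ a i ≤ A) (k : ℕ),
    cf (2 * n + k) a = cact (lettersOf a n ha) (cf k (fun i => a (i + 2 * n))) := by
  induction n with
  | zero =>
    intro a ha k
    have h1 : lettersOf a 0 ha = [] := by
      unfold lettersOf
      exact List.ofFn_zero
    rw [h1]
    simp [cact]
  | succ n ih =>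
    intro a ha k
    have h1 := ih (a := fun i => a (i + 2)) (dim1_shift ha 2) k
    have hmem := dim1_cf_mem (A := A) k (a := fun i => a (i + 2 + 2 * n))
      (fun i => ha (i + 2 + 2 * n))
    have hmem' := dim1_cf_mem (A := A) k (a := fun i => a (i + 2 * n + 2))
      (fun i => ha (i + 2 * n + 2))
    rw [dim1_letters_succ]
    have e1 : (fun i => a (i + 2 * (n + 1))) = fun i => a (i + 2 * n + 2) := by
      funext i
      congr 1
    rw [e1, cact_append _ _ hmem'.1]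
    have e2 : (fun i => (fun i => a (i + 2)) (i + 2 * n)) = fun i => a (i + 2 * n + 2) := rfl
    rw [e2] at h1
    rw [← h1]
    have e3 : 2 * (n + 1) + k = (2 * n + k) + 1 + 1 := by ring
    rw [e3]
    have hmem2 := dim1_cf_mem (A := A) (2 * n + k) (a := fun i => a (i + 2)) (dim1_shift ha 2)
    rw [dim1_cact_single (a 0) (a 1) (ha 0) (ha 1) hmem2.1]
    rfl

theorem dim1_cf_close {A : ℕ} {a : ℕ → ℕ} (ha : ∀ i, 1 ≤ a i ∧ a i ≤ A) (n k : ℕ) :
    |cf (2 * n + k) a - eta (lettersOf a n ha)| ≤ (1 / 4 : ℝ) ^ n := by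
  rw [dim1_cf_add n ha k]
  have h1 := cact_sub_eta (lettersOf a n ha)
    (dim1_cf_mem (A := A) k (a := fun i => a (i + 2 * n)) (fun i => ha (i + 2 * n)))
  refine h1.trans ?_
  have h2 := two_pow_le_F (lettersOf a n ha)
  rw [dim1_length] at h2
  have h3 : (2 : ℝ) ^ n ≤ F (lettersOf a n ha) := by exact_mod_cast h2
  have h4 : (4 : ℝ) ^ n ≤ (F (lettersOf a n ha) : ℝ) ^ 2 := by
    calc (4 : ℝ) ^ n = ((2 : ℝ) ^ n) ^ 2 := by
          rw [← pow_mul, mul_comm, pow_mul]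
          norm_num
      _ ≤ _ := pow_le_pow_left₀ (by positivity) h3 2
  rw [_root_.one_div_pow]
  exact one_div_le_one_div_of_le (by positivity) h4

/-- existence of infinite continued fractions with digits in `[1, A]` -/
theorem cf_tendsto {A : ℕ} {a : ℕ → ℕ} (ha : ∀ i, 1 ≤ a i ∧ a i ≤ A) :
    ∃ x : ℝ, Tendsto (fun n => cf n a) atTop (𝓝 x) ∧ 1 / ((A : ℝ) + 1) ≤ x ∧ x ≤ 1 := by
  have hc : CauchySeq (fun n => cf n a) := by
    rw [Metric.cauchySeq_iff']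
    intro ε hε
    obtain ⟨n, hn⟩ := exists_pow_lt_of_lt_one (show (0 : ℝ) < ε / 2 by linarith)
      (show (1 / 4 : ℝ) < 1 by norm_num)
    refine ⟨2 * n, fun m hm => ?_⟩
    obtain ⟨k, rfl⟩ := Nat.exists_eq_add_of_le hm
    have h1 := dim1_cf_close ha n k
    have h2 := dim1_cf_close ha n 0
    rw [add_zero] at h2
    rw [Real.dist_eq]
    have h3 := abs_sub_abs_le_abs_sub (cf (2 * n + k) a) (cf (2 * n) a)
    calc |cf (2 * n + k) a - cf (2 * n) a|
        = |(cf (2 * n + k) a - eta (lettersOf a n ha)) -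
            (cf (2 * n) a - eta (lettersOf a n ha))| := by congr 1; ring
      _ ≤ |cf (2 * n + k) a - eta (lettersOf a n ha)| +
            |cf (2 * n) a - eta (lettersOf a n ha)| := abs_sub _ _
      _ < ε := by linarith
  obtain ⟨x, hx⟩ := cauchySeq_tendsto_of_complete hc
  refine ⟨x, hx, ?_, ?_⟩
  · refine ge_of_tendsto hx ?_
    filter_upwards [eventually_ge_atTop 1] with n hn
    obtain ⟨m, rfl⟩ : ∃ m, n = m + 1 := ⟨n - 1, by omega⟩
    have h1 := dim1_cf_mem (A := A) m (a := fun i => a (i + 1)) (dim1_shift ha 1)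
    have h2 : (1 : ℝ) ≤ a 0 := by exact_mod_cast (ha 0).1
    have h3 : (a 0 : ℝ) ≤ A := by exact_mod_cast (ha 0).2
    show 1 / ((A : ℝ) + 1) ≤ 1 / ((a 0 : ℝ) + cf m (fun i => a (i + 1)))
    exact one_div_le_one_div_of_le (by linarith [h1.1]) (by linarith [h1.2])
  · exact le_of_tendsto' hx fun n => (dim1_cf_mem n ha).2

/-- removing `2n` digits: if `x = lim cf` and `y = lim cf` of the shifted sequence then
`x = cact w y` with `w` the word of the first `2n` digits -/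
theorem cf_shift {A : ℕ} {a : ℕ → ℕ} (ha : ∀ i, 1 ≤ a i ∧ a i ≤ A) (n : ℕ) {x y : ℝ}
    (hx : Tendsto (fun k => cf k a) atTop (𝓝 x))
    (hy : Tendsto (fun k => cf k (fun i => a (i + 2 * n))) atTop (𝓝 y)) :
    x = cact (lettersOf a n ha) y := by
  have hk : ∀ k, cf k (fun i => a (i + 2 * n)) ∈ Set.Icc (0 : ℝ) 1 := fun k =>
    dim1_cf_mem (A := A) k (fun i => ha (i + 2 * n))
  have hy1 : y ∈ Set.Icc (0 : ℝ) 1 :=
    isClosed_Icc.mem_of_tendsto hy (Eventually.of_forall hk)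
  have h1 : Tendsto (fun k => cf (2 * n + k) a) atTop (𝓝 x) :=
    hx.comp (tendsto_atTop_mono (fun k => Nat.le_add_left k (2 * n)) tendsto_id)
  have h2 : Tendsto (fun k => cact (lettersOf a n ha) (cf k (fun i => a (i + 2 * n)))) atTop
      (𝓝 (cact (lettersOf a n ha) y)) := by
    rw [tendsto_iff_dist_tendsto_zero]
    have h3 : Tendsto (fun k => |cf k (fun i => a (i + 2 * n)) - y| /
        (F (lettersOf a n ha) : ℝ) ^ 2) atTop (𝓝 0) := by
      have h4 := (tendsto_iff_dist_tendsto_zero.1 hy).div_const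
        ((F (lettersOf a n ha) : ℝ) ^ 2)
      rw [zero_div] at h4
      exact h4
    exact squeeze_zero (fun k => dist_nonneg)
      (fun k => cact_lip (lettersOf a n ha) (hk k) hy1) h3
  have h3 : (fun k => cf (2 * n + k) a) =
      fun k => cact (lettersOf a n ha) (cf k (fun i => a (i + 2 * n))) :=
    funext fun k => dim1_cf_add n ha k
  rw [h3] at h1
  exact tendsto_nhds_unique h1 h2

theorem dim1_step {A : ℕ} {a : ℕ → ℕ} (ha : ∀ i, 1 ≤ a i ∧ a i ≤ A) {x y : ℝ}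
    (hx : Tendsto (fun k => cf k a) atTop (𝓝 x))
    (hy : Tendsto (fun k => cf k (fun i => a (i + 1))) atTop (𝓝 y)) :
    x = 1 / ((a 0 : ℝ) + y) := by
  have hy0 : 0 ≤ y := ge_of_tendsto' hy fun k => (dim1_cf_mem (A := A) k (dim1_shift ha 1)).1
  have h2 : (1 : ℝ) ≤ a 0 := by exact_mod_cast (ha 0).1
  have h1 : Tendsto (fun k => cf (k + 1) a) atTop (𝓝 x) := hx.comp (tendsto_add_atTop_nat 1)
  have h3 : Tendsto (fun k => 1 / ((a 0 : ℝ) + cf k (fun i => a (i + 1)))) atTop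
      (𝓝 (1 / ((a 0 : ℝ) + y))) :=
    tendsto_const_nhds.div (tendsto_const_nhds.add hy) (by linarith)
  exact tendsto_nhds_unique h1 h3

/-- two limits with different first digits -/
theorem dim1_sep {A : ℕ} {a b : ℕ → ℕ} (ha : ∀ i, 1 ≤ a i ∧ a i ≤ A)
    (hb : ∀ i, 1 ≤ b i ∧ b i ≤ A) {x y : ℝ}
    (hx : Tendsto (fun k => cf k a) atTop (𝓝 x)) (hy : Tendsto (fun k => cf k b) atTop (𝓝 y))
    (hab : a 0 ≠ b 0) : (1 / ((A : ℝ) + 1)) ^ 2 * (1 / ((A : ℝ) + 2)) ≤ |x - y| := by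
  have hA0 : (0 : ℝ) ≤ A := Nat.cast_nonneg _
  obtain ⟨x', hx', hx1, -⟩ := cf_tendsto ha
  obtain ⟨y', hy', hy1, -⟩ := cf_tendsto hb
  rw [tendsto_nhds_unique hx' hx] at hx1
  rw [tendsto_nhds_unique hy' hy] at hy1
  obtain ⟨x1, hx1t, hx1l, -⟩ := cf_tendsto (dim1_shift ha 1)
  obtain ⟨y1, hy1t, hy1l, -⟩ := cf_tendsto (dim1_shift hb 1)
  obtain ⟨x2, hx2t, hx2l, -⟩ := cf_tendsto (dim1_shift (dim1_shift ha 1) 1)
  obtain ⟨y2, hy2t, hy2l, -⟩ := cf_tendsto (dim1_shift (dim1_shift hb 1) 1)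
  have ex := dim1_step ha hx hx1t
  have ey := dim1_step hb hy hy1t
  have ex1 := dim1_step (dim1_shift ha 1) hx1t hx2t
  have ey1 := dim1_step (dim1_shift hb 1) hy1t hy2t
  have hub : ∀ (d : ℕ → ℕ) (z1 z2 : ℝ), (∀ i, 1 ≤ d i ∧ d i ≤ A) → 1 / ((A : ℝ) + 1) ≤ z2 →
      z1 = 1 / ((d 1 : ℝ) + z2) → z1 ≤ 1 - 1 / ((A : ℝ) + 2) := by
    intro d z1 z2 hd hz2 hz1
    have h1 : (1 : ℝ) ≤ d 1 := by exact_mod_cast (hd 1).1
    rw [hz1]
    have h2 : 1 + 1 / ((A : ℝ) + 1) ≤ (d 1 : ℝ) + z2 := by linarith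
    have h3 : 1 / ((d 1 : ℝ) + z2) ≤ 1 / (1 + 1 / ((A : ℝ) + 1)) :=
      one_div_le_one_div_of_le (by positivity) h2
    refine h3.trans (le_of_eq ?_)
    field_simp
    ring
  have hux := hub a x1 x2 ha hx2l ex1
  have huy := hub b y1 y2 hb hy2l ey1
  have hpos : 0 < 1 / ((A : ℝ) + 1) := by positivity
  have h1a : (1 : ℝ) ≤ a 0 := by exact_mod_cast (ha 0).1
  have h1b : (1 : ℝ) ≤ b 0 := by exact_mod_cast (hb 0).1
  have hx1p : 0 < (a 0 : ℝ) + x1 := by linarith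
  have hy1p : 0 < (b 0 : ℝ) + y1 := by linarith
  have hgap : (1 : ℝ) ≤ |(a 0 : ℝ) - b 0| := by
    have h1 : (1 : ℤ) ≤ |(a 0 : ℤ) - b 0| := Int.one_le_abs (by omega)
    exact_mod_cast h1
  have hxy1 : |x1 - y1| ≤ 1 - 1 / ((A : ℝ) + 2) := by
    rw [abs_le]
    constructor <;> linarith
  have hdiff : 1 / ((A : ℝ) + 2) ≤ |((a 0 : ℝ) + x1) - ((b 0 : ℝ) + y1)| := by
    have h1 : (a 0 : ℝ) - b 0 = (((a 0 : ℝ) + x1) - ((b 0 : ℝ) + y1)) - (x1 - y1) := by ring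
    have h2 : |(a 0 : ℝ) - b 0| ≤ |((a 0 : ℝ) + x1) - ((b 0 : ℝ) + y1)| + |x1 - y1| := by
      rw [h1]
      exact abs_sub _ _
    linarith
  have hfin : x - y = x * y * (((b 0 : ℝ) + y1) - ((a 0 : ℝ) + x1)) := by
    rw [ex, ey]
    field_simp
  have hxpos : 0 < x := lt_of_lt_of_le hpos hx1
  have hypos : 0 < y := lt_of_lt_of_le hpos hy1
  rw [hfin, abs_mul, abs_of_pos (mul_pos hxpos hypos), abs_sub_comm]
  refine mul_le_mul ?_ hdiff (by positivity) (mul_pos hxpos hypos).le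
  rw [pow_two]
  exact mul_le_mul hx1 hy1 hpos.le hxpos.le

/-- lower bound for the distance of two points whose words agree exactly up to `w` -/
theorem cf_dist {A : ℕ} (hA : 1 ≤ A) : ∃ c : ℝ, 0 < c ∧ ∀ a b : ℕ → ℕ,
    ∀ ha : (∀ i, 1 ≤ a i ∧ a i ≤ A), ∀ hb : (∀ i, 1 ≤ b i ∧ b i ≤ A), ∀ x y : ℝ,
    Tendsto (fun k => cf k a) atTop (𝓝 x) → Tendsto (fun k => cf k b) atTop (𝓝 y) →
    ∀ n : ℕ, (∀ i < 2 * n, a i = b i) → (a (2 * n) ≠ b (2 * n) ∨ a (2 * n + 1) ≠ b (2 * n + 1)) →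
    c / (F (lettersOf a n ha) : ℝ) ^ 2 ≤ |x - y| := by
  have hpos : (0 : ℝ) < 1 / ((A : ℝ) + 1) := by positivity
  have hle : 1 / ((A : ℝ) + 1) ≤ 1 := by
    rw [div_le_one (by positivity)]
    have : (0 : ℝ) ≤ A := Nat.cast_nonneg _
    linarith
  set κ : ℝ := (1 / ((A : ℝ) + 1)) ^ 2 * ((1 / ((A : ℝ) + 1)) ^ 2 * (1 / ((A : ℝ) + 2))) with hκ
  have hκ0 : 0 < κ := by positivity
  refine ⟨κ / 4, by positivity, fun a b ha hb x y hx hy n hag hne => ?_⟩
  obtain ⟨x', hx', hx'l, hx'u⟩ := cf_tendsto (fun i => ha (i + 2 * n))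
  obtain ⟨y', hy', hy'l, hy'u⟩ := cf_tendsto (fun i => hb (i + 2 * n))
  have ex := cf_shift ha n hx hx'
  have ey := cf_shift hb n hy hy'
  have hw : lettersOf b n hb = lettersOf a n ha := by
    unfold lettersOf
    congr 1
    funext i
    have h1 := hag (2 * i) (by have := i.isLt; omega)
    have h2 := hag (2 * i + 1) (by have := i.isLt; omega)
    refine Prod.ext (Fin.ext ?_) (Fin.ext ?_)
    · show b (2 * i) - 1 = a (2 * i) - 1
      rw [h1]
    · show b (2 * i + 1) - 1 = a (2 * i + 1) - 1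
      rw [h2]
  rw [hw] at ey
  -- the tails are far apart
  have htail : κ ≤ |x' - y'| := by
    have hsmall : (1 / ((A : ℝ) + 1)) ^ 2 ≤ 1 := pow_le_one₀ hpos.le hle
    by_cases h0 : a (2 * n) = b (2 * n)
    · have h1 : a (2 * n + 1) ≠ b (2 * n + 1) := by
        rcases hne with h | h
        · exact absurd h0 h
        · exact h
      have ha2 : ∀ i, 1 ≤ a (i + 2 * n) ∧ a (i + 2 * n) ≤ A := fun i => ha (i + 2 * n)
      have hb2 : ∀ i, 1 ≤ b (i + 2 * n) ∧ b (i + 2 * n) ≤ A := fun i => hb (i + 2 * n)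
      obtain ⟨x1, hx1t, hx1l, -⟩ := cf_tendsto (dim1_shift ha2 1)
      obtain ⟨y1, hy1t, hy1l, -⟩ := cf_tendsto (dim1_shift hb2 1)
      have ex1 := dim1_step ha2 hx' hx1t
      have ey1 := dim1_step hb2 hy' hy1t
      have h2 := dim1_sep (dim1_shift ha2 1) (dim1_shift hb2 1) hx1t hy1t (by
        show a (0 + 1 + 2 * n) ≠ b (0 + 1 + 2 * n)
        have e : 0 + 1 + 2 * n = 2 * n + 1 := by ring
        rw [e]
        exact h1)
      have e0 : a (0 + 2 * n) = b (0 + 2 * n) := by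
        rw [zero_add]
        exact h0
      rw [← e0] at ey1
      have h1a : (1 : ℝ) ≤ a (0 + 2 * n) := by exact_mod_cast (ha _).1
      have hx1p : 0 < (a (0 + 2 * n) : ℝ) + x1 := by linarith
      have hy1p : 0 < (a (0 + 2 * n) : ℝ) + y1 := by linarith
      have hfin : x' - y' = x' * y' * (y1 - x1) := by
        rw [ex1, ey1]
        field_simp
        ring
      have hxpos : 0 < x' := lt_of_lt_of_le hpos hx'l
      have hypos : 0 < y' := lt_of_lt_of_le hpos hy'l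
      rw [hfin, abs_mul, abs_of_pos (mul_pos hxpos hypos), abs_sub_comm, hκ]
      refine mul_le_mul ?_ h2 (by positivity) (mul_pos hxpos hypos).le
      rw [pow_two]
      exact mul_le_mul hx'l hy'l hpos.le hxpos.le
    · have h2 := dim1_sep (fun i => ha (i + 2 * n)) (fun i => hb (i + 2 * n)) hx' hy' (by
        show a (0 + 2 * n) ≠ b (0 + 2 * n)
        rw [zero_add]
        exact h0)
      refine le_trans ?_ h2
      rw [hκ]
      calc (1 / ((A : ℝ) + 1)) ^ 2 * ((1 / ((A : ℝ) + 1)) ^ 2 * (1 / ((A : ℝ) + 2)))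
          ≤ 1 * ((1 / ((A : ℝ) + 1)) ^ 2 * (1 / ((A : ℝ) + 2))) :=
            mul_le_mul_of_nonneg_right hsmall (by positivity)
        _ = _ := one_mul _
  have hx'0 : 0 ≤ x' := hpos.le.trans hx'l
  have hy'0 : 0 ≤ y' := hpos.le.trans hy'l
  set w := lettersOf a n ha with hwdef
  have hFp : (0 : ℝ) < F w := by exact_mod_cast F_pos w
  have hc1 : 0 < cpsi w x' := cpsi_pos w hx'0
  have hc2 : 0 < cpsi w y' := cpsi_pos w hy'0
  have hc1u := cpsi_le w (y := x') ⟨hx'0, hx'u⟩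
  have hc2u := cpsi_le w (y := y') ⟨hy'0, hy'u⟩
  have hdet : (F w : ℝ) * m22 w = m12 w * m21 w + 1 := by exact_mod_cast det_one w
  have hdiff : x - y = (x' - y') / (cpsi w x' * cpsi w y') := by
    rw [ex, ey]
    have e1 : cact w x' = ((m21 w : ℝ) + (m22 w : ℝ) * x') / cpsi w x' := rfl
    have e2 : cact w y' = ((m21 w : ℝ) + (m22 w : ℝ) * y') / cpsi w y' := rfl
    rw [e1, e2, div_sub_div _ _ hc1.ne' hc2.ne']
    congr 1
    unfold cpsi
    linear_combination (x' - y') * hdet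
  rw [hdiff, abs_div, abs_of_pos (mul_pos hc1 hc2)]
  have hprod : cpsi w x' * cpsi w y' ≤ 4 * (F w : ℝ) ^ 2 := by
    calc cpsi w x' * cpsi w y' ≤ (2 * F w) * (2 * F w) :=
          mul_le_mul hc1u hc2u hc2.le (by positivity)
      _ = _ := by ring
  calc κ / 4 / (F w : ℝ) ^ 2 = κ / (4 * (F w : ℝ) ^ 2) := by rw [div_div]
    _ ≤ κ / (cpsi w x' * cpsi w y') :=
        div_le_div_of_nonneg_left hκ0.le (mul_pos hc1 hc2) hprod
    _ ≤ _ := div_le_div_of_nonneg_right htail (mul_pos hc1 hc2).le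

end Pool.Agent.W_f50700_h3
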