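import Pool.Agent.W_f50700_h3.Dim1
import Pool.Agent.W_f50700_h3.Expo2

/-!
Dim2: upper bound for the dimension.
-/

open Matrix Filter Topology

namespace Pool.Agent.W_f50700_h3

open Public

theorem dim2_cover {A : ℕ} {Z : ℝ} (hZ : 1 < Z) {x : ℝ} (hx : x ∈ Cset A) :
    ∃ w ∈ passF A Z, ∃ y ∈ Set.Icc (0 : ℝ) 1, x = cact w y := by
  obtain ⟨a, ha, hx⟩ := hx
  obtain ⟨n, hn⟩ := pow_unbounded_of_one_lt Z (show (1 : ℝ) < 2 by norm_num)
  obtain ⟨y, hy, hy1, hy2⟩ := cf_tendsto (fun i => ha (i + 2 * n))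
  have hy0 : 0 ≤ y := le_trans (by positivity) hy1
  have h1 := cf_shift ha n hx hy
  have h2 : Z ≤ (F (lettersOf a n ha) : ℝ) := by
    refine hn.le.trans ?_
    have h3 := two_pow_le_F (lettersOf a n ha)
    rw [dim1_length] at h3
    exact_mod_cast h3
  obtain ⟨u, hu, v, huv⟩ := exists_pass_prefix hZ h2
  rw [huv, cact_append u v hy0] at h1
  exact ⟨u, hu, cact v y, cact_mem v ⟨hy0, hy2⟩, h1⟩

theorem dim2_diam {A : ℕ} (w : List (Lt A)) :
    Metric.ediam (cact w '' Set.Icc (0 : ℝ) 1) ≤ ENNReal.ofReal (1 / (F w : ℝ) ^ 2) := by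
  refine Metric.ediam_le ?_
  rintro _ ⟨x, hx, rfl⟩ _ ⟨y, hy, rfl⟩
  rw [edist_dist, Real.dist_eq]
  refine ENNReal.ofReal_le_ofReal ((cact_lip w hx hy).trans ?_)
  have hF : (0 : ℝ) < F w := by exact_mod_cast F_pos w
  refine div_le_div_of_nonneg_right ?_ (by positivity)
  rw [abs_le]
  constructor <;> linarith [hx.1, hx.2, hy.1, hy.2]

/-- (E5), upper bound.  Proof: for `t > sexp A / 2` (real) `μH[t] (Cset A) = 0`: for each `Z`, the
set is covered by the cylinders of the words `w ∈ passF A Z` (every point is `cact w y` with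
`y ∈ [0,1]`, diameter at most `1 / F w ^ 2 ≤ Z^(-2)`), and
`card (passF A Z) * Z^(-2t) ≤ C Z^(sexp A - 2t) → 0`
(`hausdorffMeasure_le_liminf_sum` or similar), then `dimH_le_of_hausdorffMeasure_ne_top`. -/
theorem dimH_Cset_le {A : ℕ} (hA : 2 ≤ A) : dimH (Cset A) ≤ ENNReal.ofReal (sexp A / 2) := by
  have hs0 := sexp_pos hA
  set s := sexp A with hs
  have hd : ((Real.toNNReal (s / 2) : NNReal) : ℝ) = s / 2 := Real.coe_toNNReal _ (by linarith)
  show dimH (Cset A) ≤ ((Real.toNNReal (s / 2) : NNReal) : ENNReal)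
  apply dimH_le_of_hausdorffMeasure_ne_top
  rw [hd]
  refine ne_top_of_le_ne_top (b := ENNReal.ofReal ((4 : ℝ) ^ s)) ENNReal.ofReal_ne_top ?_
  have hZ : ∀ n : ℕ, (1 : ℝ) < (n : ℝ) + 2 := fun n => by
    have : (0 : ℝ) ≤ n := Nat.cast_nonneg n
    linarith
  refine (MeasureTheory.Measure.hausdorffMeasure_le_liminf_sum (ι := fun n : ℕ =>
    {w // w ∈ passF A ((n : ℝ) + 2)}) (s / 2) (Cset A) (l := atTop)
    (fun n : ℕ => ENNReal.ofReal (1 / ((n : ℝ) + 2) ^ 2)) ?_
    (fun n w => cact w.1 '' Set.Icc (0 : ℝ) 1) ?_ ?_).trans ?_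
  · have h1 : Tendsto (fun n : ℕ => 1 / ((n : ℝ) + 2) ^ 2) atTop (𝓝 0) := by
      have h2 : Tendsto (fun n : ℕ => ((n : ℝ) + 2) ^ 2) atTop atTop :=
        (tendsto_pow_atTop (by norm_num)).comp
          (tendsto_atTop_add_const_right _ 2 tendsto_natCast_atTop_atTop)
      simpa [one_div, Function.comp_def] using tendsto_inv_atTop_zero.comp h2
    have h3 := ENNReal.tendsto_ofReal h1
    rwa [ENNReal.ofReal_zero] at h3
  · refine Eventually.of_forall fun n w => (dim2_diam w.1).trans ?_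
    refine ENNReal.ofReal_le_ofReal ?_
    have h1 := (passF_bounds w.2).1
    have h2 : (0 : ℝ) < (n : ℝ) + 2 := by linarith [hZ n]
    exact one_div_le_one_div_of_le (by positivity) (pow_le_pow_left₀ h2.le h1 2)
  · refine Eventually.of_forall fun n x hx => ?_
    obtain ⟨w, hw, y, hy, hxy⟩ := dim2_cover (hZ n) hx
    exact Set.mem_iUnion.2 ⟨⟨w, hw⟩, ⟨y, hy, hxy.symm⟩⟩
  · refine (liminf_le_liminf (Eventually.of_forall fun n => ?_)).trans
      (le_of_eq (liminf_const (f := (atTop : Filter ℕ)) (ENNReal.ofReal ((4 : ℝ) ^ s))))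
    have h1 : ∀ w : {w // w ∈ passF A ((n : ℝ) + 2)},
        Metric.ediam (cact w.1 '' Set.Icc (0 : ℝ) 1) ^ (s / 2) ≤
          ENNReal.ofReal (((F w.1 : ℕ) : ℝ) ^ (-s)) := by
      intro w
      have hF : (0 : ℝ) < F w.1 := by exact_mod_cast F_pos w.1
      refine (ENNReal.rpow_le_rpow (dim2_diam w.1) (by linarith)).trans ?_
      rw [ENNReal.ofReal_rpow_of_nonneg (by positivity) (by linarith)]
      refine ENNReal.ofReal_le_ofReal (le_of_eq ?_)
      rw [one_div, ← Real.rpow_natCast, ← Real.rpow_neg hF.le, ← Real.rpow_mul hF.le]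
      congr 1
      push_cast
      ring
    refine (Finset.sum_le_sum fun w _ => h1 w).trans ?_
    rw [← ENNReal.ofReal_sum_of_nonneg fun w _ => (Real.rpow_pos_of_pos
      (by exact_mod_cast F_pos w.1) _).le]
    refine ENNReal.ofReal_le_ofReal ?_
    have h2 := (sum_pass_bounds (A := A) (by omega) (hZ n)).2
    rw [← hs] at h2
    rw [Finset.sum_coe_sort (passF A ((n : ℝ) + 2)) (fun w => ((F w : ℕ) : ℝ) ^ (-s))]
    exact h2

end Pool.Agent.W_f50700_h3
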