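import Pool.Agent.W_f50700_h3.Base3

/-!
Expo1: the sums `asum A s n` and the critical exponent.
-/

open Matrix

namespace Pool.Agent.W_f50700_h3

variable {A : ℕ}

theorem expo1_F_pos (w : List (Lt A)) : (0 : ℝ) < ((F w : ℕ) : ℝ) := by
  exact_mod_cast F_pos w

theorem expo1_one_le_F (w : List (Lt A)) : (1 : ℝ) ≤ ((F w : ℕ) : ℝ) := by
  exact_mod_cast F_pos w

theorem asum_zero (A : ℕ) (s : ℝ) : asum A s 0 = 1 := by
  simp [asum]

theorem asum_pos (hA : 1 ≤ A) (s : ℝ) (n : ℕ) : 0 < asum A s n := by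
  unfold asum
  haveI : Nonempty (Fin A) := ⟨⟨0, hA⟩⟩
  exact Finset.sum_pos (fun w _ => Real.rpow_pos_of_pos (expo1_F_pos _) _)
    Finset.univ_nonempty

theorem expo1_asum_nonneg (s : ℝ) (n : ℕ) : 0 ≤ asum A s n := by
  unfold asum
  exact Finset.sum_nonneg fun w _ => (Real.rpow_pos_of_pos (expo1_F_pos _) _).le

theorem expo1_asum_add (s : ℝ) (n m : ℕ) :
    asum A s (n + m) = ∑ u : Fin n → Lt A, ∑ v : Fin m → Lt A,
      ((F (List.ofFn u ++ List.ofFn v) : ℕ) : ℝ) ^ (-s) := by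
  unfold asum
  rw [← Fintype.sum_prod_type', ← Equiv.sum_comp (Fin.appendEquiv n m)]
  refine Finset.sum_congr rfl fun p _ => ?_
  have : List.ofFn (Fin.appendEquiv n m p) = List.ofFn p.1 ++ List.ofFn p.2 :=
    List.ofFn_fin_append p.1 p.2
  rw [this]

/-- first letter / rest: sum over words of length `n+m` as a double sum -/
theorem asum_add_le {s : ℝ} (hs : 0 ≤ s) (n m : ℕ) :
    asum A s (n + m) ≤ asum A s n * asum A s m := by
  rw [expo1_asum_add]
  unfold asum
  rw [Finset.sum_mul_sum]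
  refine Finset.sum_le_sum fun u _ => Finset.sum_le_sum fun v _ => ?_
  rw [← Real.mul_rpow (expo1_F_pos _).le (expo1_F_pos _).le]
  refine Real.rpow_le_rpow_of_nonpos (mul_pos (expo1_F_pos _) (expo1_F_pos _)) ?_
    (neg_nonpos.2 hs)
  exact_mod_cast F_mul_le (List.ofFn u) (List.ofFn v)

theorem asum_add_ge {s : ℝ} (hs : 0 ≤ s) (n m : ℕ) :
    (2 : ℝ) ^ (-s) * (asum A s n * asum A s m) ≤ asum A s (n + m) := by
  rw [expo1_asum_add]
  unfold asum
  rw [Finset.sum_mul_sum, Finset.mul_sum]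
  refine Finset.sum_le_sum fun u _ => ?_
  rw [Finset.mul_sum]
  refine Finset.sum_le_sum fun v _ => ?_
  rw [← Real.mul_rpow (expo1_F_pos _).le (expo1_F_pos _).le,
    ← Real.mul_rpow (by norm_num) (mul_pos (expo1_F_pos _) (expo1_F_pos _)).le]
  refine Real.rpow_le_rpow_of_nonpos (expo1_F_pos _) ?_ (neg_nonpos.2 hs)
  exact_mod_cast F_append_le (List.ofFn u) (List.ofFn v)

theorem asum_anti {s t : ℝ} (h : s ≤ t) (n : ℕ) : asum A t n ≤ asum A s n := by
  unfold asum
  exact Finset.sum_le_sum fun w _ =>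
    Real.rpow_le_rpow_of_exponent_le (expo1_one_le_F _) (neg_le_neg h)

theorem asum_continuous (n : ℕ) : Continuous (fun s : ℝ => asum A s n) := by
  unfold asum
  refine continuous_finsetSum _ fun w _ => ?_
  exact (Real.continuous_const_rpow (expo1_F_pos _).ne').comp continuous_neg

/-- `asum A s 1 ≤ A^2 2^(-s)` for `s ≥ 0` -/
theorem asum_one_le {s : ℝ} (hs : 0 ≤ s) : asum A s 1 ≤ (A : ℝ) ^ 2 * (2 : ℝ) ^ (-s) := by
  unfold asum
  have h1 : ∀ w : Fin 1 → Lt A, ((F (List.ofFn w) : ℕ) : ℝ) ^ (-s) ≤ (2 : ℝ) ^ (-s) := by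
    intro w
    refine Real.rpow_le_rpow_of_nonpos (by norm_num) ?_ (neg_nonpos.2 hs)
    have h2 := two_pow_le_F (List.ofFn w)
    rw [List.length_ofFn, pow_one] at h2
    exact_mod_cast h2
  refine (Finset.sum_le_card_nsmul _ _ _ fun w _ => h1 w).trans ?_
  rw [nsmul_eq_mul]
  refine le_of_eq ?_
  congr 1
  simp [Finset.card_univ]
  ring

theorem asum_at_zero (n : ℕ) : asum A 0 n = ((A : ℝ) ^ 2) ^ n := by
  unfold asum
  simp only [neg_zero, Real.rpow_zero]
  simp [Finset.card_univ]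
  ring

theorem sexp_nonneg (A : ℕ) : 0 ≤ sexp A := by
  unfold sexp
  exact Real.sInf_nonneg fun s hs => hs.1

theorem expo1_bdd (A : ℕ) : BddBelow {s : ℝ | 0 ≤ s ∧ ∃ n : ℕ, asum A s n < 1} :=
  ⟨0, fun s hs => hs.1⟩

theorem expo1_nonempty (A : ℕ) : {s : ℝ | 0 ≤ s ∧ ∃ n : ℕ, asum A s n < 1}.Nonempty := by
  have h1 : Filter.Tendsto (fun n : ℕ => (A : ℝ) ^ 2 * (1 / 2 : ℝ) ^ n) Filter.atTop (nhds 0) := by
    have := (tendsto_pow_atTop_nhds_zero_of_lt_one (r := (1 / 2 : ℝ)) (by norm_num)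
      (by norm_num)).const_mul ((A : ℝ) ^ 2)
    rwa [mul_zero] at this
  obtain ⟨n, hn⟩ := (h1.eventually (gt_mem_nhds (show (0 : ℝ) < 1 by norm_num))).exists
  refine ⟨(n : ℝ), Nat.cast_nonneg _, 1, ?_⟩
  refine lt_of_le_of_lt (asum_one_le (Nat.cast_nonneg _)) ?_
  rw [Real.rpow_neg (by norm_num), Real.rpow_natCast, ← inv_pow, ← one_div]
  exact hn

theorem expo1_mul_add_le {s : ℝ} (hs : 0 ≤ s) (n0 k j : ℕ) :
    asum A s (k * n0 + j) ≤ asum A s n0 ^ k * asum A s j := by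
  induction k with
  | zero => simp
  | succ k ih =>
    have h1 : (k + 1) * n0 + j = n0 + (k * n0 + j) := by ring
    rw [h1]
    calc asum A s (n0 + (k * n0 + j)) ≤ asum A s n0 * asum A s (k * n0 + j) := asum_add_le hs _ _
      _ ≤ asum A s n0 * (asum A s n0 ^ k * asum A s j) :=
          mul_le_mul_of_nonneg_left ih (expo1_asum_nonneg _ _)
      _ = _ := by ring

/-- beyond the exponent the sums tend to zero geometrically; here only: they tend to `0` -/
theorem asum_tendsto {s : ℝ} (hA : 1 ≤ A) (h : sexp A < s) :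
    Filter.Tendsto (fun n => asum A s n) Filter.atTop (nhds 0) := by
  obtain ⟨t, ⟨ht0, n0, hn0⟩, hts⟩ := exists_lt_of_csInf_lt (expo1_nonempty A) h
  have hs : 0 ≤ s := ht0.trans hts.le
  have hr1 : asum A s n0 < 1 := lt_of_le_of_lt (asum_anti hts.le n0) hn0
  have hr0 : 0 < asum A s n0 := asum_pos hA s n0
  have hn1 : 0 < n0 := by
    rcases Nat.eq_zero_or_pos n0 with h0 | h0
    · subst h0
      rw [asum_zero] at hn0
      exact absurd hn0 (lt_irrefl _)
    · exact h0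
  set M := ∑ j ∈ Finset.range n0, asum A s j with hM
  have h1 : ∀ n, asum A s n ≤ asum A s n0 ^ (n / n0) * M := by
    intro n
    have h2 := expo1_mul_add_le (A := A) hs n0 (n / n0) (n % n0)
    have h3 : n / n0 * n0 + n % n0 = n := Nat.div_add_mod' n n0
    rw [h3] at h2
    refine h2.trans (mul_le_mul_of_nonneg_left ?_ (pow_nonneg hr0.le _))
    exact Finset.single_le_sum (f := fun j => asum A s j) (fun j _ => expo1_asum_nonneg s j)
      (Finset.mem_range.2 (Nat.mod_lt n hn1))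
  have h2 : Filter.Tendsto (fun n : ℕ => asum A s n0 ^ (n / n0) * M) Filter.atTop (nhds 0) := by
    have h3 := (tendsto_pow_atTop_nhds_zero_of_lt_one hr0.le hr1).comp
      (Nat.tendsto_div_const_atTop hn1.ne')
    have h4 := h3.mul_const M
    rw [zero_mul] at h4
    exact h4
  exact squeeze_zero (fun n => expo1_asum_nonneg s n) h1 h2

/-- (E1), lower half -/
theorem one_le_asum (hA : 1 ≤ A) (n : ℕ) : 1 ≤ asum A (sexp A) n := by
  by_contra hcon
  rw [not_le] at hcon
  rcases (sexp_nonneg A).eq_or_lt with h0 | h0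
  · rw [← h0, asum_at_zero] at hcon
    have h1 : (1 : ℝ) ≤ (A : ℝ) := by exact_mod_cast hA
    have h2 : (1 : ℝ) ≤ ((A : ℝ) ^ 2) ^ n := one_le_pow₀ (one_le_pow₀ h1)
    linarith
  · have h1 : ∀ᶠ s in nhds (sexp A), asum A s n < 1 :=
      (asum_continuous (A := A) n).continuousAt.eventually (gt_mem_nhds hcon)
    have h2 : ∀ᶠ s in nhds (sexp A), 0 < s := lt_mem_nhds h0
    obtain ⟨ε, hε, hball⟩ := Metric.eventually_nhds_iff.1 (h1.and h2)
    have h3 := hball (y := sexp A - ε / 2) (by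
      rw [Real.dist_eq]
      rw [show sexp A - ε / 2 - sexp A = -(ε / 2) by ring, abs_neg, abs_of_pos (by linarith)]
      linarith)
    have h4 : sexp A ≤ sexp A - ε / 2 := csInf_le (expo1_bdd A) ⟨h3.2.le, n, h3.1⟩
    linarith

/-- (E1), upper half -/
theorem asum_le_two (hA : 1 ≤ A) (n : ℕ) : asum A (sexp A) n ≤ (2 : ℝ) ^ (sexp A) := by
  by_contra hcon
  rw [not_le] at hcon
  have hn : n ≠ 0 := by
    rintro rfl
    rw [asum_zero] at hcon
    have := Real.one_le_rpow (x := 2) (by norm_num) (sexp_nonneg A)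
    linarith
  have hc : Continuous (fun s : ℝ => asum A s n - (2 : ℝ) ^ s) :=
    (asum_continuous n).sub (Real.continuous_const_rpow (by norm_num))
  have h1 : ∀ᶠ s in nhds (sexp A), 0 < asum A s n - (2 : ℝ) ^ s :=
    hc.continuousAt.eventually (lt_mem_nhds (by linarith))
  obtain ⟨ε, hε, hball⟩ := Metric.eventually_nhds_iff.1 h1
  set s := sexp A + ε / 2 with hs
  have h2 := hball (y := s) (by
    rw [Real.dist_eq, hs]
    rw [show sexp A + ε / 2 - sexp A = ε / 2 by ring, abs_of_pos (by linarith)]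
    linarith)
  have hs0 : 0 ≤ s := by
    have := sexp_nonneg A
    linarith
  have h2s : (1 : ℝ) ≤ (2 : ℝ) ^ s := Real.one_le_rpow (by norm_num) hs0
  have hinv : (2 : ℝ) ^ (-s) * (2 : ℝ) ^ s = 1 := by
    rw [← Real.rpow_add (by norm_num), neg_add_cancel, Real.rpow_zero]
  have hpos : (0 : ℝ) < (2 : ℝ) ^ (-s) := Real.rpow_pos_of_pos (by norm_num) _
  have h3 : ∀ k : ℕ, (2 : ℝ) ^ s ≤ asum A s ((k + 1) * n) := by
    intro k
    induction k with
    | zero =>
      rw [zero_add, one_mul]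
      linarith
    | succ k ih =>
      have h4 := asum_add_ge (A := A) hs0 ((k + 1) * n) n
      have h5 : (k + 1 + 1) * n = (k + 1) * n + n := by ring
      rw [h5]
      refine le_trans ?_ h4
      have h6 : (2 : ℝ) ^ s * (2 : ℝ) ^ s ≤ asum A s ((k + 1) * n) * asum A s n :=
        mul_le_mul ih (by linarith) (by linarith) (expo1_asum_nonneg _ _)
      calc (2 : ℝ) ^ s = (2 : ℝ) ^ (-s) * ((2 : ℝ) ^ s * (2 : ℝ) ^ s) := by
            rw [← mul_assoc, hinv, one_mul]
        _ ≤ _ := mul_le_mul_of_nonneg_left h6 hpos.le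
  have h4 : Filter.Tendsto (fun k : ℕ => asum A s ((k + 1) * n)) Filter.atTop (nhds 0) := by
    refine (asum_tendsto hA (show sexp A < s by linarith)).comp ?_
    refine Filter.tendsto_atTop_mono (fun k => ?_) Filter.tendsto_id
    show k ≤ (k + 1) * n
    have : (k + 1) * 1 ≤ (k + 1) * n := Nat.mul_le_mul_left _ (Nat.pos_of_ne_zero hn)
    omega
  have h5 := ge_of_tendsto' h4 h3
  linarith

theorem expo1_ofFn (w : List (Lt A)) : ∃ f : Fin w.length → Lt A, List.ofFn f = w :=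
  ⟨w.get, List.ofFn_get w⟩

/-- the part of a finite set of words with a given length -/
theorem expo1_sum_length (s : ℝ) (T : Finset (List (Lt A))) (n : ℕ) :
    ∑ w ∈ T with w.length = n, ((F w : ℕ) : ℝ) ^ (-s) ≤ asum A s n := by
  classical
  unfold asum
  have h1 : ∑ w : Fin n → Lt A, ((F (List.ofFn w) : ℕ) : ℝ) ^ (-s) =
      ∑ w ∈ (Finset.univ : Finset (Fin n → Lt A)).image List.ofFn, ((F w : ℕ) : ℝ) ^ (-s) := by
    rw [Finset.sum_image (List.ofFn_injective.injOn)]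
  rw [h1]
  refine Finset.sum_le_sum_of_subset_of_nonneg ?_
    fun w _ _ => (Real.rpow_pos_of_pos (expo1_F_pos _) _).le
  intro w hw
  obtain ⟨-, h2⟩ := Finset.mem_filter.1 hw
  subst h2
  obtain ⟨f, hf⟩ := expo1_ofFn w
  exact Finset.mem_image.2 ⟨f, Finset.mem_univ _, hf⟩

theorem expo1_gap {s t : ℝ} (hts : t ≤ s) (n : ℕ) :
    asum A s n ≤ ((2 : ℝ) ^ (-(s - t))) ^ n * asum A t n := by
  unfold asum
  rw [Finset.mul_sum]
  refine Finset.sum_le_sum fun w _ => ?_
  have h1 : (-s : ℝ) = -(s - t) + -t := by ring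
  rw [h1, Real.rpow_add (expo1_F_pos _)]
  refine mul_le_mul_of_nonneg_right ?_ (Real.rpow_pos_of_pos (expo1_F_pos _) _).le
  have h2 : ((2 : ℝ) ^ (-(s - t))) ^ n = ((2 : ℝ) ^ n) ^ (-(s - t)) := by
    rw [← Real.rpow_natCast, ← Real.rpow_natCast, ← Real.rpow_mul (by norm_num),
      ← Real.rpow_mul (by norm_num), mul_comm]
  rw [h2]
  refine Real.rpow_le_rpow_of_nonpos (by positivity) ?_ (by linarith)
  have h3 := two_pow_le_F (List.ofFn w)
  rw [List.length_ofFn] at h3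
  exact_mod_cast h3

/-- if the sum of `F^(-s)` over all words diverges (finite partial sums are unbounded) then
`s ≤ sexp A` (for `s > sexp A` the sums `asum A s n` decay geometrically). -/
theorem le_sexp_of_unbounded (hA : 1 ≤ A) {s : ℝ} (hs : 0 ≤ s)
    (h : ∀ B : ℝ, ∃ T : Finset (List (Lt A)), B ≤ ∑ w ∈ T, ((F w : ℕ) : ℝ) ^ (-s)) :
    s ≤ sexp A := by
  classical
  by_contra hcon
  rw [not_le] at hcon
  set t := (sexp A + s) / 2 with ht
  have ht1 : sexp A < t := by linarith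
  have ht2 : t < s := by linarith
  have h1 := asum_tendsto hA ht1
  obtain ⟨C, hC⟩ := h1.bddAbove_range
  have hC' : ∀ n, asum A t n ≤ C := fun n => hC ⟨n, rfl⟩
  set r : ℝ := (2 : ℝ) ^ (-(s - t)) with hr
  have hr0 : 0 < r := Real.rpow_pos_of_pos (by norm_num) _
  have hr1 : r < 1 := Real.rpow_lt_one_of_one_lt_of_neg (by norm_num) (by linarith)
  have h2 : ∀ n, asum A s n ≤ r ^ n * C := fun n =>
    (expo1_gap ht2.le n).trans (mul_le_mul_of_nonneg_left (hC' n) (pow_nonneg hr0.le n))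
  have hC0 : 0 ≤ C := (expo1_asum_nonneg t 0).trans (hC' 0)
  obtain ⟨T, hT⟩ := h ((1 - r)⁻¹ * C + 1)
  set N := T.sup List.length + 1 with hN
  have h3 : ∑ w ∈ T, ((F w : ℕ) : ℝ) ^ (-s) =
      ∑ n ∈ Finset.range N, ∑ w ∈ T with w.length = n, ((F w : ℕ) : ℝ) ^ (-s) := by
    refine (Finset.sum_fiberwise_of_maps_to (fun w hw => ?_) _).symm
    exact Finset.mem_range.2 (Nat.lt_succ_of_le (Finset.le_sup (f := List.length) hw))
  rw [h3] at hT
  have h4 : ∑ n ∈ Finset.range N, ∑ w ∈ T with w.length = n, ((F w : ℕ) : ℝ) ^ (-s) ≤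
      ∑ n ∈ Finset.range N, r ^ n * C :=
    Finset.sum_le_sum fun n _ => (expo1_sum_length s T n).trans (h2 n)
  have h5 : ∑ n ∈ Finset.range N, r ^ n * C ≤ (1 - r)⁻¹ * C := by
    rw [← Finset.sum_mul]
    refine mul_le_mul_of_nonneg_right ?_ hC0
    have h6 := (summable_geometric_of_lt_one hr0.le hr1).sum_le_tsum (Finset.range N)
      (fun n _ => pow_nonneg hr0.le n)
    rwa [tsum_geometric_of_lt_one hr0.le hr1] at h6
  linarith

/-- the inclusion of alphabets -/
def expo1_emb {A B : ℕ} (h : A ≤ B) (g : Lt A) : Lt B := (Fin.castLE h g.1, Fin.castLE h g.2)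

theorem expo1_mat_map {A B : ℕ} (h : A ≤ B) (w : List (Lt A)) :
    mat (w.map (expo1_emb h)) = mat w := by
  induction w with
  | nil => rfl
  | cons g w ih => rw [List.map_cons, mat, mat, ih]; rfl

/-- a bigger alphabet has a bigger exponent -/
theorem sexp_mono {A B : ℕ} (hA : 1 ≤ A) (h : A ≤ B) : sexp A ≤ sexp B := by
  unfold sexp
  refine csInf_le_csInf (expo1_bdd A) (expo1_nonempty B) ?_
  rintro s ⟨hs, n, hn⟩
  refine ⟨hs, n, lt_of_le_of_lt ?_ hn⟩
  unfold asum
  have hinj : Function.Injective (fun (w : Fin n → Lt A) (i : Fin n) => expo1_emb h (w i)) := by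
    intro u v huv
    funext i
    have h1 := congrFun huv i
    have h2 := Prod.ext_iff.1 h1
    exact Prod.ext (Fin.castLE_injective h h2.1) (Fin.castLE_injective h h2.2)
  have h1 : ∀ w : Fin n → Lt A, ((F (List.ofFn w) : ℕ) : ℝ) ^ (-s) =
      ((F (List.ofFn fun i => expo1_emb h (w i)) : ℕ) : ℝ) ^ (-s) := by
    intro w
    have h2 : (List.ofFn fun i => expo1_emb h (w i)) = (List.ofFn w).map (expo1_emb h) := by
      rw [List.map_ofFn]
      rfl
    rw [h2]
    unfold F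
    rw [expo1_mat_map]
  rw [Finset.sum_congr rfl fun w _ => h1 w]
  classical
  rw [← Finset.sum_image (s := Finset.univ)
    (g := fun (w : Fin n → Lt A) (i : Fin n) => expo1_emb h (w i))
    (f := fun w => ((F (List.ofFn w) : ℕ) : ℝ) ^ (-s)) hinj.injOn]
  exact Finset.sum_le_sum_of_subset_of_nonneg (Finset.subset_univ _)
    fun w _ _ => (Real.rpow_pos_of_pos (expo1_F_pos _) _).le

end Pool.Agent.W_f50700_h3
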