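import Pool.Agent.W_f50700_h3.Base1

/-!
Expo3a: continued fractions of rationals as words.
-/

open Matrix

namespace Pool.Agent.W_f50700_h3

theorem expo3a_cons {A a b x y : ℕ} (ha : 0 < a) (haA : a ≤ A) (hb : 0 < b) (hbA : b ≤ A)
    (w : List (Lt A)) (hw1 : F w = x) (hw2 : m21 w = y) :
    ∃ w' : List (Lt A), w' ≠ [] ∧ F w' = a * (b * x + y) + x ∧ m21 w' = b * x + y := by
  refine ⟨(⟨a - 1, by omega⟩, ⟨b - 1, by omega⟩) :: w, by simp, ?_, ?_⟩
  · rw [base1_F_cons]
    simp only
    rw [Nat.sub_add_cancel ha, Nat.sub_add_cancel hb, hw1, hw2]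
    ring
  · rw [base1_m21_cons]
    simp only
    rw [Nat.sub_add_cancel hb, hw1, hw2]

/-- every coprime pair `0 < b < n` is the first column of the matrix of a nonempty word with
partial quotients at most `n` (continued fraction of `n / b` of even length: `n = a b + r`,
`(n, b) = J_a (b, r)`, down to `(a, 1) = J_a (1, 0)`; if the length is odd replace the last
quotient `a ≥ 2` by `a - 1, 1`) -/
theorem exists_word_of_coprime {A n b : ℕ} (hA : n ≤ A) (hb : 0 < b) (hbn : b < n)
    (hc : Nat.Coprime n b) : ∃ w : List (Lt A), w ≠ [] ∧ F w = n ∧ m21 w = b := by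
  induction n using Nat.strong_induction_on generalizing b with
  | _ n ih =>
    by_cases hb1 : b = 1
    · subst hb1
      obtain ⟨w, h1, h2, h3⟩ := expo3a_cons (A := A) (a := n - 1) (b := 1) (x := 1) (y := 0)
        (by omega) (by omega) (by omega) (by omega) [] F_nil m21_nil
      refine ⟨w, h1, ?_, ?_⟩
      · rw [h2]
        omega
      · rw [h3]
    · have hmod : n % b < b := Nat.mod_lt n hb
      have hr0 : 0 < n % b := by
        rcases Nat.eq_zero_or_pos (n % b) with h0 | h0
        · exfalso
          have h1 : b ∣ n := Nat.dvd_of_mod_eq_zero h0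
          have h2 : b ∣ 1 := by
            rw [← hc]
            exact Nat.dvd_gcd h1 dvd_rfl
          exact hb1 (Nat.dvd_one.1 h2)
        · exact h0
      have hcr : Nat.Coprime b (n % b) := by
        have h1 : Nat.gcd (n % b) b = Nat.gcd n b :=
          (Nat.gcd_rec b n).symm.trans (Nat.gcd_comm _ _)
        rw [Nat.coprime_comm]
        exact h1.trans hc
      set r := n % b with hr
      have hn : n = n / b * b + r := (Nat.div_add_mod' n b).symm
      have ha : 0 < n / b := Nat.div_pos hbn.le hb
      have haA : n / b ≤ A := (Nat.div_le_self _ _).trans hA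
      have hb' : 0 < b / r := Nat.div_pos hmod.le hr0
      have hbA' : b / r ≤ A := (Nat.div_le_self _ _).trans (by omega)
      have hbb : b = b / r * r + b % r := (Nat.div_add_mod' b r).symm
      have hy : b % r < r := Nat.mod_lt b hr0
      have hcy : Nat.Coprime r (b % r) := by
        have h1 : Nat.gcd r b = Nat.gcd (b % r) r := Nat.gcd_rec r b
        have h2 : Nat.gcd r b = 1 := (Nat.gcd_comm _ _).trans hcr
        have h3 : Nat.gcd r (b % r) = Nat.gcd (b % r) r := Nat.gcd_comm _ _
        exact h3.trans (h1.symm.trans h2)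
      obtain ⟨w, hw1, hw2⟩ : ∃ w : List (Lt A), F w = r ∧ m21 w = b % r := by
        rcases Nat.eq_zero_or_pos (b % r) with h0 | h0
        · rw [h0] at hcy
          have h1 : r = 1 := by simpa using hcy
          exact ⟨[], by rw [F_nil, h1], by rw [m21_nil, h0]⟩
        · obtain ⟨w, -, h1, h2⟩ := ih r (by omega) (by omega) h0 hy hcy
          exact ⟨w, h1, h2⟩
      obtain ⟨w', h1, h2, h3⟩ := expo3a_cons ha haA hb' hbA' w hw1 hw2
      refine ⟨w', h1, ?_, ?_⟩
      · rw [h2, ← hbb, ← hn]
      · rw [h3, ← hbb]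

end Pool.Agent.W_f50700_h3
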