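import Mathlib

/-!
Expo3b: counting coprime pairs.
-/

namespace Pool.Agent.W_f50700_h3

private lemma expo3b_sq (m : ℕ) (hm : 2 ≤ m) :
    ∑ d ∈ Finset.Icc 2 m, 1 / ((d : ℝ) ^ 2) ≤ 3 / 4 - 1 / (m : ℝ) := by
  induction m, hm using Nat.le_induction with
  | base => norm_num
  | succ m hm ih =>
    rw [← Finset.insert_Icc_right_eq_Icc_add_one (by omega), Finset.sum_insert (by simp)]
    have hm' : (2 : ℝ) ≤ m := by exact_mod_cast hm
    have h1 : 1 / (((m + 1 : ℕ) : ℝ) ^ 2) ≤ 1 / (m : ℝ) - 1 / ((m + 1 : ℕ) : ℝ) := by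
      push_cast
      rw [div_sub_div _ _ (by positivity) (by positivity), div_le_div_iff₀ (by positivity)
        (by positivity)]
      nlinarith
    linarith

private lemma expo3b_harm (m : ℕ) :
    ∑ d ∈ Finset.Icc 2 m, 1 / (d : ℝ) ≤ 2 + (m : ℝ) / 10 := by
  induction m with
  | zero => simp
  | succ m ih =>
    rcases Nat.lt_or_ge m 9 with h | h
    · interval_cases m <;> (simp [Finset.sum_Icc_succ_top]; try norm_num)
    · rw [← Finset.insert_Icc_right_eq_Icc_add_one (by omega), Finset.sum_insert (by simp)]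
      have h1 : 1 / ((m + 1 : ℕ) : ℝ) ≤ 1 / 10 := by
        apply one_div_le_one_div_of_le (by norm_num)
        have : (9 : ℝ) ≤ m := by exact_mod_cast h
        push_cast; linarith
      push_cast at h1 ⊢
      linarith

private lemma expo3b_cardN (m d : ℕ) (hd : 2 ≤ d) :
    (((Finset.Ioc m (2 * m)).filter (fun n => d ∣ n)).card : ℝ) ≤ m / d + 1 := by
  have h0 : 0 < d := by omega
  have h1 : ((Finset.Ioc m (2 * m)).filter (fun n => d ∣ n)).card = 2 * m / d - m / d := by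
    have := Nat.Ioc_filter_dvd_card_eq_div (2 * m) d
    have h2 := Nat.Ioc_filter_dvd_card_eq_div m d
    have h3 : (Finset.Ioc 0 (2 * m)).filter (fun n => d ∣ n) =
        (Finset.Ioc 0 m).filter (fun n => d ∣ n) ∪
          (Finset.Ioc m (2 * m)).filter (fun n => d ∣ n) := by
      ext x
      simp only [Finset.mem_union, Finset.mem_filter, Finset.mem_Ioc]
      constructor
      · rintro ⟨⟨a, b⟩, c⟩
        by_cases hx : x ≤ m
        · exact Or.inl ⟨⟨a, hx⟩, c⟩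
        · exact Or.inr ⟨⟨by omega, b⟩, c⟩
      · rintro (⟨⟨a, b⟩, c⟩ | ⟨⟨a, b⟩, c⟩)
        · exact ⟨⟨a, by omega⟩, c⟩
        · exact ⟨⟨by omega, b⟩, c⟩
    have h4 : Disjoint ((Finset.Ioc 0 m).filter (fun n => d ∣ n))
        ((Finset.Ioc m (2 * m)).filter (fun n => d ∣ n)) := by
      rw [Finset.disjoint_left]
      intro x hx hy
      simp only [Finset.mem_filter, Finset.mem_Ioc] at hx hy
      omega
    rw [h3, Finset.card_union_of_disjoint h4, h2] at this
    omega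
  rw [h1]
  have h5 : ((2 * m / d - m / d : ℕ) : ℝ) ≤ (2 * m / d : ℕ) - (m / d : ℕ) := by
    rw [Nat.cast_sub]
    exact Nat.div_le_div_right (by omega)
  have h6 : ((2 * m / d : ℕ) : ℝ) ≤ ((2 * m : ℕ) : ℝ) / d := Nat.cast_div_le
  have h7 : (m : ℝ) / d < (m / d : ℕ) + 1 := by
    rw [div_lt_iff₀ (by exact_mod_cast h0)]
    have := Nat.lt_div_mul_add (a := m) h0
    have h8 : m < (m / d + 1) * d := by
      calc m < m / d * d + d := this
        _ = (m / d + 1) * d := by ring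
    exact_mod_cast h8
  have h9 : (((2 * m : ℕ) : ℝ)) / d = m / d + m / d := by
    push_cast; ring
  rw [h9] at h6
  linarith

private lemma expo3b_cardK (m d : ℕ) :
    (((Finset.Icc 1 m).filter (fun n => d ∣ n)).card : ℝ) ≤ m / d := by
  have h1 : ((Finset.Icc 1 m).filter (fun n => d ∣ n)).card = m / d := by
    rw [← Nat.Ioc_filter_dvd_card_eq_div m d]
    rfl
  rw [h1]
  exact Nat.cast_div_le

/-- many coprime pairs with `n` in `(m, 2m]` -/
theorem card_coprime_pairs (m : ℕ) (hm : 100 ≤ m) :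
    (m : ℝ) ^ 2 / 10 ≤
      (((Finset.Ioc m (2 * m)) ×ˢ (Finset.Icc 1 m)).filter
        (fun p : ℕ × ℕ => Nat.Coprime p.1 p.2)).card := by
  classical
  set U := (Finset.Ioc m (2 * m)) ×ˢ (Finset.Icc 1 m) with hU
  have hcard : U.card = m * m := by
    rw [hU, Finset.card_product, Nat.card_Ioc, Nat.card_Icc]
    congr 1
    omega
  have hsplit := Finset.card_filter_add_card_filter_not (s := U)
    (fun p : ℕ × ℕ => Nat.Coprime p.1 p.2)
  have hcov : (U.filter (fun p : ℕ × ℕ => ¬ Nat.Coprime p.1 p.2)) ⊆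
      (Finset.Icc 2 m).biUnion (fun d => ((Finset.Ioc m (2 * m)).filter (fun n => d ∣ n)) ×ˢ
        ((Finset.Icc 1 m).filter (fun n => d ∣ n))) := by
    rintro ⟨n, k⟩ hp
    rw [Finset.mem_filter, hU, Finset.mem_product] at hp
    obtain ⟨⟨h1, h2⟩, h3⟩ := hp
    simp only at h1 h2 h3
    rw [Finset.mem_biUnion]
    have hk := Finset.mem_Icc.1 h2
    have hg0 : 0 < Nat.gcd n k := Nat.gcd_pos_of_pos_right n (by omega)
    have hg1 : Nat.gcd n k ≠ 1 := h3
    refine ⟨Nat.gcd n k, ?_, ?_⟩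
    · rw [Finset.mem_Icc]
      exact ⟨by omega, (Nat.le_of_dvd (by omega) (Nat.gcd_dvd_right n k)).trans hk.2⟩
    · rw [Finset.mem_product, Finset.mem_filter, Finset.mem_filter]
      exact ⟨⟨h1, Nat.gcd_dvd_left n k⟩, ⟨h2, Nat.gcd_dvd_right n k⟩⟩
  have hle : ((U.filter (fun p : ℕ × ℕ => ¬ Nat.Coprime p.1 p.2)).card : ℝ) ≤
      ∑ d ∈ Finset.Icc 2 m, ((m : ℝ) / d + 1) * (m / d) := by
    calc ((U.filter (fun p : ℕ × ℕ => ¬ Nat.Coprime p.1 p.2)).card : ℝ)
        ≤ ((∑ d ∈ Finset.Icc 2 m, (((Finset.Ioc m (2 * m)).filter (fun n => d ∣ n)) ×ˢ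
        ((Finset.Icc 1 m).filter (fun n => d ∣ n))).card : ℕ) : ℝ) := by
          exact_mod_cast (Finset.card_le_card hcov).trans Finset.card_biUnion_le
      _ ≤ _ := by
          rw [Nat.cast_sum]
          refine Finset.sum_le_sum fun d hd => ?_
          rw [Finset.card_product, Nat.cast_mul]
          exact mul_le_mul (expo3b_cardN m d (Finset.mem_Icc.1 hd).1) (expo3b_cardK m d)
            (Nat.cast_nonneg _) (by positivity)
  have hsum : ∑ d ∈ Finset.Icc 2 m, ((m : ℝ) / d + 1) * (m / d) =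
      (m : ℝ) ^ 2 * ∑ d ∈ Finset.Icc 2 m, 1 / ((d : ℝ) ^ 2) +
        m * ∑ d ∈ Finset.Icc 2 m, 1 / (d : ℝ) := by
    rw [Finset.mul_sum, Finset.mul_sum, ← Finset.sum_add_distrib]
    refine Finset.sum_congr rfl fun d hd => ?_
    ring
  have hm' : (100 : ℝ) ≤ m := by exact_mod_cast hm
  have h1 := expo3b_sq m (by omega)
  have h2 := expo3b_harm m
  have h3 : (m : ℝ) ^ 2 * ∑ d ∈ Finset.Icc 2 m, 1 / ((d : ℝ) ^ 2) ≤ (m : ℝ) ^ 2 * (3 / 4) := by
    apply mul_le_mul_of_nonneg_left _ (by positivity)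
    have : 0 ≤ 1 / (m : ℝ) := by positivity
    linarith
  have h4 : (m : ℝ) * ∑ d ∈ Finset.Icc 2 m, 1 / (d : ℝ) ≤ m * (2 + (m : ℝ) / 10) :=
    mul_le_mul_of_nonneg_left h2 (by positivity)
  have h5 : ((U.filter (fun p : ℕ × ℕ => Nat.Coprime p.1 p.2)).card : ℝ) +
      ((U.filter (fun p : ℕ × ℕ => ¬ Nat.Coprime p.1 p.2)).card : ℝ) = m * m := by
    rw [← Nat.cast_add, hsplit, hcard, Nat.cast_mul]
  nlinarith

end Pool.Agent.W_f50700_h3
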