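import Pool.Agent.W_f50700_h3.Expo2
import Pool.Agent.W_f50700_h3.Expo3a
import Pool.Agent.W_f50700_h3.Expo3b

/-!
Expo3: the exponent tends to 2.
-/

open Matrix

namespace Pool.Agent.W_f50700_h3



theorem expo3_flatten_inj {A : ℕ} (P : Finset (List (Lt A)))
    (hP : ∀ u ∈ P, ∀ v ∈ P, u <+: v → u = v) (hne : ∀ u ∈ P, u ≠ [])
    (l l' : List (List (Lt A))) (hl : ∀ u ∈ l, u ∈ P) (hl' : ∀ u ∈ l', u ∈ P)
    (h : l.flatten = l'.flatten) : l = l' := by
  induction l generalizing l' with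
  | nil =>
    cases l' with
    | nil => rfl
    | cons u l' =>
      exfalso
      rw [List.flatten_nil, List.flatten_cons] at h
      have h1 := List.append_eq_nil_iff.1 h.symm
      exact hne u (hl' u (by simp)) h1.1
  | cons u l ih =>
    cases l' with
    | nil =>
      exfalso
      rw [List.flatten_nil, List.flatten_cons] at h
      have h1 := List.append_eq_nil_iff.1 h
      exact hne u (hl u (by simp)) h1.1
    | cons u' l' =>
      rw [List.flatten_cons, List.flatten_cons] at h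
      have hu := hl u (by simp)
      have hu' := hl' u' (by simp)
      have h1 : u = u' := by
        rcases List.append_eq_append_iff.1 h with ⟨a, h1, -⟩ | ⟨a, h1, -⟩
        · exact hP u hu u' hu' ⟨a, h1.symm⟩
        · exact (hP u' hu' u hu ⟨a, h1.symm⟩).symm
      subst h1
      have h2 := List.append_cancel_left h
      rw [ih l' (fun x hx => hl x (by simp [hx])) (fun x hx => hl' x (by simp [hx])) h2]

theorem expo3_F_flatten {A : ℕ} {X : ℝ} (hX : 1 ≤ X) (l : List (List (Lt A)))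
    (hl : ∀ u ∈ l, (F u : ℝ) ≤ X) : (F l.flatten : ℝ) ≤ (2 * X) ^ l.length := by
  induction l with
  | nil => simp
  | cons u l ih =>
    rw [List.flatten_cons, List.length_cons, pow_succ]
    have h1 : (F (u ++ l.flatten) : ℝ) ≤ 2 * ((F u : ℝ) * F l.flatten) := by
      exact_mod_cast F_append_le u l.flatten
    have h2 := ih (fun x hx => hl x (by simp [hx]))
    have h3 : (F u : ℝ) * F l.flatten ≤ X * (2 * X) ^ l.length :=
      mul_le_mul (hl u (by simp)) h2 (Nat.cast_nonneg _) (by linarith)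
    calc (F (u ++ l.flatten) : ℝ) ≤ 2 * ((F u : ℝ) * F l.flatten) := h1
      _ ≤ 2 * (X * (2 * X) ^ l.length) := by linarith
      _ = _ := by ring

/-- prefix free families give lower bounds for the exponent: `P` a finite set of nonempty words,
no element of which is a proper prefix of another one, `F ≤ X` on `P`, `(2X)^s ≤ card P`.
Proof: the `card P ^ k` concatenations of `k` elements of `P` are pairwise different (also for
different `k`), and have `F ≤ (2X)^k`; so the sum of `F^(-s)` over them is at least `1` for each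
`k`; use `le_sexp_of_unbounded`. -/
theorem le_sexp_of_prefix_free {A : ℕ} (hA : 1 ≤ A) (P : Finset (List (Lt A))) {X s : ℝ}
    (hX : 1 ≤ X) (hs : 0 ≤ s) (hP : ∀ u ∈ P, ∀ v ∈ P, u <+: v → u = v)
    (hne : ∀ u ∈ P, u ≠ []) (hF : ∀ u ∈ P, (F u : ℝ) ≤ X) (hc : (2 * X) ^ s ≤ (P.card : ℝ)) :
    s ≤ sexp A := by
  classical
  refine le_sexp_of_unbounded hA hs fun B => ?_
  obtain ⟨K, hK⟩ := exists_nat_ge B
  set L : Finset (List (List (Lt A))) := (Finset.range K).biUnion (blockF P) with hL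
  have hLP : ∀ l ∈ L, ∀ u ∈ l, u ∈ P := by
    intro l hl
    obtain ⟨k, -, hk⟩ := Finset.mem_biUnion.1 hl
    exact ((mem_blockF P k l).1 hk).2
  have hinj : Set.InjOn (fun l : List (List (Lt A)) => l.flatten)
      (L : Set (List (List (Lt A)))) := fun l hl l' hl' h =>
    expo3_flatten_inj P hP hne l l' (hLP l (Finset.mem_coe.1 hl)) (hLP l' (Finset.mem_coe.1 hl')) h
  refine ⟨L.image (fun l => l.flatten), ?_⟩
  rw [Finset.sum_image hinj, hL, Finset.sum_biUnion]
  · have h1 : ∀ k ∈ Finset.range K,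
        (1 : ℝ) ≤ ∑ l ∈ blockF P k, ((F l.flatten : ℕ) : ℝ) ^ (-s) := by
      intro k _
      have h2X : (0 : ℝ) < 2 * X := by linarith
      have h2 : ∀ l ∈ blockF P k, ((2 * X) ^ k) ^ (-s) ≤ ((F l.flatten : ℕ) : ℝ) ^ (-s) := by
        intro l hl
        obtain ⟨h3, h4⟩ := (mem_blockF P k l).1 hl
        have h5 := expo3_F_flatten hX l (fun u hu => hF u (h4 u hu))
        rw [h3] at h5
        exact Real.rpow_le_rpow_of_nonpos (expo1_F_pos _) h5 (neg_nonpos.2 hs)
      refine le_trans ?_ (Finset.card_nsmul_le_sum _ _ _ h2)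
      rw [card_blockF, nsmul_eq_mul]
      push_cast
      have h3 : ((2 * X) ^ k) ^ (-s) = ((2 * X) ^ (-s)) ^ k := by
        rw [← Real.rpow_natCast, ← Real.rpow_natCast, ← Real.rpow_mul h2X.le,
          ← Real.rpow_mul h2X.le, mul_comm (k : ℝ) (-s)]
      rw [h3, ← mul_pow]
      refine one_le_pow₀ ?_
      have h4 : (2 * X) ^ s * (2 * X) ^ (-s) = 1 := by
        rw [← Real.rpow_add h2X, add_neg_cancel, Real.rpow_zero]
      rw [← h4]
      exact mul_le_mul_of_nonneg_right hc (Real.rpow_pos_of_pos h2X _).le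
    have h2 := Finset.card_nsmul_le_sum _ _ _ h1
    rw [Finset.card_range, nsmul_eq_mul, mul_one] at h2
    exact hK.trans h2
  · intro k _ k' _ hkk'
    refine Finset.disjoint_left.2 fun l hl hl' => hkk' ?_
    rw [← ((mem_blockF P k l).1 hl).1, ← ((mem_blockF P k' l).1 hl').1]

/-- (E4).  Proof: `P` = the words over the alphabet `Lt (2m)` given by
`exists_word_of_coprime` for the coprime pairs `(n, b)`, `n` in `(m, 2m]`, `b` in `[1, m]`
(`card_coprime_pairs`); `F` at least doubles along proper extensions, so `P` is prefix free;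
`le_sexp_of_prefix_free` with `X = 2m`, `s = log (m^2/10) / log (4m) → 2`; `sexp_mono`. -/
theorem sexp_tendsto (ε : ℝ) (hε : 0 < ε) : ∃ A₀ : ℕ, 2 ≤ A₀ ∧ ∀ A ≥ A₀, 2 - ε ≤ sexp A := by
  classical
  by_cases hε2 : 2 ≤ ε
  · exact ⟨2, le_rfl, fun A _ => by
      have := sexp_nonneg A
      linarith⟩
  rw [not_le] at hε2
  -- choice of `m`
  obtain ⟨m, hm1, hm2⟩ : ∃ m : ℕ, 100 ≤ m ∧ (160 : ℝ) ≤ (m : ℝ) ^ ε := by
    have h1 : Filter.Tendsto (fun m : ℕ => (m : ℝ) ^ ε) Filter.atTop Filter.atTop :=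
      (tendsto_rpow_atTop hε).comp tendsto_natCast_atTop_atTop
    obtain ⟨m, h2, h3⟩ := ((h1.eventually_ge_atTop 160).and
      (Filter.eventually_ge_atTop 100)).exists
    exact ⟨m, h3, h2⟩
  have hm0 : (0 : ℝ) < m := by
    have : 0 < m := by omega
    exact_mod_cast this
  refine ⟨2 * m, by omega, fun A hAm => ?_⟩
  refine le_trans ?_ (sexp_mono (show 1 ≤ 2 * m by omega) hAm)
  set Q := ((Finset.Ioc m (2 * m)) ×ˢ (Finset.Icc 1 m)).filter
        (fun p : ℕ × ℕ => Nat.Coprime p.1 p.2) with hQ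
  have hex : ∀ p : ℕ × ℕ, ∃ w : List (Lt (2 * m)), p ∈ Q → w ≠ [] ∧ F w = p.1 ∧ m21 w = p.2 := by
    intro p
    by_cases hp : p ∈ Q
    · obtain ⟨h1, h2⟩ := Finset.mem_filter.1 hp
      obtain ⟨h3, h4⟩ := Finset.mem_product.1 h1
      rw [Finset.mem_Ioc] at h3
      rw [Finset.mem_Icc] at h4
      obtain ⟨w, hw⟩ := exists_word_of_coprime (A := 2 * m) h3.2 h4.1
        (lt_of_le_of_lt h4.2 h3.1) h2
      exact ⟨w, fun _ => hw⟩
    · exact ⟨[], fun h => absurd h hp⟩
  choose W hW using hex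
  have hcard : (Q.image W).card = Q.card := by
    refine Finset.card_image_of_injOn fun p hp p' hp' h => ?_
    obtain ⟨-, h1, h2⟩ := hW p (Finset.mem_coe.1 hp)
    obtain ⟨-, h3, h4⟩ := hW p' (Finset.mem_coe.1 hp')
    rw [h] at h1 h2
    exact Prod.ext (h1.symm.trans h3) (h2.symm.trans h4)
  have hmem : ∀ w ∈ Q.image W, w ≠ [] ∧ m < F w ∧ F w ≤ 2 * m := by
    intro w hw
    obtain ⟨p, hp, rfl⟩ := Finset.mem_image.1 hw
    obtain ⟨h1, h2, -⟩ := hW p hp
    obtain ⟨h3, -⟩ := Finset.mem_filter.1 hp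
    have h4 := Finset.mem_Ioc.1 (Finset.mem_product.1 h3).1
    rw [h2]
    exact ⟨h1, h4⟩
  refine le_sexp_of_prefix_free (by omega) (Q.image W) (X := 2 * m) ?_ (by linarith) ?_
    (fun u hu => (hmem u hu).1) (fun u hu => ?_) ?_
  · have : (100 : ℝ) ≤ m := by exact_mod_cast hm1
    linarith
  · rintro u hu v hv ⟨a, rfl⟩
    by_contra hne
    have ha : a ≠ [] := by
      rintro rfl
      exact hne (by simp)
    have h1 := (hmem _ hu).2.1
    have h2 := (hmem _ hv).2.2
    have h3 := F_mul_le u a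
    have h4 : 2 ≤ F a := by
      have h5 := two_pow_le_F a
      have h6 : 2 ^ 1 ≤ 2 ^ a.length :=
        Nat.pow_le_pow_right (by norm_num) (List.length_pos_iff.2 ha)
      omega
    have h5 : F u * 2 ≤ F u * F a := Nat.mul_le_mul_left _ h4
    omega
  · exact_mod_cast (hmem u hu).2.2
  · rw [hcard]
    have h1 := card_coprime_pairs m hm1
    refine le_trans ?_ h1
    have h2 : (2 * (2 * (m : ℝ))) ^ (2 - ε) = 4 ^ (2 - ε) * ((m : ℝ) ^ 2 / (m : ℝ) ^ ε) := by
      rw [show (2 * (2 * (m : ℝ))) = 4 * m by ring, Real.mul_rpow (by norm_num) hm0.le,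
        Real.rpow_sub hm0, Real.rpow_two]
    rw [h2]
    have h3 : (4 : ℝ) ^ (2 - ε) ≤ 16 := by
      calc (4 : ℝ) ^ (2 - ε) ≤ (4 : ℝ) ^ (2 : ℝ) :=
            Real.rpow_le_rpow_of_exponent_le (by norm_num) (by linarith)
        _ = 16 := by
            rw [Real.rpow_two]
            norm_num
    have h4 : (m : ℝ) ^ 2 / (m : ℝ) ^ ε ≤ (m : ℝ) ^ 2 / 160 :=
      div_le_div_of_nonneg_left (by positivity) (by norm_num) hm2
    calc (4 : ℝ) ^ (2 - ε) * ((m : ℝ) ^ 2 / (m : ℝ) ^ ε) ≤ 16 * ((m : ℝ) ^ 2 / 160) :=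
          mul_le_mul h3 h4 (by positivity) (by norm_num)
      _ = _ := by ring

end Pool.Agent.W_f50700_h3
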