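import Pool.Agent.W_f50700_h3.CirD
import Pool.Agent.W_f50700_h3.Expo3
import Pool.Agent.W_f50700_h13.MbA3

/-!
Final: the theorem for all sufficiently large alphabets.
-/

open MeasureTheory Filter Topology

namespace Pool.Agent.W_f50700_h3

theorem wtFacts : WtFacts 2 where
  pos := by norm_num
  bound := by
    intro n j hn
    rw [abs_of_nonneg (W_f50700_h13.wt2_nonneg hn j)]
    exact W_f50700_h13.wt2_le_one hn j
  zero := by
    intro n j hn hj
    refine W_f50700_h13.wt2_eq_zero hn (le_trans hj (le_abs_self j))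
  lip := by
    intro n j k hn
    have h := W_f50700_h13.wt2_lip hn j k
    have hn' : (0 : ℝ) < n := by exact_mod_cast hn
    have e1 : |(j : ℝ) - k| / n = 2 * |(j : ℝ) - k| / (2 * n) := by
      field_simp
    rw [e1] at h
    exact h
  zero_ge := fun n hn => W_f50700_h13.wt2_zero_ge hn

theorem goal : Public.Goal := by
  obtain ⟨ε, hε, hm⟩ := W_f50700_h13.minor_arcs (1 / 30000) (by norm_num)
  obtain ⟨A₀, hA₀, h0⟩ := sexp_tendsto (min ε (1 / 50)) (lt_min hε (by norm_num))
  refine ⟨A₀, fun A hA => ?_⟩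
  have h2 : 2 ≤ A := le_trans hA₀ hA
  have h3 := h0 A hA
  have h4 : min ε (1 / 50) ≤ ε := min_le_left _ _
  have h5 : min ε (1 / 50 : ℝ) ≤ 1 / 50 := min_le_right _ _
  obtain ⟨C, c, hC, hc, h6⟩ := hm A h2 (by linarith)
  refine goal_of h2 (by linarith) wtFacts ⟨C, c, hC, hc, fun n hn => ?_⟩
  exact h6 n hn

end Pool.Agent.W_f50700_h3
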