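import Pool.Agent.W_f50700_h3.Defs

/-!
Samp: sampling inequality and two estimates for separated points (row 436, Lemmas 1, 2, 2').
-/

namespace Pool.Agent.W_f50700_h3

open MeasureTheory in
theorem samp_half {ι : Type*} (s : Finset ι) (x c : ι → ℝ) {Δ l : ℝ} (hΔ : 0 < Δ)
    (hl : 0 ≤ l) (hx : ∀ i ∈ s, x i ∈ Set.Icc (0 : ℝ) 1)
    (hc0 : ∀ i ∈ s, 0 ≤ c i) (hc1 : ∀ i ∈ s, c i + Δ / 2 ≤ 1)
    (hcx : ∀ i ∈ s, ∀ u ∈ Set.Ioc (c i) (c i + Δ / 2), |x i - u| ≤ Δ / 2)
    (hsep : ∀ i ∈ s, ∀ j ∈ s, i ≠ j → Δ / 2 ≤ |c i - c j|) (N : ℝ → ℝ)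
    (hN : ∀ u ∈ Set.Icc (0 : ℝ) 1, ∀ v ∈ Set.Icc (0 : ℝ) 1, |N u - N v| ≤ l * |u - v|) :
    ∑ i ∈ s, N (x i) ^ 2 ≤
      (4 / Δ) * (∫ u in (0 : ℝ)..1, N u ^ 2) + l ^ 2 * Δ ^ 2 / 2 * s.card := by
  have hcont : ContinuousOn N (Set.Icc 0 1) := by
    have : LipschitzOnWith l.toNNReal N (Set.Icc 0 1) := by
      refine LipschitzOnWith.of_dist_le_mul fun u hu v hv => ?_
      rw [Real.dist_eq, Real.dist_eq, Real.coe_toNNReal l hl]
      exact hN u hu v hv
    exact this.continuousOn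
  have hcont2 : ContinuousOn (fun u => N u ^ 2) (Set.Icc 0 1) := hcont.pow 2
  have hint : IntegrableOn (fun u => N u ^ 2) (Set.Icc 0 1) :=
    hcont2.integrableOn_compact isCompact_Icc
  have hsub : ∀ i ∈ s, Set.Ioc (c i) (c i + Δ / 2) ⊆ Set.Icc (0 : ℝ) 1 := by
    intro i hi u hu
    exact ⟨(hc0 i hi).trans hu.1.le, hu.2.trans (hc1 i hi)⟩
  have hsub' : ∀ i ∈ s, Set.Ioc (c i) (c i + Δ / 2) ⊆ Set.Ioc (0 : ℝ) 1 := by
    intro i hi u hu
    exact ⟨(hc0 i hi).trans_lt hu.1, hu.2.trans (hc1 i hi)⟩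
  have hone : ∀ i ∈ s, N (x i) ^ 2 ≤
      (4 / Δ) * (∫ u in Set.Ioc (c i) (c i + Δ / 2), N u ^ 2) + l ^ 2 * Δ ^ 2 / 2 := by
    intro i hi
    have hinti : IntegrableOn (fun u => N u ^ 2) (Set.Ioc (c i) (c i + Δ / 2)) :=
      hint.mono_set (hsub i hi)
    have hvol : (volume.restrict (Set.Ioc (c i) (c i + Δ / 2))).real Set.univ = Δ / 2 := by
      rw [measureReal_restrict_apply_univ, Real.volume_real_Ioc_of_le (by linarith)]
      ring
    have h1 : ∫ u in Set.Ioc (c i) (c i + Δ / 2), N (x i) ^ 2 ≤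
        ∫ u in Set.Ioc (c i) (c i + Δ / 2), (2 * N u ^ 2 + l ^ 2 * Δ ^ 2 / 2) := by
      refine setIntegral_mono_on (integrableOn_const (by simp))
        ((hinti.const_mul 2).add (integrableOn_const (by simp))) measurableSet_Ioc ?_
      intro u hu
      have h2 := hN (x i) (hx i hi) u (hsub i hi hu)
      have h3 := hcx i hi u hu
      have h4 : |N (x i) - N u| ≤ l * (Δ / 2) := h2.trans (mul_le_mul_of_nonneg_left h3 hl)
      have h5 : (N (x i) - N u) ^ 2 ≤ (l * (Δ / 2)) ^ 2 := by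
        rw [← sq_abs (N (x i) - N u)]
        exact pow_le_pow_left₀ (abs_nonneg _) h4 2
      nlinarith [sq_nonneg (N (x i) - 2 * N u), h5]
    rw [integral_const, hvol, integral_add (hinti.const_mul 2) (integrableOn_const (by simp)),
      integral_const, hvol, integral_const_mul, smul_eq_mul, smul_eq_mul] at h1
    have h6 : N (x i) ^ 2 = (2 / Δ) * (Δ / 2 * N (x i) ^ 2) := by field_simp
    rw [h6]
    calc (2 / Δ) * (Δ / 2 * N (x i) ^ 2)
        ≤ (2 / Δ) * (2 * (∫ u in Set.Ioc (c i) (c i + Δ / 2), N u ^ 2)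
          + Δ / 2 * (l ^ 2 * Δ ^ 2 / 2)) := mul_le_mul_of_nonneg_left h1 (by positivity)
      _ = _ := by field_simp; ring
  have hdisj : ∀ i ∈ s, ∀ j ∈ s, i ≠ j →
      Disjoint (Set.Ioc (c i) (c i + Δ / 2)) (Set.Ioc (c j) (c j + Δ / 2)) := by
    intro i hi j hj hij
    rw [Set.disjoint_left]
    intro u hu hv
    have h1 := hsep i hi j hj hij
    rcases le_abs.1 h1 with h | h
    · linarith [hu.1, hv.2]
    · linarith [hu.2, hv.1]
  have hsum : ∑ i ∈ s, ∫ u in Set.Ioc (c i) (c i + Δ / 2), N u ^ 2 ≤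
      ∫ u in (0 : ℝ)..1, N u ^ 2 := by
    rw [intervalIntegral.integral_of_le zero_le_one]
    have h1 : ∫ u in (⋃ i ∈ s, Set.Ioc (c i) (c i + Δ / 2)), N u ^ 2
        = ∑ i ∈ s, ∫ u in Set.Ioc (c i) (c i + Δ / 2), N u ^ 2 := by
      refine integral_biUnion_finset s (fun i _ => measurableSet_Ioc) ?_ ?_
      · intro i hi j hj hij
        exact hdisj i hi j hj hij
      · intro i hi
        exact hint.mono_set (hsub i hi)
    rw [← h1]
    refine setIntegral_mono_set (hint.mono_set Set.Ioc_subset_Icc_self)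
      (Filter.Eventually.of_forall fun u => sq_nonneg _) ?_
    refine Filter.Eventually.of_forall ?_
    exact Set.iUnion₂_subset hsub'
  calc ∑ i ∈ s, N (x i) ^ 2
      ≤ ∑ i ∈ s, ((4 / Δ) * (∫ u in Set.Ioc (c i) (c i + Δ / 2), N u ^ 2)
        + l ^ 2 * Δ ^ 2 / 2) := Finset.sum_le_sum hone
    _ = (4 / Δ) * (∑ i ∈ s, ∫ u in Set.Ioc (c i) (c i + Δ / 2), N u ^ 2)
        + l ^ 2 * Δ ^ 2 / 2 * s.card := by
        rw [Finset.sum_add_distrib, Finset.mul_sum, Finset.sum_const, nsmul_eq_mul]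
        ring
    _ ≤ _ := by
        have : (0 : ℝ) ≤ 4 / Δ := by positivity
        nlinarith [mul_le_mul_of_nonneg_left hsum this]

/-- Lemma 1.  `x i` pairwise `Δ`-separated points of `[0,1]`, `N` an `l`-Lipschitz real function.
Proof: `I_i = [x_i, x_i + Δ/2]` if `x_i ≤ 1/2`, else `[x_i - Δ/2, x_i]`; on `I_i`:
`N(x_i)^2 ≤ 2 N(u)^2 + 2 (l Δ / 2)^2`; average; the right intervals are pairwise disjoint,
the left ones too. -/
theorem sampling {ι : Type*} (s : Finset ι) (x : ι → ℝ) {Δ l : ℝ} (hΔ : 0 < Δ) (hΔ1 : Δ ≤ 1)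
    (hl : 0 ≤ l) (hx : ∀ i ∈ s, x i ∈ Set.Icc (0 : ℝ) 1)
    (hsep : ∀ i ∈ s, ∀ j ∈ s, i ≠ j → Δ ≤ |x i - x j|) (N : ℝ → ℝ)
    (hN : ∀ u ∈ Set.Icc (0 : ℝ) 1, ∀ v ∈ Set.Icc (0 : ℝ) 1, |N u - N v| ≤ l * |u - v|) :
    ∑ i ∈ s, N (x i) ^ 2 ≤ (8 / Δ) * (∫ u in (0 : ℝ)..1, N u ^ 2) + l ^ 2 * Δ ^ 2 * s.card := by
  classical
  have h1 := samp_half (s.filter fun i => x i ≤ 1 / 2) x x hΔ hl
    (fun i hi => hx i (Finset.mem_filter.1 hi).1)
    (fun i hi => (hx i (Finset.mem_filter.1 hi).1).1)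
    (fun i hi => by have := (Finset.mem_filter.1 hi).2; linarith)
    (fun i hi u hu => by
      rw [abs_le]
      constructor <;> linarith [hu.1, hu.2])
    (fun i hi j hj hij => by
      have := hsep i (Finset.mem_filter.1 hi).1 j (Finset.mem_filter.1 hj).1 hij
      linarith) N hN
  have h2 := samp_half (s.filter fun i => ¬ x i ≤ 1 / 2) x (fun i => x i - Δ / 2) hΔ hl
    (fun i hi => hx i (Finset.mem_filter.1 hi).1)
    (fun i hi => by have := (Finset.mem_filter.1 hi).2; linarith)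
    (fun i hi => by have := (hx i (Finset.mem_filter.1 hi).1).2; linarith)
    (fun i hi u hu => by
      have := hu.1
      have := hu.2
      rw [abs_le]
      constructor <;> linarith)
    (fun i hi j hj hij => by
      have := hsep i (Finset.mem_filter.1 hi).1 j (Finset.mem_filter.1 hj).1 hij
      have e : x i - Δ / 2 - (x j - Δ / 2) = x i - x j := by ring
      rw [e]
      linarith) N hN
  have hcard : (s.card : ℝ) = ((s.filter fun i => x i ≤ 1 / 2).card : ℝ)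
      + ((s.filter fun i => ¬ x i ≤ 1 / 2).card : ℝ) := by
    rw [← Nat.cast_add, Finset.card_filter_add_card_filter_not]
  rw [← Finset.sum_filter_add_sum_filter_not s fun i => x i ≤ 1 / 2, hcard]
  have h3 : (0 : ℝ) ≤ l ^ 2 * Δ ^ 2 / 2 * ((s.filter fun i => x i ≤ 1 / 2).card : ℝ) := by
    positivity
  have h4 : (0 : ℝ) ≤ l ^ 2 * Δ ^ 2 / 2 * ((s.filter fun i => ¬ x i ≤ 1 / 2).card : ℝ) := by
    positivity
  have h5 : (8 / Δ) * (∫ u in (0 : ℝ)..1, N u ^ 2)
      = (4 / Δ) * (∫ u in (0 : ℝ)..1, N u ^ 2) + (4 / Δ) * (∫ u in (0 : ℝ)..1, N u ^ 2) := by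
    ring
  rw [h5]
  linarith

/-- Lemma 2: oscillatory integral.  Proof: with `E(x)` the integrand, `z = b/a`, `z' = b'/a'`,
`G(x) = (1+z x)(1+z' x)/(i τ (z - z')) E(x)` satisfies
`G' = E + (z + z' + 2 z z' x)/(i τ (z - z')) E`. -/
theorem osc_integral {a b a' b' τ : ℝ} (ha : 0 < a) (ha' : 0 < a') (hb : 0 ≤ b) (hba : b ≤ a)
    (hb' : 0 ≤ b') (hba' : b' ≤ a') (hτ : τ ≠ 0) (hne : b / a ≠ b' / a') :
    ‖∫ x in (0 : ℝ)..1, Complex.exp
      (((τ * (Real.log (a + b * x) - Real.log (a' + b' * x)) : ℝ) : ℂ) * Complex.I)‖ ≤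
      9 / (|τ| * |b / a - b' / a'|) := by
  set z := b / a with hz
  set z' := b' / a' with hz'
  have hz0 : 0 ≤ z := by positivity
  have hz1 : z ≤ 1 := (div_le_one ha).2 hba
  have hz0' : 0 ≤ z' := by positivity
  have hz1' : z' ≤ 1 := (div_le_one ha').2 hba'
  have hd : z - z' ≠ 0 := sub_ne_zero.2 hne
  set φ : ℝ → ℝ := fun x => τ * (Real.log (a + b * x) - Real.log (a' + b' * x)) with hφ
  set Ef : ℝ → ℂ := fun x => Complex.exp ((φ x : ℂ) * Complex.I) with hEf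
  have hEn : ∀ x, ‖Ef x‖ = 1 := fun x => Complex.norm_exp_ofReal_mul_I _
  set k : ℂ := Complex.I * (τ : ℂ) * ((z - z' : ℝ) : ℂ) with hk
  have hk0 : k ≠ 0 := by
    rw [hk]
    exact mul_ne_zero (mul_ne_zero Complex.I_ne_zero (by exact_mod_cast hτ)) (by exact_mod_cast hd)
  have hkn : ‖k‖ = |τ| * |z - z'| := by
    rw [hk, norm_mul, norm_mul, Complex.norm_I, Complex.norm_real, Complex.norm_real, one_mul,
      Real.norm_eq_abs, Real.norm_eq_abs]
  have hkpos : 0 < |τ| * |z - z'| := mul_pos (abs_pos.2 hτ) (abs_pos.2 hd)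
  have hpos : ∀ x ∈ Set.Icc (0 : ℝ) 1, 0 < a + b * x := fun x hx => by
    have := mul_nonneg hb hx.1; linarith
  have hpos' : ∀ x ∈ Set.Icc (0 : ℝ) 1, 0 < a' + b' * x := fun x hx => by
    have := mul_nonneg hb' hx.1; linarith
  have hφd : ∀ x ∈ Set.Icc (0 : ℝ) 1,
      HasDerivAt φ (τ * ((z - z') / ((1 + z * x) * (1 + z' * x)))) x := by
    intro x hx
    have h1 : HasDerivAt (fun x : ℝ => a + b * x) b x := by
      simpa using ((hasDerivAt_id x).const_mul b).const_add a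
    have h2 : HasDerivAt (fun x : ℝ => a' + b' * x) b' x := by
      simpa using ((hasDerivAt_id x).const_mul b').const_add a'
    have h3 := ((h1.log (hpos x hx).ne').sub (h2.log (hpos' x hx).ne')).const_mul τ
    refine h3.congr_deriv ?_
    have e1 : a + b * x = a * (1 + z * x) := by rw [hz]; field_simp
    have e2 : a' + b' * x = a' * (1 + z' * x) := by rw [hz']; field_simp
    have e3 : b = a * z := by rw [hz]; field_simp
    have e4 : b' = a' * z' := by rw [hz']; field_simp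
    have p1 : (1 + z * x) ≠ 0 := by have := mul_nonneg hz0 hx.1; positivity
    have p2 : (1 + z' * x) ≠ 0 := by have := mul_nonneg hz0' hx.1; positivity
    rw [e1, e2]
    rw [show b / (a * (1 + z * x)) = z / (1 + z * x) by rw [e3]; field_simp,
      show b' / (a' * (1 + z' * x)) = z' / (1 + z' * x) by rw [e4]; field_simp]
    rw [div_sub_div _ _ p1 p2]
    congr 2
    ring
  set G : ℝ → ℂ := fun x => (((1 + z * x) * (1 + z' * x) : ℝ) : ℂ) / k * Ef x with hG
  set H : ℝ → ℂ := fun x => ((z + z' + 2 * z * z' * x : ℝ) : ℂ) / k * Ef x with hH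
  have hEd : ∀ x ∈ Set.Icc (0 : ℝ) 1, HasDerivAt Ef
      (Ef x * (((τ * ((z - z') / ((1 + z * x) * (1 + z' * x))) : ℝ) : ℂ) * Complex.I)) x := by
    intro x hx
    have h1 := ((hφd x hx).ofReal_comp.mul_const Complex.I).cexp
    exact h1
  have hGd : ∀ x ∈ Set.Icc (0 : ℝ) 1, HasDerivAt G (Ef x + H x) x := by
    intro x hx
    have h1 : HasDerivAt (fun x : ℝ => (1 + z * x) * (1 + z' * x))
        (z + z' + 2 * z * z' * x) x := by
      have h2 : HasDerivAt (fun x : ℝ => 1 + z * x) z x := by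
        simpa using ((hasDerivAt_id x).const_mul z).const_add 1
      have h3 : HasDerivAt (fun x : ℝ => 1 + z' * x) z' x := by
        simpa using ((hasDerivAt_id x).const_mul z').const_add 1
      refine (h2.mul h3).congr_deriv ?_
      ring
    have h4 := ((h1.ofReal_comp).div_const k).mul (hEd x hx)
    refine h4.congr_deriv ?_
    have p1 : (1 + z * x) ≠ 0 := by have := mul_nonneg hz0 hx.1; positivity
    have p2 : (1 + z' * x) ≠ 0 := by have := mul_nonneg hz0' hx.1; positivity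
    have p1' : (1 + (z : ℂ) * x) ≠ 0 := by exact_mod_cast p1
    have p2' : (1 + (z' : ℂ) * x) ≠ 0 := by exact_mod_cast p2
    have hkk : k = Complex.I * (τ : ℂ) * ((z : ℂ) - z') := by rw [hk]; push_cast; ring
    have e5 : (((1 + z * x) * (1 + z' * x) : ℝ) : ℂ) / k *
        (Ef x * (((τ * ((z - z') / ((1 + z * x) * (1 + z' * x))) : ℝ) : ℂ) * Complex.I))
        = Ef x := by
      have : (((1 + z * x) * (1 + z' * x) : ℝ) : ℂ) / k *
        (Ef x * (((τ * ((z - z') / ((1 + z * x) * (1 + z' * x))) : ℝ) : ℂ) * Complex.I))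
        = Ef x * ((Complex.I * (τ : ℂ) * ((z : ℂ) - z')) / k) *
          (((1 + z * x) * (1 + z' * x)) / ((1 + z * x) * (1 + z' * x))) := by
        push_cast; ring
      rw [this, ← hkk, div_self hk0, div_self (mul_ne_zero p1' p2'), mul_one, mul_one]
    rw [e5, add_comm]
  have hEcont : ContinuousOn Ef (Set.Icc 0 1) := fun x hx =>
    (hEd x hx).continuousAt.continuousWithinAt
  have hHcont : ContinuousOn H (Set.Icc 0 1) := by
    refine ContinuousOn.mul (Continuous.continuousOn ?_) hEcont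
    fun_prop
  have hu : Set.uIcc (0 : ℝ) 1 = Set.Icc 0 1 := Set.uIcc_of_le zero_le_one
  have hEi : IntervalIntegrable Ef MeasureTheory.volume 0 1 :=
    (hu.symm ▸ hEcont).intervalIntegrable
  have hHi : IntervalIntegrable H MeasureTheory.volume 0 1 :=
    (hu.symm ▸ hHcont).intervalIntegrable
  have hftc : ∫ x in (0 : ℝ)..1, (Ef x + H x) = G 1 - G 0 := by
    refine intervalIntegral.integral_eq_sub_of_hasDerivAt ?_ (hEi.add hHi)
    intro x hx
    rw [hu] at hx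
    exact hGd x hx
  rw [intervalIntegral.integral_add hEi hHi] at hftc
  have hmain : ∫ x in (0 : ℝ)..1, Ef x = G 1 - G 0 - ∫ x in (0 : ℝ)..1, H x := by
    rw [← hftc]; ring
  have hG1 : ‖G 1‖ ≤ 4 / (|τ| * |z - z'|) := by
    rw [hG]
    simp only [norm_mul, norm_div, hEn, mul_one, hkn, Complex.norm_real, Real.norm_eq_abs]
    rw [abs_of_nonneg (by positivity), abs_of_nonneg (by positivity)]
    gcongr
    nlinarith [mul_le_one₀ hz1 hz0' hz1']
  have hG0 : ‖G 0‖ ≤ 1 / (|τ| * |z - z'|) := by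
    rw [hG]
    simp only [norm_mul, norm_div, hEn, mul_one, hkn, Complex.norm_real, Real.norm_eq_abs,
      mul_zero, add_zero, abs_one]
    exact le_refl _
  have hHb : ‖∫ x in (0 : ℝ)..1, H x‖ ≤ 4 / (|τ| * |z - z'|) := by
    have := intervalIntegral.norm_integral_le_of_norm_le_const (a := (0 : ℝ)) (b := 1) (f := H)
      (C := 4 / (|τ| * |z - z'|)) ?_
    · simpa using this
    · intro x hx
      rw [Set.uIoc_of_le zero_le_one] at hx
      have hx0 := hx.1.le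
      have hx1 := hx.2
      rw [hH]
      simp only [norm_mul, norm_div, hEn, mul_one, hkn, Complex.norm_real, Real.norm_eq_abs]
      rw [abs_of_nonneg (by positivity)]
      gcongr
      have h1 : z * z' ≤ 1 := mul_le_one₀ hz1 hz0' hz1'
      have h2 : z * z' * x ≤ 1 := mul_le_one₀ h1 hx0 hx1
      nlinarith
  calc ‖∫ x in (0 : ℝ)..1, Ef x‖ = ‖G 1 - G 0 - ∫ x in (0 : ℝ)..1, H x‖ := by rw [hmain]
    _ ≤ ‖G 1‖ + ‖G 0‖ + ‖∫ x in (0 : ℝ)..1, H x‖ := by
        refine (norm_sub_le _ _).trans ?_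
        gcongr
        exact norm_sub_le _ _
    _ ≤ 4 / (|τ| * |z - z'|) + 1 / (|τ| * |z - z'|) + 4 / (|τ| * |z - z'|) := by gcongr
    _ = 9 / (|τ| * |z - z'|) := by ring

theorem samp_side {ι : Type*} [DecidableEq ι] (s : Finset ι) (d : ι → ℝ) {Δ : ℝ} (hΔ : 0 < Δ)
    (hΔ1 : Δ ≤ 1) (hd : ∀ i ∈ s, Δ ≤ d i) (hd1 : ∀ i ∈ s, d i ≤ 1)
    (hsep : ∀ i ∈ s, ∀ j ∈ s, i ≠ j → Δ ≤ |d i - d j|) :
    ∑ j ∈ s, 1 / d j ≤ (1 / Δ) * (1 + Real.log (1 / Δ)) := by
  set k : ι → ℕ := fun j => ⌊d j / Δ⌋₊ with hk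
  have hk1 : ∀ j ∈ s, 1 ≤ k j := fun j hj => by
    rw [hk]
    exact Nat.le_floor (by rw [Nat.cast_one, le_div_iff₀ hΔ, one_mul]; exact hd j hj)
  have hk2 : ∀ j ∈ s, k j ≤ ⌊1 / Δ⌋₊ := fun j hj =>
    Nat.floor_le_floor (by gcongr; exact hd1 j hj)
  have hinj : Set.InjOn k s := by
    intro i hi j hj hij
    by_contra hne
    have h1 := hsep i hi j hj hne
    have hdi : 0 ≤ d i / Δ := div_nonneg (hΔ.le.trans (hd i hi)) hΔ.le
    have hdj : 0 ≤ d j / Δ := div_nonneg (hΔ.le.trans (hd j hj)) hΔ.le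
    have a1 := Nat.floor_le hdi
    have a2 := Nat.lt_floor_add_one (d i / Δ)
    have b1 := Nat.floor_le hdj
    have b2 := Nat.lt_floor_add_one (d j / Δ)
    have hij' : ⌊d i / Δ⌋₊ = ⌊d j / Δ⌋₊ := hij
    rw [hij'] at a1 a2
    have h2 : |d i / Δ - d j / Δ| < 1 := by
      rw [abs_lt]; constructor <;> linarith
    rw [← sub_div, abs_div, abs_of_pos hΔ, div_lt_one hΔ] at h2
    linarith
  calc ∑ j ∈ s, 1 / d j ≤ ∑ j ∈ s, (1 / Δ) * (1 / (k j : ℝ)) := by
        refine Finset.sum_le_sum fun j hj => ?_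
        have hkj : (1 : ℝ) ≤ k j := by exact_mod_cast hk1 j hj
        have hdj : 0 ≤ d j / Δ := div_nonneg (hΔ.le.trans (hd j hj)) hΔ.le
        have h1 : (k j : ℝ) * Δ ≤ d j := by
          have := Nat.floor_le hdj
          rwa [le_div_iff₀ hΔ] at this
        rw [show (1 / Δ) * (1 / (k j : ℝ)) = 1 / ((k j : ℝ) * Δ) by field_simp]
        exact one_div_le_one_div_of_le (by positivity) h1
    _ = (1 / Δ) * ∑ m ∈ s.image k, 1 / (m : ℝ) := by
        rw [Finset.sum_image hinj, Finset.mul_sum]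
    _ ≤ (1 / Δ) * ∑ m ∈ Finset.Icc 1 ⌊1 / Δ⌋₊, 1 / (m : ℝ) := by
        gcongr
        · intro m hm
          obtain ⟨j, hj, rfl⟩ := Finset.mem_image.1 hm
          exact Finset.mem_Icc.2 ⟨hk1 j hj, hk2 j hj⟩
    _ ≤ (1 / Δ) * (1 + Real.log (1 / Δ)) := by
        have h1 := harmonic_floor_le_one_add_log (1 / Δ) (by rw [le_div_iff₀ hΔ]; linarith)
        have h2 : ((harmonic ⌊1 / Δ⌋₊ : ℚ) : ℝ) = ∑ m ∈ Finset.Icc 1 ⌊1 / Δ⌋₊, 1 / (m : ℝ) := by
          rw [harmonic_eq_sum_Icc]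
          push_cast
          exact Finset.sum_congr rfl fun m _ => by rw [one_div]
        rw [← h2]
        gcongr

/-- Lemma 2': sum of inverse distances of separated points.  Proof: `j ↦ ⌊|x_i - x_j| / Δ⌋` is at
most two-to-one, with values in `[1, 1/Δ]`. -/
theorem sum_inv_dist {ι : Type*} [DecidableEq ι] (s : Finset ι) (x : ι → ℝ) {Δ : ℝ} (hΔ : 0 < Δ)
    (hΔ1 : Δ ≤ 1) (hx : ∀ i ∈ s, x i ∈ Set.Icc (0 : ℝ) 1)
    (hsep : ∀ i ∈ s, ∀ j ∈ s, i ≠ j → Δ ≤ |x i - x j|) {i : ι} (hi : i ∈ s) :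
    ∑ j ∈ s.erase i, 1 / |x i - x j| ≤ (2 / Δ) * (1 + Real.log (1 / Δ)) := by
  have hmem : ∀ j ∈ s.erase i, j ∈ s ∧ j ≠ i := fun j hj =>
    ⟨Finset.mem_of_mem_erase hj, Finset.ne_of_mem_erase hj⟩
  have h1 := samp_side ((s.erase i).filter fun j => x j ≤ x i) (fun j => |x i - x j|) hΔ hΔ1
    (fun j hj => by
      obtain ⟨hj1, hj2⟩ := hmem j (Finset.mem_filter.1 hj).1
      exact hsep i hi j hj1 (Ne.symm hj2))
    (fun j hj => by
      obtain ⟨hj1, -⟩ := hmem j (Finset.mem_filter.1 hj).1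
      have a := hx i hi
      have b := hx j hj1
      rw [abs_le]
      constructor <;> linarith [a.1, a.2, b.1, b.2])
    (fun j hj m hm hjm => by
      obtain ⟨hj1, -⟩ := hmem j (Finset.mem_filter.1 hj).1
      obtain ⟨hm1, -⟩ := hmem m (Finset.mem_filter.1 hm).1
      have a := (Finset.mem_filter.1 hj).2
      have b := (Finset.mem_filter.1 hm).2
      rw [abs_of_nonneg (sub_nonneg.2 a), abs_of_nonneg (sub_nonneg.2 b)]
      have := hsep m hm1 j hj1 (Ne.symm hjm)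
      rwa [show x i - x j - (x i - x m) = x m - x j by ring])
  have h2 := samp_side ((s.erase i).filter fun j => ¬ x j ≤ x i) (fun j => |x i - x j|) hΔ hΔ1
    (fun j hj => by
      obtain ⟨hj1, hj2⟩ := hmem j (Finset.mem_filter.1 hj).1
      exact hsep i hi j hj1 (Ne.symm hj2))
    (fun j hj => by
      obtain ⟨hj1, -⟩ := hmem j (Finset.mem_filter.1 hj).1
      have a := hx i hi
      have b := hx j hj1
      rw [abs_le]
      constructor <;> linarith [a.1, a.2, b.1, b.2])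
    (fun j hj m hm hjm => by
      obtain ⟨hj1, -⟩ := hmem j (Finset.mem_filter.1 hj).1
      obtain ⟨hm1, -⟩ := hmem m (Finset.mem_filter.1 hm).1
      have a := (Finset.mem_filter.1 hj).2
      have b := (Finset.mem_filter.1 hm).2
      rw [abs_of_neg (sub_neg.2 (not_le.1 a)), abs_of_neg (sub_neg.2 (not_le.1 b))]
      have := hsep j hj1 m hm1 hjm
      rwa [show -(x i - x j) - -(x i - x m) = x j - x m by ring])
  rw [← Finset.sum_filter_add_sum_filter_not (s.erase i) fun j => x j ≤ x i]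
  have e : (2 / Δ) * (1 + Real.log (1 / Δ))
      = (1 / Δ) * (1 + Real.log (1 / Δ)) + (1 / Δ) * (1 + Real.log (1 / Δ)) := by ring
  rw [e]
  exact add_le_add h1 h2

/-- expansion of the mean square of an oscillating sum of vectors, `c M x = exp(i τ log(a + b x))`;
bound of the off-diagonal terms by Lemma 2, of the diagonal and all terms by 1; row sums
`K`: for all `i`: `∑_j min 1 (9/(|τ| |z i - z j|)) ≤ K` (with the convention `1` for `j = i`). -/
theorem osc_mean_square {ι : Type*} [DecidableEq ι] {E : Type*} [NormedAddCommGroup E]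
    [InnerProductSpace ℂ E] (s : Finset ι) (a b : ι → ℝ) (v : ι → E) {τ K : ℝ} (hτ : τ ≠ 0)
    (ha : ∀ i ∈ s, 0 < a i) (hb : ∀ i ∈ s, 0 ≤ b i) (hba : ∀ i ∈ s, b i ≤ a i)
    (hne : ∀ i ∈ s, ∀ j ∈ s, i ≠ j → b i / a i ≠ b j / a j)
    (hK : ∀ i ∈ s, 1 + ∑ j ∈ s.erase i, 9 / (|τ| * |b i / a i - b j / a j|) ≤ K) :
    ∫ x in (0 : ℝ)..1, ‖∑ i ∈ s, Complex.exp (((τ * Real.log (a i + b i * x) : ℝ) : ℂ) *
      Complex.I) • v i‖ ^ 2 ≤ K * ∑ i ∈ s, ‖v i‖ ^ 2 := by
  set m : ι → ι → ℝ := fun i j => if i = j then 1 else 9 / (|τ| * |b i / a i - b j / a j|)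
    with hm
  have hm0 : ∀ i j, 0 ≤ m i j := by
    intro i j
    rw [hm]
    dsimp only
    split_ifs
    · exact zero_le_one
    · positivity
  have hmsymm : ∀ i j, m i j = m j i := by
    intro i j
    rw [hm]
    dsimp only
    by_cases h : i = j
    · rw [if_pos h, if_pos h.symm]
    · rw [if_neg h, if_neg (Ne.symm h), abs_sub_comm]
  have hrow : ∀ i ∈ s, ∑ j ∈ s, m i j ≤ K := by
    intro i hi
    refine le_trans (le_of_eq ?_) (hK i hi)
    rw [← Finset.add_sum_erase s _ hi]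
    congr 1
    · simp [hm]
    · refine Finset.sum_congr rfl fun j hj => ?_
      rw [hm]
      dsimp only
      rw [if_neg (Finset.ne_of_mem_erase hj).symm]
  -- the phase functions
  set c : ι → ℝ → ℂ := fun i x =>
    Complex.exp (((τ * Real.log (a i + b i * x) : ℝ) : ℂ) * Complex.I) with hc
  set g : ι → ι → ℝ → ℂ := fun i j x => Complex.exp
      (((τ * (Real.log (a j + b j * x) - Real.log (a i + b i * x)) : ℝ) : ℂ) * Complex.I) with hg
  have hcc : ∀ i j x, (starRingEnd ℂ) (c i x) * c j x = g i j x := by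
    intro i j x
    rw [hc, hg]
    dsimp only
    rw [← Complex.exp_conj, ← Complex.exp_add, map_mul, Complex.conj_ofReal, Complex.conj_I]
    congr 1
    push_cast
    ring
  have hgcont : ∀ i ∈ s, ∀ j ∈ s, ContinuousOn (g i j) (Set.Icc 0 1) := by
    intro i hi j hj
    have hpos : ∀ i ∈ s, ∀ x ∈ Set.Icc (0 : ℝ) 1, a i + b i * x ≠ 0 := fun i hi x hx => by
      have h1 := mul_nonneg (hb i hi) hx.1
      have h2 := ha i hi
      positivity
    have h1 : ∀ i ∈ s, ContinuousOn (fun x => Real.log (a i + b i * x)) (Set.Icc 0 1) :=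
      fun i hi => ContinuousOn.log (by fun_prop) (hpos i hi)
    have h2 : ContinuousOn (fun x => τ * (Real.log (a j + b j * x) - Real.log (a i + b i * x)))
        (Set.Icc 0 1) := continuousOn_const.mul ((h1 j hj).sub (h1 i hi))
    exact Complex.continuous_exp.comp_continuousOn
      ((Complex.continuous_ofReal.comp_continuousOn h2).mul continuousOn_const)
  have hu : Set.uIcc (0 : ℝ) 1 = Set.Icc 0 1 := Set.uIcc_of_le zero_le_one
  have hgi : ∀ i ∈ s, ∀ j ∈ s, IntervalIntegrable (g i j) MeasureTheory.volume 0 1 :=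
    fun i hi j hj => (hu.symm ▸ hgcont i hi j hj).intervalIntegrable
  have hexp : ∀ x, ((‖∑ i ∈ s, c i x • v i‖ ^ 2 : ℝ) : ℂ)
      = ∑ i ∈ s, ∑ j ∈ s, g i j x * inner ℂ (v i) (v j) := by
    intro x
    have h1 := inner_self_eq_norm_sq_to_K (𝕜 := ℂ) (∑ i ∈ s, c i x • v i)
    have h2 : ((‖∑ i ∈ s, c i x • v i‖ ^ 2 : ℝ) : ℂ)
        = inner ℂ (∑ i ∈ s, c i x • v i) (∑ i ∈ s, c i x • v i) := by
      rw [h1]; push_cast; rfl
    rw [h2, sum_inner]
    refine Finset.sum_congr rfl fun i _ => ?_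
    rw [inner_sum]
    refine Finset.sum_congr rfl fun j _ => ?_
    rw [inner_smul_left, inner_smul_right, ← mul_assoc, hcc]
  have hint : ((∫ x in (0 : ℝ)..1, ‖∑ i ∈ s, c i x • v i‖ ^ 2 : ℝ) : ℂ)
      = ∑ i ∈ s, ∑ j ∈ s, (∫ x in (0 : ℝ)..1, g i j x) * inner ℂ (v i) (v j) := by
    rw [← intervalIntegral.integral_ofReal]
    simp_rw [hexp]
    rw [intervalIntegral.integral_finsetSum]
    · refine Finset.sum_congr rfl fun i hi => ?_
      rw [intervalIntegral.integral_finsetSum]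
      · refine Finset.sum_congr rfl fun j hj => ?_
        rw [intervalIntegral.integral_mul_const]
      · intro j hj
        exact (hgi i hi j hj).mul_const _
    · intro i hi
      have h := IntervalIntegrable.sum s (μ := MeasureTheory.volume) (a := 0) (b := 1)
        (f := fun j x => g i j x * inner ℂ (v i) (v j))
        fun j hj => (hgi i hi j hj).mul_const _
      have e : (∑ j ∈ s, fun x => g i j x * inner ℂ (v i) (v j))
          = fun x => ∑ j ∈ s, g i j x * inner ℂ (v i) (v j) := by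
        funext x; simp [Finset.sum_apply]
      rw [e] at h
      exact h
  have hgb : ∀ i ∈ s, ∀ j ∈ s, ‖∫ x in (0 : ℝ)..1, g i j x‖ ≤ m i j := by
    intro i hi j hj
    by_cases hij : i = j
    · subst hij
      have : ∀ x, g i i x = 1 := by
        intro x; rw [hg]; dsimp only; simp
      simp only [this, hm, if_true]
      simp
    · rw [hmsymm]
      have h1 := osc_integral (ha j hj) (ha i hi) (hb j hj) (hba j hj) (hb i hi) (hba i hi) hτ
        (hne j hj i hi (Ne.symm hij))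
      rw [hm]
      dsimp only
      rw [if_neg (Ne.symm hij)]
      exact h1
  have hreal : (∫ x in (0 : ℝ)..1, ‖∑ i ∈ s, c i x • v i‖ ^ 2) ≤
      ‖((∫ x in (0 : ℝ)..1, ‖∑ i ∈ s, c i x • v i‖ ^ 2 : ℝ) : ℂ)‖ := by
    rw [Complex.norm_real]
    exact Real.le_norm_self _
  refine hreal.trans ?_
  rw [hint]
  calc ‖∑ i ∈ s, ∑ j ∈ s, (∫ x in (0 : ℝ)..1, g i j x) * inner ℂ (v i) (v j)‖
      ≤ ∑ i ∈ s, ∑ j ∈ s, m i j * ((‖v i‖ ^ 2 + ‖v j‖ ^ 2) / 2) := by
        refine (norm_sum_le _ _).trans (Finset.sum_le_sum fun i hi => ?_)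
        refine (norm_sum_le _ _).trans (Finset.sum_le_sum fun j hj => ?_)
        rw [norm_mul]
        refine mul_le_mul (hgb i hi j hj) ?_ (norm_nonneg _) (hm0 i j)
        refine (norm_inner_le_norm _ _).trans ?_
        nlinarith [sq_nonneg (‖v i‖ - ‖v j‖)]
    _ = ∑ i ∈ s, (∑ j ∈ s, m i j) * ‖v i‖ ^ 2 := by
        have h1 : ∑ i ∈ s, ∑ j ∈ s, m i j * ((‖v i‖ ^ 2 + ‖v j‖ ^ 2) / 2)
            = (∑ i ∈ s, ∑ j ∈ s, m i j * ‖v i‖ ^ 2) / 2
              + (∑ i ∈ s, ∑ j ∈ s, m i j * ‖v j‖ ^ 2) / 2 := by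
          rw [Finset.sum_div, Finset.sum_div, ← Finset.sum_add_distrib]
          refine Finset.sum_congr rfl fun i _ => ?_
          rw [Finset.sum_div, Finset.sum_div, ← Finset.sum_add_distrib]
          refine Finset.sum_congr rfl fun j _ => ?_
          ring
        have h2 : ∑ i ∈ s, ∑ j ∈ s, m i j * ‖v j‖ ^ 2 = ∑ i ∈ s, ∑ j ∈ s, m i j * ‖v i‖ ^ 2 := by
          rw [Finset.sum_comm]
          refine Finset.sum_congr rfl fun i _ => Finset.sum_congr rfl fun j _ => ?_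
          rw [hmsymm]
        rw [h1, h2]
        simp_rw [Finset.sum_mul]
        ring
    _ ≤ ∑ i ∈ s, K * ‖v i‖ ^ 2 := by
        refine Finset.sum_le_sum fun i hi => ?_
        exact mul_le_mul_of_nonneg_right (hrow i hi) (sq_nonneg _)
    _ = K * ∑ i ∈ s, ‖v i‖ ^ 2 := by rw [Finset.mul_sum]

end Pool.Agent.W_f50700_h3
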