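import Pool.Agent.W_f50700_h3.Nrm
import Pool.Agent.W_f50700_h3.Samp
import Pool.Agent.W_f50700_h3.Expo2

/-!
Mix0: the block operator (row 436), formal properties.
-/

open Matrix

namespace Pool.Agent.W_f50700_h3

variable {A : ℕ}

/-- the block operator `(L_P f)(y) = (1/#P) ∑_{M ∈ P} cpsi_M(y)^{i τ} f(M.y) ∘ M` -/
noncomputable def blk (q : ℕ) (P : Finset (List (Lt A))) (τ : ℝ)
    (f : ℝ → ZMod q × ZMod q → ℂ) : ℝ → ZMod q × ZMod q → ℂ :=
  fun y x => (1 / (P.card : ℂ)) * ∑ M ∈ P,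
    Complex.exp (((τ * Real.log (cpsi M y) : ℝ) : ℂ) * Complex.I) *
      f (cact M y) (vact q (mat M) x)

/-- `f` is `l`-Lipschitz on `[0,1]` in the `l^2` norm -/
def LipN (q : ℕ) [NeZero q] (l : ℝ) (f : ℝ → ZMod q × ZMod q → ℂ) : Prop :=
  ∀ y ∈ Set.Icc (0 : ℝ) 1, ∀ z ∈ Set.Icc (0 : ℝ) 1,
    nrm q (fun x => f y x - f z x) ≤ l * |y - z|

theorem Mix0_nrm_vact (q : ℕ) [NeZero q] (w : List (Lt A)) (h : ZMod q × ZMod q → ℂ) :
    nrm q (fun x => h (vact q (mat w) x)) = nrm q h := by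
  unfold nrm
  rw [nsq_vact]

/-- norm of an average -/
theorem Mix0_avg (q : ℕ) [NeZero q] {ι : Type*} (s : Finset ι) (f : ι → ZMod q × ZMod q → ℂ)
    {b : ℝ} (hb : 0 ≤ b) (hf : ∀ i ∈ s, nrm q (f i) ≤ b) :
    nrm q (fun x => (1 / (s.card : ℂ)) * ∑ i ∈ s, f i x) ≤ b := by
  rw [nrm_smul q _ (fun x => ∑ i ∈ s, f i x), norm_div, norm_one, Complex.norm_natCast]
  rcases s.eq_empty_or_nonempty with hs | hs
  · subst hs
    simpa using hb
  · have hN : (0 : ℝ) < s.card := by exact_mod_cast hs.card_pos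
    have h1 : nrm q (fun x => ∑ i ∈ s, f i x) ≤ s.card * b := by
      refine (nrm_sum_le q s f).trans ?_
      refine (Finset.sum_le_sum hf).trans ?_
      rw [Finset.sum_const, nsmul_eq_mul]
    calc (1 / (s.card : ℝ)) * nrm q (fun x => ∑ i ∈ s, f i x)
        ≤ (1 / (s.card : ℝ)) * (s.card * b) := mul_le_mul_of_nonneg_left h1 (by positivity)
      _ = b := by field_simp

theorem Mix0_exp_sub (s t : ℝ) :
    ‖Complex.exp ((s : ℂ) * Complex.I) - Complex.exp ((t : ℂ) * Complex.I)‖ ≤ |s - t| := by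
  have h1 : Complex.exp ((s : ℂ) * Complex.I) - Complex.exp ((t : ℂ) * Complex.I) =
      Complex.exp ((t : ℂ) * Complex.I) *
        (Complex.exp (Complex.I * ((s - t : ℝ) : ℂ)) - 1) := by
    rw [mul_sub, mul_one, ← Complex.exp_add]
    congr 2
    push_cast
    ring
  rw [h1, norm_mul, Complex.norm_exp_ofReal_mul_I, one_mul]
  exact Real.norm_exp_I_mul_ofReal_sub_one_le

/-- sup norm bound -/
theorem blk_bound (q : ℕ) [NeZero q] (P : Finset (List (Lt A))) (τ : ℝ)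
    (f : ℝ → ZMod q × ZMod q → ℂ) {b : ℝ} (hb : 0 ≤ b)
    (hf : ∀ y ∈ Set.Icc (0 : ℝ) 1, nrm q (f y) ≤ b) :
    ∀ y ∈ Set.Icc (0 : ℝ) 1, nrm q (blk q P τ f y) ≤ b := by
  intro y hy
  refine Mix0_avg q P (fun M x => Complex.exp (((τ * Real.log (cpsi M y) : ℝ) : ℂ) * Complex.I) *
      f (cact M y) (vact q (mat M) x)) hb ?_
  intro M _
  rw [nrm_smul q _ (fun x => f (cact M y) (vact q (mat M) x)), Complex.norm_exp_ofReal_mul_I,
    one_mul, Mix0_nrm_vact]
  exact hf _ (cact_mem M hy)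

/-- Lipschitz bound: `|τ| b + l / 4` (all words in `P` nonempty) -/
theorem blk_lip (q : ℕ) [NeZero q] (P : Finset (List (Lt A))) (hP : ∀ M ∈ P, M ≠ []) (τ : ℝ)
    (f : ℝ → ZMod q × ZMod q → ℂ) {b l : ℝ} (hb : 0 ≤ b) (hl : 0 ≤ l)
    (hf : ∀ y ∈ Set.Icc (0 : ℝ) 1, nrm q (f y) ≤ b) (hL : LipN q l f) :
    LipN q (|τ| * b + l / 4) (blk q P τ f) := by
  intro y hy z hz
  have h1 : (fun x => blk q P τ f y x - blk q P τ f z x) =
      (fun x => (1 / (P.card : ℂ)) * ∑ M ∈ P,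
        (Complex.exp (((τ * Real.log (cpsi M y) : ℝ) : ℂ) * Complex.I) *
          f (cact M y) (vact q (mat M) x) -
        Complex.exp (((τ * Real.log (cpsi M z) : ℝ) : ℂ) * Complex.I) *
          f (cact M z) (vact q (mat M) x))) := by
    funext x
    unfold blk
    rw [← mul_sub, ← Finset.sum_sub_distrib]
  rw [h1]
  refine Mix0_avg q P _ (by positivity) ?_
  intro M hM
  have h2 : (fun x => Complex.exp (((τ * Real.log (cpsi M y) : ℝ) : ℂ) * Complex.I) *
          f (cact M y) (vact q (mat M) x) -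
        Complex.exp (((τ * Real.log (cpsi M z) : ℝ) : ℂ) * Complex.I) *
          f (cact M z) (vact q (mat M) x)) =
      (fun x => (Complex.exp (((τ * Real.log (cpsi M y) : ℝ) : ℂ) * Complex.I) -
        Complex.exp (((τ * Real.log (cpsi M z) : ℝ) : ℂ) * Complex.I)) *
          f (cact M y) (vact q (mat M) x) +
        Complex.exp (((τ * Real.log (cpsi M z) : ℝ) : ℂ) * Complex.I) *
          (f (cact M y) (vact q (mat M) x) - f (cact M z) (vact q (mat M) x))) := by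
    funext x
    ring
  rw [h2]
  refine (nrm_add_le q _ _).trans ?_
  rw [nrm_smul q _ (fun x => f (cact M y) (vact q (mat M) x)),
    nrm_smul q _ (fun x => f (cact M y) (vact q (mat M) x) - f (cact M z) (vact q (mat M) x)),
    Complex.norm_exp_ofReal_mul_I, one_mul, Mix0_nrm_vact,
    Mix0_nrm_vact q M (fun x => f (cact M y) x - f (cact M z) x)]
  have h3 : ‖Complex.exp (((τ * Real.log (cpsi M y) : ℝ) : ℂ) * Complex.I) -
        Complex.exp (((τ * Real.log (cpsi M z) : ℝ) : ℂ) * Complex.I)‖ ≤ |τ| * |y - z| := by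
    refine (Mix0_exp_sub _ _).trans ?_
    rw [← mul_sub, abs_mul]
    exact mul_le_mul_of_nonneg_left (log_cpsi_lip M hy hz) (abs_nonneg _)
  have h4 := hf (cact M y) (cact_mem M hy)
  have h5 := hL (cact M y) (cact_mem M hy) (cact M z) (cact_mem M hz)
  have h6 := cact_lip M hy hz
  have h7 : (2 : ℝ) ≤ F M := by
    have h8 := two_pow_le_F M
    have h9 : 1 ≤ M.length := by
      rcases M with _ | ⟨a, t⟩
      · exact absurd rfl (hP [] hM)
      · simp
    have h10 : 2 ^ 1 ≤ 2 ^ M.length := Nat.pow_le_pow_right (by norm_num) h9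
    have h11 : 2 ≤ F M := by omega
    exact_mod_cast h11
  have h8 : |y - z| / (F M : ℝ) ^ 2 ≤ |y - z| / 4 := by
    apply div_le_div_of_nonneg_left (abs_nonneg _) (by norm_num)
    nlinarith
  have h9 : l * |cact M y - cact M z| ≤ l * (|y - z| / 4) :=
    mul_le_mul_of_nonneg_left (h6.trans h8) hl
  have h10 : ‖Complex.exp (((τ * Real.log (cpsi M y) : ℝ) : ℂ) * Complex.I) -
        Complex.exp (((τ * Real.log (cpsi M z) : ℝ) : ℂ) * Complex.I)‖ * nrm q (f (cact M y)) ≤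
      (|τ| * |y - z|) * b :=
    mul_le_mul h3 h4 (nrm_nonneg _ _) (by positivity)
  calc _ ≤ (|τ| * |y - z|) * b + l * (|y - z| / 4) := add_le_add h10 (h5.trans h9)
    _ = (|τ| * b + l / 4) * |y - z| := by ring

theorem blk_new (q : ℕ) [NeZero q] (P : Finset (List (Lt A))) (τ : ℝ)
    (f : ℝ → ZMod q × ZMod q → ℂ) (hf : ∀ y ∈ Set.Icc (0 : ℝ) 1, IsNew q (f y)) :
    ∀ y ∈ Set.Icc (0 : ℝ) 1, IsNew q (blk q P τ f y) := by
  intro y hy
  refine IsNew.smul (h := fun x => ∑ M ∈ P,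
    Complex.exp (((τ * Real.log (cpsi M y) : ℝ) : ℂ) * Complex.I) *
      f (cact M y) (vact q (mat M) x)) ?_ _
  refine IsNew.sum P (h := fun M x =>
    Complex.exp (((τ * Real.log (cpsi M y) : ℝ) : ℂ) * Complex.I) *
      f (cact M y) (vact q (mat M) x)) ?_
  intro M _
  exact IsNew.smul ((hf _ (cact_mem M hy)).vact M) _

theorem Mix0_iter (q : ℕ) (P : Finset (List (Lt A))) (τ : ℝ) (k : ℕ) :
    ∀ (f : ℝ → ZMod q × ZMod q → ℂ) (y : ℝ), y ∈ Set.Icc (0 : ℝ) 1 → ∀ (x : ZMod q × ZMod q),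
    ((blk q P τ)^[k] f) y x = (1 / (P.card : ℂ) ^ k) * ∑ l ∈ blockF P k,
      Complex.exp (((τ * Real.log (cpsi l.flatten y) : ℝ) : ℂ) * Complex.I) *
        f (cact l.flatten y) (vact q (mat l.flatten) x) := by
  induction k with
  | zero =>
    intro f y hy x
    have h1 : cact ([] : List (Lt A)) y = y := by simp [cact]
    have h2 : cpsi ([] : List (Lt A)) y = 1 := by simp [cpsi]
    have h3 : vact q (mat ([] : List (Lt A))) x = x := by simp [vact, mat]
    simp [blockF, h1, h2, h3]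
  | succ k ih =>
    intro f y hy x
    rw [Function.iterate_succ_apply, ih (blk q P τ f) y hy x, sum_blockF_succ, Finset.sum_comm]
    have h1 : ∀ l ∈ blockF P k,
        Complex.exp (((τ * Real.log (cpsi l.flatten y) : ℝ) : ℂ) * Complex.I) *
        blk q P τ f (cact l.flatten y) (vact q (mat l.flatten) x) =
        (1 / (P.card : ℂ)) * ∑ u ∈ P,
          Complex.exp (((τ * Real.log (cpsi (u :: l).flatten y) : ℝ) : ℂ) * Complex.I) *
            f (cact (u :: l).flatten y) (vact q (mat (u :: l).flatten) x) := by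
      intro l _
      unfold blk
      rw [mul_left_comm, Finset.mul_sum]
      congr 1
      refine Finset.sum_congr rfl (fun u _ => ?_)
      rw [List.flatten_cons, cpsi_append u l.flatten hy.1, cact_append u l.flatten hy.1,
        vact_append, Real.log_mul (cpsi_pos u (cact_mem l.flatten hy).1).ne'
          (cpsi_pos l.flatten hy.1).ne', ← mul_assoc, ← Complex.exp_add]
      congr 2
      push_cast
      ring
    rw [Finset.sum_congr rfl h1, ← Finset.mul_sum, ← mul_assoc]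
    congr 1
    rw [pow_succ, one_div_mul_one_div]

/-- iterates on a constant function: average over block tuples -/
theorem blk_iter_eq (q : ℕ) [NeZero q] (P : Finset (List (Lt A))) (hP : P.Nonempty) (τ : ℝ)
    (h : ZMod q × ZMod q → ℂ) (k : ℕ) (y : ℝ) (hy : y ∈ Set.Icc (0 : ℝ) 1) (x : ZMod q × ZMod q) :
    ((blk q P τ)^[k] (fun _ => h)) y x = (1 / (P.card : ℂ) ^ k) * ∑ l ∈ blockF P k,
      Complex.exp (((τ * Real.log (cpsi l.flatten y) : ℝ) : ℂ) * Complex.I) *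
        h (vact q (mat l.flatten) x) :=
  Mix0_iter q P τ k (fun _ => h) y hy x

/-- evaluation at the remainder word `b` -/
theorem blk_iter_word (q : ℕ) [NeZero q] (P : Finset (List (Lt A))) (hP : P.Nonempty) (τ : ℝ)
    (h : ZMod q × ZMod q → ℂ) (k : ℕ) (b : List (Lt A)) :
    ∑ l ∈ blockF P k, Complex.exp (((τ * Real.log (F (l.flatten ++ b)) : ℝ) : ℂ) * Complex.I) *
        h (vact q (mat (l.flatten ++ b)) (1, 0)) =
      (P.card : ℂ) ^ k * (Complex.exp (((τ * Real.log (F b) : ℝ) : ℂ) * Complex.I) *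
        ((blk q P τ)^[k] (fun _ => h)) (eta b) (vact q (mat b) (1, 0))) := by
  rw [blk_iter_eq q P hP τ h k (eta b) (eta_mem b) (vact q (mat b) (1, 0))]
  have hN : (P.card : ℂ) ≠ 0 := by
    have := hP.card_pos
    exact_mod_cast this.ne'
  have h1 : ∀ l ∈ blockF P k,
      Complex.exp (((τ * Real.log (F (l.flatten ++ b)) : ℝ) : ℂ) * Complex.I) *
        h (vact q (mat (l.flatten ++ b)) (1, 0)) =
      Complex.exp (((τ * Real.log (F b) : ℝ) : ℂ) * Complex.I) *
      (Complex.exp (((τ * Real.log (cpsi l.flatten (eta b)) : ℝ) : ℂ) * Complex.I) *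
        h (vact q (mat l.flatten) (vact q (mat b) (1, 0)))) := by
    intro l _
    rw [F_append_cpsi, vact_append, Real.log_mul (cpsi_pos l.flatten (eta_mem b).1).ne'
      (Base2_F_pos b).ne', ← mul_assoc, ← Complex.exp_add]
    congr 2
    push_cast
    ring
  rw [Finset.sum_congr rfl h1, ← Finset.mul_sum]
  field_simp

theorem Mix0_abs_nrm_sub (q : ℕ) [NeZero q] (f g : ZMod q × ZMod q → ℂ) :
    |nrm q f - nrm q g| ≤ nrm q (fun x => f x - g x) := by
  have key : ∀ f g : ZMod q × ZMod q → ℂ, nrm q f ≤ nrm q g + nrm q (fun x => f x - g x) := by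
    intro f g
    have h1 := nrm_add_le q g (fun x => f x - g x)
    have h2 : (fun x => g x + (f x - g x)) = f := by funext x; ring
    rwa [h2] at h1
  have h1 := key f g
  have h2 := key g f
  have h3 : nrm q (fun x => g x - f x) = nrm q (fun x => f x - g x) := by
    have h4 := nrm_smul q (-1) (fun x => f x - g x)
    have h5 : (fun x => (-1 : ℂ) * (f x - g x)) = (fun x => g x - f x) := by funext x; ring
    rw [h5] at h4
    rw [h4]
    simp
  rw [abs_le]
  constructor <;> linarith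

/-- continuity of the squared norm, for integrability -/
theorem LipN.continuousOn {q : ℕ} [NeZero q] {l : ℝ} {f : ℝ → ZMod q × ZMod q → ℂ}
    (h : LipN q l f) : ContinuousOn (fun y => nsq q (f y)) (Set.Icc (0 : ℝ) 1) := by
  have h1 : LipschitzOnWith (Real.toNNReal l) (fun y => nrm q (f y)) (Set.Icc (0 : ℝ) 1) := by
    apply LipschitzOnWith.of_dist_le_mul
    intro y hy z hz
    rw [Real.dist_eq, Real.dist_eq, Real.coe_toNNReal']
    refine (Mix0_abs_nrm_sub q (f y) (f z)).trans ((h y hy z hz).trans ?_)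
    exact mul_le_mul_of_nonneg_right (le_max_left _ _) (abs_nonneg _)
  have h2 := (h1.continuousOn).pow 2
  refine h2.congr ?_
  intro y _
  exact (nrm_sq q (f y)).symm

/-- sampling on the points `eta M`, `M ∈ passF A Z` (corollary of Lemma 1) -/
theorem sample_pass (hA : 1 ≤ A) : ∃ C : ℝ, 0 < C ∧ ∀ (q : ℕ) [NeZero q] (Z : ℝ), 2 ≤ Z →
    ∀ (f : ℝ → ZMod q × ZMod q → ℂ) (l : ℝ), 0 ≤ l → LipN q l f →
    (1 / ((passF A Z).card : ℝ)) * ∑ M ∈ passF A Z, nsq q (f (eta M)) ≤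
      C * Z ^ (2 - sexp A) * (∫ y in (0 : ℝ)..1, nsq q (f y)) + C * l ^ 2 / Z ^ 4 := by
  obtain ⟨c, C₀, hc, hC₀, hcard⟩ := card_passF_bounds hA
  have hCA : (2 : ℝ) ≤ CA A := by unfold CA; nlinarith [sq_nonneg (A : ℝ)]
  have hCA0 : 0 < CA A := by linarith
  refine ⟨8 * CA A ^ 2 / c + 1, by positivity, ?_⟩
  intro q _ Z hZ f l hl hL
  have hZ0 : 0 < Z := by linarith
  obtain ⟨hc1, _⟩ := hcard Z (by linarith)
  have hNpos : (0 : ℝ) < (passF A Z).card := lt_of_lt_of_le (by positivity) hc1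
  set N : ℝ := ((passF A Z).card : ℝ) with hN
  set Δ : ℝ := 1 / (CA A * Z) ^ 2 with hΔ
  have hCZ : 1 ≤ CA A * Z := by nlinarith
  have hΔ0 : 0 < Δ := by rw [hΔ]; positivity
  have hΔ1 : Δ ≤ 1 := by
    rw [hΔ, div_le_one (by positivity)]
    nlinarith
  have hsep : ∀ i ∈ passF A Z, ∀ j ∈ passF A Z, i ≠ j → Δ ≤ |eta i - eta j| := by
    intro i hi j hj hij
    refine le_trans ?_ (eta_sep hij)
    rw [hΔ]
    apply one_div_le_one_div_of_le
    · exact mul_pos (Base2_F_pos i) (Base2_F_pos j)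
    · rw [pow_two]
      exact mul_le_mul (passF_bounds hi).2 (passF_bounds hj).2 (Base2_F_pos j).le (by positivity)
  have h1 := sampling (passF A Z) eta hΔ0 hΔ1 hl (fun i _ => eta_mem i) hsep
    (fun y => nrm q (f y)) (by
      intro u hu v hv
      exact (Mix0_abs_nrm_sub q (f u) (f v)).trans (hL u hu v hv))
  have h2 : ∀ y, nrm q (f y) ^ 2 = nsq q (f y) := fun y => nrm_sq q (f y)
  simp only [h2] at h1
  set I : ℝ := ∫ y in (0 : ℝ)..1, nsq q (f y) with hI
  have hI0 : 0 ≤ I := by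
    rw [hI]
    apply intervalIntegral.integral_nonneg zero_le_one
    intro y _
    exact Finset.sum_nonneg (fun _ _ => by positivity)
  have h3 : (1 / N) * ∑ M ∈ passF A Z, nsq q (f (eta M)) ≤
      (1 / N) * ((8 / Δ) * I + l ^ 2 * Δ ^ 2 * N) :=
    mul_le_mul_of_nonneg_left h1 (by positivity)
  have h4 : (1 / N) * ((8 / Δ) * I + l ^ 2 * Δ ^ 2 * N) =
      (8 * CA A ^ 2 * Z ^ 2 / N) * I + l ^ 2 * Δ ^ 2 := by
    rw [hΔ]
    field_simp
  have h5 : 8 * CA A ^ 2 * Z ^ 2 / N ≤ (8 * CA A ^ 2 / c) * Z ^ (2 - sexp A) := by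
    have e1 : Z ^ (2 - sexp A) = Z ^ 2 / Z ^ (sexp A) := by
      rw [Real.rpow_sub hZ0]
      norm_num
    have hZs : 0 < Z ^ (sexp A) := Real.rpow_pos_of_pos hZ0 _
    calc 8 * CA A ^ 2 * Z ^ 2 / N ≤ 8 * CA A ^ 2 * Z ^ 2 / (c * Z ^ (sexp A)) :=
          div_le_div_of_nonneg_left (by positivity) (by positivity) hc1
      _ = _ := by rw [e1]; field_simp
  have h6 : l ^ 2 * Δ ^ 2 ≤ l ^ 2 / Z ^ 4 := by
    rw [div_eq_mul_one_div (l ^ 2)]
    apply mul_le_mul_of_nonneg_left _ (by positivity)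
    rw [hΔ, div_pow, one_pow, ← pow_mul]
    apply one_div_le_one_div_of_le (by positivity)
    norm_num
    apply pow_le_pow_left₀ hZ0.le
    nlinarith
  have h7 : (8 * CA A ^ 2 * Z ^ 2 / N) * I ≤ ((8 * CA A ^ 2 / c) * Z ^ (2 - sexp A)) * I :=
    mul_le_mul_of_nonneg_right h5 hI0
  have h8 : 0 ≤ Z ^ (2 - sexp A) * I := mul_nonneg (Real.rpow_nonneg hZ0.le _) hI0
  have h9 : 0 ≤ (8 * CA A ^ 2 / c) * (l ^ 2 / Z ^ 4) := by positivity
  have e2 : (8 * CA A ^ 2 / c + 1) * Z ^ (2 - sexp A) * I +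
      (8 * CA A ^ 2 / c + 1) * l ^ 2 / Z ^ 4 =
      ((8 * CA A ^ 2 / c) * Z ^ (2 - sexp A)) * I + l ^ 2 / Z ^ 4 +
      (Z ^ (2 - sexp A) * I + (8 * CA A ^ 2 / c) * (l ^ 2 / Z ^ 4)) := by ring
  rw [e2]
  linarith

end Pool.Agent.W_f50700_h3
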