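import Pool.Agent.W_f50700_h3.Nrm

/-!
QR2: from a primitive vector to the dimension bound (row 436, L5).
-/

open Matrix

namespace Pool.Agent.W_f50700_h3

/-- unipotent matrix -/
def QR2_n (q : ℕ) (t : ZMod q) : SpecialLinearGroup (Fin 2) (ZMod q) :=
  ⟨!![1, t; 0, 1], by simp [Matrix.det_fin_two]⟩

theorem QR2_gact_n (q : ℕ) (t : ZMod q) (x : ZMod q × ZMod q) :
    gact q (QR2_n q t) x = (x.1 + t * x.2, x.2) := by
  simp [gact, QR2_n]

/-- diagonal matrix -/
def QR2_d (q : ℕ) (a : (ZMod q)ˣ) : SpecialLinearGroup (Fin 2) (ZMod q) :=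
  ⟨!![(a : ZMod q), 0; 0, ((a⁻¹ : (ZMod q)ˣ) : ZMod q)], by simp [Matrix.det_fin_two]⟩

theorem QR2_gact_d (q : ℕ) (a : (ZMod q)ˣ) (x : ZMod q × ZMod q) :
    gact q (QR2_d q a) x = (a * x.1, ((a⁻¹ : (ZMod q)ˣ) : ZMod q) * x.2) := by
  simp [gact, QR2_d]

/-- the isotypic components for the unipotent group -/
noncomputable def QR2_c (q : ℕ) [NeZero q] (v : ZMod q × ZMod q → ℂ) (b : ZMod q) :
    ZMod q × ZMod q → ℂ :=
  fun x => ∑ t : ZMod q, (ZMod.stdAddChar (-(b * t)) : ℂ) * v (x.1 + t * x.2, x.2)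

theorem QR2_c_shift (q : ℕ) [NeZero q] (v : ZMod q × ZMod q → ℂ) (b s : ZMod q)
    (x : ZMod q × ZMod q) :
    QR2_c q v b (x.1 + s * x.2, x.2) = ZMod.stdAddChar (b * s) * QR2_c q v b x := by
  unfold QR2_c
  rw [Finset.mul_sum, ← Equiv.sum_comp (Equiv.subRight s)]
  refine Finset.sum_congr rfl fun t _ => ?_
  rw [← mul_assoc, ← AddChar.map_add_eq_mul]
  simp only [Equiv.subRight_apply]
  congr 1
  · congr 1; ring
  · congr 1
    ext <;> simp
    ring

theorem QR2_sum (q : ℕ) [NeZero q] (v : ZMod q × ZMod q → ℂ) (x : ZMod q × ZMod q) :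
    ∑ b : ZMod q, QR2_c q v b x = (q : ℂ) * v x := by
  classical
  unfold QR2_c
  rw [Finset.sum_comm]
  have h1 : ∀ t : ZMod q, ∑ b : ZMod q, (ZMod.stdAddChar (-(b * t)) : ℂ) *
      v (x.1 + t * x.2, x.2) = if t = 0 then (q : ℂ) * v x else 0 := by
    intro t
    rw [← Finset.sum_mul]
    have h2 := AddChar.sum_mulShift (ψ := (ZMod.stdAddChar : AddChar (ZMod q) ℂ)) (-t)
      (ZMod.isPrimitive_stdAddChar q)
    have h3 : ∑ b : ZMod q, (ZMod.stdAddChar (-(b * t)) : ℂ) =
        ∑ b : ZMod q, (ZMod.stdAddChar (b * (-t)) : ℂ) := by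
      refine Finset.sum_congr rfl fun b _ => ?_
      congr 1; ring
    rw [h3, h2]
    by_cases ht : t = 0
    · subst ht
      simp [ZMod.card]
    · rw [if_neg (neg_ne_zero.2 ht), if_neg ht]
      simp
  rw [Finset.sum_congr rfl fun t _ => h1 t, Finset.sum_ite_eq']
  simp

/-- Let `V` be an invariant subspace and `v ∈ V` nonzero whose averages over the unipotent
subgroups `n(t)`, `t ∈ (q/p) Z/q`, vanish for all primes `p ∣ q`.  Then
`dim V ≥ #{a^2 : a unit mod q}`.
Proof: decompose `v` into eigenvectors of `n(1)`: `v_b(x) = (1/q) ∑_t e(-b t/q) v(x_1 + t x_2, x_2)`,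
`v_b ∈ V`, `v = ∑_b v_b`; if `p ∣ b` then the `p`-average of `v_b` is `v_b`, but it is also `0`;
so `v_b = 0` for nonunits `b`, and `v_b ≠ 0` for some unit `b`.  `diag(a, a^{-1})` maps `v_b` to an
eigenvector of `n(1)` for the frequency `a^{2} b` (or `a^{-2} b`); eigenvectors for different
eigenvalues are linearly independent (`Module.End.eigenvectors_linearIndependent'`). -/
theorem finrank_ge_squares (q : ℕ) [NeZero q] (V : Submodule ℂ (ZMod q × ZMod q → ℂ))
    (hinv : ∀ g : SpecialLinearGroup (Fin 2) (ZMod q), ∀ h ∈ V, (fun x => h (gact q g x)) ∈ V)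
    (v : ZMod q × ZMod q → ℂ) (hv : v ∈ V) (hv0 : v ≠ 0)
    (hav : ∀ p : ℕ, p.Prime → p ∣ q → ∀ x : ZMod q × ZMod q,
      ∑ j ∈ Finset.range p, v (x.1 + ((q / p : ℕ) : ZMod q) * (j : ZMod q) * x.2, x.2) = 0) :
    Nat.card {a : ZMod q // ∃ u : (ZMod q)ˣ, a = (u : ZMod q) ^ 2} ≤ Module.finrank ℂ V := by
  classical
  have hq : (q : ℂ) ≠ 0 := by exact_mod_cast NeZero.ne q
  -- the components lie in `V`
  have hcV : ∀ b, QR2_c q v b ∈ V := by
    intro b
    have h1 : QR2_c q v b = ∑ t : ZMod q, (ZMod.stdAddChar (-(b * t)) : ℂ) •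
        (fun x => v (gact q (QR2_n q t) x)) := by
      funext x
      rw [Finset.sum_apply]
      refine Finset.sum_congr rfl fun t _ => ?_
      rw [Pi.smul_apply, QR2_gact_n, smul_eq_mul]
    rw [h1]
    exact Submodule.sum_mem _ fun t _ => Submodule.smul_mem _ _ (hinv _ v hv)
  -- some component is nonzero
  obtain ⟨b, hb⟩ : ∃ b, QR2_c q v b ≠ 0 := by
    by_contra hcon
    push Not at hcon
    apply hv0
    funext x
    have h1 := QR2_sum q v x
    rw [Finset.sum_eq_zero fun b _ => by rw [hcon b]; rfl] at h1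
    exact (mul_eq_zero.1 h1.symm).resolve_left hq
  -- and then `b` is a unit
  have hbu : IsUnit b := by
    by_contra hnu
    have h1 : ¬ Nat.Coprime b.val q := by
      intro h2
      apply hnu
      rw [← ZMod.natCast_zmod_val b]
      exact (ZMod.isUnit_iff_coprime _ _).2 h2
    obtain ⟨p, hp, hpb, hpq⟩ := Nat.Prime.not_coprime_iff_dvd.1 h1
    apply hb
    funext x
    obtain ⟨r, hr⟩ := hpq
    have hp0 : 0 < p := hp.pos
    have hdiv : q / p = r := by rw [hr]; exact Nat.mul_div_cancel_left _ hp0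
    have h2 : ∀ j : ℕ, b * (((q / p : ℕ) : ZMod q) * (j : ZMod q)) = 0 := by
      intro j
      obtain ⟨s, hs⟩ := hpb
      have h3 : b * ((q / p : ℕ) : ZMod q) = 0 := by
        rw [← ZMod.natCast_zmod_val b, hs, hdiv]
        have h4 : ((p * s : ℕ) : ZMod q) * ((r : ℕ) : ZMod q) = ((p * r * s : ℕ) : ZMod q) := by
          push_cast; ring
        rw [h4, ← hr]
        push_cast
        rw [ZMod.natCast_self, zero_mul]
      rw [← mul_assoc, h3, zero_mul]
    have h3 : (p : ℂ) * QR2_c q v b x = 0 := by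
      have h4 : ∑ j ∈ Finset.range p,
          QR2_c q v b (x.1 + ((q / p : ℕ) : ZMod q) * (j : ZMod q) * x.2, x.2) =
          (p : ℂ) * QR2_c q v b x := by
        rw [Finset.sum_congr rfl fun j _ => by
          rw [QR2_c_shift, h2 j, AddChar.map_zero_eq_one, one_mul]]
        simp
      rw [← h4]
      unfold QR2_c
      rw [Finset.sum_comm]
      refine Finset.sum_eq_zero fun t _ => ?_
      rw [← Finset.mul_sum]
      have h5 := hav p hp ⟨r, hr⟩ (x.1 + t * x.2, x.2)
      simp only at h5 ⊢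
      rw [mul_eq_zero]
      right
      rw [← h5]
      refine Finset.sum_congr rfl fun j _ => ?_
      congr 2
      ring
    exact (mul_eq_zero.1 h3).resolve_left (by exact_mod_cast hp.ne_zero)
  obtain ⟨β, rfl⟩ := hbu
  -- the translation operator
  let U : Module.End ℂ (ZMod q × ZMod q → ℂ) :=
    { toFun := fun f x => f (x.1 + x.2, x.2)
      map_add' := fun _ _ => rfl
      map_smul' := fun _ _ => rfl }
  let I := {a : ZMod q // ∃ u : (ZMod q)ˣ, a = (u : ZMod q) ^ 2}
  let w : I → (ZMod q × ZMod q → ℂ) := fun a x =>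
    QR2_c q v (β : ZMod q) (gact q (QR2_d q a.2.choose) x)
  have hwV : ∀ a, w a ∈ V := fun a => hinv _ _ (hcV _)
  have hw : ∀ a : I, U.HasEigenvector (ZMod.stdAddChar ((β : ZMod q) * a.1)) (w a) := by
    intro a
    have ha := a.2.choose_spec
    set u := a.2.choose with hu
    rw [Module.End.hasEigenvector_iff, Module.End.mem_eigenspace_iff]
    constructor
    · funext x
      change QR2_c q v (β : ZMod q) (gact q (QR2_d q u) (x.1 + x.2, x.2)) =
        ZMod.stdAddChar ((β : ZMod q) * a.1) * QR2_c q v (β : ZMod q) (gact q (QR2_d q u) x)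
      rw [← QR2_c_shift, QR2_gact_d, QR2_gact_d, ha]
      congr 1
      ext
      · simp only
        have h1 : (u : ZMod q) ^ 2 * (((u⁻¹ : (ZMod q)ˣ) : ZMod q) * x.2) = u * x.2 := by
          rw [pow_two, ← mul_assoc, mul_assoc (u : ZMod q) u, Units.mul_inv, mul_one]
        rw [h1]; ring
      · rfl
    · intro h0
      apply hb
      funext x
      have h1 := congrFun h0 (((u⁻¹ : (ZMod q)ˣ) : ZMod q) * x.1, (u : ZMod q) * x.2)
      change QR2_c q v (β : ZMod q) (gact q (QR2_d q u) _) = 0 at h1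
      rw [QR2_gact_d] at h1
      simp only [← mul_assoc, Units.mul_inv, Units.inv_mul, one_mul] at h1
      exact h1
  have hinj : Function.Injective fun a : I => (ZMod.stdAddChar ((β : ZMod q) * a.1) : ℂ) := by
    intro a a' h
    have h1 := ZMod.injective_stdAddChar h
    exact Subtype.ext (β.isUnit.mul_left_cancel h1)
  have hli := Module.End.eigenvectors_linearIndependent' U _ hinj w hw
  have hli' : LinearIndependent ℂ (fun a : I => (⟨w a, hwV a⟩ : V)) :=
    LinearIndependent.of_comp V.subtype hli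
  rw [Nat.card_eq_fintype_card]
  exact hli'.fintype_card_le_finrank

theorem QR2_le_two (q : ℕ) [NeZero q] :
    (Finset.univ.filter fun z : ZMod q => 2 * z = 0).card ≤ 2 := by
  classical
  have hq : 0 < q := Nat.pos_of_ne_zero (NeZero.ne q)
  have h1 : (Finset.univ.filter fun z : ZMod q => 2 * z = 0) ⊆
      {(0 : ZMod q), ((q / 2 : ℕ) : ZMod q)} := by
    intro z hz
    have h2 : 2 * z = 0 := (Finset.mem_filter.1 hz).2
    have h3 : ((2 * z.val : ℕ) : ZMod q) = 0 := by
      push_cast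
      rw [ZMod.natCast_zmod_val]
      exact h2
    rw [ZMod.natCast_eq_zero_iff] at h3
    obtain ⟨k, hk⟩ := h3
    have h4 := ZMod.val_lt z
    have h5 : k < 2 := by
      by_contra h6
      push Not at h6
      have : q * 2 ≤ q * k := Nat.mul_le_mul_left _ h6
      omega
    rw [Finset.mem_insert, Finset.mem_singleton]
    interval_cases k
    · left
      have : z.val = 0 := by omega
      rwa [ZMod.val_eq_zero] at this
    · right
      have : z.val = q / 2 := by omega
      rw [← this, ZMod.natCast_zmod_val]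
  exact (Finset.card_le_card h1).trans Finset.card_le_two

theorem QR2_ker (q : ℕ) [NeZero q] :
    (Finset.univ.filter fun u : (ZMod q)ˣ => u ^ 2 = 1).card ≤ 2 * (Nat.divisors q).card := by
  classical
  have hq : q ≠ 0 := NeZero.ne q
  let f : (ZMod q)ˣ → ℕ := fun u => Nat.gcd q (((u : ZMod q) - 1).val)
  have hf : (Finset.univ.filter fun u : (ZMod q)ˣ => u ^ 2 = 1).image f ⊆ Nat.divisors q := by
    intro d hd
    obtain ⟨u, -, rfl⟩ := Finset.mem_image.1 hd
    exact Nat.mem_divisors.2 ⟨Nat.gcd_dvd_left _ _, hq⟩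
  refine (Finset.card_le_mul_card_image (f := f) _ 2 ?_).trans
    (Nat.mul_le_mul_left _ (Finset.card_le_card hf))
  intro d _
  rcases (Finset.filter (fun u => f u = d)
    (Finset.univ.filter fun u : (ZMod q)ˣ => u ^ 2 = 1)).eq_empty_or_nonempty with h0 | ⟨v, hv⟩
  · rw [h0]; simp
  have hv1 : v ^ 2 = 1 := (Finset.mem_filter.1 (Finset.mem_filter.1 hv).1).2
  have hv2 : f v = d := (Finset.mem_filter.1 hv).2
  refine le_trans ?_ (QR2_le_two q)
  refine Finset.card_le_card_of_injOn (fun u => (u : ZMod q) - v) ?_ ?_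
  · intro u hu
    have hu := Finset.mem_coe.1 hu
    have hu1 : u ^ 2 = 1 := (Finset.mem_filter.1 (Finset.mem_filter.1 hu).1).2
    have hu2 : f u = d := (Finset.mem_filter.1 hu).2
    have key : ∀ a b : (ZMod q)ˣ, b ^ 2 = 1 → f a = f b →
        ((a : ZMod q) - 1) * ((b : ZMod q) + 1) = 0 := by
      intro a b hb hab
      have h1 : ((((b : ZMod q) - 1).val * ((b : ZMod q) + 1).val : ℕ) : ZMod q) = 0 := by
        push_cast
        rw [ZMod.natCast_zmod_val, ZMod.natCast_zmod_val]
        have : ((b : ZMod q)) ^ 2 = 1 := by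
          rw [← Units.val_pow_eq_pow_val, hb, Units.val_one]
        linear_combination this
      rw [ZMod.natCast_eq_zero_iff] at h1
      have h2 : q ∣ Nat.gcd q (((b : ZMod q) - 1).val) * ((b : ZMod q) + 1).val := dvd_gcd_mul_of_dvd_mul h1
      have h3 : f b ∣ ((a : ZMod q) - 1).val := by
        rw [← hab]; exact Nat.gcd_dvd_right _ _
      have h4 : q ∣ ((a : ZMod q) - 1).val * ((b : ZMod q) + 1).val :=
        h2.trans (Nat.mul_dvd_mul_right h3 _)
      rw [← ZMod.natCast_eq_zero_iff] at h4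
      push_cast at h4
      rw [ZMod.natCast_zmod_val, ZMod.natCast_zmod_val] at h4
      exact h4
    have e1 := key u v hv1 (hu2.trans hv2.symm)
    have e2 := key v u hu1 (hv2.trans hu2.symm)
    rw [Finset.mem_coe, Finset.mem_filter]
    refine ⟨Finset.mem_univ _, ?_⟩
    linear_combination e1 - e2
  · intro u _ u' _ h
    have h' : (u : ZMod q) - v = (u' : ZMod q) - v := h
    exact Units.ext (sub_left_injective h')

theorem QR2_phi (q : ℕ) : q ≤ (Nat.divisors q).card * q.totient := by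
  rcases Nat.eq_zero_or_pos q with rfl | hq
  · simp
  conv_lhs => rw [← Nat.sum_totient q]
  rw [← smul_eq_mul]
  refine Finset.sum_le_card_nsmul _ _ _ fun d hd => ?_
  exact Nat.le_of_dvd (Nat.totient_pos.2 hq) (Nat.totient_dvd_of_dvd (Nat.dvd_of_mem_divisors hd))

/-- arithmetic: `q ≤ 2 τ(q)^2 #{squares of units}`.
Proof: `#{squares} = φ(q) / #{a : a^2 = 1}`; `#{a^2 = 1} ≤ 2 τ(q)` (map `a` to `g = gcd(a-1, q)`:
`a = 1 mod g`, `a = -1 mod q/g`, and `gcd(g, q/g) ∣ 2`, so at most two `a` for each `g`);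
`φ(q) τ(q) ≥ q` (multiplicative, prime powers). -/
theorem le_card_squares (q : ℕ) [NeZero q] :
    (q : ℝ) ≤ 2 * ((Nat.divisors q).card : ℝ) ^ 2 *
      (Nat.card {a : ZMod q // ∃ u : (ZMod q)ˣ, a = (u : ZMod q) ^ 2} : ℝ) := by
  classical
  let φ : (ZMod q)ˣ →* (ZMod q)ˣ := powMonoidHom 2
  have h1 : Nat.card φ.ker = (Finset.univ.filter fun u : (ZMod q)ˣ => u ^ 2 = 1).card := by
    rw [Nat.card_eq_fintype_card, Fintype.card_subtype]
    congr 1
    ext u
    simp [φ, MonoidHom.mem_ker]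
  have h2 : Nat.card φ.range = Nat.card {a : ZMod q // ∃ u : (ZMod q)ˣ, a = (u : ZMod q) ^ 2} := by
    refine Nat.card_congr ⟨fun x => ⟨((x : (ZMod q)ˣ) : ZMod q), ?_⟩, fun y => ⟨y.2.choose ^ 2, ⟨y.2.choose, rfl⟩⟩, ?_, ?_⟩
    · obtain ⟨u, hu⟩ := x.2
      refine ⟨u, ?_⟩
      rw [← hu]
      simp [φ]
    · intro x
      apply Subtype.ext
      apply Units.ext
      obtain ⟨u, hu⟩ := x.2
      have h3 : ∃ u : (ZMod q)ˣ, ((x : (ZMod q)ˣ) : ZMod q) = (u : ZMod q) ^ 2 := ⟨u, by
        rw [← hu]; simp [φ]⟩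
      have := h3.choose_spec
      push_cast
      exact this.symm
    · intro y
      apply Subtype.ext
      have := y.2.choose_spec
      push_cast
      exact this.symm
  have h3 : Nat.card φ.range * Nat.card φ.ker = q.totient := by
    rw [← ZMod.card_units_eq_totient, ← Nat.card_eq_fintype_card, mul_comm,
      ← Subgroup.card_mul_index φ.ker, Subgroup.index_ker]
  have h4 := QR2_ker q
  have h5 := QR2_phi q
  rw [← h1] at h4
  rw [← h2]
  have h6 : q ≤ 2 * (Nat.divisors q).card ^ 2 * Nat.card φ.range := by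
    calc q ≤ (Nat.divisors q).card * q.totient := h5
      _ = (Nat.divisors q).card * (Nat.card φ.range * Nat.card φ.ker) := by rw [h3]
      _ ≤ (Nat.divisors q).card * (Nat.card φ.range * (2 * (Nat.divisors q).card)) := by gcongr
      _ = _ := by ring
  exact_mod_cast h6

end Pool.Agent.W_f50700_h3
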