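import Pool.Agent.W_f50700_h3.Nrm

/-!
QR3: existence of a primitive vector (row 436, L5, the claim).
-/

open Matrix

namespace Pool.Agent.W_f50700_h3

/-- the `p`-average operator of the unipotent subgroup -/
noncomputable def unip (q p : ℕ) (v : ZMod q × ZMod q → ℂ) : ZMod q × ZMod q → ℂ :=
  fun x => (1 / (p : ℂ)) * ∑ j ∈ Finset.range p,
    v (x.1 + ((q / p : ℕ) : ZMod q) * (j : ZMod q) * x.2, x.2)

/-- `(q/p) a` depends only on `a` mod `p` -/
theorem QR3_Q (q p : ℕ) (hp : p.Prime) (hpq : p ∣ q) (a b : ZMod q)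
    (h : ZMod.castHom hpq (ZMod p) a = ZMod.castHom hpq (ZMod p) b) :
    ((q / p : ℕ) : ZMod q) * a = ((q / p : ℕ) : ZMod q) * b := by
  obtain ⟨x, rfl⟩ := ZMod.intCast_surjective a
  obtain ⟨y, rfl⟩ := ZMod.intCast_surjective b
  rw [map_intCast, map_intCast, ← sub_eq_zero, ← Int.cast_sub, ZMod.intCast_zmod_eq_zero_iff_dvd] at h
  obtain ⟨r, hr⟩ := hpq
  obtain ⟨s, hs⟩ := h
  have hdiv : q / p = r := by rw [hr]; exact Nat.mul_div_cancel_left _ hp.pos
  rw [← sub_eq_zero, ← mul_sub, ← Int.cast_sub, hs, hdiv]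
  have h1 : ((r : ℕ) : ZMod q) * (((p : ℤ) * s : ℤ) : ZMod q) = ((p * r : ℕ) : ZMod q) * (s : ZMod q) := by
    push_cast; ring
  rw [h1, ← hr, ZMod.natCast_self, zero_mul]

theorem QR3_exists_pair {K : Type*} [Field K] (a b : K × K) (ha : a ≠ 0) (hb : b ≠ 0) :
    ∃ c : ℤ × ℤ, (c.1 : K) * a.2 - (c.2 : K) * a.1 ≠ 0 ∧ (c.1 : K) * b.2 - (c.2 : K) * b.1 ≠ 0 := by
  obtain ⟨a1, a2⟩ := a
  obtain ⟨b1, b2⟩ := b
  by_cases h2 : a2 ≠ 0 ∧ b2 ≠ 0
  · exact ⟨(1, 0), by simpa using h2.1, by simpa using h2.2⟩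
  by_cases h1 : a1 ≠ 0 ∧ b1 ≠ 0
  · exact ⟨(0, 1), by simpa using h1.1, by simpa using h1.2⟩
  refine ⟨(1, 1), ?_⟩
  simp only [Int.cast_one, one_mul]
  simp only [ne_eq, Prod.mk_eq_zero, not_and] at ha hb
  by_cases ha2 : a2 = 0
  · have ha1 : a1 ≠ 0 := fun h => ha h ha2
    have hb1 : b1 = 0 := by
      by_contra h
      exact h1 ⟨ha1, h⟩
    have hb2 : b2 ≠ 0 := hb hb1
    constructor
    · rw [ha2, zero_sub]; exact neg_ne_zero.2 ha1
    · rw [hb1, sub_zero]; exact hb2
  · have hb2 : b2 = 0 := by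
      by_contra h
      exact h2 ⟨ha2, h⟩
    have hb1 : b1 ≠ 0 := fun h => hb h hb2
    have ha1 : a1 = 0 := by
      by_contra h
      exact h1 ⟨h, hb1⟩
    constructor
    · rw [ha1, sub_zero]; exact ha2
    · rw [hb2, zero_sub]; exact neg_ne_zero.2 hb1

/-- the transvection moves: a new function which is invariant under all maps
`x ↦ x + (q/p) j det(w, x) w` for all `w` with integer coordinates not both divisible by `p` is
zero.  Proof: these maps connect any two primitive vectors in the same class mod `q/p`: to go from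
`x` to `x + (q/p) y` with `det(y, x)` prime to `p` take `w = y`; if `det(y, x) = 0 mod p` go
through `x + (q/p) y1` with `det(y1, x)` prime to `p`.  So the function is constant on the primitive
vectors of each class, and the class sums vanish. -/
theorem new_eq_zero_of_transvections (q p : ℕ) [NeZero q] (hp : p.Prime) (hpq : p ∣ q)
    (h : ZMod q × ZMod q → ℂ) (hh : IsNew q h)
    (hinv : ∀ w : ℤ × ℤ, ¬ ((p : ℤ) ∣ w.1 ∧ (p : ℤ) ∣ w.2) → ∀ j : ℕ, ∀ x : ZMod q × ZMod q,
      h (x.1 + ((q / p : ℕ) : ZMod q) * (j : ZMod q) * ((w.1 : ZMod q) * x.2 - (w.2 : ZMod q) * x.1) *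
          (w.1 : ZMod q),
        x.2 + ((q / p : ℕ) : ZMod q) * (j : ZMod q) * ((w.1 : ZMod q) * x.2 - (w.2 : ZMod q) * x.1) *
          (w.2 : ZMod q)) = h x) :
    h = 0 := by
  classical
  have : Fact p.Prime := ⟨hp⟩
  set Q : ZMod q := ((q / p : ℕ) : ZMod q) with hQ
  let r := ZMod.castHom hpq (ZMod p)
  have hr : ∀ z : ℤ, r (z : ZMod q) = (z : ZMod p) := fun z => map_intCast r z
  -- direct moves
  have conn : ∀ (x : ZMod q × ZMod q) (y : ℤ × ℤ),
      r ((y.1 : ZMod q) * x.2 - (y.2 : ZMod q) * x.1) ≠ 0 →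
      h (x.1 + Q * (y.1 : ZMod q), x.2 + Q * (y.2 : ZMod q)) = h x := by
    intro x y hy
    have hw : ¬ ((p : ℤ) ∣ y.1 ∧ (p : ℤ) ∣ y.2) := by
      rintro ⟨h1, h2⟩
      apply hy
      rw [map_sub, map_mul, map_mul, hr, hr, (ZMod.intCast_zmod_eq_zero_iff_dvd _ _).2 h1,
        (ZMod.intCast_zmod_eq_zero_iff_dvd _ _).2 h2]
      ring
    set D := (y.1 : ZMod q) * x.2 - (y.2 : ZMod q) * x.1 with hD
    let j : ℕ := ((r D)⁻¹).val
    have hj : Q * ((j : ZMod q) * D) = Q * 1 := by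
      apply QR3_Q q p hp hpq
      change r _ = r _
      rw [map_mul, map_natCast, map_one]
      simp only [j]
      rw [ZMod.natCast_zmod_val, inv_mul_cancel₀ hy]
    have h1 := hinv y hw j x
    rw [← hD] at h1
    rw [← h1]
    congr 2
    · linear_combination (-(y.1 : ZMod q)) * hj
    · linear_combination (-(y.2 : ZMod q)) * hj
  have hprim : ∀ x : ZMod q × ZMod q, IsCoprime x.1 x.2 → ((r x.1, r x.2) : ZMod p × ZMod p) ≠ 0 := by
    intro x hx h0
    have h1 := hx.map r
    rw [Prod.mk_eq_zero] at h0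
    rw [h0.1, h0.2] at h1
    exact absurd (isCoprime_zero_left.1 h1) not_isUnit_zero
  -- primitive vectors of the same class
  have conn2 : ∀ (x : ZMod q × ZMod q) (y : ℤ × ℤ), IsCoprime x.1 x.2 →
      IsCoprime (x.1 + Q * (y.1 : ZMod q)) (x.2 + Q * (y.2 : ZMod q)) →
      h (x.1 + Q * (y.1 : ZMod q), x.2 + Q * (y.2 : ZMod q)) = h x := by
    intro x y hx hx'
    by_cases hy : r ((y.1 : ZMod q) * x.2 - (y.2 : ZMod q) * x.1) = 0
    · obtain ⟨c, hc1, hc2⟩ := QR3_exists_pair _ _ (hprim x hx)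
        (hprim (x.1 + Q * (y.1 : ZMod q), x.2 + Q * (y.2 : ZMod q)) hx')
      have e1 := conn x c (by
        rw [map_sub, map_mul, map_mul, hr, hr]; exact hc1)
      have e2 := conn (x.1 + Q * (c.1 : ZMod q), x.2 + Q * (c.2 : ZMod q)) (y.1 - c.1, y.2 - c.2) (by
        have h1 : (((y.1 - c.1 : ℤ) : ZMod q) * (x.2 + Q * (c.2 : ZMod q)) -
            ((y.2 - c.2 : ℤ) : ZMod q) * (x.1 + Q * (c.1 : ZMod q))) =
            ((y.1 : ZMod q) * x.2 - (y.2 : ZMod q) * x.1) -
            ((c.1 : ZMod q) * (x.2 + Q * (y.2 : ZMod q)) - (c.2 : ZMod q) * (x.1 + Q * (y.1 : ZMod q))) := by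
          push_cast; ring
        simp only
        rw [h1, map_sub, hy, zero_sub]
        refine neg_ne_zero.2 ?_
        rw [map_sub, map_mul, map_mul (f := r) (c.2 : ZMod q), hr, hr]
        exact hc2)
      rw [← e1, ← e2]
      congr 2
      · push_cast; ring
      · push_cast; ring
    · exact conn x y hy
  funext x
  by_cases hx : IsCoprime x.1 x.2
  · have h1 := hh.2 p hp hpq x
    have h2 : ∀ i j : ℕ, h (x.1 + Q * (i : ZMod q), x.2 + Q * (j : ZMod q)) =
        if IsCoprime (x.1 + Q * (i : ZMod q)) (x.2 + Q * (j : ZMod q)) then h x else 0 := by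
      intro i j
      split_ifs with hc
      · have := conn2 x (i, j) hx (by push_cast; exact hc)
        push_cast at this
        exact this
      · exact hh.1 _ hc
    rw [Finset.sum_congr rfl fun i _ => Finset.sum_congr rfl fun j _ => h2 i j] at h1
    have h3 : ∑ i ∈ Finset.range p, ∑ j ∈ Finset.range p,
        (if IsCoprime (x.1 + Q * (i : ZMod q)) (x.2 + Q * (j : ZMod q)) then h x else 0) =
        ((∑ i ∈ Finset.range p, ∑ j ∈ Finset.range p,
        (if IsCoprime (x.1 + Q * (i : ZMod q)) (x.2 + Q * (j : ZMod q)) then 1 else 0) : ℕ) : ℂ) * h x := by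
      push_cast
      rw [Finset.sum_mul]
      refine Finset.sum_congr rfl fun i _ => ?_
      rw [Finset.sum_mul]
      refine Finset.sum_congr rfl fun j _ => ?_
      split_ifs <;> simp
    rw [h3] at h1
    rcases mul_eq_zero.1 h1 with h4 | h4
    · exfalso
      rw [Nat.cast_eq_zero] at h4
      have h5 := Finset.sum_eq_zero_iff.1 h4 0 (Finset.mem_range.2 hp.pos)
      have h6 := Finset.sum_eq_zero_iff.1 h5 0 (Finset.mem_range.2 hp.pos)
      simp only [Nat.cast_zero, mul_zero, add_zero] at h6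
      rw [if_pos hx] at h6
      exact one_ne_zero h6
    · exact h4
  · exact hh.1 x hx

/-- translation by the unipotent group -/
def QR3_A (q : ℕ) (t : ZMod q) (v : ZMod q × ZMod q → ℂ) : ZMod q × ZMod q → ℂ :=
  fun x => v (x.1 + t * x.2, x.2)

theorem QR3_A_A (q : ℕ) (t s : ZMod q) (v : ZMod q × ZMod q → ℂ) :
    QR3_A q t (QR3_A q s v) = QR3_A q (t + s) v := by
  funext x
  simp only [QR3_A]
  congr 2
  ring

theorem QR3_unip (q p : ℕ) (v : ZMod q × ZMod q → ℂ) :
    unip q p v = fun x => (1 / (p : ℂ)) * ∑ j ∈ Finset.range p,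
      QR3_A q (((q / p : ℕ) : ZMod q) * (j : ZMod q)) v x := rfl

theorem QR3_shift (q p : ℕ) (hpq : p ∣ q) (hp : p.Prime) (v : ZMod q × ZMod q → ℂ) (i : ℕ) :
    QR3_A q (((q / p : ℕ) : ZMod q) * (i : ZMod q)) (unip q p v) = unip q p v := by
  set Q : ZMod q := ((q / p : ℕ) : ZMod q) with hQ
  have hQp : Q * (p : ZMod q) = 0 := by
    obtain ⟨r, hr⟩ := hpq
    have hdiv : q / p = r := by rw [hr]; exact Nat.mul_div_cancel_left _ hp.pos
    rw [hQ, hdiv, ← Nat.cast_mul, mul_comm, ← hr, ZMod.natCast_self]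
  have h1 : QR3_A q Q (unip q p v) = unip q p v := by
    funext x
    have e1 : QR3_A q Q (unip q p v) x = (1 / (p : ℂ)) * ∑ j ∈ Finset.range p,
        QR3_A q (Q * ((j + 1 : ℕ) : ZMod q)) v x := by
      simp only [QR3_A, QR3_unip]
      congr 1
      refine Finset.sum_congr rfl fun j _ => ?_
      congr 2
      push_cast
      ring
    have e2 : unip q p v x = (1 / (p : ℂ)) * ∑ j ∈ Finset.range p,
        QR3_A q (Q * ((j : ℕ) : ZMod q)) v x := rfl
    rw [e1, e2]
    congr 1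
    have e3 := Finset.sum_range_succ (fun j : ℕ => QR3_A q (Q * (j : ZMod q)) v x) p
    have e4 := Finset.sum_range_succ' (fun j : ℕ => QR3_A q (Q * (j : ZMod q)) v x) p
    rw [e3] at e4
    simp only [hQp, Nat.cast_zero, mul_zero] at e4
    exact (add_right_cancel e4).symm
  induction i with
  | zero =>
    funext x
    simp [QR3_A]
  | succ i ih =>
    have e : Q * ((i + 1 : ℕ) : ZMod q) = Q * (i : ZMod q) + Q := by push_cast; ring
    rw [e, ← QR3_A_A, h1, ih]

theorem QR3_unip_unip (q p : ℕ) (hpq : p ∣ q) (hp : p.Prime) (v : ZMod q × ZMod q → ℂ) :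
    unip q p (unip q p v) = unip q p v := by
  funext x
  rw [QR3_unip q p (unip q p v)]
  simp only [QR3_shift q p hpq hp v]
  rw [Finset.sum_const, Finset.card_range, nsmul_eq_mul, ← mul_assoc, one_div,
    inv_mul_cancel₀ (by exact_mod_cast hp.ne_zero), one_mul]

theorem QR3_unip_comm (q p p' : ℕ) (v : ZMod q × ZMod q → ℂ) :
    unip q p (unip q p' v) = unip q p' (unip q p v) := by
  funext x
  simp only [unip]
  rw [← Finset.mul_sum, ← Finset.mul_sum, Finset.sum_comm]
  rw [mul_left_comm]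
  congr 2
  refine Finset.sum_congr rfl fun i _ => Finset.sum_congr rfl fun j _ => ?_
  congr 2
  ring

theorem QR3_unip_sub (q p : ℕ) (v w : ZMod q × ZMod q → ℂ) :
    unip q p (v - w) = unip q p v - unip q p w := by
  funext x
  simp only [unip, Pi.sub_apply]
  rw [Finset.sum_sub_distrib, mul_sub]

/-- the element of `SL2` supported at `p` with prescribed first column mod `p` -/
theorem QR3_elt (q p : ℕ) [NeZero q] (hp : p.Prime) (hpq : p ∣ q) (w : ℤ × ℤ)
    (hw : ¬ ((p : ℤ) ∣ w.1 ∧ (p : ℤ) ∣ w.2)) :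
    ∃ (g : SpecialLinearGroup (Fin 2) (ZMod q)) (e m0 m1 m2 m3 : ZMod q),
      (g.1 0 0 = 1 + e * m0 ∧ g.1 0 1 = e * m1 ∧ g.1 1 0 = e * m2 ∧ g.1 1 1 = 1 + e * m3) ∧
      ((q / p : ℕ) : ZMod q) * g.1 0 0 = ((q / p : ℕ) : ZMod q) * w.1 ∧
      ((q / p : ℕ) : ZMod q) * g.1 1 0 = ((q / p : ℕ) : ZMod q) * w.2 ∧
      ∀ p' : ℕ, p'.Prime → p' ∣ q → p' ≠ p → ((q / p' : ℕ) : ZMod q) * e = 0 := by
  have hq : q ≠ 0 := NeZero.ne q
  obtain ⟨k, m, hm, hqm⟩ := Nat.exists_eq_pow_mul_and_not_dvd hq p hp.ne_one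
  have hk : k ≠ 0 := by
    rintro rfl
    rw [pow_zero, one_mul] at hqm
    exact hm (hqm ▸ hpq)
  have hcop : IsCoprime ((p ^ k : ℕ) : ℤ) (m : ℤ) :=
    Nat.isCoprime_iff_coprime.2 (Nat.Coprime.pow_left k ((Nat.Prime.coprime_iff_not_dvd hp).2 hm))
  obtain ⟨α, β, hαβ⟩ := hcop
  let e : ZMod q := ((β * m : ℤ) : ZMod q)
  have he1 : 1 - e = ((α * (p ^ k : ℕ) : ℤ) : ZMod q) := by
    have := congrArg (fun z : ℤ => (z : ZMod q)) hαβ
    simp only [e]
    push_cast at this ⊢
    rw [← this]; ring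
  have hq0 : ((p ^ k : ℕ) : ZMod q) * (m : ZMod q) = 0 := by
    rw [← Nat.cast_mul, ← hqm, ZMod.natCast_self]
  have hee : e * (1 - e) = 0 := by
    rw [he1]
    simp only [e]
    push_cast at hq0 ⊢
    linear_combination ((β : ZMod q) * α) * hq0
  have hep : e * ((p ^ k : ℕ) : ZMod q) = 0 := by
    simp only [e]
    push_cast at hq0 ⊢
    linear_combination ((β : ZMod q)) * hq0
  have hQe : ((q / p : ℕ) : ZMod q) * e = ((q / p : ℕ) : ZMod q) := by
    have h1 : ((q / p : ℕ) : ZMod q) * (1 - e) = 0 := by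
      rw [he1]
      obtain ⟨k', rfl⟩ : ∃ k', k = k' + 1 := ⟨k - 1, by omega⟩
      have h2 : ((q / p : ℕ) : ZMod q) * (p : ZMod q) = 0 := by
        rw [← Nat.cast_mul, Nat.div_mul_cancel hpq, ZMod.natCast_self]
      push_cast
      rw [pow_succ]
      linear_combination ((α : ZMod q) * (p : ZMod q) ^ k') * h2
    linear_combination -h1
  have hQ' : ∀ p' : ℕ, p'.Prime → p' ∣ q → p' ≠ p → ((q / p' : ℕ) : ZMod q) * e = 0 := by
    intro p' hp' hp'q hne
    have h1 : p' ∣ m := by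
      rw [hqm] at hp'q
      rcases (Nat.Prime.dvd_mul hp').1 hp'q with h | h
      · exact absurd ((Nat.prime_dvd_prime_iff_eq hp' hp).1 (hp'.dvd_of_dvd_pow h)) hne
      · exact h
    obtain ⟨m', rfl⟩ := h1
    have h2 : q / p' = p ^ k * m' := by
      rw [hqm]
      rw [show p ^ k * (p' * m') = p' * (p ^ k * m') by ring]
      exact Nat.mul_div_cancel_left _ hp'.pos
    rw [h2]
    simp only [e]
    push_cast at hq0 ⊢
    linear_combination ((β : ZMod q) * m') * hq0
  -- inverses mod `p^k`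
  have hinv : ∀ z : ℤ, ¬ (p : ℤ) ∣ z → ∃ z' : ℤ, e * ((z : ZMod q) * z') = e := by
    intro z hz
    have h1 : IsCoprime z ((p ^ k : ℕ) : ℤ) := by
      push_cast
      refine IsCoprime.pow_right ?_
      rw [isCoprime_comm]
      exact (Nat.prime_iff_prime_int.1 hp).coprime_iff_not_dvd.2 hz
    obtain ⟨a, b, hab⟩ := h1
    refine ⟨a, ?_⟩
    have := congrArg (fun z : ℤ => (z : ZMod q)) hab
    push_cast at this hep
    linear_combination e * this - (b : ZMod q) * hep
  by_cases h1 : (p : ℤ) ∣ w.1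
  · have h2 : ¬ (p : ℤ) ∣ w.2 := fun h => hw ⟨h1, h⟩
    obtain ⟨z', hz'⟩ := hinv w.2 h2
    refine ⟨⟨!![1 + e * ((w.1 : ZMod q) - 1), e * (-z'); e * w.2, 1 + e * (-1)], ?_⟩, e,
      (w.1 : ZMod q) - 1, -z', w.2, -1, ⟨rfl, rfl, rfl, rfl⟩, ?_, ?_, hQ'⟩
    · rw [Matrix.det_fin_two_of]
      linear_combination ((w.1 : ZMod q) - 1 - (w.2 : ZMod q) * z') * hee + hz'
    · change ((q / p : ℕ) : ZMod q) * (1 + e * ((w.1 : ZMod q) - 1)) = _
      linear_combination ((w.1 : ZMod q) - 1) * hQe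
    · change ((q / p : ℕ) : ZMod q) * (e * w.2) = _
      linear_combination (w.2 : ZMod q) * hQe
  · obtain ⟨z', hz'⟩ := hinv w.1 h1
    refine ⟨⟨!![1 + e * ((w.1 : ZMod q) - 1), e * 0; e * w.2, 1 + e * (z' - 1)], ?_⟩, e,
      (w.1 : ZMod q) - 1, 0, w.2, z' - 1, ⟨rfl, rfl, rfl, rfl⟩, ?_, ?_, hQ'⟩
    · rw [Matrix.det_fin_two_of]
      linear_combination (-((w.1 : ZMod q) - 1) * (z' - 1)) * hee + hz'
    · change ((q / p : ℕ) : ZMod q) * (1 + e * ((w.1 : ZMod q) - 1)) = _
      linear_combination ((w.1 : ZMod q) - 1) * hQe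
    · change ((q / p : ℕ) : ZMod q) * (e * w.2) = _
      linear_combination (w.2 : ZMod q) * hQe

/-- Claim: every nonzero invariant subspace of new functions contains a nonzero `v` whose averages
`unip q p v` vanish for all primes `p ∣ q`.
Proof: induction over finite sets `S` of primes dividing `q`: `V_S = {v ∈ V : unip q p v = 0 for
p ∈ S} ≠ 0`.  For `p ∉ S` let `ε ∈ ZMod q` be the idempotent with `ε = 1 mod p^k`,
`ε = 0 mod q/p^k` (`p^k` the exact power); for `g ∈ SL2(Z/q)` the matrix `(1-ε) + ε g` is in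
`SL2(Z/q)` and commutes with `n(t)`, `t ∈ (q/p') Z`, `p' ≠ p`, because `ε (q/p') = 0`; so it
preserves `V_S`.  If `V_{S+p} = 0` then `unip q p = id` on `V_S` (it is a projection mapping `V_S`
to itself), so all `v ∈ V_S` are invariant under `n(t)`, `t ∈ (q/p) Z`, and under its conjugates by
`(1-ε) + ε g`, which are the transvections of `new_eq_zero_of_transvections` (`(1-ε) (q/p) = 0`, and
every `w` nonzero mod `p` is congruent mod `p` to the first column of some `g ∈ SL2(Z/q)`):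
`V_S = 0`, a contradiction. -/
theorem exists_primitive (q : ℕ) [NeZero q] (V : Submodule ℂ (ZMod q × ZMod q → ℂ))
    (hV : V ≠ ⊥) (hnew : ∀ h ∈ V, IsNew q h)
    (hinv : ∀ g : SpecialLinearGroup (Fin 2) (ZMod q), ∀ h ∈ V, (fun x => h (gact q g x)) ∈ V) :
    ∃ v ∈ V, v ≠ 0 ∧ ∀ p : ℕ, p.Prime → p ∣ q → unip q p v = 0 := by
  classical
  have hq : q ≠ 0 := NeZero.ne q
  -- the unipotent averages preserve `V`
  have hAV : ∀ t : ZMod q, ∀ v ∈ V, QR3_A q t v ∈ V := by
    intro t v hv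
    have h1 := hinv ⟨!![1, t; 0, 1], by simp [Matrix.det_fin_two]⟩ v hv
    have h2 : (fun x => v (gact q ⟨!![1, t; 0, 1], by simp [Matrix.det_fin_two]⟩ x)) =
        QR3_A q t v := by
      funext x
      simp [gact, QR3_A]
    rwa [h2] at h1
  have hUV : ∀ p : ℕ, ∀ v ∈ V, unip q p v ∈ V := by
    intro p v hv
    have h1 : unip q p v = (1 / (p : ℂ)) • ∑ j ∈ Finset.range p,
        QR3_A q (((q / p : ℕ) : ZMod q) * (j : ZMod q)) v := by
      funext x
      rw [QR3_unip, Pi.smul_apply, Finset.sum_apply, smul_eq_mul]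
    rw [h1]
    exact Submodule.smul_mem _ _ (Submodule.sum_mem _ fun j _ => hAV _ v hv)
  have key : ∀ S : Finset ℕ, S ⊆ q.primeFactors →
      ∃ v ∈ V, v ≠ 0 ∧ ∀ p ∈ S, unip q p v = 0 := by
    intro S
    induction S using Finset.induction_on with
    | empty =>
      intro _
      obtain ⟨v, hv, hv0⟩ := Submodule.exists_mem_ne_zero_of_ne_bot hV
      exact ⟨v, hv, hv0, by simp⟩
    | insert p S hpS ih =>
      intro hS
      have hpq' : p ∈ q.primeFactors := hS (Finset.mem_insert_self _ _)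
      have hp : p.Prime := Nat.prime_of_mem_primeFactors hpq'
      have hpq : p ∣ q := Nat.dvd_of_mem_primeFactors hpq'
      obtain ⟨v, hv, hv0, hvS⟩ := ih ((Finset.subset_insert _ _).trans hS)
      by_contra hcon
      push Not at hcon
      -- every element of `V_S` is fixed by the average
      have hfix : ∀ u ∈ V, (∀ p' ∈ S, unip q p' u = 0) → unip q p u = u := by
        intro u hu huS
        by_contra hne
        have h1 : u - unip q p u ≠ 0 := fun h => hne (sub_eq_zero.1 h).symm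
        obtain ⟨p', hp', h2⟩ := hcon _ (V.sub_mem hu (hUV p u hu)) h1
        apply h2
        rw [QR3_unip_sub]
        rcases Finset.mem_insert.1 hp' with rfl | h3
        · rw [QR3_unip_unip q _ hpq hp, sub_self]
        · rw [QR3_unip_comm, huS p' h3]
          funext x
          simp [unip]
      apply hv0
      apply new_eq_zero_of_transvections q p hp hpq v (hnew v hv)
      intro w hw j x
      obtain ⟨g, e, m0, m1, m2, m3, ⟨hg0, hg1, hg2, hg3⟩, hQ1, hQ2, hQ'⟩ :=
        QR3_elt q p hp hpq w hw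
      have hdet : g.1 0 0 * g.1 1 1 - g.1 0 1 * g.1 1 0 = 1 := by
        rw [← Matrix.det_fin_two]; exact g.2
      set u : ZMod q × ZMod q → ℂ := fun x => v (gact q g x) with hu
      have huV : u ∈ V := hinv g v hv
      have huS : ∀ p' ∈ S, unip q p' u = 0 := by
        intro p' hp'
        have hp'q := hS (Finset.mem_insert_of_mem hp')
        have hp'P : p'.Prime := Nat.prime_of_mem_primeFactors hp'q
        have hp'd : p' ∣ q := Nat.dvd_of_mem_primeFactors hp'q
        have hne : p' ≠ p := fun h => hpS (h ▸ hp')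
        have hQe := hQ' p' hp'P hp'd hne
        funext y
        have h3 := congrFun (hvS p' hp') (gact q g y)
        simp only [unip] at h3 ⊢
        refine Eq.trans ?_ h3
        congr 1
        refine Finset.sum_congr rfl fun i _ => ?_
        simp only [hu]
        congr 1
        ext
        · simp only [gact]
          rw [hg0, hg1, hg2, hg3]
          linear_combination ((i : ZMod q) * (m0 * y.2 - m2 * y.1 - m3 * y.2)) * hQe
        · simp only [gact]
          rw [hg2, hg3]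
          linear_combination ((i : ZMod q) * m2 * y.2) * hQe
      have hufix := hfix u huV huS
      have h4 := QR3_shift q p hpq hp u j
      rw [hufix] at h4
      have h5 := congrFun h4 (g.1 1 1 * x.1 - g.1 0 1 * x.2, g.1 0 0 * x.2 - g.1 1 0 * x.1)
      simp only [QR3_A, hu] at h5
      have h6 : gact q g (g.1 1 1 * x.1 - g.1 0 1 * x.2, g.1 0 0 * x.2 - g.1 1 0 * x.1) = x := by
        ext
        · simp only [gact]
          linear_combination x.1 * hdet
        · simp only [gact]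
          linear_combination x.2 * hdet
      rw [h6] at h5
      rw [← h5]
      congr 1
      ext
      · simp only [gact]
        linear_combination (-(x.1)) * hdet - ((j : ZMod q) * (g.1 0 0 * x.2 - g.1 1 0 * x.1)) * hQ1
          - ((j : ZMod q) * w.1 * x.2) * hQ1 + ((j : ZMod q) * w.1 * x.1) * hQ2
      · simp only [gact]
        linear_combination (-(x.2)) * hdet - ((j : ZMod q) * (g.1 0 0 * x.2 - g.1 1 0 * x.1)) * hQ2
          - ((j : ZMod q) * w.2 * x.2) * hQ1 + ((j : ZMod q) * w.2 * x.1) * hQ2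
  obtain ⟨v, hv, hv0, hvS⟩ := key q.primeFactors (Finset.Subset.refl _)
  exact ⟨v, hv, hv0, fun p hp hpq => hvS p (Nat.mem_primeFactors.2 ⟨hp, hpq, hq⟩)⟩

end Pool.Agent.W_f50700_h3
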