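import Pool.Agent.W_f50700_h3.QR1
import Pool.Agent.W_f50700_h3.QR2
import Pool.Agent.W_f50700_h3.QR3

/-!
QR: quasirandomness of new functions (row 436, L5), assembly.
-/

open Matrix

namespace Pool.Agent.W_f50700_h3

/-- `card SL2(Z/q) ≤ q^3`: three entries determine the fourth up to ... ; e.g. the map
`g ↦ (first column, ...)`: for a given first column (at most `q^2`, primitive) the matrices with
that first column form one coset of `{n(t)}`, `q` elements. -/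
theorem card_SL2_le (q : ℕ) [NeZero q] :
    Fintype.card (SpecialLinearGroup (Fin 2) (ZMod q)) ≤ q ^ 3 := by
  classical
  let f : SpecialLinearGroup (Fin 2) (ZMod q) → ZMod q × ZMod q := fun g => (g.1 0 0, g.1 1 0)
  have h1 : (Finset.univ : Finset (SpecialLinearGroup (Fin 2) (ZMod q))).card ≤
      q * ((Finset.univ : Finset (SpecialLinearGroup (Fin 2) (ZMod q))).image f).card := by
    refine Finset.card_le_mul_card_image (f := f) _ q ?_
    intro d _
    rcases (Finset.filter (fun g => f g = d)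
      (Finset.univ : Finset (SpecialLinearGroup (Fin 2) (ZMod q)))).eq_empty_or_nonempty with
      h0 | ⟨g0, hg0⟩
    · rw [h0]; simp
    have hg0 := (Finset.mem_filter.1 hg0).2
    have h2 : q = (Finset.univ : Finset (ZMod q)).card := by
      rw [Finset.card_univ, ZMod.card]
    conv_rhs => rw [h2]
    refine Finset.card_le_card_of_injOn (fun g => g0.1 1 1 * g.1 0 1 - g0.1 0 1 * g.1 1 1)
      (fun _ _ => Finset.mem_coe.2 (Finset.mem_univ _)) ?_
    intro g hg g' hg' hgg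
    have hg := (Finset.mem_filter.1 (Finset.mem_coe.1 hg)).2
    have hg' := (Finset.mem_filter.1 (Finset.mem_coe.1 hg')).2
    have e0 : g0.1 0 0 = d.1 := congrArg Prod.fst hg0
    have e0' : g0.1 1 0 = d.2 := congrArg Prod.snd hg0
    have e1 : g.1 0 0 = d.1 := congrArg Prod.fst hg
    have e1' : g.1 1 0 = d.2 := congrArg Prod.snd hg
    have e2 : g'.1 0 0 = d.1 := congrArg Prod.fst hg'
    have e2' : g'.1 1 0 = d.2 := congrArg Prod.snd hg'
    have d0 : g0.1 0 0 * g0.1 1 1 - g0.1 0 1 * g0.1 1 0 = 1 := by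
      rw [← Matrix.det_fin_two]; exact g0.2
    have d1 : g.1 0 0 * g.1 1 1 - g.1 0 1 * g.1 1 0 = 1 := by
      rw [← Matrix.det_fin_two]; exact g.2
    have d2 : g'.1 0 0 * g'.1 1 1 - g'.1 0 1 * g'.1 1 0 = 1 := by
      rw [← Matrix.det_fin_two]; exact g'.2
    rw [e0, e0'] at d0
    rw [e1, e1'] at d1
    rw [e2, e2'] at d2
    have hgg : g0.1 1 1 * g.1 0 1 - g0.1 0 1 * g.1 1 1 =
      g0.1 1 1 * g'.1 0 1 - g0.1 0 1 * g'.1 1 1 := hgg
    have h01 : g.1 0 1 = g'.1 0 1 := by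
      linear_combination d.1 * hgg + g0.1 0 1 * (d1 - d2) - (g.1 0 1 - g'.1 0 1) * d0
    have h11 : g.1 1 1 = g'.1 1 1 := by
      linear_combination d.2 * hgg + g0.1 1 1 * (d1 - d2) - (g.1 1 1 - g'.1 1 1) * d0
    apply Subtype.ext
    ext i j
    fin_cases i <;> fin_cases j
    · exact e1.trans e2.symm
    · exact h01
    · exact e1'.trans e2'.symm
    · exact h11
  rw [Finset.card_univ] at h1
  refine h1.trans ?_
  have h3 : ((Finset.univ : Finset (SpecialLinearGroup (Fin 2) (ZMod q))).image f).card ≤ q ^ 2 := by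
    refine (Finset.card_le_univ _).trans ?_
    rw [Fintype.card_prod, ZMod.card]
    exact (sq q).symm.le
  calc q * _ ≤ q * q ^ 2 := Nat.mul_le_mul_left _ h3
    _ = q ^ 3 := by ring

/-- new functions in the Euclidean space -/
def QR_sub (q : ℕ) : Submodule ℂ (EuclideanSpace ℂ (ZMod q × ZMod q)) where
  carrier := {h | IsNew q (WithLp.ofLp h)}
  add_mem' := fun {a b} ha hb => by
    have := IsNew.add ha hb
    exact this
  zero_mem' := by
    constructor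
    · intro x _; rfl
    · intro p _ _ x
      refine Finset.sum_eq_zero fun i _ => Finset.sum_eq_zero fun j _ => rfl
  smul_mem' := fun c a ha => by
    have := IsNew.smul ha c
    exact this

theorem QR_mem {q : ℕ} {h : EuclideanSpace ℂ (ZMod q × ZMod q)} :
    h ∈ QR_sub q ↔ IsNew q (WithLp.ofLp h) := Iff.rfl

/-- the permutation of the vectors given by a group element -/
def QR_perm (q : ℕ) (g : SpecialLinearGroup (Fin 2) (ZMod q)) :
    (ZMod q × ZMod q) ≃ (ZMod q × ZMod q) where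
  toFun := gact q g
  invFun := gact q g⁻¹
  left_inv x := by rw [← gact_mul, inv_mul_cancel, gact_one]
  right_inv x := by rw [← gact_mul, mul_inv_cancel, gact_one]

/-- the linear map `h ↦ h ∘ g^{-1}` -/
noncomputable def QR_lin (q : ℕ) [NeZero q] (g : SpecialLinearGroup (Fin 2) (ZMod q)) :
    EuclideanSpace ℂ (ZMod q × ZMod q) →ₗ[ℂ] EuclideanSpace ℂ (ZMod q × ZMod q) where
  toFun h := WithLp.toLp 2 (fun x => h (gact q g⁻¹ x))
  map_add' _ _ := rfl
  map_smul' _ _ := rfl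

section
variable {E : Type*} [NormedAddCommGroup E] [InnerProductSpace ℂ E]
  {q : ℕ} [NeZero q] (L : E →ₗ[ℂ] (ZMod q × ZMod q → ℂ)) (hL : Function.Injective L)
  (hnorm : ∀ h, nsq q (L h) = ‖h‖ ^ 2)
  (R : SpecialLinearGroup (Fin 2) (ZMod q) → E →ₗ[ℂ] E)
  (hR : ∀ g h, L (R g h) = fun x => L h (gact q g⁻¹ x))

include hL hR in
theorem QR_R_comp (g g' : SpecialLinearGroup (Fin 2) (ZMod q)) (h : E) :
    R (g * g') h = R g (R g' h) := by
  apply hL
  rw [hR, hR, hR]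
  funext x
  rw [_root_.mul_inv_rev, gact_mul]

include hL hR in
theorem QR_R_one (h : E) : R 1 h = h := by
  apply hL
  rw [hR]
  funext x
  rw [inv_one, gact_one]

include hnorm hR in
theorem QR_R_norm (g : SpecialLinearGroup (Fin 2) (ZMod q)) (h : E) : ‖R g h‖ = ‖h‖ := by
  have h1 : ‖R g h‖ ^ 2 = ‖h‖ ^ 2 := by
    rw [← hnorm, ← hnorm, hR]
    exact nsq_gact q g⁻¹ (L h)
  exact (sq_eq_sq₀ (norm_nonneg _) (norm_nonneg _)).1 h1

/-- the representation -/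
noncomputable def QR_rho : SpecialLinearGroup (Fin 2) (ZMod q) →* (E ≃ₗᵢ[ℂ] E) where
  toFun g :=
    { toLinearEquiv := LinearEquiv.ofLinearMap (R g) (R g⁻¹)
        (by ext1 h; simp only [LinearMap.comp_apply, LinearMap.id_apply]
            rw [← QR_R_comp L hL R hR, mul_inv_cancel, QR_R_one L hL R hR])
        (by ext1 h; simp only [LinearMap.comp_apply, LinearMap.id_apply]
            rw [← QR_R_comp L hL R hR, inv_mul_cancel, QR_R_one L hL R hR])
      norm_map' := QR_R_norm L hnorm R hR g }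
  map_one' := by
    ext1 h
    exact QR_R_one L hL R hR h
  map_mul' g g' := by
    ext1 h
    exact QR_R_comp L hL R hR g g' h

theorem QR_rho_apply (g : SpecialLinearGroup (Fin 2) (ZMod q)) (h : E) :
    QR_rho L hL hnorm R hR g h = R g h := rfl

include hL hR in
/-- the dimension bound -/
theorem QR_dim (hnew : ∀ h, IsNew q (L h)) (V : Submodule ℂ E) (hV : V ≠ ⊥)
    (hinv : ∀ g : SpecialLinearGroup (Fin 2) (ZMod q), ∀ v ∈ V, R g v ∈ V) :
    Nat.card {a : ZMod q // ∃ u : (ZMod q)ˣ, a = (u : ZMod q) ^ 2} ≤ Module.finrank ℂ V := by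
  classical
  let V' : Submodule ℂ (ZMod q × ZMod q → ℂ) := V.map L
  have hfr : Module.finrank ℂ V' = Module.finrank ℂ V :=
    (V.equivMapOfInjective L hL).symm.finrank_eq
  have hV' : V' ≠ ⊥ := by
    intro h0
    apply hV
    rw [eq_bot_iff]
    intro v hv
    have h1 : L v ∈ V' := Submodule.mem_map_of_mem hv
    rw [h0, Submodule.mem_bot] at h1
    rw [Submodule.mem_bot]
    exact hL (h1.trans (map_zero L).symm)
  have hnew : ∀ h ∈ V', IsNew q h := by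
    rintro h ⟨v, -, rfl⟩
    exact hnew v
  have hinv' : ∀ g : SpecialLinearGroup (Fin 2) (ZMod q), ∀ h ∈ V',
      (fun x => h (gact q g x)) ∈ V' := by
    rintro g h ⟨v, hv, rfl⟩
    refine ⟨R g⁻¹ v, hinv g⁻¹ v hv, ?_⟩
    rw [hR, inv_inv]
  obtain ⟨v, hv, hv0, hvp⟩ := exists_primitive q V' hV' hnew hinv'
  rw [← hfr]
  refine finrank_ge_squares q V' hinv' v hv hv0 ?_
  intro p hp hpq x
  have h1 := congrFun (hvp p hp hpq) x
  have h2 : (1 / (p : ℂ)) * ∑ j ∈ Finset.range p,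
    v (x.1 + ((q / p : ℕ) : ZMod q) * (j : ZMod q) * x.2, x.2) = 0 := h1
  refine (mul_eq_zero.1 h2).resolve_left ?_
  rw [one_div]
  exact inv_ne_zero (by exact_mod_cast hp.ne_zero)

end

/-- the last step in abstract form -/
theorem QR_abs {E : Type*} [NormedAddCommGroup E] [InnerProductSpace ℂ E]
    {G : Type*} [Group G] [Fintype G] (ρ : G →* (E ≃ₗᵢ[ℂ] E)) (D : ℕ) (P : G → ℂ) (f : E)
    (htt : ∀ y : E, (D : ℝ) * ∑ g : G, ‖inner ℂ (ρ g f) y‖ ^ 2 ≤
      (Fintype.card G : ℝ) * ‖f‖ ^ 2 * ‖y‖ ^ 2) :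
    (D : ℝ) * ‖∑ g : G, P g • ρ g⁻¹ f‖ ^ 2 ≤
      (∑ g : G, ‖P g‖ ^ 2) * ((Fintype.card G : ℝ) * ‖f‖ ^ 2) := by
  classical
  set y : E := ∑ g : G, P g • ρ g⁻¹ f with hy
  have htt := htt y
  set B : ℝ := ∑ g : G, ‖inner ℂ (ρ g f) y‖ ^ 2 with hB
  set A : ℝ := ∑ g : G, ‖P g‖ ^ 2 with hA
  have hCS : (‖y‖ ^ 2) ^ 2 ≤ A * B := by
    have h1 : ((‖y‖ ^ 2 : ℝ) : ℂ) = ∑ g : G, P g * inner ℂ y (ρ g⁻¹ f) := by
      have h2 : inner ℂ y y = ((‖y‖ ^ 2 : ℝ) : ℂ) := by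
        rw [inner_self_eq_norm_sq_to_K]; simp
      rw [← h2]
      have h3 : inner ℂ y y = inner ℂ y (∑ g : G, P g • ρ g⁻¹ f) := by rw [← hy]
      rw [h3, inner_sum]
      refine Finset.sum_congr rfl fun g _ => ?_
      rw [inner_smul_right]
    have h3 : ‖y‖ ^ 2 ≤ ∑ g : G, ‖P g‖ * ‖inner ℂ y (ρ g⁻¹ f)‖ := by
      have h4 := congrArg norm h1
      rw [Complex.norm_real, Real.norm_of_nonneg (by positivity)] at h4
      rw [h4]
      refine (norm_sum_le _ _).trans ?_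
      refine Finset.sum_le_sum fun g _ => ?_
      rw [norm_mul]
    have h5 : (‖y‖ ^ 2) ^ 2 ≤ (∑ g : G, ‖P g‖ * ‖inner ℂ y (ρ g⁻¹ f)‖) ^ 2 :=
      pow_le_pow_left₀ (by positivity) h3 2
    refine h5.trans ((Finset.sum_mul_sq_le_sq_mul_sq _ _ _).trans ?_)
    have h6 : ∑ g : G, ‖inner ℂ y (ρ g⁻¹ f)‖ ^ 2 = B := by
      rw [hB, ← Equiv.sum_comp (Equiv.inv G)]
      refine Finset.sum_congr rfl fun g _ => ?_
      rw [norm_inner_symm]
      simp
    rw [h6]
  have hA0 : 0 ≤ A := by positivity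
  rcases eq_or_lt_of_le (sq_nonneg ‖y‖) with h0 | hpos
  · rw [← h0, mul_zero]
    positivity
  have h2 : ((D : ℝ) * ‖y‖ ^ 2) * ‖y‖ ^ 2 ≤ (A * ((Fintype.card G : ℝ) * ‖f‖ ^ 2)) * ‖y‖ ^ 2 := by
    calc ((D : ℝ) * ‖y‖ ^ 2) * ‖y‖ ^ 2 = (D : ℝ) * (‖y‖ ^ 2) ^ 2 := by ring
      _ ≤ (D : ℝ) * (A * B) := by gcongr
      _ = A * ((D : ℝ) * B) := by ring
      _ ≤ A * ((Fintype.card G : ℝ) * ‖f‖ ^ 2 * ‖y‖ ^ 2) := by gcongr
      _ = _ := by ring
  exact le_of_mul_le_mul_right h2 hpos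

theorem QR_arith (q : ℕ) [NeZero q] (A Y N : ℝ) (hA : 0 ≤ A) (hN : 0 ≤ N)
    (h : (Nat.card {a : ZMod q // ∃ u : (ZMod q)ˣ, a = (u : ZMod q) ^ 2} : ℝ) * Y ≤
      A * ((Fintype.card (SpecialLinearGroup (Fin 2) (ZMod q)) : ℝ) * N)) :
    Y ≤ 2 * ((Nat.divisors q).card : ℝ) ^ 2 * (q : ℝ) ^ 2 * A * N := by
  have hcard : (Fintype.card (SpecialLinearGroup (Fin 2) (ZMod q)) : ℝ) ≤ (q : ℝ) ^ 3 := by
    exact_mod_cast card_SL2_le q
  have hsq := le_card_squares q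
  have hq0 : (0 : ℝ) < q := by exact_mod_cast Nat.pos_of_ne_zero (NeZero.ne q)
  set D : ℝ := (Nat.card {a : ZMod q // ∃ u : (ZMod q)ˣ, a = (u : ZMod q) ^ 2} : ℝ) with hD
  rcases le_or_gt Y 0 with hY | hY
  · exact hY.trans (by positivity)
  have h3 : (q : ℝ) * Y ≤ q * (2 * ((Nat.divisors q).card : ℝ) ^ 2 * (q : ℝ) ^ 2 * A * N) := by
    calc (q : ℝ) * Y ≤ (2 * ((Nat.divisors q).card : ℝ) ^ 2 * D) * Y := by gcongr
      _ = 2 * ((Nat.divisors q).card : ℝ) ^ 2 * (D * Y) := by ring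
      _ ≤ 2 * ((Nat.divisors q).card : ℝ) ^ 2 * (A * ((q : ℝ) ^ 3 * N)) := by
          refine mul_le_mul_of_nonneg_left (h.trans ?_) (by positivity)
          gcongr
      _ = _ := by ring
  exact le_of_mul_le_mul_left h3 hq0

theorem QR_main {E : Type*} [NormedAddCommGroup E] [InnerProductSpace ℂ E]
    [FiniteDimensional ℂ E] {q : ℕ} [NeZero q] (L : E →ₗ[ℂ] (ZMod q × ZMod q → ℂ))
    (hL : Function.Injective L) (hnorm : ∀ h, nsq q (L h) = ‖h‖ ^ 2)
    (R : SpecialLinearGroup (Fin 2) (ZMod q) → E →ₗ[ℂ] E)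
    (hR : ∀ g h, L (R g h) = fun x => L h (gact q g⁻¹ x)) (hnew : ∀ h, IsNew q (L h))
    (P : SpecialLinearGroup (Fin 2) (ZMod q) → ℂ) (f : E) :
    nsq q (fun x => ∑ g, P g * L f (gact q g x)) ≤
      2 * ((Nat.divisors q).card : ℝ) ^ 2 * (q : ℝ) ^ 2 * (∑ g, ‖P g‖ ^ 2) * nsq q (L f) := by
  classical
  have habs := QR_abs (QR_rho L hL hnorm R hR) _ P f
    (fun y => trace_trick (QR_rho L hL hnorm R hR) _
      (fun V hV hinv => QR_dim L hL R hR hnew V hV hinv) f y)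
  have hny : nsq q (fun x => ∑ g, P g * L f (gact q g x)) =
      ‖(∑ g, P g • QR_rho L hL hnorm R hR g⁻¹ f : E)‖ ^ 2 := by
    rw [← hnorm]
    congr 1
    funext x
    rw [map_sum, Finset.sum_apply]
    refine Finset.sum_congr rfl fun g _ => ?_
    rw [map_smul, Pi.smul_apply, QR_rho_apply, hR, inv_inv, smul_eq_mul]
  rw [← hny, ← hnorm f] at habs
  exact QR_arith q _ _ _ (by positivity) (by unfold nsq; positivity) habs

/-- the submodule version, still over an abstract ambient space -/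
theorem QR_main2 {F : Type*} [NormedAddCommGroup F] [InnerProductSpace ℂ F]
    [FiniteDimensional ℂ F] {q : ℕ} [NeZero q] (L : F →ₗ[ℂ] (ZMod q × ZMod q → ℂ))
    (hL : Function.Injective L) (hnorm : ∀ h, nsq q (L h) = ‖h‖ ^ 2) (S : Submodule ℂ F)
    (hS : ∀ h, h ∈ S ↔ IsNew q (L h))
    (R : SpecialLinearGroup (Fin 2) (ZMod q) → F →ₗ[ℂ] F)
    (hR : ∀ g h, L (R g h) = fun x => L h (gact q g⁻¹ x))
    (P : SpecialLinearGroup (Fin 2) (ZMod q) → ℂ) (f : F) (hf : f ∈ S) :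
    nsq q (fun x => ∑ g, P g * L f (gact q g x)) ≤
      2 * ((Nat.divisors q).card : ℝ) ^ 2 * (q : ℝ) ^ 2 * (∑ g, ‖P g‖ ^ 2) * nsq q (L f) := by
  have hRS : ∀ g, ∀ h ∈ S, R g h ∈ S := by
    intro g h hh
    rw [hS, hR]
    exact IsNew.gact ((hS h).1 hh) g⁻¹
  exact QR_main (E := S) (L ∘ₗ S.subtype) (hL.comp S.injective_subtype)
    (fun h => by
      rw [LinearMap.comp_apply, Submodule.subtype_apply, hnorm, Submodule.coe_norm])
    (fun g => (R g).restrict (hRS g)) (fun g h => hR g h) (fun h => (hS h).1 h.2) P ⟨f, hf⟩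

/-- L5.  Proof: `E` = the subspace of new functions inside `EuclideanSpace ℂ (ZMod q × ZMod q)`,
`ρ g h = h ∘ g^{-1}`; invariant nonzero subspaces have dimension at least `q / (2 τ(q)^2)`
(`exists_primitive`, `finrank_ge_squares`, `le_card_squares`); `trace_trick`; finally for
`y = ∑ P g • (f ∘ g)`: `‖y‖^2 = ∑ P g ⟪y, f ∘ g⟫ ≤ (∑ |P g|^2)^(1/2) (∑ |⟪y, f ∘ g⟫|^2)^(1/2)`. -/
theorem quasirandom (q : ℕ) [NeZero q] (P : SpecialLinearGroup (Fin 2) (ZMod q) → ℂ)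
    (f : ZMod q × ZMod q → ℂ) (hf : IsNew q f) :
    nsq q (fun x => ∑ g, P g * f (gact q g x)) ≤
      2 * ((Nat.divisors q).card : ℝ) ^ 2 * (q : ℝ) ^ 2 * (∑ g, ‖P g‖ ^ 2) * nsq q f := by
  exact QR_main2 (F := EuclideanSpace ℂ (ZMod q × ZMod q))
    (WithLp.linearEquiv 2 ℂ (ZMod q × ZMod q → ℂ)).toLinearMap
    (WithLp.linearEquiv 2 ℂ (ZMod q × ZMod q → ℂ)).injective
    (fun h => by rw [EuclideanSpace.norm_sq_eq]; rfl) (QR_sub q) (fun h => Iff.rfl)
    (QR_lin q) (fun g h => rfl) P (WithLp.toLp 2 f) hf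

end Pool.Agent.W_f50700_h3
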