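import Pool.Agent.W_f50700_h3.Mix0
import Pool.Agent.W_f50700_h3.QR
import Pool.Agent.W_f50700_h3.Coll3

/-!
MixD: the saving in `d` (row 436, Lemma D).
-/

open Matrix

namespace Pool.Agent.W_f50700_h3

variable {A : ℕ}

theorem MixD_nsq_smul (q : ℕ) [NeZero q] (c : ℂ) (h : ZMod q × ZMod q → ℂ) :
    nsq q (fun x => c * h x) = ‖c‖ ^ 2 * nsq q h := by
  unfold nsq
  rw [Finset.mul_sum]
  refine Finset.sum_congr rfl (fun x _ => ?_)
  rw [norm_mul, mul_pow]

theorem MixD_nsq_nonneg (q : ℕ) [NeZero q] (h : ZMod q × ZMod q → ℂ) : 0 ≤ nsq q h :=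
  Finset.sum_nonneg (fun _ _ => by positivity)

theorem MixD_nsq_le_two (q : ℕ) [NeZero q] (f g : ZMod q × ZMod q → ℂ) :
    nsq q f ≤ 2 * nsq q g + 2 * nsq q (fun x => f x - g x) := by
  unfold nsq
  rw [Finset.mul_sum, Finset.mul_sum, ← Finset.sum_add_distrib]
  refine Finset.sum_le_sum (fun x _ => ?_)
  have h1 : ‖f x‖ ≤ ‖g x‖ + ‖f x - g x‖ := by
    have h2 : f x = g x + (f x - g x) := by ring
    calc ‖f x‖ = ‖g x + (f x - g x)‖ := by rw [← h2]
      _ ≤ _ := norm_add_le _ _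
  have h3 : ‖f x‖ ^ 2 ≤ (‖g x‖ + ‖f x - g x‖) ^ 2 := by
    exact pow_le_pow_left₀ (norm_nonneg _) h1 2
  nlinarith [sq_nonneg (‖g x‖ - ‖f x - g x‖)]

theorem MixD_count {ι κ : Type*} [DecidableEq ι] [Fintype κ] [DecidableEq κ] (S : Finset ι)
    (f : ι → κ) :
    ∑ g : κ, ((S.filter (fun M => f M = g)).card : ℝ) ^ 2 =
      (((S ×ˢ S).filter (fun p => f p.1 = f p.2)).card : ℝ) := by
  have h1 : ∀ g : κ, ((S.filter (fun M => f M = g)).card : ℝ) ^ 2 =
      ∑ M ∈ S with f M = g, ((S.filter (fun M' => f M' = f M)).card : ℝ) := by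
    intro g
    have h2 : ∑ M ∈ S with f M = g, ((S.filter (fun M' => f M' = f M)).card : ℝ) =
        ∑ M ∈ S with f M = g, ((S.filter (fun M' => f M' = g)).card : ℝ) := by
      refine Finset.sum_congr rfl (fun M hM => ?_)
      rw [(Finset.mem_filter.1 hM).2]
    rw [h2, Finset.sum_const, nsmul_eq_mul, pow_two]
  rw [Finset.sum_congr rfl (fun g _ => h1 g), Finset.sum_fiberwise, Finset.card_filter,
    Finset.sum_product]
  push_cast
  refine Finset.sum_congr rfl (fun M _ => ?_)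
  rw [Finset.card_filter]
  push_cast
  refine Finset.sum_congr rfl (fun M' _ => ?_)
  by_cases h : f M = f M'
  · rw [if_pos h, if_pos h.symm]
  · rw [if_neg h, if_neg (fun h' => h h'.symm)]

/-- one short block: `passF A Z1` with `Z1 = q^(3/2)` applied to a fixed new function, arbitrary
coefficients of modulus at most one.  Proof: push the coefficients forward to `SL2(Z/q)`
(`P g = (1/N) ∑_{M : slOf q M = g} c M`, `N = card (passF A Z1)`), `∑ |P g|^2 ≤ (number of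
collisions) / N^2`, `collisions`, `card_passF_bounds`, `quasirandom`, `divisor_bound`. -/
theorem short_block (hA : 1 ≤ A) (ε : ℝ) (hε : 0 < ε) : ∃ C : ℝ, 0 < C ∧
    ∀ (q : ℕ) [NeZero q], 2 ≤ q → ∀ (c : List (Lt A) → ℂ), (∀ M, ‖c M‖ ≤ 1) →
    ∀ (h : ZMod q × ZMod q → ℂ), IsNew q h →
    nsq q (fun x => (1 / ((passF A ((q : ℝ) ^ (3 / 2 : ℝ))).card : ℂ)) *
      ∑ M ∈ passF A ((q : ℝ) ^ (3 / 2 : ℝ)), c M * h (vact q (mat M) x)) ≤
      C * (q : ℝ) ^ (5 - 3 * sexp A + ε) * nsq q h := by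
  classical
  obtain ⟨c₀, C₀, hc₀, hC₀, hcard⟩ := card_passF_bounds hA
  obtain ⟨C₁, hC₁, hcoll⟩ := collisions hA (ε / 4) (by positivity)
  obtain ⟨C₂, hC₂, hdiv⟩ := divisor_bound (ε / 4) (by positivity)
  refine ⟨2 * C₂ ^ 2 * (2 * C₁ / c₀ ^ 2), by positivity, ?_⟩
  intro q _ hq c hc h hh
  have hq0 : (0 : ℝ) < q := by positivity
  have hq1 : (1 : ℝ) ≤ q := by exact_mod_cast (by omega : 1 ≤ q)
  set Z : ℝ := (q : ℝ) ^ (3 / 2 : ℝ) with hZdef
  have hZ2 : Z ^ 2 = (q : ℝ) ^ 3 := by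
    rw [hZdef, ← Real.rpow_natCast, ← Real.rpow_mul hq0.le, ← Real.rpow_natCast]
    norm_num
  have hZ0 : 0 < Z := Real.rpow_pos_of_pos hq0 _
  have hZ : 2 ≤ Z := by
    have h1 : (2 : ℝ) ^ 3 ≤ (q : ℝ) ^ 3 :=
      pow_le_pow_left₀ (by norm_num) (by exact_mod_cast hq) 3
    have h2 : (2 : ℝ) ^ 2 ≤ Z ^ 2 := by rw [hZ2]; linarith
    exact (pow_le_pow_iff_left₀ (by norm_num) hZ0.le (by norm_num)).1 h2
  obtain ⟨hcard1, _⟩ := hcard Z (by linarith)
  set S := passF A Z with hS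
  set N : ℝ := (S.card : ℝ) with hN
  have hNpos : 0 < N := lt_of_lt_of_le (by positivity) hcard1
  let P : SpecialLinearGroup (Fin 2) (ZMod q) → ℂ :=
    fun g => (1 / (S.card : ℂ)) * ∑ M ∈ S with slOf q M = g, c M
  have hfun : (fun x => (1 / (S.card : ℂ)) * ∑ M ∈ S, c M * h (vact q (mat M) x)) =
      (fun x => ∑ g, P g * h (gact q g x)) := by
    funext x
    have h1 : ∀ g : SpecialLinearGroup (Fin 2) (ZMod q), P g * h (gact q g x) =
        (1 / (S.card : ℂ)) * ∑ M ∈ S with slOf q M = g, c M * h (vact q (mat M) x) := by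
      intro g
      show (1 / (S.card : ℂ)) * (∑ M ∈ S with slOf q M = g, c M) * h (gact q g x) = _
      rw [mul_assoc, Finset.sum_mul]
      congr 1
      refine Finset.sum_congr rfl (fun M hM => ?_)
      rw [← gact_slOf, (Finset.mem_filter.1 hM).2]
    rw [Finset.sum_congr rfl (fun g _ => h1 g), ← Finset.mul_sum, Finset.sum_fiberwise]
  rw [hfun]
  have hPbound : ∑ g, ‖P g‖ ^ 2 ≤ (1 / N ^ 2) * (C₁ * Z ^ (2 + ε / 4) * (1 + Z ^ 2 / (q : ℝ) ^ 3)) := by
    have h1 : ∀ g : SpecialLinearGroup (Fin 2) (ZMod q), ‖P g‖ ^ 2 ≤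
        (1 / N ^ 2) * ((S.filter (fun M => slOf q M = g)).card : ℝ) ^ 2 := by
      intro g
      have h2 : ‖P g‖ ≤ (1 / N) * ((S.filter (fun M => slOf q M = g)).card : ℝ) := by
        show ‖(1 / (S.card : ℂ)) * (∑ M ∈ S with slOf q M = g, c M)‖ ≤ _
        rw [norm_mul, norm_div, norm_one, Complex.norm_natCast]
        apply mul_le_mul_of_nonneg_left _ (by positivity)
        refine (norm_sum_le _ _).trans ?_
        refine (Finset.sum_le_sum (fun M _ => hc M)).trans ?_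
        rw [Finset.sum_const, nsmul_eq_mul, mul_one]
      calc ‖P g‖ ^ 2 ≤ ((1 / N) * ((S.filter (fun M => slOf q M = g)).card : ℝ)) ^ 2 :=
            pow_le_pow_left₀ (norm_nonneg _) h2 2
        _ = _ := by rw [mul_pow, div_pow, one_pow]
    refine (Finset.sum_le_sum (fun g _ => h1 g)).trans ?_
    rw [← Finset.mul_sum]
    apply mul_le_mul_of_nonneg_left _ (by positivity)
    rw [MixD_count]
    have h3 := hcoll q (by omega) Z hZ
    convert h3 using 3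
  have hqr := quasirandom q P h hh
  refine hqr.trans ?_
  have hnh := MixD_nsq_nonneg q h
  apply mul_le_mul_of_nonneg_right _ hnh
  have hd := hdiv q (by omega)
  have hd2 : ((Nat.divisors q).card : ℝ) ^ 2 ≤ C₂ ^ 2 * (q : ℝ) ^ (ε / 2) := by
    calc ((Nat.divisors q).card : ℝ) ^ 2 ≤ (C₂ * (q : ℝ) ^ (ε / 4)) ^ 2 :=
          pow_le_pow_left₀ (by positivity) hd 2
      _ = C₂ ^ 2 * (q : ℝ) ^ (ε / 2) := by
          rw [mul_pow, ← Real.rpow_natCast ((q : ℝ) ^ (ε / 4)) 2, ← Real.rpow_mul hq0.le]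
          congr 2
          push_cast
          ring
  have hP2 : ∑ g, ‖P g‖ ^ 2 ≤ (2 * C₁ / c₀ ^ 2) * (q : ℝ) ^ (3 - 3 * sexp A + 3 * ε / 8) := by
    refine hPbound.trans ?_
    have h1 : 1 + Z ^ 2 / (q : ℝ) ^ 3 = 2 := by
      rw [hZ2, div_self (by positivity)]; norm_num
    rw [h1]
    have h2 : (c₀ * Z ^ (sexp A)) ^ 2 ≤ N ^ 2 := pow_le_pow_left₀ (by positivity) hcard1 2
    have h3 : 1 / N ^ 2 ≤ 1 / (c₀ * Z ^ (sexp A)) ^ 2 :=
      one_div_le_one_div_of_le (by positivity) h2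
    calc (1 / N ^ 2) * (C₁ * Z ^ (2 + ε / 4) * 2)
        ≤ (1 / (c₀ * Z ^ (sexp A)) ^ 2) * (C₁ * Z ^ (2 + ε / 4) * 2) :=
          mul_le_mul_of_nonneg_right h3 (by positivity)
      _ = (2 * C₁ / c₀ ^ 2) * (Z ^ (2 + ε / 4) / (Z ^ (sexp A)) ^ 2) := by
          field_simp
      _ = (2 * C₁ / c₀ ^ 2) * (q : ℝ) ^ (3 - 3 * sexp A + 3 * ε / 8) := by
          congr 1
          rw [← Real.rpow_natCast (Z ^ (sexp A)) 2, ← Real.rpow_mul hZ0.le, ← Real.rpow_sub hZ0,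
            hZdef, ← Real.rpow_mul hq0.le]
          congr 1
          push_cast
          ring
  have hq2 : (0 : ℝ) ≤ (q : ℝ) ^ 2 := by positivity
  have hPn : 0 ≤ ∑ g, ‖P g‖ ^ 2 := Finset.sum_nonneg (fun _ _ => by positivity)
  calc 2 * ((Nat.divisors q).card : ℝ) ^ 2 * (q : ℝ) ^ 2 * (∑ g, ‖P g‖ ^ 2)
      ≤ 2 * (C₂ ^ 2 * (q : ℝ) ^ (ε / 2)) * (q : ℝ) ^ 2 *
        ((2 * C₁ / c₀ ^ 2) * (q : ℝ) ^ (3 - 3 * sexp A + 3 * ε / 8)) := by
        apply mul_le_mul _ hP2 hPn (by positivity)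
        apply mul_le_mul_of_nonneg_right _ hq2
        linarith
    _ = 2 * C₂ ^ 2 * (2 * C₁ / c₀ ^ 2) * ((q : ℝ) ^ (ε / 2) * (q : ℝ) ^ (2 : ℝ) *
        (q : ℝ) ^ (3 - 3 * sexp A + 3 * ε / 8)) := by
        rw [← Real.rpow_natCast (q : ℝ) 2]
        push_cast
        ring
    _ = 2 * C₂ ^ 2 * (2 * C₁ / c₀ ^ 2) * (q : ℝ) ^ (5 - 3 * sexp A + 7 * ε / 8) := by
        rw [← Real.rpow_add hq0, ← Real.rpow_add hq0]
        congr 2
        ring
    _ ≤ _ := by
        apply mul_le_mul_of_nonneg_left _ (by positivity)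
        apply Real.rpow_le_rpow_of_exponent_le hq1
        linarith

/-- Lemma D. -/
theorem blk_d (hA : 1 ≤ A) (ε : ℝ) (hε : 0 < ε) : ∃ C : ℝ, 0 < C ∧
    ∀ (q : ℕ) [NeZero q], 2 ≤ q → ∀ (Z : ℝ), 2 ≤ Z → ∀ (τ : ℝ)
      (f : ℝ → ZMod q × ZMod q → ℂ) (l : ℝ), 0 ≤ l → LipN q l f →
    (∀ y ∈ Set.Icc (0 : ℝ) 1, IsNew q (f y)) →
    ∀ y ∈ Set.Icc (0 : ℝ) 1,
    nsq q (blk q (prodF (passF A Z) (passF A ((q : ℝ) ^ (3 / 2 : ℝ)))) τ f y) ≤
      C * (q : ℝ) ^ (5 - 3 * sexp A + ε) *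
        ((1 / ((passF A Z).card : ℝ)) * ∑ R ∈ passF A Z, nsq q (f (eta R))) +
      C * l ^ 2 / Z ^ 4 := by
  classical
  obtain ⟨c₀, C₀, hc₀, hC₀, hcard⟩ := card_passF_bounds hA
  obtain ⟨C, hC, hshort⟩ := short_block hA ε hε
  refine ⟨2 * C + 2, by positivity, ?_⟩
  intro q _ hq Z hZ τ f l hl hL hnew y hy
  have hq0 : (0 : ℝ) < q := by positivity
  have hq1 : (1 : ℝ) < q := by exact_mod_cast (by omega : 1 < q)
  have hZ0 : 0 < Z := by linarith
  set Z1 : ℝ := (q : ℝ) ^ (3 / 2 : ℝ) with hZ1def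
  have hZ1 : 1 < Z1 := Real.one_lt_rpow hq1 (by norm_num)
  have hZ10 : 0 < Z1 := by linarith
  obtain ⟨hcardZ, _⟩ := hcard Z (by linarith)
  obtain ⟨hcardZ1, _⟩ := hcard Z1 hZ1
  set S := passF A Z with hS
  set T := passF A Z1 with hT
  have hNS : (0 : ℝ) < (S.card : ℝ) := lt_of_lt_of_le (by positivity) hcardZ
  have hNT : (0 : ℝ) < (T.card : ℝ) := lt_of_lt_of_le (by positivity) hcardZ1
  have hSne : S.Nonempty := by rw [← Finset.card_pos]; exact_mod_cast hNS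
  have hTne : T.Nonempty := by rw [← Finset.card_pos]; exact_mod_cast hNT
  -- abbreviations
  let ex : List (Lt A) → ℂ :=
    fun M => Complex.exp (((τ * Real.log (cpsi M y) : ℝ) : ℂ) * Complex.I)
  have hex : ∀ M, ‖ex M‖ = 1 := fun M => Complex.norm_exp_ofReal_mul_I _
  -- the main part
  let hR : List (Lt A) → ZMod q × ZMod q → ℂ := fun R x => f (eta R) (vact q (mat R) x)
  let main : ZMod q × ZMod q → ℂ := fun x => (1 / (S.card : ℂ)) * ∑ R ∈ S,
    ((1 / (T.card : ℂ)) * ∑ M ∈ T, ex (R ++ M) * hR R (vact q (mat M) x))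
  have hmain : nsq q main ≤ C * (q : ℝ) ^ (5 - 3 * sexp A + ε) *
      ((1 / (S.card : ℝ)) * ∑ R ∈ S, nsq q (f (eta R))) := by
    refine (nsq_avg_le q S hSne _).trans ?_
    have h1 : ∀ R ∈ S, nsq q (fun x => (1 / (T.card : ℂ)) * ∑ M ∈ T,
        ex (R ++ M) * hR R (vact q (mat M) x)) ≤
        C * (q : ℝ) ^ (5 - 3 * sexp A + ε) * nsq q (f (eta R)) := by
      intro R _
      have h2 := hshort q hq (fun M => ex (R ++ M)) (fun M => (hex _).le) (hR R)
        ((hnew (eta R) (eta_mem R)).vact R)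
      have h3 : nsq q (hR R) = nsq q (f (eta R)) := nsq_vact q R (f (eta R))
      rwa [h3] at h2
    calc _ ≤ (1 / (S.card : ℝ)) * ∑ R ∈ S,
          (C * (q : ℝ) ^ (5 - 3 * sexp A + ε) * nsq q (f (eta R))) :=
          mul_le_mul_of_nonneg_left (Finset.sum_le_sum h1) (by positivity)
      _ = _ := by rw [← Finset.mul_sum]; ring
  -- the error
  have hblk : ∀ x, blk q (prodF S T) τ f y x = (1 / (S.card : ℂ)) * ∑ R ∈ S,
      ((1 / (T.card : ℂ)) * ∑ M ∈ T, ex (R ++ M) *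
        f (cact (R ++ M) y) (vact q (mat R) (vact q (mat M) x))) := by
    intro x
    unfold blk
    rw [hS, hT, sum_prodF, card_prodF, ← hS, ← hT, ← Finset.mul_sum, ← mul_assoc]
    congr 1
    · push_cast
      rw [one_div_mul_one_div]
    · refine Finset.sum_congr rfl (fun R _ => Finset.sum_congr rfl (fun M _ => ?_))
      rw [vact_append]
  have herr : nsq q (fun x => blk q (prodF S T) τ f y x - main x) ≤ l ^ 2 / Z ^ 4 := by
    have h1 : (fun x => blk q (prodF S T) τ f y x - main x) =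
        (fun x => (1 / (S.card : ℂ)) * ∑ R ∈ S, ((1 / (T.card : ℂ)) * ∑ M ∈ T, ex (R ++ M) *
          (f (cact (R ++ M) y) (vact q (mat R) (vact q (mat M) x)) -
            f (eta R) (vact q (mat R) (vact q (mat M) x))))) := by
      funext x
      rw [hblk x]
      show _ - (1 / (S.card : ℂ)) * ∑ R ∈ S,
        ((1 / (T.card : ℂ)) * ∑ M ∈ T, ex (R ++ M) * f (eta R) (vact q (mat R) (vact q (mat M) x)))
          = _
      rw [← mul_sub, ← Finset.sum_sub_distrib]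
      congr 1
      refine Finset.sum_congr rfl (fun R _ => ?_)
      rw [← mul_sub, ← Finset.sum_sub_distrib]
      congr 1
      refine Finset.sum_congr rfl (fun M _ => ?_)
      rw [mul_sub]
    rw [h1]
    refine (nsq_avg_le q S hSne _).trans ?_
    have h2 : ∀ R ∈ S, nsq q (fun x => (1 / (T.card : ℂ)) * ∑ M ∈ T, ex (R ++ M) *
          (f (cact (R ++ M) y) (vact q (mat R) (vact q (mat M) x)) -
            f (eta R) (vact q (mat R) (vact q (mat M) x)))) ≤ l ^ 2 / Z ^ 4 := by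
      intro R hRS
      refine (nsq_avg_le q T hTne _).trans ?_
      have h3 : ∀ M ∈ T, nsq q (fun x => ex (R ++ M) *
          (f (cact (R ++ M) y) (vact q (mat R) (vact q (mat M) x)) -
            f (eta R) (vact q (mat R) (vact q (mat M) x)))) ≤ l ^ 2 / Z ^ 4 := by
        intro M _
        rw [MixD_nsq_smul q _ (fun x => f (cact (R ++ M) y) (vact q (mat R) (vact q (mat M) x)) -
            f (eta R) (vact q (mat R) (vact q (mat M) x))), hex, one_pow, one_mul,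
          nsq_vact q M (fun x => f (cact (R ++ M) y) (vact q (mat R) x) -
            f (eta R) (vact q (mat R) x)),
          nsq_vact q R (fun x => f (cact (R ++ M) y) x - f (eta R) x)]
        have h4 := hL (cact (R ++ M) y) (cact_mem _ hy) (eta R) (eta_mem R)
        have h5 : |cact (R ++ M) y - eta R| ≤ 1 / (F R : ℝ) ^ 2 := by
          rw [cact_append R M hy.1]
          exact cact_sub_eta R (cact_mem M hy)
        have h6 := (passF_bounds hRS).1
        have h7 : 1 / (F R : ℝ) ^ 2 ≤ 1 / Z ^ 2 := by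
          apply one_div_le_one_div_of_le (by positivity)
          exact pow_le_pow_left₀ hZ0.le h6 2
        have h8 : nrm q (fun x => f (cact (R ++ M) y) x - f (eta R) x) ≤ l / Z ^ 2 := by
          calc _ ≤ l * |cact (R ++ M) y - eta R| := h4
            _ ≤ l * (1 / Z ^ 2) := mul_le_mul_of_nonneg_left (h5.trans h7) hl
            _ = l / Z ^ 2 := by ring
        rw [← nrm_sq]
        calc _ ≤ (l / Z ^ 2) ^ 2 := pow_le_pow_left₀ (nrm_nonneg _ _) h8 2
          _ = l ^ 2 / Z ^ 4 := by rw [div_pow]; ring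
      calc _ ≤ (1 / (T.card : ℝ)) * ∑ M ∈ T, (l ^ 2 / Z ^ 4) :=
            mul_le_mul_of_nonneg_left (Finset.sum_le_sum h3) (by positivity)
        _ = l ^ 2 / Z ^ 4 := by
            rw [Finset.sum_const, nsmul_eq_mul]
            field_simp
    calc _ ≤ (1 / (S.card : ℝ)) * ∑ R ∈ S, (l ^ 2 / Z ^ 4) :=
          mul_le_mul_of_nonneg_left (Finset.sum_le_sum h2) (by positivity)
      _ = l ^ 2 / Z ^ 4 := by
          rw [Finset.sum_const, nsmul_eq_mul]
          field_simp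
  have htwo := MixD_nsq_le_two q (blk q (prodF S T) τ f y) main
  have hU : 0 ≤ (1 / (S.card : ℝ)) * ∑ R ∈ S, nsq q (f (eta R)) :=
    mul_nonneg (by positivity) (Finset.sum_nonneg (fun _ _ => MixD_nsq_nonneg q _))
  have hV : 0 ≤ (q : ℝ) ^ (5 - 3 * sexp A + ε) *
      ((1 / (S.card : ℝ)) * ∑ R ∈ S, nsq q (f (eta R))) :=
    mul_nonneg (Real.rpow_nonneg hq0.le _) hU
  have hW : 0 ≤ C * (l ^ 2 / Z ^ 4) := by positivity
  have e1 : (2 * C + 2) * (q : ℝ) ^ (5 - 3 * sexp A + ε) *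
        ((1 / (S.card : ℝ)) * ∑ R ∈ S, nsq q (f (eta R))) +
      (2 * C + 2) * l ^ 2 / Z ^ 4 = 2 * (C * (q : ℝ) ^ (5 - 3 * sexp A + ε) *
        ((1 / (S.card : ℝ)) * ∑ R ∈ S, nsq q (f (eta R)))) + 2 * (l ^ 2 / Z ^ 4) +
        (2 * ((q : ℝ) ^ (5 - 3 * sexp A + ε) *
          ((1 / (S.card : ℝ)) * ∑ R ∈ S, nsq q (f (eta R)))) + 2 * (C * (l ^ 2 / Z ^ 4))) := by
    ring
  rw [e1]
  linarith

end Pool.Agent.W_f50700_h3
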