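import Pool.Agent.W_f50700_h3.MixT
import Pool.Agent.W_f50700_h3.MixD

/-!
MixIter: the iteration (row 436).
-/

open Matrix

namespace Pool.Agent.W_f50700_h3

variable {A : ℕ}

/-- abstract recursion -/
theorem rec_bound {a : ℕ → ℝ} {κ E : ℝ} (hκ0 : 0 ≤ κ) (hκ : κ ≤ 1 / 2) (hE : 0 ≤ E)
    (h : ∀ j, a (j + 1) ≤ κ * a j + E) (k : ℕ) : a k ≤ κ ^ k * a 0 + 2 * E := by
  induction k with
  | zero => simp; linarith
  | succ k ih =>
    have h1 := h k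
    have h2 : κ * a k ≤ κ * (κ ^ k * a 0 + 2 * E) := mul_le_mul_of_nonneg_left ih hκ0
    have h3 : κ * (2 * E) ≤ E := by nlinarith
    calc a (k + 1) ≤ κ * (κ ^ k * a 0 + 2 * E) + E := by linarith
      _ = κ ^ (k + 1) * a 0 + κ * (2 * E) + E := by ring
      _ ≤ κ ^ (k + 1) * a 0 + 2 * E := by linarith

/-- invariants of the iteration -/
theorem MixIter_inv (q : ℕ) [NeZero q] (P : Finset (List (Lt A))) (hP : ∀ M ∈ P, M ≠ []) (τ : ℝ)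
    (h : ZMod q × ZMod q → ℂ) {b l : ℝ} (hb : 0 ≤ b) (hh : nrm q h ≤ b)
    (hl : |τ| * b + l / 4 ≤ l) (k : ℕ) :
    (∀ y ∈ Set.Icc (0 : ℝ) 1, nrm q (((blk q P τ)^[k] (fun _ => h)) y) ≤ b) ∧
      LipN q l ((blk q P τ)^[k] (fun _ => h)) := by
  have hl0 : 0 ≤ l := by
    have : 0 ≤ |τ| * b := mul_nonneg (abs_nonneg _) hb
    linarith
  induction k with
  | zero =>
    refine ⟨fun y _ => by simpa using hh, ?_⟩
    intro y _ z _
    have h0 : nrm q (fun x => h x - h x) = 0 := by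
      have : (fun x : ZMod q × ZMod q => h x - h x) = fun _ => 0 := by funext x; simp
      rw [this]
      unfold nrm nsq
      simp
    simp only [Function.iterate_zero, id_eq]
    rw [h0]
    exact mul_nonneg hl0 (abs_nonneg _)
  | succ k ih =>
    rw [Function.iterate_succ_apply']
    refine ⟨blk_bound q P τ _ hb ih.1, ?_⟩
    intro y hy z hz
    refine (blk_lip q P hP τ _ hb hl0 ih.1 ih.2 y hy z hz).trans ?_
    exact mul_le_mul_of_nonneg_right hl (abs_nonneg _)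

theorem MixIter_new (q : ℕ) [NeZero q] (P : Finset (List (Lt A))) (τ : ℝ)
    (h : ZMod q × ZMod q → ℂ) (hh : IsNew q h) (k : ℕ) :
    ∀ y ∈ Set.Icc (0 : ℝ) 1, IsNew q (((blk q P τ)^[k] (fun _ => h)) y) := by
  induction k with
  | zero => intro y _; simpa using hh
  | succ k ih =>
    rw [Function.iterate_succ_apply']
    exact blk_new q P τ _ ih

theorem MixIter_rpow_le {H : ℝ} (hH : 1 ≤ H) {x y : ℝ} (h : x ≤ y) : H ^ x ≤ H ^ y :=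
  Real.rpow_le_rpow_of_exponent_le hH h

/-- the numbers -/
theorem MixIter_num {C1 C2 : ℝ} (hC1 : 0 < C1) (hC2 : 0 < C2) : ∃ C H1 : ℝ, 0 < C ∧ 2 ≤ H1 ∧
    ∀ H : ℝ, H1 ≤ H → ∀ (a S : ℕ → ℝ) (W T E N : ℝ), 0 ≤ W → 0 ≤ T → 0 ≤ E →
      W ≤ H ^ (2 / 25 : ℝ) → T ≤ 26 * H ^ (-(29 / 50) : ℝ) → E ≤ 64 * H ^ (-(12 : ℝ)) →
      a 0 ≤ 4 * H ^ 2 → (∀ j, S j ≤ C2 * W * a j + C2 * E) →
      (∀ j, a (j + 1) ≤ C1 * T * S j + C1 * E) → N ≤ C1 * S 23 + C1 * E →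
      N ≤ C * H ^ (-(9 : ℝ)) := by
  set K : ℝ := 26 * C1 * C2 with hK
  have hK0 : 0 < K := by positivity
  set L : ℝ := 64 * (26 * C1 * C2 + C1) with hL
  have hL0 : 0 < L := by positivity
  refine ⟨C1 * (C2 * (4 * K ^ 23 + 2 * L) + 64 * C2) + 64 * C1, max 2 ((2 * K) ^ 2),
    by positivity, le_max_left _ _, ?_⟩
  intro H hH a S W T E N hW hT hE hW' hT' hE' ha0 hS ha hN
  have hH2 : 2 ≤ H := (le_max_left _ _).trans hH
  have hHK : (2 * K) ^ 2 ≤ H := (le_max_right _ _).trans hH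
  have hH1 : 1 ≤ H := by linarith
  have hH0 : 0 < H := by linarith
  have hT26 : T ≤ 26 := by
    refine hT'.trans ?_
    have : H ^ (-(29 / 50) : ℝ) ≤ 1 := Real.rpow_le_one_of_one_le_of_nonpos hH1 (by norm_num)
    linarith
  set κ : ℝ := C1 * T * (C2 * W) with hκ
  have hκ0 : 0 ≤ κ := by positivity
  have hκ1 : κ ≤ K * H ^ (-(1 / 2) : ℝ) := by
    have h1 : T * W ≤ 26 * H ^ (-(29 / 50) : ℝ) * H ^ (2 / 25 : ℝ) :=
      mul_le_mul hT' hW' hW (by positivity)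
    have h2 : H ^ (-(29 / 50) : ℝ) * H ^ (2 / 25 : ℝ) = H ^ (-(1 / 2) : ℝ) := by
      rw [← Real.rpow_add hH0]; norm_num
    calc κ = C1 * C2 * (T * W) := by rw [hκ]; ring
      _ ≤ C1 * C2 * (26 * H ^ (-(29 / 50) : ℝ) * H ^ (2 / 25 : ℝ)) :=
          mul_le_mul_of_nonneg_left h1 (by positivity)
      _ = K * (H ^ (-(29 / 50) : ℝ) * H ^ (2 / 25 : ℝ)) := by rw [hK]; ring
      _ = K * H ^ (-(1 / 2) : ℝ) := by rw [h2]
  have hκ2 : κ ≤ 1 / 2 := by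
    refine hκ1.trans ?_
    rw [Real.rpow_neg hH0.le, ← Real.sqrt_eq_rpow]
    have hs : 2 * K ≤ Real.sqrt H := Real.le_sqrt_of_sq_le hHK
    have hs0 : 0 < Real.sqrt H := Real.sqrt_pos.mpr hH0
    rw [← div_eq_mul_inv, div_le_div_iff₀ hs0 (by norm_num)]
    linarith
  set E' : ℝ := C1 * T * (C2 * E) + C1 * E with hE'def
  have hE'0 : 0 ≤ E' := by positivity
  have hE'1 : E' ≤ L * H ^ (-(12 : ℝ)) := by
    have h1 : C1 * T * (C2 * E) ≤ C1 * 26 * (C2 * E) := by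
      apply mul_le_mul_of_nonneg_right _ (by positivity)
      exact mul_le_mul_of_nonneg_left hT26 hC1.le
    calc E' ≤ (26 * C1 * C2 + C1) * E := by rw [hE'def]; linarith
      _ ≤ (26 * C1 * C2 + C1) * (64 * H ^ (-(12 : ℝ))) :=
          mul_le_mul_of_nonneg_left hE' (by positivity)
      _ = L * H ^ (-(12 : ℝ)) := by rw [hL]; ring
  have hrec : ∀ j, a (j + 1) ≤ κ * a j + E' := by
    intro j
    have h1 : C1 * T * S j ≤ C1 * T * (C2 * W * a j + C2 * E) :=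
      mul_le_mul_of_nonneg_left (hS j) (by positivity)
    have h2 := ha j
    calc a (j + 1) ≤ C1 * T * (C2 * W * a j + C2 * E) + C1 * E := by linarith
      _ = κ * a j + E' := by rw [hκ, hE'def]; ring
  have h23 := rec_bound hκ0 hκ2 hE'0 hrec 23
  -- bound for κ ^ 23 * a 0
  have hκ23 : κ ^ 23 ≤ K ^ 23 * H ^ (-(23 / 2) : ℝ) := by
    calc κ ^ 23 ≤ (K * H ^ (-(1 / 2) : ℝ)) ^ 23 := pow_le_pow_left₀ hκ0 hκ1 23
      _ = K ^ 23 * (H ^ (-(1 / 2) : ℝ)) ^ 23 := by rw [mul_pow]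
      _ = K ^ 23 * H ^ (-(23 / 2) : ℝ) := by
          rw [← Real.rpow_natCast (H ^ (-(1 / 2) : ℝ)) 23, ← Real.rpow_mul hH0.le]
          norm_num
  have hA0 : κ ^ 23 * a 0 ≤ 4 * K ^ 23 * H ^ (-(19 / 2) : ℝ) := by
    have h1 : κ ^ 23 * a 0 ≤ κ ^ 23 * (4 * H ^ 2) := mul_le_mul_of_nonneg_left ha0 (by positivity)
    have h2 : κ ^ 23 * (4 * H ^ 2) ≤ (K ^ 23 * H ^ (-(23 / 2) : ℝ)) * (4 * H ^ 2) :=
      mul_le_mul_of_nonneg_right hκ23 (by positivity)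
    have h3 : H ^ (-(23 / 2) : ℝ) * H ^ 2 = H ^ (-(19 / 2) : ℝ) := by
      rw [← Real.rpow_natCast H 2, ← Real.rpow_add hH0]; norm_num
    calc κ ^ 23 * a 0 ≤ (K ^ 23 * H ^ (-(23 / 2) : ℝ)) * (4 * H ^ 2) := h1.trans h2
      _ = 4 * K ^ 23 * (H ^ (-(23 / 2) : ℝ) * H ^ 2) := by ring
      _ = 4 * K ^ 23 * H ^ (-(19 / 2) : ℝ) := by rw [h3]
  have ha23 : a 23 ≤ (4 * K ^ 23 + 2 * L) * H ^ (-(19 / 2) : ℝ) := by
    have h1 : H ^ (-(12 : ℝ)) ≤ H ^ (-(19 / 2) : ℝ) := MixIter_rpow_le hH1 (by norm_num)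
    have h2 : L * H ^ (-(12 : ℝ)) ≤ L * H ^ (-(19 / 2) : ℝ) := mul_le_mul_of_nonneg_left h1 hL0.le
    calc a 23 ≤ 4 * K ^ 23 * H ^ (-(19 / 2) : ℝ) + 2 * (L * H ^ (-(12 : ℝ))) := by linarith
      _ ≤ 4 * K ^ 23 * H ^ (-(19 / 2) : ℝ) + 2 * (L * H ^ (-(19 / 2) : ℝ)) := by linarith
      _ = (4 * K ^ 23 + 2 * L) * H ^ (-(19 / 2) : ℝ) := by ring
  have hS23 : S 23 ≤ (C2 * (4 * K ^ 23 + 2 * L) + 64 * C2) * H ^ (-(9 : ℝ)) := by
    have h1 := hS 23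
    have h2 : C2 * W * a 23 ≤ C2 * W * ((4 * K ^ 23 + 2 * L) * H ^ (-(19 / 2) : ℝ)) :=
      mul_le_mul_of_nonneg_left ha23 (by positivity)
    have h3 : C2 * W * ((4 * K ^ 23 + 2 * L) * H ^ (-(19 / 2) : ℝ)) ≤
        C2 * H ^ (2 / 25 : ℝ) * ((4 * K ^ 23 + 2 * L) * H ^ (-(19 / 2) : ℝ)) := by
      apply mul_le_mul_of_nonneg_right _ (by positivity)
      exact mul_le_mul_of_nonneg_left hW' hC2.le
    have h4 : H ^ (2 / 25 : ℝ) * H ^ (-(19 / 2) : ℝ) ≤ H ^ (-(9 : ℝ)) := by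
      rw [← Real.rpow_add hH0]
      exact MixIter_rpow_le hH1 (by norm_num)
    have h5 : H ^ (-(12 : ℝ)) ≤ H ^ (-(9 : ℝ)) := MixIter_rpow_le hH1 (by norm_num)
    have h6 : C2 * E ≤ 64 * C2 * H ^ (-(9 : ℝ)) := by
      calc C2 * E ≤ C2 * (64 * H ^ (-(12 : ℝ))) := mul_le_mul_of_nonneg_left hE' hC2.le
        _ = 64 * C2 * H ^ (-(12 : ℝ)) := by ring
        _ ≤ 64 * C2 * H ^ (-(9 : ℝ)) := mul_le_mul_of_nonneg_left h5 (by positivity)
    have h7 : C2 * H ^ (2 / 25 : ℝ) * ((4 * K ^ 23 + 2 * L) * H ^ (-(19 / 2) : ℝ)) ≤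
        C2 * (4 * K ^ 23 + 2 * L) * H ^ (-(9 : ℝ)) := by
      calc C2 * H ^ (2 / 25 : ℝ) * ((4 * K ^ 23 + 2 * L) * H ^ (-(19 / 2) : ℝ))
          = C2 * (4 * K ^ 23 + 2 * L) * (H ^ (2 / 25 : ℝ) * H ^ (-(19 / 2) : ℝ)) := by ring
        _ ≤ C2 * (4 * K ^ 23 + 2 * L) * H ^ (-(9 : ℝ)) :=
            mul_le_mul_of_nonneg_left h4 (by positivity)
    calc S 23 ≤ C2 * (4 * K ^ 23 + 2 * L) * H ^ (-(9 : ℝ)) + 64 * C2 * H ^ (-(9 : ℝ)) := by
          linarith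
      _ = (C2 * (4 * K ^ 23 + 2 * L) + 64 * C2) * H ^ (-(9 : ℝ)) := by ring
  have h5 : H ^ (-(12 : ℝ)) ≤ H ^ (-(9 : ℝ)) := MixIter_rpow_le hH1 (by norm_num)
  calc N ≤ C1 * S 23 + C1 * E := hN
    _ ≤ C1 * ((C2 * (4 * K ^ 23 + 2 * L) + 64 * C2) * H ^ (-(9 : ℝ))) +
        C1 * (64 * H ^ (-(9 : ℝ))) := by
        apply add_le_add
        · exact mul_le_mul_of_nonneg_left hS23 hC1.le
        · apply mul_le_mul_of_nonneg_left _ hC1.le
          exact hE'.trans (mul_le_mul_of_nonneg_left h5 (by norm_num))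
    _ = (C1 * (C2 * (4 * K ^ 23 + 2 * L) + 64 * C2) + 64 * C1) * H ^ (-(9 : ℝ)) := by ring

theorem MixIter_sqrt {x C H : ℝ} (hC : 0 < C) (hH : 0 < H) (hx : x ^ 2 ≤ C * H ^ (-(9 : ℝ))) :
    x ≤ Real.sqrt C * H ^ (-(9 / 2 : ℝ)) := by
  have h1 : (Real.sqrt C * H ^ (-(9 / 2 : ℝ))) ^ 2 = C * H ^ (-(9 : ℝ)) := by
    rw [mul_pow, Real.sq_sqrt hC.le, ← Real.rpow_natCast (H ^ (-(9 / 2 : ℝ))) 2,
      ← Real.rpow_mul hH.le]
    norm_num
  rw [← h1] at hx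
  exact le_of_sq_le_sq hx (by positivity)

theorem MixIter_int {q : ℕ} [NeZero q] {f : ℝ → ZMod q × ZMod q → ℂ} {B : ℝ}
    (_hB : 0 ≤ B) (hf : ∀ y ∈ Set.Icc (0 : ℝ) 1, nrm q (f y) ≤ B) :
    ∫ y in (0 : ℝ)..1, nsq q (f y) ≤ B ^ 2 := by
  have h1 : ‖∫ y in (0 : ℝ)..1, nsq q (f y)‖ ≤ B ^ 2 * |(1 : ℝ) - 0| := by
    apply intervalIntegral.norm_integral_le_of_norm_le_const
    intro y hy
    rw [Set.uIoc_of_le (by norm_num : (0 : ℝ) ≤ 1)] at hy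
    have h2 := hf y ⟨hy.1.le, hy.2⟩
    rw [← nrm_sq, Real.norm_of_nonneg (sq_nonneg _)]
    exact pow_le_pow_left₀ (nrm_nonneg _ _) h2 2
  have h2 := (le_abs_self _).trans h1
  simpa using h2

/-- powers of `Z = H^4` -/
theorem MixIter_W {H s : ℝ} (hH : 1 ≤ H) (hs : 2 - s ≤ 1 / 50) :
    (H ^ 4) ^ (2 - s) ≤ H ^ (2 / 25 : ℝ) := by
  have hH0 : 0 < H := by linarith
  rw [← Real.rpow_natCast H 4, ← Real.rpow_mul hH0.le]
  apply MixIter_rpow_le hH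
  push_cast
  linarith

theorem MixIter_E {H l : ℝ} (hH : 0 < H) (hl0 : 0 ≤ l) (hl : l ≤ 8 * H ^ 2) :
    l ^ 2 / (H ^ 4) ^ 4 ≤ 64 * H ^ (-(12 : ℝ)) := by
  have h1 : l ^ 2 ≤ (8 * H ^ 2) ^ 2 := pow_le_pow_left₀ hl0 hl 2
  have h2 : H ^ (-(12 : ℝ)) = 1 / H ^ 12 := by
    rw [Real.rpow_neg hH.le, one_div]
    congr 1
    exact_mod_cast Real.rpow_natCast H 12
  rw [h2, mul_one_div, div_le_div_iff₀ (by positivity) (by positivity)]
  calc l ^ 2 * H ^ 12 ≤ (8 * H ^ 2) ^ 2 * H ^ 12 := mul_le_mul_of_nonneg_right h1 (by positivity)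
    _ = 64 * (H ^ 4) ^ 4 := by ring

/-- case T: `q ≤ 2 H`, `H/2 ≤ |τ| ≤ 3 H`; after 24 steps the sup norm is `≤ C H^(-4.5)`.
(All implied constants depend on `A` only.) Proof: `f_j = blk^[j] (const h)`, `nrm h ≤ q ≤ 2 H`,
`l_j ≤ 2 |τ| nrm h ≤ 12 H^2`; `A_j = ∫ nsq f_j`; `blk_tau` and `sample_pass` with `Z = H^4` give
`A_{j+1} ≤ κ A_j + E`, `κ = C H^(8 (2 - s)) (1 + 4 log H) / H ≤ C' H^(-1/2)`, `E = C H^(4 - 16)`.
For `H ≥ H1` `κ ≤ 1/2`.  Last step: `blk_point` and `sample_pass`. -/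
theorem iter_T (hA : 1 ≤ A) (hs : 2 - sexp A ≤ 1 / 50) : ∃ C H1 : ℝ, 0 < C ∧ 2 ≤ H1 ∧
    ∀ (q : ℕ) [NeZero q] (H τ : ℝ), H1 ≤ H → (q : ℝ) ≤ 2 * H → H / 2 ≤ |τ| → |τ| ≤ 3 * H →
    ∀ h : ZMod q × ZMod q → ℂ, (∀ x, ‖h x‖ ≤ 1) →
    ∀ y ∈ Set.Icc (0 : ℝ) 1,
      nrm q (((blk q (passF A (H ^ 4)) τ)^[24] (fun _ => h)) y) ≤ C * H ^ (-(9 / 2 : ℝ)) := by
  obtain ⟨C1', hC1', htau⟩ := blk_tau (A := A) hA
  obtain ⟨C2, hC2, hsamp⟩ := sample_pass (A := A) hA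
  obtain ⟨c, C₀, hc, hC₀, hcard⟩ := card_passF_bounds (A := A) hA
  set C1 : ℝ := max C1' 2 with hC1
  have hC1pos : 0 < C1 := lt_of_lt_of_le hC1' (le_max_left _ _)
  obtain ⟨C, H1, hC, hH1, hnum⟩ := MixIter_num hC1pos hC2
  refine ⟨Real.sqrt C, H1, Real.sqrt_pos.mpr hC, hH1, ?_⟩
  intro q _ H τ hH hq hτ1 hτ2 h hh y hy
  have hH2 : 2 ≤ H := hH1.trans hH
  have hH1' : 1 ≤ H := by linarith
  have hH0 : 0 < H := by linarith
  have hτpos : 0 < |τ| := by linarith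
  set Z : ℝ := H ^ 4 with hZ
  have hZ2 : 2 ≤ Z := by
    rw [hZ]
    calc (2 : ℝ) ≤ 2 ^ 4 := by norm_num
      _ ≤ H ^ 4 := pow_le_pow_left₀ (by norm_num) hH2 4
  have hZ0 : 0 < Z := by linarith
  have hZ1 : 1 < Z := by linarith
  set P := passF A Z with hP
  have hPne : P.Nonempty := by
    rw [← Finset.card_pos]
    have := (hcard Z hZ1).1
    have h2 : (0 : ℝ) < P.card := lt_of_lt_of_le (by positivity) this
    exact_mod_cast h2
  have hPnil : ∀ M ∈ P, M ≠ [] := fun M hM => (mem_passF.1 hM).1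
  have hq0 : (0 : ℝ) ≤ q := Nat.cast_nonneg q
  have hhn : nrm q h ≤ 2 * H := by
    have := nrm_le_of_bound q h zero_le_one hh
    linarith
  set l : ℝ := 8 * H ^ 2 with hl
  have hl0 : 0 ≤ l := by positivity
  have hlb : |τ| * (2 * H) + l / 4 ≤ l := by
    have : |τ| * (2 * H) ≤ 3 * H * (2 * H) := mul_le_mul_of_nonneg_right hτ2 (by positivity)
    rw [hl]; nlinarith
  have hinv := MixIter_inv q P hPnil τ h (by positivity : (0 : ℝ) ≤ 2 * H) hhn hlb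
  set f : ℕ → ℝ → ZMod q × ZMod q → ℂ := fun k => (blk q P τ)^[k] (fun _ => h) with hf
  have hfsucc : ∀ k, f (k + 1) = blk q P τ (f k) := fun k => by
    simp only [hf, Function.iterate_succ_apply']
  set a : ℕ → ℝ := fun j => ∫ y in (0 : ℝ)..1, nsq q (f j y) with ha
  set S : ℕ → ℝ := fun j => (1 / (P.card : ℝ)) * ∑ M ∈ P, nsq q (f j (eta M)) with hS
  set T : ℝ := Z ^ (2 - sexp A) * (1 + Real.log Z) / |τ| with hT
  set E : ℝ := l ^ 2 / Z ^ 4 with hE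
  set W : ℝ := Z ^ (2 - sexp A) with hW
  have hlogZ : 0 ≤ Real.log Z := Real.log_nonneg hZ1.le
  have hT0 : 0 ≤ T := by positivity
  have hE0 : 0 ≤ E := by positivity
  have hW0 : 0 ≤ W := by positivity
  have hWle : W ≤ H ^ (2 / 25 : ℝ) := MixIter_W hH1' hs
  have hTle : T ≤ 26 * H ^ (-(29 / 50) : ℝ) := by
    have h1 : Real.log Z = 4 * Real.log H := by rw [hZ, Real.log_pow]; norm_num
    have h2 : Real.log H ≤ H ^ (17 / 50 : ℝ) / (17 / 50) :=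
      Real.log_le_rpow_div hH0.le (by norm_num)
    have h3 : (1 : ℝ) ≤ H ^ (17 / 50 : ℝ) := Real.one_le_rpow hH1' (by norm_num)
    have h4 : 1 + Real.log Z ≤ 13 * H ^ (17 / 50 : ℝ) := by
      rw [h1]; linarith
    have h5 : T ≤ H ^ (2 / 25 : ℝ) * (13 * H ^ (17 / 50 : ℝ)) / (H / 2) := by
      rw [hT]
      apply div_le_div₀ (by positivity) _ (by positivity) hτ1
      exact mul_le_mul hWle h4 (by positivity) (by positivity)
    have h6 : H ^ (2 / 25 : ℝ) * (13 * H ^ (17 / 50 : ℝ)) / (H / 2) =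
        26 * H ^ (-(29 / 50) : ℝ) := by
      have h7 : H ^ (2 / 25 : ℝ) * H ^ (17 / 50 : ℝ) = H ^ (-(29 / 50) : ℝ) * H := by
        have h8 : H ^ (-(29 / 50) : ℝ) * H = H ^ (-(29 / 50) : ℝ) * H ^ (1 : ℝ) := by
          rw [Real.rpow_one]
        rw [h8, ← Real.rpow_add hH0, ← Real.rpow_add hH0]
        norm_num
      rw [div_eq_iff (by positivity)]
      calc H ^ (2 / 25 : ℝ) * (13 * H ^ (17 / 50 : ℝ))
          = 13 * (H ^ (2 / 25 : ℝ) * H ^ (17 / 50 : ℝ)) := by ring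
        _ = 13 * (H ^ (-(29 / 50) : ℝ) * H) := by rw [h7]
        _ = 26 * H ^ (-(29 / 50) : ℝ) * (H / 2) := by ring
    exact h5.trans h6.le
  have hEle : E ≤ 64 * H ^ (-(12 : ℝ)) := MixIter_E hH0 hl0 le_rfl
  have ha0 : a 0 ≤ 4 * H ^ 2 := by
    have := MixIter_int (by positivity : (0 : ℝ) ≤ 2 * H) (hinv 0).1
    calc a 0 ≤ (2 * H) ^ 2 := this
      _ = 4 * H ^ 2 := by ring
  have hSle : ∀ j, S j ≤ C2 * W * a j + C2 * E := by
    intro j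
    have := hsamp q Z hZ2 (f j) l hl0 (hinv j).2
    calc S j ≤ C2 * Z ^ (2 - sexp A) * (∫ y in (0 : ℝ)..1, nsq q (f j y)) +
          C2 * l ^ 2 / Z ^ 4 := this
      _ = C2 * W * a j + C2 * E := by rw [hE]; simp only [hW, ha]; ring
  have hSnn : ∀ j, 0 ≤ S j := by
    intro j
    apply mul_nonneg (by positivity)
    apply Finset.sum_nonneg
    intro M _
    exact MixT_nsq_nonneg q _
  have hale : ∀ j, a (j + 1) ≤ C1 * T * S j + C1 * E := by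
    intro j
    have h1 := htau q Z hZ2 τ (by linarith) (by
      calc |τ| ≤ 3 * H := hτ2
        _ ≤ H ^ 2 * H := by nlinarith
        _ ≤ Z ^ 2 := by
          rw [hZ]
          calc H ^ 2 * H = H ^ 3 := by ring
            _ ≤ H ^ 8 := pow_le_pow_right₀ hH1' (by norm_num)
            _ = (H ^ 4) ^ 2 := by ring) (f j) l hl0 (hinv j).2
    have h2 : a (j + 1) = ∫ y in (0 : ℝ)..1, nsq q (blk q P τ (f j) y) := by
      simp only [ha, hfsucc]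
    rw [h2]
    calc (∫ y in (0 : ℝ)..1, nsq q (blk q P τ (f j) y)) ≤ C1' * T * S j + C1' * l ^ 2 / Z ^ 4 := h1
      _ = C1' * (T * S j) + C1' * E := by rw [hE]; ring
      _ ≤ C1 * (T * S j) + C1 * E := by
        apply add_le_add
        · exact mul_le_mul_of_nonneg_right (le_max_left _ _) (mul_nonneg hT0 (hSnn j))
        · exact mul_le_mul_of_nonneg_right (le_max_left _ _) hE0
      _ = C1 * T * S j + C1 * E := by ring
  have hfin : nsq q (f 24 y) ≤ C1 * S 23 + C1 * E := by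
    rw [hfsucc 23]
    have h1 := blk_point q hZ2 hPne τ (f 23) hl0 (hinv 23).2 y hy
    calc nsq q (blk q P τ (f 23) y) ≤ 2 * S 23 + 2 * l ^ 2 / Z ^ 4 := h1
      _ = 2 * S 23 + 2 * E := by rw [hE]; ring
      _ ≤ C1 * S 23 + C1 * E := by
        apply add_le_add
        · exact mul_le_mul_of_nonneg_right (le_max_right _ _) (hSnn 23)
        · exact mul_le_mul_of_nonneg_right (le_max_right _ _) hE0
  have hres := hnum H hH a S W T E (nsq q (f 24 y)) hW0 hT0 hE0 hWle hTle hEle ha0 hSle hale hfin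
  rw [← nrm_sq] at hres
  exact MixIter_sqrt hC hH0 hres

/-- case D: `H = q`, `|τ| ≤ 3 q`, `h` new. -/
theorem iter_D (hA : 1 ≤ A) (hs : 2 - sexp A ≤ 1 / 50) : ∃ C H1 : ℝ, 0 < C ∧ 2 ≤ H1 ∧
    ∀ (q : ℕ) [NeZero q] (τ : ℝ), H1 ≤ (q : ℝ) → |τ| ≤ 3 * q →
    ∀ h : ZMod q × ZMod q → ℂ, IsNew q h → (∀ x, ‖h x‖ ≤ 1) →
    ∀ y ∈ Set.Icc (0 : ℝ) 1,
      nrm q (((blk q (prodF (passF A ((q : ℝ) ^ 4)) (passF A ((q : ℝ) ^ (3 / 2 : ℝ)))) τ)^[24]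
        (fun _ => h)) y) ≤ C * (q : ℝ) ^ (-(9 / 2 : ℝ)) := by
  obtain ⟨C1, hC1, hd⟩ := blk_d (A := A) hA (1 / 50) (by norm_num)
  obtain ⟨C2, hC2, hsamp⟩ := sample_pass (A := A) hA
  obtain ⟨C, H1, hC, hH1, hnum⟩ := MixIter_num hC1 hC2
  refine ⟨Real.sqrt C, H1, Real.sqrt_pos.mpr hC, hH1, ?_⟩
  intro q _ τ hH hτ2 h hnew hh y hy
  set H : ℝ := (q : ℝ) with hHdef
  have hH2 : 2 ≤ H := hH1.trans hH
  have hq2 : 2 ≤ q := by
    have h0 : ((2 : ℕ) : ℝ) ≤ (q : ℝ) := by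
      rw [Nat.cast_ofNat]
      exact hH2
    exact Nat.cast_le.1 h0
  have hH1' : 1 ≤ H := by linarith
  have hH0 : 0 < H := by linarith
  set Z : ℝ := H ^ 4 with hZ
  have hZ2 : 2 ≤ Z := by
    rw [hZ]
    calc (2 : ℝ) ≤ 2 ^ 4 := by norm_num
      _ ≤ H ^ 4 := pow_le_pow_left₀ (by norm_num) hH2 4
  have hZ0 : 0 < Z := by linarith
  have hZ1 : 1 < Z := by linarith
  set P := prodF (passF A Z) (passF A (H ^ (3 / 2 : ℝ))) with hP
  have hPnil : ∀ M ∈ P, M ≠ [] := by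
    intro M hM
    obtain ⟨a, ha, b, hb, rfl⟩ := base3_mem_prodF.1 hM
    intro h0
    exact (mem_passF.1 ha).1 (List.append_eq_nil_iff.1 h0).1
  have hhn : nrm q h ≤ H := by
    have := nrm_le_of_bound q h zero_le_one hh
    linarith
  set l : ℝ := 8 * H ^ 2 with hl
  have hl0 : 0 ≤ l := by positivity
  have hlb : |τ| * H + l / 4 ≤ l := by
    have : |τ| * H ≤ 3 * H * H := mul_le_mul_of_nonneg_right hτ2 hH0.le
    rw [hl]; nlinarith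
  have hinv := MixIter_inv q P hPnil τ h hH0.le hhn hlb
  have hnewk := MixIter_new q P τ h hnew
  set f : ℕ → ℝ → ZMod q × ZMod q → ℂ := fun k => (blk q P τ)^[k] (fun _ => h) with hf
  have hfsucc : ∀ k, f (k + 1) = blk q P τ (f k) := fun k => by
    simp only [hf, Function.iterate_succ_apply']
  set a : ℕ → ℝ := fun j => ∫ y in (0 : ℝ)..1, nsq q (f j y) with ha
  set S : ℕ → ℝ := fun j => (1 / ((passF A Z).card : ℝ)) * ∑ M ∈ passF A Z, nsq q (f j (eta M))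
    with hS
  set T : ℝ := H ^ (5 - 3 * sexp A + 1 / 50) with hT
  set E : ℝ := l ^ 2 / Z ^ 4 with hE
  set W : ℝ := Z ^ (2 - sexp A) with hW
  have hT0 : 0 ≤ T := by positivity
  have hE0 : 0 ≤ E := by positivity
  have hW0 : 0 ≤ W := by positivity
  have hWle : W ≤ H ^ (2 / 25 : ℝ) := MixIter_W hH1' hs
  have hTle' : T ≤ H ^ (-(29 / 50) : ℝ) := MixIter_rpow_le hH1' (by linarith)
  have hTle : T ≤ 26 * H ^ (-(29 / 50) : ℝ) := by
    have : 0 < H ^ (-(29 / 50) : ℝ) := by positivity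
    linarith
  have hT1 : T ≤ 1 := hTle'.trans (Real.rpow_le_one_of_one_le_of_nonpos hH1' (by norm_num))
  have hEle : E ≤ 64 * H ^ (-(12 : ℝ)) := MixIter_E hH0 hl0 le_rfl
  have ha0 : a 0 ≤ 4 * H ^ 2 := by
    have := MixIter_int hH0.le (hinv 0).1
    have h2 : 0 ≤ H ^ 2 := by positivity
    calc a 0 ≤ H ^ 2 := this
      _ ≤ 4 * H ^ 2 := by linarith
  have hSle : ∀ j, S j ≤ C2 * W * a j + C2 * E := by
    intro j
    have := hsamp q Z hZ2 (f j) l hl0 (hinv j).2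
    calc S j ≤ C2 * Z ^ (2 - sexp A) * (∫ y in (0 : ℝ)..1, nsq q (f j y)) +
          C2 * l ^ 2 / Z ^ 4 := this
      _ = C2 * W * a j + C2 * E := by rw [hE]; simp only [hW, ha]; ring
  have hSnn : ∀ j, 0 ≤ S j := by
    intro j
    apply mul_nonneg (by positivity)
    apply Finset.sum_nonneg
    intro M _
    exact MixT_nsq_nonneg q _
  have hpt : ∀ j, ∀ y ∈ Set.Icc (0 : ℝ) 1, nsq q (f (j + 1) y) ≤ C1 * T * S j + C1 * E := by
    intro j y hy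
    rw [hfsucc j]
    have h1 := hd q hq2 Z hZ2 τ (f j) l hl0 (hinv j).2 (hnewk j) y hy
    calc nsq q (blk q P τ (f j) y) ≤ C1 * T * S j + C1 * l ^ 2 / Z ^ 4 := h1
      _ = C1 * T * S j + C1 * E := by rw [hE]; ring
  have hale : ∀ j, a (j + 1) ≤ C1 * T * S j + C1 * E := by
    intro j
    have h0 : 0 ≤ C1 * T * S j + C1 * E := by
      have := hSnn j
      positivity
    have h1 : ∀ y ∈ Set.Icc (0 : ℝ) 1, nrm q (f (j + 1) y) ≤ Real.sqrt (C1 * T * S j + C1 * E) := by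
      intro y hy
      apply Real.le_sqrt_of_sq_le
      rw [nrm_sq]
      exact hpt j y hy
    have h2 := MixIter_int (Real.sqrt_nonneg _) h1
    rw [Real.sq_sqrt h0] at h2
    exact h2
  have hfin : nsq q (f 24 y) ≤ C1 * S 23 + C1 * E := by
    have h1 := hpt 23 y hy
    have h2 : C1 * T * S 23 ≤ C1 * S 23 := by
      apply mul_le_mul_of_nonneg_right _ (hSnn 23)
      nlinarith
    linarith
  have hres := hnum H hH a S W T E (nsq q (f 24 y)) hW0 hT0 hE0 hWle hTle hEle ha0 hSle hale hfin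
  rw [← nrm_sq] at hres
  exact MixIter_sqrt hC hH0 hres

end Pool.Agent.W_f50700_h3
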