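import Pool.Agent.W_f50700_h3.Mix0

/-!
MixT: the saving in `τ` (row 436, Lemma T).
-/

open Matrix

namespace Pool.Agent.W_f50700_h3

variable {A : ℕ}

theorem MixT_nsq_smul (q : ℕ) [NeZero q] (c : ℂ) (h : ZMod q × ZMod q → ℂ) :
    nsq q (fun x => c * h x) = ‖c‖ ^ 2 * nsq q h := by
  unfold nsq
  rw [Finset.mul_sum]
  refine Finset.sum_congr rfl (fun x _ => ?_)
  rw [norm_mul, mul_pow]

theorem MixT_nsq_nonneg (q : ℕ) [NeZero q] (h : ZMod q × ZMod q → ℂ) : 0 ≤ nsq q h :=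
  Finset.sum_nonneg (fun _ _ => by positivity)

theorem MixT_nsq_le_two (q : ℕ) [NeZero q] (f g : ZMod q × ZMod q → ℂ) :
    nsq q f ≤ 2 * nsq q g + 2 * nsq q (fun x => f x - g x) := by
  unfold nsq
  rw [Finset.mul_sum, Finset.mul_sum, ← Finset.sum_add_distrib]
  refine Finset.sum_le_sum (fun x _ => ?_)
  have h1 : ‖f x‖ ≤ ‖g x‖ + ‖f x - g x‖ := by
    have h2 : f x = g x + (f x - g x) := by ring
    calc ‖f x‖ = ‖g x + (f x - g x)‖ := by rw [← h2]
      _ ≤ _ := norm_add_le _ _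
  have h3 : ‖f x‖ ^ 2 ≤ (‖g x‖ + ‖f x - g x‖) ^ 2 := by
    exact pow_le_pow_left₀ (norm_nonneg _) h1 2
  nlinarith [sq_nonneg (‖g x‖ - ‖f x - g x‖)]

theorem MixT_diff {q : ℕ} [NeZero q] {Z : ℝ} (hZ : 2 ≤ Z) {f : ℝ → ZMod q × ZMod q → ℂ} {l : ℝ}
    (hl : 0 ≤ l) (hL : LipN q l f) {M : List (Lt A)} (hM : M ∈ passF A Z) {y : ℝ}
    (hy : y ∈ Set.Icc (0 : ℝ) 1) :
    nsq q (fun x => f (cact M y) x - f (eta M) x) ≤ l ^ 2 / Z ^ 4 := by
  have h1 := hL (cact M y) (cact_mem M hy) (eta M) (eta_mem M)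
  have h2 := cact_sub_eta M hy
  have h3 := (passF_bounds hM).1
  have hZ0 : 0 < Z := by linarith
  have h4 : 1 / (F M : ℝ) ^ 2 ≤ 1 / Z ^ 2 := by
    apply one_div_le_one_div_of_le (by positivity)
    exact pow_le_pow_left₀ hZ0.le h3 2
  have h5 : nrm q (fun x => f (cact M y) x - f (eta M) x) ≤ l / Z ^ 2 := by
    calc _ ≤ l * |cact M y - eta M| := h1
      _ ≤ l * (1 / Z ^ 2) := mul_le_mul_of_nonneg_left (h2.trans h4) hl
      _ = l / Z ^ 2 := by ring
  rw [← nrm_sq]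
  calc _ ≤ (l / Z ^ 2) ^ 2 := pow_le_pow_left₀ (nrm_nonneg _ _) h5 2
    _ = l ^ 2 / Z ^ 4 := by rw [div_pow]; ring

/-- pointwise bound without saving: Jensen and replacing `cact M y` by `eta M` -/
theorem blk_point (q : ℕ) [NeZero q] {Z : ℝ} (hZ : 2 ≤ Z) (hne : (passF A Z).Nonempty) (τ : ℝ)
    (f : ℝ → ZMod q × ZMod q → ℂ) {l : ℝ} (hl : 0 ≤ l) (hL : LipN q l f) :
    ∀ y ∈ Set.Icc (0 : ℝ) 1, nsq q (blk q (passF A Z) τ f y) ≤
      2 * ((1 / ((passF A Z).card : ℝ)) * ∑ M ∈ passF A Z, nsq q (f (eta M))) +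
      2 * l ^ 2 / Z ^ 4 := by
  intro y hy
  have hN : (0 : ℝ) < (passF A Z).card := by exact_mod_cast hne.card_pos
  have h1 : nsq q (blk q (passF A Z) τ f y) ≤
      (1 / ((passF A Z).card : ℝ)) * ∑ M ∈ passF A Z, nsq q (fun x =>
        Complex.exp (((τ * Real.log (cpsi M y) : ℝ) : ℂ) * Complex.I) *
          f (cact M y) (vact q (mat M) x)) :=
    nsq_avg_le q (passF A Z) hne _
  have h2 : ∀ M ∈ passF A Z, nsq q (fun x =>
        Complex.exp (((τ * Real.log (cpsi M y) : ℝ) : ℂ) * Complex.I) *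
          f (cact M y) (vact q (mat M) x)) ≤ 2 * nsq q (f (eta M)) + 2 * (l ^ 2 / Z ^ 4) := by
    intro M hM
    rw [MixT_nsq_smul q _ (fun x => f (cact M y) (vact q (mat M) x)),
      Complex.norm_exp_ofReal_mul_I, one_pow, one_mul, nsq_vact]
    have h3 := MixT_nsq_le_two q (f (cact M y)) (f (eta M))
    have h4 := MixT_diff hZ hl hL hM hy
    linarith
  calc _ ≤ _ := h1
    _ ≤ (1 / ((passF A Z).card : ℝ)) * ∑ M ∈ passF A Z,
        (2 * nsq q (f (eta M)) + 2 * (l ^ 2 / Z ^ 4)) :=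
      mul_le_mul_of_nonneg_left (Finset.sum_le_sum h2) (by positivity)
    _ = _ := by
      rw [Finset.sum_add_distrib, ← Finset.mul_sum, Finset.sum_const, nsmul_eq_mul]
      field_simp

/-- the main part -/
noncomputable def MixT_main (q : ℕ) (P : Finset (List (Lt A))) (τ : ℝ)
    (f : ℝ → ZMod q × ZMod q → ℂ) (y : ℝ) : ZMod q × ZMod q → ℂ :=
  fun x => ∑ M ∈ P, Complex.exp (((τ * Real.log ((F M : ℝ) + (m12 M : ℝ) * y) : ℝ) : ℂ) *
    Complex.I) * f (eta M) (vact q (mat M) x)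

theorem MixT_main_norm (q : ℕ) [NeZero q] (P : Finset (List (Lt A))) (τ : ℝ)
    (f : ℝ → ZMod q × ZMod q → ℂ) (y : ℝ) :
    nsq q (MixT_main q P τ f y) =
      ‖∑ M ∈ P, Complex.exp (((τ * Real.log ((F M : ℝ) + (m12 M : ℝ) * y) : ℝ) : ℂ) *
        Complex.I) • (WithLp.toLp 2 (fun x => f (eta M) (vact q (mat M) x)) :
          EuclideanSpace ℂ (ZMod q × ZMod q))‖ ^ 2 := by
  rw [← nrm_sq, nrm_eq_norm]
  congr 2
  ext x
  simp [MixT_main, WithLp.ofLp_sum]

theorem MixT_blk_sub (q : ℕ) [NeZero q] {Z : ℝ} (hZ : 2 ≤ Z) (hne : (passF A Z).Nonempty) (τ : ℝ)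
    (f : ℝ → ZMod q × ZMod q → ℂ) {l : ℝ} (hl : 0 ≤ l) (hL : LipN q l f) {y : ℝ}
    (hy : y ∈ Set.Icc (0 : ℝ) 1) : nsq q (blk q (passF A Z) τ f y) ≤
      2 * ((1 / ((passF A Z).card : ℝ)) ^ 2 * nsq q (MixT_main q (passF A Z) τ f y)) +
      2 * (l ^ 2 / Z ^ 4) := by
  have hN : (0 : ℝ) < (passF A Z).card := by exact_mod_cast hne.card_pos
  have h1 := MixT_nsq_le_two q (blk q (passF A Z) τ f y)
    (fun x => (1 / ((passF A Z).card : ℂ)) * MixT_main q (passF A Z) τ f y x)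
  have h2 : nsq q (fun x => (1 / ((passF A Z).card : ℂ)) * MixT_main q (passF A Z) τ f y x) =
      (1 / ((passF A Z).card : ℝ)) ^ 2 * nsq q (MixT_main q (passF A Z) τ f y) := by
    rw [MixT_nsq_smul]
    congr 2
    rw [norm_div, norm_one, Complex.norm_natCast]
  have h3 : nsq q (fun x => blk q (passF A Z) τ f y x -
      (1 / ((passF A Z).card : ℂ)) * MixT_main q (passF A Z) τ f y x) ≤ l ^ 2 / Z ^ 4 := by
    have h4 : (fun x => blk q (passF A Z) τ f y x -
        (1 / ((passF A Z).card : ℂ)) * MixT_main q (passF A Z) τ f y x) =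
        (fun x => (1 / ((passF A Z).card : ℂ)) * ∑ M ∈ passF A Z,
          Complex.exp (((τ * Real.log (cpsi M y) : ℝ) : ℂ) * Complex.I) *
          (f (cact M y) (vact q (mat M) x) - f (eta M) (vact q (mat M) x))) := by
      funext x
      unfold blk MixT_main
      rw [← mul_sub, ← Finset.sum_sub_distrib]
      congr 1
      refine Finset.sum_congr rfl (fun M _ => ?_)
      rw [mul_sub]
      rfl
    rw [h4]
    refine (nsq_avg_le q (passF A Z) hne _).trans ?_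
    have h5 : ∀ M ∈ passF A Z, nsq q (fun x =>
        Complex.exp (((τ * Real.log (cpsi M y) : ℝ) : ℂ) * Complex.I) *
          (f (cact M y) (vact q (mat M) x) - f (eta M) (vact q (mat M) x))) ≤ l ^ 2 / Z ^ 4 := by
      intro M hM
      rw [MixT_nsq_smul q _ (fun x => f (cact M y) (vact q (mat M) x) -
        f (eta M) (vact q (mat M) x)), Complex.norm_exp_ofReal_mul_I, one_pow, one_mul,
        nsq_vact q M (fun x => f (cact M y) x - f (eta M) x)]
      exact MixT_diff hZ hl hL hM hy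
    calc _ ≤ (1 / ((passF A Z).card : ℝ)) * ∑ M ∈ passF A Z, (l ^ 2 / Z ^ 4) :=
          mul_le_mul_of_nonneg_left (Finset.sum_le_sum h5) (by positivity)
      _ = l ^ 2 / Z ^ 4 := by
          rw [Finset.sum_const, nsmul_eq_mul]
          field_simp
  rw [h2] at h1
  linarith

theorem MixT_cont (q : ℕ) [NeZero q] (P : Finset (List (Lt A))) (τ : ℝ)
    (f : ℝ → ZMod q × ZMod q → ℂ) :
    ContinuousOn (fun y => nsq q (MixT_main q P τ f y)) (Set.Icc (0 : ℝ) 1) := by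
  unfold nsq MixT_main
  refine continuousOn_finset_sum _ (fun x _ => ?_)
  refine ContinuousOn.pow (ContinuousOn.norm ?_) 2
  refine continuousOn_finset_sum _ (fun M _ => ?_)
  refine ContinuousOn.mul ?_ continuousOn_const
  refine Complex.continuous_exp.comp_continuousOn ?_
  refine ContinuousOn.mul ?_ continuousOn_const
  refine Complex.continuous_ofReal.comp_continuousOn ?_
  refine ContinuousOn.mul continuousOn_const ?_
  refine ContinuousOn.log ?_ ?_
  · fun_prop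
  · intro y hy
    exact (cpsi_pos M hy.1).ne'

theorem MixT_blk_cont (q : ℕ) [NeZero q] (P : Finset (List (Lt A))) (hP : ∀ M ∈ P, M ≠ [])
    (τ : ℝ) (f : ℝ → ZMod q × ZMod q → ℂ) {l : ℝ} (hl : 0 ≤ l) (hL : LipN q l f) :
    ContinuousOn (fun y => nsq q (blk q P τ f y)) (Set.Icc (0 : ℝ) 1) := by
  have hb : 0 ≤ nrm q (f 0) + l := add_nonneg (nrm_nonneg _ _) hl
  refine (blk_lip q P hP τ f hb hl ?_ hL).continuousOn
  intro y hy
  have h1 := hL y hy 0 ⟨le_rfl, zero_le_one⟩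
  have h2 : nrm q (f y) ≤ nrm q (f 0) + nrm q (fun x => f y x - f 0 x) := by
    have h3 := nrm_add_le q (f 0) (fun x => f y x - f 0 x)
    have h4 : (fun x => f 0 x + (f y x - f 0 x)) = f y := by funext x; ring
    rwa [h4] at h3
  have h5 : l * |y - 0| ≤ l := by
    rw [sub_zero, abs_of_nonneg hy.1]
    calc l * y ≤ l * 1 := mul_le_mul_of_nonneg_left hy.2 hl
      _ = l := mul_one l
  linarith

/-- Lemma T.  Proof: replace `f (cact M y)` by `f (eta M)` (error `≤ l / F M ^ 2 ≤ l / Z ^ 2`);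
main part by `osc_mean_square` with `a = F M`, `b = m12 M`, `v_M = f (eta M) ∘ M`
(in `EuclideanSpace ℂ (ZMod q × ZMod q)`), row sums by `sum_inv_dist` for the `(CA A * Z)^(-2)`
separated points `zeta M`, `card (passF A Z) ≥ c Z ^ sexp A`. -/
theorem blk_tau (hA : 1 ≤ A) : ∃ C : ℝ, 0 < C ∧ ∀ (q : ℕ) [NeZero q] (Z : ℝ), 2 ≤ Z →
    ∀ (τ : ℝ), 1 ≤ |τ| → |τ| ≤ Z ^ 2 →
    ∀ (f : ℝ → ZMod q × ZMod q → ℂ) (l : ℝ), 0 ≤ l → LipN q l f →
    ∫ y in (0 : ℝ)..1, nsq q (blk q (passF A Z) τ f y) ≤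
      C * (Z ^ (2 - sexp A) * (1 + Real.log Z) / |τ|) *
        ((1 / ((passF A Z).card : ℝ)) * ∑ M ∈ passF A Z, nsq q (f (eta M))) +
      C * l ^ 2 / Z ^ 4 := by
  classical
  obtain ⟨c, C₀, hc, hC₀, hcard⟩ := card_passF_bounds hA
  have hCA : (2 : ℝ) ≤ CA A := by unfold CA; nlinarith [sq_nonneg (A : ℝ)]
  have hCA0 : 0 < CA A := by linarith
  set C₁ : ℝ := 1 + 36 * CA A ^ 2 * (1 + Real.log (CA A)) with hC₁
  have hlogCA : 0 ≤ Real.log (CA A) := Real.log_nonneg (by linarith)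
  have hC₁pos : 0 < C₁ := by rw [hC₁]; positivity
  refine ⟨2 * (C₁ / c) + 2, by positivity, ?_⟩
  intro q _ Z hZ τ hτ1 hτ2 f l hl hL
  have hZ0 : 0 < Z := by linarith
  have hlogZ : 0 ≤ Real.log Z := Real.log_nonneg (by linarith)
  have hτ0 : 0 < |τ| := by linarith
  obtain ⟨hc1, _⟩ := hcard Z (by linarith)
  have hNpos : (0 : ℝ) < (passF A Z).card := lt_of_lt_of_le (by positivity) hc1
  have hne : (passF A Z).Nonempty := by
    rw [← Finset.card_pos]; exact_mod_cast hNpos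
  set N : ℝ := ((passF A Z).card : ℝ) with hN
  set S : ℝ := ∑ M ∈ passF A Z, nsq q (f (eta M)) with hS
  have hS0 : 0 ≤ S := Finset.sum_nonneg (fun _ _ => MixT_nsq_nonneg q _)
  -- separation
  set Δ : ℝ := 1 / (CA A * Z) ^ 2 with hΔ
  have hCZ : 1 ≤ CA A * Z := by nlinarith
  have hΔ0 : 0 < Δ := by rw [hΔ]; positivity
  have hΔ1 : Δ ≤ 1 := by
    rw [hΔ, div_le_one (by positivity)]
    nlinarith
  have hsep : ∀ i ∈ passF A Z, ∀ j ∈ passF A Z, i ≠ j → Δ ≤ |zeta i - zeta j| := by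
    intro i hi j hj hij
    refine le_trans ?_ (zeta_sep hij)
    rw [hΔ]
    apply one_div_le_one_div_of_le
    · exact mul_pos (Base2_F_pos i) (Base2_F_pos j)
    · rw [pow_two]
      exact mul_le_mul (passF_bounds hi).2 (passF_bounds hj).2 (Base2_F_pos j).le (by positivity)
  set K : ℝ := C₁ * (Z ^ 2 * (1 + Real.log Z) / |τ|) with hK
  have hKrow : ∀ i ∈ passF A Z, 1 + ∑ j ∈ (passF A Z).erase i,
      9 / (|τ| * |(m12 i : ℝ) / (F i : ℝ) - (m12 j : ℝ) / (F j : ℝ)|) ≤ K := by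
    intro i hi
    have h1 := sum_inv_dist (passF A Z) zeta hΔ0 hΔ1 (fun i _ => zeta_mem i) hsep hi
    have h2 : ∑ j ∈ (passF A Z).erase i,
        9 / (|τ| * |(m12 i : ℝ) / (F i : ℝ) - (m12 j : ℝ) / (F j : ℝ)|) =
        (9 / |τ|) * ∑ j ∈ (passF A Z).erase i, 1 / |zeta i - zeta j| := by
      rw [Finset.mul_sum]
      refine Finset.sum_congr rfl (fun j _ => ?_)
      unfold zeta
      rw [div_mul_div_comm, mul_one]
    rw [h2]
    have h3 : (2 / Δ) * (1 + Real.log (1 / Δ)) =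
        2 * (CA A ^ 2 * Z ^ 2) * (1 + 2 * (Real.log (CA A) + Real.log Z)) := by
      rw [hΔ, one_div_one_div, Real.log_pow, Real.log_mul hCA0.ne' hZ0.ne']
      push_cast
      rw [div_div_eq_mul_div, div_one, mul_pow]
    rw [h3] at h1
    have h4 : (9 / |τ|) * ∑ j ∈ (passF A Z).erase i, 1 / |zeta i - zeta j| ≤
        (9 / |τ|) * (2 * (CA A ^ 2 * Z ^ 2) * (1 + 2 * (Real.log (CA A) + Real.log Z))) :=
      mul_le_mul_of_nonneg_left h1 (by positivity)
    have h5 : (1 : ℝ) ≤ Z ^ 2 * (1 + Real.log Z) / |τ| := by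
      rw [le_div_iff₀ hτ0, one_mul]
      calc |τ| ≤ Z ^ 2 := hτ2
        _ ≤ Z ^ 2 * (1 + Real.log Z) := by
          apply le_mul_of_one_le_right (by positivity)
          linarith
    have h6 : (1 + 2 * (Real.log (CA A) + Real.log Z)) ≤
        2 * ((1 + Real.log (CA A)) * (1 + Real.log Z)) := by
      nlinarith [mul_nonneg hlogCA hlogZ]
    calc 1 + (9 / |τ|) * ∑ j ∈ (passF A Z).erase i, 1 / |zeta i - zeta j|
        ≤ 1 + (9 / |τ|) *
          (2 * (CA A ^ 2 * Z ^ 2) * (1 + 2 * (Real.log (CA A) + Real.log Z))) := by linarith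
      _ ≤ 1 + (9 / |τ|) *
          (2 * (CA A ^ 2 * Z ^ 2) * (2 * ((1 + Real.log (CA A)) * (1 + Real.log Z)))) := by
          have : (9 / |τ|) *
            (2 * (CA A ^ 2 * Z ^ 2) * (1 + 2 * (Real.log (CA A) + Real.log Z))) ≤ (9 / |τ|) *
            (2 * (CA A ^ 2 * Z ^ 2) * (2 * ((1 + Real.log (CA A)) * (1 + Real.log Z)))) := by
            apply mul_le_mul_of_nonneg_left _ (by positivity)
            exact mul_le_mul_of_nonneg_left h6 (by positivity)
          linarith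
      _ = 1 + (36 * CA A ^ 2 * (1 + Real.log (CA A))) * (Z ^ 2 * (1 + Real.log Z) / |τ|) := by
          ring
      _ ≤ K := by
          rw [hK, hC₁, add_mul, one_mul]
          linarith
  -- mean square
  have hosc := osc_mean_square (E := EuclideanSpace ℂ (ZMod q × ZMod q)) (passF A Z)
    (fun M => (F M : ℝ)) (fun M => (m12 M : ℝ))
    (fun M => WithLp.toLp 2 (fun x => f (eta M) (vact q (mat M) x))) (τ := τ) (K := K)
    (abs_pos.1 hτ0) (fun M _ => Base2_F_pos M) (fun M _ => Nat.cast_nonneg _)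
    (fun M _ => Base2_m12_le M) (by
      intro i hi j hj hij h
      have h1 := hsep i hi j hj hij
      have h2 : zeta i - zeta j = 0 := by unfold zeta; linarith
      rw [h2, abs_zero] at h1
      linarith) hKrow
  have hv : ∀ M : List (Lt A), ‖(WithLp.toLp 2 (fun x => f (eta M) (vact q (mat M) x)) :
      EuclideanSpace ℂ (ZMod q × ZMod q))‖ ^ 2 = nsq q (f (eta M)) := by
    intro M
    rw [← nrm_eq_norm, nrm_sq, nsq_vact]
  have hosc2 : ∫ y in (0 : ℝ)..1, nsq q (MixT_main q (passF A Z) τ f y) ≤ K * S := by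
    have h1 : (∫ y in (0 : ℝ)..1, nsq q (MixT_main q (passF A Z) τ f y)) =
        ∫ x in (0 : ℝ)..1, ‖∑ M ∈ passF A Z,
          Complex.exp (((τ * Real.log ((F M : ℝ) + (m12 M : ℝ) * x) : ℝ) : ℂ) *
        Complex.I) • (WithLp.toLp 2 (fun x => f (eta M) (vact q (mat M) x)) :
          EuclideanSpace ℂ (ZMod q × ZMod q))‖ ^ 2 := by
      congr 1
      funext y
      exact MixT_main_norm q (passF A Z) τ f y
    rw [h1]
    refine hosc.trans (le_of_eq ?_)
    rw [hS]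
    congr 1
    exact Finset.sum_congr rfl (fun M _ => hv M)
  -- integration
  have hint1 : IntervalIntegrable (fun y => nsq q (blk q (passF A Z) τ f y))
      MeasureTheory.volume 0 1 := by
    apply ContinuousOn.intervalIntegrable
    rw [Set.uIcc_of_le zero_le_one]
    exact MixT_blk_cont q (passF A Z) (fun M hM => (mem_passF.1 hM).1) τ f hl hL
  have hint2 : IntervalIntegrable (fun y => nsq q (MixT_main q (passF A Z) τ f y))
      MeasureTheory.volume 0 1 := by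
    apply ContinuousOn.intervalIntegrable
    rw [Set.uIcc_of_le zero_le_one]
    exact MixT_cont q (passF A Z) τ f
  have hint3 : IntervalIntegrable (fun y => 2 * ((1 / N) ^ 2 *
      nsq q (MixT_main q (passF A Z) τ f y)) + 2 * (l ^ 2 / Z ^ 4)) MeasureTheory.volume 0 1 :=
    ((hint2.const_mul _).const_mul _).add intervalIntegrable_const
  have hmono : ∫ y in (0 : ℝ)..1, nsq q (blk q (passF A Z) τ f y) ≤
      ∫ y in (0 : ℝ)..1, (2 * ((1 / N) ^ 2 *
        nsq q (MixT_main q (passF A Z) τ f y)) + 2 * (l ^ 2 / Z ^ 4)) := by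
    apply intervalIntegral.integral_mono_on zero_le_one hint1 hint3
    intro y hy
    exact MixT_blk_sub q hZ hne τ f hl hL hy
  have hcomp : ∫ y in (0 : ℝ)..1, (2 * ((1 / N) ^ 2 *
        nsq q (MixT_main q (passF A Z) τ f y)) + 2 * (l ^ 2 / Z ^ 4)) =
      2 * ((1 / N) ^ 2 * ∫ y in (0 : ℝ)..1, nsq q (MixT_main q (passF A Z) τ f y)) +
        2 * (l ^ 2 / Z ^ 4) := by
    rw [intervalIntegral.integral_add ((hint2.const_mul _).const_mul _) intervalIntegrable_const,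
      intervalIntegral.integral_const_mul, intervalIntegral.integral_const_mul,
      intervalIntegral.integral_const]
    simp
  rw [hcomp] at hmono
  have hfin1 : (1 / N) ^ 2 * (∫ y in (0 : ℝ)..1, nsq q (MixT_main q (passF A Z) τ f y)) ≤
      (K / N) * ((1 / N) * S) := by
    calc _ ≤ (1 / N) ^ 2 * (K * S) := mul_le_mul_of_nonneg_left hosc2 (by positivity)
      _ = (K / N) * ((1 / N) * S) := by ring
  have hKN : K / N ≤ (C₁ / c) * (Z ^ (2 - sexp A) * (1 + Real.log Z) / |τ|) := by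
    have h1 : Z ^ (2 - sexp A) = Z ^ 2 / Z ^ (sexp A) := by
      rw [Real.rpow_sub hZ0]
      norm_num
    have hZs : 0 < Z ^ (sexp A) := Real.rpow_pos_of_pos hZ0 _
    have hK0 : 0 ≤ K := by rw [hK]; positivity
    calc K / N ≤ K / (c * Z ^ (sexp A)) :=
          div_le_div_of_nonneg_left hK0 (by positivity) hc1
      _ = (C₁ / c) * (Z ^ (2 - sexp A) * (1 + Real.log Z) / |τ|) := by
          rw [h1, hK]
          field_simp
  have hT0 : 0 ≤ (1 / N) * S := by positivity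
  have hU0 : 0 ≤ Z ^ (2 - sexp A) * (1 + Real.log Z) / |τ| := by positivity
  have hfin2 := mul_le_mul_of_nonneg_right hKN hT0
  have hfin3 : 0 ≤ (Z ^ (2 - sexp A) * (1 + Real.log Z) / |τ|) * ((1 / N) * S) :=
    mul_nonneg hU0 hT0
  have hfin4 : 0 ≤ (C₁ / c) * (l ^ 2 / Z ^ 4) := by positivity
  calc _ ≤ _ := hmono
    _ ≤ 2 * ((C₁ / c) * (Z ^ (2 - sexp A) * (1 + Real.log Z) / |τ|) * ((1 / N) * S)) +
        2 * (l ^ 2 / Z ^ 4) := by linarith
    _ ≤ _ := by
      have e1 : (2 * (C₁ / c) + 2) * (Z ^ (2 - sexp A) * (1 + Real.log Z) / |τ|) *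
          ((1 / N) * S) + (2 * (C₁ / c) + 2) * l ^ 2 / Z ^ 4 =
          2 * ((C₁ / c) * (Z ^ (2 - sexp A) * (1 + Real.log Z) / |τ|) * ((1 / N) * S)) +
          2 * (l ^ 2 / Z ^ 4) + (2 * ((Z ^ (2 - sexp A) * (1 + Real.log Z) / |τ|) *
            ((1 / N) * S)) + 2 * ((C₁ / c) * (l ^ 2 / Z ^ 4))) := by ring
      rw [e1]
      linarith

end Pool.Agent.W_f50700_h3
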