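import Pool.Agent.W_f50700_h3.MixIter

/-!
MixThm: the mixing theorem (row 436, Theorem M).
-/

open Matrix
open scoped ContDiff

namespace Pool.Agent.W_f50700_h3

variable {A : ℕ}

/-- the twisted weighted sum over words -/
noncomputable def twist (A q : ℕ) (Φ : ℝ → ℝ) (N τ : ℝ) (h : ZMod q × ZMod q → ℂ) : ℂ :=
  ∑ w ∈ wordsF A (N * Real.exp 2), (Φ (Real.log (F w / N)) : ℂ) *
    Complex.exp (((τ * Real.log (F w) : ℝ) : ℂ) * Complex.I) * h (vact q (mat w) (1, 0))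

theorem MixThm_bdd (Φ : ℝ → ℝ) (hΦc : Continuous Φ) (hΦs : ∀ u, 2 < |u| → Φ u = 0) :
    ∃ M : ℝ, 0 < M ∧ ∀ u, |Φ u| ≤ M := by
  obtain ⟨M, hM⟩ := (isCompact_Icc (a := (-2 : ℝ)) (b := 2)).exists_bound_of_continuousOn
    hΦc.continuousOn
  refine ⟨max M 1, by positivity, fun u => ?_⟩
  by_cases hu : 2 < |u|
  · rw [hΦs u hu, abs_zero]; positivity
  · exact (hM u (by rw [Set.mem_Icc, ← abs_le]; exact not_lt.1 hu)).trans (le_max_left _ _)

theorem MixThm_exp_rpow (hA : 1 ≤ A) {N : ℝ} (hN : 0 ≤ N) :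
    (N * Real.exp 2) ^ (sexp A) ≤ Real.exp 4 * N ^ (sexp A) := by
  rw [Real.mul_rpow hN (Real.exp_pos _).le, mul_comm]
  refine mul_le_mul_of_nonneg_right ?_ (Real.rpow_nonneg hN _)
  rw [← Real.exp_mul]
  apply Real.exp_le_exp.2
  have := sexp_le_two hA
  linarith

theorem MixThm_two_le (hA : 1 ≤ A) (hs : 2 - sexp A ≤ 1 / 50) : 2 ≤ A := by
  by_contra h
  have h1 : A = 1 := by omega
  subst h1
  have h2 : sexp 1 ≤ 1 := by
    unfold sexp
    refine csInf_le (expo1_bdd 1) ⟨by norm_num, 1, ?_⟩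
    have h3 := asum_one_le (A := 1) (s := 1) (by norm_num)
    refine lt_of_le_of_lt h3 ?_
    rw [Real.rpow_neg_one]
    norm_num
  linarith

/-- trivial bound -/
theorem twist_trivial (hA : 2 ≤ A) (Φ : ℝ → ℝ) (hΦc : Continuous Φ)
    (hΦs : ∀ u, 2 < |u| → Φ u = 0) : ∃ C : ℝ, 0 < C ∧ ∀ (q : ℕ) (N τ : ℝ), 1 ≤ N →
    ∀ h : ZMod q × ZMod q → ℂ, (∀ x, ‖h x‖ ≤ 1) →
      ‖twist A q Φ N τ h‖ ≤ C * N ^ (sexp A) := by
  obtain ⟨M, hM0, hM⟩ := MixThm_bdd Φ hΦc hΦs
  obtain ⟨c, C0, hc, hC0, hcard⟩ := card_wordsF_bounds hA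
  refine ⟨M * (C0 * Real.exp 4), by positivity, ?_⟩
  intro q N τ hN h hh
  have h1 : ‖twist A q Φ N τ h‖ ≤ ∑ w ∈ wordsF A (N * Real.exp 2), M := by
    unfold twist
    refine norm_sum_le_of_le _ fun w _ => ?_
    rw [norm_mul, norm_mul, Complex.norm_exp_ofReal_mul_I, mul_one, Complex.norm_real,
      Real.norm_eq_abs]
    calc |Φ (Real.log (F w / N))| * ‖h (vact q (mat w) (1, 0))‖ ≤ M * 1 :=
          mul_le_mul (hM _) (hh _) (norm_nonneg _) hM0.le
      _ = M := mul_one _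
  refine h1.trans ?_
  rw [Finset.sum_const, nsmul_eq_mul]
  have hX : 1 ≤ N * Real.exp 2 := by
    have := Real.one_le_exp (show (0 : ℝ) ≤ 2 by norm_num)
    nlinarith
  have h2 := (hcard _ hX).2
  calc ((wordsF A (N * Real.exp 2)).card : ℝ) * M
      ≤ (C0 * (N * Real.exp 2) ^ (sexp A)) * M := mul_le_mul_of_nonneg_right h2 hM0.le
    _ ≤ (C0 * (Real.exp 4 * N ^ (sexp A))) * M := by
        refine mul_le_mul_of_nonneg_right (mul_le_mul_of_nonneg_left ?_ hC0.le) hM0.le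
        exact MixThm_exp_rpow (by omega) (by linarith)
    _ = _ := by ring

open scoped FourierTransform SchwartzMap in
/-- Fourier inversion for smooth compactly supported `Φ`, with rapid decay of the transform -/
theorem fourier_bump (Φ : ℝ → ℝ) (hΦ : ContDiff ℝ ∞ Φ) (hΦs : ∀ u, 2 < |u| → Φ u = 0) :
    ∃ (g : ℝ → ℂ) (C : ℝ), 0 < C ∧ Continuous g ∧ (∀ t, ‖g t‖ ≤ C / (1 + |t|) ^ 8) ∧
      ∀ u : ℝ, (Φ u : ℂ) = ∫ t : ℝ, g t * Complex.exp (((t * u : ℝ) : ℂ) * Complex.I) := by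
  have hcs : HasCompactSupport (fun u => (Φ u : ℂ)) := by
    refine HasCompactSupport.intro (isCompact_Icc (a := (-2 : ℝ)) (b := 2)) fun u hu => ?_
    rw [hΦs u ?_, Complex.ofReal_zero]
    rw [Set.mem_Icc, ← abs_le, not_le] at hu
    exact hu
  have hsm : ContDiff ℝ ∞ (fun u => (Φ u : ℂ)) := Complex.ofRealCLM.contDiff.comp hΦ
  let f : 𝓢(ℝ, ℂ) := hcs.toSchwartzMap hsm
  have hf : ∀ u, f u = (Φ u : ℂ) := fun u => rfl
  let G : 𝓢(ℝ, ℂ) := 𝓕 f
  obtain ⟨C1, hC1, hd1⟩ := G.decay 8 0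
  obtain ⟨C2, hC2, hd2⟩ := G.decay 0 0
  have hπ := Real.pi_pos
  have hdec : ∀ v : ℝ, (1 + |v|) ^ 8 * ‖G v‖ ≤ 2 ^ 8 * (C1 + C2) := by
    intro v
    have h1 := hd1 v
    have h2 := hd2 v
    rw [norm_iteratedFDeriv_zero] at h1 h2
    rw [pow_zero, one_mul] at h2
    rw [Real.norm_eq_abs] at h1
    rcases le_total |v| 1 with hv | hv
    · have h3 : (1 + |v|) ^ 8 ≤ 2 ^ 8 := pow_le_pow_left₀ (by positivity) (by linarith) 8
      calc (1 + |v|) ^ 8 * ‖G v‖ ≤ 2 ^ 8 * C2 :=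
            mul_le_mul h3 h2 (norm_nonneg _) (by positivity)
        _ ≤ _ := by linarith
    · have h3 : (1 + |v|) ^ 8 ≤ 2 ^ 8 * |v| ^ 8 := by
        rw [← mul_pow]
        exact pow_le_pow_left₀ (by positivity) (by linarith) 8
      calc (1 + |v|) ^ 8 * ‖G v‖ ≤ (2 ^ 8 * |v| ^ 8) * ‖G v‖ :=
            mul_le_mul_of_nonneg_right h3 (norm_nonneg _)
        _ = 2 ^ 8 * (|v| ^ 8 * ‖G v‖) := by ring
        _ ≤ 2 ^ 8 * C1 := by gcongr
        _ ≤ _ := by linarith
  refine ⟨fun t => ((1 / (2 * Real.pi) : ℝ) : ℂ) * G (t / (2 * Real.pi)),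
    (1 / (2 * Real.pi)) * (2 * Real.pi) ^ 8 * (2 ^ 8 * (C1 + C2)), by positivity, ?_, ?_, ?_⟩
  · exact continuous_const.mul (G.continuous.comp (by fun_prop))
  · intro t
    have h1 := hdec (t / (2 * Real.pi))
    rw [norm_mul, Complex.norm_real, Real.norm_eq_abs, abs_of_pos (by positivity),
      le_div_iff₀ (by positivity)]
    have h2 : (1 + |t|) ^ 8 ≤ (2 * Real.pi) ^ 8 * (1 + |t / (2 * Real.pi)|) ^ 8 := by
      rw [← mul_pow]
      refine pow_le_pow_left₀ (by positivity) ?_ 8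
      rw [abs_div, abs_of_pos (show 0 < 2 * Real.pi by positivity), mul_add, mul_one,
        mul_div_cancel₀ _ (by positivity)]
      have := Real.pi_gt_three
      linarith
    calc 1 / (2 * Real.pi) * ‖G (t / (2 * Real.pi))‖ * (1 + |t|) ^ 8
        ≤ 1 / (2 * Real.pi) * ‖G (t / (2 * Real.pi))‖ *
          ((2 * Real.pi) ^ 8 * (1 + |t / (2 * Real.pi)|) ^ 8) := by gcongr
      _ = 1 / (2 * Real.pi) * (2 * Real.pi) ^ 8 *
          ((1 + |t / (2 * Real.pi)|) ^ 8 * ‖G (t / (2 * Real.pi))‖) := by ring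
      _ ≤ _ := by gcongr
  · intro u
    have hinv : 𝓕⁻ (𝓕 f : 𝓢(ℝ, ℂ)) = f := FourierTransform.fourierInv_fourier_eq f
    have h1 : f u = (𝓕⁻ G : 𝓢(ℝ, ℂ)) u := by
      rw [show G = 𝓕 f from rfl, hinv]
    have h2 : (𝓕⁻ G : 𝓢(ℝ, ℂ)) u = 𝓕⁻ (G : ℝ → ℂ) u := by
      rw [SchwartzMap.fourierInv_coe]
    rw [← hf u, h1, h2, Real.fourierInv_eq']
    have h3 := MeasureTheory.Measure.integral_comp_div
      (fun v : ℝ => Complex.exp (((2 * Real.pi * (v * u) : ℝ) : ℂ) * Complex.I) • G v)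
      (2 * Real.pi)
    rw [abs_of_pos (show 0 < 2 * Real.pi by positivity)] at h3
    have h4 : ∫ v : ℝ, Complex.exp (((2 * Real.pi * (v * u) : ℝ) : ℂ) * Complex.I) • G v
        = ((1 / (2 * Real.pi) : ℝ) : ℂ) * ∫ x : ℝ, Complex.exp (((2 * Real.pi *
          (x / (2 * Real.pi) * u) : ℝ) : ℂ) * Complex.I) • G (x / (2 * Real.pi)) := by
      rw [h3, Complex.real_smul, ← mul_assoc, ← Complex.ofReal_mul, one_div,
        inv_mul_cancel₀ (by positivity), Complex.ofReal_one, one_mul]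
    have h5 : ∫ v : ℝ, Complex.exp (((2 * Real.pi * inner ℝ v u : ℝ) : ℂ) * Complex.I) • G v
        = ∫ v : ℝ, Complex.exp (((2 * Real.pi * (v * u) : ℝ) : ℂ) * Complex.I) • G v := by
      refine MeasureTheory.integral_congr_ae (Filter.Eventually.of_forall fun v => ?_)
      simp only [RCLike.inner_apply, conj_trivial]
      rw [mul_comm u v]
    rw [h5, h4, ← MeasureTheory.integral_const_mul]
    refine MeasureTheory.integral_congr_ae (Filter.Eventually.of_forall fun v => ?_)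
    simp only [smul_eq_mul]
    rw [show 2 * Real.pi * (v / (2 * Real.pi) * u) = v * u by field_simp]
    ring

/-- the block sum attached to a remainder word -/
noncomputable def MixThm_S (q : ℕ) (P : Finset (List (Lt A))) (τ : ℝ) (h : ZMod q × ZMod q → ℂ)
    (b : List (Lt A)) : ℂ :=
  ∑ l ∈ blockF P 24, Complex.exp (((τ * Real.log (F (l.flatten ++ b)) : ℝ) : ℂ) * Complex.I) *
        h (vact q (mat (l.flatten ++ b)) (1, 0))

theorem MixThm_S_trivial (q : ℕ) (P : Finset (List (Lt A))) (τ : ℝ) (h : ZMod q × ZMod q → ℂ)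
    (hh : ∀ x, ‖h x‖ ≤ 1) (b : List (Lt A)) : ‖MixThm_S q P τ h b‖ ≤ (P.card : ℝ) ^ 24 := by
  unfold MixThm_S
  refine (norm_sum_le_of_le (n := fun _ => (1 : ℝ)) _ fun l _ => ?_).trans ?_
  · rw [norm_mul, Complex.norm_exp_ofReal_mul_I, one_mul]
    exact hh _
  · rw [Finset.sum_const, nsmul_eq_mul, mul_one, card_blockF]
    push_cast
    exact le_refl _

theorem MixThm_S_le (q : ℕ) [NeZero q] (P : Finset (List (Lt A))) (hP : P.Nonempty) (τ : ℝ)
    (h : ZMod q × ZMod q → ℂ) (b : List (Lt A)) {B : ℝ}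
    (hB : ∀ y ∈ Set.Icc (0 : ℝ) 1, nrm q (((blk q P τ)^[24] (fun _ => h)) y) ≤ B) :
    ‖MixThm_S q P τ h b‖ ≤ (P.card : ℝ) ^ 24 * B := by
  unfold MixThm_S
  rw [blk_iter_word q P hP τ h 24 b, norm_mul, norm_mul, Complex.norm_exp_ofReal_mul_I, one_mul,
    norm_pow, Complex.norm_natCast]
  refine mul_le_mul_of_nonneg_left ?_ (by positivity)
  exact (norm_le_nrm q _ _).trans (hB _ (eta_mem b))

theorem MixThm_int : MeasureTheory.Integrable (fun t : ℝ => (1 + |t|) ^ (-(2 : ℝ))) := by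
  have := integrable_one_add_norm (E := ℝ) (μ := MeasureTheory.volume) (r := 2)
    (by simp)
  simpa [Real.norm_eq_abs] using this

/-- one remainder word -/
theorem MixThm_one (q : ℕ) [NeZero q] (P : Finset (List (Lt A))) (hP : P.Nonempty)
    (Φ : ℝ → ℝ) (g : ℝ → ℂ) {Cg : ℝ} (hCg : 0 < Cg) (hgc : Continuous g)
    (hgd : ∀ t, ‖g t‖ ≤ Cg / (1 + |t|) ^ 8)
    (hg : ∀ u : ℝ, (Φ u : ℂ) = ∫ t : ℝ, g t * Complex.exp (((t * u : ℝ) : ℂ) * Complex.I))
    {N τ H B : ℝ} (hN : 0 < N) (hH : 2 ≤ H) (hB0 : 0 ≤ B) (h : ZMod q × ZMod q → ℂ)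
    (hh : ∀ x, ‖h x‖ ≤ 1)
    (hB : ∀ t : ℝ, |t| ≤ H / 2 → ∀ y ∈ Set.Icc (0 : ℝ) 1,
      nrm q (((blk q P (τ + t))^[24] (fun _ => h)) y) ≤ B) (b : List (Lt A)) :
    ‖∑ l ∈ blockF P 24, (Φ (Real.log (F (l.flatten ++ b) / N)) : ℂ) *
      Complex.exp (((τ * Real.log (F (l.flatten ++ b)) : ℝ) : ℂ) * Complex.I) *
        h (vact q (mat (l.flatten ++ b)) (1, 0))‖ ≤
      (P.card : ℝ) ^ 24 * (Cg * (B + 64 / H ^ 6) * ∫ t : ℝ, (1 + |t|) ^ (-(2 : ℝ))) := by
  have hF : ∀ w : List (Lt A), (0 : ℝ) < F w := fun w => by exact_mod_cast F_pos w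
  -- the integrand
  have hpow : ∀ t : ℝ, Cg / (1 + |t|) ^ 8 = Cg / (1 + |t|) ^ 6 * (1 + |t|) ^ (-(2 : ℝ)) := by
    intro t
    have h1 : (0 : ℝ) < 1 + |t| := by positivity
    rw [Real.rpow_neg h1.le, show ((2 : ℝ)) = ((2 : ℕ) : ℝ) by norm_num, Real.rpow_natCast]
    field_simp
  have hgd2 : ∀ t, ‖g t‖ ≤ Cg * (1 + |t|) ^ (-(2 : ℝ)) := by
    intro t
    have h1 : (1 : ℝ) ≤ 1 + |t| := by linarith [abs_nonneg t]
    refine (hgd t).trans ?_
    rw [hpow]
    refine mul_le_mul_of_nonneg_right ?_ (Real.rpow_nonneg (by positivity) _)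
    exact div_le_self hCg.le (one_le_pow₀ h1)
  have hterm : ∀ l ∈ blockF P 24, (Φ (Real.log (F (l.flatten ++ b) / N)) : ℂ) *
      Complex.exp (((τ * Real.log (F (l.flatten ++ b)) : ℝ) : ℂ) * Complex.I) *
        h (vact q (mat (l.flatten ++ b)) (1, 0)) =
      ∫ t : ℝ, g t * Complex.exp (((-(t * Real.log N) : ℝ) : ℂ) * Complex.I) *
        (Complex.exp ((((τ + t) * Real.log (F (l.flatten ++ b)) : ℝ) : ℂ) * Complex.I) *
        h (vact q (mat (l.flatten ++ b)) (1, 0))) := by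
    intro l _
    rw [hg, ← MeasureTheory.integral_mul_const, ← MeasureTheory.integral_mul_const]
    refine MeasureTheory.integral_congr_ae (Filter.Eventually.of_forall fun t => ?_)
    simp only
    rw [Real.log_div (hF _).ne' hN.ne']
    have e1 : Complex.exp (((t * (Real.log (F (l.flatten ++ b)) - Real.log N) : ℝ) : ℂ) *
        Complex.I) * Complex.exp (((τ * Real.log (F (l.flatten ++ b)) : ℝ) : ℂ) * Complex.I) =
        Complex.exp (((-(t * Real.log N) : ℝ) : ℂ) * Complex.I) *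
        Complex.exp ((((τ + t) * Real.log (F (l.flatten ++ b)) : ℝ) : ℂ) * Complex.I) := by
      rw [← Complex.exp_add, ← Complex.exp_add]
      congr 1
      push_cast
      ring
    calc _ = g t * (Complex.exp (((t * (Real.log (F (l.flatten ++ b)) - Real.log N) : ℝ) : ℂ) *
        Complex.I) * Complex.exp (((τ * Real.log (F (l.flatten ++ b)) : ℝ) : ℂ) * Complex.I)) *
        h (vact q (mat (l.flatten ++ b)) (1, 0)) := by ring
      _ = _ := by rw [e1]; ring
  have hinteg : ∀ l ∈ blockF P 24, MeasureTheory.Integrable (fun t : ℝ =>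
      g t * Complex.exp (((-(t * Real.log N) : ℝ) : ℂ) * Complex.I) *
        (Complex.exp ((((τ + t) * Real.log (F (l.flatten ++ b)) : ℝ) : ℂ) * Complex.I) *
        h (vact q (mat (l.flatten ++ b)) (1, 0)))) := by
    intro l _
    refine MeasureTheory.Integrable.mono' (MixThm_int.const_mul Cg) ?_ ?_
    · refine Continuous.aestronglyMeasurable ?_
      fun_prop
    · refine Filter.Eventually.of_forall fun t => ?_
      rw [norm_mul, norm_mul, norm_mul, Complex.norm_exp_ofReal_mul_I,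
        Complex.norm_exp_ofReal_mul_I, mul_one, one_mul]
      calc ‖g t‖ * ‖h (vact q (mat (l.flatten ++ b)) (1, 0))‖
          ≤ (Cg * (1 + |t|) ^ (-(2 : ℝ))) * 1 :=
            mul_le_mul (hgd2 t) (hh _) (norm_nonneg _)
              (mul_nonneg hCg.le (Real.rpow_nonneg (by positivity) _))
        _ = _ := mul_one _
  rw [Finset.sum_congr rfl hterm, ← MeasureTheory.integral_finsetSum _ hinteg]
  have hrw : ∀ t : ℝ, ∑ l ∈ blockF P 24,
      g t * Complex.exp (((-(t * Real.log N) : ℝ) : ℂ) * Complex.I) *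
        (Complex.exp ((((τ + t) * Real.log (F (l.flatten ++ b)) : ℝ) : ℂ) * Complex.I) *
        h (vact q (mat (l.flatten ++ b)) (1, 0))) =
      g t * Complex.exp (((-(t * Real.log N) : ℝ) : ℂ) * Complex.I) *
        MixThm_S q P (τ + t) h b := by
    intro t
    rw [MixThm_S, Finset.mul_sum]
  simp_rw [hrw]
  have hfin : ∀ t : ℝ, ‖g t * Complex.exp (((-(t * Real.log N) : ℝ) : ℂ) * Complex.I) *
        MixThm_S q P (τ + t) h b‖ ≤
      (P.card : ℝ) ^ 24 * (Cg * (B + 64 / H ^ 6)) * (1 + |t|) ^ (-(2 : ℝ)) := by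
    intro t
    have hr : (0 : ℝ) ≤ (1 + |t|) ^ (-(2 : ℝ)) := Real.rpow_nonneg (by positivity) _
    have hc : (0 : ℝ) ≤ (P.card : ℝ) ^ 24 := by positivity
    have hH6 : (0 : ℝ) ≤ 64 / H ^ 6 := by positivity
    rw [norm_mul, norm_mul, Complex.norm_exp_ofReal_mul_I, mul_one]
    by_cases ht : |t| ≤ H / 2
    · have h1 := MixThm_S_le q P hP (τ + t) h b (hB t ht)
      calc ‖g t‖ * ‖MixThm_S q P (τ + t) h b‖
          ≤ (Cg * (1 + |t|) ^ (-(2 : ℝ))) * ((P.card : ℝ) ^ 24 * B) :=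
            mul_le_mul (hgd2 t) h1 (norm_nonneg _) (mul_nonneg hCg.le hr)
        _ = (P.card : ℝ) ^ 24 * (Cg * B) * (1 + |t|) ^ (-(2 : ℝ)) := by ring
        _ ≤ _ := by
            refine mul_le_mul_of_nonneg_right (mul_le_mul_of_nonneg_left
              (mul_le_mul_of_nonneg_left ?_ hCg.le) hc) hr
            linarith
    · have ht' : H / 2 < |t| := not_le.1 ht
      have h1 := MixThm_S_trivial q P (τ + t) h hh b
      have h2 : Cg / (1 + |t|) ^ 6 ≤ Cg * (64 / H ^ 6) := by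
        have h3 : (H / 2) ^ 6 ≤ (1 + |t|) ^ 6 :=
          pow_le_pow_left₀ (by positivity) (by linarith) 6
        calc Cg / (1 + |t|) ^ 6 ≤ Cg / (H / 2) ^ 6 :=
              div_le_div_of_nonneg_left hCg.le (by positivity) h3
          _ = Cg * (64 / H ^ 6) := by
              rw [div_pow]; field_simp; norm_num
      calc ‖g t‖ * ‖MixThm_S q P (τ + t) h b‖
          ≤ (Cg / (1 + |t|) ^ 6 * (1 + |t|) ^ (-(2 : ℝ))) * (P.card : ℝ) ^ 24 := by
            refine mul_le_mul ?_ h1 (norm_nonneg _) (mul_nonneg (by positivity) hr)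
            rw [← hpow]
            exact hgd t
        _ ≤ (Cg * (64 / H ^ 6) * (1 + |t|) ^ (-(2 : ℝ))) * (P.card : ℝ) ^ 24 :=
            mul_le_mul_of_nonneg_right (mul_le_mul_of_nonneg_right h2 hr) hc
        _ = (P.card : ℝ) ^ 24 * (Cg * (64 / H ^ 6)) * (1 + |t|) ^ (-(2 : ℝ)) := by ring
        _ ≤ _ := by
            refine mul_le_mul_of_nonneg_right (mul_le_mul_of_nonneg_left
              (mul_le_mul_of_nonneg_left ?_ hCg.le) hc) hr
            linarith
  have h5 := MeasureTheory.norm_integral_le_of_norm_le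
    (MixThm_int.const_mul ((P.card : ℝ) ^ 24 * (Cg * (B + 64 / H ^ 6))))
    (Filter.Eventually.of_forall hfin)
  refine h5.trans (le_of_eq ?_)
  rw [MeasureTheory.integral_const_mul]
  ring

theorem MixThm_flatten_ge (P : Finset (List (Lt A))) {W : ℝ} (hW0 : 0 ≤ W)
    (hW : ∀ u ∈ P, W ≤ (F u : ℝ)) (k : ℕ) (l : List (List (Lt A))) (hl : l ∈ blockF P k)
    (b : List (Lt A)) : W ^ k * (F b : ℝ) ≤ (F (l.flatten ++ b) : ℝ) := by
  induction k generalizing l with
  | zero =>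
    have h1 : l = [] := by simpa [blockF] using hl
    subst h1
    simp
  | succ k ih =>
    classical
    rw [mem_blockF] at hl
    obtain ⟨h1, h2⟩ := hl
    cases l with
    | nil => simp at h1
    | cons u l =>
      have h3 : l ∈ blockF P k := by
        rw [mem_blockF]
        exact ⟨by simpa using h1, fun v hv => h2 v (List.mem_cons_of_mem _ hv)⟩
      have h4 := ih l h3
      have h5 := hW u (h2 u List.mem_cons_self)
      have h6 : (F u : ℝ) * (F (l.flatten ++ b) : ℝ) ≤ (F (u ++ (l.flatten ++ b)) : ℝ) := by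
        exact_mod_cast F_mul_le u (l.flatten ++ b)
      rw [List.flatten_cons, List.append_assoc]
      refine le_trans ?_ h6
      rw [pow_succ]
      calc W ^ k * W * (F b : ℝ) = W * (W ^ k * (F b : ℝ)) := by ring
        _ ≤ _ := mul_le_mul h5 h4 (by positivity) (by positivity)

theorem IsSection.MixThm_mono {P : Finset (List (Lt A))} {Y Y' : ℝ} (h : IsSection P Y)
    (hY : Y ≤ Y') : IsSection P Y' :=
  ⟨h.1, fun w hw => h.2 w (hY.trans hw)⟩

/-- assembly for a given section -/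
theorem MixThm_case (hA : 2 ≤ A) (Φ : ℝ → ℝ) (hΦs : ∀ u, 2 < |u| → Φ u = 0)
    (g : ℝ → ℂ) {Cg : ℝ} (hCg : 0 < Cg) (hgc : Continuous g)
    (hgd : ∀ t, ‖g t‖ ≤ Cg / (1 + |t|) ^ 8)
    (hg : ∀ u : ℝ, (Φ u : ℂ) = ∫ t : ℝ, g t * Complex.exp (((t * u : ℝ) : ℂ) * Complex.I))
    (K1 K2 K3 : ℝ) (hK1 : 0 < K1) (hK2 : 0 < K2) (hK3 : 0 < K3) :
    ∃ C2 H2 : ℝ, 0 < C2 ∧ 2 ≤ H2 ∧ ∀ (q : ℕ) [NeZero q] (N τ H W Y : ℝ)
      (P : Finset (List (Lt A))), H2 ≤ H → H ^ 300 ≤ N → P.Nonempty → IsSection P Y →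
      1 ≤ W → 1 ≤ Y → (∀ u ∈ P, (F u : ℝ) ≤ Y) → (∀ u ∈ P, W ≤ (F u : ℝ)) → Y ≤ K2 * W →
      W ^ 2 ≤ H ^ 11 → (P.card : ℝ) ≤ K1 * W ^ (sexp A) →
      ∀ h : ZMod q × ZMod q → ℂ, (∀ x, ‖h x‖ ≤ 1) →
      (∀ t : ℝ, |t| ≤ H / 2 → ∀ y ∈ Set.Icc (0 : ℝ) 1,
        nrm q (((blk q P (τ + t))^[24] (fun _ => h)) y) ≤ K3 * H ^ (-(9 / 2 : ℝ))) →
      ‖twist A q Φ N τ h‖ ≤ C2 * N ^ (sexp A) * H ^ (-(4 : ℝ)) := by
  obtain ⟨c0, C0, hc0, hC0, hcard⟩ := card_wordsF_bounds hA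
  set I0 := ∫ t : ℝ, (1 + |t|) ^ (-(2 : ℝ)) with hI0
  have hI0n : 0 ≤ I0 := MeasureTheory.integral_nonneg fun t => Real.rpow_nonneg (by positivity) _
  refine ⟨C0 * Real.exp 4 * K1 ^ 24 * (Cg * (K3 + 64) * I0) + 1,
    max 2 (Real.exp 2 * (2 * K2) ^ 24), by positivity, le_max_left _ _, ?_⟩
  intro q _ N τ H W Y P hH hN hP hsec hW1 hY1 hFY hFW hYW hWH hPc h hh hB
  have hH2 : 2 ≤ H := (le_max_left _ _).trans hH
  have hHe : Real.exp 2 * (2 * K2) ^ 24 ≤ H := (le_max_right _ _).trans hH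
  have hH1 : 1 ≤ H := by linarith
  have hH0 : 0 < H := by linarith
  have hW0 : 0 < W := by linarith
  have hN0 : 0 < N := lt_of_lt_of_le (by positivity) hN
  have he : (0 : ℝ) < Real.exp 2 := Real.exp_pos 2
  have he1 : (1 : ℝ) ≤ Real.exp 2 := Real.one_le_exp (by norm_num)
  have hW24 : W ^ 24 ≤ H ^ 132 := by
    calc W ^ 24 = (W ^ 2) ^ 12 := by ring
      _ ≤ (H ^ 11) ^ 12 := pow_le_pow_left₀ (by positivity) hWH 12
      _ = H ^ 132 := by ring
  set X' := N * Real.exp 2 / W ^ 24 with hX'def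
  have hX'1 : 1 ≤ X' := by
    rw [hX'def, le_div_iff₀ (by positivity), one_mul]
    have h1 : H ^ 132 ≤ H ^ 300 := pow_le_pow_right₀ hH1 (by norm_num)
    have h2 : W ^ 24 ≤ N := hW24.trans (h1.trans hN)
    nlinarith
  have hF : ∀ w : List (Lt A), (0 : ℝ) < F w := fun w => by exact_mod_cast F_pos w
  -- the decomposition
  have hdec : twist A q Φ N τ h = ∑ b ∈ wordsF A X', ∑ l ∈ blockF P 24,
      (Φ (Real.log (F (l.flatten ++ b) / N)) : ℂ) *
      Complex.exp (((τ * Real.log (F (l.flatten ++ b)) : ℝ) : ℂ) * Complex.I) *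
        h (vact q (mat (l.flatten ++ b)) (1, 0)) := by
    unfold twist
    refine sum_blocks P hY1 hsec hFY 24 (N * Real.exp 2) X'
      (fun w => (Φ (Real.log (F w / N)) : ℂ) *
        Complex.exp (((τ * Real.log (F w) : ℝ) : ℂ) * Complex.I) * h (vact q (mat w) (1, 0)))
      ?_ ?_ ?_
    · intro w hw
      have h1 : (2 * Y) ^ 24 ≤ N * Real.exp (-2) := by
        have h2 : (2 * Y) ^ 24 ≤ (2 * K2) ^ 24 * H ^ 132 := by
          calc (2 * Y) ^ 24 ≤ (2 * (K2 * W)) ^ 24 :=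
                pow_le_pow_left₀ (by positivity) (by linarith) 24
            _ = (2 * K2) ^ 24 * W ^ 24 := by ring
            _ ≤ _ := mul_le_mul_of_nonneg_left hW24 (by positivity)
        have h3 : Real.exp 2 * ((2 * K2) ^ 24 * H ^ 132) ≤ N := by
          calc Real.exp 2 * ((2 * K2) ^ 24 * H ^ 132)
              = (Real.exp 2 * (2 * K2) ^ 24) * H ^ 132 := by ring
            _ ≤ H * H ^ 132 := mul_le_mul_of_nonneg_right hHe (by positivity)
            _ = H ^ 133 := by ring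
            _ ≤ H ^ 300 := pow_le_pow_right₀ hH1 (by norm_num)
            _ ≤ N := hN
        rw [Real.exp_neg, ← div_eq_mul_inv, le_div_iff₀ he]
        nlinarith
      have h4 : Real.log (F w / N) < -2 := by
        rw [Real.log_lt_iff_lt_exp (div_pos (hF w) hN0), div_lt_iff₀ hN0]
        linarith
      have h5 : Φ (Real.log (F w / N)) = 0 := by
        apply hΦs
        rw [lt_abs]
        right
        linarith
      simp [h5]
    · intro w hw
      have h4 : 2 < Real.log (F w / N) := by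
        rw [Real.lt_log_iff_exp_lt (div_pos (hF w) hN0), lt_div_iff₀ hN0]
        linarith
      have h5 : Φ (Real.log (F w / N)) = 0 := hΦs _ (lt_of_lt_of_le h4 (le_abs_self _))
      simp [h5]
    · intro b hb l hl
      have h1 := MixThm_flatten_ge P hW0.le hFW 24 l hl b
      have h2 : N * Real.exp 2 < W ^ 24 * (F b : ℝ) := by
        rw [hX'def, div_lt_iff₀ (by positivity)] at hb
        linarith
      have h4 : 2 < Real.log (F (l.flatten ++ b) / N) := by
        rw [Real.lt_log_iff_exp_lt (div_pos (hF _) hN0), lt_div_iff₀ hN0]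
        linarith
      have h5 : Φ (Real.log (F (l.flatten ++ b) / N)) = 0 :=
        hΦs _ (lt_of_lt_of_le h4 (le_abs_self _))
      simp [h5]
  rw [hdec]
  have hB0 : 0 ≤ K3 * H ^ (-(9 / 2 : ℝ)) := mul_nonneg hK3.le (Real.rpow_nonneg hH0.le _)
  have hone := fun b => MixThm_one q P hP Φ g hCg hgc hgd hg (N := N) (τ := τ) hN0 hH2 hB0 h hh hB b
  have h6 : K3 * H ^ (-(9 / 2 : ℝ)) + 64 / H ^ 6 ≤ (K3 + 64) * H ^ (-(4 : ℝ)) := by
    have h7 : H ^ (-(9 / 2 : ℝ)) ≤ H ^ (-(4 : ℝ)) :=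
      Real.rpow_le_rpow_of_exponent_le hH1 (by norm_num)
    have h8 : 64 / H ^ 6 ≤ 64 * H ^ (-(4 : ℝ)) := by
      have h9 : 64 / H ^ 6 = 64 * H ^ (-(6 : ℝ)) := by
        rw [Real.rpow_neg hH0.le, show (6 : ℝ) = ((6 : ℕ) : ℝ) by norm_num, Real.rpow_natCast]
        rfl
      rw [h9]
      exact mul_le_mul_of_nonneg_left
        (Real.rpow_le_rpow_of_exponent_le hH1 (by norm_num)) (by norm_num)
    have h10 := mul_le_mul_of_nonneg_left h7 hK3.le
    linarith
  have h11 : ∀ b ∈ wordsF A X', ‖∑ l ∈ blockF P 24,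
      (Φ (Real.log (F (l.flatten ++ b) / N)) : ℂ) *
      Complex.exp (((τ * Real.log (F (l.flatten ++ b)) : ℝ) : ℂ) * Complex.I) *
        h (vact q (mat (l.flatten ++ b)) (1, 0))‖ ≤
      (P.card : ℝ) ^ 24 * (Cg * ((K3 + 64) * H ^ (-(4 : ℝ))) * I0) := by
    intro b _
    refine (hone b).trans ?_
    gcongr
  refine (norm_sum_le_of_le _ h11).trans ?_
  rw [Finset.sum_const, nsmul_eq_mul]
  have h12 := (hcard X' hX'1).2
  have hWs : (0 : ℝ) ≤ W ^ (sexp A) := Real.rpow_nonneg hW0.le _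
  have hXs : (0 : ℝ) ≤ X' ^ (sexp A) := Real.rpow_nonneg (by linarith) _
  have hHs : (0 : ℝ) ≤ H ^ (-(4 : ℝ)) := Real.rpow_nonneg hH0.le _
  have hNs : (0 : ℝ) ≤ N ^ (sexp A) := Real.rpow_nonneg hN0.le _
  have h13 : (P.card : ℝ) ^ 24 ≤ K1 ^ 24 * (W ^ (sexp A)) ^ 24 := by
    rw [← mul_pow]
    exact pow_le_pow_left₀ (by positivity) hPc 24
  have h14 : X' ^ (sexp A) * (W ^ (sexp A)) ^ 24 = (N * Real.exp 2) ^ (sexp A) := by
    have h15 : (W ^ (sexp A)) ^ 24 = (W ^ 24) ^ (sexp A) := by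
      rw [← Real.rpow_natCast (W ^ (sexp A)) 24, ← Real.rpow_mul hW0.le,
        ← Real.rpow_natCast W 24, ← Real.rpow_mul hW0.le, mul_comm]
    rw [h15, ← Real.mul_rpow (by positivity) (by positivity), hX'def,
      div_mul_cancel₀ _ (by positivity)]
  have h16 := MixThm_exp_rpow (A := A) (by omega) hN0.le
  have hQ : 0 ≤ Cg * ((K3 + 64) * H ^ (-(4 : ℝ))) * I0 := by positivity
  calc ((wordsF A X').card : ℝ) * ((P.card : ℝ) ^ 24 *
        (Cg * ((K3 + 64) * H ^ (-(4 : ℝ))) * I0))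
      ≤ (C0 * X' ^ (sexp A)) * ((K1 ^ 24 * (W ^ (sexp A)) ^ 24) *
        (Cg * ((K3 + 64) * H ^ (-(4 : ℝ))) * I0)) := by
        refine mul_le_mul h12 (mul_le_mul_of_nonneg_right h13 hQ) (by positivity) (by positivity)
    _ = C0 * K1 ^ 24 * (Cg * (K3 + 64) * I0) * (X' ^ (sexp A) * (W ^ (sexp A)) ^ 24) *
        H ^ (-(4 : ℝ)) := by ring
    _ = C0 * K1 ^ 24 * (Cg * (K3 + 64) * I0) * (N * Real.exp 2) ^ (sexp A) *
        H ^ (-(4 : ℝ)) := by rw [h14]
    _ ≤ C0 * K1 ^ 24 * (Cg * (K3 + 64) * I0) * (Real.exp 4 * N ^ (sexp A)) *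
        H ^ (-(4 : ℝ)) := by gcongr
    _ = (C0 * Real.exp 4 * K1 ^ 24 * (Cg * (K3 + 64) * I0)) * N ^ (sexp A) *
        H ^ (-(4 : ℝ)) := by ring
    _ ≤ _ := by
        refine mul_le_mul_of_nonneg_right (mul_le_mul_of_nonneg_right ?_ hNs) hHs
        linarith

/-- Theorem M.  See row 436 (end): `H = max q |τ| 2`; for `H < H1` trivial; case T if `q ≤ |τ|`,
case D otherwise; `sum_blocks` with `k = 24`, `fourier_bump` to remove the weight,
`blk_iter_word`, `iter_T` / `iter_D` for `|t| ≤ H/2`, decay of `g` for `|t| > H/2`;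
the number of remainders `b` is `≤ C (N / (Z Z1)^24)^s`, the number of block tuples is
`≤ C (Z Z1)^(24 s)`. -/
theorem mixing (hA : 1 ≤ A) (hs : 2 - sexp A ≤ 1 / 50) (Φ : ℝ → ℝ) (hΦ : ContDiff ℝ ∞ Φ)
    (hΦs : ∀ u, 2 < |u| → Φ u = 0) : ∃ C : ℝ, 0 < C ∧
    ∀ (q : ℕ) [NeZero q] (N τ : ℝ), (max (max (q : ℝ) |τ|) 2) ^ 300 ≤ N →
    ∀ h : ZMod q × ZMod q → ℂ, IsNew q h → (∀ x, ‖h x‖ ≤ 1) →
      ‖twist A q Φ N τ h‖ ≤ C * N ^ (sexp A) * (max (max (q : ℝ) |τ|) 1) ^ (-(4 : ℝ)) := by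
  have hA2 : 2 ≤ A := MixThm_two_le hA hs
  obtain ⟨Ct, hCt, htriv⟩ := twist_trivial hA2 Φ hΦ.continuous hΦs
  obtain ⟨g, Cg, hCg, hgc, hgd, hg⟩ := fourier_bump Φ hΦ hΦs
  obtain ⟨c1, K, hc1, hK, hpass⟩ := card_passF_bounds hA
  obtain ⟨CT, HT, hCT, hHT, hT⟩ := iter_T hA hs
  obtain ⟨CD, HD, hCD, hHD, hD⟩ := iter_D hA hs
  have hCA := base3_CA_ge A
  obtain ⟨C2, H2, hC2, hH2, hcT⟩ := MixThm_case hA2 Φ hΦs g hCg hgc hgd hg K (CA A) CT hK
    (by linarith) hCT
  obtain ⟨C3, H3, hC3, hH3, hcD⟩ := MixThm_case hA2 Φ hΦs g hCg hgc hgd hg (K ^ 2)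
    (2 * CA A ^ 2) CD (by positivity) (by positivity) hCD
  set HH := max (max (max HT HD) (max H2 H3)) 3 with hHH
  have hHH2 : 3 ≤ HH := le_max_right _ _
  refine ⟨Ct * HH ^ 4 + C2 + C3, by positivity, ?_⟩
  intro q _ N τ hN h hnew hh
  set H := max (max (q : ℝ) |τ|) 2 with hH
  set H' := max (max (q : ℝ) |τ|) 1 with hH'
  have hq1 : (1 : ℝ) ≤ q := by
    exact_mod_cast Nat.one_le_iff_ne_zero.2 (NeZero.ne q)
  have hH2' : 2 ≤ H := le_max_right _ _
  have hH0 : 0 < H := by linarith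
  have hH'0 : 0 < H' := lt_of_lt_of_le one_pos (le_max_right _ _)
  have hHH' : H' ≤ H := max_le_max le_rfl (by norm_num)
  have hpow : H ^ (-(4 : ℝ)) ≤ H' ^ (-(4 : ℝ)) :=
    Real.rpow_le_rpow_of_nonpos hH'0 hHH' (by norm_num)
  have hN0 : 0 < N := lt_of_lt_of_le (by positivity) hN
  have hN1 : 1 ≤ N := by
    refine le_trans ?_ hN
    exact one_le_pow₀ (by linarith)
  have hNs : (0 : ℝ) ≤ N ^ (sexp A) := Real.rpow_nonneg hN0.le _
  have hHs : (0 : ℝ) ≤ H ^ (-(4 : ℝ)) := Real.rpow_nonneg hH0.le _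
  suffices hsuff : ‖twist A q Φ N τ h‖ ≤
      (Ct * HH ^ 4 + C2 + C3) * N ^ (sexp A) * H ^ (-(4 : ℝ)) by
    refine hsuff.trans ?_
    exact mul_le_mul_of_nonneg_left hpow (by positivity)
  rcases lt_or_ge H HH with hlt | hge
  · -- trivial range
    have h1 := htriv q N τ hN1 h hh
    have h2 : 1 ≤ HH ^ 4 * H ^ (-(4 : ℝ)) := by
      rw [Real.rpow_neg hH0.le, show (4 : ℝ) = ((4 : ℕ) : ℝ) by norm_num, Real.rpow_natCast,
        ← div_eq_mul_inv, le_div_iff₀ (by positivity), one_mul]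
      exact pow_le_pow_left₀ hH0.le hlt.le 4
    calc ‖twist A q Φ N τ h‖ ≤ Ct * N ^ (sexp A) := h1
      _ ≤ (Ct * N ^ (sexp A)) * (HH ^ 4 * H ^ (-(4 : ℝ))) :=
          le_mul_of_one_le_right (by positivity) h2
      _ = (Ct * HH ^ 4) * N ^ (sexp A) * H ^ (-(4 : ℝ)) := by ring
      _ ≤ _ := by
          refine mul_le_mul_of_nonneg_right (mul_le_mul_of_nonneg_right ?_ hNs) hHs
          linarith
  · have hge0 : max (max HT HD) (max H2 H3) ≤ H := (le_max_left _ _).trans hge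
    have hgeT : HT ≤ H := ((le_max_left _ _).trans (le_max_left _ _)).trans hge0
    have hgeD : HD ≤ H := ((le_max_right _ _).trans (le_max_left _ _)).trans hge0
    have hge2 : H2 ≤ H := ((le_max_left _ _).trans (le_max_right _ _)).trans hge0
    have hge3 : H3 ≤ H := ((le_max_right _ _).trans (le_max_right _ _)).trans hge0
    have hH3 : 3 ≤ H := hHH2.trans hge
    have hH1 : 1 ≤ H := by linarith
    have hHeq : H = max (q : ℝ) |τ| := by
      rcases le_total (max (q : ℝ) |τ|) 2 with h1 | h1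
      · rw [hH, max_eq_right h1] at hH3
        norm_num at hH3
      · rw [hH, max_eq_left h1]
    have hlt4 : 1 < H ^ 4 := one_lt_pow₀ (by linarith) (by norm_num)
    rcases le_total (q : ℝ) |τ| with hqt | hqt
    · -- case T
      rw [max_eq_right hqt] at hHeq
      have hZ := hpass (H ^ 4) hlt4
      have hne : (passF A (H ^ 4)).Nonempty := by
        rw [← Finset.card_pos]
        have h1 : (0 : ℝ) < ((passF A (H ^ 4)).card : ℝ) :=
          lt_of_lt_of_le (mul_pos hc1 (Real.rpow_pos_of_pos (by positivity) _)) hZ.1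
        exact_mod_cast h1
      have h1 := hcT q N τ H (H ^ 4) (CA A * H ^ 4) (passF A (H ^ 4)) hge2 hN hne
        ((passF_section A hlt4).MixThm_mono (by nlinarith only [hlt4, hCA])) hlt4.le
        (by nlinarith only [hlt4, hCA])
        (fun u hu => (passF_bounds hu).2) (fun u hu => (passF_bounds hu).1) le_rfl
        (by
          calc (H ^ 4) ^ 2 = H ^ 8 := by ring
            _ ≤ H ^ 11 := pow_le_pow_right₀ hH1 (by norm_num))
        hZ.2 h hh
        (fun t ht y hy => by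
          refine hT q H (τ + t) hgeT (by linarith) ?_ ?_ h hh y hy
          · have h2 := abs_sub_abs_le_abs_sub τ (-t)
            rw [sub_neg_eq_add, abs_neg] at h2
            linarith only [h2, hHeq, ht]
          · have h2 := abs_add_le τ t
            linarith only [h2, hHeq, ht, hH0])
      refine h1.trans ?_
      refine mul_le_mul_of_nonneg_right (mul_le_mul_of_nonneg_right ?_ hNs) hHs
      have h9 : 0 ≤ Ct * HH ^ 4 := by positivity
      linarith only [h9, hC2, hC3]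
    · -- case D
      rw [max_eq_left hqt] at hHeq
      have hq3 : (3 : ℝ) ≤ q := by rw [← hHeq]; exact hH3
      have hq0 : (0 : ℝ) < q := by linarith
      have hlt4q : (1 : ℝ) < (q : ℝ) ^ 4 := by rw [← hHeq]; exact hlt4
      have hlt32 : (1 : ℝ) < (q : ℝ) ^ (3 / 2 : ℝ) := Real.one_lt_rpow (by linarith) (by norm_num)
      have hsq : ((q : ℝ) ^ (3 / 2 : ℝ)) ^ 2 = (q : ℝ) ^ 3 := by
        rw [← Real.rpow_natCast, ← Real.rpow_mul hq0.le, ← Real.rpow_natCast]
        norm_num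
      set Z1 : ℝ := (q : ℝ) ^ (3 / 2 : ℝ) with hZ1
      set Z2 : ℝ := (q : ℝ) ^ 4 with hZ2
      have hp2 := hpass Z2 hlt4q
      have hp1 := hpass Z1 hlt32
      set P := prodF (passF A Z2) (passF A Z1) with hP
      have hZZ : 1 ≤ Z2 * Z1 := one_le_mul_of_one_le_of_one_le hlt4q.le hlt32.le
      have hcardP : (P.card : ℝ) ≤ K ^ 2 * (Z2 * Z1) ^ (sexp A) := by
        rw [hP, card_prodF, Real.mul_rpow (by positivity) (by positivity)]
        push_cast
        calc ((passF A Z2).card : ℝ) * ((passF A Z1).card : ℝ)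
            ≤ (K * Z2 ^ (sexp A)) * (K * Z1 ^ (sexp A)) :=
              mul_le_mul hp2.2 hp1.2 (by positivity)
                (mul_nonneg hK.le (Real.rpow_nonneg (by positivity) _))
          _ = _ := by ring
      have hne : P.Nonempty := by
        rw [← Finset.card_pos, hP, card_prodF]
        have h1 : (0 : ℝ) < ((passF A Z2).card : ℝ) :=
          lt_of_lt_of_le (mul_pos hc1 (Real.rpow_pos_of_pos (by positivity) _)) hp2.1
        have h2 : (0 : ℝ) < ((passF A Z1).card : ℝ) :=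
          lt_of_lt_of_le (mul_pos hc1 (Real.rpow_pos_of_pos (by positivity) _)) hp1.1
        exact Nat.mul_pos (by exact_mod_cast h1) (by exact_mod_cast h2)
      have hZ20 : 0 < Z2 := by linarith
      have hZ10 : 0 < Z1 := by linarith
      have hCA2 : CA A ≤ CA A ^ 2 := le_self_pow₀ (by linarith only [hCA]) (by norm_num)
      have hZZ0 : 0 < Z2 * Z1 := by positivity
      have h1 := hcD q N τ H (Z2 * Z1) (2 * CA A ^ 2 * (Z2 * Z1)) P hge3 hN hne
        ((prodF_section A hlt4q hlt32).MixThm_mono (by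
          have h3 := mul_le_mul_of_nonneg_right hCA2 hZZ0.le
          linarith only [h3])) hZZ (by
          have h3 := mul_le_mul_of_nonneg_right hCA2 hZZ0.le
          have h4 : 1 ≤ CA A * (Z2 * Z1) :=
            one_le_mul_of_one_le_of_one_le (by linarith only [hCA]) hZZ
          linarith only [h3, h4])
        (fun u hu => by
          obtain ⟨a, ha, b, hb, rfl⟩ := base3_mem_prodF.1 hu
          have h2 : (F (a ++ b) : ℝ) ≤ 2 * ((F a : ℝ) * F b) := by
            exact_mod_cast F_append_le a b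
          have h3 := (passF_bounds ha).2
          have h4 := (passF_bounds hb).2
          have h5 : (F a : ℝ) * F b ≤ (CA A * Z2) * (CA A * Z1) :=
            mul_le_mul h3 h4 (by positivity) (by positivity)
          calc (F (a ++ b) : ℝ) ≤ 2 * ((F a : ℝ) * F b) := h2
            _ ≤ 2 * ((CA A * Z2) * (CA A * Z1)) := by linarith only [h5]
            _ = _ := by ring)
        (fun u hu => by
          obtain ⟨a, ha, b, hb, rfl⟩ := base3_mem_prodF.1 hu
          have h2 : (F a : ℝ) * F b ≤ (F (a ++ b) : ℝ) := by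
            exact_mod_cast F_mul_le a b
          have h3 := (passF_bounds ha).1
          have h4 := (passF_bounds hb).1
          exact (mul_le_mul h3 h4 (by positivity) (by positivity)).trans h2)
        le_rfl
        (by
          rw [mul_pow, hsq, hZ2, hHeq]
          refine le_of_eq ?_
          ring)
        hcardP h hh
        (fun t ht y hy => by
          have h2 : |τ + t| ≤ 3 * (q : ℝ) := by
            have h4 := abs_add_le τ t
            rw [hHeq] at ht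
            linarith only [h4, ht, hqt, hq0]
          have h3 := hD q (τ + t) (by rw [← hHeq]; exact hgeD) h2 h hnew hh y hy
          rw [hHeq]
          exact h3)
      refine h1.trans ?_
      refine mul_le_mul_of_nonneg_right (mul_le_mul_of_nonneg_right ?_ hNs) hHs
      have h9 : 0 ≤ Ct * HH ^ 4 := by positivity
      linarith only [h9, hC2, hC3]

end Pool.Agent.W_f50700_h3
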