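import Mathlib

/-!
QR1: the trace trick (row 436, L5), abstract form.
-/

open scoped ComplexInnerProductSpace

namespace Pool.Agent.W_f50700_h3

/-- the operator of the trace trick -/
noncomputable def QR1_T {E : Type*} [NormedAddCommGroup E] [InnerProductSpace ℂ E]
    {G : Type*} [Group G] [Fintype G] (ρ : G →* (E ≃ₗᵢ[ℂ] E)) (x : E) : E →ₗ[ℂ] E where
  toFun z := ∑ g : G, ⟪ρ g x, z⟫ • ρ g x
  map_add' z w := by simp only [inner_add_right, add_smul, Finset.sum_add_distrib]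
  map_smul' c z := by
    simp only [inner_smul_right, mul_smul, Finset.smul_sum, RingHom.id_apply]

theorem QR1_T_apply {E : Type*} [NormedAddCommGroup E] [InnerProductSpace ℂ E]
    {G : Type*} [Group G] [Fintype G] (ρ : G →* (E ≃ₗᵢ[ℂ] E)) (x z : E) :
    QR1_T ρ x z = ∑ g : G, ⟪ρ g x, z⟫ • ρ g x := rfl

theorem QR1_T_inner {E : Type*} [NormedAddCommGroup E] [InnerProductSpace ℂ E]
    {G : Type*} [Group G] [Fintype G] (ρ : G →* (E ≃ₗᵢ[ℂ] E)) (x y : E) :
    ⟪y, QR1_T ρ x y⟫ = ((∑ g : G, ‖⟪ρ g x, y⟫‖ ^ 2 : ℝ) : ℂ) := by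
  rw [QR1_T_apply, inner_sum, Complex.ofReal_sum]
  refine Finset.sum_congr rfl fun g _ => ?_
  rw [inner_smul_right, ← inner_conj_symm y (ρ g x), Complex.mul_conj, Complex.normSq_eq_norm_sq]

theorem QR1_T_symm {E : Type*} [NormedAddCommGroup E] [InnerProductSpace ℂ E]
    {G : Type*} [Group G] [Fintype G] (ρ : G →* (E ≃ₗᵢ[ℂ] E)) (x : E) :
    (QR1_T ρ x).IsSymmetric := by
  intro z w
  rw [QR1_T_apply, QR1_T_apply, inner_sum, sum_inner]
  refine Finset.sum_congr rfl fun g _ => ?_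
  rw [inner_smul_right, inner_smul_left, inner_conj_symm, mul_comm]

theorem QR1_T_comm {E : Type*} [NormedAddCommGroup E] [InnerProductSpace ℂ E]
    {G : Type*} [Group G] [Fintype G] (ρ : G →* (E ≃ₗᵢ[ℂ] E)) (x : E) (h : G) (z : E) :
    QR1_T ρ x (ρ h z) = ρ h (QR1_T ρ x z) := by
  rw [QR1_T_apply, QR1_T_apply, map_sum, ← Equiv.sum_comp (Equiv.mulLeft h)]
  refine Finset.sum_congr rfl fun g _ => ?_
  simp only [Equiv.coe_mulLeft, map_mul, map_smul]
  have h1 : ∀ v : E, (ρ h * ρ g) v = ρ h (ρ g v) := fun v => rfl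
  rw [h1, LinearIsometryEquiv.inner_map_map]

/-- `G` finite group, `ρ` unitary representation on a finite dimensional space, every nonzero
invariant subspace has dimension at least `D`.  Proof: `T z = ∑_g ⟪ρ g x, z⟫ ρ g x` is symmetric,
nonnegative and commutes with all `ρ g`; let `lam` be the supremum of its Rayleigh quotients, an
eigenvalue (`LinearMap.IsSymmetric.hasEigenvalue_iSup_of_finiteDimensional`), `V` the eigenspace
(invariant); with an orthonormal basis `e_i` of `V`: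
`lam * dim V = ∑_i ⟪e_i, T e_i⟫ = ∑_g ∑_i |⟪ρ g x, e_i⟫|^2 ≤ card G * ‖x‖^2` (Bessel);
so `lam * D ≤ card G * ‖x‖^2`, and `∑_g |⟪ρ g x, y⟫|^2 = ⟪y, T y⟫ ≤ lam ‖y‖^2`. -/
theorem trace_trick {E : Type*} [NormedAddCommGroup E] [InnerProductSpace ℂ E]
    [FiniteDimensional ℂ E] {G : Type*} [Group G] [Fintype G] (ρ : G →* (E ≃ₗᵢ[ℂ] E)) (D : ℕ)
    (hD : ∀ V : Submodule ℂ E, V ≠ ⊥ → (∀ g : G, ∀ v ∈ V, ρ g v ∈ V) →
      D ≤ Module.finrank ℂ V) (x y : E) :
    (D : ℝ) * ∑ g : G, ‖⟪ρ g x, y⟫‖ ^ 2 ≤ (Fintype.card G : ℝ) * ‖x‖ ^ 2 * ‖y‖ ^ 2 := by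
  classical
  have hT := QR1_T_symm ρ x
  let b := hT.eigenvectorBasis (rfl : Module.finrank ℂ E = Module.finrank ℂ E)
  let lam := hT.eigenvalues (rfl : Module.finrank ℂ E = Module.finrank ℂ E)
  have hb : ∀ i, QR1_T ρ x (b i) = (lam i : ℂ) • b i := fun i => hT.apply_eigenvectorBasis rfl i
  -- the bound for each eigenvalue
  have key : ∀ i, (D : ℝ) * lam i ≤ (Fintype.card G : ℝ) * ‖x‖ ^ 2 := by
    intro i
    let V := Module.End.eigenspace (QR1_T ρ x) (lam i : ℂ)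
    have hV : V ≠ ⊥ := by
      intro h0
      have h1 : b i ∈ V := Module.End.mem_eigenspace_iff.2 (hb i)
      rw [h0, Submodule.mem_bot] at h1
      have h2 := b.orthonormal.1 i
      rw [h1, norm_zero] at h2
      exact zero_ne_one h2
    have hVinv : ∀ g : G, ∀ v ∈ V, ρ g v ∈ V := by
      intro g v hv
      rw [Module.End.mem_eigenspace_iff] at hv ⊢
      rw [QR1_T_comm, hv, map_smul]
    have hDV := hD V hV hVinv
    let e := stdOrthonormalBasis ℂ V
    have he : Orthonormal ℂ (fun j => (e j : E)) :=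
      e.orthonormal.comp_linearIsometry V.subtypeₗᵢ
    have h1 : ∀ j, (lam i : ℝ) = ∑ g : G, ‖⟪ρ g x, (e j : E)⟫‖ ^ 2 := by
      intro j
      have h2 := QR1_T_inner ρ x (e j : E)
      have h3 : QR1_T ρ x (e j : E) = (lam i : ℂ) • (e j : E) :=
        Module.End.mem_eigenspace_iff.1 (e j).2
      rw [h3, inner_smul_right, inner_self_eq_norm_sq_to_K, he.1 j] at h2
      have h4 : ((lam i : ℝ) : ℂ) = ((∑ g : G, ‖⟪ρ g x, (e j : E)⟫‖ ^ 2 : ℝ) : ℂ) := by
        rw [← h2]; simp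
      exact Complex.ofReal_injective h4
    have hlam : 0 ≤ lam i := by
      by_cases hn : Module.finrank ℂ V = 0
      · exact absurd (Submodule.finrank_eq_zero.1 hn) hV
      · rw [h1 ⟨0, Nat.pos_of_ne_zero hn⟩]
        positivity
    calc (D : ℝ) * lam i ≤ (Module.finrank ℂ V : ℝ) * lam i := by
          gcongr
      _ = ∑ j : Fin (Module.finrank ℂ V), ∑ g : G, ‖⟪ρ g x, (e j : E)⟫‖ ^ 2 := by
          rw [← Finset.sum_congr rfl fun j _ => h1 j]
          simp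
      _ = ∑ g : G, ∑ j : Fin (Module.finrank ℂ V), ‖⟪(e j : E), ρ g x⟫‖ ^ 2 := by
          rw [Finset.sum_comm]
          refine Finset.sum_congr rfl fun g _ => Finset.sum_congr rfl fun j _ => ?_
          rw [norm_inner_symm]
      _ ≤ ∑ g : G, ‖ρ g x‖ ^ 2 := by
          refine Finset.sum_le_sum fun g _ => ?_
          exact he.sum_inner_products_le (ρ g x)
      _ = (Fintype.card G : ℝ) * ‖x‖ ^ 2 := by
          simp
  -- expansion of `y`
  have h5 : (∑ g : G, ‖⟪ρ g x, y⟫‖ ^ 2 : ℝ) = ∑ i, lam i * ‖⟪b i, y⟫‖ ^ 2 := by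
    have h6 := QR1_T_inner ρ x y
    rw [← b.sum_inner_mul_inner] at h6
    have h7 : ∀ i, ⟪y, b i⟫ * ⟪b i, QR1_T ρ x y⟫ = ((lam i * ‖⟪b i, y⟫‖ ^ 2 : ℝ) : ℂ) := by
      intro i
      rw [← hT (b i) y, hb i, inner_smul_left, Complex.conj_ofReal, ← inner_conj_symm y (b i)]
      rw [← Complex.normSq_eq_norm_sq, Complex.ofReal_mul, ← Complex.mul_conj]
      ring
    rw [Finset.sum_congr rfl fun i _ => h7 i, ← Complex.ofReal_sum] at h6
    exact (Complex.ofReal_injective h6).symm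
  rw [h5, Finset.mul_sum]
  calc ∑ i, (D : ℝ) * (lam i * ‖⟪b i, y⟫‖ ^ 2)
      ≤ ∑ i, (Fintype.card G : ℝ) * ‖x‖ ^ 2 * ‖⟪b i, y⟫‖ ^ 2 := by
        refine Finset.sum_le_sum fun i _ => ?_
        rw [← mul_assoc]
        exact mul_le_mul_of_nonneg_right (key i) (by positivity)
    _ = (Fintype.card G : ℝ) * ‖x‖ ^ 2 * ‖y‖ ^ 2 := by
        rw [← Finset.mul_sum, b.sum_sq_norm_inner_right]

end Pool.Agent.W_f50700_h3
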