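import Pool.Agent.W_f50700_h3.Expo2

/-!
Ren0: the eigenfunction (row 437, R0).
-/

open Matrix

namespace Pool.Agent.W_f50700_h3

variable {A : ℕ}

/-- an eigenfunction at the critical exponent, with bounds and regularity -/
structure Eig (A : ℕ) where
  h : ℝ → ℝ
  lower : ∀ x ∈ Set.Icc (0 : ℝ) 1, (2 : ℝ) ^ (-(sexp A)) ≤ h x
  upper : ∀ x ∈ Set.Icc (0 : ℝ) 1, h x ≤ (2 : ℝ) ^ (sexp A)
  eig : ∀ x ∈ Set.Icc (0 : ℝ) 1,
    h x = ∑ g : Lt A, (rphi [g] x) ^ (-(sexp A)) * h (ract [g] x)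
  reg : ∀ x ∈ Set.Icc (0 : ℝ) 1, ∀ y ∈ Set.Icc (0 : ℝ) 1,
    (1 + |x - y|) ^ (-(sexp A)) * h x ≤ h y

/-- sums over words of length `n` of `rphi w x ^ (-s)` -/
noncomputable def Ren0_fn (A : ℕ) (s : ℝ) (n : ℕ) (x : ℝ) : ℝ :=
  ∑ w : Fin n → Lt A, (rphi (List.ofFn w) x) ^ (-s)

theorem Ren0_sum_cons {β : Type*} [AddCommMonoid β] (n : ℕ) (f : (Fin (n + 1) → Lt A) → β) :
    ∑ w, f w = ∑ g : Lt A, ∑ w : Fin n → Lt A, f (Fin.cons g w) := by
  rw [← Fintype.sum_prod_type']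
  exact (Fintype.sum_equiv (Fin.consEquiv (fun _ => Lt A)) _ _ (fun _ => rfl)).symm

theorem Ren0_fn_le {s : ℝ} (hs : 0 ≤ s) (n : ℕ) {x : ℝ} (hx : x ∈ Set.Icc (0 : ℝ) 1) :
    Ren0_fn A s n x ≤ asum A s n := by
  unfold Ren0_fn asum
  exact Finset.sum_le_sum fun w _ => Real.rpow_le_rpow_of_nonpos (Base2_F_pos _)
    (F_le_rphi _ hx.1) (neg_nonpos.2 hs)

theorem Ren0_le_fn {s : ℝ} (hs : 0 ≤ s) (n : ℕ) {x : ℝ} (hx : x ∈ Set.Icc (0 : ℝ) 1) :
    (2 : ℝ) ^ (-s) * asum A s n ≤ Ren0_fn A s n x := by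
  unfold Ren0_fn asum
  rw [Finset.mul_sum]
  refine Finset.sum_le_sum fun w _ => ?_
  rw [← Real.mul_rpow (by norm_num) (Base2_F_pos _).le]
  exact Real.rpow_le_rpow_of_nonpos (rphi_pos _ hx.1) (rphi_le _ hx) (neg_nonpos.2 hs)

theorem Ren0_fn_succ (s : ℝ) (n : ℕ) {x : ℝ} (hx : x ∈ Set.Icc (0 : ℝ) 1) :
    Ren0_fn A s (n + 1) x = ∑ g : Lt A, (rphi [g] x) ^ (-s) * Ren0_fn A s n (ract [g] x) := by
  unfold Ren0_fn
  rw [Ren0_sum_cons]
  refine Finset.sum_congr rfl fun g _ => ?_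
  rw [Finset.mul_sum]
  refine Finset.sum_congr rfl fun w _ => ?_
  rw [List.ofFn_cons, show g :: List.ofFn w = [g] ++ List.ofFn w from rfl,
    rphi_append _ _ hx.1, Real.mul_rpow (rphi_pos _ hx.1).le (rphi_pos _ (ract_mem [g] hx).1).le]

theorem Ren0_fn_reg {s : ℝ} (hs : 0 ≤ s) (n : ℕ) {x y : ℝ} (hx : x ∈ Set.Icc (0 : ℝ) 1)
    (hy : y ∈ Set.Icc (0 : ℝ) 1) :
    (1 + |x - y|) ^ (-s) * Ren0_fn A s n x ≤ Ren0_fn A s n y := by
  unfold Ren0_fn
  rw [Finset.mul_sum]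
  refine Finset.sum_le_sum fun w _ => ?_
  rw [← Real.mul_rpow (by positivity) (rphi_pos _ hx.1).le]
  refine Real.rpow_le_rpow_of_nonpos (rphi_pos _ hy.1) ?_ (neg_nonpos.2 hs)
  have := rphi_ratio (List.ofFn w) hy hx
  rwa [abs_sub_comm y x] at this

/-- Cesàro means -/
noncomputable def Ren0_ces (A : ℕ) (s : ℝ) (n : ℕ) (x : ℝ) : ℝ :=
  (∑ k ∈ Finset.range n, Ren0_fn A s k x) / n

/-- R0.  Proof: `A_k(x) = ∑_{|w| = k} rphi w x ^ (-s)` lies in `[2^(-s) asum k, asum k]`, hence in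
`[2^(-s), 2^s]` (`one_le_asum`, `asum_le_two`), and
`A_{k+1}(x) = ∑_g rphi [g] x ^ (-s) A_k (ract [g] x)`.  Let `h x` be the limit of
`(1/n) ∑_{k<n} A_k x` along a nonprincipal ultrafilter on `ℕ` (`Filter.hyperfilter ℕ`,
compactness of `[0, 2^s]`); the eigen equation holds because
`(1/n) ∑_{k<n} A_k - (1/n) ∑_{k<n} A_{k+1} = (A_0 - A_n)/n → 0`; regularity from `rphi_ratio`. -/
theorem exists_eig (hA : 1 ≤ A) : Nonempty (Eig A) := by
  have hs := sexp_nonneg A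
  set s := sexp A with hsdef
  have hlow : ∀ k : ℕ, ∀ x ∈ Set.Icc (0 : ℝ) 1, (2 : ℝ) ^ (-s) ≤ Ren0_fn A s k x := by
    intro k x hx
    refine le_trans ?_ (Ren0_le_fn hs k hx)
    have h1 := one_le_asum hA k
    have h2 : (0 : ℝ) < (2 : ℝ) ^ (-s) := Real.rpow_pos_of_pos (by norm_num) _
    calc (2 : ℝ) ^ (-s) = (2 : ℝ) ^ (-s) * 1 := (mul_one _).symm
      _ ≤ _ := mul_le_mul_of_nonneg_left h1 h2.le
  have hup : ∀ k : ℕ, ∀ x ∈ Set.Icc (0 : ℝ) 1, Ren0_fn A s k x ≤ (2 : ℝ) ^ s :=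
    fun k x hx => (Ren0_fn_le hs k hx).trans (asum_le_two hA k)
  have hnn : ∀ k : ℕ, ∀ x ∈ Set.Icc (0 : ℝ) 1, 0 ≤ Ren0_fn A s k x :=
    fun k x hx => (Real.rpow_pos_of_pos (by norm_num) _).le.trans (hlow k x hx)
  have hcup : ∀ n : ℕ, ∀ x ∈ Set.Icc (0 : ℝ) 1, Ren0_ces A s n x ≤ (2 : ℝ) ^ s := by
    intro n x hx
    unfold Ren0_ces
    rcases Nat.eq_zero_or_pos n with h0 | h0
    · subst h0
      simp only [Finset.range_zero, Finset.sum_empty, zero_div]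
      exact (Real.rpow_pos_of_pos (by norm_num) _).le
    · have h1 : (0 : ℝ) < n := by exact_mod_cast h0
      rw [div_le_iff₀ h1]
      refine (Finset.sum_le_card_nsmul _ _ _ fun k _ => hup k x hx).trans ?_
      rw [Finset.card_range, nsmul_eq_mul, mul_comm]
  have hclow : ∀ n : ℕ, 0 < n → ∀ x ∈ Set.Icc (0 : ℝ) 1, (2 : ℝ) ^ (-s) ≤ Ren0_ces A s n x := by
    intro n h0 x hx
    unfold Ren0_ces
    have h1 : (0 : ℝ) < n := by exact_mod_cast h0
    rw [le_div_iff₀ h1]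
    refine le_trans ?_ (Finset.card_nsmul_le_sum _ _ _ fun k _ => hlow k x hx)
    rw [Finset.card_range, nsmul_eq_mul, mul_comm]
  have hcnn : ∀ n : ℕ, ∀ x ∈ Set.Icc (0 : ℝ) 1, 0 ≤ Ren0_ces A s n x := by
    intro n x hx
    unfold Ren0_ces
    exact div_nonneg (Finset.sum_nonneg fun k _ => hnn k x hx) (Nat.cast_nonneg _)
  have hex : ∀ x : ℝ, ∃ a : ℝ, x ∈ Set.Icc (0 : ℝ) 1 →
      Filter.Tendsto (fun n => Ren0_ces A s n x) (Filter.hyperfilter ℕ : Filter ℕ) (nhds a) := by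
    intro x
    by_cases hx : x ∈ Set.Icc (0 : ℝ) 1
    · have hc : IsCompact (Set.Icc (0 : ℝ) ((2 : ℝ) ^ s)) := isCompact_Icc
      obtain ⟨a, -, ha⟩ := hc.ultrafilter_le_nhds
        ((Filter.hyperfilter ℕ).map (fun n => Ren0_ces A s n x)) (by
          rw [Filter.le_principal_iff]
          have h1 : ∀ n : ℕ, Ren0_ces A s n x ∈ Set.Icc (0 : ℝ) ((2 : ℝ) ^ s) :=
            fun n => ⟨hcnn n x hx, hcup n x hx⟩
          exact Filter.mem_map.2 (Filter.univ_mem' h1))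
      exact ⟨a, fun _ => ha⟩
    · exact ⟨0, fun h => absurd h hx⟩
  choose h hh using hex
  have hle : (Filter.hyperfilter ℕ : Filter ℕ) ≤ Filter.atTop := Nat.hyperfilter_le_atTop
  refine ⟨⟨h, ?_, ?_, ?_, ?_⟩⟩
  · intro x hx
    refine ge_of_tendsto (hh x hx) ?_
    filter_upwards [hle (Filter.eventually_gt_atTop 0)] with n hn
    exact hclow n hn x hx
  · intro x hx
    exact le_of_tendsto' (hh x hx) fun n => hcup n x hx
  · intro x hx
    have h1 : Filter.Tendsto (fun n => ∑ g : Lt A, (rphi [g] x) ^ (-s) *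
        Ren0_ces A s n (ract [g] x)) (Filter.hyperfilter ℕ : Filter ℕ)
        (nhds (∑ g : Lt A, (rphi [g] x) ^ (-s) * h (ract [g] x))) :=
      tendsto_finsetSum _ fun g _ => (hh _ (ract_mem [g] hx)).const_mul _
    have h2 : ∀ n : ℕ, ∑ g : Lt A, (rphi [g] x) ^ (-s) * Ren0_ces A s n (ract [g] x) =
        Ren0_ces A s n x + (Ren0_fn A s n x - Ren0_fn A s 0 x) / n := by
      intro n
      have h3 : ∀ g : Lt A, (rphi [g] x) ^ (-s) * Ren0_ces A s n (ract [g] x) =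
          (∑ k ∈ Finset.range n, (rphi [g] x) ^ (-s) * Ren0_fn A s k (ract [g] x)) / n := by
        intro g
        unfold Ren0_ces
        rw [← Finset.mul_sum, mul_div_assoc]
      rw [Finset.sum_congr rfl fun g _ => h3 g, ← Finset.sum_div, Finset.sum_comm]
      unfold Ren0_ces
      rw [← add_div]
      congr 1
      rw [← Finset.sum_range_sub (fun k => Ren0_fn A s k x) n, ← Finset.sum_add_distrib]
      refine Finset.sum_congr rfl fun k _ => ?_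
      rw [← Ren0_fn_succ s k hx]
      ring
    have h4 : Filter.Tendsto (fun n : ℕ => (Ren0_fn A s n x - Ren0_fn A s 0 x) / n)
        Filter.atTop (nhds 0) := by
      have h5 : Filter.Tendsto (fun n : ℕ => (2 : ℝ) ^ s / n) Filter.atTop (nhds 0) :=
        tendsto_const_div_atTop_nhds_zero_nat _
      refine squeeze_zero_norm (fun n => ?_) h5
      rw [Real.norm_eq_abs, abs_div, Nat.abs_cast]
      refine div_le_div_of_nonneg_right ?_ (Nat.cast_nonneg _)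
      rw [abs_le]
      have a1 := hup n x hx
      have a2 := hup 0 x hx
      have a3 := hnn n x hx
      have a4 := hnn 0 x hx
      constructor <;> linarith
    have h6 := (hh x hx).add (h4.mono_left hle)
    rw [add_zero] at h6
    exact tendsto_nhds_unique h6 (h1.congr h2)
  · intro x hx y hy
    exact le_of_tendsto_of_tendsto' ((hh x hx).const_mul _) (hh y hy) fun n => by
      show (1 + |x - y|) ^ (-s) * Ren0_ces A s n x ≤ Ren0_ces A s n y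
      unfold Ren0_ces
      rw [← mul_div_assoc, Finset.mul_sum]
      exact div_le_div_of_nonneg_right (Finset.sum_le_sum fun k _ => Ren0_fn_reg hs k hx hy)
        (Nat.cast_nonneg _)

/-- transition probabilities `p_w(x) = rphi w x ^ (-s) h(x.w) / h(x)` -/
noncomputable def Eig.p (E : Eig A) (w : List (Lt A)) (x : ℝ) : ℝ :=
  (rphi w x) ^ (-(sexp A)) * E.h (ract w x) / E.h x

theorem Ren0_h_pos (E : Eig A) {x : ℝ} (hx : x ∈ Set.Icc (0 : ℝ) 1) : 0 < E.h x :=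
  (Real.rpow_pos_of_pos (by norm_num) _).trans_le (E.lower x hx)

theorem Eig.p_pos (E : Eig A) (w : List (Lt A)) {x : ℝ} (hx : x ∈ Set.Icc (0 : ℝ) 1) :
    0 < E.p w x := by
  unfold Eig.p
  exact div_pos (mul_pos (Real.rpow_pos_of_pos (rphi_pos w hx.1) _)
    (Ren0_h_pos E (ract_mem w hx))) (Ren0_h_pos E hx)

theorem Eig.p_append (E : Eig A) (u w : List (Lt A)) {x : ℝ} (hx : x ∈ Set.Icc (0 : ℝ) 1) :
    E.p (u ++ w) x = E.p u x * E.p w (ract u x) := by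
  have h1 := (Ren0_h_pos E hx).ne'
  have h2 := (Ren0_h_pos E (ract_mem u hx)).ne'
  unfold Eig.p
  rw [rphi_append _ _ hx.1, ract_append _ _ hx.1,
    Real.mul_rpow (rphi_pos u hx.1).le (rphi_pos w (ract_mem u hx).1).le]
  field_simp

theorem Eig.sum_p (E : Eig A) {x : ℝ} (hx : x ∈ Set.Icc (0 : ℝ) 1) :
    ∑ g : Lt A, E.p [g] x = 1 := by
  unfold Eig.p
  rw [← Finset.sum_div, ← E.eig x hx, div_self (Ren0_h_pos E hx).ne']

theorem Eig.sum_p_len (E : Eig A) (n : ℕ) {x : ℝ} (hx : x ∈ Set.Icc (0 : ℝ) 1) :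
    ∑ w : Fin n → Lt A, E.p (List.ofFn w) x = 1 := by
  induction n generalizing x with
  | zero =>
    rw [Fintype.sum_unique, List.ofFn_zero]
    unfold Eig.p
    rw [rphi_nil, ract_nil, Real.one_rpow, one_mul, div_self (Ren0_h_pos E hx).ne']
  | succ n ih =>
    rw [Ren0_sum_cons, ← E.sum_p hx]
    refine Finset.sum_congr rfl fun g _ => ?_
    have h1 : ∀ w : Fin n → Lt A, E.p (List.ofFn (Fin.cons g w : Fin (n + 1) → Lt A)) x =
        E.p [g] x * E.p (List.ofFn w) (ract [g] x) := by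
      intro w
      rw [List.ofFn_cons, show g :: List.ofFn w = [g] ++ List.ofFn w from rfl, E.p_append _ _ hx]
    rw [Finset.sum_congr rfl fun w _ => h1 w, ← Finset.mul_sum, ih (ract_mem [g] hx), mul_one]

/-- uniform lower bound -/
theorem Eig.p_lower (E : Eig A) (w : List (Lt A)) : ∃ c : ℝ, 0 < c ∧
    ∀ x ∈ Set.Icc (0 : ℝ) 1, c ≤ E.p w x := by
  have hF := Base2_F_pos w
  have h1 : (0 : ℝ) < (2 * (F w : ℝ)) ^ (-(sexp A)) := Real.rpow_pos_of_pos (by positivity) _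
  have h2 : (0 : ℝ) < (2 : ℝ) ^ (-(sexp A)) := Real.rpow_pos_of_pos (by norm_num) _
  have h3 : (0 : ℝ) < (2 : ℝ) ^ (sexp A) := Real.rpow_pos_of_pos (by norm_num) _
  refine ⟨(2 * (F w : ℝ)) ^ (-(sexp A)) * (2 : ℝ) ^ (-(sexp A)) / (2 : ℝ) ^ (sexp A),
    div_pos (mul_pos h1 h2) h3, fun x hx => ?_⟩
  unfold Eig.p
  have h4 : (2 * (F w : ℝ)) ^ (-(sexp A)) ≤ (rphi w x) ^ (-(sexp A)) :=
    Real.rpow_le_rpow_of_nonpos (rphi_pos w hx.1) (rphi_le w hx) (neg_nonpos.2 (sexp_nonneg A))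
  refine div_le_div₀ (mul_pos (h1.trans_le h4) (Ren0_h_pos E (ract_mem w hx))).le
    (mul_le_mul h4 (E.lower _ (ract_mem w hx)) h2.le (h1.trans_le h4).le)
    (Ren0_h_pos E hx) (E.upper x hx)

end Pool.Agent.W_f50700_h3
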