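import Pool.Agent.W_f50700_h3.Ren0
import Pool.Agent.W_f50700_h3.Nrm

/-!
Ren1: the counting function and its renewal equation (row 437, R1).
-/

open Matrix

namespace Pool.Agent.W_f50700_h3

variable {A : ℕ}

/-- number of words `w` with `rphi w x ≤ e^t` and `w e1 = y mod q` -/
noncomputable def cntR (A q : ℕ) (t x : ℝ) (y : ZMod q × ZMod q) : ℝ := by
  classical
  exact (((wordsF A (Real.exp t)).filter
    (fun w => rphi w x ≤ Real.exp t ∧ vact q (mat w) (1, 0) = y)).card : ℝ)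

/-- normalized counting function -/
noncomputable def fR (E : Eig A) (q : ℕ) (t x : ℝ) (y : ZMod q × ZMod q) : ℝ :=
  Real.exp (-(sexp A) * t) * cntR A q t x y / E.h x

theorem ren1_cntR_eq (q : ℕ) (t x : ℝ) (y : ZMod q × ZMod q)
    [DecidablePred fun w : List (Lt A) => rphi w x ≤ Real.exp t ∧ vact q (mat w) (1, 0) = y] :
    cntR A q t x y = (((wordsF A (Real.exp t)).filter
    (fun w => rphi w x ≤ Real.exp t ∧ vact q (mat w) (1, 0) = y)).card : ℝ) := by
  unfold cntR
  congr!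

/-- the counting set -/
noncomputable def ren1_set (A q : ℕ) (t x : ℝ) (y : ZMod q × ZMod q) : Finset (List (Lt A)) := by
  classical
  exact (wordsF A (Real.exp t)).filter
    (fun w => rphi w x ≤ Real.exp t ∧ vact q (mat w) (1, 0) = y)

theorem ren1_cntR (q : ℕ) (t x : ℝ) (y : ZMod q × ZMod q) :
    cntR A q t x y = ((ren1_set A q t x y).card : ℝ) := rfl

theorem ren1_mem {q : ℕ} {t x : ℝ} (hx : 0 ≤ x) {y : ZMod q × ZMod q} {w : List (Lt A)} :
    w ∈ ren1_set A q t x y ↔ rphi w x ≤ Real.exp t ∧ vact q (mat w) (1, 0) = y := by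
  classical
  unfold ren1_set
  rw [Finset.mem_filter, mem_wordsF]
  exact ⟨fun h => h.2, fun h => ⟨(F_le_rphi w hx).trans h.1, h⟩⟩

theorem ren1_cntR_nonneg (q : ℕ) (t x : ℝ) (y : ZMod q × ZMod q) : 0 ≤ cntR A q t x y := by
  rw [ren1_cntR]
  exact Nat.cast_nonneg _

theorem ren1_h_pos (E : Eig A) {x : ℝ} (hx : x ∈ Set.Icc (0 : ℝ) 1) : 0 < E.h x :=
  lt_of_lt_of_le (Real.rpow_pos_of_pos (by norm_num) _) (E.lower x hx)

theorem cntR_zero (q : ℕ) {x : ℝ} (hx : x ∈ Set.Icc (0 : ℝ) 1) (y : ZMod q × ZMod q) {t : ℝ}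
    (ht : t < 0) : cntR A q t x y = 0 := by
  rw [ren1_cntR, Nat.cast_eq_zero, Finset.card_eq_zero, Finset.eq_empty_iff_forall_notMem]
  intro w hw
  have h1 := ((ren1_mem hx.1).1 hw).1
  have h2 : Real.exp t < 1 := by rwa [Real.exp_lt_one_iff]
  have h3 := F_le_rphi w hx.1
  have h4 := expo1_one_le_F w
  linarith

theorem cntR_mono (q : ℕ) (x : ℝ) (y : ZMod q × ZMod q) {t t' : ℝ} (h : t ≤ t') :
    cntR A q t x y ≤ cntR A q t' x y := by
  classical
  rw [ren1_cntR, ren1_cntR, Nat.cast_le]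
  refine Finset.card_le_card ?_
  intro w hw
  have he : Real.exp t ≤ Real.exp t' := Real.exp_le_exp.2 h
  unfold ren1_set at hw ⊢
  rw [Finset.mem_filter, mem_wordsF] at hw ⊢
  exact ⟨hw.1.trans he, hw.2.1.trans he, hw.2.2⟩

/-- `rphi w x' ≤ (1+|x-x'|) rphi w x` -/
theorem cntR_shift (q : ℕ) {x x' : ℝ} (hx : x ∈ Set.Icc (0 : ℝ) 1) (hx' : x' ∈ Set.Icc (0 : ℝ) 1)
    (y : ZMod q × ZMod q) (t : ℝ) :
    cntR A q (t - |x - x'|) x y ≤ cntR A q t x' y := by
  rw [ren1_cntR, ren1_cntR, Nat.cast_le]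
  refine Finset.card_le_card ?_
  intro w hw
  rw [ren1_mem hx.1] at hw
  rw [ren1_mem hx'.1]
  refine ⟨?_, hw.2⟩
  have h1 := rphi_ratio w hx' hx
  rw [abs_sub_comm] at h1
  have h2 : 1 + |x - x'| ≤ Real.exp (|x - x'|) := by
    have := Real.add_one_le_exp (|x - x'|)
    linarith
  have h3 : (0 : ℝ) < rphi w x := rphi_pos w hx.1
  calc rphi w x' ≤ (1 + |x - x'|) * rphi w x := h1
    _ ≤ Real.exp (|x - x'|) * Real.exp (t - |x - x'|) :=
        mul_le_mul h2 hw.1 h3.le (Real.exp_pos _).le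
    _ = Real.exp t := by rw [← Real.exp_add]; congr 1; ring

theorem ren1_card_list {α : Type*} [Fintype α] [DecidableEq α] (S : Finset (List α))
    (T : α → Finset (List α)) (hT : ∀ g w, w ∈ T g ↔ g :: w ∈ S) :
    S.card = (∑ g : α, (T g).card) + (if [] ∈ S then 1 else 0) := by
  classical
  rw [Finset.card_eq_sum_card_fiberwise (f := List.head?) (t := Finset.univ)
    (fun _ _ => Finset.mem_coe.2 (Finset.mem_univ _)), Fintype.sum_option, add_comm]
  congr 1
  · refine Finset.sum_congr rfl fun g _ => ?_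
    symm
    refine Finset.card_bij (fun w _ => g :: w) ?_ ?_ ?_
    · intro w hw
      rw [Finset.mem_filter]
      exact ⟨(hT g w).1 hw, rfl⟩
    · intro a _ b _ h
      exact (List.cons.inj h).2
    · intro w hw
      rw [Finset.mem_filter] at hw
      cases w with
      | nil => simp at hw
      | cons g' w =>
        have h1 : g' = g := by simpa using hw.2
        subst h1
        exact ⟨w, (hT _ w).2 hw.1, rfl⟩
  · split_ifs with h
    · rw [Finset.card_eq_one]
      refine ⟨[], ?_⟩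
      ext w
      rw [Finset.mem_filter, Finset.mem_singleton, List.head?_eq_none_iff]
      exact ⟨fun h => h.2, fun h' => ⟨h' ▸ h, h'⟩⟩
    · rw [Finset.card_eq_zero, Finset.eq_empty_iff_forall_notMem]
      intro w hw
      rw [Finset.mem_filter, List.head?_eq_none_iff] at hw
      exact h (hw.2 ▸ hw.1)

theorem ren1_gact_inv {q : ℕ} (w : List (Lt A)) (z y : ZMod q × ZMod q) :
    z = gact q (slOf q w)⁻¹ y ↔ vact q (mat w) z = y := by
  rw [← gact_slOf]
  constructor
  · rintro rfl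
    rw [← gact_mul, mul_inv_cancel, gact_one]
  · rintro rfl
    rw [← gact_mul, inv_mul_cancel, gact_one]

/-- renewal equation for the counting function: split off the first letter -/
theorem cntR_renewal (q : ℕ) {x : ℝ} (hx : x ∈ Set.Icc (0 : ℝ) 1) (y : ZMod q × ZMod q) (t : ℝ) :
    cntR A q t x y = (∑ g : Lt A, cntR A q (t - Real.log (rphi [g] x)) (ract [g] x)
      (gact q (slOf q [g])⁻¹ y)) + (if 0 ≤ t ∧ y = (1, 0) then 1 else 0) := by
  classical
  simp only [ren1_cntR]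
  rw [ren1_card_list (ren1_set A q t x y) (fun g => ren1_set A q (t - Real.log (rphi [g] x))
    (ract [g] x) (gact q (slOf q [g])⁻¹ y))]
  · push_cast
    congr 1
    have h1 : ([] : List (Lt A)) ∈ ren1_set A q t x y ↔ (0 ≤ t ∧ y = (1, 0)) := by
      rw [ren1_mem hx.1, rphi_nil, Real.one_le_exp_iff]
      have : vact q (mat ([] : List (Lt A))) (1, 0) = (1, 0) := by
        rw [vact_e1]
        simp
      rw [this]
      exact and_congr_right fun _ => eq_comm
    by_cases h : (0 ≤ t ∧ y = (1, 0))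
    · rw [if_pos (h1.2 h), if_pos h]
    · rw [if_neg (fun h2 => h (h1.1 h2)), if_neg h]
  · intro g w
    rw [ren1_mem (ract_mem [g] hx).1, ren1_mem hx.1]
    have e1 : g :: w = [g] ++ w := rfl
    have hp : 0 < rphi [g] x := rphi_pos [g] hx.1
    rw [e1, rphi_append [g] w hx.1, vact_append, ← ren1_gact_inv [g], Real.exp_sub, Real.exp_log hp,
      le_div_iff₀ hp, mul_comm (rphi w (ract [g] x)) (rphi [g] x)]

theorem fR_nonneg (E : Eig A) (q : ℕ) {x : ℝ} (hx : x ∈ Set.Icc (0 : ℝ) 1) (t : ℝ)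
    (y : ZMod q × ZMod q) : 0 ≤ fR E q t x y := by
  unfold fR
  exact div_nonneg (mul_nonneg (Real.exp_pos _).le (ren1_cntR_nonneg q t x y))
    (ren1_h_pos E hx).le

theorem ren1_inv_h_le (E : Eig A) {x : ℝ} (hx : x ∈ Set.Icc (0 : ℝ) 1) :
    (E.h x)⁻¹ ≤ (2 : ℝ) ^ (sexp A) := by
  have h1 := E.lower x hx
  have h2 : (0 : ℝ) < (2 : ℝ) ^ (-(sexp A)) := Real.rpow_pos_of_pos (by norm_num) _
  calc (E.h x)⁻¹ ≤ ((2 : ℝ) ^ (-(sexp A)))⁻¹ := inv_anti₀ h2 h1
    _ = (2 : ℝ) ^ (sexp A) := by rw [Real.rpow_neg (by norm_num), inv_inv]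

theorem fR_bounded (hA : 2 ≤ A) (E : Eig A) : ∃ C : ℝ, 0 < C ∧ ∀ (q : ℕ) (t : ℝ),
    ∀ x ∈ Set.Icc (0 : ℝ) 1, ∀ y : ZMod q × ZMod q, fR E q t x y ≤ C := by
  classical
  obtain ⟨c, C, hc, hC, hb⟩ := card_wordsF_bounds hA
  have h2s : (0 : ℝ) < (2 : ℝ) ^ (sexp A) := Real.rpow_pos_of_pos (by norm_num) _
  refine ⟨C * (2 : ℝ) ^ (sexp A), mul_pos hC h2s, ?_⟩
  intro q t x hx y
  rcases lt_or_ge t 0 with ht | ht
  · unfold fR
    rw [cntR_zero q hx y ht, mul_zero, zero_div]
    exact (mul_pos hC h2s).le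
  · have h1 : cntR A q t x y ≤ ((wordsF A (Real.exp t)).card : ℝ) := by
      rw [ren1_cntR, Nat.cast_le]
      unfold ren1_set
      exact Finset.card_filter_le _ _
    have h2 : 1 ≤ Real.exp t := Real.one_le_exp_iff.2 ht
    have h3 := (hb (Real.exp t) h2).2
    have h4 : (Real.exp t) ^ (sexp A) = Real.exp (sexp A * t) := by
      rw [← Real.exp_mul, mul_comm]
    rw [h4] at h3
    have h5 : Real.exp (-(sexp A) * t) * cntR A q t x y ≤ C := by
      calc Real.exp (-(sexp A) * t) * cntR A q t x y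
          ≤ Real.exp (-(sexp A) * t) * (C * Real.exp (sexp A * t)) :=
            mul_le_mul_of_nonneg_left (h1.trans h3) (Real.exp_pos _).le
        _ = C * (Real.exp (-(sexp A) * t) * Real.exp (sexp A * t)) := by ring
        _ = C := by
            rw [← Real.exp_add]
            have : -(sexp A) * t + sexp A * t = 0 := by ring
            rw [this, Real.exp_zero, mul_one]
    unfold fR
    rw [div_eq_mul_inv]
    exact mul_le_mul h5 (ren1_inv_h_le E hx) (inv_nonneg.2 (ren1_h_pos E hx).le) hC.le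

theorem ren1_fR_eq (E : Eig A) (q : ℕ) {x : ℝ} (hx : x ∈ Set.Icc (0 : ℝ) 1) (t : ℝ)
    (y : ZMod q × ZMod q) :
    fR E q t x y = (∑ g : Lt A, E.p [g] x * fR E q (t - Real.log (rphi [g] x)) (ract [g] x)
      (gact q (slOf q [g])⁻¹ y)) +
      Real.exp (-(sexp A) * t) * (if 0 ≤ t ∧ y = (1, 0) then 1 else 0) / E.h x := by
  unfold fR
  rw [cntR_renewal q hx y t, mul_add, add_div]
  congr 1
  rw [Finset.mul_sum, Finset.sum_div]
  refine Finset.sum_congr rfl fun g _ => ?_
  have hp : 0 < rphi [g] x := rphi_pos [g] hx.1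
  have hh : 0 < E.h x := ren1_h_pos E hx
  have hh' : 0 < E.h (ract [g] x) := ren1_h_pos E (ract_mem [g] hx)
  unfold Eig.p
  have h1 : Real.exp (-(sexp A) * (t - Real.log (rphi [g] x))) =
      Real.exp (-(sexp A) * t) * (rphi [g] x) ^ (sexp A) := by
    rw [Real.rpow_def_of_pos hp, ← Real.exp_add]
    congr 1
    ring
  rw [h1]
  have h2 : (rphi [g] x) ^ (-(sexp A)) * (rphi [g] x) ^ (sexp A) = 1 := by
    rw [← Real.rpow_add hp, neg_add_cancel, Real.rpow_zero]
  set c := cntR A q (t - Real.log (rphi [g] x)) (ract [g] x) (gact q (slOf q [g])⁻¹ y)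
  set P := (rphi [g] x) ^ (-(sexp A))
  set Q := (rphi [g] x) ^ (sexp A)
  field_simp
  linear_combination (-c) * h2

/-- renewal equation for `fR` (one letter), inhomogeneous term between `0` and `C e^(-s t)` -/
theorem fR_renewal (hA : 1 ≤ A) (E : Eig A) : ∃ C : ℝ, 0 < C ∧ ∀ (q : ℕ) (t : ℝ),
    ∀ x ∈ Set.Icc (0 : ℝ) 1, ∀ y : ZMod q × ZMod q,
    (∑ g : Lt A, E.p [g] x * fR E q (t - Real.log (rphi [g] x)) (ract [g] x)
      (gact q (slOf q [g])⁻¹ y)) ≤ fR E q t x y ∧
    fR E q t x y ≤ (∑ g : Lt A, E.p [g] x * fR E q (t - Real.log (rphi [g] x)) (ract [g] x)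
      (gact q (slOf q [g])⁻¹ y)) + C * Real.exp (-(sexp A) * t) := by
  refine ⟨(2 : ℝ) ^ (sexp A), Real.rpow_pos_of_pos (by norm_num) _, ?_⟩
  intro q t x hx y
  have h := ren1_fR_eq E q hx t y
  have hh : 0 < E.h x := ren1_h_pos E hx
  have h0 : (0 : ℝ) ≤ (if 0 ≤ t ∧ y = (1, 0) then 1 else 0) := by split_ifs <;> norm_num
  have h1 : ((if 0 ≤ t ∧ y = (1, 0) then 1 else 0) : ℝ) ≤ 1 := by split_ifs <;> norm_num
  have hi := ren1_inv_h_le E hx
  constructor
  · rw [h]
    have : 0 ≤ Real.exp (-(sexp A) * t) * (if 0 ≤ t ∧ y = (1, 0) then 1 else 0) / E.h x :=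
      div_nonneg (mul_nonneg (Real.exp_pos _).le h0) hh.le
    linarith
  · rw [h]
    have : Real.exp (-(sexp A) * t) * (if 0 ≤ t ∧ y = (1, 0) then 1 else 0) / E.h x ≤
        (2 : ℝ) ^ (sexp A) * Real.exp (-(sexp A) * t) := by
      rw [div_eq_mul_inv, mul_comm ((2 : ℝ) ^ (sexp A))]
      refine mul_le_mul ?_ hi (inv_nonneg.2 hh.le) (Real.exp_pos _).le
      calc Real.exp (-(sexp A) * t) * (if 0 ≤ t ∧ y = (1, 0) then 1 else 0)
          ≤ Real.exp (-(sexp A) * t) * 1 := mul_le_mul_of_nonneg_left h1 (Real.exp_pos _).le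
        _ = _ := mul_one _
    linarith

theorem ren1_slOf_append (q : ℕ) (u v : List (Lt A)) :
    slOf q (u ++ v) = slOf q u * slOf q v := by
  apply Subtype.ext
  show (mat (u ++ v)).map (fun n : ℕ => (n : ZMod q)) = _
  rw [Matrix.SpecialLinearGroup.coe_mul]
  show _ = (mat u).map (fun n : ℕ => (n : ZMod q)) * (mat v).map (fun n : ℕ => (n : ZMod q))
  rw [mat_append]
  ext i j
  simp [Matrix.mul_apply, Fin.sum_univ_two]

theorem ren1_gact_append (q : ℕ) (u v : List (Lt A)) (y : ZMod q × ZMod q) :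
    gact q (slOf q (u ++ v))⁻¹ y = gact q (slOf q v)⁻¹ (gact q (slOf q u)⁻¹ y) := by
  rw [ren1_slOf_append, _root_.mul_inv_rev, gact_mul]

theorem ren1_sum_succ {α : Type*} [Fintype α] {β : Type*} [AddCommMonoid β] (n : ℕ)
    (G : List α → β) :
    ∑ w : Fin (n + 1) → α, G (List.ofFn w) =
      ∑ g : α, ∑ w : Fin n → α, G (g :: List.ofFn w) := by
  rw [← (Fin.consEquiv (fun _ : Fin (n + 1) => α)).sum_comp, Fintype.sum_prod_type]
  refine Finset.sum_congr rfl fun g _ => Finset.sum_congr rfl fun w _ => ?_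
  congr 1
  rw [List.ofFn_succ]
  rfl

/-- iterated version: words of length `n` -/
theorem fR_renewal_iter (hA : 1 ≤ A) (E : Eig A) (n : ℕ) : ∃ C : ℝ, 0 < C ∧ ∀ (q : ℕ) (t : ℝ),
    ∀ x ∈ Set.Icc (0 : ℝ) 1, ∀ y : ZMod q × ZMod q,
    (∑ w : Fin n → Lt A, E.p (List.ofFn w) x *
      fR E q (t - Real.log (rphi (List.ofFn w) x)) (ract (List.ofFn w) x)
      (gact q (slOf q (List.ofFn w))⁻¹ y)) ≤ fR E q t x y ∧
    fR E q t x y ≤ (∑ w : Fin n → Lt A, E.p (List.ofFn w) x *
      fR E q (t - Real.log (rphi (List.ofFn w) x)) (ract (List.ofFn w) x)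
      (gact q (slOf q (List.ofFn w))⁻¹ y)) + C * Real.exp (-(sexp A) * t) := by
  induction n with
  | zero =>
    refine ⟨1, one_pos, ?_⟩
    intro q t x hx y
    have hh : 0 < E.h x := ren1_h_pos E hx
    have hs : (∑ w : Fin 0 → Lt A, E.p (List.ofFn w) x *
      fR E q (t - Real.log (rphi (List.ofFn w) x)) (ract (List.ofFn w) x)
      (gact q (slOf q (List.ofFn w))⁻¹ y)) = fR E q t x y := by
      rw [Fintype.sum_unique]
      have e1 : E.p ([] : List (Lt A)) x = 1 := by
        unfold Eig.p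
        rw [rphi_nil, ract_nil, Real.one_rpow, one_mul, div_self hh.ne']
      have e2 : gact q (slOf q ([] : List (Lt A)))⁻¹ y = y := by
        symm
        rw [ren1_gact_inv]
        simp [vact, mat]
      simp only [List.ofFn_zero]
      rw [e1, e2, rphi_nil, ract_nil, Real.log_one, sub_zero, one_mul]
    rw [hs]
    refine ⟨le_refl _, ?_⟩
    have := Real.exp_pos (-(sexp A) * t)
    linarith
  | succ n ih =>
    obtain ⟨C, hC, ih⟩ := ih
    obtain ⟨C1, hC1, h1⟩ := fR_renewal hA E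
    have hCA : (0 : ℝ) < CA A := by
      have := base3_CA_ge A
      linarith
    have hCAs : (0 : ℝ) < (CA A) ^ (sexp A) := Real.rpow_pos_of_pos hCA _
    refine ⟨C * (CA A) ^ (sexp A) + C1, by positivity, ?_⟩
    intro q t x hx y
    have key : (∑ w : Fin (n + 1) → Lt A, E.p (List.ofFn w) x *
      fR E q (t - Real.log (rphi (List.ofFn w) x)) (ract (List.ofFn w) x)
      (gact q (slOf q (List.ofFn w))⁻¹ y)) = ∑ g : Lt A, E.p [g] x *
        ∑ w : Fin n → Lt A, E.p (List.ofFn w) (ract [g] x) *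
      fR E q ((t - Real.log (rphi [g] x)) - Real.log (rphi (List.ofFn w) (ract [g] x)))
        (ract (List.ofFn w) (ract [g] x))
      (gact q (slOf q (List.ofFn w))⁻¹ (gact q (slOf q [g])⁻¹ y)) := by
      rw [ren1_sum_succ n (fun w : List (Lt A) => E.p w x *
        fR E q (t - Real.log (rphi w x)) (ract w x) (gact q (slOf q w)⁻¹ y))]
      refine Finset.sum_congr rfl fun g _ => ?_
      rw [Finset.mul_sum]
      refine Finset.sum_congr rfl fun w _ => ?_
      have e1 : g :: List.ofFn w = [g] ++ List.ofFn w := rfl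
      have hp : 0 < rphi [g] x := rphi_pos [g] hx.1
      have hp' : 0 < rphi (List.ofFn w) (ract [g] x) := rphi_pos _ (ract_mem [g] hx).1
      rw [e1, Eig.p_append E [g] _ hx, rphi_append [g] _ hx.1, ract_append [g] _ hx.1,
        ren1_gact_append, Real.log_mul hp.ne' hp'.ne', mul_assoc, sub_add_eq_sub_sub]
    rw [key]
    obtain ⟨h2, h3⟩ := h1 q t x hx y
    constructor
    · refine le_trans (Finset.sum_le_sum fun g _ => ?_) h2
      exact mul_le_mul_of_nonneg_left (ih q _ _ (ract_mem [g] hx) _).1 (Eig.p_pos E [g] hx).le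
    · have h4 : ∀ g : Lt A, E.p [g] x * fR E q (t - Real.log (rphi [g] x)) (ract [g] x)
          (gact q (slOf q [g])⁻¹ y) ≤ E.p [g] x *
        (∑ w : Fin n → Lt A, E.p (List.ofFn w) (ract [g] x) *
      fR E q ((t - Real.log (rphi [g] x)) - Real.log (rphi (List.ofFn w) (ract [g] x)))
        (ract (List.ofFn w) (ract [g] x))
      (gact q (slOf q (List.ofFn w))⁻¹ (gact q (slOf q [g])⁻¹ y))) +
          E.p [g] x * (C * (CA A) ^ (sexp A) * Real.exp (-(sexp A) * t)) := by
        intro g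
        rw [← mul_add]
        refine mul_le_mul_of_nonneg_left ?_ (Eig.p_pos E [g] hx).le
        refine ((ih q _ _ (ract_mem [g] hx) _).2).trans ?_
        refine add_le_add_right ?_ _
        rw [mul_assoc]
        refine mul_le_mul_of_nonneg_left ?_ hC.le
        have hp : 0 < rphi [g] x := rphi_pos [g] hx.1
        have e2 : Real.exp (-(sexp A) * (t - Real.log (rphi [g] x))) =
            (rphi [g] x) ^ (sexp A) * Real.exp (-(sexp A) * t) := by
          rw [Real.rpow_def_of_pos hp, ← Real.exp_add]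
          congr 1
          ring
        rw [e2]
        refine mul_le_mul_of_nonneg_right ?_ (Real.exp_pos _).le
        refine Real.rpow_le_rpow hp.le ?_ (sexp_nonneg A)
        have e3 := rphi_le [g] hx
        have e4 : ((F [g] : ℕ) : ℝ) ≤ (A : ℝ) ^ 2 + 1 := by exact_mod_cast F_single_le g
        unfold CA
        linarith
      have h5 := Finset.sum_le_sum (fun g (_ : g ∈ (Finset.univ : Finset (Lt A))) => h4 g)
      rw [Finset.sum_add_distrib, ← Finset.sum_mul, Eig.sum_p E hx, one_mul] at h5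
      rw [add_mul]
      linarith

/-- regularity in `x` and `t`: combination of `cntR_shift`, `cntR_mono` and `Eig.reg` -/
theorem fR_reg (E : Eig A) (q : ℕ) {x x' : ℝ} (hx : x ∈ Set.Icc (0 : ℝ) 1)
    (hx' : x' ∈ Set.Icc (0 : ℝ) 1) (y : ZMod q × ZMod q) {t t' δ : ℝ} (hδ : |x - x'| ≤ δ)
    (ht : t + δ ≤ t') :
    Real.exp (-(sexp A) * (t' - t)) * (1 + δ) ^ (-(sexp A)) * fR E q t x y ≤ fR E q t' x' y := by
  have hδ0 : 0 ≤ δ := (abs_nonneg _).trans hδ
  have h1 : cntR A q t x y ≤ cntR A q t' x' y := by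
    have h2 := cntR_shift (A := A) q hx hx' y (t + |x - x'|)
    rw [add_sub_cancel_right] at h2
    exact h2.trans (cntR_mono q x' y (by linarith))
  have hh : 0 < E.h x := ren1_h_pos E hx
  have hh' : 0 < E.h x' := ren1_h_pos E hx'
  have h3 : (1 + δ) ^ (-(sexp A)) * E.h x' ≤ E.h x := by
    have h4 := E.reg x' hx' x hx
    refine le_trans ?_ h4
    refine mul_le_mul_of_nonneg_right ?_ hh'.le
    refine Real.rpow_le_rpow_of_nonpos (by positivity) ?_ (neg_nonpos.2 (sexp_nonneg A))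
    rw [abs_sub_comm]
    linarith
  have h5 : (1 + δ) ^ (-(sexp A)) / E.h x ≤ 1 / E.h x' := by
    rw [div_le_div_iff₀ hh hh', one_mul]
    exact h3
  have h6 : 0 ≤ cntR A q t x y := ren1_cntR_nonneg q t x y
  unfold fR
  have e1 : Real.exp (-(sexp A) * (t' - t)) * Real.exp (-(sexp A) * t) =
      Real.exp (-(sexp A) * t') := by
    rw [← Real.exp_add]
    congr 1
    ring
  calc Real.exp (-(sexp A) * (t' - t)) * (1 + δ) ^ (-(sexp A)) *
        (Real.exp (-(sexp A) * t) * cntR A q t x y / E.h x)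
      = (Real.exp (-(sexp A) * (t' - t)) * Real.exp (-(sexp A) * t)) * cntR A q t x y *
        ((1 + δ) ^ (-(sexp A)) / E.h x) := by ring
    _ ≤ Real.exp (-(sexp A) * t') * cntR A q t' x' y * (1 / E.h x') := by
        rw [e1]
        refine mul_le_mul (mul_le_mul_of_nonneg_left h1 (Real.exp_pos _).le) h5 ?_ ?_
        · exact div_nonneg (Real.rpow_nonneg (by positivity) _) hh.le
        · exact mul_nonneg (Real.exp_pos _).le (h6.trans h1)
    _ = _ := by ring

end Pool.Agent.W_f50700_h3
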