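import Mathlib

/-!
Ren2: density of `i α + j β` (row 437, R4 (a), (b)).
-/

namespace Pool.Agent.W_f50700_h3

/-- R4 (a).  Proof: pigeonhole / Dirichlet: some `i0 α` is within `κ` of a multiple of `β` but not
equal to it; its multiples `k i0 α` cover the circle `ℝ / β ℤ` up to `κ`, `k ≤ β/|ρ| + 1`. -/
theorem dense_comb {α β : ℝ} (hα : 0 < α) (hβ : 0 < β) (h : Irrational (α / β)) {κ : ℝ}
    (hκ : 0 < κ) : ∃ S : ℝ, ∀ t : ℝ, S ≤ t → ∃ i j : ℕ, |(i : ℝ) * α + (j : ℝ) * β - t| ≤ κ := by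
  -- Dirichlet
  obtain ⟨n, hn⟩ := exists_nat_gt (β / κ)
  have hn0 : 0 < n := by
    have : (0 : ℝ) < n := lt_trans (div_pos hβ hκ) hn
    exact_mod_cast this
  obtain ⟨q, p, hp0, -, hpq⟩ := Real.exists_int_int_abs_mul_sub_le (α / β) hn0
  set ρ : ℝ := (p : ℝ) * α - (q : ℝ) * β with hρ
  have hρ1 : |ρ| ≤ κ := by
    have h1 : ρ = ((p : ℝ) * (α / β) - q) * β := by
      rw [hρ]
      field_simp
    rw [h1, abs_mul, abs_of_pos hβ]
    have h2 : 1 / ((n : ℝ) + 1) * β ≤ κ := by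
      rw [div_lt_iff₀ hκ] at hn
      rw [one_div, inv_mul_le_iff₀ (by positivity)]
      nlinarith
    exact (mul_le_mul_of_nonneg_right hpq hβ.le).trans h2
  have hρ0 : ρ ≠ 0 := by
    intro h0
    have h1 : (p : ℝ) * α = (q : ℝ) * β := by
      rw [hρ] at h0
      linarith
    have hp : (p : ℝ) ≠ 0 := by exact_mod_cast hp0.ne'
    apply h
    refine ⟨(q : ℚ) / p, ?_⟩
    push_cast
    rw [div_eq_div_iff hp hβ.ne']
    linarith
  -- cover of `[0, β]`
  obtain ⟨N, hN⟩ : ∃ N : ℕ, ∀ x : ℝ, 0 ≤ x → x ≤ β → ∃ (i : ℕ) (j : ℤ),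
      |(i : ℝ) * α + (j : ℝ) * β - x| ≤ κ ∧ -(N : ℤ) ≤ j := by
    obtain ⟨P, hP⟩ : ∃ P : ℕ, (P : ℤ) = p := ⟨p.toNat, Int.toNat_of_nonneg hp0.le⟩
    have hPr : (P : ℝ) = (p : ℝ) := by exact_mod_cast hP
    rcases lt_or_gt_of_ne hρ0 with hneg | hpos
    · have hρa : 0 < -ρ := by linarith
      refine ⟨⌊β / (-ρ)⌋₊ * q.natAbs, fun x hx0 hx1 => ?_⟩
      have hnn : 0 ≤ (β - x) / (-ρ) := div_nonneg (by linarith) hρa.le
      set k := ⌊(β - x) / (-ρ)⌋₊ with hk
      have hk1 : (k : ℝ) * (-ρ) ≤ β - x := by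
        have := Nat.floor_le hnn
        rwa [le_div_iff₀ hρa] at this
      have hk2 : β - x < ((k : ℝ) + 1) * (-ρ) := by
        have := Nat.lt_floor_add_one ((β - x) / (-ρ))
        rwa [div_lt_iff₀ hρa] at this
      have hkK : k ≤ ⌊β / (-ρ)⌋₊ :=
        Nat.floor_le_floor (div_le_div_of_nonneg_right (by linarith) hρa.le)
      refine ⟨k * P, -(k * q) + 1, ?_, ?_⟩
      · have h1 : ((k * P : ℕ) : ℝ) * α + ((-(k * q) + 1 : ℤ) : ℝ) * β - x =
            (β - x) - (k : ℝ) * (-ρ) := by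
          push_cast
          rw [hPr, hρ]
          ring
        rw [h1, abs_of_nonneg (by linarith)]
        rw [abs_of_neg hneg] at hρ1
        linarith
      · have h2 : (k : ℤ) * q ≤ ((⌊β / (-ρ)⌋₊ * q.natAbs : ℕ) : ℤ) := by
          push_cast
          calc (k : ℤ) * q ≤ (k : ℤ) * |q| :=
                mul_le_mul_of_nonneg_left (le_abs_self q) (by positivity)
            _ ≤ (⌊β / (-ρ)⌋₊ : ℤ) * |q| :=
                mul_le_mul_of_nonneg_right (by exact_mod_cast hkK) (abs_nonneg _)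
            _ = _ := by simp
        linarith
    · refine ⟨⌊β / ρ⌋₊ * q.natAbs, fun x hx0 hx1 => ?_⟩
      have hnn : 0 ≤ x / ρ := div_nonneg hx0 hpos.le
      set k := ⌊x / ρ⌋₊ with hk
      have hk1 : (k : ℝ) * ρ ≤ x := by
        have := Nat.floor_le hnn
        rwa [le_div_iff₀ hpos] at this
      have hk2 : x < ((k : ℝ) + 1) * ρ := by
        have := Nat.lt_floor_add_one (x / ρ)
        rwa [div_lt_iff₀ hpos] at this
      have hkK : k ≤ ⌊β / ρ⌋₊ :=
        Nat.floor_le_floor (div_le_div_of_nonneg_right hx1 hpos.le)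
      refine ⟨k * P, -(k * q), ?_, ?_⟩
      · have h1 : ((k * P : ℕ) : ℝ) * α + ((-(k * q) : ℤ) : ℝ) * β - x = -(x - (k : ℝ) * ρ) := by
          push_cast
          rw [hPr, hρ]
          ring
        rw [h1, abs_neg, abs_of_nonneg (by linarith)]
        rw [abs_of_pos hpos] at hρ1
        linarith
      · have h2 : (k : ℤ) * q ≤ ((⌊β / ρ⌋₊ * q.natAbs : ℕ) : ℤ) := by
          push_cast
          calc (k : ℤ) * q ≤ (k : ℤ) * |q| :=
                mul_le_mul_of_nonneg_left (le_abs_self q) (by positivity)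
            _ ≤ (⌊β / ρ⌋₊ : ℤ) * |q| :=
                mul_le_mul_of_nonneg_right (by exact_mod_cast hkK) (abs_nonneg _)
            _ = _ := by simp
        linarith
  refine ⟨(N : ℝ) * β, fun t ht => ?_⟩
  have ht0 : 0 ≤ t := le_trans (by positivity) ht
  set m := ⌊t / β⌋₊ with hm
  have hm1 : (m : ℝ) * β ≤ t := by
    have := Nat.floor_le (div_nonneg ht0 hβ.le)
    rwa [le_div_iff₀ hβ] at this
  have hm2 : t < ((m : ℝ) + 1) * β := by
    have := Nat.lt_floor_add_one (t / β)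
    rwa [div_lt_iff₀ hβ] at this
  have hNm : N ≤ m := Nat.le_floor (by rwa [le_div_iff₀ hβ])
  obtain ⟨i, j, hij, hj⟩ := hN (t - m * β) (by linarith) (by linarith)
  refine ⟨i, (m + j).toNat, ?_⟩
  have h1 : (((m + j).toNat : ℕ) : ℤ) = m + j := Int.toNat_of_nonneg (by omega)
  have h2 : (((m + j).toNat : ℕ) : ℝ) = (m : ℝ) + (j : ℝ) := by exact_mod_cast h1
  rw [h2]
  have h3 : (i : ℝ) * α + ((m : ℝ) + j) * β - t = (i : ℝ) * α + (j : ℝ) * β - (t - m * β) := by
    ring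
  rw [h3]
  exact hij

theorem ren2_pow5 (n : ℕ) : ∃ x y : ℚ, 0 < x ∧ 0 ≤ y ∧ (0 < n → 0 < y) ∧
    ((3 + Real.sqrt 5) / 2) ^ n = (x : ℝ) + y * Real.sqrt 5 ∧
    ((3 - Real.sqrt 5) / 2) ^ n = (x : ℝ) - y * Real.sqrt 5 := by
  have h5 : Real.sqrt 5 * Real.sqrt 5 = 5 := Real.mul_self_sqrt (by norm_num)
  induction n with
  | zero => exact ⟨1, 0, by norm_num, le_rfl, fun h => absurd h (lt_irrefl _), by simp, by simp⟩
  | succ n ih =>
    obtain ⟨x, y, hx, hy, -, h1, h2⟩ := ih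
    refine ⟨3 / 2 * x + 5 / 2 * y, 1 / 2 * x + 3 / 2 * y, by positivity, by positivity,
      fun _ => by positivity, ?_, ?_⟩
    · rw [pow_succ, h1]
      push_cast
      linear_combination (y : ℝ) / 2 * h5
    · rw [pow_succ, h2]
      push_cast
      linear_combination (y : ℝ) / 2 * h5

theorem ren2_pow2 (n : ℕ) : ∃ x y : ℚ, 0 < x ∧ 0 ≤ y ∧ (0 < n → 0 < y) ∧
    (3 + 2 * Real.sqrt 2) ^ n = (x : ℝ) + y * Real.sqrt 2 ∧
    (3 - 2 * Real.sqrt 2) ^ n = (x : ℝ) - y * Real.sqrt 2 := by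
  have h2 : Real.sqrt 2 * Real.sqrt 2 = 2 := Real.mul_self_sqrt (by norm_num)
  induction n with
  | zero => exact ⟨1, 0, by norm_num, le_rfl, fun h => absurd h (lt_irrefl _), by simp, by simp⟩
  | succ n ih =>
    obtain ⟨x, y, hx, hy, -, h1, h3⟩ := ih
    refine ⟨3 * x + 4 * y, 2 * x + 3 * y, by positivity, by positivity,
      fun _ => by positivity, ?_, ?_⟩
    · rw [pow_succ, h1]
      push_cast
      linear_combination 2 * (y : ℝ) * h2
    · rw [pow_succ, h3]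
      push_cast
      linear_combination 2 * (y : ℝ) * h2

/-- R4 (b).  `((3+√5)/2)^a = (3+2√2)^b` is impossible for `a, b ≥ 1`: write the left side as
`(x + y √5)/2`, the right side as `u + v √2` with positive integers; square. -/
theorem irrational_log_ratio :
    Irrational (Real.log ((3 + Real.sqrt 5) / 2) / Real.log (3 + 2 * Real.sqrt 2)) := by
  have h5 : Real.sqrt 5 * Real.sqrt 5 = 5 := Real.mul_self_sqrt (by norm_num)
  have h2 : Real.sqrt 2 * Real.sqrt 2 = 2 := Real.mul_self_sqrt (by norm_num)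
  have p5 : 0 ≤ Real.sqrt 5 := Real.sqrt_nonneg _
  have p2 : 0 ≤ Real.sqrt 2 := Real.sqrt_nonneg _
  set a : ℝ := (3 + Real.sqrt 5) / 2 with ha
  set b : ℝ := 3 + 2 * Real.sqrt 2 with hb
  have ha1 : 1 < a := by linarith
  have hb1 : 1 < b := by linarith
  have hla : 0 < Real.log a := Real.log_pos ha1
  have hlb : 0 < Real.log b := Real.log_pos hb1
  rintro ⟨r, hr⟩
  have hr0 : 0 < r := by
    have h1 : (0 : ℝ) < r := by
      rw [hr]
      exact div_pos hla hlb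
    exact_mod_cast h1
  have hnum : 0 < r.num := Rat.num_pos.2 hr0
  obtain ⟨P, hP⟩ : ∃ P : ℕ, (P : ℤ) = r.num := ⟨r.num.toNat, Int.toNat_of_nonneg hnum.le⟩
  have hP0 : 0 < P := by
    have : (0 : ℤ) < P := by rw [hP]; exact hnum
    exact_mod_cast this
  have hrd : (r : ℝ) = (P : ℝ) / (r.den : ℝ) := by
    have h1 : (r : ℝ) = ((r.num : ℤ) : ℝ) / ((r.den : ℕ) : ℝ) := by
      exact_mod_cast (Rat.num_div_den r).symm
    rw [h1, ← hP, Int.cast_natCast]
  have hd0 : (0 : ℝ) < (r.den : ℝ) := by exact_mod_cast r.den_pos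
  have h1 : (P : ℝ) * Real.log b = (r.den : ℝ) * Real.log a := by
    rw [hrd, div_eq_div_iff hd0.ne' hlb.ne'] at hr
    linarith
  have h3 : b ^ P = a ^ r.den := by
    have h4 : Real.log (b ^ P) = Real.log (a ^ r.den) := by
      rw [Real.log_pow, Real.log_pow, h1]
    exact Real.log_injOn_pos (Set.mem_Ioi.2 (by positivity)) (Set.mem_Ioi.2 (by positivity)) h4
  obtain ⟨x, y, -, -, hy, e1, e2⟩ := ren2_pow5 r.den
  obtain ⟨u, v, -, -, hv, e3, e4⟩ := ren2_pow2 P
  have hy0 := hy r.den_pos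
  have hv0 := hv hP0
  have f1 : a ^ r.den * ((3 - Real.sqrt 5) / 2) ^ r.den = 1 := by
    rw [← mul_pow]
    have : a * ((3 - Real.sqrt 5) / 2) = 1 := by
      rw [ha]
      linear_combination -(1 / 4) * h5
    rw [this, one_pow]
  have f2 : b ^ P * (3 - 2 * Real.sqrt 2) ^ P = 1 := by
    rw [← mul_pow]
    have : b * (3 - 2 * Real.sqrt 2) = 1 := by
      rw [hb]
      linear_combination -4 * h2
    rw [this, one_pow]
  have f3 : ((3 - Real.sqrt 5) / 2) ^ r.den = (3 - 2 * Real.sqrt 2) ^ P := by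
    rw [h3] at f2
    have hne : a ^ r.den ≠ 0 := by positivity
    exact mul_left_cancel₀ hne (f1.trans f2.symm)
  rw [e1, e3] at h3
  rw [e2, e4] at f3
  have f4 : (y : ℝ) * Real.sqrt 5 = v * Real.sqrt 2 := by linarith
  have hirr : Irrational (Real.sqrt 10) := by
    have h6 : Irrational (Real.sqrt ((10 : ℕ) : ℝ)) := by
      rw [irrational_sqrt_natCast_iff]
      rintro ⟨k, hk⟩
      have h7 : k ≤ 3 := by
        by_contra h8
        have : 4 * 4 ≤ k * k := Nat.mul_le_mul (by omega) (by omega)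
        omega
      interval_cases k <;> omega
    simpa using h6
  apply hirr
  refine ⟨2 * v / y, ?_⟩
  have h10 : Real.sqrt 10 = Real.sqrt 5 * Real.sqrt 2 := by
    rw [← Real.sqrt_mul (by norm_num)]
    norm_num
  have hyr : (y : ℝ) ≠ 0 := by exact_mod_cast hy0.ne'
  rw [h10]
  push_cast
  rw [div_eq_iff hyr]
  linear_combination -(Real.sqrt 2) * f4 - (v : ℝ) * h2

end Pool.Agent.W_f50700_h3
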