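import Pool.Agent.W_f50700_h3.Nrm

/-!
Ren3: words act transitively on primitive vectors mod `q` (row 437, R4 (d)).
-/

open Matrix

namespace Pool.Agent.W_f50700_h3

variable {A : ℕ}

/-- for `x, y, q` with `x, y` coprime in `ZMod q` some `x + t y` is a unit -/
theorem exists_unit_add {q : ℕ} [NeZero q] {x y : ZMod q} (h : IsCoprime x y) :
    ∃ t : ZMod q, IsUnit (x + t * y) := by
  set a := x.val with ha
  set b := y.val with hb
  have hx : ((a : ℕ) : ZMod q) = x := ZMod.natCast_zmod_val x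
  have hy : ((b : ℕ) : ZMod q) = y := ZMod.natCast_zmod_val y
  -- no prime divides `a`, `b` and `q`
  have hab : ∀ p : ℕ, p.Prime → p ∣ q → p ∣ a → ¬ p ∣ b := by
    intro p hp hpq hpa hpb
    obtain ⟨u, v, huv⟩ := h
    have h1 := congrArg (ZMod.castHom hpq (ZMod p)) huv
    rw [map_add, map_mul, map_mul, map_one, ← hx, ← hy, map_natCast, map_natCast,
      (ZMod.natCast_eq_zero_iff a p).2 hpa, (ZMod.natCast_eq_zero_iff b p).2 hpb, mul_zero,
      mul_zero, add_zero] at h1
    haveI : Fact p.Prime := ⟨hp⟩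
    exact zero_ne_one h1
  set t : ℕ := ∏ p ∈ q.primeFactors with ¬ p ∣ a, p with ht
  refine ⟨(t : ZMod q), ?_⟩
  have hcop : Nat.Coprime (a + t * b) q := by
    refine Nat.Coprime.symm (Nat.coprime_of_dvd fun p hp hpq hdvd => ?_)
    by_cases hpa : p ∣ a
    · have h1 : p ∣ t * b := (Nat.dvd_add_right hpa).1 hdvd
      rcases hp.dvd_mul.1 h1 with h2 | h2
      · obtain ⟨p', hp', h3⟩ := (Prime.dvd_finset_prod_iff hp.prime _).1 h2
        obtain ⟨h4, h5⟩ := Finset.mem_filter.1 hp'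
        have h6 := (Nat.prime_dvd_prime_iff_eq hp (Nat.prime_of_mem_primeFactors h4)).1 h3
        exact h5 (h6 ▸ hpa)
      · exact hab p hp hpq hpa h2
    · have h1 : p ∣ t := Finset.dvd_prod_of_mem _
        (Finset.mem_filter.2 ⟨Nat.mem_primeFactors.2 ⟨hp, hpq, NeZero.ne q⟩, hpa⟩)
      have h2 : p ∣ t * b := Dvd.dvd.mul_right h1 b
      exact hpa ((Nat.dvd_add_left h2).1 hdvd)
  have h1 := (ZMod.isUnit_iff_coprime (a + t * b) q).2 hcop
  push_cast at h1
  rwa [hx, hy] at h1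

/-- a letter from two positive numbers at most `A` -/
def ren3_lt (A a b : ℕ) (ha : a < A) (hb : b < A) : Lt A := (⟨a, ha⟩, ⟨b, hb⟩)

theorem ren3_vact_single (q a b : ℕ) (ha : a < A) (hb : b < A) (x : ZMod q × ZMod q) :
    vact q (mat [ren3_lt A a b ha hb]) x =
      ((((a : ZMod q) + 1) * ((b : ZMod q) + 1) + 1) * x.1 + ((a : ZMod q) + 1) * x.2,
        ((b : ZMod q) + 1) * x.1 + x.2) := by
  have h1 := F_single (ren3_lt A a b ha hb)
  have h2 := m12_single (ren3_lt A a b ha hb)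
  have h3 := m21_single (ren3_lt A a b ha hb)
  have h4 := m22_single (ren3_lt A a b ha hb)
  unfold F at h1
  unfold m12 at h2
  unfold m21 at h3
  unfold m22 at h4
  unfold vact
  rw [h1, h2, h3, h4]
  simp only [ren3_lt]
  push_cast
  rw [one_mul]

theorem ren3_vact_nil (q : ℕ) (x : ZMod q × ZMod q) :
    vact q (mat ([] : List (Lt A))) x = x := by
  unfold vact
  simp [mat]

/-- the permutation given by the letter `(1, 1)` -/
def ren3_perm (q : ℕ) : Equiv.Perm (ZMod q × ZMod q) where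
  toFun x := (2 * x.1 + x.2, x.1 + x.2)
  invFun x := (x.1 - x.2, -x.1 + 2 * x.2)
  left_inv x := by
    refine Prod.ext ?_ ?_
    · show 2 * x.1 + x.2 - (x.1 + x.2) = x.1
      ring
    · show -(2 * x.1 + x.2) + 2 * (x.1 + x.2) = x.2
      ring
  right_inv x := by
    refine Prod.ext ?_ ?_
    · show 2 * (x.1 - x.2) + (-x.1 + 2 * x.2) = x.1
      ring
    · show x.1 - x.2 + (-x.1 + 2 * x.2) = x.2
      ring

/-- the inverse of the letter `(1, 1)` is given by a word -/
theorem ren3_inv (hA : 2 ≤ A) (q : ℕ) [NeZero q] :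
    ∃ w : List (Lt A), ∀ x : ZMod q × ZMod q, vact q (mat w) x = (x.1 - x.2, -x.1 + 2 * x.2) := by
  have hA0 : 0 < A := by omega
  set g := ren3_lt A 0 0 hA0 hA0 with hg
  have h1 : ∀ (k : ℕ) (x : ZMod q × ZMod q),
      vact q (mat (List.replicate k g)) x = ((ren3_perm q) ^ k) x := by
    intro k
    induction k with
    | zero =>
      intro x
      rw [List.replicate_zero, ren3_vact_nil]
      rfl
    | succ k ih =>
      intro x
      rw [List.replicate_succ, ← List.singleton_append, vact_append, ih, pow_succ',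
        Equiv.Perm.mul_apply, hg, ren3_vact_single]
      refine Prod.ext ?_ ?_
      · show _ = 2 * (((ren3_perm q) ^ k) x).1 + (((ren3_perm q) ^ k) x).2
        push_cast
        ring
      · show _ = (((ren3_perm q) ^ k) x).1 + (((ren3_perm q) ^ k) x).2
        push_cast
        ring
  have h2 : 0 < orderOf (ren3_perm q) := orderOf_pos _
  refine ⟨List.replicate (orderOf (ren3_perm q) - 1) g, fun x => ?_⟩
  rw [h1]
  have h3 : (ren3_perm q) ^ (orderOf (ren3_perm q) - 1) = (ren3_perm q)⁻¹ := by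
    rw [eq_comm, inv_eq_iff_mul_eq_one, ← pow_succ', Nat.sub_add_cancel h2, pow_orderOf_eq_one]
  rw [h3]
  rfl

/-- some word acts mod `q` as `(1 1; 0 1)`.  Proof: `J_2 J_1 (J_1 J_1)^(-1) = (1 1; 0 1)`, and the
inverse of `J_1 J_1` mod `q` is a positive power (finite group). -/
theorem exists_word_upper (hA : 2 ≤ A) (q : ℕ) [NeZero q] :
    ∃ w : List (Lt A), ∀ x : ZMod q × ZMod q, vact q (mat w) x = (x.1 + x.2, x.2) := by
  obtain ⟨w, hw⟩ := ren3_inv hA q
  refine ⟨[ren3_lt A 1 0 (by omega) (by omega)] ++ w, fun x => ?_⟩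
  rw [vact_append, hw, ren3_vact_single]
  refine Prod.ext ?_ ?_
  · push_cast
    ring
  · push_cast
    ring

theorem exists_word_lower (hA : 2 ≤ A) (q : ℕ) [NeZero q] :
    ∃ w : List (Lt A), ∀ x : ZMod q × ZMod q, vact q (mat w) x = (x.1, x.1 + x.2) := by
  obtain ⟨w, hw⟩ := ren3_inv hA q
  refine ⟨w ++ [ren3_lt A 0 1 (by omega) (by omega)], fun x => ?_⟩
  rw [vact_append, hw, ren3_vact_single]
  refine Prod.ext ?_ ?_
  · push_cast
    ring
  · push_cast
    ring

/-- reachability by words -/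
def ren3_R (A q : ℕ) (x z : ZMod q × ZMod q) : Prop := ∃ w : List (Lt A), vact q (mat w) x = z

theorem ren3_R_refl (q : ℕ) (x : ZMod q × ZMod q) : ren3_R A q x x := ⟨[], ren3_vact_nil q x⟩

theorem ren3_R_trans {q : ℕ} {x y z : ZMod q × ZMod q} (h1 : ren3_R A q x y)
    (h2 : ren3_R A q y z) : ren3_R A q x z := by
  obtain ⟨u, hu⟩ := h1
  obtain ⟨v, hv⟩ := h2
  exact ⟨v ++ u, by rw [vact_append, hu, hv]⟩

theorem ren3_inj (q : ℕ) (w : List (Lt A)) : Function.Injective (vact q (mat w)) := by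
  intro x y h
  have h1 := congrArg Prod.fst h
  have h2 := congrArg Prod.snd h
  have hd : (F w : ZMod q) * m22 w = m12 w * m21 w + 1 := by
    exact_mod_cast congrArg (fun n : ℕ => (n : ZMod q)) (det_one w)
  unfold F m22 m12 m21 at hd
  simp only [vact] at h1 h2
  refine Prod.ext ?_ ?_
  · linear_combination ((mat w 1 1 : ℕ) : ZMod q) * h1 - ((mat w 0 1 : ℕ) : ZMod q) * h2 -
      (x.1 - y.1) * hd
  · linear_combination ((mat w 0 0 : ℕ) : ZMod q) * h2 - ((mat w 1 0 : ℕ) : ZMod q) * h1 -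
      (x.2 - y.2) * hd

theorem ren3_R_symm {q : ℕ} [NeZero q] {x y : ZMod q × ZMod q} (h : ren3_R A q x y) :
    ren3_R A q y x := by
  obtain ⟨w, hw⟩ := h
  set f : ZMod q × ZMod q → ZMod q × ZMod q := vact q (mat w) with hf
  have hbij : Function.Bijective f := Finite.injective_iff_bijective.1 (ren3_inj q w)
  set σ : Equiv.Perm (ZMod q × ZMod q) := Equiv.ofBijective f hbij with hσ
  have h1 : ∀ (k : ℕ) (z : ZMod q × ZMod q), ∃ v : List (Lt A), vact q (mat v) z = (σ ^ k) z := by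
    intro k
    induction k with
    | zero => exact fun z => ⟨[], ren3_vact_nil q z⟩
    | succ k ih =>
      intro z
      obtain ⟨v, hv⟩ := ih z
      refine ⟨w ++ v, ?_⟩
      rw [vact_append, hv, pow_succ', Equiv.Perm.mul_apply]
      rfl
  have h2 : 0 < orderOf σ := orderOf_pos _
  have h3 : σ ^ (orderOf σ - 1) = σ⁻¹ := by
    rw [eq_comm, inv_eq_iff_mul_eq_one, ← pow_succ', Nat.sub_add_cancel h2, pow_orderOf_eq_one]
  obtain ⟨v, hv⟩ := h1 (orderOf σ - 1) y
  refine ⟨v, ?_⟩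
  rw [hv, h3]
  have h4 : σ x = y := hw
  rw [← h4]
  exact σ.symm_apply_apply x

theorem ren3_upper (hA : 2 ≤ A) (q : ℕ) [NeZero q] (k : ℕ) (x y : ZMod q) :
    ren3_R A q (x, y) (x + k * y, y) := by
  obtain ⟨w, hw⟩ := exists_word_upper hA q
  induction k with
  | zero =>
    simp only [Nat.cast_zero, zero_mul, add_zero]
    exact ren3_R_refl q _
  | succ k ih =>
    refine ren3_R_trans ih ⟨w, ?_⟩
    rw [hw]
    refine Prod.ext ?_ rfl
    push_cast
    ring

theorem ren3_lower (hA : 2 ≤ A) (q : ℕ) [NeZero q] (k : ℕ) (x y : ZMod q) :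
    ren3_R A q (x, y) (x, y + k * x) := by
  obtain ⟨w, hw⟩ := exists_word_lower hA q
  induction k with
  | zero =>
    simp only [Nat.cast_zero, zero_mul, add_zero]
    exact ren3_R_refl q _
  | succ k ih =>
    refine ren3_R_trans ih ⟨w, ?_⟩
    rw [hw]
    refine Prod.ext rfl ?_
    push_cast
    ring

theorem ren3_upper' (hA : 2 ≤ A) (q : ℕ) [NeZero q] (k x y : ZMod q) :
    ren3_R A q (x, y) (x + k * y, y) := by
  have := ren3_upper hA q k.val x y
  rwa [ZMod.natCast_zmod_val] at this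

theorem ren3_lower' (hA : 2 ≤ A) (q : ℕ) [NeZero q] (k x y : ZMod q) :
    ren3_R A q (x, y) (x, y + k * x) := by
  have := ren3_lower hA q k.val x y
  rwa [ZMod.natCast_zmod_val] at this

theorem ren3_e1 (hA : 2 ≤ A) (q : ℕ) [NeZero q] (y : ZMod q × ZMod q)
    (hy : IsCoprime y.1 y.2) : ren3_R A q y (1, 0) := by
  obtain ⟨a, b⟩ := y
  obtain ⟨t, ht⟩ := exists_unit_add hy
  dsimp only at ht
  obtain ⟨v, hv⟩ := ht.exists_left_inv
  have h1 := ren3_upper' hA q t a b
  set u := a + t * b with hu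
  have h2 := ren3_lower' hA q ((1 - b) * v) u b
  have h3 : b + (1 - b) * v * u = 1 := by
    linear_combination (1 - b) * hv
  rw [h3] at h2
  have h4 := ren3_upper' hA q (1 - u) u 1
  have h5 : u + (1 - u) * 1 = 1 := by ring
  rw [h5] at h4
  have h6 := ren3_lower' hA q (-1) 1 1
  have h7 : (1 : ZMod q) + -1 * 1 = 0 := by ring
  rw [h7] at h6
  exact ren3_R_trans (ren3_R_trans (ren3_R_trans h1 h2) h4) h6

/-- R4 (d) -/
theorem transitive_words (hA : 2 ≤ A) (q : ℕ) [NeZero q] (y y' : ZMod q × ZMod q)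
    (hy : IsCoprime y.1 y.2) (hy' : IsCoprime y'.1 y'.2) :
    ∃ c : List (Lt A), vact q (mat c) y' = y :=
  ren3_R_trans (ren3_e1 hA q y' hy') (ren3_R_symm (ren3_e1 hA q y hy))

end Pool.Agent.W_f50700_h3
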