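import Pool.Agent.W_f50700_h3.Ren1
import Pool.Agent.W_f50700_h3.Ren2
import Pool.Agent.W_f50700_h3.Ren3

/-!
Ren4: reaching every time, direction and residue (row 437, R4 (c) and conclusion).
-/

open Matrix

namespace Pool.Agent.W_f50700_h3

variable {A : ℕ}

/-- power of a word -/
def Ren4pw (V : List (Lt A)) (n : ℕ) : List (Lt A) := (List.replicate n V).flatten

theorem Ren4pw_zero (V : List (Lt A)) : Ren4pw V 0 = [] := by simp [Ren4pw]

theorem Ren4pw_add (V : List (Lt A)) (m n : ℕ) : Ren4pw V (m + n) = Ren4pw V m ++ Ren4pw V n := by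
  rw [Ren4pw, List.replicate_add, List.flatten_append]
  rfl

theorem Ren4pw_one (V : List (Lt A)) : Ren4pw V 1 = V := by simp [Ren4pw]

theorem Ren4pw_length (V : List (Lt A)) (n : ℕ) : (Ren4pw V n).length = n * V.length := by
  simp [Ren4pw]

/-- fixed point of the row action of a nonempty word, and the eigenvalue: for `V` nonempty there
are `x0 ∈ [0,1]` with `ract V x0 = x0`, `|ract (V^n) x - x0| ≤ 4^(-n)`. -/
theorem exists_fixed (V : List (Lt A)) (hV : V ≠ []) : ∃ x0 ∈ Set.Icc (0 : ℝ) 1,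
    ract V x0 = x0 ∧ ∀ (n : ℕ), ∀ x ∈ Set.Icc (0 : ℝ) 1,
      |ract (List.replicate n V).flatten x - x0| ≤ (1 / 4 : ℝ) ^ n := by
  have hcont : ContinuousOn (ract V) (Set.Icc (0 : ℝ) 1) := by
    unfold ract
    refine ContinuousOn.div (by fun_prop) (by fun_prop) ?_
    intro x hx
    exact (rphi_pos V hx.1).ne'
  obtain ⟨x0, hx0, hfix⟩ := exists_mem_Icc_isFixedPt hcont zero_le_one
    (ract_mem V ⟨le_rfl, zero_le_one⟩).1 (ract_mem V ⟨zero_le_one, le_rfl⟩).2
  have hfix' : ract V x0 = x0 := hfix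
  refine ⟨x0, hx0, hfix', fun n x hx => ?_⟩
  have hn : ∀ n, ract (Ren4pw V n) x0 = x0 := by
    intro n
    induction n with
    | zero => rw [Ren4pw_zero, ract_nil]
    | succ n ih => rw [Ren4pw_add, ract_append _ _ hx0.1, ih, Ren4pw_one, hfix']
  have h1 := ract_lip (Ren4pw V n) hx hx0
  rw [hn n] at h1
  refine h1.trans ?_
  have h2 : (2 : ℝ) ^ n ≤ (F (Ren4pw V n) : ℝ) := by
    have h3 := two_pow_le_F (Ren4pw V n)
    have h4 : n ≤ (Ren4pw V n).length := by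
      rw [Ren4pw_length]
      exact Nat.le_mul_of_pos_right n (List.length_pos_of_ne_nil hV)
    exact_mod_cast (Nat.pow_le_pow_right (by norm_num) h4).trans h3
  have h3 : |x - x0| ≤ 1 := by
    rw [abs_le]
    constructor
    · linarith [hx0.2, hx.1]
    · linarith [hx0.1, hx.2]
  have h5 : ((1 : ℝ) / 4) ^ n = 1 / ((2 : ℝ) ^ n) ^ 2 := by
    rw [← pow_mul, mul_comm n 2, pow_mul, div_pow, one_pow]
    norm_num
  rw [h5]
  have h6 : ((2 : ℝ) ^ n) ^ 2 ≤ (F (Ren4pw V n) : ℝ) ^ 2 := pow_le_pow_left₀ (by positivity) h2 2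
  exact div_le_div₀ zero_le_one h3 (by positivity) h6

/-- `x0` is a fixed point of the word with the single letter `J_1 J_1`: `rphi = (3+√5)/2` -/
theorem rphi_fixed_one (hA : 1 ≤ A) {x0 : ℝ} (hx0 : x0 ∈ Set.Icc (0 : ℝ) 1)
    (h : ract [((⟨0, by omega⟩ : Fin A), (⟨0, by omega⟩ : Fin A))] x0 = x0) :
    rphi [((⟨0, by omega⟩ : Fin A), (⟨0, by omega⟩ : Fin A))] x0 = (3 + Real.sqrt 5) / 2 := by
  unfold ract at h
  unfold rphi
  rw [F_single, m12_single, m21_single, m22_single] at h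
  rw [F_single, m21_single]
  push_cast at h ⊢
  have h0 := hx0.1
  rw [div_eq_iff (by positivity)] at h
  have h1 : (2 * x0 + 1) ^ 2 = 5 := by nlinarith
  have h2 : Real.sqrt 5 = 2 * x0 + 1 := by
    rw [← h1, Real.sqrt_sq (by linarith)]
  rw [h2]
  ring

/-- for the letter `J_2 J_2`: `rphi = 3 + 2 √2` -/
theorem rphi_fixed_two (hA : 2 ≤ A) {x0 : ℝ} (hx0 : x0 ∈ Set.Icc (0 : ℝ) 1)
    (h : ract [((⟨1, by omega⟩ : Fin A), (⟨1, by omega⟩ : Fin A))] x0 = x0) :
    rphi [((⟨1, by omega⟩ : Fin A), (⟨1, by omega⟩ : Fin A))] x0 = 3 + 2 * Real.sqrt 2 := by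
  unfold ract at h
  unfold rphi
  rw [F_single, m12_single, m21_single, m22_single] at h
  rw [F_single, m21_single]
  push_cast at h ⊢
  have h0 := hx0.1
  rw [div_eq_iff (by positivity)] at h
  have h1 : (x0 + 1) ^ 2 = 2 := by nlinarith
  have h2 : Real.sqrt 2 = x0 + 1 := by
    rw [← h1, Real.sqrt_sq (by linarith)]
  rw [h2]
  ring

/-- the logarithm of the cocycle of a concatenation -/
theorem Ren4_log_append (u v : List (Lt A)) {x : ℝ} (hx : x ∈ Set.Icc (0 : ℝ) 1) :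
    Real.log (rphi (u ++ v) x) = Real.log (rphi u x) + Real.log (rphi v (ract u x)) := by
  rw [rphi_append u v hx.1, Real.log_mul (rphi_pos u hx.1).ne'
    (rphi_pos v (ract_mem u hx).1).ne']

/-- growth of the cocycle along the powers of a word -/
theorem Ren4_pow_log (V : List (Lt A)) {x0 : ℝ} (hx0 : x0 ∈ Set.Icc (0 : ℝ) 1)
    (hc : ∀ (n : ℕ), ∀ x ∈ Set.Icc (0 : ℝ) 1, |ract (Ren4pw V n) x - x0| ≤ (1 / 4 : ℝ) ^ n)
    (m k : ℕ) {x : ℝ} (hx : x ∈ Set.Icc (0 : ℝ) 1) :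
    |Real.log (rphi (Ren4pw V (m + k)) x) - Real.log (rphi (Ren4pw V m) x)
      - k * Real.log (rphi V x0)| ≤ 4 / 3 * (1 / 4 : ℝ) ^ m * (1 - (1 / 4 : ℝ) ^ k) := by
  induction k with
  | zero => simp
  | succ k ih =>
    rw [← add_assoc, Ren4pw_add V (m + k) 1, Ren4pw_one, Ren4_log_append _ _ hx]
    have h1 := log_rphi_lip V (ract_mem (Ren4pw V (m + k)) hx) hx0
    have h2 := h1.trans (hc (m + k) x hx)
    rw [pow_add] at h2
    have h3 : 4 / 3 * (1 / 4 : ℝ) ^ m * (1 - (1 / 4 : ℝ) ^ (k + 1)) =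
        4 / 3 * (1 / 4 : ℝ) ^ m * (1 - (1 / 4 : ℝ) ^ k) + (1 / 4 : ℝ) ^ m * (1 / 4 : ℝ) ^ k := by
      rw [pow_succ]
      ring
    rw [h3]
    rw [abs_le] at ih h2 ⊢
    push_cast
    constructor
    · linarith [ih.1, h2.1]
    · linarith [ih.2, h2.2]

theorem Ren4_slOf_append (q : ℕ) (u v : List (Lt A)) :
    slOf q (u ++ v) = slOf q u * slOf q v := by
  apply Matrix.SpecialLinearGroup.ext
  intro i j
  rw [Matrix.SpecialLinearGroup.coe_mul]
  show (mat (u ++ v)).map (fun n : ℕ => (n : ZMod q)) i j =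
    ((mat u).map (fun n : ℕ => (n : ZMod q)) * (mat v).map (fun n : ℕ => (n : ZMod q))) i j
  rw [mat_append]
  simp only [Matrix.map_apply, Matrix.mul_apply, Fin.sum_univ_two]
  push_cast
  ring

theorem Ren4_slOf_nil (q : ℕ) : slOf q ([] : List (Lt A)) = 1 := by
  apply Matrix.SpecialLinearGroup.ext
  intro i j
  rw [Matrix.SpecialLinearGroup.coe_one]
  show (mat ([] : List (Lt A))).map (fun n : ℕ => (n : ZMod q)) i j =
    (1 : Matrix (Fin 2) (Fin 2) (ZMod q)) i j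
  fin_cases i <;> fin_cases j <;> simp [mat]

theorem Ren4_slOf_pw (q : ℕ) (V : List (Lt A)) (n : ℕ) :
    slOf q (Ren4pw V n) = slOf q V ^ n := by
  induction n with
  | zero => rw [Ren4pw_zero, Ren4_slOf_nil, pow_zero]
  | succ n ih => rw [Ren4pw_add, Ren4_slOf_append, ih, Ren4pw_one, pow_succ]

/-- Conclusion of R4.  Proof: words `w = c ++ V1^(e (n0+i)) ++ V2^(e (n0+j)) ++ v` with
`V1 = [J_1 J_1]`, `V2 = [J_2 J_2]`, `e` a common period of both mod `q`, `c` from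
`transitive_words`; increments of `log rphi` in `i`, `j` are within `C 4^(-n0)` of
`α = e log((3+√5)/2)`, `β = e log(3+2√2)`; `dense_comb`. -/
theorem reach (hA : 2 ≤ A) (q : ℕ) [NeZero q] {κ : ℝ} (hκ : 0 < κ) (W0 : ℝ) (n : ℕ) :
    ∃ (S : ℝ) (T : Finset (List (Lt A))), ∀ x ∈ Set.Icc (0 : ℝ) 1,
      ∀ y y' : ZMod q × ZMod q, IsCoprime y.1 y.2 → IsCoprime y'.1 y'.2 →
      ∀ v : List (Lt A), v.length = n → ∀ r ∈ Set.Icc S (S + W0),
      ∃ w ∈ T, ∃ u, w = u ++ v ∧ gact q (slOf q w)⁻¹ y = y' ∧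
        |Real.log (rphi w x) - r| ≤ κ := by
  classical
  have hA1 : 1 ≤ A := by omega
  set V1 : List (Lt A) := [((⟨0, by omega⟩ : Fin A), (⟨0, by omega⟩ : Fin A))] with hV1
  set V2 : List (Lt A) := [((⟨1, by omega⟩ : Fin A), (⟨1, by omega⟩ : Fin A))] with hV2
  obtain ⟨x1, hx1, hf1, hc1⟩ := exists_fixed V1 (by simp [hV1])
  obtain ⟨x2, hx2, hf2, hc2⟩ := exists_fixed V2 (by simp [hV2])
  have hl1 := rphi_fixed_one hA1 hx1 hf1
  have hl2 := rphi_fixed_two hA hx2 hf2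
  -- the period
  set e : ℕ := Nat.card (SpecialLinearGroup (Fin 2) (ZMod q)) with he
  have he0 : 0 < e := Nat.card_pos
  have hper : ∀ (V : List (Lt A)) (m : ℕ), slOf q (Ren4pw V (e * m)) = 1 := by
    intro V m
    rw [Ren4_slOf_pw, pow_mul, he, pow_card_eq_one', one_pow]
  set l1 : ℝ := Real.log ((3 + Real.sqrt 5) / 2) with hl1d
  set l2 : ℝ := Real.log (3 + 2 * Real.sqrt 2) with hl2d
  have h5 : 0 ≤ Real.sqrt 5 := Real.sqrt_nonneg 5
  have h2 : 0 ≤ Real.sqrt 2 := Real.sqrt_nonneg 2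
  have hl1p : 0 < l1 := by
    refine Real.log_pos ?_
    linarith
  have hl2p : 0 < l2 := Real.log_pos (by linarith)
  have heR : (0 : ℝ) < (e : ℝ) := by exact_mod_cast he0
  have hirr : Irrational ((e * l1) / (e * l2)) := by
    rw [mul_div_mul_left _ _ heR.ne']
    exact irrational_log_ratio
  obtain ⟨S1, hS1⟩ := dense_comb (mul_pos heR hl1p) (mul_pos heR hl2p) hirr (half_pos hκ)
  obtain ⟨n0, hn0⟩ : ∃ n0 : ℕ, ((1 : ℝ) / 4) ^ n0 ≤ κ / 14 := by
    obtain ⟨n0, hn0⟩ := exists_pow_lt_of_lt_one (show (0 : ℝ) < κ / 14 by positivity)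
      (by norm_num : (1 : ℝ) / 4 < 1)
    exact ⟨n0, hn0.le⟩
  -- the connecting words
  have hcon : ∀ y y' : ZMod q × ZMod q, ∃ c : List (Lt A), IsCoprime y.1 y.2 →
      IsCoprime y'.1 y'.2 → vact q (mat c) y' = y := by
    intro y y'
    by_cases hy : IsCoprime y.1 y.2 ∧ IsCoprime y'.1 y'.2
    · obtain ⟨c, hc⟩ := transitive_words hA q y y' hy.1 hy.2
      exact ⟨c, fun _ _ => hc⟩
    · exact ⟨[], fun h h' => absurd ⟨h, h'⟩ hy⟩
  choose cc hcc using hcon
  set W : ℕ → ℕ → List (Lt A) → List (Lt A) → List (Lt A) := fun i j c v =>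
    c ++ (Ren4pw V1 (e * n0 + e * i) ++ (Ren4pw V2 (e * n0 + e * j) ++ v)) with hW
  -- bound for the starting times
  set B : ℝ := ∑ y : ZMod q × ZMod q, ∑ y' : ZMod q × ZMod q, ∑ v : Fin n → Lt A,
    Real.log (2 * F (W 0 0 (cc y y') (List.ofFn v))) with hB
  have hlog : ∀ w : List (Lt A), 0 ≤ Real.log (2 * F w) := by
    intro w
    refine Real.log_nonneg ?_
    have h1 : (1 : ℝ) ≤ (F w : ℝ) := by exact_mod_cast F_pos _
    linarith
  have hBle : ∀ y y' : ZMod q × ZMod q, ∀ v : List (Lt A), v.length = n →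
      Real.log (2 * F (W 0 0 (cc y y') v)) ≤ B := by
    intro y y' v hv
    obtain ⟨f, hf⟩ : ∃ f : Fin n → Lt A, List.ofFn f = v := by
      subst hv
      exact ⟨fun i => v.get i, List.ofFn_get v⟩
    rw [← hf]
    refine le_trans (Finset.single_le_sum (f := fun v : Fin n → Lt A =>
      Real.log (2 * F (W 0 0 (cc y y') (List.ofFn v)))) (fun u _ => hlog _)
      (Finset.mem_univ f)) ?_
    refine le_trans (Finset.single_le_sum (f := fun y' : ZMod q × ZMod q => ∑ v : Fin n → Lt A,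
      Real.log (2 * F (W 0 0 (cc y y') (List.ofFn v))))
      (fun u _ => Finset.sum_nonneg fun _ _ => hlog _) (Finset.mem_univ y')) ?_
    exact Finset.single_le_sum (f := fun y : ZMod q × ZMod q => ∑ y' : ZMod q × ZMod q,
      ∑ v : Fin n → Lt A, Real.log (2 * F (W 0 0 (cc y y') (List.ofFn v))))
      (fun u _ => Finset.sum_nonneg fun _ _ => Finset.sum_nonneg fun _ _ => hlog _)
      (Finset.mem_univ y)
  refine ⟨S1 + B, wordsF A (Real.exp (S1 + B + W0 + κ)), ?_⟩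
  intro x hx y y' hy hy' v hv r hr
  set z : ZMod q × ZMod q := vact q (mat v) y' with hz
  have hzc : IsCoprime z.1 z.2 := (vact_coprime q v y').mpr hy'
  set c : List (Lt A) := cc y z with hc
  have hcz : vact q (mat c) z = y := hcc y z hy hzc
  have hD00 : Real.log (rphi (W 0 0 c v) x) ≤ B :=
    (Real.log_le_log (rphi_pos _ hx.1) (rphi_le _ hx)).trans (hBle y z v hv)
  obtain ⟨i, j, hij⟩ := hS1 (r - Real.log (rphi (W 0 0 c v) x)) (by linarith [hr.1])
  -- the estimate of the times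
  have hest : |Real.log (rphi (W i j c v) x) - Real.log (rphi (W 0 0 c v) x)
      - (i * (e * l1) + j * (e * l2))| ≤ κ / 2 := by
    set ξ : ℝ := ract c x with hξ
    have hξm : ξ ∈ Set.Icc (0 : ℝ) 1 := ract_mem c hx
    set ξi : ℝ := ract (Ren4pw V1 (e * n0 + e * i)) ξ with hξi
    have hξim : ξi ∈ Set.Icc (0 : ℝ) 1 := ract_mem _ hξm
    set ξ0 : ℝ := ract (Ren4pw V1 (e * n0)) ξ with hξ0
    have hξ0m : ξ0 ∈ Set.Icc (0 : ℝ) 1 := ract_mem _ hξm
    set η : ℝ := ract (Ren4pw V2 (e * n0 + e * j)) ξi with hη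
    have hηm : η ∈ Set.Icc (0 : ℝ) 1 := ract_mem _ hξim
    set η0 : ℝ := ract (Ren4pw V2 (e * n0)) ξ0 with hη0
    have hη0m : η0 ∈ Set.Icc (0 : ℝ) 1 := ract_mem _ hξ0m
    have hDij : Real.log (rphi (W i j c v) x) = Real.log (rphi c x) +
        (Real.log (rphi (Ren4pw V1 (e * n0 + e * i)) ξ) +
        (Real.log (rphi (Ren4pw V2 (e * n0 + e * j)) ξi) + Real.log (rphi v η))) := by
      rw [hW]
      simp only
      rw [Ren4_log_append _ _ hx, Ren4_log_append _ _ hξm, Ren4_log_append _ _ hξim]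
    have hD0 : Real.log (rphi (W 0 0 c v) x) = Real.log (rphi c x) +
        (Real.log (rphi (Ren4pw V1 (e * n0)) ξ) +
        (Real.log (rphi (Ren4pw V2 (e * n0)) ξ0) + Real.log (rphi v η0))) := by
      rw [hW]
      simp only [mul_zero, add_zero]
      rw [Ren4_log_append _ _ hx, Ren4_log_append _ _ hξm, Ren4_log_append _ _ hξ0m]
    have hpow : ∀ m : ℕ, n0 ≤ m → ((1 : ℝ) / 4) ^ m ≤ κ / 14 := fun m hm =>
      (pow_le_pow_of_le_one (by norm_num) (by norm_num) hm).trans hn0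
    have hen0 : n0 ≤ e * n0 := Nat.le_mul_of_pos_left n0 he0
    have b1 := Ren4_pow_log V1 hx1 hc1 (e * n0) (e * i) hξm
    have b2 := Ren4_pow_log V2 hx2 hc2 (e * n0) (e * j) hξim
    have hmul : ∀ k : ℕ, 4 / 3 * ((1 : ℝ) / 4) ^ (e * n0) * (1 - ((1 : ℝ) / 4) ^ k) ≤
        4 / 3 * (κ / 14) := by
      intro k
      have h1 : (1 - ((1 : ℝ) / 4) ^ k) ≤ 1 := by
        have : (0 : ℝ) ≤ (1 / 4) ^ k := by positivity
        linarith
      have h2 := hpow (e * n0) hen0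
      have h3 : (0 : ℝ) ≤ (1 / 4) ^ (e * n0) := by positivity
      calc 4 / 3 * ((1 : ℝ) / 4) ^ (e * n0) * (1 - ((1 : ℝ) / 4) ^ k)
          ≤ 4 / 3 * ((1 : ℝ) / 4) ^ (e * n0) * 1 := by
            exact mul_le_mul_of_nonneg_left h1 (by positivity)
        _ ≤ 4 / 3 * (κ / 14) := by linarith
    have b1' := b1.trans (hmul _)
    have b2' := b2.trans (hmul _)
    rw [show rphi V1 x1 = (3 + Real.sqrt 5) / 2 from hl1, ← hl1d] at b1'
    rw [show rphi V2 x2 = 3 + 2 * Real.sqrt 2 from hl2, ← hl2d] at b2'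
    -- positions
    have d1 : |ξi - ξ0| ≤ 2 * (κ / 14) := by
      have h1 := (hc1 (e * n0 + e * i) ξ hξm).trans (hpow _ (hen0.trans (Nat.le_add_right _ _)))
      have h2 := (hc1 (e * n0) ξ hξm).trans (hpow _ hen0)
      have h3 : |ξi - x1| ≤ κ / 14 := h1
      have h4 : |ξ0 - x1| ≤ κ / 14 := h2
      rw [abs_le] at h3 h4 ⊢
      constructor
      · linarith [h3.1, h4.2]
      · linarith [h3.2, h4.1]
    have d2 : |η - η0| ≤ 2 * (κ / 14) := by
      have h1 := (hc2 (e * n0 + e * j) ξi hξim).trans (hpow _ (hen0.trans (Nat.le_add_right _ _)))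
      have h2 := (hc2 (e * n0) ξ0 hξ0m).trans (hpow _ hen0)
      have h3 : |η - x2| ≤ κ / 14 := h1
      have h4 : |η0 - x2| ≤ κ / 14 := h2
      rw [abs_le] at h3 h4 ⊢
      constructor
      · linarith [h3.1, h4.2]
      · linarith [h3.2, h4.1]
    have g1 := (log_rphi_lip (Ren4pw V2 (e * n0)) hξim hξ0m).trans d1
    have g2 := (log_rphi_lip v hηm hη0m).trans d2
    rw [hDij, hD0]
    push_cast at b1' b2'
    rw [abs_le] at b1' b2' g1 g2 ⊢
    constructor
    · linarith [b1'.1, b2'.1, g1.1, g2.1]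
    · linarith [b1'.2, b2'.2, g1.2, g2.2]
  have htot : |Real.log (rphi (W i j c v) x) - r| ≤ κ := by
    rw [abs_le] at hij hest ⊢
    constructor
    · linarith [hij.1, hest.1]
    · linarith [hij.2, hest.2]
  refine ⟨W i j c v, ?_, c ++ (Ren4pw V1 (e * n0 + e * i) ++ Ren4pw V2 (e * n0 + e * j)), ?_, ?_,
    htot⟩
  · rw [mem_wordsF]
    refine (F_le_rphi _ hx.1).trans ?_
    rw [← Real.log_le_iff_le_exp (rphi_pos _ hx.1)]
    rw [abs_le] at htot
    linarith [htot.2, hr.2]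
  · rw [hW]
    simp
  · have hsl : slOf q (W i j c v) = slOf q c * slOf q v := by
      rw [hW]
      simp only
      rw [Ren4_slOf_append, Ren4_slOf_append, Ren4_slOf_append, ← mul_add, ← mul_add, hper, hper,
        one_mul, one_mul]
    have hyy : gact q (slOf q (W i j c v)) y' = y := by
      rw [hsl, gact_mul, gact_slOf, gact_slOf, ← hz, hcz]
    rw [← hyy, ← gact_mul, inv_mul_cancel, gact_one]

end Pool.Agent.W_f50700_h3
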