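import Pool.Agent.W_f50700_h3.Ren4

/-!
Ren5: convergence of the normalized counting function (row 437, R2, R3, R5, R6).
-/

open Matrix Filter Topology

namespace Pool.Agent.W_f50700_h3

variable {A : ℕ}

/-- the logarithm of the cocycle of a word is between `0` and `log (2 F w)` -/
theorem Ren5_log_nonneg (w : List (Lt A)) {x : ℝ} (hx : x ∈ Set.Icc (0 : ℝ) 1) :
    0 ≤ Real.log (rphi w x) := by
  refine Real.log_nonneg ?_
  have h1 : (1 : ℝ) ≤ (F w : ℝ) := by exact_mod_cast F_pos w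
  exact h1.trans (F_le_rphi w hx.1)

theorem Ren5_log_le (w : List (Lt A)) {x : ℝ} (hx : x ∈ Set.Icc (0 : ℝ) 1) :
    Real.log (rphi w x) ≤ Real.log (2 * F w) :=
  Real.log_le_log (rphi_pos w hx.1) (rphi_le w hx)

/-- R3: near maxima propagate.  `M` an eventual upper bound up to `ε`. -/
theorem near_max (hA : 1 ≤ A) (E : Eig A) (w : List (Lt A)) : ∃ C T0 : ℝ, 0 < C ∧ 0 < T0 ∧
    ∀ (q : ℕ) (M ε Tε t1 : ℝ), 0 < ε → 0 ≤ M →
    (∀ t ≥ Tε, ∀ x ∈ Set.Icc (0 : ℝ) 1, ∀ y : ZMod q × ZMod q, fR E q t x y ≤ M + ε) →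
    T0 + Tε ≤ t1 → Real.exp (-(sexp A) * (t1 - T0)) ≤ ε →
    ∀ x ∈ Set.Icc (0 : ℝ) 1, ∀ y : ZMod q × ZMod q, M - ε ≤ fR E q t1 x y →
    M - C * ε ≤ fR E q (t1 - Real.log (rphi w x)) (ract w x) (gact q (slOf q w)⁻¹ y) := by
  classical
  obtain ⟨C0, hC0, hren⟩ := fR_renewal_iter hA E w.length
  obtain ⟨c, hc, hpc⟩ := E.p_lower w
  set n := w.length with hn
  set B : ℝ := ∑ v : Fin n → Lt A, Real.log (2 * F (List.ofFn v)) with hB
  have hlog : ∀ v : Fin n → Lt A, 0 ≤ Real.log (2 * F (List.ofFn v)) := by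
    intro v
    refine Real.log_nonneg ?_
    have h1 : (1 : ℝ) ≤ (F (List.ofFn v) : ℝ) := by exact_mod_cast F_pos _
    linarith
  have hBle : ∀ v : Fin n → Lt A, Real.log (2 * F (List.ofFn v)) ≤ B := fun v =>
    Finset.single_le_sum (f := fun v : Fin n → Lt A => Real.log (2 * F (List.ofFn v)))
      (fun u _ => hlog u) (Finset.mem_univ v)
  have hB0 : 0 ≤ B := Finset.sum_nonneg fun v _ => hlog v
  refine ⟨(2 + C0) / c, B + 1, by positivity, by linarith, ?_⟩
  intro q M ε Tε t1 hε hM hup ht1 hexp x hx y hy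
  obtain ⟨-, h2⟩ := hren q t1 x hx y
  obtain ⟨f, hf⟩ : ∃ f : Fin n → Lt A, List.ofFn f = w := ⟨fun i => w.get i, List.ofFn_get w⟩
  have hs : 0 ≤ sexp A := sexp_nonneg A
  -- the inhomogeneous term
  have hin : C0 * Real.exp (-(sexp A) * t1) ≤ C0 * ε := by
    refine mul_le_mul_of_nonneg_left (le_trans (Real.exp_le_exp.mpr ?_) hexp) hC0.le
    nlinarith [mul_nonneg hs (by linarith : (0 : ℝ) ≤ B + 1)]
  -- split the sum
  have hsum := E.sum_p_len n hx
  have hupper : ∀ v : Fin n → Lt A, fR E q (t1 - Real.log (rphi (List.ofFn v) x))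
      (ract (List.ofFn v) x) (gact q (slOf q (List.ofFn v))⁻¹ y) ≤ M + ε := by
    intro v
    refine hup _ ?_ _ (ract_mem _ hx) _
    have h1 := Ren5_log_le (List.ofFn v) hx
    have h3 := hBle v
    show Tε ≤ _
    linarith
  set g : (Fin n → Lt A) → ℝ := fun v => fR E q (t1 - Real.log (rphi (List.ofFn v) x))
      (ract (List.ofFn v) x) (gact q (slOf q (List.ofFn v))⁻¹ y) with hg
  have hsplit : ∑ v : Fin n → Lt A, E.p (List.ofFn v) x * g v ≤
      E.p w x * g f + (1 - E.p w x) * (M + ε) := by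
    rw [← Finset.add_sum_erase Finset.univ _ (Finset.mem_univ f)]
    have h3 : ∑ v ∈ Finset.univ.erase f, E.p (List.ofFn v) x * g v ≤
        ∑ v ∈ Finset.univ.erase f, E.p (List.ofFn v) x * (M + ε) :=
      Finset.sum_le_sum fun v _ =>
        mul_le_mul_of_nonneg_left (hupper v) (E.p_pos _ hx).le
    have h4 : ∑ v ∈ Finset.univ.erase f, E.p (List.ofFn v) x = 1 - E.p w x := by
      rw [← Finset.add_sum_erase Finset.univ _ (Finset.mem_univ f), hf] at hsum
      linarith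
    rw [← Finset.sum_mul, h4] at h3
    rw [hf]
    linarith
  have hgf : g f = fR E q (t1 - Real.log (rphi w x)) (ract w x) (gact q (slOf q w)⁻¹ y) := by
    rw [hg]
    simp only
    rw [hf]
  rw [← hgf]
  have hp := hpc x hx
  have hp0 : 0 < E.p w x := E.p_pos w hx
  have hkey : E.p w x * (M - g f) ≤ (2 + C0) * ε := by
    have : M - ε ≤ E.p w x * g f + (1 - E.p w x) * (M + ε) + C0 * ε := by linarith
    nlinarith [mul_pos hp0 hε]
  by_cases hneg : M - g f ≤ 0
  · have : 0 ≤ (2 + C0) / c * ε := by positivity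
    linarith
  · push Not at hneg
    have h5 : c * (M - g f) ≤ (2 + C0) * ε :=
      le_trans (mul_le_mul_of_nonneg_right hp hneg.le) hkey
    have h6 : M - g f ≤ (2 + C0) / c * ε := by
      rw [div_mul_eq_mul_div, le_div_iff₀ hc]
      linarith
    linarith

/-- one letter: the cocycle is between `2` and `2 (A^2+1)` -/
theorem Ren5_letter_bounds (g : Lt A) {x : ℝ} (hx : x ∈ Set.Icc (0 : ℝ) 1) :
    Real.log 2 ≤ Real.log (rphi [g] x) ∧
      Real.log (rphi [g] x) ≤ Real.log (2 * ((A : ℝ) ^ 2 + 1)) := by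
  have h1 : (2 : ℝ) ≤ (F [g] : ℝ) := by exact_mod_cast two_le_F_single g
  have h2 : (F [g] : ℝ) ≤ (A : ℝ) ^ 2 + 1 := by exact_mod_cast F_single_le g
  constructor
  · exact Real.log_le_log (by norm_num) (h1.trans (F_le_rphi _ hx.1))
  · exact Real.log_le_log (rphi_pos _ hx.1) ((rphi_le _ hx).trans (by linarith))

/-- one step of the lower bound -/
theorem Ren5_step (hA : 1 ≤ A) (E : Eig A) (q : ℕ) {t x m1 : ℝ} (hx : x ∈ Set.Icc (0 : ℝ) 1)
    {y : ZMod q × ZMod q}
    (h : ∀ g : Lt A, m1 ≤ fR E q (t - Real.log (rphi [g] x)) (ract [g] x)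
      (gact q (slOf q [g])⁻¹ y)) : m1 ≤ fR E q t x y := by
  obtain ⟨C, -, hren⟩ := fR_renewal hA E
  refine le_trans ?_ (hren q t x hx y).1
  have h1 : ∑ g : Lt A, E.p [g] x * m1 = m1 := by
    rw [← Finset.sum_mul, E.sum_p hx, one_mul]
  refine h1.symm.le.trans ?_
  exact Finset.sum_le_sum fun g _ => mul_le_mul_of_nonneg_left (h g) (E.p_pos _ hx).le

/-- R6: forward propagation of lower bounds on the set `K` of `n`-step positions. -/
theorem forward_min (hA : 1 ≤ A) (E : Eig A) (q n : ℕ) (a m1 : ℝ)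
    (h : ∀ t ∈ Set.Icc a (a + Real.log (2 * ((A : ℝ) ^ 2 + 1))), ∀ w : List (Lt A), w.length = n →
      ∀ x ∈ Set.Icc (0 : ℝ) 1, ∀ y : ZMod q × ZMod q, IsCoprime y.1 y.2 →
      m1 ≤ fR E q t (ract w x) y) :
    ∀ t ≥ a + (n + 1) * Real.log (2 * ((A : ℝ) ^ 2 + 1)), ∀ x ∈ Set.Icc (0 : ℝ) 1,
      ∀ y : ZMod q × ZMod q, IsCoprime y.1 y.2 → m1 ≤ fR E q t x y := by
  set L : ℝ := Real.log (2 * ((A : ℝ) ^ 2 + 1)) with hL
  have hA' : (0 : ℝ) ≤ (A : ℝ) ^ 2 := sq_nonneg _
  have hlog2 : 0 < Real.log 2 := Real.log_pos (by norm_num)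
  have hL2 : Real.log 2 ≤ L := Real.log_le_log (by norm_num) (by linarith)
  have hL0 : 0 ≤ L := hlog2.le.trans hL2
  -- all times on the positions of length `n`
  have step1 : ∀ k : ℕ, ∀ t ∈ Set.Icc a (a + L + k * Real.log 2), ∀ w : List (Lt A),
      w.length = n → ∀ x ∈ Set.Icc (0 : ℝ) 1, ∀ y : ZMod q × ZMod q, IsCoprime y.1 y.2 →
      m1 ≤ fR E q t (ract w x) y := by
    intro k
    induction k with
    | zero =>
      intro t ht
      refine h t ⟨ht.1, ?_⟩
      have := ht.2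
      push_cast at this
      linarith
    | succ k ih =>
      intro t ht w hw x hx y hy
      by_cases hta : t ≤ a + L
      · exact h t ⟨ht.1, hta⟩ w hw x hx y hy
      push Not at hta
      refine Ren5_step hA E q (ract_mem w hx) fun g => ?_
      have hb := Ren5_letter_bounds g (ract_mem w hx)
      -- the new position
      obtain ⟨g1, w1, hw1⟩ : ∃ g1 w1, w ++ [g] = g1 :: w1 := by
        cases hwg : w ++ [g] with
        | nil => simp at hwg
        | cons g1 w1 => exact ⟨g1, w1, rfl⟩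
      have hlen : w1.length = n := by
        have := congrArg List.length hw1
        simp only [List.length_append, List.length_cons, List.length_nil] at this
        omega
      have hpos : ract [g] (ract w x) = ract w1 (ract [g1] x) := by
        rw [← ract_append w [g] hx.1, hw1, ← List.singleton_append, ract_append _ _ hx.1]
      rw [hpos]
      refine ih _ ?_ w1 hlen _ (ract_mem _ hx) _ ?_
      · have h2 := ht.2
        push_cast at h2
        constructor
        · linarith [hb.2]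
        · linarith [hb.1]
      · exact (gact_coprime q _ _).mpr hy
  have step2 : ∀ t ≥ a, ∀ w : List (Lt A), w.length = n → ∀ x ∈ Set.Icc (0 : ℝ) 1,
      ∀ y : ZMod q × ZMod q, IsCoprime y.1 y.2 → m1 ≤ fR E q t (ract w x) y := by
    intro t ht
    obtain ⟨k, hk⟩ := exists_nat_ge ((t - (a + L)) / Real.log 2)
    refine step1 k t ⟨ht, ?_⟩
    rw [div_le_iff₀ hlog2] at hk
    linarith
  -- shorten the words
  have step3 : ∀ j : ℕ, j ≤ n → ∀ t ≥ a + j * L, ∀ w : List (Lt A), w.length = n - j →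
      ∀ x ∈ Set.Icc (0 : ℝ) 1, ∀ y : ZMod q × ZMod q, IsCoprime y.1 y.2 →
      m1 ≤ fR E q t (ract w x) y := by
    intro j
    induction j with
    | zero =>
      intro _ t ht w hw
      exact step2 t (by simpa using ht) w (by simpa using hw)
    | succ j ih =>
      intro hj t ht w hw x hx y hy
      refine Ren5_step hA E q (ract_mem w hx) fun g => ?_
      have hb := Ren5_letter_bounds g (ract_mem w hx)
      rw [← ract_append w [g] hx.1]
      refine ih (by omega) _ ?_ _ ?_ x hx _ ((gact_coprime q _ _).mpr hy)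
      · have : t ≥ a + ((j + 1 : ℕ) : ℝ) * L := ht
        push_cast at this
        show a + (j : ℝ) * L ≤ t - _
        linarith [hb.2]
      · simp only [List.length_append, List.length_cons, List.length_nil]
        omega
  intro t ht x hx y hy
  have := step3 n le_rfl t (by
    have : t ≥ a + ((n : ℝ) + 1) * L := ht
    show a + (n : ℝ) * L ≤ t
    linarith) [] (by simp) x hx y hy
  rwa [ract_nil] at this

/-- vectors that are not primitive are not counted -/
theorem Ren5_zero (E : Eig A) (q : ℕ) (t x : ℝ) {y : ZMod q × ZMod q}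
    (hy : ¬ IsCoprime y.1 y.2) : fR E q t x y = 0 := by
  classical
  have h0 : cntR A q t x y = 0 := by
    unfold cntR
    rw [Nat.cast_eq_zero, Finset.card_eq_zero, Finset.filter_eq_empty_iff]
    rintro w - ⟨-, hw⟩
    apply hy
    rw [← hw]
    exact (vact_coprime q w (1, 0)).mpr (by
      show IsCoprime (1 : ZMod q) 0
      exact isCoprime_one_left)
  rw [fR, h0]
  simp

/-- R2: convergence, uniformly in `x` and `y` -/
theorem fR_tendsto (hA : 2 ≤ A) (E : Eig A) (q : ℕ) [NeZero q] : ∃ M : ℝ, 0 ≤ M ∧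
    ∀ κ > 0, ∃ t2 : ℝ, ∀ t ≥ t2, ∀ x ∈ Set.Icc (0 : ℝ) 1, ∀ y : ZMod q × ZMod q,
      IsCoprime y.1 y.2 → |fR E q t x y - M| ≤ κ := by
  classical
  have hA1 : 1 ≤ A := by omega
  obtain ⟨C, hC, hCb⟩ := fR_bounded hA E
  have hs : 0 < sexp A := sexp_pos hA
  -- the tail sets
  set V : ℝ → Set ℝ := fun T => {r | ∃ t x y, T ≤ t ∧ x ∈ Set.Icc (0 : ℝ) 1 ∧
    IsCoprime (y : ZMod q × ZMod q).1 y.2 ∧ r = fR E q t x y} with hV
  have hVne : ∀ T, (V T).Nonempty := fun T =>
    ⟨_, T, 0, (1, 0), le_rfl, ⟨le_rfl, zero_le_one⟩, isCoprime_one_left, rfl⟩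
  have hVbd : ∀ T, BddAbove (V T) := by
    intro T
    refine ⟨C, ?_⟩
    rintro r ⟨t, x, y, -, hx, -, rfl⟩
    exact hCb q t x hx y
  set S : ℝ → ℝ := fun T => sSup (V T) with hS
  have hS0 : ∀ T, 0 ≤ S T := by
    intro T
    obtain ⟨r, hr⟩ := hVne T
    have h1 : r ≤ S T := le_csSup (hVbd T) hr
    obtain ⟨t, x, y, -, hx, -, rfl⟩ := hr
    exact (fR_nonneg E q hx t y).trans h1
  have hSbd : BddBelow (Set.range S) := ⟨0, by rintro _ ⟨T, rfl⟩; exact hS0 T⟩
  set M : ℝ := ⨅ T, S T with hM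
  have hM0 : 0 ≤ M := le_ciInf hS0
  -- eventual upper bound
  have hup : ∀ ε > 0, ∃ Tε : ℝ, ∀ t ≥ Tε, ∀ x ∈ Set.Icc (0 : ℝ) 1, ∀ y : ZMod q × ZMod q,
      fR E q t x y ≤ M + ε := by
    intro ε hε
    obtain ⟨T, hT⟩ := exists_lt_of_ciInf_lt (show (⨅ T, S T) < M + ε by rw [← hM]; linarith)
    refine ⟨T, fun t ht x hx y => ?_⟩
    by_cases hy : IsCoprime y.1 y.2
    · exact (le_csSup (hVbd T) ⟨t, x, y, ht, hx, hy, rfl⟩).trans hT.le
    · rw [Ren5_zero E q t x hy]
      linarith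
  -- frequent near maxima
  have hfreq : ∀ ε > 0, ∀ T : ℝ, ∃ t ≥ T, ∃ x ∈ Set.Icc (0 : ℝ) 1, ∃ y : ZMod q × ZMod q,
      IsCoprime y.1 y.2 ∧ M - ε ≤ fR E q t x y := by
    intro ε hε T
    have h1 : M - ε < S T := lt_of_lt_of_le (by linarith) (ciInf_le hSbd T)
    obtain ⟨r, ⟨t, x, y, ht, hx, hy, rfl⟩, hr⟩ := exists_lt_of_lt_csSup (hVne T) h1
    exact ⟨t, ht, x, hx, y, hy, hr.le⟩
  refine ⟨M, hM0, fun κ hκ => ?_⟩
  obtain ⟨Tκ, hTκ⟩ := hup κ hκ
  -- choice of `δ`
  obtain ⟨δ, hδ0, hδ⟩ : ∃ δ : ℝ, 0 < δ ∧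
      M - κ ≤ Real.exp (-(sexp A) * (3 * δ)) * (1 + δ) ^ (-(sexp A)) * (M - δ) := by
    have hcont : ContinuousAt (fun δ : ℝ =>
        Real.exp (-(sexp A) * (3 * δ)) * (1 + δ) ^ (-(sexp A)) * (M - δ)) 0 := by
      refine ContinuousAt.mul (ContinuousAt.mul (by fun_prop) ?_) (by fun_prop)
      refine ContinuousAt.rpow_const (by fun_prop) (Or.inl (by norm_num))
    have hval : M - κ < (fun δ : ℝ =>
        Real.exp (-(sexp A) * (3 * δ)) * (1 + δ) ^ (-(sexp A)) * (M - δ)) 0 := by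
      simp
      exact hκ
    have hev := hcont.eventually (eventually_gt_nhds hval)
    obtain ⟨δ, hδ, hδ0⟩ := (hev.filter_mono nhdsWithin_le_nhds |>.and
      (self_mem_nhdsWithin (a := (0 : ℝ)) (s := Set.Ioi 0))).exists
    exact ⟨δ, hδ0, le_of_lt hδ⟩
  obtain ⟨n, hn⟩ : ∃ n : ℕ, ((1 : ℝ) / 4) ^ n ≤ δ := by
    obtain ⟨n, hn⟩ := exists_pow_lt_of_lt_one hδ0 (by norm_num : (1 : ℝ) / 4 < 1)
    exact ⟨n, hn.le⟩
  set L : ℝ := Real.log (2 * ((A : ℝ) ^ 2 + 1)) with hL
  obtain ⟨S0, T, hreach⟩ := reach hA q hδ0 L n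
  -- constants of `near_max`
  choose Cw T0w hCw hT0w hnm using fun w : List (Lt A) => near_max hA1 E w
  set CC : ℝ := ∑ w ∈ T, Cw w with hCC
  set TT : ℝ := ∑ w ∈ T, T0w w with hTT
  have hCC0 : 0 ≤ CC := Finset.sum_nonneg fun w _ => (hCw w).le
  have hCle : ∀ w ∈ T, Cw w ≤ CC := fun w hw =>
    Finset.single_le_sum (f := Cw) (fun u _ => (hCw u).le) hw
  have hTle : ∀ w ∈ T, T0w w ≤ TT := fun w hw =>
    Finset.single_le_sum (f := T0w) (fun u _ => (hT0w u).le) hw
  set ε : ℝ := δ / (CC + 1) with hε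
  have hε0 : 0 < ε := by positivity
  have hCε : CC * ε ≤ δ := by
    rw [hε, mul_div_assoc', div_le_iff₀ (by linarith)]
    nlinarith
  obtain ⟨Tε, hTε⟩ := hup ε hε0
  obtain ⟨t1, ht1, x1, hx1, y1, hy1, hf1⟩ := hfreq ε hε0
    (max (TT + Tε) (TT + (-Real.log ε) / sexp A))
  have ht1a : TT + Tε ≤ t1 := (le_max_left _ _).trans ht1
  have ht1b : TT + (-Real.log ε) / sexp A ≤ t1 := (le_max_right _ _).trans ht1
  have hexp : ∀ w ∈ T, Real.exp (-(sexp A) * (t1 - T0w w)) ≤ ε := by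
    intro w hw
    rw [← Real.le_log_iff_exp_le hε0]
    have h1 : (-Real.log ε) / sexp A ≤ t1 - T0w w := by linarith [hTle w hw]
    rw [div_le_iff₀ hs] at h1
    linarith
  have hnear : ∀ w ∈ T, M - δ ≤ fR E q (t1 - Real.log (rphi w x1)) (ract w x1)
      (gact q (slOf q w)⁻¹ y1) := by
    intro w hw
    have h1 := hnm w q M ε Tε t1 hε0 hM0 hTε (by linarith [hTle w hw]) (hexp w hw) x1 hx1 y1 hf1
    have h2 : Cw w * ε ≤ CC * ε := mul_le_mul_of_nonneg_right (hCle w hw) hε0.le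
    linarith
  -- lower bound on the `n`-step positions
  set a : ℝ := t1 - L + 2 * δ - S0 with ha
  set m1 : ℝ := Real.exp (-(sexp A) * (3 * δ)) * (1 + δ) ^ (-(sexp A)) * (M - δ) with hm1
  have hfor := forward_min hA1 E q n a m1 (by
    intro t ht v hv x hx y' hy'
    obtain ⟨w, hwT, u, hwu, hgy, hlog⟩ := hreach x1 hx1 y1 y' hy1 hy' v hv (t1 - t + 2 * δ) (by
      constructor
      · have := ht.2
        linarith
      · have := ht.1
        linarith)
    have h1 := hnear w hwT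
    rw [hgy] at h1
    rw [abs_le] at hlog
    -- the positions are close
    have hpos : ract w x1 = ract v (ract u x1) := by rw [hwu, ract_append _ _ hx1.1]
    have hF : ((2 : ℝ) ^ n) ≤ (F v : ℝ) := by
      have := two_pow_le_F v
      rw [hv] at this
      exact_mod_cast this
    have hclose : |ract w x1 - ract v x| ≤ δ := by
      rw [hpos]
      have h2 := ract_lip v (ract_mem u hx1) hx
      refine h2.trans (le_trans ?_ hn)
      have h3 : |ract u x1 - x| ≤ 1 := by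
        have h4 := ract_mem u hx1
        rw [abs_le]
        constructor
        · linarith [h4.1, hx.2]
        · linarith [h4.2, hx.1]
      have h5 : ((1 : ℝ) / 4) ^ n = 1 / ((2 : ℝ) ^ n) ^ 2 := by
        rw [← pow_mul, mul_comm n 2, pow_mul, div_pow, one_pow]
        norm_num
      rw [h5]
      have h6 : ((2 : ℝ) ^ n) ^ 2 ≤ (F v : ℝ) ^ 2 := pow_le_pow_left₀ (by positivity) hF 2
      exact div_le_div₀ zero_le_one h3 (by positivity) h6
    have hreg := fR_reg E q (ract_mem w hx1) (ract_mem v hx) y'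
      (t := t1 - Real.log (rphi w x1)) (t' := t) hclose (by linarith [hlog.1])
    -- compare the factors
    have hdt : t - (t1 - Real.log (rphi w x1)) ≤ 3 * δ := by linarith [hlog.2]
    have hf0 : 0 ≤ fR E q t (ract v x) y' := fR_nonneg E q (ract_mem v hx) t y'
    have hpw : 0 < (1 + δ) ^ (-(sexp A)) := Real.rpow_pos_of_pos (by linarith) _
    by_cases hMδ : M - δ ≤ 0
    · refine le_trans ?_ hf0
      exact mul_nonpos_of_nonneg_of_nonpos (by positivity) hMδ
    · push Not at hMδ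
      refine le_trans ?_ hreg
      refine mul_le_mul ?_ h1 hMδ.le (by positivity)
      refine mul_le_mul_of_nonneg_right (Real.exp_le_exp.mpr ?_) hpw.le
      nlinarith)
  refine ⟨max Tκ (a + (n + 1) * L), fun t ht x hx y hy => ?_⟩
  have h1 := hTκ t ((le_max_left _ _).trans ht) x hx y
  have h2 := hfor t ((le_max_right _ _).trans ht) x hx y hy
  rw [abs_le]
  constructor
  · linarith
  · linarith

end Pool.Agent.W_f50700_h3
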