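import Pool.Agent.W_f50700_h3.Defs

/-!
Win1: windows in the logarithmic variable and their Fourier transforms (row 438, S1).
-/

open MeasureTheory

namespace Pool.Agent.W_f50700_h3

/-- the window in the logarithmic variable -/
noncomputable def bwin (R u : ℝ) : ℝ := max 0 (1 - R * |Real.exp u - 1|)

/-- its Fourier transform (angular frequency) -/
noncomputable def bhat (R t : ℝ) : ℂ :=
  ∫ u in (-1 : ℝ)..1, (bwin R u : ℂ) * Complex.exp (-(((t * u : ℝ) : ℂ) * Complex.I))

theorem win_eq_bwin {m L n : ℝ} (hm : 0 < m) (hL : 0 < L) (hn : 0 < n) :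
    win m L n = bwin (m / L) (Real.log (n / m)) := by
  unfold win bwin
  rw [Real.exp_log (by positivity)]
  congr 2
  have h1 : n / m - 1 = (n - m) / m := by field_simp
  rw [h1, abs_div, abs_of_pos hm]
  field_simp

theorem bwin_continuous (R : ℝ) : Continuous (bwin R) := by
  unfold bwin
  fun_prop

/-- lower bound for `|exp u - 1|` -/
theorem Win1_exp_lower {u : ℝ} (hu : |u| ≤ 1 / 2) : 2 / 3 * |u| ≤ |Real.exp u - 1| := by
  rcases le_total 0 u with h | h
  · rw [abs_of_nonneg h] at hu ⊢
    have h1 := Real.add_one_le_exp u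
    rw [abs_of_nonneg (by linarith)]
    linarith
  · rw [abs_of_nonpos h] at hu ⊢
    have h1 := Real.add_one_le_exp (-u)
    have h2 : Real.exp u * Real.exp (-u) = 1 := by rw [← Real.exp_add]; simp
    have h3 : 0 < Real.exp u := Real.exp_pos u
    have h4 : Real.exp u ≤ 1 := by rw [← Real.exp_zero]; exact Real.exp_le_exp.2 h
    rw [abs_of_nonpos (by linarith)]
    nlinarith

theorem Win1_exp_upper {u : ℝ} (hu : |u| ≤ 1) : |Real.exp u - 1| ≤ 2 * |u| :=
  Real.abs_exp_sub_one_le hu

/-- support: `|u| ≤ 2/R` -/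
theorem bwin_support {R u : ℝ} (hR : 4 ≤ R) (hu : 2 / R < |u|) : bwin R u = 0 := by
  unfold bwin
  apply max_eq_left
  have hR0 : 0 < R := by linarith
  have h2R : 2 / R ≤ 1 / 2 := by rw [div_le_div_iff₀ hR0 (by norm_num)]; linarith
  have key : 1 ≤ R * |Real.exp u - 1| := by
    have h0 : (4 / 3) / R ≤ |Real.exp u - 1| := by
      rcases le_total 0 u with h | h
      · rw [abs_of_nonneg h] at hu
        have h1 := Real.add_one_le_exp u
        rw [abs_of_nonneg (by linarith)]
        have h3 : (4 / 3) / R ≤ 2 / R := by gcongr; norm_num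
        linarith
      · rw [abs_of_nonpos h] at hu
        have h4 : Real.exp u ≤ Real.exp (-(2 / R)) := Real.exp_le_exp.2 (by linarith)
        have h5 := Win1_exp_lower (u := -(2 / R)) (by
          rw [abs_neg, abs_of_pos (by positivity)]; exact h2R)
        rw [abs_neg, abs_of_pos (by positivity)] at h5
        have h6 : Real.exp (-(2 / R)) ≤ 1 := by
          rw [← Real.exp_zero]
          refine Real.exp_le_exp.2 ?_
          have : 0 < 2 / R := by positivity
          linarith
        rw [abs_of_nonpos (by linarith)] at h5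
        rw [abs_of_nonpos (by linarith)]
        have h7 : (4 / 3) / R = 2 / 3 * (2 / R) := by ring
        rw [h7]
        linarith
    calc (1 : ℝ) ≤ R * ((4 / 3) / R) := by field_simp; norm_num
      _ ≤ R * |Real.exp u - 1| := mul_le_mul_of_nonneg_left h0 hR0.le
  linarith

theorem bwin_nonneg (R u : ℝ) : 0 ≤ bwin R u := le_max_left _ _

theorem bwin_le_one {R u : ℝ} (hR : 0 ≤ R) : bwin R u ≤ 1 := by
  unfold bwin
  have h1 : 0 ≤ R * |Real.exp u - 1| := by positivity
  exact max_le zero_le_one (by linarith)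

/-- the tent function -/
noncomputable def Win1_tent (a u : ℝ) : ℝ := max 0 (1 - a * |u|)

theorem Win1_tent_continuous (a : ℝ) : Continuous (Win1_tent a) := by
  unfold Win1_tent
  fun_prop

theorem Win1_tent_integral {a : ℝ} (ha : 1 ≤ a) : ∫ u in (-1 : ℝ)..1, Win1_tent a u = 1 / a := by
  have ha0 : 0 < a := by linarith
  have hinv : 1 / a ≤ 1 := by rw [div_le_one ha0]; exact ha
  have hinv0 : 0 < 1 / a := by positivity
  have hc := Win1_tent_continuous a
  have h1 : ∫ u in (0 : ℝ)..1, Win1_tent a u = 1 / (2 * a) := by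
    rw [← intervalIntegral.integral_add_adjacent_intervals (b := 1 / a)
      (hc.intervalIntegrable _ _) (hc.intervalIntegrable _ _)]
    have h2 : ∫ u in (0 : ℝ)..(1 / a), Win1_tent a u = ∫ u in (0 : ℝ)..(1 / a), (1 - a * u) := by
      refine intervalIntegral.integral_congr fun u hu => ?_
      rw [Set.uIcc_of_le hinv0.le] at hu
      show max 0 (1 - a * |u|) = 1 - a * u
      rw [abs_of_nonneg hu.1]
      apply max_eq_right
      have h3 := mul_le_mul_of_nonneg_left hu.2 ha0.le
      have h4 : a * (1 / a) = 1 := by field_simp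
      linarith
    have h5 : ∫ u in (1 / a)..(1 : ℝ), Win1_tent a u = ∫ u in (1 / a)..(1 : ℝ), (0 : ℝ) := by
      refine intervalIntegral.integral_congr fun u hu => ?_
      rw [Set.uIcc_of_le hinv] at hu
      show max 0 (1 - a * |u|) = 0
      rw [abs_of_nonneg (hinv0.le.trans hu.1)]
      apply max_eq_left
      have h3 := mul_le_mul_of_nonneg_left hu.1 ha0.le
      have h4 : a * (1 / a) = 1 := by field_simp
      linarith
    rw [h2, h5, intervalIntegral.integral_zero, add_zero, intervalIntegral.integral_sub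
      (by simp) (by apply Continuous.intervalIntegrable; fun_prop),
      intervalIntegral.integral_const_mul, integral_id]
    simp
    field_simp
    norm_num
  have h2 : ∫ u in (-1 : ℝ)..0, Win1_tent a u = 1 / (2 * a) := by
    have h3 := intervalIntegral.integral_comp_neg (a := (0 : ℝ)) (b := 1) (Win1_tent a)
    rw [neg_zero] at h3
    rw [← h3, ← h1]
    refine intervalIntegral.integral_congr fun u _ => ?_
    show max 0 (1 - a * |-u|) = max 0 (1 - a * |u|)
    rw [abs_neg]
  rw [← intervalIntegral.integral_add_adjacent_intervals (b := 0)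
      (hc.intervalIntegrable _ _) (hc.intervalIntegrable _ _), h1, h2]
  field_simp
  norm_num

/-- `∫ bwin` over `[-1, 1]` -/
theorem Win1_int_bounds {R : ℝ} (hR : 4 ≤ R) : 1 / (2 * R) ≤ ∫ u in (-1 : ℝ)..1, bwin R u ∧
    ∫ u in (-1 : ℝ)..1, bwin R u ≤ 2 / R := by
  have hR0 : 0 < R := by linarith
  have hc := bwin_continuous R
  constructor
  · rw [← Win1_tent_integral (a := 2 * R) (by linarith)]
    refine intervalIntegral.integral_mono_on (by norm_num)
      ((Win1_tent_continuous _).intervalIntegrable _ _) (hc.intervalIntegrable _ _) ?_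
    intro u hu
    unfold Win1_tent bwin
    refine max_le_max le_rfl ?_
    have h1 := Win1_exp_upper (u := u) (abs_le.2 hu)
    nlinarith
  · have h1 : ∫ u in (-1 : ℝ)..1, bwin R u ≤ ∫ u in (-1 : ℝ)..1, Win1_tent (2 / 3 * R) u := by
      refine intervalIntegral.integral_mono_on (by norm_num) (hc.intervalIntegrable _ _)
        ((Win1_tent_continuous _).intervalIntegrable _ _) ?_
      intro u hu
      rcases le_or_gt |u| (1 / 2) with h | h
      · unfold Win1_tent bwin
        refine max_le_max le_rfl ?_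
        have h1 := Win1_exp_lower h
        nlinarith
      · rw [bwin_support hR (lt_of_le_of_lt _ h)]
        · exact le_max_left _ _
        · rw [div_le_div_iff₀ hR0 (by norm_num)]; linarith
    rw [Win1_tent_integral (by linarith)] at h1
    refine h1.trans ?_
    rw [div_le_div_iff₀ (by positivity) hR0]
    linarith

theorem Win1_bhat_zero (R : ℝ) : bhat R 0 = ((∫ u in (-1 : ℝ)..1, bwin R u : ℝ) : ℂ) := by
  unfold bhat
  rw [← intervalIntegral.integral_ofReal]
  refine intervalIntegral.integral_congr fun u _ => ?_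
  simp

theorem bhat_zero_bounds {R : ℝ} (hR : 4 ≤ R) : (bhat R 0).im = 0 ∧ 1 / (2 * R) ≤ (bhat R 0).re ∧
    (bhat R 0).re ≤ 2 / R := by
  rw [Win1_bhat_zero, Complex.ofReal_im, Complex.ofReal_re]
  exact ⟨rfl, Win1_int_bounds hR⟩

theorem Win1_norm_exp (t u : ℝ) : ‖Complex.exp (-(((t * u : ℝ) : ℂ) * Complex.I))‖ = 1 := by
  have h1 : -(((t * u : ℝ) : ℂ) * Complex.I) = ((-(t * u) : ℝ) : ℂ) * Complex.I := by
    push_cast; ring
  rw [h1]
  exact Complex.norm_exp_ofReal_mul_I _

theorem bhat_norm_le {R : ℝ} (hR : 4 ≤ R) (t : ℝ) : ‖bhat R t‖ ≤ 3 / R := by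
  have hR0 : 0 < R := by linarith
  unfold bhat
  refine (intervalIntegral.norm_integral_le_integral_norm (by norm_num)).trans ?_
  have h1 : ∫ u in (-1 : ℝ)..1, ‖(bwin R u : ℂ) * Complex.exp (-(((t * u : ℝ) : ℂ) *
      Complex.I))‖ = ∫ u in (-1 : ℝ)..1, bwin R u := by
    refine intervalIntegral.integral_congr fun u _ => ?_
    show ‖(bwin R u : ℂ) * Complex.exp (-(((t * u : ℝ) : ℂ) * Complex.I))‖ = bwin R u
    rw [norm_mul, Win1_norm_exp, mul_one, Complex.norm_real, Real.norm_eq_abs,
      abs_of_nonneg (bwin_nonneg _ _)]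
  rw [h1]
  refine (Win1_int_bounds hR).2.trans ?_
  gcongr
  norm_num

theorem Win1_hasDerivAt_cexp (c : ℂ) (u : ℝ) :
    HasDerivAt (fun u : ℝ => Complex.exp (c * u)) (Complex.exp (c * u) * c) u := by
  have h1 : HasDerivAt (fun u : ℝ => c * (u : ℂ)) c u := by
    simpa using (hasDerivAt_id u).ofReal_comp.const_mul c
  exact h1.cexp

/-- the explicit integral of one smooth piece -/
theorem Win1_piece (A B s : ℂ) (hs : s ≠ 0) (hs1 : 1 + s ≠ 0) (a b : ℝ) :
    ∫ u in a..b, (A + B * Complex.exp (1 * (u : ℂ))) * Complex.exp (s * (u : ℂ)) =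
      ((A + B * Complex.exp (1 * (b : ℂ))) * Complex.exp (s * b) / s -
        B * Complex.exp ((1 + s) * b) / (s * (1 + s))) -
      ((A + B * Complex.exp (1 * (a : ℂ))) * Complex.exp (s * a) / s -
        B * Complex.exp ((1 + s) * a) / (s * (1 + s))) := by
  refine intervalIntegral.integral_eq_sub_of_hasDerivAt (f := fun u : ℝ =>
    (A + B * Complex.exp (1 * (u : ℂ))) * Complex.exp (s * u) / s -
        B * Complex.exp ((1 + s) * u) / (s * (1 + s))) ?_ ?_
  · intro u _
    have h1 := ((((Win1_hasDerivAt_cexp 1 u).const_mul B).const_add A).mul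
      (Win1_hasDerivAt_cexp s u)).div_const s
    have h2 := ((Win1_hasDerivAt_cexp (1 + s) u).const_mul B).div_const (s * (1 + s))
    refine (h1.sub h2).congr_deriv ?_
    have h3 : Complex.exp ((1 + s) * u) = Complex.exp (1 * u) * Complex.exp (s * u) := by
      rw [← Complex.exp_add]; ring_nf
    rw [h3]
    field_simp
    ring
  · apply Continuous.intervalIntegrable
    fun_prop

theorem Win1_closed_form {R : ℝ} (hR : 4 ≤ R) {t : ℝ} (ht : t ≠ 0) :
    ∃ a b : ℝ, Real.exp a ≤ 1 ∧ Real.exp b ≤ 5 / 4 ∧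
    bhat R t = (R : ℂ) / ((-(t : ℂ) * Complex.I) * (1 + -(t : ℂ) * Complex.I)) *
      (Complex.exp ((1 + -(t : ℂ) * Complex.I) * a) +
        Complex.exp ((1 + -(t : ℂ) * Complex.I) * b) - 2) := by
  have hR0 : 0 < R := by linarith
  have hiR : 1 / R ≤ 1 / 4 := one_div_le_one_div_of_le (by norm_num) hR
  have hiR0 : 0 < 1 / R := by positivity
  set s : ℂ := -(t : ℂ) * Complex.I with hs
  have hs0 : s ≠ 0 := by
    rw [hs]
    simp [ht, Complex.I_ne_zero]
  have hs1 : 1 + s ≠ 0 := by
    intro h
    have h1 := congrArg Complex.re h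
    rw [hs] at h1
    simp at h1
  set a : ℝ := Real.log (1 - 1 / R) with ha
  set b : ℝ := Real.log (1 + 1 / R) with hb
  have hea : Real.exp a = 1 - 1 / R := Real.exp_log (by linarith)
  have heb : Real.exp b = 1 + 1 / R := Real.exp_log (by linarith)
  have ha0 : a ≤ 0 := Real.log_nonpos (by linarith) (by linarith)
  have hb0 : 0 ≤ b := Real.log_nonneg (by linarith)
  have ha1 : -1 ≤ a := by
    have h1 : Real.exp (-1) ≤ Real.exp a := by
      rw [hea]
      have h2 : Real.exp (-1) ≤ 1 / 2 := by
        have h3 := Real.add_one_le_exp (1 : ℝ)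
        rw [Real.exp_neg, inv_eq_one_div]
        exact one_div_le_one_div_of_le (by norm_num) (by linarith)
      linarith
    exact Real.exp_le_exp.1 h1
  have hb1 : b ≤ 1 := by
    have h1 : Real.exp b ≤ Real.exp 1 := by
      rw [heb]
      have h3 := Real.add_one_le_exp (1 : ℝ)
      linarith
    exact Real.exp_le_exp.1 h1
  refine ⟨a, b, by rw [hea]; linarith, by rw [heb]; linarith, ?_⟩
  have hcont : Continuous fun u : ℝ => (bwin R u : ℂ) *
      Complex.exp (-(((t * u : ℝ) : ℂ) * Complex.I)) := by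
    have := bwin_continuous R
    fun_prop
  have hii : ∀ x y : ℝ, IntervalIntegrable (fun u : ℝ => (bwin R u : ℂ) *
      Complex.exp (-(((t * u : ℝ) : ℂ) * Complex.I))) volume x y :=
    fun x y => hcont.intervalIntegrable x y
  have hexp : ∀ u : ℝ, Complex.exp (-(((t * u : ℝ) : ℂ) * Complex.I)) =
      Complex.exp (s * u) := by
    intro u
    congr 1
    rw [hs]; push_cast; ring
  have hz : ∀ x y : ℝ, x ≤ y → (∀ u ∈ Set.Icc x y, bwin R u = 0) →
      ∫ u in x..y, (bwin R u : ℂ) * Complex.exp (-(((t * u : ℝ) : ℂ) * Complex.I)) = 0 := by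
    intro x y hxy h
    rw [← intervalIntegral.integral_zero (a := x) (b := y) (μ := volume) (E := ℂ)]
    refine intervalIntegral.integral_congr fun u hu => ?_
    rw [Set.uIcc_of_le hxy] at hu
    show (bwin R u : ℂ) * Complex.exp (-(((t * u : ℝ) : ℂ) * Complex.I)) = 0
    rw [h u hu]
    simp
  have hz1 := hz (-1) a ha1 (by
    intro u hu
    unfold bwin
    apply max_eq_left
    have h1 : Real.exp u ≤ 1 - 1 / R := by rw [← hea]; exact Real.exp_le_exp.2 hu.2
    have h2 : 1 / R ≤ |Real.exp u - 1| := by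
      rw [abs_of_nonpos (by linarith)]; linarith
    have h3 := mul_le_mul_of_nonneg_left h2 hR0.le
    have h4 : R * (1 / R) = 1 := by field_simp
    linarith)
  have hz2 := hz b 1 hb1 (by
    intro u hu
    unfold bwin
    apply max_eq_left
    have h1 : 1 + 1 / R ≤ Real.exp u := by rw [← heb]; exact Real.exp_le_exp.2 hu.1
    have h2 : 1 / R ≤ |Real.exp u - 1| := by
      rw [abs_of_nonneg (by linarith)]; linarith
    have h3 := mul_le_mul_of_nonneg_left h2 hR0.le
    have h4 : R * (1 / R) = 1 := by field_simp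
    linarith)
  have hl : ∫ u in a..0, (bwin R u : ℂ) * Complex.exp (-(((t * u : ℝ) : ℂ) * Complex.I)) =
      ∫ u in a..0, ((1 - R : ℂ) + (R : ℂ) * Complex.exp (1 * (u : ℂ))) *
        Complex.exp (s * (u : ℂ)) := by
    refine intervalIntegral.integral_congr fun u hu => ?_
    rw [Set.uIcc_of_le ha0] at hu
    show (bwin R u : ℂ) * Complex.exp (-(((t * u : ℝ) : ℂ) * Complex.I)) = _
    rw [hexp]
    congr 1
    have h1 : 1 - 1 / R ≤ Real.exp u := by rw [← hea]; exact Real.exp_le_exp.2 hu.1
    have h2 : Real.exp u ≤ 1 := by rw [← Real.exp_zero]; exact Real.exp_le_exp.2 hu.2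
    have h3 : bwin R u = 1 - R + R * Real.exp u := by
      unfold bwin
      rw [abs_of_nonpos (by linarith), max_eq_right]
      · ring
      · have h3 := mul_le_mul_of_nonneg_left h1 hR0.le
        have h4 : R * (1 - 1 / R) = R - 1 := by field_simp
        linarith
    rw [h3, one_mul]
    push_cast
    rfl
  have hr : ∫ u in (0 : ℝ)..b, (bwin R u : ℂ) * Complex.exp (-(((t * u : ℝ) : ℂ) * Complex.I)) =
      ∫ u in (0 : ℝ)..b, ((1 + R : ℂ) + (-(R : ℂ)) * Complex.exp (1 * (u : ℂ))) *
        Complex.exp (s * (u : ℂ)) := by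
    refine intervalIntegral.integral_congr fun u hu => ?_
    rw [Set.uIcc_of_le hb0] at hu
    show (bwin R u : ℂ) * Complex.exp (-(((t * u : ℝ) : ℂ) * Complex.I)) = _
    rw [hexp]
    congr 1
    have h1 : Real.exp u ≤ 1 + 1 / R := by rw [← heb]; exact Real.exp_le_exp.2 hu.2
    have h2 : 1 ≤ Real.exp u := by rw [← Real.exp_zero]; exact Real.exp_le_exp.2 hu.1
    have h3 : bwin R u = 1 + R + (-R) * Real.exp u := by
      unfold bwin
      rw [abs_of_nonneg (by linarith), max_eq_right]
      · ring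
      · have h3 := mul_le_mul_of_nonneg_left h1 hR0.le
        have h4 : R * (1 + 1 / R) = R + 1 := by field_simp
        linarith
    rw [h3, one_mul]
    push_cast
    rfl
  unfold bhat
  rw [← intervalIntegral.integral_add_adjacent_intervals (hii (-1) a) (hii a 1),
    ← intervalIntegral.integral_add_adjacent_intervals (hii a 0) (hii 0 1),
    ← intervalIntegral.integral_add_adjacent_intervals (hii 0 b) (hii b 1), hz1, hz2, hl, hr,
    Win1_piece _ _ s hs0 hs1, Win1_piece _ _ s hs0 hs1]
  have e1 : Complex.exp (1 * (a : ℂ)) = 1 - 1 / (R : ℂ) := by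
    rw [one_mul, ← Complex.ofReal_exp, hea]; push_cast; rfl
  have e2 : Complex.exp (1 * (b : ℂ)) = 1 + 1 / (R : ℂ) := by
    rw [one_mul, ← Complex.ofReal_exp, heb]; push_cast; rfl
  have hRc : (R : ℂ) ≠ 0 := by exact_mod_cast hR0.ne'
  rw [e1, e2]
  simp only [Complex.ofReal_zero, mul_zero, Complex.exp_zero, mul_one]
  field_simp
  ring

/-- integration by parts twice on the two smooth pieces (explicit antiderivatives) -/
theorem bhat_decay : ∃ C : ℝ, 0 < C ∧ ∀ R : ℝ, 4 ≤ R → ∀ t : ℝ, t ≠ 0 →
    ‖bhat R t‖ ≤ C * R / t ^ 2 := by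
  refine ⟨5, by norm_num, fun R hR t ht => ?_⟩
  have hR0 : 0 < R := by linarith
  obtain ⟨a, b, hea, heb, h⟩ := Win1_closed_form hR ht
  rw [h, norm_mul, norm_div, norm_mul]
  have ht2 : |t| ≤ ‖(1 : ℂ) + -(t : ℂ) * Complex.I‖ := by
    have h1 := Complex.abs_im_le_norm ((1 : ℂ) + -(t : ℂ) * Complex.I)
    simpa using h1
  have ht1 : ‖-(t : ℂ) * Complex.I‖ = |t| := by simp
  have hn : ∀ c : ℝ, ‖Complex.exp ((1 + -(t : ℂ) * Complex.I) * c)‖ = Real.exp c := by
    intro c
    rw [Complex.norm_exp]
    congr 1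
    simp
  have h3 : ‖Complex.exp ((1 + -(t : ℂ) * Complex.I) * a) +
        Complex.exp ((1 + -(t : ℂ) * Complex.I) * b) - 2‖ ≤ 5 := by
    refine (norm_sub_le _ _).trans ?_
    have h4 := norm_add_le (Complex.exp ((1 + -(t : ℂ) * Complex.I) * a))
      (Complex.exp ((1 + -(t : ℂ) * Complex.I) * b))
    rw [hn, hn] at h4
    have h5 : ‖(2 : ℂ)‖ = 2 := by simp
    rw [h5]
    linarith
  have hat : 0 < |t| := abs_pos.2 ht
  have h4 : ‖(R : ℂ)‖ / (‖-(t : ℂ) * Complex.I‖ * ‖(1 : ℂ) + -(t : ℂ) * Complex.I‖) ≤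
      R / t ^ 2 := by
    rw [Complex.norm_real, Real.norm_eq_abs, abs_of_pos hR0, ht1, ← sq_abs, sq]
    gcongr
  calc _ ≤ R / t ^ 2 * 5 := mul_le_mul h4 h3 (norm_nonneg _) (by positivity)
    _ = 5 * R / t ^ 2 := by ring

theorem bhat_sub {R : ℝ} (hR : 4 ≤ R) (t : ℝ) :
    ‖bhat R t - bhat R 0‖ ≤ (2 * |t| / R) * ‖bhat R 0‖ := by
  have hR0 : 0 < R := by linarith
  have hc := bwin_continuous R
  have hI : 0 ≤ ∫ u in (-1 : ℝ)..1, bwin R u :=
    intervalIntegral.integral_nonneg (by norm_num) fun u _ => bwin_nonneg R u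
  rw [Win1_bhat_zero, Complex.norm_real, Real.norm_eq_abs, abs_of_nonneg hI,
    ← intervalIntegral.integral_ofReal]
  unfold bhat
  rw [← intervalIntegral.integral_sub (by apply Continuous.intervalIntegrable; fun_prop)
    (by apply Continuous.intervalIntegrable; fun_prop)]
  refine (intervalIntegral.norm_integral_le_integral_norm (by norm_num)).trans ?_
  rw [← intervalIntegral.integral_const_mul]
  refine intervalIntegral.integral_mono_on (by norm_num)
    (by apply Continuous.intervalIntegrable; fun_prop)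
    (by apply Continuous.intervalIntegrable; fun_prop) ?_
  intro u _
  rcases le_or_gt |u| (2 / R) with h | h
  · have h1 : (bwin R u : ℂ) * Complex.exp (-(((t * u : ℝ) : ℂ) * Complex.I)) - (bwin R u : ℂ) =
        (bwin R u : ℂ) * (Complex.exp (Complex.I * ((-(t * u) : ℝ) : ℂ)) - 1) := by
      have h2 : -(((t * u : ℝ) : ℂ) * Complex.I) = Complex.I * ((-(t * u) : ℝ) : ℂ) := by
        push_cast; ring
      rw [h2]; ring
    rw [h1, norm_mul, Complex.norm_real, Real.norm_eq_abs, abs_of_nonneg (bwin_nonneg R u),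
      mul_comm]
    refine mul_le_mul_of_nonneg_right ?_ (bwin_nonneg R u)
    refine (Real.norm_exp_I_mul_ofReal_sub_one_le).trans ?_
    rw [Real.norm_eq_abs, abs_neg, abs_mul]
    calc |t| * |u| ≤ |t| * (2 / R) := mul_le_mul_of_nonneg_left h (abs_nonneg t)
      _ = 2 * |t| / R := by ring
  · rw [bwin_support hR h]
    simp

theorem bhat_continuous (R : ℝ) : Continuous (bhat R) := by
  have hc := bwin_continuous R
  unfold bhat
  refine intervalIntegral.continuous_parametric_intervalIntegral_of_continuous' ?_ _ _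
  unfold Function.uncurry
  fun_prop

theorem Win1_support_sub {R : ℝ} (hR : 4 ≤ R) (c : ℝ) (hc : 1 ≤ c) (g : ℝ → ℂ) :
    Function.support (fun u => (bwin R u : ℂ) * g u) ⊆ Set.Ioc (-c) c := by
  intro u hu
  have hR0 : 0 < R := by linarith
  have h1 : |u| ≤ 2 / R := by
    by_contra h
    push Not at h
    exact hu (by show (bwin R u : ℂ) * g u = 0; rw [bwin_support hR h]; simp)
  have h2 : 2 / R ≤ 1 / 2 := by rw [div_le_div_iff₀ hR0 (by norm_num)]; linarith
  have h3 := abs_le.1 (h1.trans h2)
  exact ⟨by linarith [h3.1], by linarith [h3.2]⟩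

theorem Win1_fourier {R : ℝ} (hR : 4 ≤ R) (ξ : ℝ) :
    FourierTransform.fourier (fun u : ℝ => (bwin R u : ℂ)) ξ = bhat R (2 * Real.pi * ξ) := by
  rw [Real.fourier_real_eq_integral_exp_smul]
  unfold bhat
  rw [intervalIntegral.integral_eq_integral_of_support_subset
    (Win1_support_sub hR 1 le_rfl _)]
  congr 1
  funext u
  rw [smul_eq_mul, mul_comm]
  congr 2
  push_cast
  ring

theorem Win1_integrable {R : ℝ} (hR : 4 ≤ R) : Integrable (bhat R) := by
  have hR0 : 0 < R := by linarith
  obtain ⟨C, hC, hdec⟩ := bhat_decay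
  refine Integrable.mono' ((integrable_inv_one_add_sq).const_mul (6 / R + 2 * C * R))
    (bhat_continuous R).aestronglyMeasurable (Filter.Eventually.of_forall fun t => ?_)
  have h1 : 0 < 1 + t ^ 2 := by positivity
  rw [← div_eq_mul_inv, le_div_iff₀ h1]
  rcases le_or_gt (t ^ 2) 1 with h | h
  · have h2 := bhat_norm_le hR t
    have h3 : 0 ≤ 3 / R := by positivity
    calc ‖bhat R t‖ * (1 + t ^ 2) ≤ 3 / R * 2 :=
          mul_le_mul h2 (by linarith) h1.le h3
      _ ≤ 6 / R + 2 * C * R := by
          have : 0 ≤ 2 * C * R := by positivity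
          have h4 : 3 / R * 2 = 6 / R := by ring
          linarith
  · have ht : t ≠ 0 := by
      rintro rfl
      norm_num at h
    have ht2 : 0 < t ^ 2 := by positivity
    have h2 := hdec R hR t ht
    have h3 : 0 ≤ C * R / t ^ 2 := by positivity
    calc ‖bhat R t‖ * (1 + t ^ 2) ≤ C * R / t ^ 2 * (2 * t ^ 2) :=
          mul_le_mul h2 (by linarith) h1.le h3
      _ = 2 * C * R := by field_simp
      _ ≤ 6 / R + 2 * C * R := by
          have : 0 ≤ 6 / R := by positivity
          linarith

/-- Fourier inversion -/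
theorem bwin_inversion {R : ℝ} (hR : 4 ≤ R) (u : ℝ) :
    (bwin R u : ℂ) = (1 / (2 * Real.pi) : ℂ) *
      ∫ t : ℝ, bhat R t * Complex.exp (((t * u : ℝ) : ℂ) * Complex.I) := by
  have hc : Continuous fun u : ℝ => (bwin R u : ℂ) :=
    Complex.continuous_ofReal.comp (bwin_continuous R)
  have hR0 : 0 < R := by linarith
  have hcs : HasCompactSupport fun u : ℝ => (bwin R u : ℂ) := by
    refine HasCompactSupport.intro (isCompact_Icc (a := (-1 : ℝ)) (b := 1)) fun u hu => ?_
    have h1 : 2 / R < |u| := by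
      by_contra h
      push Not at h
      have h2 : 2 / R ≤ 1 / 2 := by rw [div_le_div_iff₀ hR0 (by norm_num)]; linarith
      have h3 := abs_le.1 (h.trans h2)
      exact hu ⟨by linarith [h3.1], by linarith [h3.2]⟩
    rw [bwin_support hR h1]
    simp
  have hf : Integrable fun u : ℝ => (bwin R u : ℂ) := hc.integrable_of_hasCompactSupport hcs
  have hFT : FourierTransform.fourier (fun u : ℝ => (bwin R u : ℂ)) =
      fun ξ => bhat R (2 * Real.pi * ξ) := funext fun ξ => Win1_fourier hR ξ
  have h2pi : (2 * Real.pi : ℝ) ≠ 0 := by positivity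
  have hFi : Integrable (FourierTransform.fourier (fun u : ℝ => (bwin R u : ℂ))) := by
    rw [hFT]
    exact (Win1_integrable hR).comp_mul_left' h2pi
  have hinv := congrFun (hc.fourierInv_fourier_eq hf hFi) u
  rw [hFT, Real.fourierInv_eq'] at hinv
  have h1 : ∀ v : ℝ, Complex.exp ((((2 * Real.pi * inner ℝ v u : ℝ) : ℂ)) * Complex.I) •
      bhat R (2 * Real.pi * v) = (fun t : ℝ => bhat R t *
        Complex.exp (((t * u : ℝ) : ℂ) * Complex.I)) (2 * Real.pi * v) := by
    intro v
    show _ = bhat R (2 * Real.pi * v) *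
        Complex.exp ((((2 * Real.pi * v) * u : ℝ) : ℂ) * Complex.I)
    rw [smul_eq_mul, mul_comm]
    congr 3
    simp only [RCLike.inner_apply, conj_trivial]
    push_cast
    ring
  have h2 := Measure.integral_comp_mul_left (fun t : ℝ => bhat R t *
        Complex.exp (((t * u : ℝ) : ℂ) * Complex.I)) (2 * Real.pi)
  rw [integral_congr_ae (Filter.Eventually.of_forall h1), h2] at hinv
  rw [← hinv, Complex.real_smul]
  congr 1
  rw [abs_of_pos (by positivity)]
  push_cast
  ring

theorem Win1_abs_exp_sub_one (x : ℝ) : |Real.exp x - 1| ≤ |x| * Real.exp |x| := by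
  have h2 : Real.exp x * Real.exp (-x) = 1 := by rw [← Real.exp_add]; simp
  rcases le_total 0 x with h | h
  · have h1 : 1 ≤ Real.exp x := Real.one_le_exp h
    rw [abs_of_nonneg h, abs_of_nonneg (by linarith)]
    have h3 := Real.add_one_le_exp (-x)
    have h4 : 0 < Real.exp x := Real.exp_pos x
    nlinarith
  · have h1 : Real.exp x ≤ 1 := by rw [← Real.exp_zero]; exact Real.exp_le_exp.2 h
    rw [abs_of_nonpos h, abs_of_nonpos (by linarith)]
    have h3 := Real.add_one_le_exp x
    have h4 : 1 ≤ Real.exp (-x) := Real.one_le_exp (by linarith)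
    nlinarith

/-- `b^(0)` approximates the weighted integral: `∫ bwin R u s e^(s u) du = s b^(0) (1 + O(1/R))`,
and `b^(0) R = 1 + O(1/R)` -/
theorem bwin_weighted (s : ℝ) : ∃ C : ℝ, 0 < C ∧ ∀ R : ℝ, 4 ≤ R →
    |(∫ u in (-2 : ℝ)..2, bwin R u * (s * Real.exp (s * u))) - s / R| ≤ C / R ^ 2 ∧
    |(bhat R 0).re - 1 / R| ≤ C / R ^ 2 := by
  refine ⟨4 * s ^ 2 * Real.exp |s| + 32 * |s| + 32, by positivity, fun R hR => ?_⟩
  have hR0 : 0 < R := by linarith
  have h2R : 2 / R ≤ 1 / 2 := by rw [div_le_div_iff₀ hR0 (by norm_num)]; linarith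
  have hc := bwin_continuous R
  have ht := Win1_tent_continuous R
  have ht4 := Win1_tent_continuous (R / 4)
  have hre : (bhat R 0).re = ∫ u in (-1 : ℝ)..1, bwin R u := by
    rw [Win1_bhat_zero, Complex.ofReal_re]
  rw [hre]
  have hpt : ∀ u ∈ Set.Icc (-1 : ℝ) 1, |bwin R u - Win1_tent R u| ≤
      8 / R * Win1_tent (R / 4) u := by
    intro u hu
    rcases le_or_gt |u| (2 / R) with h | h
    · have h1 : |bwin R u - Win1_tent R u| ≤ R * u ^ 2 := by
        unfold bwin Win1_tent
        rw [max_comm 0, max_comm 0]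
        refine (abs_max_sub_max_le_abs (1 - R * |Real.exp u - 1|) (1 - R * |u|) 0).trans ?_
        have h2 : 1 - R * |Real.exp u - 1| - (1 - R * |u|) = R * (|u| - |Real.exp u - 1|) := by
          ring
        rw [h2, abs_mul, abs_of_pos hR0]
        refine mul_le_mul_of_nonneg_left ?_ hR0.le
        have h3 := abs_abs_sub_abs_le_abs_sub u (Real.exp u - 1)
        have h4 := Real.abs_exp_sub_one_sub_id_le (x := u) (abs_le.2 hu)
        rw [abs_sub_comm] at h4
        have h5 : u - (Real.exp u - 1) = u - (Real.exp u - 1) := rfl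
        exact h3.trans h4
      have h2 : R * u ^ 2 ≤ 4 / R := by
        rw [← sq_abs]
        calc R * |u| ^ 2 ≤ R * (2 / R) ^ 2 := by gcongr
          _ = 4 / R := by field_simp; norm_num
      have h3 : 1 / 2 ≤ Win1_tent (R / 4) u := by
        refine le_trans ?_ (le_max_right _ _)
        have h4 : R / 4 * |u| ≤ R / 4 * (2 / R) := mul_le_mul_of_nonneg_left h (by positivity)
        have h5 : R / 4 * (2 / R) = 1 / 2 := by field_simp; norm_num
        linarith
      calc |bwin R u - Win1_tent R u| ≤ 4 / R := h1.trans h2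
        _ = 8 / R * (1 / 2) := by ring
        _ ≤ 8 / R * Win1_tent (R / 4) u := mul_le_mul_of_nonneg_left h3 (by positivity)
    · have h1 : Win1_tent R u = 0 := by
        apply max_eq_left
        have h2 := mul_lt_mul_of_pos_left h hR0
        have h3 : R * (2 / R) = 2 := by field_simp
        linarith
      rw [bwin_support hR h, h1]
      simp only [sub_zero, abs_zero]
      exact mul_nonneg (by positivity) (le_max_left _ _)
  have hI : |(∫ u in (-1 : ℝ)..1, bwin R u) - 1 / R| ≤ 32 / R ^ 2 := by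
    rw [← Win1_tent_integral (a := R) (by linarith),
      ← intervalIntegral.integral_sub (hc.intervalIntegrable _ _) (ht.intervalIntegrable _ _)]
    refine (intervalIntegral.abs_integral_le_integral_abs (by norm_num)).trans ?_
    refine (intervalIntegral.integral_mono_on (by norm_num)
      ((hc.sub ht).abs.intervalIntegrable _ _)
      ((ht4.const_mul (8 / R)).intervalIntegrable _ _) hpt).trans ?_
    rw [intervalIntegral.integral_const_mul, Win1_tent_integral (by linarith)]
    apply le_of_eq
    field_simp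
    norm_num
  have hIb := (Win1_int_bounds hR).2
  have hI0 : 0 ≤ ∫ u in (-1 : ℝ)..1, bwin R u :=
    intervalIntegral.integral_nonneg (by norm_num) fun u _ => bwin_nonneg R u
  refine ⟨?_, hI.trans ?_⟩
  · have hJ : ∫ u in (-2 : ℝ)..2, bwin R u * (s * Real.exp (s * u)) =
        ∫ u in (-1 : ℝ)..1, bwin R u * (s * Real.exp (s * u)) := by
      have hsup : ∀ c : ℝ, 1 ≤ c → Function.support
          (fun u => bwin R u * (s * Real.exp (s * u))) ⊆ Set.Ioc (-c) c := by
        intro c hc1 u hu
        have h1 : |u| ≤ 2 / R := by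
          by_contra h
          push Not at h
          exact hu (by
            show bwin R u * (s * Real.exp (s * u)) = 0
            rw [bwin_support hR h]; simp)
        have h3 := abs_le.1 (h1.trans h2R)
        exact ⟨by linarith [h3.1], by linarith [h3.2]⟩
      rw [intervalIntegral.integral_eq_integral_of_support_subset (hsup 2 (by norm_num)),
        intervalIntegral.integral_eq_integral_of_support_subset (hsup 1 le_rfl)]
    have hpt2 : ∀ u ∈ Set.Icc (-1 : ℝ) 1, |bwin R u * (s * Real.exp (s * u)) -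
        s * bwin R u| ≤ 2 * s ^ 2 * Real.exp |s| / R * bwin R u := by
      intro u _
      rcases le_or_gt |u| (2 / R) with h | h
      · have h1 : bwin R u * (s * Real.exp (s * u)) - s * bwin R u =
            (s * (Real.exp (s * u) - 1)) * bwin R u := by ring
        rw [h1, abs_mul, abs_of_nonneg (bwin_nonneg R u)]
        refine mul_le_mul_of_nonneg_right ?_ (bwin_nonneg R u)
        rw [abs_mul]
        have h2 := Win1_abs_exp_sub_one (s * u)
        have h3 : |s * u| ≤ |s| * (2 / R) := by
          rw [abs_mul]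
          exact mul_le_mul_of_nonneg_left h (abs_nonneg s)
        have h4 : |s * u| ≤ |s| := by
          refine h3.trans ?_
          have := abs_nonneg s
          nlinarith
        calc |s| * |Real.exp (s * u) - 1| ≤ |s| * (|s * u| * Real.exp |s * u|) :=
              mul_le_mul_of_nonneg_left h2 (abs_nonneg s)
          _ ≤ |s| * (|s| * (2 / R) * Real.exp |s|) := by
              refine mul_le_mul_of_nonneg_left ?_ (abs_nonneg s)
              exact mul_le_mul h3 (Real.exp_le_exp.2 h4) (Real.exp_pos _).le (by positivity)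
          _ = 2 * |s| ^ 2 * Real.exp |s| / R := by ring
          _ = 2 * s ^ 2 * Real.exp |s| / R := by rw [sq_abs]
      · rw [bwin_support hR h]
        simp
    have h1 : |(∫ u in (-1 : ℝ)..1, bwin R u * (s * Real.exp (s * u))) -
        s * ∫ u in (-1 : ℝ)..1, bwin R u| ≤ 4 * s ^ 2 * Real.exp |s| / R ^ 2 := by
      rw [← intervalIntegral.integral_const_mul, ← intervalIntegral.integral_sub
        (by apply Continuous.intervalIntegrable; fun_prop)
        (by apply Continuous.intervalIntegrable; fun_prop)]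
      refine (intervalIntegral.abs_integral_le_integral_abs (by norm_num)).trans ?_
      refine (intervalIntegral.integral_mono_on (by norm_num)
        (by apply Continuous.intervalIntegrable; fun_prop)
        (by apply Continuous.intervalIntegrable; fun_prop) hpt2).trans ?_
      rw [intervalIntegral.integral_const_mul]
      calc 2 * s ^ 2 * Real.exp |s| / R * ∫ u in (-1 : ℝ)..1, bwin R u ≤
            2 * s ^ 2 * Real.exp |s| / R * (2 / R) :=
            mul_le_mul_of_nonneg_left hIb (by positivity)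
        _ = 4 * s ^ 2 * Real.exp |s| / R ^ 2 := by ring
    rw [hJ]
    have h2 : |s * (∫ u in (-1 : ℝ)..1, bwin R u) - s / R| ≤ 32 * |s| / R ^ 2 := by
      have h3 : s * (∫ u in (-1 : ℝ)..1, bwin R u) - s / R =
          s * ((∫ u in (-1 : ℝ)..1, bwin R u) - 1 / R) := by ring
      rw [h3, abs_mul]
      calc |s| * |(∫ u in (-1 : ℝ)..1, bwin R u) - 1 / R| ≤ |s| * (32 / R ^ 2) :=
            mul_le_mul_of_nonneg_left hI (abs_nonneg s)
        _ = 32 * |s| / R ^ 2 := by ring
    calc |(∫ u in (-1 : ℝ)..1, bwin R u * (s * Real.exp (s * u))) - s / R| ≤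
          |(∫ u in (-1 : ℝ)..1, bwin R u * (s * Real.exp (s * u))) -
            s * ∫ u in (-1 : ℝ)..1, bwin R u| +
          |s * (∫ u in (-1 : ℝ)..1, bwin R u) - s / R| := abs_sub_le _ _ _
      _ ≤ 4 * s ^ 2 * Real.exp |s| / R ^ 2 + 32 * |s| / R ^ 2 := add_le_add h1 h2
      _ = (4 * s ^ 2 * Real.exp |s| + 32 * |s|) / R ^ 2 := by ring
      _ ≤ (4 * s ^ 2 * Real.exp |s| + 32 * |s| + 32) / R ^ 2 :=
          div_le_div_of_nonneg_right (by linarith) (by positivity)
  · gcongr
    have h1 : 0 ≤ 4 * s ^ 2 * Real.exp |s| := by positivity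
    have h2 : 0 ≤ 32 * |s| := by positivity
    linarith

end Pool.Agent.W_f50700_h3
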