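import Pool.Agent.W_f50700_h3.MixThm
import Pool.Agent.W_f50700_h3.Win1
import Pool.Agent.W_f50700_h3.Ren6

/-!
ShortS: sums over words in short windows (row 438, Theorem S).
-/

open Matrix Filter Topology
open scoped ContDiff

namespace Pool.Agent.W_f50700_h3

variable {A : ℕ}

/-- a fixed smooth bump function: `1` on `[-1,1]`, `0` outside `[-2,2]` -/
theorem exists_bump : ∃ Φ : ℝ → ℝ, ContDiff ℝ ∞ Φ ∧ (∀ u, |u| ≤ 1 → Φ u = 1) ∧
    (∀ u, 2 < |u| → Φ u = 0) ∧ ∀ u, 0 ≤ Φ u ∧ Φ u ≤ 1 := by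
  let f : ContDiffBump (0 : ℝ) := ⟨1, 2, by norm_num, by norm_num⟩
  refine ⟨f, f.contDiff, ?_, ?_, ?_⟩
  · intro u hu
    apply f.one_of_mem_closedBall
    rw [mem_closedBall_zero_iff, Real.norm_eq_abs]
    exact hu
  · intro u hu
    apply f.zero_of_le_dist
    rw [Real.dist_eq, sub_zero]
    exact hu.le
  · intro u
    exact ⟨f.nonneg, f.le_one⟩

/-- the window sum as an integral over frequencies: for `R = m/L ≥ 4`
`∑_w win(F w) h(w e1) = (1/2π) ∫ bhat R t · m^(-i t) · twist A q Φ m t h dt`. -/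
theorem window_integral {Φ : ℝ → ℝ} (hΦ : Continuous Φ) (h1 : ∀ u, |u| ≤ 1 → Φ u = 1)
    (h2 : ∀ u, 2 < |u| → Φ u = 0) (q : ℕ) {m L : ℝ} (hm : 1 ≤ m) (hL : 0 < L) (hR : 4 ≤ m / L)
    (h : ZMod q × ZMod q → ℂ) :
    ∑ w ∈ wordsF A (2 * m), (win m L (F w) : ℂ) * h (vact q (mat w) (1, 0)) =
      (1 / (2 * Real.pi) : ℂ) * ∫ t : ℝ, bhat (m / L) t *
        (Complex.exp (-(((t * Real.log m : ℝ) : ℂ) * Complex.I)) * twist A q Φ m t h) := by
  have hm0 : 0 < m := by linarith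
  set R := m / L with hRdef
  have hR0 : 0 < R := by linarith
  have hFpos : ∀ w : List (Lt A), (0 : ℝ) < F w := fun w => by exact_mod_cast F_pos w
  have he2 : (2 : ℝ) ≤ Real.exp 2 := by
    have := Real.add_one_le_exp (2 : ℝ)
    linarith
  -- enlarge the range of summation
  have hsub : wordsF A (2 * m) ⊆ wordsF A (m * Real.exp 2) := by
    intro w hw
    rw [mem_wordsF] at hw ⊢
    nlinarith
  have hL1 : ∑ w ∈ wordsF A (2 * m), (win m L (F w) : ℂ) * h (vact q (mat w) (1, 0)) =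
      ∑ w ∈ wordsF A (m * Real.exp 2), (win m L (F w) : ℂ) * h (vact q (mat w) (1, 0)) := by
    refine Finset.sum_subset hsub fun w _ hw => ?_
    rw [mem_wordsF, not_le] at hw
    have h3 : win m L (F w) = 0 := by
      unfold win
      apply max_eq_left
      have h4 : m / L ≤ |(F w : ℝ) - m| / L := by
        apply div_le_div_of_nonneg_right _ hL.le
        rw [abs_of_nonneg (by linarith)]
        linarith
      linarith
    rw [h3]
    simp
  -- value of the window as an integral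
  have hwin : ∀ w : List (Lt A), (win m L (F w) : ℂ) = (Φ (Real.log (F w / m)) : ℂ) *
      ((1 / (2 * Real.pi) : ℂ) * ∫ t : ℝ, bhat R t *
        Complex.exp (((t * Real.log (F w / m) : ℝ) : ℂ) * Complex.I)) := by
    intro w
    rw [← bwin_inversion hR, win_eq_bwin hm0 hL (hFpos w)]
    by_cases hu : |Real.log (F w / m)| ≤ 1
    · rw [h1 _ hu]
      simp
      rfl
    · have h3 : bwin R (Real.log (F w / m)) = 0 := by
        apply bwin_support hR
        have : 2 / R ≤ 1 := by rw [div_le_one hR0]; linarith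
        linarith [not_le.1 hu]
      rw [h3]
      simp
  rw [hL1]
  have hint : ∀ u : ℝ, MeasureTheory.Integrable (fun t : ℝ => bhat R t *
      Complex.exp (((t * u : ℝ) : ℂ) * Complex.I)) := by
    intro u
    refine (Win1_integrable hR).mul_bdd (c := 1) ?_ ?_
    · exact (Continuous.aestronglyMeasurable (by fun_prop))
    · refine Filter.Eventually.of_forall fun t => ?_
      rw [Complex.norm_exp_ofReal_mul_I]
  have hR1 : (fun t : ℝ => bhat R t *
        (Complex.exp (-(((t * Real.log m : ℝ) : ℂ) * Complex.I)) * twist A q Φ m t h)) =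
      fun t : ℝ => ∑ w ∈ wordsF A (m * Real.exp 2),
        ((Φ (Real.log (F w / m)) : ℂ) * h (vact q (mat w) (1, 0))) *
        (bhat R t * Complex.exp (((t * Real.log (F w / m) : ℝ) : ℂ) * Complex.I)) := by
    funext t
    unfold twist
    rw [Finset.mul_sum, Finset.mul_sum]
    refine Finset.sum_congr rfl fun w _ => ?_
    have h3 : Complex.exp (((t * Real.log (F w / m) : ℝ) : ℂ) * Complex.I) =
        Complex.exp (-(((t * Real.log m : ℝ) : ℂ) * Complex.I)) *
        Complex.exp (((t * Real.log (F w) : ℝ) : ℂ) * Complex.I) := by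
      rw [← Complex.exp_add, Real.log_div (hFpos w).ne' hm0.ne']
      congr 1
      push_cast
      ring
    rw [h3]
    ring
  rw [hR1, MeasureTheory.integral_finsetSum _ fun w _ => (hint _).const_mul _, Finset.mul_sum]
  refine Finset.sum_congr rfl fun w _ => ?_
  rw [MeasureTheory.integral_const_mul, hwin w]
  ring

/-! ### auxiliary integrals -/

/-- the integrable majorant -/
noncomputable def shortS_f (t : ℝ) : ℝ := ((max 1 |t|) ^ 2)⁻¹

theorem shortS_f_nonneg (t : ℝ) : 0 ≤ shortS_f t := by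
  unfold shortS_f
  positivity

theorem shortS_f_cont : Continuous shortS_f := by
  unfold shortS_f
  refine Continuous.inv₀ (by fun_prop) fun t => ?_
  have : 0 < max 1 |t| := lt_of_lt_of_le one_pos (le_max_left _ _)
  positivity

theorem shortS_f_int : MeasureTheory.Integrable shortS_f := by
  refine (integrable_inv_one_add_sq.const_mul 2).mono' shortS_f_cont.aestronglyMeasurable ?_
  refine Filter.Eventually.of_forall fun t => ?_
  rw [Real.norm_of_nonneg (shortS_f_nonneg t)]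
  unfold shortS_f
  rw [← div_eq_mul_inv, le_div_iff₀ (by positivity), inv_mul_le_iff₀ (by positivity)]
  have h1 : (1 : ℝ) ≤ max 1 |t| := le_max_left _ _
  have h2 : |t| ≤ max 1 |t| := le_max_right _ _
  have h3 : t ^ 2 ≤ (max 1 |t|) ^ 2 := by
    rw [← sq_abs t]
    exact pow_le_pow_left₀ (abs_nonneg t) h2 2
  nlinarith

theorem shortS_f_comp (a : ℝ) (ha : 0 < a) : MeasureTheory.Integrable (fun t => shortS_f (t / a)) ∧
    ∫ t, shortS_f (t / a) = a * ∫ t, shortS_f t := by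
  constructor
  · exact shortS_f_int.comp_div ha.ne'
  · rw [MeasureTheory.Measure.integral_comp_div, abs_of_pos ha, smul_eq_mul]

theorem shortS_I_nonneg : 0 ≤ ∫ t, shortS_f t :=
  MeasureTheory.integral_nonneg shortS_f_nonneg

/-- the truncation height -/
theorem shortS_T {H m : ℝ} (hH : 1 ≤ H) (h : H ^ 1500 ≤ m) :
    H ^ 5 ≤ m ^ (1 / 300 : ℝ) ∧ 1 ≤ m ∧ (m ^ (1 / 300 : ℝ)) ^ 300 = m := by
  have hm1 : 1 ≤ m := (one_le_pow₀ hH).trans h
  have h2 : (m ^ (1 / 300 : ℝ)) ^ 300 = m := by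
    rw [← Real.rpow_natCast, ← Real.rpow_mul (by linarith)]
    norm_num
  refine ⟨?_, hm1, h2⟩
  refine le_of_pow_le_pow_left₀ (n := 300) (by norm_num) (by positivity) ?_
  rw [h2, ← pow_mul]
  exact h

/-- pointwise bounds for the twisted sums -/
theorem shortS_twist (hA : 1 ≤ A) (hs : 2 - sexp A ≤ 1 / 50) (Φ : ℝ → ℝ)
    (hΦ : ContDiff ℝ ∞ Φ) (h2 : ∀ u, 2 < |u| → Φ u = 0) : ∃ C : ℝ, 0 < C ∧
    ∀ (q : ℕ) [NeZero q] (m R : ℝ), 4 ≤ R → (max (q : ℝ) R) ^ 1500 ≤ m →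
    ∀ h : ZMod q × ZMod q → ℂ, IsNew q h → (∀ x, ‖h x‖ ≤ 1) →
    (∀ t : ℝ, ‖twist A q Φ m t h‖ ≤ C * m ^ (sexp A)) ∧
    ∀ t : ℝ, |t| ≤ m ^ (1 / 300 : ℝ) →
      ‖twist A q Φ m t h‖ ≤ C * m ^ (sexp A) * ((max (q : ℝ) |t|) ^ 4)⁻¹ := by
  obtain ⟨C1, hC1, ht⟩ := twist_trivial (MixThm_two_le hA hs) Φ hΦ.continuous h2
  obtain ⟨C2, hC2, hM⟩ := mixing hA hs Φ hΦ h2
  refine ⟨max C1 C2, lt_max_of_lt_left hC1, ?_⟩
  intro q _ m R hR hm h hnew hb
  have hH : 4 ≤ max (q : ℝ) R := hR.trans (le_max_right _ _)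
  obtain ⟨hT1, hm1, hT2⟩ := shortS_T (by linarith) hm
  have hms : 0 ≤ m ^ (sexp A) := Real.rpow_nonneg (by linarith) _
  constructor
  · intro t
    exact (ht q m t hm1 h hb).trans (mul_le_mul_of_nonneg_right (le_max_left _ _) hms)
  · intro t htT
    have hq1 : (1 : ℝ) ≤ q := by
      exact_mod_cast Nat.one_le_iff_ne_zero.2 (NeZero.ne q)
    have h300 : (max (q : ℝ) R) ^ 300 ≤ m :=
      (pow_le_pow_right₀ (by linarith) (by norm_num)).trans hm
    have h3 : (max (max (q : ℝ) |t|) 2) ^ 300 ≤ m := by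
      rcases max_choice (max (q : ℝ) |t|) 2 with h4 | h4
      · rw [h4]
        rcases max_choice (q : ℝ) |t| with h5 | h5
        · rw [h5]
          exact (pow_le_pow_left₀ (by linarith) (le_max_left _ _) _).trans h300
        · rw [h5]
          calc |t| ^ 300 ≤ (m ^ (1 / 300 : ℝ)) ^ 300 := pow_le_pow_left₀ (abs_nonneg _) htT _
            _ = m := hT2
      · rw [h4]
        exact (pow_le_pow_left₀ (by norm_num) (by linarith) _).trans h300
    have h4 := hM q m t h3 h hnew hb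
    have h5 : max (max (q : ℝ) |t|) 1 = max (q : ℝ) |t| :=
      max_eq_left (hq1.trans (le_max_left _ _))
    have hpos : 0 < max (q : ℝ) |t| := lt_of_lt_of_le (by linarith) (le_max_left _ _)
    rw [h5, Real.rpow_neg hpos.le, show (4 : ℝ) = ((4 : ℕ) : ℝ) by norm_num,
      Real.rpow_natCast] at h4
    refine h4.trans ?_
    refine mul_le_mul_of_nonneg_right (mul_le_mul_of_nonneg_right (le_max_right _ _) hms) ?_
    positivity

theorem shortS_q_bound {q t : ℝ} (hq : 1 ≤ q) :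
    ((max q |t|) ^ 4)⁻¹ ≤ (q ^ 4)⁻¹ * shortS_f (t / q) := by
  have hq0 : 0 < q := by linarith
  unfold shortS_f
  rw [← mul_inv]
  have h1 : q * max 1 |t / q| = max q |t| := by
    rw [mul_max_of_nonneg _ _ hq0.le, mul_one, abs_div, abs_of_pos hq0, mul_div_cancel₀ _ hq0.ne']
  have h2 : 0 < max q |t| := lt_of_lt_of_le hq0 (le_max_left _ _)
  apply inv_anti₀ (by positivity)
  have h3 : q ^ 4 * (max 1 |t / q|) ^ 2 = q ^ 2 * (max q |t|) ^ 2 := by
    rw [← h1]
    ring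
  rw [h3]
  have h4 : q ^ 2 ≤ (max q |t|) ^ 2 := pow_le_pow_left₀ hq0.le (le_max_left _ _) 2
  nlinarith [sq_nonneg (max q |t|)]

theorem shortS_t_bound {t : ℝ} : |t| * ((max 1 |t|) ^ 4)⁻¹ ≤ shortS_f t := by
  unfold shortS_f
  have h1 : (1 : ℝ) ≤ max 1 |t| := le_max_left _ _
  have h2 : |t| ≤ max 1 |t| := le_max_right _ _
  have h3 : 0 < max 1 |t| := by linarith
  rw [← div_eq_mul_inv, div_le_iff₀ (by positivity), inv_mul_eq_div, le_div_iff₀ (by positivity)]
  nlinarith [pow_pos h3 2, pow_pos h3 3, mul_nonneg (pow_pos h3 3).le (sub_nonneg.2 h1),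
    mul_nonneg (pow_pos h3 2).le (sub_nonneg.2 h2)]

theorem shortS_tail {T t : ℝ} (hT : 0 < T) (ht : T < |t|) : (t ^ 2)⁻¹ = (T ^ 2)⁻¹ * shortS_f (t / T) := by
  unfold shortS_f
  have h1 : (1 : ℝ) ≤ |t / T| := by
    rw [abs_div, abs_of_pos hT, le_div_iff₀ hT]
    linarith
  rw [max_eq_right h1, sq_abs, div_pow]
  have ht0 : t ≠ 0 := by
    intro h0
    rw [h0, abs_zero] at ht
    linarith
  field_simp

/-- Theorem S (i) -/
theorem short_new_bound (hA : 1 ≤ A) (hs : 2 - sexp A ≤ 1 / 50) : ∃ C : ℝ, 0 < C ∧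
    ∀ (q : ℕ) [NeZero q] (m L : ℝ), 0 < L → 4 ≤ m / L → (max (q : ℝ) (m / L)) ^ 1500 ≤ m →
    ∀ h : ZMod q × ZMod q → ℂ, IsNew q h → (∀ x, ‖h x‖ ≤ 1) →
    ‖∑ w ∈ wordsF A (2 * m), (win m L (F w) : ℂ) * h (vact q (mat w) (1, 0))‖ ≤
      C * m ^ (sexp A - 1) * L / (q : ℝ) ^ 3 := by
  obtain ⟨Φ, hΦ, h1, h2, -⟩ := exists_bump
  obtain ⟨C1, hC1, htw⟩ := shortS_twist hA hs Φ hΦ h2
  obtain ⟨C2, hC2, hdec⟩ := bhat_decay
  set I := ∫ t, shortS_f t with hI
  have hI0 : 0 ≤ I := shortS_I_nonneg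
  refine ⟨(3 * C1 + C2 * C1) * I + 1, by positivity, ?_⟩
  intro q _ m L hL hR hm h hnew hb
  set R := m / L with hRdef
  have hR0 : 0 < R := by linarith
  have hH : 4 ≤ max (q : ℝ) R := hR.trans (le_max_right _ _)
  obtain ⟨hT1, hm1, hT2⟩ := shortS_T (by linarith) hm
  set T := m ^ (1 / 300 : ℝ) with hT
  have hT0 : 0 < T := by
    have : (0 : ℝ) < (max (q : ℝ) R) ^ 5 := by positivity
    linarith
  have hm0 : 0 < m := by linarith
  have hms : 0 ≤ m ^ (sexp A) := Real.rpow_nonneg hm0.le _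
  have hq1 : (1 : ℝ) ≤ q := by
    exact_mod_cast Nat.one_le_iff_ne_zero.2 (NeZero.ne q)
  have hq0 : (0 : ℝ) < q := by linarith
  obtain ⟨ht1, ht2⟩ := htw q m R hR hm h hnew hb
  rw [window_integral hΦ.continuous h1 h2 q hm1 hL hR h, norm_mul]
  have hpi : ‖(1 / (2 * Real.pi) : ℂ)‖ ≤ 1 := by
    rw [norm_div, norm_one, norm_mul, Complex.norm_real, Complex.norm_ofNat,
      Real.norm_of_nonneg Real.pi_pos.le, div_le_one (by positivity)]
    linarith [Real.pi_gt_three]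
  obtain ⟨hi1, hv1⟩ := shortS_f_comp (q : ℝ) hq0
  obtain ⟨hi2, hv2⟩ := shortS_f_comp T hT0
  have hnorm : ∀ t : ℝ, ‖bhat R t *
        (Complex.exp (-(((t * Real.log m : ℝ) : ℂ) * Complex.I)) * twist A q Φ m t h)‖ =
      ‖bhat R t‖ * ‖twist A q Φ m t h‖ := by
    intro t
    rw [norm_mul, norm_mul]
    have : ‖Complex.exp (-(((t * Real.log m : ℝ) : ℂ) * Complex.I))‖ = 1 := Win1_norm_exp _ _
    rw [this, one_mul]
  have hint := MeasureTheory.norm_integral_le_of_norm_le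
    (f := fun t => bhat R t *
        (Complex.exp (-(((t * Real.log m : ℝ) : ℂ) * Complex.I)) * twist A q Φ m t h))
    (g := fun t => (3 / R * (C1 * m ^ (sexp A)) * ((q : ℝ) ^ 4)⁻¹) * shortS_f (t / q) +
      (C2 * R * (C1 * m ^ (sexp A)) * (T ^ 2)⁻¹) * shortS_f (t / T))
    ((hi1.const_mul _).add (hi2.const_mul _)) (Filter.Eventually.of_forall fun t => by
      rw [hnorm]
      have hf1 := shortS_f_nonneg (t / q)
      have hf2 := shortS_f_nonneg (t / T)
      rcases le_or_gt |t| T with htT | htT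
      · have h3 := bhat_norm_le hR t
        have h4 := ht2 t htT
        have h5 := shortS_q_bound (t := t) hq1
        calc ‖bhat R t‖ * ‖twist A q Φ m t h‖
            ≤ 3 / R * (C1 * m ^ (sexp A) * ((max (q : ℝ) |t|) ^ 4)⁻¹) :=
              mul_le_mul h3 h4 (norm_nonneg _) (by positivity)
          _ ≤ 3 / R * (C1 * m ^ (sexp A) * (((q : ℝ) ^ 4)⁻¹ * shortS_f (t / q))) := by
              gcongr
          _ = (3 / R * (C1 * m ^ (sexp A)) * ((q : ℝ) ^ 4)⁻¹) * shortS_f (t / q) := by ring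
          _ ≤ _ := by
              have : 0 ≤ (C2 * R * (C1 * m ^ (sexp A)) * (T ^ 2)⁻¹) * shortS_f (t / T) := by
                positivity
              linarith
      · have ht0 : t ≠ 0 := by
          intro h0
          rw [h0, abs_zero] at htT
          linarith
        have h3 := hdec R hR t ht0
        have h4 := ht1 t
        have h5 := shortS_tail hT0 htT
        calc ‖bhat R t‖ * ‖twist A q Φ m t h‖
            ≤ (C2 * R / t ^ 2) * (C1 * m ^ (sexp A)) :=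
              mul_le_mul h3 h4 (norm_nonneg _) (by positivity)
          _ = (C2 * R * (C1 * m ^ (sexp A)) * (T ^ 2)⁻¹) * shortS_f (t / T) := by
              rw [div_eq_mul_inv, h5]
              ring
          _ ≤ _ := by
              have : 0 ≤ (3 / R * (C1 * m ^ (sexp A)) * ((q : ℝ) ^ 4)⁻¹) * shortS_f (t / q) := by
                positivity
              linarith)
  rw [MeasureTheory.integral_add (hi1.const_mul _) (hi2.const_mul _),
    MeasureTheory.integral_const_mul, MeasureTheory.integral_const_mul, hv1, hv2] at hint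
  have hRT : R / T ≤ 1 / (R * (q : ℝ) ^ 3) := by
    rw [div_le_div_iff₀ hT0 (by positivity), one_mul]
    have h3 : R ≤ max (q : ℝ) R := le_max_right _ _
    have h4 : (q : ℝ) ≤ max (q : ℝ) R := le_max_left _ _
    calc R * (R * (q : ℝ) ^ 3) ≤ (max (q : ℝ) R) * ((max (q : ℝ) R) * (max (q : ℝ) R) ^ 3) := by
          gcongr
      _ = (max (q : ℝ) R) ^ 5 := by ring
      _ ≤ T := hT1
  have hmL : m ^ (sexp A - 1) * L = m ^ (sexp A) / R := by
    rw [Real.rpow_sub_one hm0.ne', hRdef]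
    field_simp
  calc ‖(1 / (2 * Real.pi) : ℂ)‖ * ‖∫ t : ℝ, bhat R t *
        (Complex.exp (-(((t * Real.log m : ℝ) : ℂ) * Complex.I)) * twist A q Φ m t h)‖
      ≤ 1 * ((3 / R * (C1 * m ^ (sexp A)) * ((q : ℝ) ^ 4)⁻¹) * (q * I) +
        (C2 * R * (C1 * m ^ (sexp A)) * (T ^ 2)⁻¹) * (T * I)) :=
        mul_le_mul hpi hint (norm_nonneg _) zero_le_one
    _ = 3 * C1 * I * (m ^ (sexp A) / R / (q : ℝ) ^ 3) +
        C2 * C1 * I * m ^ (sexp A) * (R / T) := by
        field_simp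
    _ ≤ 3 * C1 * I * (m ^ (sexp A) / R / (q : ℝ) ^ 3) +
        C2 * C1 * I * m ^ (sexp A) * (1 / (R * (q : ℝ) ^ 3)) := by
        gcongr
    _ = (3 * C1 + C2 * C1) * I * (m ^ (sexp A) / R / (q : ℝ) ^ 3) := by
        field_simp
    _ ≤ ((3 * C1 + C2 * C1) * I + 1) * (m ^ (sexp A) / R / (q : ℝ) ^ 3) := by
        refine mul_le_mul_of_nonneg_right (by linarith) (by positivity)
    _ = ((3 * C1 + C2 * C1) * I + 1) * m ^ (sexp A - 1) * L / (q : ℝ) ^ 3 := by
        rw [mul_assoc _ (m ^ (sexp A - 1)) L, hmL]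
        ring

theorem shortS_twist_cont (Φ : ℝ → ℝ) (q : ℕ) (m : ℝ) (h : ZMod q × ZMod q → ℂ) :
    Continuous (fun t : ℝ => twist A q Φ m t h) := by
  unfold twist
  refine continuous_finsetSum _ fun w _ => ?_
  fun_prop

/-- comparison of a short window with a longer window (both centred at `m`) -/
theorem short_compare (hA : 1 ≤ A) (hs : 2 - sexp A ≤ 1 / 50) : ∃ C : ℝ, 0 < C ∧
    ∀ (q : ℕ) [NeZero q] (m R R0 : ℝ), 4 ≤ R0 → R0 ≤ R → (max (q : ℝ) R) ^ 1500 ≤ m →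
    ∀ h : ZMod q × ZMod q → ℂ, IsNew q h → (∀ x, ‖h x‖ ≤ 1) →
    ‖(∑ w ∈ wordsF A (2 * m), (win m (m / R) (F w) : ℂ) * h (vact q (mat w) (1, 0))) /
        ((bhat R 0).re : ℂ) -
      (∑ w ∈ wordsF A (2 * m), (win m (m / R0) (F w) : ℂ) * h (vact q (mat w) (1, 0))) /
        ((bhat R0 0).re : ℂ)‖ ≤ C * m ^ (sexp A) / R0 := by
  obtain ⟨Φ, hΦ, h1, h2, -⟩ := exists_bump
  obtain ⟨C1, hC1, htw⟩ := shortS_twist hA hs Φ hΦ h2
  obtain ⟨C2, hC2, hdec⟩ := bhat_decay
  set I := ∫ t, shortS_f t with hI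
  have hI0 : 0 ≤ I := shortS_I_nonneg
  refine ⟨(4 * C1 + 4 * C2 * C1) * I + 1, by positivity, ?_⟩
  intro q _ m R R0 hR0 hRR hm h hnew hb
  have hR : 4 ≤ R := hR0.trans hRR
  have hRp : 0 < R := by linarith
  have hR0p : 0 < R0 := by linarith
  have hH : 4 ≤ max (q : ℝ) R := hR.trans (le_max_right _ _)
  obtain ⟨hT1, hm1, hT2⟩ := shortS_T (by linarith) hm
  set T := m ^ (1 / 300 : ℝ) with hT
  have hT0 : 0 < T := by
    have : (0 : ℝ) < (max (q : ℝ) R) ^ 5 := by positivity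
    linarith
  have hm0 : 0 < m := by linarith
  have hms : 0 ≤ m ^ (sexp A) := Real.rpow_nonneg hm0.le _
  have hq1 : (1 : ℝ) ≤ q := by
    exact_mod_cast Nat.one_le_iff_ne_zero.2 (NeZero.ne q)
  obtain ⟨ht1, ht2⟩ := htw q m R hR hm h hnew hb
  obtain ⟨hb1, hb2, hb3⟩ := bhat_zero_bounds hR
  obtain ⟨hb4, hb5, hb6⟩ := bhat_zero_bounds hR0
  set b := (bhat R 0).re with hbdef
  set b0 := (bhat R0 0).re with hb0def
  have hbp : 0 < b := lt_of_lt_of_le (by positivity) hb2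
  have hb0p : 0 < b0 := lt_of_lt_of_le (by positivity) hb5
  have hbc : bhat R 0 = (b : ℂ) := by
    apply Complex.ext
    · simp [hbdef]
    · simp [hb1]
  have hb0c : bhat R0 0 = (b0 : ℂ) := by
    apply Complex.ext
    · simp [hb0def]
    · simp [hb4]
  set E : ℝ → ℂ := fun t => Complex.exp (-(((t * Real.log m : ℝ) : ℂ) * Complex.I)) *
    twist A q Φ m t h with hE
  have hEn : ∀ t, ‖E t‖ = ‖twist A q Φ m t h‖ := by
    intro t
    simp only [hE]
    rw [norm_mul, Win1_norm_exp, one_mul]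
  have hEc : Continuous E := by
    have := shortS_twist_cont (A := A) Φ q m h
    simp only [hE]
    fun_prop
  have hw1 := window_integral (A := A) hΦ.continuous h1 h2 q hm1 (L := m / R) (by positivity)
    (by rw [div_div_cancel₀ hm0.ne']; exact hR) h
  have hw2 := window_integral (A := A) hΦ.continuous h1 h2 q hm1 (L := m / R0) (by positivity)
    (by rw [div_div_cancel₀ hm0.ne']; exact hR0) h
  rw [div_div_cancel₀ hm0.ne'] at hw1 hw2
  rw [hw1, hw2]
  have hint1 : MeasureTheory.Integrable (fun t => bhat R t * E t) :=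
    (Win1_integrable hR).mul_bdd (c := C1 * m ^ (sexp A)) hEc.aestronglyMeasurable
      (Filter.Eventually.of_forall fun t => by rw [hEn]; exact ht1 t)
  have hint2 : MeasureTheory.Integrable (fun t => bhat R0 t * E t) :=
    (Win1_integrable hR0).mul_bdd (c := C1 * m ^ (sexp A)) hEc.aestronglyMeasurable
      (Filter.Eventually.of_forall fun t => by rw [hEn]; exact ht1 t)
  have hdiff : (1 / (2 * Real.pi) : ℂ) * (∫ t : ℝ, bhat R t * E t) / (b : ℂ) -
      (1 / (2 * Real.pi) : ℂ) * (∫ t : ℝ, bhat R0 t * E t) / (b0 : ℂ) =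
      (1 / (2 * Real.pi) : ℂ) * ∫ t : ℝ, (bhat R t / (b : ℂ) - bhat R0 t / (b0 : ℂ)) * E t := by
    have h3 : (fun t : ℝ => (bhat R t / (b : ℂ) - bhat R0 t / (b0 : ℂ)) * E t) =
        fun t => (b : ℂ)⁻¹ * (bhat R t * E t) - (b0 : ℂ)⁻¹ * (bhat R0 t * E t) := by
      funext t
      ring
    rw [h3, MeasureTheory.integral_sub (hint1.const_mul _) (hint2.const_mul _),
      MeasureTheory.integral_const_mul, MeasureTheory.integral_const_mul]
    ring
  rw [hdiff, norm_mul]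
  have hpi : ‖(1 / (2 * Real.pi) : ℂ)‖ ≤ 1 := by
    rw [norm_div, norm_one, norm_mul, Complex.norm_real, Complex.norm_ofNat,
      Real.norm_of_nonneg Real.pi_pos.le, div_le_one (by positivity)]
    linarith [Real.pi_gt_three]
  obtain ⟨hi2, hv2⟩ := shortS_f_comp T hT0
  -- bounds for the quotient
  have hquot : ∀ {R' b' : ℝ}, 4 ≤ R' → R0 ≤ R' → bhat R' 0 = (b' : ℂ) → 0 < b' → ∀ t : ℝ,
      ‖bhat R' t / (b' : ℂ) - 1‖ ≤ 2 * |t| / R0 := by
    intro R' b' hR' hR'' hb' hb'p t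
    have h3 := bhat_sub hR' t
    rw [hb'] at h3
    have h4 : bhat R' t / (b' : ℂ) - 1 = (bhat R' t - (b' : ℂ)) / (b' : ℂ) := by
      have : (b' : ℂ) ≠ 0 := by exact_mod_cast hb'p.ne'
      field_simp
    have h5 : ‖(b' : ℂ)‖ = b' := by rw [Complex.norm_real, Real.norm_of_nonneg hb'p.le]
    rw [h4, norm_div, h5, div_le_iff₀ hb'p]
    rw [h5] at h3
    refine h3.trans (mul_le_mul_of_nonneg_right ?_ hb'p.le)
    exact div_le_div_of_nonneg_left (by positivity) hR0p hR''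
  have hquot2 : ∀ {R' b' : ℝ}, 4 ≤ R' → R' ≤ R → 1 / (2 * R') ≤ b' → ∀ t : ℝ, t ≠ 0 →
      ‖bhat R' t / (b' : ℂ)‖ ≤ 2 * C2 * R ^ 2 / t ^ 2 := by
    intro R' b' hR' hR'' hb' t ht
    have hR'p : 0 < R' := by linarith
    have hb'p : 0 < b' := lt_of_lt_of_le (by positivity) hb'
    have h3 := hdec R' hR' t ht
    rw [norm_div, Complex.norm_real, Real.norm_of_nonneg hb'p.le, div_le_iff₀ hb'p]
    have ht2 : 0 < t ^ 2 := by positivity
    calc ‖bhat R' t‖ ≤ C2 * R' / t ^ 2 := h3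
      _ = 2 * C2 * R' ^ 2 / t ^ 2 * (1 / (2 * R')) := by field_simp
      _ ≤ 2 * C2 * R ^ 2 / t ^ 2 * b' := by gcongr
  have hint := MeasureTheory.norm_integral_le_of_norm_le
    (f := fun t => (bhat R t / (b : ℂ) - bhat R0 t / (b0 : ℂ)) * E t)
    (g := fun t => (4 / R0 * (C1 * m ^ (sexp A))) * shortS_f t +
      (4 * C2 * R ^ 2 * (C1 * m ^ (sexp A)) * (T ^ 2)⁻¹) * shortS_f (t / T))
    ((shortS_f_int.const_mul _).add (hi2.const_mul _)) (Filter.Eventually.of_forall fun t => by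
      rw [norm_mul, hEn]
      have hf1 := shortS_f_nonneg t
      have hf2 := shortS_f_nonneg (t / T)
      rcases le_or_gt |t| T with htT | htT
      · have h3 : ‖bhat R t / (b : ℂ) - bhat R0 t / (b0 : ℂ)‖ ≤ 4 / R0 * |t| := by
          have h4 := hquot hR hRR hbc hbp t
          have h5 := hquot hR0 le_rfl hb0c hb0p t
          calc ‖bhat R t / (b : ℂ) - bhat R0 t / (b0 : ℂ)‖ =
                ‖(bhat R t / (b : ℂ) - 1) - (bhat R0 t / (b0 : ℂ) - 1)‖ := by
                congr 1; ring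
            _ ≤ ‖bhat R t / (b : ℂ) - 1‖ + ‖bhat R0 t / (b0 : ℂ) - 1‖ := norm_sub_le _ _
            _ ≤ 2 * |t| / R0 + 2 * |t| / R0 := add_le_add h4 h5
            _ = 4 / R0 * |t| := by ring
        have h4 := ht2 t htT
        have h5 : ((max (q : ℝ) |t|) ^ 4)⁻¹ ≤ ((max 1 |t|) ^ 4)⁻¹ := by
          apply inv_anti₀ (by positivity)
          exact pow_le_pow_left₀ (by positivity) (max_le_max hq1 le_rfl) 4
        calc ‖bhat R t / (b : ℂ) - bhat R0 t / (b0 : ℂ)‖ * ‖twist A q Φ m t h‖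
            ≤ (4 / R0 * |t|) * (C1 * m ^ (sexp A) * ((max (q : ℝ) |t|) ^ 4)⁻¹) :=
              mul_le_mul h3 h4 (norm_nonneg _) (by positivity)
          _ ≤ (4 / R0 * |t|) * (C1 * m ^ (sexp A) * ((max 1 |t|) ^ 4)⁻¹) := by
              gcongr
          _ = (4 / R0 * (C1 * m ^ (sexp A))) * (|t| * ((max 1 |t|) ^ 4)⁻¹) := by ring
          _ ≤ (4 / R0 * (C1 * m ^ (sexp A))) * shortS_f t :=
              mul_le_mul_of_nonneg_left shortS_t_bound (by positivity)
          _ ≤ _ := by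
              have : 0 ≤ (4 * C2 * R ^ 2 * (C1 * m ^ (sexp A)) * (T ^ 2)⁻¹) *
                  shortS_f (t / T) := by positivity
              linarith
      · have ht0 : t ≠ 0 := by
          intro h0
          rw [h0, abs_zero] at htT
          linarith
        have h3 : ‖bhat R t / (b : ℂ) - bhat R0 t / (b0 : ℂ)‖ ≤ 4 * C2 * R ^ 2 / t ^ 2 := by
          have h4 := hquot2 hR le_rfl hb2 t ht0
          have h5 := hquot2 hR0 hRR hb5 t ht0
          calc ‖bhat R t / (b : ℂ) - bhat R0 t / (b0 : ℂ)‖ ≤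
                ‖bhat R t / (b : ℂ)‖ + ‖bhat R0 t / (b0 : ℂ)‖ := norm_sub_le _ _
            _ ≤ 2 * C2 * R ^ 2 / t ^ 2 + 2 * C2 * R ^ 2 / t ^ 2 := add_le_add h4 h5
            _ = 4 * C2 * R ^ 2 / t ^ 2 := by ring
        have h4 := ht1 t
        have h5 := shortS_tail hT0 htT
        calc ‖bhat R t / (b : ℂ) - bhat R0 t / (b0 : ℂ)‖ * ‖twist A q Φ m t h‖
            ≤ (4 * C2 * R ^ 2 / t ^ 2) * (C1 * m ^ (sexp A)) :=
              mul_le_mul h3 h4 (norm_nonneg _) (by positivity)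
          _ = (4 * C2 * R ^ 2 * (C1 * m ^ (sexp A)) * (T ^ 2)⁻¹) * shortS_f (t / T) := by
              rw [div_eq_mul_inv, h5]
              ring
          _ ≤ _ := by
              have : 0 ≤ (4 / R0 * (C1 * m ^ (sexp A))) * shortS_f t := by positivity
              linarith)
  rw [MeasureTheory.integral_add (shortS_f_int.const_mul _) (hi2.const_mul _),
    MeasureTheory.integral_const_mul, MeasureTheory.integral_const_mul, hv2] at hint
  have hRT : R ^ 2 / T ≤ 1 / R0 := by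
    rw [div_le_div_iff₀ hT0 hR0p, one_mul]
    have h3 : R ≤ max (q : ℝ) R := le_max_right _ _
    calc R ^ 2 * R0 ≤ (max (q : ℝ) R) ^ 2 * (max (q : ℝ) R) := by
          have : R0 ≤ max (q : ℝ) R := hRR.trans h3
          gcongr
      _ = (max (q : ℝ) R) ^ 3 := by ring
      _ ≤ (max (q : ℝ) R) ^ 5 := pow_le_pow_right₀ (by linarith) (by norm_num)
      _ ≤ T := hT1
  calc ‖(1 / (2 * Real.pi) : ℂ)‖ *
        ‖∫ t : ℝ, (bhat R t / (b : ℂ) - bhat R0 t / (b0 : ℂ)) * E t‖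
      ≤ 1 * ((4 / R0 * (C1 * m ^ (sexp A))) * I +
        (4 * C2 * R ^ 2 * (C1 * m ^ (sexp A)) * (T ^ 2)⁻¹) * (T * I)) :=
        mul_le_mul hpi hint (norm_nonneg _) zero_le_one
    _ = 4 * C1 * I * (m ^ (sexp A) / R0) +
        4 * C2 * C1 * I * m ^ (sexp A) * (R ^ 2 / T) := by
        field_simp
    _ ≤ 4 * C1 * I * (m ^ (sexp A) / R0) +
        4 * C2 * C1 * I * m ^ (sexp A) * (1 / R0) := by
        gcongr
    _ = (4 * C1 + 4 * C2 * C1) * I * (m ^ (sexp A) / R0) := by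
        ring
    _ ≤ ((4 * C1 + 4 * C2 * C1) * I + 1) * (m ^ (sexp A) / R0) := by
        refine mul_le_mul_of_nonneg_right (by linarith) (by positivity)
    _ = ((4 * C1 + 4 * C2 * C1) * I + 1) * m ^ (sexp A) / R0 := by ring

/-- the window sum in terms of `bwin` -/
theorem shortS_range {m R : ℝ} (hm : 0 < m) (hR : 4 ≤ R) (f : List (Lt A) → ℂ) :
    ∑ w ∈ wordsF A (2 * m), (win m (m / R) (F w) : ℂ) * f w =
      ∑ w ∈ wordsF A (m * Real.exp 2), (bwin R (Real.log (F w / m)) : ℂ) * f w := by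
  have hR0 : 0 < R := by linarith
  have hFpos : ∀ w : List (Lt A), (0 : ℝ) < F w := fun w => by exact_mod_cast F_pos w
  have he2 : (2 : ℝ) ≤ Real.exp 2 := by
    have := Real.add_one_le_exp (2 : ℝ)
    linarith
  have hsub : wordsF A (2 * m) ⊆ wordsF A (m * Real.exp 2) := by
    intro w hw
    rw [mem_wordsF] at hw ⊢
    nlinarith
  have hval : ∀ w : List (Lt A), win m (m / R) (F w) = bwin R (Real.log (F w / m)) := by
    intro w
    rw [win_eq_bwin hm (by positivity) (hFpos w), div_div_cancel₀ hm.ne']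
  rw [Finset.sum_subset hsub (f := fun w => (win m (m / R) (F w) : ℂ) * f w) ?_]
  · refine Finset.sum_congr rfl fun w _ => ?_
    rw [hval]
  · intro w _ hw
    rw [mem_wordsF, not_le] at hw
    have h3 : win m (m / R) (F w) = 0 := by
      unfold win
      apply max_eq_left
      have h4 : m / (m / R) ≤ |(F w : ℝ) - m| / (m / R) := by
        apply div_le_div_of_nonneg_right _ (by positivity)
        rw [abs_of_nonneg (by linarith)]
        linarith
      rw [div_div_cancel₀ hm.ne'] at h4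
      linarith
    rw [h3]
    simp

theorem shortS_bwin_supp {R u : ℝ} (hR : 4 ≤ R) (hu : 2 < |u|) : bwin R u = 0 := by
  apply bwin_support hR
  have : 2 / R ≤ 1 := by rw [div_le_one (by linarith)]; linarith
  linarith

/-- Theorem S (ii) -/
theorem short_new_soft (hA : 2 ≤ A) (hs : 2 - sexp A ≤ 1 / 50) (q : ℕ) [NeZero q] (hq : 2 ≤ q)
    (h : ZMod q × ZMod q → ℂ) (hh : IsNew q h) (hb : ∀ x, ‖h x‖ ≤ 1) (ρ : ℝ) (hρ : 0 < ρ) :
    ∃ m0 R0 : ℝ, 4 ≤ R0 ∧ ∀ m ≥ m0, ∀ L : ℝ, 0 < L → R0 ≤ m / L → (m / L) ^ 1500 ≤ m →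
    ‖∑ w ∈ wordsF A (2 * m), (win m L (F w) : ℂ) * h (vact q (mat w) (1, 0))‖ ≤
      ρ * m ^ (sexp A - 1) * L := by
  obtain ⟨C, hC, hcmp⟩ := short_compare (A := A) (by omega) hs
  set R0 : ℝ := max 4 (8 * C / ρ) with hR0
  have hR04 : 4 ≤ R0 := le_max_left _ _
  have hR0p : 0 < R0 := by linarith
  have hCR : C / R0 ≤ ρ / 8 := by
    have h1 : 8 * C / ρ ≤ R0 := le_max_right _ _
    rw [div_le_iff₀ hρ] at h1
    rw [div_le_div_iff₀ hR0p (by norm_num)]
    linarith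
  have hlim := window_new hA (bwin R0) (bwin_continuous R0)
    (fun u hu => shortS_bwin_supp hR04 hu) q hq h hh
  rw [Metric.tendsto_atTop] at hlim
  obtain ⟨m1, hm1⟩ := hlim (ρ / (16 * R0)) (by positivity)
  refine ⟨max m1 (max 1 ((q : ℝ) ^ 1500)), R0, hR04, ?_⟩
  intro m hm L hL hR hm2
  have hmm1 : m1 ≤ m := (le_max_left _ _).trans hm
  have hm1' : 1 ≤ m := ((le_max_left _ _).trans (le_max_right _ _)).trans hm
  have hmq : (q : ℝ) ^ 1500 ≤ m := ((le_max_right _ _).trans (le_max_right _ _)).trans hm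
  have hm0 : 0 < m := by linarith
  set R := m / L with hRdef
  have hRp : 0 < R := by linarith
  have hR4 : 4 ≤ R := by linarith
  have hLR : L = m / R := by rw [hRdef, div_div_cancel₀ hm0.ne']
  have hmax : (max (q : ℝ) R) ^ 1500 ≤ m := by
    rcases max_choice (q : ℝ) R with h1 | h1
    · rw [h1]
      exact hmq
    · rw [h1]
      exact hm2
  have hms : 0 < m ^ (sexp A) := Real.rpow_pos_of_pos hm0 _
  have h1 := hcmp q m R R0 hR04 hR hmax h hh hb
  obtain ⟨hb1, hb2, hb3⟩ := bhat_zero_bounds hR4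
  obtain ⟨hb4, hb5, hb6⟩ := bhat_zero_bounds hR04
  set b := (bhat R 0).re with hbdef
  set b0 := (bhat R0 0).re with hb0def
  have hbp : 0 < b := lt_of_lt_of_le (by positivity) hb2
  have hb0p : 0 < b0 := lt_of_lt_of_le (by positivity) hb5
  set S := ∑ w ∈ wordsF A (2 * m), (win m (m / R) (F w) : ℂ) * h (vact q (mat w) (1, 0)) with hS
  set S0 := ∑ w ∈ wordsF A (2 * m), (win m (m / R0) (F w) : ℂ) * h (vact q (mat w) (1, 0))
    with hS0
  have h2 : ‖S0‖ ≤ ρ / (16 * R0) * m ^ (sexp A) := by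
    have h3 := hm1 m hmm1
    rw [dist_zero_right, norm_div, Complex.norm_real, Real.norm_of_nonneg hms.le,
      div_lt_iff₀ hms, ← shortS_range hm0 hR04] at h3
    exact h3.le
  have h3 : ‖S / (b : ℂ)‖ ≤ C * m ^ (sexp A) / R0 + ‖S0‖ / b0 := by
    have h4 : ‖S0 / (b0 : ℂ)‖ = ‖S0‖ / b0 := by
      rw [norm_div, Complex.norm_real, Real.norm_of_nonneg hb0p.le]
    calc ‖S / (b : ℂ)‖ = ‖(S / (b : ℂ) - S0 / (b0 : ℂ)) + S0 / (b0 : ℂ)‖ := by
          congr 1; ring
      _ ≤ ‖S / (b : ℂ) - S0 / (b0 : ℂ)‖ + ‖S0 / (b0 : ℂ)‖ := norm_add_le _ _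
      _ ≤ _ := by rw [h4]; linarith
  have h4 : ‖S‖ = ‖S / (b : ℂ)‖ * b := by
    rw [norm_div, Complex.norm_real, Real.norm_of_nonneg hbp.le, div_mul_cancel₀ _ hbp.ne']
  have h5 : ‖S0‖ / b0 ≤ ρ / 8 * m ^ (sexp A) := by
    rw [div_le_iff₀ hb0p]
    calc ‖S0‖ ≤ ρ / (16 * R0) * m ^ (sexp A) := h2
      _ = ρ / 8 * m ^ (sexp A) * (1 / (2 * R0)) := by field_simp; ring
      _ ≤ ρ / 8 * m ^ (sexp A) * b0 := by gcongr
  have hmL : m ^ (sexp A - 1) * L = m ^ (sexp A) / R := by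
    rw [Real.rpow_sub_one hm0.ne', hRdef]
    field_simp
  rw [hLR, ← hS]
  rw [hLR] at hmL
  calc ‖S‖ = ‖S / (b : ℂ)‖ * b := h4
    _ ≤ (C * m ^ (sexp A) / R0 + ‖S0‖ / b0) * (2 / R) := by
        refine mul_le_mul h3 hb3 hbp.le ?_
        positivity
    _ ≤ (ρ / 8 * m ^ (sexp A) + ρ / 8 * m ^ (sexp A)) * (2 / R) := by
        refine mul_le_mul_of_nonneg_right (add_le_add ?_ h5) (by positivity)
        calc C * m ^ (sexp A) / R0 = C / R0 * m ^ (sexp A) := by ring
          _ ≤ ρ / 8 * m ^ (sexp A) := mul_le_mul_of_nonneg_right hCR hms.le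
    _ = ρ / 2 * (m ^ (sexp A) / R) := by ring
    _ ≤ ρ * (m ^ (sexp A) / R) := by
        refine mul_le_mul_of_nonneg_right (by linarith) (by positivity)
    _ = ρ * m ^ (sexp A - 1) * (m / R) := by rw [mul_assoc, hmL]

/-- Theorem S (iii) -/
theorem short_all_soft (hA : 2 ≤ A) (hs : 2 - sexp A ≤ 1 / 50) (ρ : ℝ) (hρ : 0 < ρ) :
    ∃ m0 R0 : ℝ, 4 ≤ R0 ∧ ∀ m ≥ m0, ∀ L : ℝ, 0 < L → R0 ≤ m / L → (m / L) ^ 1500 ≤ m →
    |(∑ w ∈ wordsF A (2 * m), win m L (F w)) - sexp A * c0 A * m ^ (sexp A - 1) * L| ≤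
      ρ * m ^ (sexp A - 1) * L := by
  obtain ⟨C, hC, hcmp⟩ := short_compare (A := A) (by omega) hs
  obtain ⟨C1, hC1, hwt⟩ := bwin_weighted (sexp A)
  set s := sexp A with hsdef
  have hs2 : s ≤ 2 := sexp_le_two (by omega)
  have hs0 : 0 < s := by linarith
  set c := c0 A with hc
  have hc0 : 0 < c := c0_pos A
  set K : ℝ := 2 * C + 14 * (c * C1) with hK
  have hK0 : 0 < K := by positivity
  set R0 : ℝ := max 4 (2 * K / ρ) with hR0
  have hR04 : 4 ≤ R0 := le_max_left _ _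
  have hR0p : 0 < R0 := by linarith
  have hKR : K / R0 ≤ ρ / 2 := by
    have h1 : 2 * K / ρ ≤ R0 := le_max_right _ _
    rw [div_le_iff₀ hρ] at h1
    rw [div_le_div_iff₀ hR0p (by norm_num)]
    linarith
  set J : ℝ := ∫ u in (-2 : ℝ)..2, bwin R0 u * (s * Real.exp (s * u)) with hJ
  have hlim := window_all hA (bwin R0) (bwin_continuous R0)
    (fun u hu => shortS_bwin_supp hR04 hu)
  rw [Metric.tendsto_atTop] at hlim
  obtain ⟨m1, hm1⟩ := hlim (ρ / (8 * R0)) (by positivity)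
  refine ⟨max m1 1, R0, hR04, ?_⟩
  intro m hm L hL hR hm2
  have hmm1 : m1 ≤ m := (le_max_left _ _).trans hm
  have hm1' : 1 ≤ m := (le_max_right _ _).trans hm
  have hm0 : 0 < m := by linarith
  set R := m / L with hRdef
  have hRp : 0 < R := by linarith
  have hR4 : 4 ≤ R := by linarith
  have hLR : L = m / R := by rw [hRdef, div_div_cancel₀ hm0.ne']
  have hmax : (max ((1 : ℕ) : ℝ) R) ^ 1500 ≤ m := by
    rw [Nat.cast_one, max_eq_right (by linarith)]
    exact hm2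
  have hms : 0 < m ^ s := Real.rpow_pos_of_pos hm0 _
  have hnew : IsNew 1 (fun _ : ZMod 1 × ZMod 1 => (1 : ℂ)) := by
    refine ⟨fun x hx => ?_, fun p hp hp1 => ?_⟩
    · exact absurd ⟨0, 0, Subsingleton.elim _ _⟩ hx
    · exact absurd (Nat.dvd_one.1 hp1) hp.one_lt.ne'
  have h1 := hcmp 1 m R R0 hR04 hR hmax _ hnew (fun _ => by simp)
  obtain ⟨hb1, hb2, hb3⟩ := bhat_zero_bounds hR4
  obtain ⟨hb4, hb5, hb6⟩ := bhat_zero_bounds hR04
  obtain ⟨-, hw2⟩ := hwt R hR4
  obtain ⟨hw3, hw4⟩ := hwt R0 hR04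
  set b := (bhat R 0).re with hbdef
  set b0 := (bhat R0 0).re with hb0def
  have hbp : 0 < b := lt_of_lt_of_le (by positivity) hb2
  have hb0p : 0 < b0 := lt_of_lt_of_le (by positivity) hb5
  set S : ℝ := ∑ w ∈ wordsF A (2 * m), win m (m / R) (F w) with hS
  set S0 : ℝ := ∑ w ∈ wordsF A (2 * m), win m (m / R0) (F w) with hS0
  have e1 : |S / b - S0 / b0| ≤ C * m ^ s / R0 := by
    have h2 : (∑ w ∈ wordsF A (2 * m), (win m (m / R) (F w) : ℂ) * 1) = (S : ℂ) := by
      rw [hS]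
      push_cast
      simp
    have h3 : (∑ w ∈ wordsF A (2 * m), (win m (m / R0) (F w) : ℂ) * 1) = (S0 : ℂ) := by
      rw [hS0]
      push_cast
      simp
    rw [h2, h3, ← Complex.ofReal_div, ← Complex.ofReal_div, ← Complex.ofReal_sub,
      Complex.norm_real, Real.norm_eq_abs] at h1
    exact h1
  have e2 : |S0 - c * J * m ^ s| ≤ ρ / (8 * R0) * m ^ s := by
    have h3 := hm1 m hmm1
    have h4 : (∑ w ∈ wordsF A (m * Real.exp 2), bwin R0 (Real.log (F w / m))) = S0 := by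
      have h5 := shortS_range (A := A) hm0 hR04 (fun _ => (1 : ℂ))
      simp only [mul_one] at h5
      rw [hS0]
      exact_mod_cast h5.symm
    rw [h4, Real.dist_eq] at h3
    have h6 : S0 - c * J * m ^ s = (S0 / m ^ s - c * J) * m ^ s := by
      field_simp
    rw [h6, abs_mul, abs_of_pos hms]
    exact mul_le_mul_of_nonneg_right h3.le hms.le
  have e3 : |J - s * b0| ≤ 3 * C1 / R0 ^ 2 := by
    have h2 : |s * (b0 - 1 / R0)| ≤ 2 * (C1 / R0 ^ 2) := by
      rw [abs_mul, abs_of_pos hs0]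
      exact mul_le_mul hs2 hw4 (abs_nonneg _) (by norm_num)
    calc |J - s * b0| = |(J - s / R0) - s * (b0 - 1 / R0)| := by congr 1; ring
      _ ≤ |J - s / R0| + |s * (b0 - 1 / R0)| := abs_sub _ _
      _ ≤ C1 / R0 ^ 2 + 2 * (C1 / R0 ^ 2) := add_le_add hw3 h2
      _ = 3 * C1 / R0 ^ 2 := by ring
  have e4 : |b - 1 / R| ≤ C1 / (R * R0) := by
    refine hw2.trans ?_
    apply div_le_div_of_nonneg_left hC1.le (by positivity)
    nlinarith
  have hbb : b / b0 ≤ 4 * R0 / R := by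
    rw [div_le_iff₀ hb0p]
    calc b ≤ 2 / R := hb3
      _ = 4 * R0 / R * (1 / (2 * R0)) := by field_simp; ring
      _ ≤ 4 * R0 / R * b0 := by gcongr
  have hbb0 : 0 < b / b0 := by positivity
  have hmL : m ^ (s - 1) * L = m ^ s / R := by
    rw [Real.rpow_sub_one hm0.ne', hRdef]
    field_simp
  have hid : S - s * c * (m ^ s / R) = b * (S / b - S0 / b0) + (b / b0) * (S0 - c * J * m ^ s) +
      (b / b0) * (c * m ^ s * (J - s * b0)) + s * c * m ^ s * (b - 1 / R) := by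
    field_simp
    ring
  have hgoal : |S - s * c * (m ^ s / R)| ≤ ρ * (m ^ s / R) := by
    rw [hid]
    have g1 : |b * (S / b - S0 / b0)| ≤ 2 / R * (C * m ^ s / R0) := by
      rw [abs_mul, abs_of_pos hbp]
      exact mul_le_mul hb3 e1 (abs_nonneg _) (by positivity)
    have g2 : |(b / b0) * (S0 - c * J * m ^ s)| ≤ 4 * R0 / R * (ρ / (8 * R0) * m ^ s) := by
      rw [abs_mul, abs_of_pos hbb0]
      exact mul_le_mul hbb e2 (abs_nonneg _) (by positivity)
    have g3 : |(b / b0) * (c * m ^ s * (J - s * b0))| ≤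
        4 * R0 / R * (c * m ^ s * (3 * C1 / R0 ^ 2)) := by
      rw [abs_mul, abs_of_pos hbb0, abs_mul, abs_of_pos (by positivity : 0 < c * m ^ s)]
      gcongr
    have g4 : |s * c * m ^ s * (b - 1 / R)| ≤ 2 * c * m ^ s * (C1 / (R * R0)) := by
      rw [abs_mul, abs_of_pos (by positivity : 0 < s * c * m ^ s)]
      gcongr
    have g5 : 2 / R * (C * m ^ s / R0) + 4 * R0 / R * (ρ / (8 * R0) * m ^ s) +
        4 * R0 / R * (c * m ^ s * (3 * C1 / R0 ^ 2)) + 2 * c * m ^ s * (C1 / (R * R0)) =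
        (K / R0 + ρ / 2) * (m ^ s / R) := by
      rw [hK]
      field_simp
      ring
    calc |b * (S / b - S0 / b0) + (b / b0) * (S0 - c * J * m ^ s) +
          (b / b0) * (c * m ^ s * (J - s * b0)) + s * c * m ^ s * (b - 1 / R)|
        ≤ |b * (S / b - S0 / b0)| + |(b / b0) * (S0 - c * J * m ^ s)| +
          |(b / b0) * (c * m ^ s * (J - s * b0))| + |s * c * m ^ s * (b - 1 / R)| := by
          refine (abs_add_le _ _).trans (add_le_add ?_ le_rfl)
          refine (abs_add_le _ _).trans (add_le_add ?_ le_rfl)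
          exact abs_add_le _ _
      _ ≤ (K / R0 + ρ / 2) * (m ^ s / R) := by rw [← g5]; linarith
      _ ≤ (ρ / 2 + ρ / 2) * (m ^ s / R) := by
          refine mul_le_mul_of_nonneg_right (by linarith) (by positivity)
      _ = ρ * (m ^ s / R) := by ring
  rw [mul_assoc (s * c), mul_assoc ρ, hmL, hLR, ← hS]
  exact hgoal

end Pool.Agent.W_f50700_h3
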