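import Pool.Agent.W_f50700_h3.CirA
import Pool.Agent.W_f50700_h3.NewDec

/-!
Sing: Ramanujan sums and the singular series (row 440, C4).
-/

open Filter Topology

namespace Pool.Agent.W_f50700_h3

/-- Ramanujan sum `c_q(n) = ∑_{g ∣ (q,n)} g μ(q/g)` -/
noncomputable def ram (q n : ℕ) : ℝ :=
  ∑ g ∈ Nat.divisors (Nat.gcd q n), (g : ℝ) * ((ArithmeticFunction.moebius (q / g) : ℤ) : ℝ)

theorem Sing_sum_dvd {q d : ℕ} (hd : d ∣ q) (hq : q ≠ 0) (g : ℕ → ℂ) :
    ∑ m ∈ Finset.range q, (if d ∣ m then g m else 0) = ∑ t ∈ Finset.range (q / d), g (d * t) := by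
  obtain ⟨c, rfl⟩ := hd
  have hd0 : 0 < d := Nat.pos_of_ne_zero (left_ne_zero_of_mul hq)
  rw [Nat.mul_div_cancel_left _ hd0, ← Finset.sum_filter]
  symm
  refine Finset.sum_bij (fun t _ => d * t) ?_ ?_ ?_ ?_
  · intro t ht
    rw [Finset.mem_filter, Finset.mem_range]
    exact ⟨Nat.mul_lt_mul_of_pos_left (Finset.mem_range.1 ht) hd0, dvd_mul_right _ _⟩
  · intro t _ t' _ h
    exact Nat.eq_of_mul_eq_mul_left hd0 h
  · intro m hm
    rw [Finset.mem_filter, Finset.mem_range] at hm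
    obtain ⟨h1, t, rfl⟩ := hm
    exact ⟨t, Finset.mem_range.2 (Nat.lt_of_mul_lt_mul_left h1), rfl⟩
  · intro t _
    rfl

theorem Sing_complete {c : ℕ} (hc : c ≠ 0) (z : ℤ) :
    ∑ t ∈ Finset.range c, NewDec_ch c (z * (t : ℤ)) = if (c : ℤ) ∣ z then (c : ℂ) else 0 := by
  by_cases h : (c : ℤ) ∣ z
  · rw [if_pos h, Finset.sum_congr rfl (g := fun _ => (1 : ℂ))]
    · simp
    · intro t _
      exact NewDec_ch_dvd hc (h.mul_right _)
  · rw [if_neg h]
    have hc1 : c ≠ 1 := by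
      rintro rfl
      exact h (by simp)
    exact NewDec_ch_geom (by omega) h

theorem Sing_ram_int {q : ℕ} (hq : q ≠ 0) (z : ℤ) :
    ∑ a ∈ (Finset.range q).filter (fun a => Nat.Coprime a q), NewDec_ch q (z * (a : ℤ)) =
      (ram q z.natAbs : ℂ) := by
  classical
  have h1 : ∀ a : ℕ, (if Nat.Coprime a q then NewDec_ch q (z * (a : ℤ)) else 0) =
      ∑ d ∈ Nat.divisors q, ((ArithmeticFunction.moebius d : ℤ) : ℂ) *
        (if d ∣ a then NewDec_ch q (z * (a : ℤ)) else 0) := by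
    intro a
    have hl : Nat.gcd a q ≠ 0 := fun h => hq (Nat.gcd_eq_zero_iff.1 h).2
    have h2 := NewDec_moebius _ hl
    have h3 : Nat.divisors (Nat.gcd a q) = (Nat.divisors q).filter (fun d => d ∣ a) := by
      ext d
      rw [Nat.mem_divisors, Finset.mem_filter, Nat.mem_divisors, Nat.dvd_gcd_iff]
      tauto
    rw [h3, Finset.sum_filter] at h2
    have h4 : (if Nat.Coprime a q then NewDec_ch q (z * (a : ℤ)) else 0) =
        NewDec_ch q (z * (a : ℤ)) * (if Nat.gcd a q = 1 then 1 else 0) := by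
      by_cases h : Nat.Coprime a q
      · rw [if_pos h, if_pos (Nat.coprime_iff_gcd_eq_one.1 h), mul_one]
      · rw [if_neg h, if_neg (fun h' => h (Nat.coprime_iff_gcd_eq_one.2 h')), mul_zero]
    rw [h4, ← h2, Finset.mul_sum]
    refine Finset.sum_congr rfl fun d _ => ?_
    by_cases ha : d ∣ a
    · rw [if_pos ha, if_pos ha]
      ring
    · rw [if_neg ha, if_neg ha]
      ring
  rw [Finset.sum_filter, Finset.sum_congr rfl (fun a _ => h1 a), Finset.sum_comm]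
  have h2 : ∀ d ∈ Nat.divisors q, ∑ a ∈ Finset.range q, ((ArithmeticFunction.moebius d : ℤ) : ℂ) *
      (if d ∣ a then NewDec_ch q (z * (a : ℤ)) else 0) =
      ((ArithmeticFunction.moebius d : ℤ) : ℂ) *
        (if ((q / d : ℕ) : ℤ) ∣ z then ((q / d : ℕ) : ℂ) else 0) := by
    intro d hd
    have hdq := (Nat.mem_divisors.1 hd).1
    rw [← Finset.mul_sum, Sing_sum_dvd hdq hq (fun a => NewDec_ch q (z * (a : ℤ)))]
    congr 1
    have h5 : q / d ≠ 0 := by
      have := Nat.div_pos (Nat.le_of_dvd (Nat.pos_of_ne_zero hq) hdq) (Nat.pos_of_mem_divisors hd)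
      omega
    rw [← Sing_complete h5 z]
    refine Finset.sum_congr rfl fun t _ => ?_
    have h6 := NewDec_ch_scale hq hdq (z * (t : ℤ))
    rw [← h6]
    congr 1
    push_cast
    ring
  rw [Finset.sum_congr rfl h2,
    ← Nat.sum_div_divisors q (fun d => ((ArithmeticFunction.moebius d : ℤ) : ℂ) *
        (if ((q / d : ℕ) : ℤ) ∣ z then ((q / d : ℕ) : ℂ) else 0))]
  unfold ram
  have h7 : Nat.divisors (Nat.gcd q z.natAbs) = (Nat.divisors q).filter (fun g => g ∣ z.natAbs) := by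
    ext g
    rw [Nat.mem_divisors, Finset.mem_filter, Nat.mem_divisors, Nat.dvd_gcd_iff]
    constructor
    · rintro ⟨⟨h2, h3⟩, h4⟩
      exact ⟨⟨h2, hq⟩, h3⟩
    · rintro ⟨⟨h2, h3⟩, h4⟩
      exact ⟨⟨h2, h4⟩, (Nat.gcd_pos_of_pos_left _ (Nat.pos_of_ne_zero hq)).ne'⟩
  rw [h7, Finset.sum_filter, Complex.ofReal_sum]
  refine Finset.sum_congr rfl fun g hg => ?_
  have hgq := (Nat.mem_divisors.1 hg).1
  have h8 := Nat.div_div_self hgq hq
  simp only [h8]
  by_cases h : g ∣ z.natAbs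
  · rw [if_pos h, if_pos (Int.natCast_dvd.2 h)]
    push_cast
    ring
  · rw [if_neg h, if_neg (fun h' => h (Int.natCast_dvd.1 h'))]
    simp

/-- `c_q(n)` as an exponential sum -/
theorem ram_eq (q n : ℕ) (hq : 1 ≤ q) :
    ∑ a ∈ (Finset.range q).filter (fun a => Nat.Coprime a q), e ((a : ℝ) * n / q) =
      (ram q n : ℂ) := by
  have h := Sing_ram_int (q := q) (by omega) (n : ℤ)
  rw [Int.natAbs_natCast] at h
  rw [← h]
  refine Finset.sum_congr rfl fun a _ => ?_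
  unfold NewDec_ch
  congr 1
  push_cast
  ring

/-- same with the opposite sign -/
theorem ram_eq_neg (q n : ℕ) (hq : 1 ≤ q) :
    ∑ a ∈ (Finset.range q).filter (fun a => Nat.Coprime a q), e (-((a : ℝ) * n / q)) =
      (ram q n : ℂ) := by
  have h := Sing_ram_int (q := q) (by omega) (-(n : ℤ))
  rw [Int.natAbs_neg, Int.natAbs_natCast] at h
  rw [← h]
  refine Finset.sum_congr rfl fun a _ => ?_
  unfold NewDec_ch
  congr 1
  push_cast
  ring

/-- the arithmetic function `g ↦ g` for `g ∣ n` -/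
noncomputable def Sing_F (n : ℕ) : ArithmeticFunction ℝ :=
  ⟨fun g => if g ∣ n then (g : ℝ) else 0, by simp⟩

theorem Sing_F_apply (n g : ℕ) : Sing_F n g = if g ∣ n then (g : ℝ) else 0 := rfl

theorem Sing_F_mult (n : ℕ) : (Sing_F n).IsMultiplicative := by
  constructor
  · simp [Sing_F_apply]
  · intro a b hab
    rw [Sing_F_apply, Sing_F_apply, Sing_F_apply]
    by_cases ha : a ∣ n <;> by_cases hb : b ∣ n
    · rw [if_pos ha, if_pos hb, if_pos (hab.mul_dvd_of_dvd_of_dvd ha hb)]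
      push_cast
      ring
    · rw [if_neg hb, if_neg (fun h => hb ((Dvd.intro_left a rfl).trans h)), mul_zero]
    · rw [if_neg ha, if_neg (fun h => ha ((Dvd.intro b rfl).trans h)), zero_mul]
    · rw [if_neg ha, if_neg (fun h => ha ((Dvd.intro b rfl).trans h)), zero_mul]

theorem Sing_ram_eq (n q : ℕ) :
    (Sing_F n * (ArithmeticFunction.moebius : ArithmeticFunction ℝ)) q = ram q n := by
  classical
  rcases Nat.eq_zero_or_pos q with h0 | h0
  · subst h0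
    unfold ram
    rw [ArithmeticFunction.map_zero, Finset.sum_eq_zero]
    intro g _
    simp
  · rw [ArithmeticFunction.mul_apply,
      Nat.sum_divisorsAntidiagonal (f := fun x y => Sing_F n x *
        (ArithmeticFunction.moebius : ArithmeticFunction ℝ) y)]
    unfold ram
    have h1 : Nat.divisors (Nat.gcd q n) = (Nat.divisors q).filter (fun g => g ∣ n) := by
      ext g
      rw [Nat.mem_divisors, Finset.mem_filter, Nat.mem_divisors, Nat.dvd_gcd_iff]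
      constructor
      · rintro ⟨⟨h2, h3⟩, h4⟩
        exact ⟨⟨h2, by omega⟩, h3⟩
      · rintro ⟨⟨h2, h3⟩, h4⟩
        exact ⟨⟨h2, h4⟩, (Nat.gcd_pos_of_pos_left n h0).ne'⟩
    rw [h1, Finset.sum_filter]
    refine Finset.sum_congr rfl fun g _ => ?_
    rw [Sing_F_apply]
    by_cases hg : g ∣ n
    · rw [if_pos hg, if_pos hg]
      simp
    · rw [if_neg hg, if_neg hg, zero_mul]

theorem Sing_ram_one (n : ℕ) : ram 1 n = 1 := by
  rw [← Sing_ram_eq]
  exact ((Sing_F_mult n).mul ArithmeticFunction.isMultiplicative_moebius.intCast).map_one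

theorem Sing_ram_mul (n : ℕ) {a b : ℕ} (h : Nat.Coprime a b) :
    ram (a * b) n = ram a n * ram b n := by
  rw [← Sing_ram_eq, ← Sing_ram_eq, ← Sing_ram_eq]
  exact ((Sing_F_mult n).mul ArithmeticFunction.isMultiplicative_moebius.intCast).map_mul_of_coprime
    h

theorem Sing_ram_prime {p : ℕ} (hp : p.Prime) (n : ℕ) :
    ram p n = if p ∣ n then (p : ℝ) - 1 else -1 := by
  unfold ram
  by_cases h : p ∣ n
  · rw [if_pos h, Nat.gcd_eq_left h, hp.divisors, Finset.sum_pair hp.one_lt.ne]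
    rw [Nat.div_one, Nat.div_self hp.pos, ArithmeticFunction.moebius_apply_prime hp]
    simp
    ring
  · rw [if_neg h, (Nat.coprime_iff_gcd_eq_one.1 ((Nat.Prime.coprime_iff_not_dvd hp).2 h)),
      Nat.divisors_one, Finset.sum_singleton, Nat.div_one,
      ArithmeticFunction.moebius_apply_prime hp]
    simp

theorem abs_ram_le {q n : ℕ} (hq : 1 ≤ q) (hsq : Squarefree q) :
    |ram q n| ≤ Nat.gcd q n := by
  classical
  have hm := (Sing_F_mult n).mul
    (ArithmeticFunction.isMultiplicative_moebius.intCast (R := ℝ))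
  have h1 := hm.map_prod_of_subset_primeFactors q q.primeFactors subset_rfl
  rw [Nat.prod_primeFactors_of_squarefree hsq, Sing_ram_eq] at h1
  rw [h1, Finset.abs_prod]
  have h2 : ∏ p ∈ q.primeFactors, |(Sing_F n *
      (ArithmeticFunction.moebius : ArithmeticFunction ℝ)) p| ≤
      ∏ p ∈ q.primeFactors, (if p ∣ n then (p : ℝ) else 1) := by
    refine Finset.prod_le_prod (fun _ _ => abs_nonneg _) fun p hp => ?_
    have hpp := Nat.prime_of_mem_primeFactors hp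
    rw [Sing_ram_eq, Sing_ram_prime hpp]
    have h3 : (1 : ℝ) ≤ p := by exact_mod_cast hpp.one_lt.le
    by_cases h : p ∣ n
    · rw [if_pos h, if_pos h, abs_of_nonneg (by linarith)]
      linarith
    · rw [if_neg h, if_neg h]
      simp
  refine h2.trans ?_
  rw [← Finset.prod_filter]
  have h4 : (q.primeFactors.filter fun p => p ∣ n) = (Nat.gcd q n).primeFactors := by
    ext p
    rw [Finset.mem_filter, Nat.mem_primeFactors, Nat.mem_primeFactors, Nat.dvd_gcd_iff]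
    constructor
    · rintro ⟨⟨h5, h6, h7⟩, h8⟩
      exact ⟨h5, ⟨h6, h8⟩, (Nat.gcd_pos_of_pos_left n hq).ne'⟩
    · rintro ⟨h5, ⟨h6, h8⟩, h7⟩
      exact ⟨⟨h5, h6, by omega⟩, h8⟩
  rw [h4]
  have h5 : ∏ p ∈ (Nat.gcd q n).primeFactors, (p : ℝ) =
      ((∏ p ∈ (Nat.gcd q n).primeFactors, p : ℕ) : ℝ) := by push_cast; rfl
  rw [h5]
  exact_mod_cast Nat.le_of_dvd (Nat.gcd_pos_of_pos_left n hq) (Nat.prod_primeFactors_dvd _)

/-- truncated singular series -/
noncomputable def sing (Q0 n : ℕ) : ℝ :=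
  ∑ q ∈ Finset.Icc 1 Q0, ((ArithmeticFunction.moebius q : ℤ) : ℝ) / psi2 q * ram q n

/-- the full singular series `ζ(2) ∏_{p ∣ n} (1 - 1/p)` -/
noncomputable def singFull (n : ℕ) : ℝ :=
  Real.pi ^ 2 / 6 * ∏ p ∈ n.primeFactors, (1 - 1 / (p : ℝ))

/-- the terms of the singular series -/
noncomputable def Sing_f (n q : ℕ) : ℝ :=
  ((ArithmeticFunction.moebius q : ℤ) : ℝ) / psi2 q * ram q n

theorem Sing_f_bound {q n : ℕ} (hq : 1 ≤ q) :
    |Sing_f n q| ≤ 2 * (Nat.gcd q n : ℝ) * ((q : ℝ) ^ 2)⁻¹ := by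
  have hq0 : (0 : ℝ) < q := by exact_mod_cast hq
  unfold Sing_f
  by_cases h : Squarefree q
  · rw [abs_mul, abs_div, abs_of_pos (psi2_pos q)]
    have h1 := abs_ram_le (n := n) hq h
    have h2 := psi2_lower h
    have h3 : |((ArithmeticFunction.moebius q : ℤ) : ℝ)| ≤ 1 := by
      rw [← Int.cast_abs]
      exact_mod_cast ArithmeticFunction.abs_moebius_le_one
    have h4 : |((ArithmeticFunction.moebius q : ℤ) : ℝ)| / psi2 q ≤ 2 * ((q : ℝ) ^ 2)⁻¹ := by
      calc _ ≤ 1 / ((q : ℝ) ^ 2 / 2) :=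
            div_le_div₀ zero_le_one h3 (by positivity) h2
        _ = 2 * ((q : ℝ) ^ 2)⁻¹ := by
            field_simp
    calc _ ≤ (2 * ((q : ℝ) ^ 2)⁻¹) * (Nat.gcd q n : ℝ) :=
          mul_le_mul h4 h1 (abs_nonneg _) (by positivity)
      _ = _ := by ring
  · rw [ArithmeticFunction.moebius_eq_zero_of_not_squarefree h]
    simp
    positivity

theorem Sing_summable {n : ℕ} (hn : 1 ≤ n) : Summable (fun q => ‖Sing_f n q‖) := by
  have h1 : Summable (fun q : ℕ => (2 * (n : ℝ)) * ((q : ℝ) ^ 2)⁻¹) :=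
    (Real.summable_nat_pow_inv.2 (by norm_num)).mul_left _
  refine Summable.of_nonneg_of_le (fun q => norm_nonneg _) (fun q => ?_) h1
  rcases Nat.eq_zero_or_pos q with h0 | h0
  · subst h0
    unfold Sing_f
    simp
  · rw [Real.norm_eq_abs]
    refine (Sing_f_bound h0).trans ?_
    have : (Nat.gcd q n : ℝ) ≤ n := by exact_mod_cast Nat.gcd_le_right q hn
    gcongr

theorem Sing_f_prime_pow {p : ℕ} (hp : p.Prime) (n : ℕ) :
    ∑' e : ℕ, Sing_f n (p ^ e) = (1 - ((p : ℝ) ^ 2)⁻¹)⁻¹ * (if p ∣ n then (1 - 1 / (p : ℝ)) else 1) := by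
  have h1 : ∑' e : ℕ, Sing_f n (p ^ e) = ∑ e ∈ Finset.range 2, Sing_f n (p ^ e) := by
    refine tsum_eq_sum fun e he => ?_
    have he2 : 2 ≤ e := by
      rw [Finset.mem_range] at he
      omega
    unfold Sing_f
    rw [ArithmeticFunction.moebius_apply_prime_pow hp (by omega), if_neg (by omega)]
    simp
  have hp2 : (2 : ℝ) ≤ p := by exact_mod_cast hp.two_le
  rw [h1, Finset.sum_range_succ, Finset.sum_range_one, pow_zero, pow_one]
  have h2 : Sing_f n 1 = 1 := by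
    unfold Sing_f
    rw [Sing_ram_one]
    unfold psi2
    simp
  have h3 : Sing_f n p = -1 / ((p : ℝ) ^ 2 - 1) * (if p ∣ n then (p : ℝ) - 1 else -1) := by
    unfold Sing_f
    rw [Sing_ram_prime hp, ArithmeticFunction.moebius_apply_prime hp]
    unfold psi2
    rw [hp.primeFactors, Finset.prod_singleton]
    simp
  rw [h2, h3]
  have h4 : (p : ℝ) ^ 2 - 1 ≠ 0 := by nlinarith
  have h5 : (p : ℝ) ≠ 0 := by linarith
  have h6 : (1 - ((p : ℝ) ^ 2)⁻¹)⁻¹ = (p : ℝ) ^ 2 / ((p : ℝ) ^ 2 - 1) := by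
    field_simp
  rw [h6]
  by_cases h : p ∣ n
  · rw [if_pos h, if_pos h]
    field_simp
    ring
  · rw [if_neg h, if_neg h]
    field_simp
    ring

theorem Sing_tsum {n : ℕ} (hn : 1 ≤ n) : ∑' q, Sing_f n q = singFull n := by
  classical
  have h1 : HasProd (fun p : Nat.Primes => ∑' e : ℕ, Sing_f n ((p : ℕ) ^ e)) (∑' q, Sing_f n q) := by
    refine EulerProduct.eulerProduct_hasProd ?_ ?_ (Sing_summable hn) ?_
    · unfold Sing_f
      rw [Sing_ram_one]
      unfold psi2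
      simp
    · intro a b hab
      unfold Sing_f
      rw [Sing_ram_mul n hab, NewDec_psi2_mul hab,
        ArithmeticFunction.isMultiplicative_moebius.map_mul_of_coprime hab]
      push_cast
      have := psi2_pos a
      have := psi2_pos b
      field_simp
    · unfold Sing_f
      simp
  let F : ℕ →*₀ ℝ :=
    { toFun := fun k => ((k : ℝ) ^ 2)⁻¹
      map_zero' := by simp
      map_one' := by simp
      map_mul' := fun a b => by push_cast; rw [mul_pow, mul_inv] }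
  have h2 : HasProd (fun p : Nat.Primes => (1 - F p)⁻¹) (∑' k, F k) := by
    refine EulerProduct.eulerProduct_completely_multiplicative_hasProd ?_
    have : Summable (fun k : ℕ => ((k : ℝ) ^ 2)⁻¹) := Real.summable_nat_pow_inv.2 (by norm_num)
    exact this.norm
  have h3 : ∑' k, F k = Real.pi ^ 2 / 6 := by
    have := hasSum_zeta_two.tsum_eq
    rw [← this]
    refine tsum_congr fun k => ?_
    show ((k : ℝ) ^ 2)⁻¹ = _
    rw [one_div]
  rw [h3] at h2
  have h4 : HasProd (fun p : Nat.Primes => if (p : ℕ) ∣ n then (1 - 1 / ((p : ℕ) : ℝ)) else 1)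
      (∏ p ∈ n.primeFactors, (1 - 1 / (p : ℝ))) := by
    have h5 := hasProd_prod_of_ne_finset_one
      (f := fun p : Nat.Primes => if (p : ℕ) ∣ n then (1 - 1 / ((p : ℕ) : ℝ)) else 1)
      (s := n.primeFactors.subtype Nat.Prime) (L := SummationFilter.unconditional _) (by
        intro p hp
        rw [if_neg]
        intro h
        exact hp (Finset.mem_subtype.2 (Nat.mem_primeFactors.2 ⟨p.2, h, by omega⟩)))
    have h6 : ∏ p ∈ n.primeFactors.subtype Nat.Prime,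
        (if (p : ℕ) ∣ n then (1 - 1 / ((p : ℕ) : ℝ)) else 1) =
        ∏ p ∈ n.primeFactors, (1 - 1 / (p : ℝ)) := by
      rw [Finset.prod_subtype_of_mem (fun p : ℕ => if p ∣ n then (1 - 1 / (p : ℝ)) else 1)
        (fun p hp => Nat.prime_of_mem_primeFactors hp)]
      refine Finset.prod_congr rfl fun p hp => ?_
      rw [if_pos (Nat.dvd_of_mem_primeFactors hp)]
    rw [← h6]
    exact h5
  have h5 := h2.mul h4
  refine h1.unique ?_
  unfold singFull
  convert h5 using 1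
  funext p
  exact Sing_f_prime_pow p.2 n

theorem Sing_inner {g Q0 K : ℕ} (hg : 1 ≤ g) (hQ : 1 ≤ Q0) :
    (g : ℝ) * ∑ q ∈ (Finset.Ioc Q0 K).filter (fun q => g ∣ q), ((q : ℝ) ^ 2)⁻¹ ≤
      2 * min (1 / (g : ℝ)) (1 / (Q0 : ℝ)) := by
  classical
  have hg0 : (0 : ℝ) < g := by exact_mod_cast hg
  have hQ0 : (0 : ℝ) < Q0 := by exact_mod_cast hQ
  have h1 : ∑ q ∈ (Finset.Ioc Q0 K).filter (fun q => g ∣ q), ((q : ℝ) ^ 2)⁻¹ ≤
      ∑ m ∈ Finset.Ioo (Q0 / g) (K + 1), (((g * m : ℕ) : ℝ) ^ 2)⁻¹ := by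
    rw [← Finset.sum_image (f := fun q : ℕ => ((q : ℝ) ^ 2)⁻¹) (g := fun m => g * m)
      (s := Finset.Ioo (Q0 / g) (K + 1)) (by
        intro a _ b _ hab
        exact Nat.eq_of_mul_eq_mul_left hg hab)]
    refine Finset.sum_le_sum_of_subset_of_nonneg ?_ fun _ _ _ => by positivity
    intro q hq
    rw [Finset.mem_filter, Finset.mem_Ioc] at hq
    obtain ⟨⟨h2, h3⟩, m, rfl⟩ := hq
    rw [Finset.mem_image]
    refine ⟨m, ?_, rfl⟩
    rw [Finset.mem_Ioo]
    constructor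
    · rw [Nat.div_lt_iff_lt_mul hg, mul_comm]
      exact h2
    · have : m ≤ g * m := Nat.le_mul_of_pos_left m hg
      omega
  have h2 : ∑ m ∈ Finset.Ioo (Q0 / g) (K + 1), (((g * m : ℕ) : ℝ) ^ 2)⁻¹ ≤
      ((g : ℝ) ^ 2)⁻¹ * (2 / (((Q0 / g : ℕ) : ℝ) + 1)) := by
    have h3 : ∀ m ∈ Finset.Ioo (Q0 / g) (K + 1), (((g * m : ℕ) : ℝ) ^ 2)⁻¹ =
        ((g : ℝ) ^ 2)⁻¹ * ((m : ℝ) ^ 2)⁻¹ := by
      intro m _
      push_cast
      rw [mul_pow, mul_inv]
    rw [Finset.sum_congr rfl h3, ← Finset.mul_sum]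
    exact mul_le_mul_of_nonneg_left (sum_Ioo_inv_sq_le (α := ℝ) (Q0 / g) (K + 1)) (by positivity)
  have h3 : (g : ℝ) * ∑ q ∈ (Finset.Ioc Q0 K).filter (fun q => g ∣ q), ((q : ℝ) ^ 2)⁻¹ ≤
      1 / g * (2 / (((Q0 / g : ℕ) : ℝ) + 1)) := by
    calc _ ≤ (g : ℝ) * (((g : ℝ) ^ 2)⁻¹ * (2 / (((Q0 / g : ℕ) : ℝ) + 1))) :=
          mul_le_mul_of_nonneg_left (h1.trans h2) hg0.le
      _ = _ := by field_simp
  refine h3.trans ?_
  have h4 : (0 : ℝ) ≤ ((Q0 / g : ℕ) : ℝ) := Nat.cast_nonneg _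
  rw [mul_min_of_nonneg _ _ (by norm_num : (0 : ℝ) ≤ 2)]
  refine le_min ?_ ?_
  · have : 2 / (((Q0 / g : ℕ) : ℝ) + 1) ≤ 2 := div_le_self (by norm_num) (by linarith)
    calc 1 / (g : ℝ) * (2 / (((Q0 / g : ℕ) : ℝ) + 1)) ≤ 1 / (g : ℝ) * 2 :=
          mul_le_mul_of_nonneg_left this (by positivity)
      _ = 2 * (1 / (g : ℝ)) := by ring
  · have h5 : (Q0 : ℝ) ≤ g * (((Q0 / g : ℕ) : ℝ) + 1) := by
      have : Q0 < g * (Q0 / g + 1) := by
        have := Nat.lt_mul_div_succ Q0 hg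
        exact this
      exact_mod_cast this.le
    calc 1 / (g : ℝ) * (2 / (((Q0 / g : ℕ) : ℝ) + 1)) = 2 / (g * (((Q0 / g : ℕ) : ℝ) + 1)) := by
          field_simp
      _ ≤ 2 / Q0 := div_le_div_of_nonneg_left (by norm_num) hQ0 h5
      _ = 2 * (1 / (Q0 : ℝ)) := by ring

/-- tail bound, pointwise: `|sing Q0 n - singFull n| ≤ C ∑_{g ∣ n} min(1/g, 1/Q0)`. -/
theorem sing_tail : ∃ C : ℝ, 0 < C ∧ ∀ Q0 n : ℕ, 1 ≤ Q0 → 1 ≤ n →
    |sing Q0 n - singFull n| ≤ C * ∑ g ∈ Nat.divisors n, min (1 / (g : ℝ)) (1 / (Q0 : ℝ)) := by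
  classical
  refine ⟨4, by norm_num, fun Q0 n hQ hn => ?_⟩
  set B : ℝ := 4 * ∑ g ∈ Nat.divisors n, min (1 / (g : ℝ)) (1 / (Q0 : ℝ)) with hB
  have hlim : Tendsto (fun K : ℕ => sing K n) atTop (𝓝 (singFull n)) := by
    have h1 : HasSum (Sing_f n) (singFull n) := by
      rw [← Sing_tsum hn]
      exact (Sing_summable hn).of_norm.hasSum
    have h2 := (tendsto_add_atTop_iff_nat 1).2 h1.tendsto_sum_nat
    refine h2.congr fun K => ?_
    unfold sing
    rw [Finset.range_eq_Ico, Finset.sum_eq_sum_Ico_succ_bot (by omega)]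
    have h0 : Sing_f n 0 = 0 := by
      unfold Sing_f
      simp
    rw [h0, zero_add]
    refine Finset.sum_congr ?_ fun q _ => rfl
    ext q
    simp only [Finset.mem_Ico, Finset.mem_Icc]
    omega
  have hK : ∀ K ≥ Q0, |sing Q0 n - sing K n| ≤ B := by
    intro K hK
    have h1 : sing K n - sing Q0 n = ∑ q ∈ Finset.Ioc Q0 K, Sing_f n q := by
      unfold sing
      have h2 : Finset.Icc 1 K = Finset.Icc 1 Q0 ∪ Finset.Ioc Q0 K := by
        ext q
        simp only [Finset.mem_Icc, Finset.mem_union, Finset.mem_Ioc]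
        omega
      rw [h2, Finset.sum_union (by
        rw [Finset.disjoint_left]
        intro q
        simp only [Finset.mem_Icc, Finset.mem_Ioc]
        omega)]
      rw [add_sub_cancel_left]
      rfl
    rw [abs_sub_comm, h1]
    refine (Finset.abs_sum_le_sum_abs _ _).trans ?_
    have h2 : ∀ q ∈ Finset.Ioc Q0 K, |Sing_f n q| ≤
        ∑ g ∈ Nat.divisors n, (if g ∣ q then 2 * ((g : ℝ) * ((q : ℝ) ^ 2)⁻¹) else 0) := by
      intro q hq
      have hq1 : 1 ≤ q := by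
        have := (Finset.mem_Ioc.1 hq).1
        omega
      refine (Sing_f_bound hq1).trans ?_
      have h3 : Nat.gcd q n ∈ Nat.divisors n := Nat.mem_divisors.2 ⟨Nat.gcd_dvd_right q n, by omega⟩
      have h4 := Finset.single_le_sum (f := fun g : ℕ => if g ∣ q then 2 * ((g : ℝ) * ((q : ℝ) ^ 2)⁻¹)
        else 0) (fun g _ => by
          show (0 : ℝ) ≤ if g ∣ q then 2 * ((g : ℝ) * ((q : ℝ) ^ 2)⁻¹) else 0
          split_ifs
          · positivity
          · exact le_rfl) h3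
      refine le_trans (le_of_eq ?_) h4
      rw [if_pos (Nat.gcd_dvd_left q n)]
      ring
    refine (Finset.sum_le_sum h2).trans ?_
    rw [Finset.sum_comm, hB, Finset.mul_sum]
    refine Finset.sum_le_sum fun g hg => ?_
    have hg1 : 1 ≤ g := Nat.pos_of_mem_divisors hg
    rw [← Finset.sum_filter]
    have h5 := Sing_inner (K := K) hg1 hQ
    rw [Finset.mul_sum] at h5
    calc ∑ q ∈ (Finset.Ioc Q0 K).filter (fun q => g ∣ q), 2 * ((g : ℝ) * ((q : ℝ) ^ 2)⁻¹)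
        = 2 * ∑ q ∈ (Finset.Ioc Q0 K).filter (fun q => g ∣ q), (g : ℝ) * ((q : ℝ) ^ 2)⁻¹ := by
          rw [Finset.mul_sum]
      _ ≤ 2 * (2 * min (1 / (g : ℝ)) (1 / (Q0 : ℝ))) :=
          mul_le_mul_of_nonneg_left h5 (by norm_num)
      _ = _ := by ring
  have hlim2 : Tendsto (fun K : ℕ => |sing Q0 n - sing K n|) atTop
      (𝓝 |sing Q0 n - singFull n|) := (tendsto_const_nhds.sub hlim).abs
  exact le_of_tendsto hlim2 (eventually_atTop.2 ⟨Q0, hK⟩)

theorem Sing_factor {p : ℕ} (hp : 2 ≤ p) : 0 < 1 - 1 / (p : ℝ) ∧ 1 - 1 / (p : ℝ) ≤ 1 := by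
  have h : (2 : ℝ) ≤ p := by exact_mod_cast hp
  have h1 : 1 / (p : ℝ) ≤ 1 / 2 := one_div_le_one_div_of_le (by norm_num) h
  have h2 : 0 < 1 / (p : ℝ) := by positivity
  constructor <;> linarith

theorem singFull_pos {n : ℕ} (hn : 1 ≤ n) : 0 < singFull n := by
  unfold singFull
  refine mul_pos (by positivity) (Finset.prod_pos fun p hp => ?_)
  exact (Sing_factor (Nat.prime_of_mem_primeFactors hp).two_le).1

theorem singFull_le (n : ℕ) : singFull n ≤ 2 := by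
  unfold singFull
  have h1 : ∏ p ∈ n.primeFactors, (1 - 1 / (p : ℝ)) ≤ 1 := by
    refine Finset.prod_le_one (fun p hp => ?_) (fun p hp => ?_)
    · exact (Sing_factor (Nat.prime_of_mem_primeFactors hp).two_le).1.le
    · exact (Sing_factor (Nat.prime_of_mem_primeFactors hp).two_le).2
  have h2 : Real.pi ^ 2 / 6 ≤ 2 := by
    have h3 := Real.pi_lt_d2
    have h4 := Real.pi_pos
    nlinarith
  have h3 : 0 ≤ Real.pi ^ 2 / 6 := by positivity
  calc _ ≤ Real.pi ^ 2 / 6 * 1 := mul_le_mul_of_nonneg_left h1 h3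
    _ ≤ 2 := by linarith

/-- second moment of a divisor sum -/
theorem Sing_sq_div_sum (f : ℕ → ℝ) (hf : ∀ g, 0 ≤ f g) (N : ℕ) :
    ∑ n ∈ Finset.Icc 1 N, (∑ g ∈ n.divisors, f g) ^ 2 ≤
      N * (∑ g ∈ Finset.Icc 1 N, f g / √g) ^ 2 := by
  classical
  have h1 : ∀ n ∈ Finset.Icc 1 N, (∑ g ∈ n.divisors, f g) ^ 2 =
      ∑ g ∈ Finset.Icc 1 N, ∑ h ∈ Finset.Icc 1 N,
        (if g ∣ n ∧ h ∣ n then f g * f h else 0) := by
    intro n hn
    have hn' := Finset.mem_Icc.1 hn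
    have h2 : n.divisors = (Finset.Icc 1 N).filter (fun g => g ∣ n) := by
      ext g
      rw [Nat.mem_divisors, Finset.mem_filter, Finset.mem_Icc]
      constructor
      · rintro ⟨h3, h4⟩
        have := Nat.le_of_dvd (by omega) h3
        have := Nat.pos_of_dvd_of_pos h3 (by omega)
        exact ⟨⟨by omega, by omega⟩, h3⟩
      · rintro ⟨_, h3⟩
        exact ⟨h3, by omega⟩
    rw [h2, Finset.sum_filter, sq, Finset.sum_mul_sum]
    refine Finset.sum_congr rfl fun g _ => Finset.sum_congr rfl fun h _ => ?_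
    by_cases hg : g ∣ n <;> by_cases hh : h ∣ n <;> simp [hg, hh]
  rw [Finset.sum_congr rfl h1, Finset.sum_comm]
  have h3 : ∀ g ∈ Finset.Icc 1 N, ∑ n ∈ Finset.Icc 1 N, ∑ h ∈ Finset.Icc 1 N,
      (if g ∣ n ∧ h ∣ n then f g * f h else 0) ≤
      ∑ h ∈ Finset.Icc 1 N, N * ((f g / √g) * (f h / √h)) := by
    intro g hg
    rw [Finset.sum_comm]
    refine Finset.sum_le_sum fun h hh => ?_
    have hg' := Finset.mem_Icc.1 hg
    have hh' := Finset.mem_Icc.1 hh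
    rw [← Finset.sum_filter, Finset.sum_const, nsmul_eq_mul]
    have h4 : ((Finset.Icc 1 N).filter (fun n => g ∣ n ∧ h ∣ n)).card = N / Nat.lcm g h := by
      rw [← Nat.Ioc_filter_dvd_card_eq_div]
      congr 1
      ext n
      rw [Finset.mem_filter, Finset.mem_filter, Finset.mem_Icc, Finset.mem_Ioc, Nat.lcm_dvd_iff]
      constructor
      · rintro ⟨h5, h6⟩
        exact ⟨⟨by omega, by omega⟩, h6⟩
      · rintro ⟨h5, h6⟩
        exact ⟨⟨by omega, by omega⟩, h6⟩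
    rw [h4]
    have hgr : (0 : ℝ) < g := by exact_mod_cast hg'.1
    have hhr : (0 : ℝ) < h := by exact_mod_cast hh'.1
    have hl : √(g : ℝ) * √(h : ℝ) ≤ (Nat.lcm g h : ℝ) := by
      have hlg : (g : ℝ) ≤ (Nat.lcm g h : ℝ) := by
        exact_mod_cast Nat.le_of_dvd (Nat.lcm_pos hg'.1 hh'.1) (Nat.dvd_lcm_left g h)
      have hlh : (h : ℝ) ≤ (Nat.lcm g h : ℝ) := by
        exact_mod_cast Nat.le_of_dvd (Nat.lcm_pos hg'.1 hh'.1) (Nat.dvd_lcm_right g h)
      have hl0 : (0 : ℝ) ≤ (Nat.lcm g h : ℝ) := Nat.cast_nonneg _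
      calc √(g : ℝ) * √(h : ℝ) ≤ √(Nat.lcm g h : ℝ) * √(Nat.lcm g h : ℝ) :=
            mul_le_mul (Real.sqrt_le_sqrt hlg) (Real.sqrt_le_sqrt hlh) (Real.sqrt_nonneg _)
              (Real.sqrt_nonneg _)
        _ = (Nat.lcm g h : ℝ) := Real.mul_self_sqrt hl0
    have h5 : ((N / Nat.lcm g h : ℕ) : ℝ) ≤ N / (√(g : ℝ) * √(h : ℝ)) := by
      refine Nat.cast_div_le.trans ?_
      exact div_le_div_of_nonneg_left (Nat.cast_nonneg _) (by positivity) hl
    calc ((N / Nat.lcm g h : ℕ) : ℝ) * (f g * f h) ≤ N / (√(g : ℝ) * √(h : ℝ)) * (f g * f h) :=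
          mul_le_mul_of_nonneg_right h5 (mul_nonneg (hf g) (hf h))
      _ = N * ((f g / √g) * (f h / √h)) := by
          field_simp
  refine (Finset.sum_le_sum h3).trans (le_of_eq ?_)
  rw [sq, Finset.sum_mul_sum, Finset.mul_sum]
  refine Finset.sum_congr rfl fun g _ => ?_
  rw [Finset.mul_sum]

theorem Sing_sqrt_step {m : ℕ} (hm : 1 ≤ m) :
    1 / √((m + 1 : ℕ) : ℝ) ≤ 2 * (√((m + 1 : ℕ) : ℝ) - √(m : ℝ)) ∧
    1 / (((m + 1 : ℕ) : ℝ) * √((m + 1 : ℕ) : ℝ)) ≤ 2 * (1 / √(m : ℝ) - 1 / √((m + 1 : ℕ) : ℝ)) := by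
  have hm0 : (0 : ℝ) < m := by exact_mod_cast hm
  set a := √(m : ℝ) with ha
  set b := √((m + 1 : ℕ) : ℝ) with hb
  have ha0 : 0 < a := Real.sqrt_pos.2 hm0
  have hab : a ≤ b := Real.sqrt_le_sqrt (by push_cast; linarith)
  have hb0 : 0 < b := lt_of_lt_of_le ha0 hab
  have ha2 : a ^ 2 = m := Real.sq_sqrt hm0.le
  have hb2 : b ^ 2 = (m : ℝ) + 1 := by
    rw [hb, Real.sq_sqrt (Nat.cast_nonneg _)]
    push_cast
    ring
  have h1 : (b - a) * (b + a) = 1 := by nlinarith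
  have h2 : 1 ≤ 2 * (b - a) * b := by nlinarith
  constructor
  · rw [div_le_iff₀ hb0]
    exact h2
  · have h3 : ((m + 1 : ℕ) : ℝ) = b ^ 2 := by rw [hb2]; push_cast; ring
    rw [h3]
    have h4 : 1 / a - 1 / b = (b - a) / (a * b) := by
      field_simp
    rw [h4, div_le_iff₀ (by positivity)]
    have h5 : 2 * ((b - a) / (a * b)) * (b ^ 2 * b) = 2 * (b - a) * b * (b / a) := by
      field_simp
    rw [h5]
    have h6 : 1 ≤ b / a := by
      rw [le_div_iff₀ ha0]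
      linarith
    nlinarith

theorem Sing_sum_min {Q0 : ℕ} (hQ : 1 ≤ Q0) (N : ℕ) :
    ∑ g ∈ Finset.Icc 1 N, min (1 / (g : ℝ)) (1 / (Q0 : ℝ)) / √g ≤ 4 / √(Q0 : ℝ) := by
  have hQ0 : (0 : ℝ) < Q0 := by exact_mod_cast hQ
  have hs0 : 0 < √(Q0 : ℝ) := Real.sqrt_pos.2 hQ0
  have hlow : ∀ m : ℕ, m ≤ Q0 →
      ∑ g ∈ Finset.Icc 1 m, min (1 / (g : ℝ)) (1 / (Q0 : ℝ)) / √g ≤ 2 * √(m : ℝ) / Q0 := by
    intro m
    induction m with
    | zero => intro _; simp
    | succ m ih =>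
      intro hm
      rw [Finset.sum_Icc_succ_top (by omega)]
      have h1 := ih (by omega)
      have h2 : min (1 / ((m + 1 : ℕ) : ℝ)) (1 / (Q0 : ℝ)) / √((m + 1 : ℕ) : ℝ) ≤
          2 * (√((m + 1 : ℕ) : ℝ) - √(m : ℝ)) / Q0 := by
        have hm1 : (0 : ℝ) < √((m + 1 : ℕ) : ℝ) := Real.sqrt_pos.2 (by positivity)
        have h3 : 1 / √((m + 1 : ℕ) : ℝ) ≤ 2 * (√((m + 1 : ℕ) : ℝ) - √(m : ℝ)) := by
          rcases Nat.eq_zero_or_pos m with h0 | h0
          · subst h0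
            norm_num
          · exact (Sing_sqrt_step h0).1
        calc _ ≤ (1 / (Q0 : ℝ)) / √((m + 1 : ℕ) : ℝ) :=
              div_le_div_of_nonneg_right (min_le_right _ _) hm1.le
          _ = (1 / √((m + 1 : ℕ) : ℝ)) / Q0 := by rw [div_right_comm]
          _ ≤ _ := div_le_div_of_nonneg_right h3 hQ0.le
      have h4 : 2 * √((m + 1 : ℕ) : ℝ) / Q0 = 2 * √(m : ℝ) / Q0 +
          2 * (√((m + 1 : ℕ) : ℝ) - √(m : ℝ)) / Q0 := by ring
      rw [h4]
      linarith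
  have hbase : 2 * √(Q0 : ℝ) / Q0 = 2 / √(Q0 : ℝ) := by
    have : (Q0 : ℝ) = √(Q0 : ℝ) * √(Q0 : ℝ) := (Real.mul_self_sqrt hQ0.le).symm
    rw [div_eq_div_iff hQ0.ne' hs0.ne']
    rw [mul_assoc, ← this]
  rcases le_total N Q0 with hN | hN
  · refine (hlow N hN).trans ?_
    have h1 : √(N : ℝ) ≤ √(Q0 : ℝ) := Real.sqrt_le_sqrt (by exact_mod_cast hN)
    calc 2 * √(N : ℝ) / Q0 ≤ 2 * √(Q0 : ℝ) / Q0 := by gcongr
      _ = 2 / √(Q0 : ℝ) := hbase
      _ ≤ 4 / √(Q0 : ℝ) := by gcongr; norm_num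
  · have hhigh : ∀ k : ℕ, ∑ g ∈ Finset.Icc 1 (Q0 + k), min (1 / (g : ℝ)) (1 / (Q0 : ℝ)) / √g ≤
        4 / √(Q0 : ℝ) - 2 / √((Q0 + k : ℕ) : ℝ) := by
      intro k
      induction k with
      | zero =>
        have h1 := hlow Q0 le_rfl
        rw [hbase] at h1
        simp only [Nat.add_zero]
        have h2 : 4 / √(Q0 : ℝ) - 2 / √(Q0 : ℝ) = 2 / √(Q0 : ℝ) := by ring
        rw [h2]
        exact h1
      | succ k ih =>
        rw [← Nat.add_assoc, Finset.sum_Icc_succ_top (by omega)]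
        have h1 := (Sing_sqrt_step (m := Q0 + k) (by omega)).2
        have hm1 : (0 : ℝ) < √((Q0 + k + 1 : ℕ) : ℝ) := Real.sqrt_pos.2 (by positivity)
        have h2 : min (1 / ((Q0 + k + 1 : ℕ) : ℝ)) (1 / (Q0 : ℝ)) / √((Q0 + k + 1 : ℕ) : ℝ) ≤
            1 / (((Q0 + k + 1 : ℕ) : ℝ) * √((Q0 + k + 1 : ℕ) : ℝ)) := by
          rw [← div_div]
          exact div_le_div_of_nonneg_right (min_le_left _ _) hm1.le
        have h3 : 2 * (1 / √((Q0 + k : ℕ) : ℝ) - 1 / √((Q0 + k + 1 : ℕ) : ℝ)) =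
            2 / √((Q0 + k : ℕ) : ℝ) - 2 / √((Q0 + k + 1 : ℕ) : ℝ) := by ring
        rw [h3] at h1
        linarith
    obtain ⟨k, rfl⟩ := Nat.exists_eq_add_of_le hN
    refine (hhigh k).trans ?_
    have : 0 ≤ 2 / √((Q0 + k : ℕ) : ℝ) := by positivity
    linarith

/-- mean square of the tail -/
theorem sing_tail_mean : ∃ C : ℝ, 0 < C ∧ ∀ Q0 N : ℕ, 1 ≤ Q0 → 1 ≤ N →
    ∑ n ∈ Finset.Icc 1 N, (sing Q0 n - singFull n) ^ 2 ≤ C * N / Q0 := by
  obtain ⟨C, hC, h⟩ := sing_tail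
  refine ⟨16 * C ^ 2, by positivity, fun Q0 N hQ hN => ?_⟩
  have hQ0 : (0 : ℝ) < Q0 := by exact_mod_cast hQ
  have hf : ∀ g : ℕ, 0 ≤ min (1 / (g : ℝ)) (1 / (Q0 : ℝ)) := fun g =>
    le_min (by positivity) (by positivity)
  have h1 := Sing_sq_div_sum (fun g => min (1 / (g : ℝ)) (1 / (Q0 : ℝ))) hf N
  have h2 := Sing_sum_min hQ N
  have h20 : 0 ≤ ∑ g ∈ Finset.Icc 1 N, min (1 / (g : ℝ)) (1 / (Q0 : ℝ)) / √g :=
    Finset.sum_nonneg fun g _ => div_nonneg (hf g) (Real.sqrt_nonneg _)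
  have h3 : (∑ g ∈ Finset.Icc 1 N, min (1 / (g : ℝ)) (1 / (Q0 : ℝ)) / √g) ^ 2 ≤ 16 / Q0 := by
    calc _ ≤ (4 / √(Q0 : ℝ)) ^ 2 := pow_le_pow_left₀ h20 h2 2
      _ = 16 / Q0 := by rw [div_pow, Real.sq_sqrt hQ0.le]; norm_num
  calc ∑ n ∈ Finset.Icc 1 N, (sing Q0 n - singFull n) ^ 2
      ≤ ∑ n ∈ Finset.Icc 1 N, C ^ 2 * (∑ g ∈ Nat.divisors n,
          min (1 / (g : ℝ)) (1 / (Q0 : ℝ))) ^ 2 := by
        refine Finset.sum_le_sum fun n hn => ?_
        have h4 := h Q0 n hQ (Finset.mem_Icc.1 hn).1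
        rw [← sq_abs, ← mul_pow]
        exact pow_le_pow_left₀ (abs_nonneg _) h4 2
    _ = C ^ 2 * ∑ n ∈ Finset.Icc 1 N, (∑ g ∈ Nat.divisors n,
          min (1 / (g : ℝ)) (1 / (Q0 : ℝ))) ^ 2 := by rw [Finset.mul_sum]
    _ ≤ C ^ 2 * (N * (16 / Q0)) := by
        refine mul_le_mul_of_nonneg_left (h1.trans ?_) (by positivity)
        exact mul_le_mul_of_nonneg_left h3 (Nat.cast_nonneg _)
    _ = 16 * C ^ 2 * N / Q0 := by ring

/-- a crude bound for the truncated series -/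
theorem abs_sing_le (Q0 : ℕ) : ∃ C : ℝ, 0 < C ∧ ∀ n : ℕ, |sing Q0 n| ≤ C := by
  refine ⟨2 * Q0 + 1, by positivity, fun n => ?_⟩
  have h1 : |sing Q0 n| ≤ ∑ q ∈ Finset.Icc 1 Q0, (2 : ℝ) := by
    refine (Finset.abs_sum_le_sum_abs _ _).trans (Finset.sum_le_sum fun q hq => ?_)
    have hq1 := (Finset.mem_Icc.1 hq).1
    have hq0 : (1 : ℝ) ≤ q := by exact_mod_cast hq1
    have h2 := Sing_f_bound (n := n) hq1
    refine h2.trans ?_
    have h3 : (Nat.gcd q n : ℝ) ≤ q := by exact_mod_cast Nat.gcd_le_left n hq1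
    have h4 : (q : ℝ) * ((q : ℝ) ^ 2)⁻¹ ≤ 1 := by
      rw [← div_eq_mul_inv, div_le_one (by positivity)]
      nlinarith
    calc 2 * (Nat.gcd q n : ℝ) * ((q : ℝ) ^ 2)⁻¹ ≤ 2 * (q : ℝ) * ((q : ℝ) ^ 2)⁻¹ := by gcongr
      _ = 2 * ((q : ℝ) * ((q : ℝ) ^ 2)⁻¹) := by ring
      _ ≤ 2 * 1 := mul_le_mul_of_nonneg_left h4 (by norm_num)
      _ = 2 := by norm_num
  refine h1.trans ?_
  rw [Finset.sum_const, Nat.card_Icc, nsmul_eq_mul, Nat.add_sub_cancel]
  linarith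

theorem Sing_inv_le {n : ℕ} (hn : 1 ≤ n) :
    1 / singFull n ≤ 2 * ∑ g ∈ n.divisors, 1 / (g : ℝ) := by
  classical
  have hn0 : n ≠ 0 := by omega
  set r : ℕ := ∏ p ∈ n.primeFactors, p with hr
  have hrn : r ∣ n := Nat.prod_primeFactors_dvd n
  have hrp : r.primeFactors = n.primeFactors := Nat.primeFactors_prod (by
    intro p hp
    exact Nat.prime_of_mem_primeFactors hp)
  have hrs : Squarefree r := by
    rw [hr]
    refine Finset.squarefree_prod_of_pairwise_isCoprime (fun p hp q hq hpq => ?_)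
      fun p hp => (Nat.prime_of_mem_primeFactors hp).squarefree
    simp only [Function.onFun, ← Nat.coprime_iff_isRelPrime]
    exact (Nat.coprime_primes (Nat.prime_of_mem_primeFactors hp)
      (Nat.prime_of_mem_primeFactors hq)).mpr hpq
  let G : ArithmeticFunction ℝ := ⟨fun g => 1 / (g : ℝ), by simp⟩
  have hG : G.IsMultiplicative := by
    constructor
    · show (1 : ℝ) / ((1 : ℕ) : ℝ) = 1
      simp
    · intro a b _
      show (1 : ℝ) / ((a * b : ℕ) : ℝ) = 1 / (a : ℝ) * (1 / (b : ℝ))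
      push_cast
      rw [div_mul_div_comm, one_mul]
  have h1 : ∏ p ∈ n.primeFactors, (1 + 1 / (p : ℝ)) = ∑ d ∈ r.divisors, 1 / (d : ℝ) := by
    have := hG.prodPrimeFactors_one_add_of_squarefree hrs
    rw [hrp] at this
    exact this
  have h2 : ∏ p ∈ n.primeFactors, (1 + 1 / (p : ℝ)) ≤ ∑ g ∈ n.divisors, 1 / (g : ℝ) := by
    rw [h1]
    refine Finset.sum_le_sum_of_subset_of_nonneg (Nat.divisors_subset_of_dvd hn0 hrn)
      fun _ _ _ => by positivity
  have h3 := NewDec_prod_le n.primeFactors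
    (fun p hp => (Nat.prime_of_mem_primeFactors hp).two_le)
  have h4 : (∏ p ∈ n.primeFactors, (1 + 1 / (p : ℝ))) *
      (∏ p ∈ n.primeFactors, (1 + 1 / ((p : ℝ) ^ 2 - 1))) *
      (∏ p ∈ n.primeFactors, (1 - 1 / (p : ℝ))) = 1 := by
    rw [← Finset.prod_mul_distrib, ← Finset.prod_mul_distrib]
    refine Finset.prod_eq_one fun p hp => ?_
    have hp2 : (2 : ℝ) ≤ p := by exact_mod_cast (Nat.prime_of_mem_primeFactors hp).two_le
    have h5 : (p : ℝ) ^ 2 - 1 ≠ 0 := by nlinarith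
    have h6 : (p : ℝ) ≠ 0 := by linarith
    field_simp
    ring
  have hpi : 1 ≤ Real.pi ^ 2 / 6 := by
    have := Real.pi_gt_three
    nlinarith
  set a := ∏ p ∈ n.primeFactors, (1 + 1 / (p : ℝ)) with ha
  set b := ∏ p ∈ n.primeFactors, (1 + 1 / ((p : ℝ) ^ 2 - 1)) with hb
  have hc0 : 0 < ∏ p ∈ n.primeFactors, (1 - 1 / (p : ℝ)) := Finset.prod_pos fun p hp =>
    (Sing_factor (Nat.prime_of_mem_primeFactors hp).two_le).1
  have ha0 : 0 < a := Finset.prod_pos fun p _ => by positivity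
  have hsf := singFull_pos hn
  have hs : ∏ p ∈ n.primeFactors, (1 - 1 / (p : ℝ)) ≤ singFull n := by
    unfold singFull
    nlinarith
  rw [div_le_iff₀ hsf]
  have h5 : 1 ≤ a * 2 * singFull n := by
    calc (1 : ℝ) = a * b * ∏ p ∈ n.primeFactors, (1 - 1 / (p : ℝ)) := h4.symm
      _ ≤ a * 2 * ∏ p ∈ n.primeFactors, (1 - 1 / (p : ℝ)) :=
          mul_le_mul_of_nonneg_right (mul_le_mul_of_nonneg_left h3 ha0.le) hc0.le
      _ ≤ a * 2 * singFull n := mul_le_mul_of_nonneg_left hs (by positivity)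
  refine h5.trans ?_
  have h6 : a * 2 ≤ 2 * ∑ g ∈ n.divisors, 1 / (g : ℝ) := by linarith
  exact mul_le_mul_of_nonneg_right h6 hsf.le

/-- lower bound in mean for `singFull`: `∑_{n ≤ N} singFull(n)^(-2) ≤ C N` -/
theorem singFull_inv_mean : ∃ C : ℝ, 0 < C ∧ ∀ N : ℕ, 1 ≤ N →
    ∑ n ∈ Finset.Icc 1 N, 1 / (singFull n) ^ 2 ≤ C * N := by
  refine ⟨64, by norm_num, fun N hN => ?_⟩
  have h1 := Sing_sq_div_sum (fun g => 1 / (g : ℝ)) (fun g => by positivity) N
  have h2 := Sing_sum_min (le_refl 1) N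
  have h3 : ∑ g ∈ Finset.Icc 1 N, (1 / (g : ℝ)) / √g ≤ 4 := by
    refine le_trans (le_of_eq ?_) (h2.trans (by simp))
    refine Finset.sum_congr rfl fun g hg => ?_
    have hg1 : (1 : ℝ) ≤ g := by exact_mod_cast (Finset.mem_Icc.1 hg).1
    rw [min_eq_left]
    refine one_div_le_one_div_of_le (by norm_num) ?_
    simpa using hg1
  have h30 : 0 ≤ ∑ g ∈ Finset.Icc 1 N, (1 / (g : ℝ)) / √g :=
    Finset.sum_nonneg fun g _ => by positivity
  calc ∑ n ∈ Finset.Icc 1 N, 1 / (singFull n) ^ 2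
      ≤ ∑ n ∈ Finset.Icc 1 N, 4 * (∑ g ∈ n.divisors, 1 / (g : ℝ)) ^ 2 := by
        refine Finset.sum_le_sum fun n hn => ?_
        have hn1 := (Finset.mem_Icc.1 hn).1
        have h4 := Sing_inv_le hn1
        have h5 := singFull_pos hn1
        calc 1 / (singFull n) ^ 2 = (1 / singFull n) ^ 2 := by rw [div_pow, one_pow]
          _ ≤ (2 * ∑ g ∈ n.divisors, 1 / (g : ℝ)) ^ 2 :=
              pow_le_pow_left₀ (by positivity) h4 2
          _ = _ := by ring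
    _ = 4 * ∑ n ∈ Finset.Icc 1 N, (∑ g ∈ n.divisors, 1 / (g : ℝ)) ^ 2 := by
        rw [Finset.mul_sum]
    _ ≤ 4 * (N * 16) := by
        refine mul_le_mul_of_nonneg_left (h1.trans ?_) (by norm_num)
        refine mul_le_mul_of_nonneg_left ?_ (Nat.cast_nonneg _)
        calc _ ≤ (4 : ℝ) ^ 2 := pow_le_pow_left₀ h30 h3 2
          _ = 16 := by norm_num
    _ = 64 * N := by ring

end Pool.Agent.W_f50700_h3
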