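import Pool.Agent.W_f50700_h3.CirA
import Pool.Agent.W_f50700_h3.NewDec

/-!
SingA: Ramanujan sums (row 440, C4).
-/

open Filter Topology

namespace Pool.Agent.W_f50700_h3

/-- Ramanujan sum `c_q(n) = ∑_{g ∣ (q,n)} g μ(q/g)` -/
noncomputable def ram (q n : ℕ) : ℝ :=
  ∑ g ∈ Nat.divisors (Nat.gcd q n), (g : ℝ) * ((ArithmeticFunction.moebius (q / g) : ℤ) : ℝ)

theorem singA_e_zero : e 0 = 1 := by
  simp [e]

theorem singA_e_nat_mul (b : ℕ) (x : ℝ) : e ((b : ℝ) * x) = (e x) ^ b := by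
  unfold e
  rw [← Complex.exp_nat_mul]
  congr 1
  push_cast
  ring

theorem singA_e_int (k : ℕ) : e (k : ℝ) = 1 := by
  unfold e
  rw [Complex.exp_eq_one_iff]
  exact ⟨k, by push_cast; ring⟩

theorem singA_e_eq_one {g n : ℕ} (hg : 1 ≤ g) (h : e ((n : ℝ) / g) = 1) : g ∣ n := by
  unfold e at h
  rw [Complex.exp_eq_one_iff] at h
  obtain ⟨k, hk⟩ := h
  have hg0 : (g : ℂ) ≠ 0 := by
    have : g ≠ 0 := by omega
    exact_mod_cast this
  have h1 : (n : ℂ) = k * g := by
    have h2 : (2 * Real.pi * Complex.I : ℂ) ≠ 0 := Complex.two_pi_I_ne_zero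
    push_cast at hk
    have h3 : (2 * Real.pi * Complex.I : ℂ) * ((n : ℂ) / g) = (2 * Real.pi * Complex.I) * k := by
      rw [hk]
      ring
    have h4 := mul_left_cancel₀ h2 h3
    field_simp at h4
    rw [h4]
    ring
  have h5 : (n : ℤ) = k * g := by exact_mod_cast h1
  have h6 : (g : ℤ) ∣ n := ⟨k, by rw [h5]; ring⟩
  exact_mod_cast h6

/-- complete sums -/
theorem singA_geom (g n : ℕ) (hg : 1 ≤ g) :
    ∑ b ∈ Finset.range g, e ((b : ℝ) * ((n : ℝ) / g)) = if g ∣ n then (g : ℂ) else 0 := by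
  simp only [singA_e_nat_mul]
  have hg0 : (g : ℝ) ≠ 0 := by
    have : g ≠ 0 := by omega
    exact_mod_cast this
  by_cases h : g ∣ n
  · rw [if_pos h]
    obtain ⟨k, rfl⟩ := h
    have h1 : (((g * k : ℕ) : ℝ)) / g = (k : ℝ) := by
      push_cast
      field_simp
    rw [h1, singA_e_int]
    simp
  · rw [if_neg h]
    have hne : e ((n : ℝ) / g) ≠ 1 := fun h1 => h (singA_e_eq_one hg h1)
    rw [geom_sum_eq hne]
    have h2 : (e ((n : ℝ) / g)) ^ g = 1 := by
      rw [← singA_e_nat_mul]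
      have h3 : (g : ℝ) * ((n : ℝ) / g) = (n : ℝ) := by field_simp
      rw [h3, singA_e_int]
    rw [h2]
    simp

theorem singA_moebius (n : ℕ) : ∑ d ∈ n.divisors, (ArithmeticFunction.moebius d : ℤ) =
    if n = 1 then 1 else 0 := by
  have h1 := congrArg (fun f : ArithmeticFunction ℤ => f n) ArithmeticFunction.moebius_mul_coe_zeta
  rw [ArithmeticFunction.coe_mul_zeta_apply, ArithmeticFunction.one_apply] at h1
  exact h1

/-- multiples of `d` below `q` -/
theorem singA_multiples {q d : ℕ} (hd : d ∣ q) (hq : 1 ≤ q) (f : ℕ → ℂ) :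
    ∑ a ∈ (Finset.range q).filter (fun a => d ∣ a), f a = ∑ b ∈ Finset.range (q / d), f (d * b) := by
  have hd0 : 0 < d := Nat.pos_of_dvd_of_pos hd (by omega)
  obtain ⟨r, rfl⟩ := hd
  rw [Nat.mul_div_cancel_left _ hd0]
  have h1 : (Finset.range (d * r)).filter (fun a => d ∣ a) =
      (Finset.range r).image (fun b => d * b) := by
    ext a
    simp only [Finset.mem_filter, Finset.mem_range, Finset.mem_image]
    constructor
    · rintro ⟨h1, b, rfl⟩
      exact ⟨b, Nat.lt_of_mul_lt_mul_left h1, rfl⟩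
    · rintro ⟨b, hb, rfl⟩
      exact ⟨Nat.mul_lt_mul_of_pos_left hb hd0, dvd_mul_right _ _⟩
  rw [h1, Finset.sum_image]
  intro x _ y _ hxy
  exact Nat.eq_of_mul_eq_mul_left hd0 hxy

theorem singA_divisors_gcd (q n : ℕ) (hq : 1 ≤ q) :
    Nat.divisors (Nat.gcd q n) = (Nat.divisors q).filter (fun g => g ∣ n) := by
  ext g
  have h0 : Nat.gcd q n ≠ 0 := by
    have := Nat.gcd_pos_of_pos_left n (show 0 < q by omega)
    omega
  simp only [Nat.mem_divisors, Finset.mem_filter, Nat.dvd_gcd_iff]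
  constructor
  · rintro ⟨⟨h1, h2⟩, _⟩
    exact ⟨⟨h1, by omega⟩, h2⟩
  · rintro ⟨⟨h1, _⟩, h2⟩
    exact ⟨⟨h1, h2⟩, h0⟩

/-- `c_q(n)` as an exponential sum -/
theorem ram_eq (q n : ℕ) (hq : 1 ≤ q) :
    ∑ a ∈ (Finset.range q).filter (fun a => Nat.Coprime a q), e ((a : ℝ) * n / q) =
      (ram q n : ℂ) := by
  have h1 : ∑ a ∈ (Finset.range q).filter (fun a => Nat.Coprime a q), e ((a : ℝ) * n / q) =
      ∑ a ∈ Finset.range q, ∑ d ∈ q.divisors,
        (if d ∣ a then ((ArithmeticFunction.moebius d : ℤ) : ℂ) * e ((a : ℝ) * n / q) else 0) := by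
    rw [Finset.sum_filter]
    refine Finset.sum_congr rfl fun a _ => ?_
    rw [← Finset.sum_filter, ← Finset.sum_mul]
    have h2 : (q.divisors.filter (fun d => d ∣ a)) = (Nat.gcd q a).divisors :=
      (singA_divisors_gcd q a hq).symm
    have h3 : ∑ d ∈ (Nat.gcd q a).divisors, ((ArithmeticFunction.moebius d : ℤ) : ℂ) =
        ((if Nat.gcd q a = 1 then (1 : ℤ) else 0 : ℤ) : ℂ) := by
      rw [← singA_moebius]
      push_cast
      rfl
    rw [h2, h3]
    by_cases h4 : Nat.Coprime a q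
    · have h5 : Nat.gcd q a = 1 := by rw [Nat.gcd_comm]; exact h4
      rw [if_pos h4, if_pos h5]
      simp
    · have h5 : ¬ Nat.gcd q a = 1 := by rw [Nat.gcd_comm]; exact h4
      rw [if_neg h4, if_neg h5]
      simp
  rw [h1, Finset.sum_comm]
  have h2 : ∀ d ∈ q.divisors, ∑ a ∈ Finset.range q,
      (if d ∣ a then ((ArithmeticFunction.moebius d : ℤ) : ℂ) * e ((a : ℝ) * n / q) else 0) =
      ((ArithmeticFunction.moebius d : ℤ) : ℂ) *
        (if (q / d) ∣ n then (((q / d : ℕ)) : ℂ) else 0) := by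
    intro d hd
    have hdq := (Nat.mem_divisors.1 hd).1
    have hd0 : 0 < d := Nat.pos_of_dvd_of_pos hdq (by omega)
    rw [← Finset.sum_filter, ← Finset.mul_sum, singA_multiples hdq hq]
    congr 1
    rw [← singA_geom (q / d) n (Nat.div_pos (Nat.le_of_dvd (by omega) hdq) hd0)]
    refine Finset.sum_congr rfl fun b _ => ?_
    congr 1
    obtain ⟨r, hr⟩ := hdq
    have h3 : q / d = r := by rw [hr, Nat.mul_div_cancel_left _ hd0]
    have hr0 : (r : ℝ) ≠ 0 := by
      have : r ≠ 0 := by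
        rintro rfl
        omega
      exact_mod_cast this
    have hd0' : (d : ℝ) ≠ 0 := by exact_mod_cast hd0.ne'
    rw [h3, hr]
    push_cast
    field_simp
  rw [Finset.sum_congr rfl h2]
  have h3 : ∑ d ∈ q.divisors, ((ArithmeticFunction.moebius d : ℤ) : ℂ) *
        (if (q / d) ∣ n then (((q / d : ℕ)) : ℂ) else 0) =
      ∑ g ∈ q.divisors, ((ArithmeticFunction.moebius (q / g) : ℤ) : ℂ) *
        (if g ∣ n then ((g : ℕ) : ℂ) else 0) := by
    rw [← Nat.sum_div_divisors q (fun g => ((ArithmeticFunction.moebius (q / g) : ℤ) : ℂ) *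
        (if g ∣ n then ((g : ℕ) : ℂ) else 0))]
    refine Finset.sum_congr rfl fun d hd => ?_
    rw [Nat.div_div_self (Nat.mem_divisors.1 hd).1 (by omega)]
  rw [h3, ram, singA_divisors_gcd q n hq, Finset.sum_filter]
  push_cast
  refine Finset.sum_congr rfl fun g _ => ?_
  by_cases h4 : g ∣ n
  · rw [if_pos h4, if_pos h4]
    push_cast
    ring
  · rw [if_neg h4, if_neg h4]
    simp

/-- same with the opposite sign -/
theorem ram_eq_neg (q n : ℕ) (hq : 1 ≤ q) :
    ∑ a ∈ (Finset.range q).filter (fun a => Nat.Coprime a q), e (-((a : ℝ) * n / q)) =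
      (ram q n : ℂ) := by
  have h1 : ∀ x : ℝ, e (-x) = (starRingEnd ℂ) (e x) := by
    intro x
    unfold e
    rw [← Complex.exp_conj]
    congr 1
    rw [map_mul, map_mul, map_mul, Complex.conj_I, Complex.conj_ofReal, Complex.conj_ofReal,
      map_ofNat]
    push_cast
    ring
  have h2 := congrArg (starRingEnd ℂ) (ram_eq q n hq)
  rw [map_sum, Complex.conj_ofReal] at h2
  rw [← h2]
  exact Finset.sum_congr rfl fun a _ => h1 _

theorem ram_zero (q : ℕ) (hq : 1 ≤ q) : ram q 0 = Nat.totient q := by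
  have h1 := ram_eq q 0 hq
  have h2 : ∑ a ∈ (Finset.range q).filter (fun a => Nat.Coprime a q),
      e ((a : ℝ) * ((0 : ℕ) : ℝ) / q) = (Nat.totient q : ℂ) := by
    have h3 : ∀ a ∈ (Finset.range q).filter (fun a => Nat.Coprime a q),
        e ((a : ℝ) * ((0 : ℕ) : ℝ) / q) = 1 := by
      intro a _
      rw [Nat.cast_zero, mul_zero, zero_div, singA_e_zero]
    rw [Finset.sum_congr rfl h3, Finset.sum_const, nsmul_eq_mul, mul_one, Nat.totient]
    congr 2
    ext a
    simp only [Finset.mem_filter, Finset.mem_range, Nat.coprime_comm]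
  rw [h2] at h1
  exact_mod_cast h1.symm

theorem ram_squarefree {q n : ℕ} (hq : 1 ≤ q) (hsq : Squarefree q) :
    ram q n = ((ArithmeticFunction.moebius (q / Nat.gcd q n) : ℤ) : ℝ) *
      Nat.totient (Nat.gcd q n) := by
  set d := Nat.gcd q n with hd
  have hd0 : 0 < d := Nat.gcd_pos_of_pos_left n (by omega)
  obtain ⟨r, hr⟩ : d ∣ q := Nat.gcd_dvd_left q n
  have hr' : q / d = r := by rw [hr, Nat.mul_div_cancel_left _ hd0]
  have hcop : Nat.Coprime d r := by
    have := hsq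
    rw [hr] at this
    exact Nat.coprime_of_squarefree_mul this
  rw [hr', ← ram_zero d hd0]
  unfold ram
  rw [← hd, Nat.gcd_zero_right, Finset.mul_sum]
  refine Finset.sum_congr rfl fun g hg => ?_
  have hgd := (Nat.mem_divisors.1 hg).1
  have h1 : q / g = (d / g) * r := by
    rw [hr, Nat.mul_comm d r, Nat.mul_div_assoc _ hgd, Nat.mul_comm]
  have h2 : Nat.Coprime (d / g) r := Nat.Coprime.coprime_dvd_left (Nat.div_dvd_of_dvd hgd) hcop
  rw [h1, ArithmeticFunction.isMultiplicative_moebius.map_mul_of_coprime h2]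
  push_cast
  ring

theorem abs_ram_le {q n : ℕ} (hq : 1 ≤ q) (hsq : Squarefree q) :
    |ram q n| ≤ Nat.gcd q n := by
  rw [ram_squarefree hq hsq, abs_mul]
  have h1 : |((ArithmeticFunction.moebius (q / Nat.gcd q n) : ℤ) : ℝ)| ≤ 1 := by
    have := ArithmeticFunction.abs_moebius_le_one (n := q / Nat.gcd q n)
    exact_mod_cast this
  have h2 : |(Nat.totient (Nat.gcd q n) : ℝ)| ≤ Nat.gcd q n := by
    rw [abs_of_nonneg (by positivity)]
    exact_mod_cast Nat.totient_le _
  calc |((ArithmeticFunction.moebius (q / Nat.gcd q n) : ℤ) : ℝ)| *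
        |(Nat.totient (Nat.gcd q n) : ℝ)| ≤ 1 * Nat.gcd q n :=
        mul_le_mul h1 h2 (abs_nonneg _) zero_le_one
    _ = _ := one_mul _

/-- truncated singular series -/
noncomputable def sing (Q0 n : ℕ) : ℝ :=
  ∑ q ∈ Finset.Icc 1 Q0, ((ArithmeticFunction.moebius q : ℤ) : ℝ) / psi2 q * ram q n

/-- a crude bound for the truncated series -/
theorem abs_sing_le (Q0 : ℕ) : ∃ C : ℝ, 0 < C ∧ ∀ n : ℕ, |sing Q0 n| ≤ C := by
  refine ⟨1 + ∑ q ∈ Finset.Icc 1 Q0, (q : ℝ) / psi2 q, ?_, ?_⟩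
  · have : 0 ≤ ∑ q ∈ Finset.Icc 1 Q0, (q : ℝ) / psi2 q :=
      Finset.sum_nonneg fun q _ => div_nonneg (Nat.cast_nonneg q) (psi2_pos q).le
    linarith
  · intro n
    have h1 : |sing Q0 n| ≤ ∑ q ∈ Finset.Icc 1 Q0, (q : ℝ) / psi2 q := by
      unfold sing
      refine (Finset.abs_sum_le_sum_abs _ _).trans (Finset.sum_le_sum fun q hq => ?_)
      have hq1 := (Finset.mem_Icc.1 hq).1
      have hp := psi2_pos q
      by_cases hsq : Squarefree q
      · rw [abs_mul, abs_div, abs_of_pos hp]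
        have h2 : |((ArithmeticFunction.moebius q : ℤ) : ℝ)| ≤ 1 := by
          have := ArithmeticFunction.abs_moebius_le_one (n := q)
          exact_mod_cast this
        have h3 : |ram q n| ≤ q := by
          refine (abs_ram_le hq1 hsq).trans ?_
          exact_mod_cast Nat.gcd_le_left n (by omega)
        calc |((ArithmeticFunction.moebius q : ℤ) : ℝ)| / psi2 q * |ram q n|
            ≤ 1 / psi2 q * q := by gcongr
          _ = (q : ℝ) / psi2 q := by ring
      · rw [ArithmeticFunction.moebius_eq_zero_of_not_squarefree hsq]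
        simp only [Int.cast_zero, zero_div, zero_mul, abs_zero]
        positivity
    linarith

end Pool.Agent.W_f50700_h3
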